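import Pool.Agent.Lib.MP_94ab62_ntZ.NtA

/-!
# DdC: powers of `λ`; nearly equal powers are equal

`λ = lam z = e^{F z}`, `1/λ = e^{-F z}`, `λ + 1/λ = 3z`, `λ - 1/λ = sq z`.
`luc`: integers `P_a, U_a` with `e^{a F z} + e^{-a F z} = P_a`, `e^{a F z} - e^{-a F z} = U_a sq z`: `P_0 = 2, U_0 = 0, P_1 = 3z, U_1 = 1`,
  `P_{a+2} = 3z P_{a+1} - P_a`, the same for `U`; (two-step induction).  `U_a ≥ 1` for `a ≥ 1` because the left side is positive.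
`near_eq`: `u = a F z`, `u' = a' F z'`: `e^u + e^{-u}` and `e^{u'} + e^{-u'}` are integers; their difference is `2|cosh u - cosh u'| ≤ 2 |u-u'| sinh(max) ≤ |u - u'| e^{max(u,u')}`
  and `max(u,u') ≤ u + ε`, `< 1` by hypothesis.  So `cosh u = cosh u'`, `u = u'` (both ≥ 0; `Real.cosh_le_cosh`/`abs`).
`comm_field`: `a F z = a' F z'`, `a, a' ≥ 1`: `U_a sq z = U'_{a'} sq z'`, squares: `U² D = U'² D'`, so `(U D)² = U² D · D = U'² D' D`, so `U' ∣ U D`?  In the form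
  `(U D / U')² = D D'` is an integer which is the square of a rational number, hence of an integer (`U'^2 ∣ (U D)^2 → U' ∣ U D`: `Int.pow_dvd_pow_iff`).
-/

set_option autoImplicit false

namespace Pool.Agent.Lib.MP_94ab62_ntZ

open Pool.Agent.Lib.MP_94ab62_nt Pool.Agent.Lib.MP_94ab62_ntU

theorem ddc_pow {z : ℕ} (a : ℕ) : Real.exp (a * F z) = lam z ^ a := by
  unfold lam
  rw [← Real.exp_nat_mul]

theorem ddc_pow' {z : ℕ} (a : ℕ) : Real.exp (-(a * F z)) = (1 / lam z) ^ a := by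
  rw [Real.exp_neg, ddc_pow, one_div, inv_pow]

theorem ddc_luc2 {z : ℕ} (hz : 1 ≤ z) (a : ℕ) :
    (∃ P U : ℤ, lam z ^ a + (1 / lam z) ^ a = P ∧ lam z ^ a - (1 / lam z) ^ a = U * sq z) ∧
    (∃ P U : ℤ, lam z ^ (a + 1) + (1 / lam z) ^ (a + 1) = P ∧
      lam z ^ (a + 1) - (1 / lam z) ^ (a + 1) = U * sq z) := by
  have hl := lam_ge hz
  have hl0 : (0 : ℝ) < lam z := by linarith
  have hadd := lam_add hz
  have hsub := lam_sub hz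
  have hm : lam z * (1 / lam z) = 1 := mul_one_div_cancel hl0.ne'
  obtain ⟨x, hx⟩ : ∃ x, x = lam z := ⟨_, rfl⟩
  obtain ⟨w, hw⟩ : ∃ w, w = 1 / lam z := ⟨_, rfl⟩
  rw [← hw, ← hx] at hadd hsub hm
  rw [← hw, ← hx]
  induction a with
  | zero =>
    refine ⟨⟨2, 0, ?_, ?_⟩, ⟨3 * z, 1, ?_, ?_⟩⟩
    · norm_num
    · norm_num
    · push_cast; linarith
    · push_cast; linarith
  | succ a ih =>
    obtain ⟨⟨P, U, h1, h2⟩, ⟨P', U', h3, h4⟩⟩ := ih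
    refine ⟨⟨P', U', h3, h4⟩, ⟨3 * z * P' - P, 3 * z * U' - U, ?_, ?_⟩⟩
    · have e : x ^ (a + 1 + 1) + w ^ (a + 1 + 1) =
          (x + w) * (x ^ (a + 1) + w ^ (a + 1)) - (x * w) * (x ^ a + w ^ a) := by ring
      rw [e, h3, h1, hadd, hm]
      push_cast
      ring
    · have e : x ^ (a + 1 + 1) - w ^ (a + 1 + 1) =
          (x + w) * (x ^ (a + 1) - w ^ (a + 1)) - (x * w) * (x ^ a - w ^ a) := by ring
      rw [e, h4, h2, hadd, hm]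
      push_cast
      ring

theorem luc {z : ℕ} (hz : 1 ≤ z) (a : ℕ) :
    ∃ P U : ℤ, Real.exp (a * F z) + Real.exp (-(a * F z)) = P ∧
      Real.exp (a * F z) - Real.exp (-(a * F z)) = U * sq z ∧ (1 ≤ a → 1 ≤ U) := by
  obtain ⟨⟨P, U, h1, h2⟩, -⟩ := ddc_luc2 hz a
  rw [← ddc_pow, ← ddc_pow'] at h1 h2
  refine ⟨P, U, h1, h2, fun ha => ?_⟩
  have hF := F_pos hz
  have ha' : (1 : ℝ) ≤ (a : ℝ) := by exact_mod_cast ha
  have hu : 0 < (a : ℝ) * F z := by positivity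
  have hlt : Real.exp (-((a : ℝ) * F z)) < Real.exp ((a : ℝ) * F z) := Real.exp_lt_exp.2 (by linarith)
  have h5 : 0 < (U : ℝ) * sq z := by rw [← h2]; linarith
  have h6 : 0 < (U : ℝ) := pos_of_mul_pos_left h5 (sq_pos hz).le
  have h7 : 0 < U := by exact_mod_cast h6
  omega

theorem ddc_exp {x y ε : ℝ} (h : |x - y| ≤ ε) (h1 : ε ≤ 1) : |Real.exp x - Real.exp y| ≤ 2 * ε * Real.exp x := by
  have e : Real.exp x - Real.exp y = -(Real.exp x * (Real.exp (y - x) - 1)) := by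
    rw [Real.exp_sub]
    have := (Real.exp_pos x).ne'
    field_simp
    ring
  rw [e, abs_neg, abs_mul, abs_of_pos (Real.exp_pos x)]
  have h2 : |y - x| ≤ ε := by rw [abs_sub_comm]; exact h
  have h3 := Real.abs_exp_sub_one_le (h2.trans h1)
  have h4 := Real.exp_pos x
  nlinarith

theorem near_eq {z z' : ℕ} (hz : 1 ≤ z) (hz' : 1 ≤ z') {a a' : ℕ} {ε : ℝ} (hε : |a * F z - a' * F z'| ≤ ε) (hε1 : ε ≤ 1)
    (h : 6 * ε * Real.exp (a * F z) < 1) : (a : ℝ) * F z = a' * F z' := by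
  obtain ⟨P, U, h1, -, -⟩ := luc hz a
  obtain ⟨P', U', h1', -, -⟩ := luc hz' a'
  have hu : 0 ≤ (a : ℝ) * F z := mul_nonneg (Nat.cast_nonneg _) (F_pos hz).le
  have hu' : 0 ≤ (a' : ℝ) * F z' := mul_nonneg (Nat.cast_nonneg _) (F_pos hz').le
  obtain ⟨u, hud⟩ : ∃ u, u = (a : ℝ) * F z := ⟨_, rfl⟩
  obtain ⟨v, hvd⟩ : ∃ v, v = (a' : ℝ) * F z' := ⟨_, rfl⟩
  rw [← hud] at h1 hu h
  rw [← hvd] at h1' hu'
  rw [← hud, ← hvd] at hε
  rw [← hud, ← hvd]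
  have h2 := ddc_exp hε hε1
  have h3 := ddc_exp (x := -u) (y := -v) (ε := ε) (by
    have e : -u - -v = -(u - v) := by ring
    rw [e, abs_neg]; exact hε) hε1
  have hε0 : 0 ≤ ε := (abs_nonneg _).trans hε
  have h4 : Real.exp (-u) ≤ Real.exp u := Real.exp_le_exp.2 (by linarith)
  have h5 : |(P : ℝ) - P'| < 1 := by
    rw [← h1, ← h1']
    have e : Real.exp u + Real.exp (-u) - (Real.exp v + Real.exp (-v)) =
        (Real.exp u - Real.exp v) + (Real.exp (-u) - Real.exp (-v)) := by ring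
    rw [e]
    have h6 := abs_add_le (Real.exp u - Real.exp v) (Real.exp (-u) - Real.exp (-v))
    have h7 : ε * Real.exp (-u) ≤ ε * Real.exp u := mul_le_mul_of_nonneg_left h4 hε0
    have h8 : 0 ≤ ε * Real.exp u := mul_nonneg hε0 (Real.exp_pos _).le
    nlinarith
  have h6 : |P - P'| < 1 := by exact_mod_cast h5
  have h7 : P = P' := by
    have := Int.abs_lt_one_iff.1 h6
    omega
  have h8 : Real.cosh u = Real.cosh v := by
    rw [Real.cosh_eq, Real.cosh_eq, h1, h1', h7]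
  have h9 : |u| = |v| := le_antisymm (Real.cosh_le_cosh.1 h8.le) (Real.cosh_le_cosh.1 h8.ge)
  rwa [abs_of_nonneg hu, abs_of_nonneg hu'] at h9

theorem comm_field {z z' : ℕ} (hz : 1 ≤ z) (hz' : 1 ≤ z') {a a' : ℕ} (ha : 1 ≤ a) (ha' : 1 ≤ a')
    (h : (a : ℝ) * F z = a' * F z') : ∃ W : ℕ, (W : ℤ) ^ 2 = (9 * (z : ℤ) ^ 2 - 4) * (9 * (z' : ℤ) ^ 2 - 4) := by
  obtain ⟨P, U, -, h2, h3⟩ := luc hz a
  obtain ⟨P', U', -, h2', h3'⟩ := luc hz' a'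
  rw [h] at h2
  have h4 : (U : ℝ) * sq z = U' * sq z' := by rw [← h2, ← h2']
  have h5 : (U : ℝ) ^ 2 * (9 * (z : ℝ) ^ 2 - 4) = (U' : ℝ) ^ 2 * (9 * (z' : ℝ) ^ 2 - 4) := by
    rw [← sq_sq hz, ← sq_sq hz', ← mul_pow, ← mul_pow, h4]
  have h6 : U ^ 2 * (9 * (z : ℤ) ^ 2 - 4) = U' ^ 2 * (9 * (z' : ℤ) ^ 2 - 4) := by exact_mod_cast h5
  have hU' := h3' ha'
  have h7 : U' ^ 2 ∣ (U * (9 * (z : ℤ) ^ 2 - 4)) ^ 2 := by
    refine ⟨(9 * (z : ℤ) ^ 2 - 4) * (9 * (z' : ℤ) ^ 2 - 4), ?_⟩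
    have e : (U * (9 * (z : ℤ) ^ 2 - 4)) ^ 2 = (U ^ 2 * (9 * (z : ℤ) ^ 2 - 4)) * (9 * (z : ℤ) ^ 2 - 4) := by ring
    rw [e, h6]
    ring
  have h8 : U' ∣ U * (9 * (z : ℤ) ^ 2 - 4) := (Int.pow_dvd_pow_iff two_ne_zero).1 h7
  obtain ⟨w, hw⟩ := h8
  refine ⟨w.natAbs, ?_⟩
  rw [Int.natAbs_sq]
  have hU0 : U' ^ 2 ≠ 0 := pow_ne_zero _ (by omega)
  apply mul_left_cancel₀ hU0
  have e : U' ^ 2 * w ^ 2 = (U * (9 * (z : ℤ) ^ 2 - 4)) ^ 2 := by rw [hw]; ring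
  rw [e]
  have e2 : (U * (9 * (z : ℤ) ^ 2 - 4)) ^ 2 = (U ^ 2 * (9 * (z : ℤ) ^ 2 - 4)) * (9 * (z : ℤ) ^ 2 - 4) := by ring
  rw [e2, h6]
  ring

end Pool.Agent.Lib.MP_94ab62_ntZ
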