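import Pool.Agent.Lib.MP_94ab62_ntZ.RaC

/-!
# RaD: asymptotics of lengths and defects along a ray

Write `T = TT z y n`, `D = 9z² - 4 ≥ 5`, `c = 9z²/D = 1 + 4/D`, `E = e^{F(y_n)}`, so `E + 1/E = 3 y_n` (`cosh_F`), `E ≥ 1`.
`δ = sg z y n = F(y_n) - log T`, i.e. `E = T e^δ`.  `TT_rel`: `T e^δ + e^{-δ}/T = T + c/T`, that is
  (1)  `T² (e^δ - 1) = c - e^{-δ}`.
`δ > 0`: `x ↦ x + 1/x` is increasing on `[1,∞)`, `E + 1/E = T + c/T > T + 1/T`, `T ≥ 1` (`TT_ge`), so `E > T`.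
Hence `0 ≤ c - e^{-δ} = 4/D + (1 - e^{-δ}) ≤ 4/D + δ`, and `e^δ - 1 ≥ δ`, so `T² δ ≤ 4/D + δ`, `δ ≤ (4/D)/(T²-1)`.
Lower bound: (1) gives `e^δ - 1 ≥ (4/D)/T² =: a`, `δ ≥ log(1+a) ≥ a - a²/2`.
`sg_asym` (`n ≥ 1`, `T² ≥ 8.4 ≥ 2`): `(4/D)/(T²-1) - (4/D)/T² = (4/D)/(T²(T²-1)) ≤ (8/D)/T⁴`, and `a²/2 ≤ (8/D)/T⁴` as `4/D ≤ 1`.
`er_eq`: `er n = F(y_n) + F z - F(y_{n+1}) = sg n - sg (n+1)` since `log T_{n+1} = log T_n + F z`.
`er_asym`: `(4/D)(T_n^{-2} - T_{n+1}^{-2}) = (4/D) T_n^{-2} (1 - λ^{-2})`; errors `(8/D)(T_n^{-4} + T_{n+1}^{-4}) ≤ (16/D) T_n^{-4}`.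
`x0_eq`: `1/(1-λ^{-2}) = λ/(λ - 1/λ) = 1/2 + (λ + 1/λ)/(2 (λ-1/λ)) = 1/2 + 3z/(2 sq z)`.
`kz_bd`: `λ ≥ 13/5`: `kz = (λ+1/λ)/(2(λ-1/λ)) = (1+λ^{-2})/(2(1-λ^{-2}))`, `λ^{-2} ≤ 25/169`: `1/2 < kz ≤ 194/288 ≤ 7/10`.
`er_lower`: `(4/D)(144/169) T^{-2} - (16/D) T^{-4} ≥ (1/D) T^{-2}` as `T² ≥ 8.41`: `3.408 - 16/8.41 = 1.505 ≥ 1`.
`er_upper`: `≤ (4/D)T^{-2} + (16/D) T^{-4} ≤ (6/D) T^{-2}`.
`sg_er`: `|sg - x0 er| ≤ (8/D)T^{-4} + x0 (16/D) T^{-4} ≤ (28/D) T^{-4} ≤ 28 T^{-2} er` (`x0 ≤ 6/5`).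
-/

set_option autoImplicit false

namespace Pool.Agent.Lib.MP_94ab62_ntZ

open Pool.Agent.Lib.MP_94ab62_nt Pool.Agent.Lib.MP_94ab62_ntU

private theorem rad_dz {z : ℕ} (hz : 1 ≤ z) : (5 : ℝ) ≤ 9 * (z : ℝ) ^ 2 - 4 := by
  have h1 : (1 : ℝ) ≤ (z : ℝ) := by exact_mod_cast hz
  nlinarith

private theorem rad_y {z : ℕ} {y : ℕ → ℕ} (h : RS z y) (n : ℕ) : 1 ≤ y n := by
  induction n with
  | zero => exact h.hy
  | succ n ih => exact ih.trans (h.lt n).le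

theorem kz_bd {z : ℕ} (hz : 1 ≤ z) : 1 / 2 < kz z ∧ kz z ≤ 7 / 10 := by
  have h1 : (1 : ℝ) ≤ (z : ℝ) := by exact_mod_cast hz
  have h2 := sq_pos hz
  have h3 := sq_sq hz
  unfold kz
  constructor
  · rw [lt_div_iff₀ (by positivity)]
    have h4 : sq z < 3 * z := by
      apply lt_of_pow_lt_pow_left₀ 2 (by positivity)
      rw [h3]
      nlinarith
    linarith
  · rw [div_le_iff₀ (by positivity)]
    have h4 : 15 / 7 * (z : ℝ) ≤ sq z := by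
      apply le_of_sq_le_sq _ h2.le
      rw [h3]
      nlinarith
    linarith

theorem x0_eq {z : ℕ} (hz : 1 ≤ z) : x0 z * (1 - 1 / lam z ^ 2) = 1 := by
  have hl := lam_ge hz
  have h1 := lam_add hz
  have h2 := lam_sub hz
  have hl0 : (0 : ℝ) < lam z := by linarith
  have hs := sq_pos hz
  unfold x0 kz
  rw [← h1, ← h2]
  have h3 : lam z - 1 / lam z ≠ 0 := by
    rw [h2]
    exact hs.ne'
  have h4 : lam z ^ 2 - 1 ≠ 0 := by
    have : 1 < lam z ^ 2 := by nlinarith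
    linarith
  have h5 : lam z - 1 / lam z = (lam z ^ 2 - 1) / lam z := by
    field_simp
  have h6 : lam z + 1 / lam z = (lam z ^ 2 + 1) / lam z := by
    field_simp
  rw [h5, h6]
  field_simp
  ring

private theorem rad_rel {z : ℕ} {y : ℕ → ℕ} (h : RS z y) (n : ℕ) :
    TT z y n ^ 2 * (Real.exp (sg z y n) - 1) =
      4 / (9 * (z : ℝ) ^ 2 - 4) + (1 - Real.exp (-sg z y n)) := by
  have hT := TT_pos h n
  have hD := rad_dz h.hz
  have hD0 : (9 * (z : ℝ) ^ 2 - 4) ≠ 0 := by linarith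
  have hc := cosh_F (rad_y h n)
  rw [Real.cosh_eq] at hc
  have hr := TT_rel h n
  obtain ⟨T, hTd⟩ : ∃ T, T = TT z y n := ⟨_, rfl⟩
  obtain ⟨δ, hδ⟩ : ∃ δ, δ = sg z y n := ⟨_, rfl⟩
  rw [← hTd] at hT hr ⊢
  rw [← hδ]
  have hF : F (y n) = δ + Real.log T := by
    rw [hδ, hTd]
    unfold sg
    ring
  have he1 : Real.exp (F (y n)) = Real.exp δ * T := by
    rw [hF, Real.exp_add, Real.exp_log hT]
  have he2 : Real.exp (-F (y n)) = Real.exp (-δ) / T := by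
    rw [hF, neg_add, Real.exp_add, Real.exp_neg (Real.log T), Real.exp_log hT]
    rfl
  rw [he1, he2] at hc
  have h1 : Real.exp δ * T + Real.exp (-δ) / T =
      T + 9 * (z : ℝ) ^ 2 / (9 * (z : ℝ) ^ 2 - 4) / T := by
    rw [← hr]
    linarith
  have h2 : 9 * (z : ℝ) ^ 2 / (9 * (z : ℝ) ^ 2 - 4) = 1 + 4 / (9 * (z : ℝ) ^ 2 - 4) := by
    field_simp
    ring
  rw [h2] at h1
  have h3 : (Real.exp δ * T + Real.exp (-δ) / T) * T = (T + (1 + 4 / (9 * (z : ℝ) ^ 2 - 4)) / T) * T := by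
    rw [h1]
  rw [add_mul, add_mul, div_mul_cancel₀ _ hT.ne', div_mul_cancel₀ _ hT.ne'] at h3
  linear_combination h3

theorem sg_pos {z : ℕ} {y : ℕ → ℕ} (h : RS z y) (n : ℕ) : 0 < sg z y n := by
  have hrel := rad_rel h n
  have hT := TT_ge h n
  have hD := rad_dz h.hz
  have hF := F_pos (rad_y h n)
  obtain ⟨T, hTd⟩ : ∃ T, T = TT z y n := ⟨_, rfl⟩
  obtain ⟨δ, hδ⟩ : ∃ δ, δ = sg z y n := ⟨_, rfl⟩
  rw [← hTd] at hT hrel
  rw [← hδ] at hrel ⊢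
  have hT0 : 0 < T := by linarith
  have hlT : 0 < δ + Real.log T := by
    have : F (y n) = δ + Real.log T := by
      rw [hδ, hTd]
      unfold sg
      ring
    rw [← this]
    exact hF
  by_contra hneg
  have hδ0 : δ ≤ 0 := not_lt.1 hneg
  have hu0 := Real.exp_pos δ
  have hu1 : Real.exp δ ≤ 1 := Real.exp_le_one_iff.2 hδ0
  have huT : 1 < Real.exp δ * T := by
    have h1 := Real.one_lt_exp_iff.2 hlT
    rw [Real.exp_add, Real.exp_log hT0] at h1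
    exact h1
  have hD4 : 0 < 4 / (9 * (z : ℝ) ^ 2 - 4) := by
    apply div_pos (by norm_num)
    linarith
  rw [Real.exp_neg] at hrel
  have h2 : Real.exp δ * (T ^ 2 * (Real.exp δ - 1)) =
      Real.exp δ * (4 / (9 * (z : ℝ) ^ 2 - 4)) + (Real.exp δ - 1) := by
    rw [hrel, mul_add, mul_sub, mul_inv_cancel₀ hu0.ne']
    ring
  have h3 : (1 - Real.exp δ) * (1 - Real.exp δ * T ^ 2) = Real.exp δ * (4 / (9 * (z : ℝ) ^ 2 - 4)) := by
    linear_combination h2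
  have h4 : 1 - Real.exp δ * T ^ 2 ≤ 0 := by
    nlinarith
  have h5 : (1 - Real.exp δ) * (1 - Real.exp δ * T ^ 2) ≤ 0 :=
    mul_nonpos_of_nonneg_of_nonpos (by linarith) h4
  have h6 := mul_pos hu0 hD4
  linarith

theorem sg_asym {z : ℕ} {y : ℕ → ℕ} (h : RS z y) {n : ℕ} (hn : 1 ≤ n) :
    |sg z y n - 4 / (9 * (z : ℝ) ^ 2 - 4) / TT z y n ^ 2| ≤ 8 / (9 * (z : ℝ) ^ 2 - 4) / TT z y n ^ 4 := by
  have hrel := rad_rel h n
  have hT := TT_ge' h hn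
  have hD := rad_dz h.hz
  have hδ0 := sg_pos h n
  obtain ⟨T, hTd⟩ : ∃ T, T = TT z y n := ⟨_, rfl⟩
  obtain ⟨δ, hδ⟩ : ∃ δ, δ = sg z y n := ⟨_, rfl⟩
  obtain ⟨D, hDd⟩ : ∃ D, D = 9 * (z : ℝ) ^ 2 - 4 := ⟨_, rfl⟩
  rw [← hTd] at hT hrel ⊢
  rw [← hδ] at hrel hδ0 ⊢
  rw [← hDd] at hD hrel ⊢
  have hT0 : 0 < T := by linarith
  have hD0 : 0 < D := by linarith
  have hT2 : (841 / 100 : ℝ) ≤ T ^ 2 := by nlinarith
  have he1 := Real.add_one_le_exp δ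
  have he2 := Real.add_one_le_exp (-δ)
  have hem : Real.exp (-δ) ≤ 1 := Real.exp_le_one_iff.2 (by linarith)
  have hD4 : 0 < 4 / D := by positivity
  have hD41 : 4 / D ≤ 1 := by
    rw [div_le_one hD0]
    linarith
  have h8 : 8 / D = 2 * (4 / D) := by ring
  rw [h8]
  obtain ⟨a, ha⟩ : ∃ a, a = 4 / D := ⟨_, rfl⟩
  rw [← ha] at hrel hD4 hD41 ⊢
  have hT2p : 0 < T ^ 2 := by positivity
  have hT4 : T ^ 4 = T ^ 2 * T ^ 2 := by ring
  rw [hT4]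
  obtain ⟨S, hS⟩ : ∃ S, S = T ^ 2 := ⟨_, rfl⟩
  rw [← hS] at hrel hT2 hT2p ⊢
  rw [abs_le]
  constructor
  · -- lower bound
    have h1 : a / S ≤ Real.exp δ - 1 := by
      rw [div_le_iff₀ hT2p]
      linarith
    have haS : 0 < a / S := by positivity
    have h2 : Real.log (1 + a / S) ≤ δ := by
      have h3 := Real.log_le_log (by linarith) (show 1 + a / S ≤ Real.exp δ by linarith)
      rwa [Real.log_exp] at h3
    have h3 : a / S - (a / S) ^ 2 / 2 ≤ Real.log (1 + a / S) := by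
      have h4 := Real.le_log_one_add_of_nonneg haS.le
      refine le_trans ?_ h4
      rw [le_div_iff₀ (by linarith)]
      nlinarith [pow_pos haS 3, haS]
    have h4 : (a / S) ^ 2 / 2 ≤ 2 * a / (S * S) := by
      rw [div_pow, div_div, div_le_div_iff₀ (by positivity) (by positivity)]
      have h5 : a ^ 2 ≤ a := by nlinarith
      have h6 : 0 < S * S := by positivity
      nlinarith
    linarith
  · -- upper bound
    have h1 : S * δ ≤ a + δ := by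
      have h2 : S * δ ≤ S * (Real.exp δ - 1) := mul_le_mul_of_nonneg_left (by linarith) hT2p.le
      linarith
    have h2 : δ ≤ a / (S - 1) := by
      rw [le_div_iff₀ (by linarith)]
      linarith
    have h3 : a / (S - 1) - a / S = a / (S * (S - 1)) := by
      have h4 : S - 1 ≠ 0 := by linarith
      field_simp
      ring
    have h4 : a / (S * (S - 1)) ≤ 2 * a / (S * S) := by
      rw [div_le_div_iff₀ (mul_pos hT2p (by linarith)) (by positivity)]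
      have h5 : 0 ≤ a * (S * (S - 2)) := by
        apply mul_nonneg hD4.le
        apply mul_nonneg hT2p.le
        linarith
      nlinarith
    linarith

theorem er_eq {z : ℕ} {y : ℕ → ℕ} (h : RS z y) (n : ℕ) : er z y n = sg z y n - sg z y (n + 1) := by
  have h1 := log_TT h n
  have h2 := log_TT h (n + 1)
  unfold er sg
  rw [h1, h2]
  push_cast
  ring

theorem er_asym {z : ℕ} {y : ℕ → ℕ} (h : RS z y) {n : ℕ} (hn : 1 ≤ n) :
    |er z y n - 4 / (9 * (z : ℝ) ^ 2 - 4) * (1 - 1 / lam z ^ 2) / TT z y n ^ 2| ≤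
      16 / (9 * (z : ℝ) ^ 2 - 4) / TT z y n ^ 4 := by
  have h1 := sg_asym h hn
  have h2 := sg_asym h (show 1 ≤ n + 1 by omega)
  have hT := TT_ge' h hn
  have hD := rad_dz h.hz
  have hl := lam_ge h.hz
  rw [er_eq h n]
  rw [TT_succ h n] at h2
  obtain ⟨T, hTd⟩ : ∃ T, T = TT z y n := ⟨_, rfl⟩
  obtain ⟨D, hDd⟩ : ∃ D, D = 9 * (z : ℝ) ^ 2 - 4 := ⟨_, rfl⟩
  obtain ⟨l, hld⟩ : ∃ l, l = lam z := ⟨_, rfl⟩
  rw [← hTd] at hT h1 h2 ⊢
  rw [← hDd] at hD h1 h2 ⊢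
  rw [← hld] at hl h2 ⊢
  have hT0 : 0 < T := by linarith
  have hD0 : 0 < D := by linarith
  have hl0 : 0 < l := by linarith
  have h3 : 8 / D / (l * T) ^ 4 ≤ 8 / D / T ^ 4 := by
    apply div_le_div_of_nonneg_left (by positivity) (by positivity)
    apply pow_le_pow_left₀ hT0.le
    nlinarith
  have h4 : 4 / D * (1 - 1 / l ^ 2) / T ^ 2 = 4 / D / T ^ 2 - 4 / D / (l * T) ^ 2 := by
    field_simp
  have h5 : 16 / D / T ^ 4 = 8 / D / T ^ 4 + 8 / D / T ^ 4 := by ring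
  rw [h4, h5]
  have h6 : sg z y n - sg z y (n + 1) - (4 / D / T ^ 2 - 4 / D / (l * T) ^ 2) =
      (sg z y n - 4 / D / T ^ 2) - (sg z y (n + 1) - 4 / D / (l * T) ^ 2) := by ring
  rw [h6]
  refine (abs_sub _ _).trans ?_
  exact add_le_add h1 (h2.trans h3)

theorem er_bd {z : ℕ} {y : ℕ → ℕ} (h : RS z y) {n : ℕ} (hn : 1 ≤ n) :
    1 / (9 * (z : ℝ) ^ 2 - 4) / TT z y n ^ 2 ≤ er z y n ∧ er z y n ≤ 6 / (9 * (z : ℝ) ^ 2 - 4) / TT z y n ^ 2 := by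
  have h1 := er_asym h hn
  have hT := TT_ge' h hn
  have hD := rad_dz h.hz
  have hl := lam_ge h.hz
  obtain ⟨T, hTd⟩ : ∃ T, T = TT z y n := ⟨_, rfl⟩
  obtain ⟨D, hDd⟩ : ∃ D, D = 9 * (z : ℝ) ^ 2 - 4 := ⟨_, rfl⟩
  obtain ⟨l, hld⟩ : ∃ l, l = lam z := ⟨_, rfl⟩
  rw [← hTd] at hT h1 ⊢
  rw [← hDd] at hD h1 ⊢
  rw [← hld] at hl h1
  have hT0 : 0 < T := by linarith
  have hD0 : 0 < D := by linarith
  have hl0 : 0 < l := by linarith
  have hT2 : (841 / 100 : ℝ) ≤ T ^ 2 := by nlinarith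
  obtain ⟨w, hw⟩ : ∃ w, w = 1 / D / T ^ 2 := ⟨_, rfl⟩
  have hw0 : 0 < w := by
    rw [hw]
    positivity
  have e1 : 4 / D * (1 - 1 / l ^ 2) / T ^ 2 = 4 * (1 - 1 / l ^ 2) * w := by
    rw [hw]
    ring
  have e2 : 16 / D / T ^ 4 = 16 / T ^ 2 * w := by
    rw [hw]
    field_simp
  have e3 : 6 / D / T ^ 2 = 6 * w := by
    rw [hw]
    ring
  rw [e1, e2] at h1
  rw [e3, ← hw]
  have h2 : 16 / T ^ 2 ≤ 1600 / 841 := by
    rw [div_le_div_iff₀ (by positivity) (by norm_num)]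
    nlinarith
  have h3 : 1 / l ^ 2 ≤ 25 / 169 := by
    rw [div_le_div_iff₀ (by positivity) (by norm_num)]
    nlinarith
  have h3' : 0 < 1 / l ^ 2 := by positivity
  have h4 := abs_le.1 h1
  have h5 : 16 / T ^ 2 * w ≤ 1600 / 841 * w := mul_le_mul_of_nonneg_right h2 hw0.le
  have h6 : 4 * (1 - 25 / 169) * w ≤ 4 * (1 - 1 / l ^ 2) * w := by
    apply mul_le_mul_of_nonneg_right _ hw0.le
    linarith
  have h7 : 4 * (1 - 1 / l ^ 2) * w ≤ 4 * w := by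
    apply mul_le_mul_of_nonneg_right _ hw0.le
    linarith
  constructor
  · linarith [h4.1]
  · linarith [h4.2]

theorem sg_er {z : ℕ} {y : ℕ → ℕ} (h : RS z y) {n : ℕ} (hn : 1 ≤ n) :
    |sg z y n - x0 z * er z y n| ≤ 28 / TT z y n ^ 2 * er z y n := by
  have h1 := er_asym h hn
  have h2 := sg_asym h hn
  have h3 := (er_bd h hn).1
  have hx := x0_eq h.hz
  have hk := kz_bd h.hz
  have hT := TT_ge' h hn
  have hD := rad_dz h.hz
  have hx1 : 0 < x0 z := by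
    unfold x0
    linarith [hk.1]
  have hx2 : x0 z ≤ 6 / 5 := by
    unfold x0
    linarith [hk.2]
  obtain ⟨T, hTd⟩ : ∃ T, T = TT z y n := ⟨_, rfl⟩
  obtain ⟨D, hDd⟩ : ∃ D, D = 9 * (z : ℝ) ^ 2 - 4 := ⟨_, rfl⟩
  obtain ⟨b, hb⟩ : ∃ b, b = 1 - 1 / lam z ^ 2 := ⟨_, rfl⟩
  rw [← hTd] at hT h1 h2 h3 ⊢
  rw [← hDd] at hD h1 h2 h3
  rw [← hb] at hx h1
  have hT0 : 0 < T := by linarith
  have hD0 : 0 < D := by linarith
  obtain ⟨w, hw⟩ : ∃ w, w = 1 / D / T ^ 2 := ⟨_, rfl⟩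
  have hw0 : 0 < w := by
    rw [hw]
    positivity
  obtain ⟨v, hv⟩ : ∃ v, v = 1 / T ^ 2 := ⟨_, rfl⟩
  have hv0 : 0 < v := by
    rw [hv]
    positivity
  have e1 : 4 / D * b / T ^ 2 = 4 * b * w := by
    rw [hw]
    ring
  have e2 : 16 / D / T ^ 4 = 16 * (v * w) := by
    rw [hw, hv]
    field_simp
  have e3 : 8 / D / T ^ 4 = 8 * (v * w) := by
    rw [hw, hv]
    field_simp
  have e4 : 4 / D / T ^ 2 = 4 * w := by
    rw [hw]
    ring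
  have e5 : 28 / T ^ 2 = 28 * v := by
    rw [hv]
    ring
  rw [e1, e2] at h1
  rw [e3, e4] at h2
  rw [← hw] at h3
  rw [e5]
  have h4 : sg z y n - x0 z * er z y n = (sg z y n - 4 * w) - x0 z * (er z y n - 4 * b * w) := by
    linear_combination (-4 * w) * hx
  rw [h4]
  have h5 : |x0 z * (er z y n - 4 * b * w)| ≤ 6 / 5 * (16 * (v * w)) := by
    rw [abs_mul, abs_of_pos hx1]
    exact mul_le_mul hx2 h1 (abs_nonneg _) (by norm_num)
  refine (abs_sub _ _).trans ((add_le_add h2 h5).trans ?_)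
  have h6 : v * w ≤ v * er z y n := mul_le_mul_of_nonneg_left h3 hv0.le
  have h7 : 0 < v * w := by positivity
  linarith

/-- the defects are close to a geometric sequence -/
theorem er_ratio {z : ℕ} {y : ℕ → ℕ} (h : RS z y) {n : ℕ} (hn : 1 ≤ n) (m : ℕ) :
    |er z y (n + m) * lam z ^ (2 * m) / er z y n - 1| ≤ 60 / TT z y n ^ 2 := by
  have h1 := er_asym h hn
  have h2 := er_asym h (show 1 ≤ n + m by omega)
  have h3 := (er_bd h hn).1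
  have hT := TT_ge' h hn
  have hD := rad_dz h.hz
  have hl := lam_ge h.hz
  rw [TT_add h n m] at h2
  obtain ⟨T, hTd⟩ : ∃ T, T = TT z y n := ⟨_, rfl⟩
  obtain ⟨D, hDd⟩ : ∃ D, D = 9 * (z : ℝ) ^ 2 - 4 := ⟨_, rfl⟩
  obtain ⟨b, hb⟩ : ∃ b, b = 1 - 1 / lam z ^ 2 := ⟨_, rfl⟩
  obtain ⟨q, hq⟩ : ∃ q, q = lam z ^ m := ⟨_, rfl⟩
  have hq2 : lam z ^ (2 * m) = q ^ 2 := by
    rw [hq, ← pow_mul, mul_comm]
  have hq1 : 1 ≤ q := by
    rw [hq]
    exact one_le_pow₀ (by linarith)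
  rw [← hTd] at hT h1 h2 h3 ⊢
  rw [← hDd] at hD h1 h2 h3
  rw [← hb] at h1 h2
  rw [← hq] at h2
  rw [hq2]
  have hT0 : 0 < T := by linarith
  have hD0 : 0 < D := by linarith
  have hq0 : 0 < q := by linarith
  obtain ⟨w, hw⟩ : ∃ w, w = 1 / D / T ^ 2 := ⟨_, rfl⟩
  have hw0 : 0 < w := by
    rw [hw]
    positivity
  obtain ⟨v, hv⟩ : ∃ v, v = 1 / T ^ 2 := ⟨_, rfl⟩
  have hv0 : 0 < v := by
    rw [hv]
    positivity
  have e1 : 4 / D * b / T ^ 2 = 4 * b * w := by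
    rw [hw]
    ring
  have e2 : 16 / D / T ^ 4 = 16 * (v * w) := by
    rw [hw, hv]
    field_simp
  have e3 : 4 / D * b / (q * T) ^ 2 * q ^ 2 = 4 * b * w := by
    rw [hw]
    field_simp
  have e4 : 16 / D / (q * T) ^ 4 * q ^ 2 ≤ 16 * (v * w) := by
    have e5 : 16 / D / (q * T) ^ 4 * q ^ 2 = 16 * (v * w) / q ^ 2 := by
      rw [hw, hv]
      field_simp
    rw [e5]
    apply div_le_self (by positivity)
    exact one_le_pow₀ hq1
  rw [e1, e2] at h1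
  rw [← hw] at h3
  have h4 : |er z y (n + m) * q ^ 2 - 4 * b * w| ≤ 16 * (v * w) := by
    have h5 : er z y (n + m) * q ^ 2 - 4 * b * w = (er z y (n + m) - 4 / D * b / (q * T) ^ 2) * q ^ 2 := by
      rw [sub_mul, e3]
    rw [h5, abs_mul, abs_of_pos (show 0 < q ^ 2 by positivity)]
    exact (mul_le_mul_of_nonneg_right h2 (by positivity)).trans e4
  have her : 0 < er z y n := lt_of_lt_of_le hw0 h3
  have h6 : |er z y (n + m) * q ^ 2 - er z y n| ≤ 32 * (v * w) := by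
    have h7 : er z y (n + m) * q ^ 2 - er z y n =
        (er z y (n + m) * q ^ 2 - 4 * b * w) - (er z y n - 4 * b * w) := by ring
    rw [h7]
    refine (abs_sub _ _).trans ?_
    linarith
  have h8 : er z y (n + m) * q ^ 2 / er z y n - 1 = (er z y (n + m) * q ^ 2 - er z y n) / er z y n := by
    field_simp
  rw [h8, abs_div, abs_of_pos her, div_le_iff₀ her]
  have e6 : 60 / T ^ 2 = 60 * v := by
    rw [hv]
    ring
  rw [e6]
  have h9 : v * w ≤ v * er z y n := mul_le_mul_of_nonneg_left h3 hv0.le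
  have h10 : 0 < v * w := by positivity
  linarith

end Pool.Agent.Lib.MP_94ab62_ntZ
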