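import Pool.Agent.Lib.MP_94ab62_ntZ.DdC
import Pool.Agent.Lib.MP_94ab62_ntZ.RaD

/-!
# DdD: exactness of the first order relation

`s = sq z`, `t = sq z'`, `D = s² = 9z²-4`, `D' = t²`, `s t = W` (both positive, `(st)² = W²`), `c = 9z²/D`, `c' = 9z'²/D'`.
`T0_rep`: `T0 = TT z y 0 = 3(y_1 - y_0/λ)/s`, `1/λ = (3z - s)/2`: `T0 = (A + B s)/(2D)`, `A = 3 y_0 D`, `B = 3(2 y_1 - 3 z y_0)`, and `(A - B s)/(2D) = c/T0`
  (i.e. `A² - B² D = 4 D² c = 36 z² D`: use RS.mko: `y_0² + y_1² + z² = 3 z y_0 y_1`).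
`pow_rep`: hence (induction, multiplication of numbers `A + B s`) for `V = T0^X λ^Y = exp(X log T0 + Y F z)` there are integers `α, β` with
  `V = (α + β s)/(2 (2D)^X)`, `c^X / V = (α - β s)/(2 (2D)^X)`  (use `luc` for `λ^Y = (P + U s)/2`, `λ^{-Y} = (P - U s)/2`).
`ups`: `Υ = V/V'` with `V' = T0'^{X'} λ'^{Y'}`; `κ = c^X/c'^{X'}`.  `Υ = V (c'^{X'}/V')/c'^{X'}`, `κ/Υ = (c^X/V) V'/c'^{X'}`:
  with `G = 4 (2D)^X (2D')^{X'} c'^{X'}`:  `Υ + κ/Υ = ((α+βs)(α'-β't) + (α-βs)(α'+β't))/G = 2(αα' - ββ'W)/G`,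
  `Υ - κ/Υ = 2 (βα' s - αβ' t)/G = 2 s (βα' - αβ' W/D)/G`.
  `|Υ - 1| ≤ 2ε` (`Υ = e^ω`, `|ω| ≤ ε ≤ 1/2`), `κ ≤ c^X ≤ 2^m` (`c ≤ 9/5`, `c' ≥ 1`).  `G2 := 2 (2D)^X (2D')^{X'} (9z'²)^{X'} D^X` : `G2 (Υ + κ/Υ)` and `G2 κ` are integers
  (`c'^{X'} = (9z'²)^{X'}/D'^{X'}`, `κ = (9z²)^X D'^{X'}/(D^X (9z'²)^{X'})`), `G2 ≤ 2 (18B²·18B²·9B²·9B²)^m ≤ 2 (26244 B^8)^m`.
  `|Υ + κ/Υ - 1 - κ| = |Υ-1| |1 - κ/Υ| ≤ 2ε (1 + 2κ) ≤ 6 ε 2^m`.  So the integer `G2 (Υ + κ/Υ - 1 - κ)` has absolute value `≤ 12 (60000 B^8)^m ε < 1`: it is 0: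
  `Υ = 1` or `Υ = κ`.  In the second case `|κ - 1| ≤ 2ε` and `G2 (κ - 1)` is an integer of absolute value `< 1`, so `κ = 1 = Υ`.  So `Υ = 1`, `ω = 0`.
  Then `1 - κ = Υ - κ/Υ = 2s(...)/G` is rational and a rational multiple of the irrational `s`, so `κ = 1`: `(9z²)^X D'^{X'} = (9z'²)^{X'} D^X`.
-/

set_option autoImplicit false

namespace Pool.Agent.Lib.MP_94ab62_ntZ

open Pool.Agent.Lib.MP_94ab62_nt Pool.Agent.Lib.MP_94ab62_ntU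

theorem T0_rep {z : ℕ} {y : ℕ → ℕ} (h : RS z y) :
    ∃ A B : ℤ, TT z y 0 = (A + B * sq z) / (2 * (9 * (z : ℝ) ^ 2 - 4)) ∧
      9 * (z : ℝ) ^ 2 / (9 * (z : ℝ) ^ 2 - 4) / TT z y 0 = (A - B * sq z) / (2 * (9 * (z : ℝ) ^ 2 - 4)) := by
  have hz := h.hz
  have hs := sq_pos hz
  have hss := sq_sq hz
  have hadd := lam_add hz
  have hsub := lam_sub hz
  have hT0 := TT_pos h 0
  have hD : (0 : ℝ) < 9 * (z : ℝ) ^ 2 - 4 := by rw [← hss]; positivity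
  have hinv : 1 / lam z = (3 * z - sq z) / 2 := by linarith
  have hm : (y 0 : ℝ) ^ 2 + (y 1 : ℝ) ^ 2 + (z : ℝ) ^ 2 = 3 * z * y 0 * y 1 := by exact_mod_cast h.mko 0
  have hT : TT z y 0 = (3 * y 0 * (9 * (z : ℝ) ^ 2 - 4) + 3 * (2 * y 1 - 3 * z * y 0) * sq z) /
      (2 * (9 * (z : ℝ) ^ 2 - 4)) := by
    have e : TT z y 0 = 3 * ((y 1 : ℝ) - y 0 * (1 / lam z)) / sq z := by
      unfold TT
      rw [mul_one_div]
    rw [e, hinv, ← hss]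
    field_simp
    ring
  refine ⟨3 * y 0 * (9 * z ^ 2 - 4), 3 * (2 * y 1 - 3 * z * y 0), ?_, ?_⟩
  · rw [hT]
    push_cast
    ring
  · rw [div_eq_iff hT0.ne', hT, div_mul_div_comm, div_eq_div_iff hD.ne' (by positivity)]
    push_cast
    linear_combination (9 * (z : ℝ) ^ 2 - 4) * (3 * (2 * (y 1 : ℝ) - 3 * z * y 0)) ^ 2 * hss +
      36 * (9 * (z : ℝ) ^ 2 - 4) ^ 2 * hm

theorem ddd_mul {z : ℕ} (hz : 1 ≤ z) (A B A' B' : ℤ) :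
    ∃ P Q : ℤ, ((A : ℝ) + B * sq z) * (A' + B' * sq z) = P + Q * sq z ∧
      ((A : ℝ) - B * sq z) * (A' - B' * sq z) = P - Q * sq z := by
  have h := sq_sq hz
  refine ⟨A * A' + B * B' * (9 * z ^ 2 - 4), A * B' + B * A', ?_, ?_⟩
  · push_cast
    linear_combination (B : ℝ) * B' * h
  · push_cast
    linear_combination (B : ℝ) * B' * h

theorem ddd_pow {z : ℕ} (hz : 1 ≤ z) (A B : ℤ) (n : ℕ) :
    ∃ P Q : ℤ, ((A : ℝ) + B * sq z) ^ n = P + Q * sq z ∧ ((A : ℝ) - B * sq z) ^ n = P - Q * sq z := by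
  induction n with
  | zero => exact ⟨1, 0, by norm_num, by norm_num⟩
  | succ n ih =>
    obtain ⟨P, Q, h1, h2⟩ := ih
    obtain ⟨P', Q', h3, h4⟩ := ddd_mul hz P Q A B
    exact ⟨P', Q', by rw [pow_succ, h1, h3], by rw [pow_succ, h2, h4]⟩

theorem pow_rep {z : ℕ} {y : ℕ → ℕ} (h : RS z y) (X Y : ℕ) :
    ∃ α β : ℤ, Real.exp (X * Real.log (TT z y 0) + Y * F z) =
        (α + β * sq z) / (2 * (2 * (9 * (z : ℝ) ^ 2 - 4)) ^ X) ∧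
      (9 * (z : ℝ) ^ 2 / (9 * (z : ℝ) ^ 2 - 4)) ^ X / Real.exp (X * Real.log (TT z y 0) + Y * F z) =
        (α - β * sq z) / (2 * (2 * (9 * (z : ℝ) ^ 2 - 4)) ^ X) := by
  have hz := h.hz
  have hT0 := TT_pos h 0
  have hss := sq_sq hz
  have hs := sq_pos hz
  have hD : (0 : ℝ) < 9 * (z : ℝ) ^ 2 - 4 := by rw [← hss]; positivity
  obtain ⟨A, B, h1, h2⟩ := T0_rep h
  obtain ⟨A', B', h3, h4⟩ := ddd_pow hz A B X
  obtain ⟨P, U, h5, h6, -⟩ := luc hz Y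
  obtain ⟨α, β, h7, h8⟩ := ddd_mul hz A' B' P U
  have hE1 : Real.exp (Y * F z) = (P + U * sq z) / 2 := by linarith
  have hE2 : Real.exp (-(Y * F z)) = (P - U * sq z) / 2 := by linarith
  have hV : Real.exp (X * Real.log (TT z y 0) + Y * F z) = TT z y 0 ^ X * Real.exp (Y * F z) := by
    rw [Real.exp_add, Real.exp_nat_mul, Real.exp_log hT0]
  refine ⟨α, β, ?_, ?_⟩
  · rw [hV, hE1, h1, div_pow, h3, div_mul_div_comm, h7, mul_comm ((2 * (9 * (z : ℝ) ^ 2 - 4)) ^ X) 2]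
  · have e : (9 * (z : ℝ) ^ 2 / (9 * (z : ℝ) ^ 2 - 4)) ^ X / (TT z y 0 ^ X * Real.exp (Y * F z)) =
        (9 * (z : ℝ) ^ 2 / (9 * (z : ℝ) ^ 2 - 4) / TT z y 0) ^ X * Real.exp (-(Y * F z)) := by
      rw [Real.exp_neg, div_pow _ (TT z y 0), div_mul_eq_div_div, ← div_eq_mul_inv]
    rw [hV, e, hE2, h2, div_pow, h4, div_mul_div_comm, h8, mul_comm ((2 * (9 * (z : ℝ) ^ 2 - 4)) ^ X) 2]

theorem ddd_le {D B : ℝ} {X m : ℕ} (h1 : 1 ≤ D) (h2 : D ≤ B) (hX : X ≤ m) : D ^ X ≤ B ^ m :=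
  (pow_le_pow_right₀ h1 hX).trans (pow_le_pow_left₀ (by linarith) h2 m)

theorem ddd_one {a b g Q : ℤ} {u ε M G : ℝ} (ha : 1 ≤ a) (hb : 1 ≤ b) (hg : 1 ≤ g) (hu : |u - 1| ≤ 2 * ε) (hε : ε ≤ 1 / 4)
    (hQ : (Q : ℝ) = g * (a * u + b / u)) (haM : (a : ℝ) ≤ M) (hbM : (b : ℝ) ≤ M) (hgG : (g : ℝ) ≤ G)
    (hs : 6 * G * M * ε < 1) : u = 1 := by
  have hε0 : 0 ≤ ε := by linarith [abs_nonneg (u - 1)]
  have hu2 := abs_le.1 hu
  have hu0 : 1 / 2 ≤ u := by linarith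
  have hup : 0 < u := by linarith
  have ha' : (1 : ℝ) ≤ a := by exact_mod_cast ha
  have hb' : (1 : ℝ) ≤ b := by exact_mod_cast hb
  have hg' : (1 : ℝ) ≤ g := by exact_mod_cast hg
  have hM : 1 ≤ M := by linarith
  have hG : 1 ≤ G := by linarith
  have hMe : M * ε * 6 ≤ 6 * G * M * ε := by
    have : 0 ≤ M * ε := by positivity
    nlinarith
  have hN : ((Q - g * a - g * b : ℤ) : ℝ) = g * (u - 1) * (a - b / u) := by
    push_cast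
    rw [hQ]
    field_simp
    ring
  have hbu : (b : ℝ) / u ≤ 2 * b := by
    rw [div_le_iff₀ hup]
    nlinarith
  have hbu0 : 0 ≤ (b : ℝ) / u := by positivity
  have h1 : |(a : ℝ) - b / u| ≤ 3 * M := by
    rw [abs_le]
    constructor <;> linarith
  have h2 : |((Q - g * a - g * b : ℤ) : ℝ)| < 1 := by
    rw [hN, abs_mul, abs_mul, abs_of_pos (by linarith : (0 : ℝ) < g)]
    have h3 : (g : ℝ) * |u - 1| ≤ G * (2 * ε) := mul_le_mul hgG hu (abs_nonneg _) (by linarith)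
    have h4 : (g : ℝ) * |u - 1| * |(a : ℝ) - b / u| ≤ G * (2 * ε) * (3 * M) :=
      mul_le_mul h3 h1 (abs_nonneg _) (by positivity)
    have h5 : G * (2 * ε) * (3 * M) = 6 * G * M * ε := by ring
    linarith
  have h3 : |Q - g * a - g * b| < 1 := by exact_mod_cast h2
  have h4 : Q - g * a - g * b = 0 := Int.abs_lt_one_iff.1 h3
  rw [h4] at hN
  have h5 : (g : ℝ) * (u - 1) * (a - b / u) = 0 := by rw [← hN]; norm_num
  rcases mul_eq_zero.1 h5 with h6 | h6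
  · rcases mul_eq_zero.1 h6 with h7 | h7
    · linarith
    · linarith
  · have h7 : (a : ℝ) * u = b := by
      have h8 : (a : ℝ) = b / u := by linarith
      rw [h8]
      field_simp
    have h8 : |(b : ℝ) - a| < 1 := by
      have e : (b : ℝ) - a = a * (u - 1) := by rw [← h7]; ring
      rw [e, abs_mul, abs_of_pos (by linarith : (0 : ℝ) < a)]
      have h9 : (a : ℝ) * |u - 1| ≤ M * (2 * ε) := mul_le_mul haM hu (abs_nonneg _) (by linarith)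
      have h10 : 0 ≤ M * ε := by positivity
      nlinarith
    have h9 : |b - a| < 1 := by exact_mod_cast h8
    have h10 : b - a = 0 := Int.abs_lt_one_iff.1 h9
    have h11 : b = a := by omega
    have h12 : (a : ℝ) * u = a * 1 := by rw [h7, h11]; ring
    exact mul_left_cancel₀ (by linarith : (a : ℝ) ≠ 0) h12

theorem ddd_alg {α β α' β' s t W K K' d d' E E' p q : ℝ} (hp : p ≠ 0) (hq : q ≠ 0) (hd : d ≠ 0) (hd' : d' ≠ 0)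
    (hst : s * t = W) (h1 : p * E = α + β * s) (h2 : K / d / p * E = α - β * s) (h1' : q * E' = α' + β' * t)
    (h2' : K' / d' / q * E' = α' - β' * t) :
    2 * (d * d' * (α * α' - β * β' * W)) = E * E' * (K' * d * (p / q) + K * d' / (p / q)) ∧
      2 * (d * d' * (β * α' * s - α * β' * t)) = E * E' * (K' * d * (p / q) - K * d' / (p / q)) := by
  have e1 : E * E' * (K' * d * (p / q)) = d * d' * ((α + β * s) * (α' - β' * t)) := by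
    rw [← h1, ← h2']
    field_simp
  have e2 : E * E' * (K * d' / (p / q)) = d * d' * ((α - β * s) * (α' + β' * t)) := by
    rw [← h2, ← h1']
    field_simp
  constructor
  · rw [mul_add, e1, e2, ← hst]
    ring
  · rw [mul_sub (E * E'), e1, e2]
    ring

theorem ddd_nine {x : ℝ} (h : 1 ≤ x) : 1 ≤ 9 * x ^ 2 ∧ 5 ≤ 9 * x ^ 2 - 4 := by
  constructor <;> nlinarith

theorem ddd_nineZ {x : ℤ} (h : 1 ≤ x) : 1 ≤ 9 * x ^ 2 := by nlinarith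

theorem ddd_sqle {x B : ℝ} (h0 : 1 ≤ x) (h : x ≤ B) : 9 * x ^ 2 ≤ 9 * B ^ 2 := by nlinarith

theorem ddd_B {B x y : ℝ} {m : ℕ} (hB : 1 ≤ B) (h1 : x ≤ (9 * B ^ 2) ^ m) (h2 : y ≤ (9 * B ^ 2) ^ m) (h3 : 0 ≤ y) :
    x * y ≤ (81 * B ^ 4) ^ m := by
  have h5 := mul_le_mul h1 h2 h3 (by positivity)
  have e : (81 * B ^ 4) ^ m = (9 * B ^ 2) ^ m * (9 * B ^ 2) ^ m := by
    rw [← mul_pow]
    congr 1
    ring
  rw [e]
  exact h5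

theorem ddd_B' {B x y : ℝ} {m : ℕ} (hB : 1 ≤ B) (h1 : x ≤ (18 * B ^ 2) ^ m) (h2 : y ≤ (18 * B ^ 2) ^ m) (h3 : 0 ≤ y) :
    2 * x * y ≤ 2 * (324 * B ^ 4) ^ m := by
  have h5 := mul_le_mul h1 h2 h3 (by positivity)
  have e : (324 * B ^ 4) ^ m = (18 * B ^ 2) ^ m * (18 * B ^ 2) ^ m := by
    rw [← mul_pow]
    congr 1
    ring
  rw [e]
  linarith

theorem ddd_sm {B ε : ℝ} {m : ℕ} (hB : 1 ≤ B) (hε0 : 0 ≤ ε) (hε1 : 12 * (60000 * B ^ 8) ^ m * ε < 1) :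
    6 * (2 * (324 * B ^ 4) ^ m) * (81 * B ^ 4) ^ m * ε < 1 := by
  have e : 6 * (2 * (324 * B ^ 4) ^ m) * (81 * B ^ 4) ^ m * ε = 12 * (26244 * B ^ 8) ^ m * ε := by
    have e3 : (26244 * B ^ 8) ^ m = (324 * B ^ 4) ^ m * (81 * B ^ 4) ^ m := by
      rw [← mul_pow]
      congr 1
      ring
    rw [e3]
    ring
  rw [e]
  have hB8 : (1 : ℝ) ≤ B ^ 8 := one_le_pow₀ hB
  have h3 : (26244 * B ^ 8) ^ m ≤ (60000 * B ^ 8) ^ m := pow_le_pow_left₀ (by positivity) (by linarith) m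
  have h4 := mul_le_mul_of_nonneg_right h3 hε0
  linarith

theorem ddd_eps {B ε : ℝ} {m : ℕ} (hm1 : 1 ≤ m) (hB : 1 ≤ B) (hε0 : 0 ≤ ε) (hε1 : 12 * (60000 * B ^ 8) ^ m * ε < 1) :
    ε ≤ 1 / 4 := by
  have hB8 : (1 : ℝ) ≤ B ^ 8 := one_le_pow₀ hB
  have hbig : (60000 : ℝ) ≤ (60000 * B ^ 8) ^ m := by
    have h1 : (60000 : ℝ) ≤ 60000 * B ^ 8 := by linarith
    exact h1.trans (le_self_pow₀ (by linarith) (by omega))
  have h3 := mul_le_mul_of_nonneg_right hbig hε0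
  linarith

theorem ddd_st {z z' W : ℕ} (hz1 : 1 ≤ z) (hz1' : 1 ≤ z')
    (hW : (W : ℤ) ^ 2 = (9 * (z : ℤ) ^ 2 - 4) * (9 * (z' : ℤ) ^ 2 - 4)) : sq z * sq z' = W := by
  have hs := sq_pos hz1
  have ht := sq_pos hz1'
  have e : (sq z * sq z') ^ 2 = (W : ℝ) ^ 2 := by
    rw [mul_pow, sq_sq hz1, sq_sq hz1']
    have : ((W : ℝ)) ^ 2 = (9 * (z : ℝ) ^ 2 - 4) * (9 * (z' : ℝ) ^ 2 - 4) := by exact_mod_cast hW
    rw [this]
  exact (pow_left_inj₀ (by positivity) (by positivity) two_ne_zero).1 e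

theorem ddd_fin {z : ℕ} (hz1 : 1 ≤ z) {a b g Di d α β α' β' W : ℤ} {t : ℝ} (hg : 1 ≤ g) (hD : 1 ≤ Di)
    (hss : sq z ^ 2 = Di) (hst : sq z * t = W)
    (e2 : 2 * ((d : ℝ) * (β * α' * sq z - α * β' * t)) = 2 * g * (a - b)) : a = b := by
  have e3 : ((-(g * (a - b) * Di) : ℤ) : ℝ) + ((d * (β * α' * Di - α * β' * W) : ℤ) : ℝ) * sq z = 0 := by
    push_cast
    have e4 : t * (Di : ℝ) = W * sq z := by
      rw [← hst, ← hss]; ring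
    linear_combination (Di : ℝ) / 2 * e2 + (d : ℝ) * α * β' * e4
  have e6 : ¬ ((-(g * (a - b) * Di) : ℤ) ≠ 0 ∨ (d * (β * α' * Di - α * β' * W) : ℤ) ≠ 0) := by
    intro h3
    have h4 := lin_sq hz1 h3
    rw [e3, abs_zero, zero_mul] at h4
    linarith
  push Not at e6
  have e7 := e6.1
  have e8 : g * (a - b) * Di = 0 := by linarith
  rcases mul_eq_zero.1 e8 with h3 | h3
  · rcases mul_eq_zero.1 h3 with h4 | h4
    · omega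
    · omega
  · omega

theorem ups {z z' : ℕ} {y y' : ℕ → ℕ} (h : RS z y) (h' : RS z' y') {W : ℕ}
    (hW : (W : ℤ) ^ 2 = (9 * (z : ℤ) ^ 2 - 4) * (9 * (z' : ℤ) ^ 2 - 4)) {X X' Y Y' m : ℕ} (hX : 1 ≤ X) (hX' : 1 ≤ X')
    (hXm : X ≤ m) (hXm' : X' ≤ m) {B ε : ℝ} (hB : 1 ≤ B) (hz : (z : ℝ) ≤ B) (hz' : (z' : ℝ) ≤ B)
    (hε : |(X * Real.log (TT z y 0) + Y * F z) - (X' * Real.log (TT z' y' 0) + Y' * F z')| ≤ ε)
    (hε1 : 12 * (60000 * B ^ 8) ^ m * ε < 1) :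
    X * Real.log (TT z y 0) + Y * F z = X' * Real.log (TT z' y' 0) + Y' * F z' ∧
      (9 * (z : ℤ) ^ 2) ^ X * (9 * (z' : ℤ) ^ 2 - 4) ^ X' = (9 * (z' : ℤ) ^ 2) ^ X' * (9 * (z : ℤ) ^ 2 - 4) ^ X := by
  have hz1 := h.hz
  have hz1' := h'.hz
  have hzr : (1 : ℝ) ≤ z := by exact_mod_cast hz1
  have hzr' : (1 : ℝ) ≤ z' := by exact_mod_cast hz1'
  have hss := sq_sq hz1
  have htt := sq_sq hz1'
  obtain ⟨α, β, hV, hVc⟩ := pow_rep h X Y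
  obtain ⟨α', β', hV', hVc'⟩ := pow_rep h' X' Y'
  obtain ⟨v, hv⟩ : ∃ v, v = X * Real.log (TT z y 0) + Y * F z := ⟨_, rfl⟩
  obtain ⟨v', hv'⟩ : ∃ v', v' = X' * Real.log (TT z' y' 0) + Y' * F z' := ⟨_, rfl⟩
  rw [← hv] at hV hVc hε
  rw [← hv'] at hV' hVc' hε
  rw [← hv, ← hv']
  obtain ⟨hzz, hD1⟩ := ddd_nine hzr
  obtain ⟨hzz', hD1'⟩ := ddd_nine hzr'
  have hD2 := ddd_sqle hzr hz
  have hD2' := ddd_sqle hzr' hz'
  have hst := ddd_st hz1 hz1' hW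
  obtain ⟨Di, hDi⟩ : ∃ Di : ℤ, Di = 9 * (z : ℤ) ^ 2 - 4 := ⟨_, rfl⟩
  obtain ⟨Dj, hDj⟩ : ∃ Dj : ℤ, Dj = 9 * (z' : ℤ) ^ 2 - 4 := ⟨_, rfl⟩
  have hDr : (Di : ℝ) = 9 * (z : ℝ) ^ 2 - 4 := by rw [hDi]; push_cast; rfl
  have hDr' : (Dj : ℝ) = 9 * (z' : ℝ) ^ 2 - 4 := by rw [hDj]; push_cast; rfl
  rw [← hDi, ← hDj]
  rw [← hDr] at hV hVc hss hD1
  rw [← hDr'] at hV' hVc' htt hD1'
  have hm1 : 1 ≤ m := hX.trans hXm
  have hε0 : 0 ≤ ε := (abs_nonneg _).trans hε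
  have hε2 := ddd_eps hm1 hB hε0 hε1
  have hu : |Real.exp v / Real.exp v' - 1| ≤ 2 * ε := by
    rw [← Real.exp_sub]
    have h1 := Real.abs_exp_sub_one_le (hε.trans (by linarith : ε ≤ 1))
    linarith
  have hDp : 0 < (Di : ℝ) := by linarith
  have hDp' : 0 < (Dj : ℝ) := by linarith
  have hDi1r : (1 : ℝ) ≤ (Di : ℝ) := by linarith
  have hDj1r : (1 : ℝ) ≤ (Dj : ℝ) := by linarith
  have hDi1 : 1 ≤ Di := by exact_mod_cast hDi1r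
  have hDj1 : 1 ≤ Dj := by exact_mod_cast hDj1r
  rw [div_pow] at hVc hVc'
  have hE : (2 * (2 * (Di : ℝ)) ^ X) ≠ 0 := by positivity
  have hE' : (2 * (2 * (Dj : ℝ)) ^ X') ≠ 0 := by positivity
  rw [eq_div_iff hE] at hV hVc
  rw [eq_div_iff hE'] at hV' hVc'
  obtain ⟨e1, e2⟩ := ddd_alg (Real.exp_pos v).ne' (Real.exp_pos v').ne' (pow_pos hDp X).ne' (pow_pos hDp' X').ne'
    hst hV hVc hV' hVc'
  obtain ⟨a, ha⟩ : ∃ a : ℤ, a = (9 * (z' : ℤ) ^ 2) ^ X' * Di ^ X := ⟨_, rfl⟩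
  obtain ⟨b, hb⟩ : ∃ b : ℤ, b = (9 * (z : ℤ) ^ 2) ^ X * Dj ^ X' := ⟨_, rfl⟩
  obtain ⟨g, hg⟩ : ∃ g : ℤ, g = 2 * (2 * Di) ^ X * (2 * Dj) ^ X' := ⟨_, rfl⟩
  have har : (a : ℝ) = (9 * (z' : ℝ) ^ 2) ^ X' * (Di : ℝ) ^ X := by rw [ha]; push_cast; rfl
  have hbr : (b : ℝ) = (9 * (z : ℝ) ^ 2) ^ X * (Dj : ℝ) ^ X' := by rw [hb]; push_cast; rfl
  have hgr : (g : ℝ) = 2 * (2 * (Di : ℝ)) ^ X * (2 * (Dj : ℝ)) ^ X' := by rw [hg]; push_cast; rfl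
  rw [← ha, ← hb]
  have hgE : 2 * (2 * (Di : ℝ)) ^ X * (2 * (2 * (Dj : ℝ)) ^ X') = 2 * g := by rw [hgr]; ring
  rw [← har, ← hbr, hgE] at e1 e2
  have ha1 : 1 ≤ a := by
    rw [ha]
    exact one_le_mul_of_one_le_of_one_le (one_le_pow₀ (ddd_nineZ (by exact_mod_cast hz1'))) (one_le_pow₀ hDi1)
  have hb1 : 1 ≤ b := by
    rw [hb]
    exact one_le_mul_of_one_le_of_one_le (one_le_pow₀ (ddd_nineZ (by exact_mod_cast hz1))) (one_le_pow₀ hDj1)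
  have hg1 : 1 ≤ g := by
    rw [hg, mul_assoc]
    have h3 : 1 ≤ (2 * Di) ^ X * (2 * Dj) ^ X' :=
      one_le_mul_of_one_le_of_one_le (one_le_pow₀ (by omega)) (one_le_pow₀ (by omega))
    omega
  have hDiB : (Di : ℝ) ≤ 9 * B ^ 2 := by linarith
  have hDjB : (Dj : ℝ) ≤ 9 * B ^ 2 := by linarith
  have haM : (a : ℝ) ≤ (81 * B ^ 4) ^ m := by
    rw [har]
    exact ddd_B hB (ddd_le hzz' hD2' hXm') (ddd_le hDi1r hDiB hXm) (pow_pos hDp X).le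
  have hbM : (b : ℝ) ≤ (81 * B ^ 4) ^ m := by
    rw [hbr]
    exact ddd_B hB (ddd_le hzz hD2 hXm) (ddd_le hDj1r hDjB hXm') (pow_pos hDp' X').le
  have hgG : (g : ℝ) ≤ 2 * (324 * B ^ 4) ^ m := by
    rw [hgr]
    exact ddd_B' hB (ddd_le (by linarith) (by linarith) hXm) (ddd_le (by linarith) (by linarith) hXm')
      (pow_pos (by linarith) X').le
  have hu1 : Real.exp v / Real.exp v' = 1 := by
    refine ddd_one (Q := Di ^ X * Dj ^ X' * (α * α' - β * β' * W)) ha1 hb1 hg1 hu hε2 ?_ haM hbM hgG (ddd_sm hB hε0 hε1)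
    push_cast
    linarith
  have hvv : v = v' := by
    rw [← Real.exp_sub, Real.exp_eq_one_iff] at hu1
    linarith
  refine ⟨hvv, ?_⟩
  rw [hu1, mul_one, div_one] at e2
  have hst2 : sq z * sq z' = ((W : ℤ) : ℝ) := by rw [hst]; norm_cast
  refine (ddd_fin (d := Di ^ X * Dj ^ X') (α := α) (β := β) (α' := α') (β' := β') hz1 hg1 hDi1 hss hst2 ?_).symm
  push_cast
  exact e2

end Pool.Agent.Lib.MP_94ab62_ntZ
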