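import Mathlib

/-!
# DdE: the norm equation

`(9z²)^X (9z'²-4)^{X'} = (9z'²)^{X'} (9z²-4)^X`, `z,z',X,X' ≥ 1`  implies `X = X'`, `z = z'`.

Proof (in ℕ; `9z² - 4 ≥ 5`).  Put `(a,b) = (9z², 9z²-4)` if `z` is odd, `(9z²/4, (9z²-4)/4)` if `z` is even; `a, b` are coprime
(`z` odd: `gcd(9z²,4) = 1`; `z = 2y`: `(9y², 9y²-1)`), `b ≥ 5`, `a - b ∈ {4, 1}`; the same for `z'`.  `9z²/(9z²-4) = a/b`, so
`a^X b'^{X'} = a'^{X'} b^X`; by coprimality `a^X ∣ a'^{X'}` and conversely, so `a^X = a'^{X'}` and `b^X = b'^{X'}`.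
Let `X = g x`, `X' = g x'`, `g = gcd`, `gcd(x,x') = 1`.  Then `a^x = a'^{x'}`, `b^x = b'^{x'}` (power map `g` injective), so there are `α, β` with
`a = α^{x'}`, `a' = α^x`, `b = β^{x'}`, `b' = β^x` (look at prime factorizations: `x v_p(a) = x' v_p(a')`, so `x' ∣ v_p(a)`; or Mathlib
`exists_eq_pow_of_mul_eq_pow`/`Nat.eq_of_...`; another way: Bezout `x u - x' v = 1`...).  `b ≥ 5` gives `β ≥ 2` , `α > β`.  If `x' ≥ 2`:
`a - b = α^{x'} - β^{x'} ≥ (β+1)^{x'} - β^{x'} ≥ 2β + 1 ≥ 5`, against `a - b ≤ 4`.  So `x' = 1`, and in the same way `x = 1`.  Then `X = X' = g`,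
`a = a'`, `b = b'`; `a - b` decides the parity of `z` and of `z'`, so `9z² = 9z'²`, `z = z'`.
-/

set_option autoImplicit false

namespace Pool.Agent.Lib.MP_94ab62_ntZ

private theorem dde_common {a b y y' : ℕ} (h : Nat.Coprime y y') (hy' : 1 ≤ y') (e : a ^ y = b ^ y') :
    ∃ c : ℕ, a = c ^ y' ∧ b = c ^ y := by
  have e' : (a : ℚ) ^ y = (b : ℚ) ^ y' := by exact_mod_cast e
  obtain ⟨c, h1, h2⟩ := (pow_eq_pow_iff_of_coprime h).1 e'
  have h3 : c.den ^ y' = 1 := by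
    rw [← Rat.den_pow, ← h1]
    exact Rat.den_natCast a
  have h4 : c.den = 1 := by
    rcases Nat.pow_eq_one.1 h3 with h | h
    · exact h
    · omega
  have h5 : ((c.num : ℤ) : ℚ) = c := Rat.coe_int_num_of_den_eq_one h4
  refine ⟨c.num.natAbs, ?_, ?_⟩
  · have h6 : (a : ℤ) = c.num ^ y' := by
      have : (((a : ℤ)) : ℚ) = ((c.num ^ y' : ℤ) : ℚ) := by
        rw [Int.cast_pow, h5, ← h1]
        exact Int.cast_natCast a
      exact_mod_cast this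
    have h7 := congrArg Int.natAbs h6
    rw [Int.natAbs_natCast, Int.natAbs_pow] at h7
    exact h7
  · have h6 : (b : ℤ) = c.num ^ y := by
      have : (((b : ℤ)) : ℚ) = ((c.num ^ y : ℤ) : ℚ) := by
        rw [Int.cast_pow, h5, ← h2]
        exact Int.cast_natCast b
      exact_mod_cast this
    have h7 := congrArg Int.natAbs h6
    rw [Int.natAbs_natCast, Int.natAbs_pow] at h7
    exact h7

private theorem dde_gap {α β n : ℕ} (h1 : β < α) (h2 : 2 ≤ β) (hn : 2 ≤ n) : β ^ n + 5 ≤ α ^ n := by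
  obtain ⟨k, rfl⟩ : ∃ k, n = k + 2 := ⟨n - 2, by omega⟩
  have h3 : (β + 1) ^ (k + 2) ≤ α ^ (k + 2) := Nat.pow_le_pow_left h1 _
  have h4 : β ^ k ≤ (β + 1) ^ k := Nat.pow_le_pow_left (Nat.le_succ β) k
  have h5 : 1 ≤ (β + 1) ^ k := Nat.one_le_pow _ _ (by omega)
  have h6 : (β + 1) ^ (k + 2) = (β + 1) ^ k * β ^ 2 + (β + 1) ^ k * (2 * β + 1) := by ring
  have h7 : β ^ (k + 2) = β ^ k * β ^ 2 := pow_add _ _ _
  have h8 : β ^ k * β ^ 2 ≤ (β + 1) ^ k * β ^ 2 := Nat.mul_le_mul_right _ h4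
  have h9 : 1 * (2 * β + 1) ≤ (β + 1) ^ k * (2 * β + 1) := Nat.mul_le_mul_right _ h5
  omega

private theorem dde_one {a b α β n : ℕ} (hab : b < a) (hab4 : a ≤ b + 4) (hb : 5 ≤ b) (hn : 1 ≤ n)
    (ha : a = α ^ n) (hb' : b = β ^ n) : n = 1 := by
  by_contra hne
  have h1 : β < α := by
    by_contra hc
    have h2 : α ^ n ≤ β ^ n := Nat.pow_le_pow_left (by omega) n
    omega
  have h2 : 2 ≤ β := by
    by_contra hc
    have h3 : β ^ n ≤ 1 ^ n := Nat.pow_le_pow_left (by omega) n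
    rw [one_pow] at h3
    omega
  have h3 := dde_gap (n := n) h1 h2 (by omega)
  omega

theorem pow_both {a a' b b' x x' : ℕ} (hab : b < a) (hab4 : a ≤ b + 4) (hb : 5 ≤ b) (hb' : 5 ≤ b') (hx : 1 ≤ x) (hx' : 1 ≤ x')
    (h1 : a ^ x = a' ^ x') (h2 : b ^ x = b' ^ x') (hab' : b' < a') (hab4' : a' ≤ b' + 4) : x = x' := by
  obtain ⟨g, y, y', hg, hco, hy, hy'⟩ := Nat.exists_coprime' (m := x) (n := x') (Nat.gcd_pos_of_pos_left _ hx)
  have hy1 : 1 ≤ y := by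
    rcases Nat.eq_zero_or_pos y with h | h
    · rw [h] at hy; omega
    · exact h
  have hy1' : 1 ≤ y' := by
    rcases Nat.eq_zero_or_pos y' with h | h
    · rw [h] at hy'; omega
    · exact h
  have hg0 : g ≠ 0 := by omega
  have e1 : a ^ y = a' ^ y' := by
    have : (a ^ y) ^ g = (a' ^ y') ^ g := by
      rw [← pow_mul, ← pow_mul, ← hy, ← hy', h1]
    exact Nat.pow_left_injective hg0 this
  have e2 : b ^ y = b' ^ y' := by
    have : (b ^ y) ^ g = (b' ^ y') ^ g := by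
      rw [← pow_mul, ← pow_mul, ← hy, ← hy', h2]
    exact Nat.pow_left_injective hg0 this
  obtain ⟨α, hα, hα'⟩ := dde_common hco hy1' e1
  obtain ⟨β, hβ, hβ'⟩ := dde_common hco hy1' e2
  have k1 : y' = 1 := dde_one hab hab4 hb hy1' hα hβ
  have k2 : y = 1 := dde_one hab' hab4' hb' hy1 hα' hβ'
  rw [hy, hy', k1, k2]

private theorem dde_red {z : ℕ} (hz : 1 ≤ z) : ∃ s a b : ℕ, 1 ≤ s ∧ 9 * z ^ 2 = s * a ∧ 9 * z ^ 2 = s * b + 4 ∧
    Nat.Coprime a b ∧ 5 ≤ b ∧ b < a ∧ a ≤ b + 4 := by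
  rcases Nat.even_or_odd' z with ⟨y, hy | hy⟩
  · have hy1 : 1 ≤ y ^ 2 := Nat.one_le_pow _ _ (by omega)
    refine ⟨4, 9 * y ^ 2, 9 * y ^ 2 - 1, by omega, ?_, ?_, ?_, by omega, by omega, by omega⟩
    · rw [hy]; ring
    · have : 9 * z ^ 2 = 4 * (9 * y ^ 2) := by rw [hy]; ring
      omega
    · obtain ⟨c, hc⟩ : ∃ c, 9 * y ^ 2 = c + 1 := ⟨9 * y ^ 2 - 1, by omega⟩
      rw [hc, Nat.add_sub_cancel]
      exact (Nat.coprime_self_add_right.2 (Nat.coprime_one_right c)).symm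
  · have hz1 : 1 ≤ z ^ 2 := Nat.one_le_pow _ _ hz
    obtain ⟨c, hc⟩ : ∃ c, 9 * z ^ 2 = c + 4 := ⟨9 * z ^ 2 - 4, by omega⟩
    have hodd : ¬ 2 ∣ c := by
      have h1 : 9 * z ^ 2 = 2 * (18 * y ^ 2 + 18 * y + 4) + 1 := by rw [hy]; ring
      omega
    have hco : Nat.Coprime c 4 := by
      have h2 : Nat.Coprime c 2 := ((Nat.prime_two.coprime_iff_not_dvd).2 hodd).symm
      exact Nat.Coprime.pow_right 2 h2
    refine ⟨1, c + 4, c, by omega, by omega, by omega, ?_, by omega, by omega, by omega⟩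
    exact (Nat.coprime_self_add_right.2 hco).symm

theorem norm_eq {z z' X X' : ℕ} (hz : 1 ≤ z) (hz' : 1 ≤ z') (hX : 1 ≤ X) (hX' : 1 ≤ X')
    (h : (9 * (z : ℤ) ^ 2) ^ X * (9 * (z' : ℤ) ^ 2 - 4) ^ X' = (9 * (z' : ℤ) ^ 2) ^ X' * (9 * (z : ℤ) ^ 2 - 4) ^ X) :
    X = X' ∧ z = z' := by
  obtain ⟨s, a, b, hs, ha, hb, hco, hb5, hlt, hle⟩ := dde_red hz
  obtain ⟨s', a', b', hs', ha', hb', hco', hb5', hlt', hle'⟩ := dde_red hz'
  have i1 : (9 * (z : ℤ) ^ 2) = (s : ℤ) * a := by exact_mod_cast ha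
  have i2 : (9 * (z : ℤ) ^ 2 - 4) = (s : ℤ) * b := by
    have : (9 * (z : ℤ) ^ 2) = (s : ℤ) * b + 4 := by exact_mod_cast hb
    linarith
  have i1' : (9 * (z' : ℤ) ^ 2) = (s' : ℤ) * a' := by exact_mod_cast ha'
  have i2' : (9 * (z' : ℤ) ^ 2 - 4) = (s' : ℤ) * b' := by
    have : (9 * (z' : ℤ) ^ 2) = (s' : ℤ) * b' + 4 := by exact_mod_cast hb'
    linarith
  rw [i2, i2', i1, i1'] at h
  have h1 : (s * a) ^ X * (s' * b') ^ X' = (s' * a') ^ X' * (s * b) ^ X := by exact_mod_cast h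
  have h2 : a ^ X * b' ^ X' = a' ^ X' * b ^ X := by
    have hpos : 0 < s ^ X * s' ^ X' := Nat.mul_pos (pow_pos hs X) (pow_pos hs' X')
    refine Nat.eq_of_mul_eq_mul_left hpos ?_
    calc s ^ X * s' ^ X' * (a ^ X * b' ^ X') = (s * a) ^ X * (s' * b') ^ X' := by rw [mul_pow, mul_pow]; ring
      _ = (s' * a') ^ X' * (s * b) ^ X := h1
      _ = s ^ X * s' ^ X' * (a' ^ X' * b ^ X) := by rw [mul_pow, mul_pow]; ring
  have d1 : a ^ X ∣ a' ^ X' := by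
    have : a ^ X ∣ a' ^ X' * b ^ X := ⟨b' ^ X', h2.symm⟩
    exact (Nat.Coprime.pow X X hco).dvd_of_dvd_mul_right this
  have d2 : a' ^ X' ∣ a ^ X := by
    have : a' ^ X' ∣ a ^ X * b' ^ X' := ⟨b ^ X, h2⟩
    exact (Nat.Coprime.pow X' X' hco').dvd_of_dvd_mul_right this
  have e1 : a ^ X = a' ^ X' := Nat.dvd_antisymm d1 d2
  have e2 : b ^ X = b' ^ X' := by
    rw [e1] at h2
    have hpos : 0 < a' ^ X' := pow_pos (by omega) X'
    exact (Nat.eq_of_mul_eq_mul_left hpos h2).symm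
  have hXX : X = X' := pow_both hlt hle hb5 hb5' hX hX' e1 e2 hlt' hle'
  refine ⟨hXX, ?_⟩
  rw [← hXX] at e1 e2
  have hX0 : X ≠ 0 := by omega
  have ea : a = a' := Nat.pow_left_injective hX0 e1
  have eb : b = b' := Nat.pow_left_injective hX0 e2
  obtain ⟨c, hc⟩ : ∃ c, a = b + c := ⟨a - b, by omega⟩
  have hc0 : 0 < c := by omega
  have es : s = s' := by
    have k1 : s * c = 4 := by
      rw [ha, hc, mul_add] at hb
      omega
    have k2 : s' * c = 4 := by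
      rw [ha', ← ea, ← eb, hc, mul_add] at hb'
      omega
    exact Nat.eq_of_mul_eq_mul_right hc0 (k1.trans k2.symm)
  have e3 : 9 * z ^ 2 = 9 * z' ^ 2 := by rw [ha, ha', es, ea]
  have e4 : z ^ 2 = z' ^ 2 := by omega
  exact Nat.pow_left_injective (by norm_num) e4

end Pool.Agent.Lib.MP_94ab62_ntZ
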