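import Pool.Agent.Lib.MP_94ab62_ntZ.NtA

/-!
# DdF: exactness of the second order relation

`λ = lam z ≥ 13/5`, `μ = 1/λ`, `λ + μ = 3z`, `w = 1 - μ²`, `D = 9z²-4 = (λ-μ)²`.  For `0 ≤ f < X`:
`P f = (X - f w)^X λ^{2f}`,  conjugate `Pc f = (X - f (1-λ²))^X μ^{2f}`.
`in_ring`: there are integers `p, r` with `P f = p + r λ`, `Pc f = p + r μ`.  (The set of pairs `(u,v)` of reals such that `u = p + rλ, v = p + rμ`
 is closed under addition and multiplication because `λ² = 3zλ - 1`, `μ² = 3zμ - 1`, and contains `(λ,μ)`, `(μ,λ)` (`μ = 3z - λ`) and the integers;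
 `X - f w = X - f + f μ²`.)
`norm_P`: `(X - f w)(X - f(1-λ²)) = X² + D f (X - f)` because `w + (1-λ²) = 2 - μ² - λ² = -D`, `w (1-λ²) = 2 - λ² - μ² = -D`;
 so `P f * Pc f = (X² + D f (X-f))^X`.
`second`: bounds: `0 < X - f w ≤ X` (`0 ≤ w < 1`), `0 < X - f(1-λ²) ≤ X λ²`, so `0 < P f ≤ (m λ²)^m`, `0 < Pc f ≤ (m λ²)^m` (`X ≤ m`, `f < X`).
 `P f - P f' = p + rλ`, `Pc f - Pc f' = p + rμ`, the product is the integer `p² + 3z p r + r²`, of absolute value `≤ ε (mλ²)^m · 2 (mλ²)^m < 1` (`λ ≤ 3B`),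
 so the product is 0, and `p = r = 0` (if `p + rλ = 0` with `(p,r) ≠ 0` then λ would be rational, but `λ = (3z + sq z)/2`; same for μ).
 So `P f = P f'`, `Pc f = Pc f'`; `norm_P`: `(X² + D f(X-f))^X = (X² + D f'(X-f'))^X`, both bases positive, `X ≥ 1`: `f(X-f) = f'(X-f')`, i.e. `(f-f')(X-f-f') = 0`.
-/

set_option autoImplicit false

namespace Pool.Agent.Lib.MP_94ab62_ntZ

open Pool.Agent.Lib.MP_94ab62_nt Pool.Agent.Lib.MP_94ab62_ntU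

/-- pairs `(p + r λ, p + r μ)` -/
private def ddf_ring (l u a b : ℝ) : Prop := ∃ p r : ℤ, a = p + r * l ∧ b = p + r * u

private theorem ddf_add {l u a b c d : ℝ} (h : ddf_ring l u a b) (h' : ddf_ring l u c d) :
    ddf_ring l u (a + c) (b + d) := by
  obtain ⟨p, r, h1, h2⟩ := h
  obtain ⟨p', r', h3, h4⟩ := h'
  refine ⟨p + p', r + r', ?_, ?_⟩
  · rw [h1, h3]; push_cast; ring
  · rw [h2, h4]; push_cast; ring

private theorem ddf_mul {l u a b c d : ℝ} {z : ℕ} (hl : l * l = 3 * z * l - 1) (hu : u * u = 3 * z * u - 1)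
    (h : ddf_ring l u a b) (h' : ddf_ring l u c d) :
    ddf_ring l u (a * c) (b * d) := by
  obtain ⟨p, r, h1, h2⟩ := h
  obtain ⟨p', r', h3, h4⟩ := h'
  refine ⟨p * p' - r * r', p * r' + r * p' + 3 * z * (r * r'), ?_, ?_⟩
  · rw [h1, h3]; push_cast
    linear_combination ((r : ℝ) * r') * hl
  · rw [h2, h4]; push_cast
    linear_combination ((r : ℝ) * r') * hu

private theorem ddf_pow {l u a b : ℝ} {z : ℕ} (hl : l * l = 3 * z * l - 1) (hu : u * u = 3 * z * u - 1)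
    (h : ddf_ring l u a b) (n : ℕ) :
    ddf_ring l u (a ^ n) (b ^ n) := by
  induction n with
  | zero => exact ⟨1, 0, by simp, by simp⟩
  | succ n ih => rw [pow_succ, pow_succ]; exact ddf_mul hl hu ih h

private theorem ddf_int {l u : ℝ} (p : ℤ) : ddf_ring l u p p := ⟨p, 0, by simp, by simp⟩

private theorem ddf_zero {l : ℝ} (hl : Irrational l) {p r : ℤ} (h : (p : ℝ) + r * l = 0) : p = 0 ∧ r = 0 := by
  have hr : r = 0 := by
    by_contra hr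
    have hr' : (r : ℝ) ≠ 0 := by exact_mod_cast hr
    apply hl
    refine ⟨-(p : ℚ) / r, ?_⟩
    push_cast
    field_simp
    linarith
  subst hr
  refine ⟨?_, rfl⟩
  have : (p : ℝ) = 0 := by simpa using h
  exact_mod_cast this

private theorem ddf_norm {z X f f' : ℕ} {l u : ℝ} (hz : 1 ≤ z) (hlu : l * u = 1) (hadd : l + u = 3 * z)
    (hu0 : 0 < u) (hX : 1 ≤ X) (hf : f < X) (hf' : f' < X)
    (hh : (((X : ℝ) - f * (1 - u ^ 2)) ^ X * l ^ (2 * f)) * (((X : ℝ) - f * (1 - l ^ 2)) ^ X * u ^ (2 * f)) =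
      (((X : ℝ) - f' * (1 - u ^ 2)) ^ X * l ^ (2 * f')) * (((X : ℝ) - f' * (1 - l ^ 2)) ^ X * u ^ (2 * f'))) :
    f = f' ∨ f + f' = X := by
  -- norms
  have hnorm : ∀ g : ℕ, (((X : ℝ) - g * (1 - u ^ 2)) ^ X * l ^ (2 * g)) *
      (((X : ℝ) - g * (1 - l ^ 2)) ^ X * u ^ (2 * g)) =
      ((X : ℝ) ^ 2 + (9 * (z : ℝ) ^ 2 - 4) * (g * (X - g))) ^ X := by
    intro g
    have h1 : l ^ (2 * g) * u ^ (2 * g) = 1 := by rw [← mul_pow, hlu, one_pow]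
    have h2 : ((X : ℝ) - g * (1 - u ^ 2)) * ((X : ℝ) - g * (1 - l ^ 2)) =
        (X : ℝ) ^ 2 + (9 * (z : ℝ) ^ 2 - 4) * (g * (X - g)) := by
      have h3 : l ^ 2 + u ^ 2 = 9 * (z : ℝ) ^ 2 - 2 := by
        linear_combination (l + u + 3 * z) * hadd - 2 * hlu
      have h4 : l ^ 2 * u ^ 2 = 1 := by rw [← mul_pow, hlu, one_pow]
      linear_combination ((X : ℝ) * g - g ^ 2) * h3 + ((g : ℝ) ^ 2) * h4
    calc (((X : ℝ) - g * (1 - u ^ 2)) ^ X * l ^ (2 * g)) *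
      (((X : ℝ) - g * (1 - l ^ 2)) ^ X * u ^ (2 * g)) =
        (((X : ℝ) - g * (1 - u ^ 2)) * ((X : ℝ) - g * (1 - l ^ 2))) ^ X * (l ^ (2 * g) * u ^ (2 * g)) := by
          rw [mul_pow]; ring
      _ = _ := by rw [h1, h2, mul_one]
  have hz1 : (1 : ℝ) ≤ z := by exact_mod_cast hz
  have hD : 0 < 9 * (z : ℝ) ^ 2 - 4 := by nlinarith
  have hpos : ∀ g : ℕ, g < X → 0 ≤ (X : ℝ) ^ 2 + (9 * (z : ℝ) ^ 2 - 4) * (g * (X - g)) := by
    intro g hg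
    have hg' : (g : ℝ) ≤ X := by exact_mod_cast hg.le
    have hg0 : (0 : ℝ) ≤ g := Nat.cast_nonneg g
    have := mul_nonneg hD.le (mul_nonneg hg0 (sub_nonneg.mpr hg'))
    positivity
  have heq : ((X : ℝ) ^ 2 + (9 * (z : ℝ) ^ 2 - 4) * (f * (X - f))) ^ X =
      ((X : ℝ) ^ 2 + (9 * (z : ℝ) ^ 2 - 4) * (f' * (X - f'))) ^ X := by
    rw [← hnorm f, ← hnorm f']; exact hh
  have heq2 := (pow_left_inj₀ (hpos f hf) (hpos f' hf') (by omega)).mp heq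
  have heq3 : (f : ℝ) * (X - f) = f' * (X - f') := by
    have := add_left_cancel heq2
    exact mul_left_cancel₀ hD.ne' this
  have heq4 : ((f : ℝ) - f') * (X - (f + f')) = 0 := by linear_combination heq3
  rcases mul_eq_zero.mp heq4 with h0 | h0
  · left
    have : (f : ℝ) = f' := by linarith
    exact_mod_cast this
  · right
    have : (f : ℝ) + f' = X := by linarith
    exact_mod_cast this

private theorem ddf_in {z X : ℕ} {l u : ℝ} (hadd : l + u = 3 * z) (hll : l * l = 3 * z * l - 1)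
    (huu : u * u = 3 * z * u - 1) (g : ℕ) :
    ddf_ring l u (((X : ℝ) - g * (1 - u ^ 2)) ^ X * l ^ (2 * g))
      (((X : ℝ) - g * (1 - l ^ 2)) ^ X * u ^ (2 * g)) := by
  have hL : ddf_ring l u l u := ⟨0, 1, by simp, by simp⟩
  have hU : ddf_ring l u u l := by
    refine ⟨3 * z, -1, ?_, ?_⟩
    · push_cast; linarith
    · push_cast; linarith
  have hb : ddf_ring l u ((X : ℝ) - g * (1 - u ^ 2)) ((X : ℝ) - g * (1 - l ^ 2)) := by
    have h1 : ddf_ring l u (((X : ℤ) - g : ℤ) : ℝ) (((X : ℤ) - g : ℤ) : ℝ) := ddf_int _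
    have h2 : ddf_ring l u (((g : ℤ) : ℝ) * u ^ 2) (((g : ℤ) : ℝ) * l ^ 2) :=
      ddf_mul hll huu (ddf_int _) (ddf_pow hll huu hU 2)
    have h3 := ddf_add h1 h2
    have e1 : ((X : ℝ) - g * (1 - u ^ 2)) = (((X : ℤ) - g : ℤ) : ℝ) + ((g : ℤ) : ℝ) * u ^ 2 := by
      push_cast; ring
    have e2 : ((X : ℝ) - g * (1 - l ^ 2)) = (((X : ℤ) - g : ℤ) : ℝ) + ((g : ℤ) : ℝ) * l ^ 2 := by
      push_cast; ring
    rw [e1, e2]; exact h3
  exact ddf_mul hll huu (ddf_pow hll huu hb X) (ddf_pow hll huu hL (2 * g))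

theorem second {z X f f' m : ℕ} {B ε : ℝ} (hz : 1 ≤ z) (hzB : (z : ℝ) ≤ B) (hX : 1 ≤ X) (hXm : X ≤ m) (hf : f < X)
    (hf' : f' < X)
    (h : |((X : ℝ) - f * (1 - 1 / lam z ^ 2)) ^ X * lam z ^ (2 * f) -
        ((X : ℝ) - f' * (1 - 1 / lam z ^ 2)) ^ X * lam z ^ (2 * f')| ≤ ε)
    (hε : 2 * ε * ((m : ℝ) * (3 * B) ^ 2) ^ m < 1) :
    (((X : ℝ) - f * (1 - 1 / lam z ^ 2)) ^ X * lam z ^ (2 * f) =
        ((X : ℝ) - f' * (1 - 1 / lam z ^ 2)) ^ X * lam z ^ (2 * f')) ∧ (f = f' ∨ f + f' = X) := by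
  have hl0 : 0 < lam z := lt_of_lt_of_le (by norm_num) (lam_ge hz)
  obtain ⟨l, hldef⟩ : ∃ l : ℝ, l = lam z := ⟨_, rfl⟩
  rw [← hldef] at hl0 h ⊢
  have hl1 : (13 : ℝ) / 5 ≤ l := by rw [hldef]; exact lam_ge hz
  obtain ⟨u, hu⟩ : ∃ u : ℝ, u = 1 / l := ⟨_, rfl⟩
  have hlu : l * u = 1 := by rw [hu]; field_simp
  have hadd : l + u = 3 * z := by rw [hu, hldef]; exact lam_add hz
  have hsub : l - u = sq z := by rw [hu, hldef]; exact lam_sub hz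
  have hu0 : 0 < u := by rw [hu]; positivity
  have hu1 : u ≤ 1 := by
    rw [hu, div_le_one hl0]; linarith
  have hu2 : 1 / l ^ 2 = u ^ 2 := by rw [hu]; field_simp
  have hll : l * l = 3 * z * l - 1 := by
    linear_combination l * hadd - hlu
  have huu : u * u = 3 * z * u - 1 := by
    linear_combination u * hadd - hlu
  have hirr : Irrational (sq z) := sq_irr hz
  have hirl : Irrational l := by
    have h1 : l = (((3 * z : ℕ) : ℚ) : ℝ) / 2 + sq z / 2 := by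
      push_cast; linarith
    intro ⟨q, hq⟩
    apply hirr
    refine ⟨2 * q - (3 * z : ℕ), ?_⟩
    push_cast
    push_cast at h1
    rw [hq, h1]; ring
  have hiru : Irrational u := by
    intro ⟨q, hq⟩
    apply hirr
    refine ⟨(3 * z : ℕ) - 2 * q, ?_⟩
    push_cast
    rw [hq]; linarith
  rw [hu2] at h ⊢
  -- the pairs
  have hin : ∀ g : ℕ, ddf_ring l u (((X : ℝ) - g * (1 - u ^ 2)) ^ X * l ^ (2 * g))
      (((X : ℝ) - g * (1 - l ^ 2)) ^ X * u ^ (2 * g)) := by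
    intro g
    exact ddf_in hadd hll huu g
  -- bounds of the conjugates
  have hB1 : (1 : ℝ) ≤ B := le_trans (by exact_mod_cast hz) hzB
  have hlB : l ≤ 3 * B := by rw [hldef]; exact le_trans (lam_le hz) (by linarith)
  have hX1 : (1 : ℝ) ≤ X := by exact_mod_cast hX
  have hXm' : (X : ℝ) ≤ m := by exact_mod_cast hXm
  have hl2 : 1 ≤ l ^ 2 := by nlinarith
  have hBB : l ^ 2 ≤ (3 * B) ^ 2 := pow_le_pow_left₀ hl0.le hlB 2
  have hu22 : u ^ 2 ≤ 1 := by nlinarith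
  have hbase : ∀ g : ℕ, g < X → 0 < (X : ℝ) - g * (1 - l ^ 2) ∧ (X : ℝ) - g * (1 - l ^ 2) ≤ X * l ^ 2 := by
    intro g hg
    have hg' : (g : ℝ) ≤ X := by exact_mod_cast hg.le
    have hg0 : (0 : ℝ) ≤ g := Nat.cast_nonneg g
    constructor
    · nlinarith
    · nlinarith
  have hbase' : ∀ g : ℕ, g < X → 0 < (X : ℝ) - g * (1 - u ^ 2) := by
    intro g hg
    have hg' : (g : ℝ) < X := by exact_mod_cast hg
    have hg0 : (0 : ℝ) ≤ g := Nat.cast_nonneg g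
    nlinarith [mul_nonneg hg0 (sq_nonneg u)]
  have hm1 : 1 ≤ (m : ℝ) * (3 * B) ^ 2 := by nlinarith
  have hbd : ∀ g : ℕ, g < X → 0 ≤ ((X : ℝ) - g * (1 - l ^ 2)) ^ X * u ^ (2 * g) ∧
      ((X : ℝ) - g * (1 - l ^ 2)) ^ X * u ^ (2 * g) ≤ ((m : ℝ) * (3 * B) ^ 2) ^ m := by
    intro g hg
    obtain ⟨b1, b2⟩ := hbase g hg
    refine ⟨by positivity, ?_⟩
    have h1 : ((X : ℝ) - g * (1 - l ^ 2)) ^ X ≤ ((m : ℝ) * (3 * B) ^ 2) ^ X := by
      apply pow_le_pow_left₀ b1.le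
      calc (X : ℝ) - g * (1 - l ^ 2) ≤ X * l ^ 2 := b2
        _ ≤ m * (3 * B) ^ 2 := mul_le_mul hXm' hBB (by positivity) (by linarith)
    have h2 : ((m : ℝ) * (3 * B) ^ 2) ^ X ≤ ((m : ℝ) * (3 * B) ^ 2) ^ m := pow_le_pow_right₀ hm1 hXm
    have h3 : u ^ (2 * g) ≤ 1 := pow_le_one₀ hu0.le hu1
    calc ((X : ℝ) - g * (1 - l ^ 2)) ^ X * u ^ (2 * g) ≤ ((X : ℝ) - g * (1 - l ^ 2)) ^ X * 1 :=
          mul_le_mul_of_nonneg_left h3 (by positivity)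
      _ ≤ _ := by rw [mul_one]; exact h1.trans h2
  -- the integer
  obtain ⟨p1, r1, e1, e1'⟩ := hin f
  obtain ⟨p2, r2, e2, e2'⟩ := hin f'
  have hε0 : 0 ≤ ε := le_trans (abs_nonneg _) h
  obtain ⟨c1, c2⟩ := hbd f hf
  obtain ⟨c3, c4⟩ := hbd f' hf'
  obtain ⟨P1, hP1⟩ : ∃ P1 : ℝ, P1 = ((X : ℝ) - f * (1 - u ^ 2)) ^ X * l ^ (2 * f) := ⟨_, rfl⟩
  obtain ⟨P2, hP2⟩ : ∃ P2 : ℝ, P2 = ((X : ℝ) - f' * (1 - u ^ 2)) ^ X * l ^ (2 * f') := ⟨_, rfl⟩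
  obtain ⟨Q1, hQ1⟩ : ∃ Q1 : ℝ, Q1 = ((X : ℝ) - f * (1 - l ^ 2)) ^ X * u ^ (2 * f) := ⟨_, rfl⟩
  obtain ⟨Q2, hQ2⟩ : ∃ Q2 : ℝ, Q2 = ((X : ℝ) - f' * (1 - l ^ 2)) ^ X * u ^ (2 * f') := ⟨_, rfl⟩
  rw [← hP1, ← hP2] at h ⊢
  rw [← hP1] at e1
  rw [← hP2] at e2
  rw [← hQ1] at e1' c1 c2
  rw [← hQ2] at e2' c3 c4
  have hd1 : P1 - P2 = ((p1 - p2 : ℤ) : ℝ) + ((r1 - r2 : ℤ) : ℝ) * l := by
    rw [e1, e2]; push_cast; ring
  have hd2 : Q1 - Q2 = ((p1 - p2 : ℤ) : ℝ) + ((r1 - r2 : ℤ) : ℝ) * u := by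
    rw [e1', e2']; push_cast; ring
  obtain ⟨p, hp⟩ : ∃ p : ℤ, p = p1 - p2 := ⟨_, rfl⟩
  obtain ⟨r, hr⟩ : ∃ r : ℤ, r = r1 - r2 := ⟨_, rfl⟩
  rw [← hp, ← hr] at hd1 hd2
  have hprod : (P1 - P2) * (Q1 - Q2) = ((p ^ 2 + 3 * z * p * r + r ^ 2 : ℤ) : ℝ) := by
    rw [hd1, hd2]; push_cast
    linear_combination ((p : ℝ) * r) * hadd + ((r : ℝ) ^ 2) * hlu
  obtain ⟨G, hG⟩ : ∃ G : ℝ, G = ((m : ℝ) * (3 * B) ^ 2) ^ m := ⟨_, rfl⟩
  have hG0 : 0 ≤ G := by rw [hG]; positivity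
  rw [← hG] at c2 c4 hε
  have hQ : |Q1 - Q2| ≤ G := by
    rw [abs_le]; constructor <;> linarith
  have hlt : |((p ^ 2 + 3 * z * p * r + r ^ 2 : ℤ) : ℝ)| < 1 := by
    rw [← hprod, abs_mul]
    have h5 : |P1 - P2| ≤ ε := h
    have h6 := mul_nonneg hε0 hG0
    calc |P1 - P2| * |Q1 - Q2| ≤ ε * G :=
          mul_le_mul h5 hQ (abs_nonneg _) hε0
      _ ≤ 2 * ε * G := by linarith
      _ < 1 := hε
  have hn0 : (p ^ 2 + 3 * z * p * r + r ^ 2 : ℤ) = 0 := by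
    have h1 : |(p ^ 2 + 3 * z * p * r + r ^ 2 : ℤ)| < 1 := by exact_mod_cast hlt
    exact Int.abs_lt_one_iff.mp h1
  have hpr : p = 0 ∧ r = 0 := by
    rw [hn0] at hprod
    rw [Int.cast_zero] at hprod
    rcases mul_eq_zero.mp hprod with h0 | h0
    · rw [hd1] at h0; exact ddf_zero hirl h0
    · rw [hd2] at h0; exact ddf_zero hiru h0
  have hPP : P1 = P2 := by
    rw [hpr.1, hpr.2] at hd1; simp at hd1; linarith
  have hQQ : Q1 = Q2 := by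
    rw [hpr.1, hpr.2] at hd2; simp at hd2; linarith
  refine ⟨hPP, ?_⟩
  exact ddf_norm hz hlu hadd hu0 hX hf hf' (by rw [← hP1, ← hP2, ← hQ1, ← hQ2, hPP, hQQ])

end Pool.Agent.Lib.MP_94ab62_ntZ
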