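import Pool.Agent.Lib.MP_94ab62_ntZ.RaC

/-!
# DdG: `tanh (ρ l) = ρ tanh l` only for `ρ = 0` (|ρ| < 1)

`tanh_lt`: for `0 < ρ < 1`, `0 < l`: `ρ tanh l < tanh (ρ l)`.  (`tanh` is strictly concave on `[0,∞)` and `tanh 0 = 0`; or: `g(ρ) = sinh(ρ l) cosh l - ρ sinh l cosh(ρ l)`
 is positive on `(0,1)`: `g(0) = g(1) = 0` and ... simplest: `x ↦ tanh x / x` is strictly decreasing because `sinh x cosh x > x`.)
 In the form without quotients: `ρ sinh l cosh (ρ l) < sinh (ρ l) cosh l`.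
`sym_f`: let `0 < f`, `f' = X - f`, `0 < f'`, `λ = lam z = e^l`, `l = F z`, `w = 1 - λ^{-2}` and
   `(X - f w)^X λ^{2f} = (X - f' w)^X λ^{2f'}`.  Taking `X`-th roots (both sides positive; `X - f w > 0` as `w < 1`): with `φ = f/X`, `τ = φ - 1/2`, `1-φ = f'/X`:
   `(1 - φ w) e^{2φ l} = (1 - (1-φ) w) e^{2(1-φ) l}`, divide by `e^{l}`:
   `(1 - w/2 - τ w) e^{2τ l} = (1 - w/2 + τ w) e^{-2τ l}`, i.e. `(1 - w/2) sinh (2τ l) = τ w cosh (2τ l)`.
   `1 - w/2 = (1+λ^{-2})/2 = λ^{-1} cosh l`, `w/2 = λ^{-1} sinh l`: `cosh l sinh (2τ l) = 2τ sinh l cosh (2τ l)`.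
   With `ρ = 2τ ∈ (-1,1)` this contradicts `tanh_lt` (for `ρ > 0`; for `ρ < 0` use `-ρ`) unless `ρ = 0`, i.e. `2f = X`.
-/

set_option autoImplicit false

namespace Pool.Agent.Lib.MP_94ab62_ntZ

open Pool.Agent.Lib.MP_94ab62_nt Pool.Agent.Lib.MP_94ab62_ntU

theorem tanh_lt {ρ l : ℝ} (h0 : 0 < ρ) (h1 : ρ < 1) (hl : 0 < l) :
    ρ * (Real.sinh l * Real.cosh (ρ * l)) < Real.sinh (ρ * l) * Real.cosh l := by
  have hd : ∀ x : ℝ, HasDerivAt (fun x : ℝ => Real.sinh (ρ * x) * Real.cosh x - ρ * (Real.sinh x * Real.cosh (ρ * x)))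
      ((1 - ρ ^ 2) * (Real.sinh x * Real.sinh (ρ * x))) x := by
    intro x
    have h1 : HasDerivAt (fun x : ℝ => ρ * x) ρ x := by
      simpa using (hasDerivAt_id x).const_mul ρ
    have h2 := (Real.hasDerivAt_sinh (ρ * x)).comp x h1
    have h3 := (Real.hasDerivAt_cosh (ρ * x)).comp x h1
    have h4 := (h2.mul (Real.hasDerivAt_cosh x)).sub (((Real.hasDerivAt_sinh x).mul h3).const_mul ρ)
    refine h4.congr_deriv ?_
    simp only [Function.comp_apply]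
    ring
  have hmono : StrictMonoOn (fun x : ℝ => Real.sinh (ρ * x) * Real.cosh x - ρ * (Real.sinh x * Real.cosh (ρ * x))) (Set.Ici 0) := by
    refine strictMonoOn_of_deriv_pos (convex_Ici 0) (fun x _ => (hd x).continuousAt.continuousWithinAt) ?_
    intro x hx
    rw [interior_Ici] at hx
    have hx0 : (0 : ℝ) < x := hx
    rw [(hd x).deriv]
    have h5 : 0 < 1 - ρ ^ 2 := by nlinarith
    exact mul_pos h5 (mul_pos (Real.sinh_pos_iff.2 hx0) (Real.sinh_pos_iff.2 (mul_pos h0 hx0)))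
  have h6 := hmono (Set.mem_Ici.2 le_rfl) (Set.mem_Ici.2 hl.le) hl
  simp only [mul_zero, Real.sinh_zero, zero_mul, sub_zero] at h6
  linarith

private theorem ddg_aux {z X f f' : ℕ} (hz : 1 ≤ z) (hf : 1 ≤ f) (hlt : f < f') (hs : f + f' = X)
    (h : ((X : ℝ) - f * (1 - 1 / lam z ^ 2)) ^ X * lam z ^ (2 * f) =
        ((X : ℝ) - f' * (1 - 1 / lam z ^ 2)) ^ X * lam z ^ (2 * f')) : False := by
  have hlam := lam_ge hz
  have hL : lam z = Real.exp (F z) := rfl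
  set l : ℝ := F z with hldef
  have hl : 0 < l := by
    by_contra hneg
    have h1 : Real.exp l ≤ 1 := Real.exp_le_one_iff.2 (not_lt.1 hneg)
    rw [hL] at hlam
    linarith
  have hE : Real.exp l * Real.exp (-l) = 1 := by
    rw [← Real.exp_add]
    simp
  have hw : 1 / lam z ^ 2 = Real.exp (-l) ^ 2 := by
    rw [hL, Real.exp_neg, inv_pow, one_div]
  have hEi0 : 0 < Real.exp (-l) := Real.exp_pos _
  have hEi1 : Real.exp (-l) < 1 := by
    rw [Real.exp_lt_one_iff]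
    linarith
  have hw0 : 0 < 1 - Real.exp (-l) ^ 2 := by nlinarith
  have hw1 : 1 - Real.exp (-l) ^ 2 < 1 := by nlinarith
  have hf0 : (0 : ℝ) < f := by exact_mod_cast (by omega : 0 < f)
  have hf'0 : (0 : ℝ) < f' := by exact_mod_cast (by omega : 0 < f')
  have hsX : (f : ℝ) + f' = X := by exact_mod_cast hs
  have hX0 : (0 : ℝ) < X := by linarith
  rw [hw] at h
  have ha : 0 < (X : ℝ) - f * (1 - Real.exp (-l) ^ 2) := by nlinarith
  have ha' : 0 < (X : ℝ) - f' * (1 - Real.exp (-l) ^ 2) := by nlinarith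
  have hlog := congrArg Real.log h
  have hlam0 : 0 < lam z := by linarith
  rw [Real.log_mul (pow_pos ha _).ne' (pow_pos hlam0 _).ne', Real.log_mul (pow_pos ha' _).ne' (pow_pos hlam0 _).ne',
    Real.log_pow, Real.log_pow, Real.log_pow, Real.log_pow, hL, Real.log_exp] at hlog
  push_cast at hlog
  obtain ⟨ρ, hρ⟩ : ∃ ρ : ℝ, ρ = ((f' : ℝ) - f) / X := ⟨_, rfl⟩
  have hρX : ρ * X = f' - f := by
    rw [hρ]
    field_simp
  have hltR : (f : ℝ) < f' := by exact_mod_cast hlt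
  have hρ0 : 0 < ρ := by
    rw [hρ]
    exact div_pos (by linarith) hX0
  have hρ1 : ρ < 1 := by
    rw [hρ, div_lt_one hX0]
    linarith
  have hla : Real.log ((X : ℝ) - f * (1 - Real.exp (-l) ^ 2)) =
      Real.log ((X : ℝ) - f' * (1 - Real.exp (-l) ^ 2)) + 2 * (ρ * l) := by
    have h7 : (X : ℝ) * Real.log ((X : ℝ) - f * (1 - Real.exp (-l) ^ 2)) =
        X * (Real.log ((X : ℝ) - f' * (1 - Real.exp (-l) ^ 2)) + 2 * (ρ * l)) := by
      linear_combination hlog - 2 * l * hρX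
    exact mul_left_cancel₀ hX0.ne' h7
  have hexp : (X : ℝ) - f * (1 - Real.exp (-l) ^ 2) =
      ((X : ℝ) - f' * (1 - Real.exp (-l) ^ 2)) * Real.exp (ρ * l) ^ 2 := by
    have h8 := congrArg Real.exp hla
    rw [Real.exp_log ha, Real.exp_add, Real.exp_log ha'] at h8
    have e2 : Real.exp (ρ * l) ^ 2 = Real.exp (2 * (ρ * l)) := by
      rw [← Real.exp_nat_mul]
      norm_num
    rw [h8, e2]
  have hG : Real.exp (ρ * l) * Real.exp (-(ρ * l)) = 1 := by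
    rw [← Real.exp_add]
    simp
  have hfe : (f : ℝ) = X * (1 - ρ) / 2 := by linarith
  have hfe' : (f' : ℝ) = X * (1 + ρ) / 2 := by linarith
  rw [hfe, hfe'] at hexp
  have hred : 1 - (1 - ρ) / 2 * (1 - Real.exp (-l) ^ 2) = (1 - (1 + ρ) / 2 * (1 - Real.exp (-l) ^ 2)) * Real.exp (ρ * l) ^ 2 := by
    refine mul_left_cancel₀ hX0.ne' ?_
    linear_combination hexp
  have hmain := tanh_lt hρ0 hρ1 hl
  rw [Real.sinh_eq, Real.sinh_eq, Real.cosh_eq, Real.cosh_eq] at hmain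
  have hfin : (Real.exp (ρ * l) - Real.exp (-(ρ * l))) / 2 * ((Real.exp l + Real.exp (-l)) / 2) =
      ρ * ((Real.exp l - Real.exp (-l)) / 2 * ((Real.exp (ρ * l) + Real.exp (-(ρ * l))) / 2)) := by
    set E := Real.exp l
    set Ei := Real.exp (-l)
    set G := Real.exp (ρ * l)
    set Gi := Real.exp (-(ρ * l))
    linear_combination (-(1 / 2) * E * Gi) * hred - (1 / 2 * E * G * (1 - (1 + ρ) / 2 * (1 - Ei ^ 2))) * hG +
      (1 / 4 * Ei * (Gi * (1 - ρ) - G * (1 + ρ))) * hE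
  linarith

theorem sym_f {z X f f' : ℕ} (hz : 1 ≤ z) (hf : 1 ≤ f) (hf' : 1 ≤ f') (hs : f + f' = X)
    (h : ((X : ℝ) - f * (1 - 1 / lam z ^ 2)) ^ X * lam z ^ (2 * f) =
        ((X : ℝ) - f' * (1 - 1 / lam z ^ 2)) ^ X * lam z ^ (2 * f')) : f = f' := by
  rcases lt_trichotomy f f' with h1 | h1 | h1
  · exact (ddg_aux hz hf h1 hs h).elim
  · exact h1
  · exact (ddg_aux hz hf' h1 (by omega) h.symm).elim

end Pool.Agent.Lib.MP_94ab62_ntZ
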