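import Pool.Agent.Lib.MP_94ab62_ntU.Conv
import Pool.Agent.Lib.MP_94ab62_ntU.CutU

/-!
# Stream Z of MP_94ab62_nt: definitions

Notation of `MP_94ab62_ntU/Defs.lean`: paths are lists with the LAST step FIRST, `uu p`, `g1 p`, `g2 p`, `ll p`,
`ee p`, `LL p`, `zz p`, `ss p`, `m1 p`, `m2 p`, `nm`, `det`, `ap`, `dM`, `Mt`, `Pr R p q`, `Gd R p`, `LF K`, `cut K`.
-/

set_option autoImplicit false

namespace Pool.Agent.Lib.MP_94ab62_ntZ

open Pool.Agent.Lib.MP_94ab62_nt Pool.Agent.Lib.MP_94ab62_ntU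

/-- length of the shorter edge of the cone of `p` -/
noncomputable def kap (p : List Bool) : ℝ := min (fa (tn p)) (fb (tn p))

/-- `v` lies in the closed cone of `d` -/
def CC (d : List Bool) (v : ℤ × ℤ) : Prop := 0 ≤ det (g1 d) v ∧ 0 ≤ det v (g2 d)

/-- second difference of the lengths of three nodes -/
noncomputable def Hd (p1 p2 p3 : List Bool) : ℝ :=
  (det (uu p2) (uu p3) : ℝ) * ll p1 - (det (uu p1) (uu p3) : ℝ) * ll p2 + (det (uu p1) (uu p2) : ℝ) * ll p3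

/-- `d` is the top node strictly between `q1` and `q3` (`q1` before `q3`) -/
def Top (q1 q3 d : List Bool) : Prop :=
  0 ≤ det (g1 d) (uu q1) ∧ 0 < det (uu q1) (uu d) ∧ 0 < det (uu d) (uu q3) ∧ 0 ≤ det (uu q3) (g2 d)

/-- pairs of nodes -/
abbrev PP := List Bool × List Bool

/-- rank at most two -/
def R2 (S : Set PP) : Prop :=
  ∀ x ∈ S, ∀ y ∈ S, ∀ z ∈ S,
    det (uu y.1) (uu z.1) • uu x.2 + det (uu z.1) (uu x.1) • uu y.2 + det (uu x.1) (uu y.1) • uu z.2 = 0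

/-- a family of coincidences (first entry below `A`, second entry below `B`), given by `D v = M u`, `D' u = M' v` -/
structure Fam (R : ℕ) (A B : List Bool) (S : Set PP) (D D' : ℤ) (M M' : Mt) : Prop where
  hR : 100 ≤ R
  pr : ∀ x ∈ S, Pr R x.1 x.2
  hA : ∀ x ∈ S, A <:+ x.1
  hB : ∀ x ∈ S, B <:+ x.2
  D1 : 1 ≤ D
  D2 : D ≤ (R : ℤ) ^ 2
  D'1 : 1 ≤ |D'|
  D'2 : |D'| ≤ (R : ℤ) ^ 2
  e1 : ∀ x ∈ S, D • uu x.2 = ap M (uu x.1)
  e2 : ∀ x ∈ S, D' • uu x.1 = ap M' (uu x.2)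
  c1 : ∀ v, ap M (ap M' v) = (D * D') • v
  c2 : ∀ v, ap M' (ap M v) = (D * D') • v
  dm : dM M = D * D'
  dm' : dM M' = D * D'
  b1 : ∀ v, nm (ap M v) ≤ 2 * (R : ℝ) ^ 2 * nm v
  b2 : ∀ v, nm (ap M' v) ≤ 2 * (R : ℝ) ^ 2 * nm v

/-- the matched nodes of a family: `M u_c = a u_d` -/
def Mat (M : Mt) (a : ℕ) (c d : List Bool) : Prop := ap M (uu c) = (a : ℤ) • uu d

/-- class bound: for every `a ≥ 1` and all reals `x, x'`, at most `μ` pairs of good nodes `c` below `A`, `d` below `B` with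
`M u_c = a u_d` have `l(c)`, `l(d)` equal to `x`, `x'` up to `R^20 e^(-2 min(kap c, kap d))`. -/
def CB (R : ℕ) (A B : List Bool) (M : Mt) (μ : ℕ) : Prop :=
  ∀ (a : ℕ) (x x' : ℝ), 1 ≤ a →
    {y : PP | A <:+ y.1 ∧ B <:+ y.2 ∧ ss y.1 ≤ R ∧ ss y.2 ≤ R ∧ Mat M a y.1 y.2 ∧
      |ll y.1 - x| ≤ (R : ℝ) ^ 20 * Real.exp (-(2 * min (kap y.1) (kap y.2))) ∧
      |ll y.2 - x'| ≤ (R : ℝ) ^ 20 * Real.exp (-(2 * min (kap y.1) (kap y.2)))}.encard ≤ μ

/-- number of divisors bound: every positive integer up to `R^8` has at most `Dv` divisors -/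
def DvB (R Dv : ℕ) : Prop := ∀ n : ℕ, 1 ≤ n → n ≤ R ^ 8 → n.divisors.card ≤ Dv

/-- number of different first entries -/
noncomputable def cnt1 (S : Set PP) : ℕ := (Prod.fst '' S).ncard

/-! ## Rays -/

/-- the nodes of the ray -/
def cn (c0 : List Bool) (b : Bool) (n : ℕ) : List Bool := List.replicate n b ++ c0

/-- the exit cones of the ray -/
def en (c0 : List Bool) (b : Bool) (n : ℕ) : List Bool := (!b) :: cn c0 b n

/-- the pivot of the ray (the edge which is kept) -/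
def hv (c0 : List Bool) (b : Bool) : ℤ × ℤ := if b then g1 c0 else g2 c0

/-- the other edge of `cn c0 b n` -/
def wv (c0 : List Bool) (b : Bool) (n : ℕ) : ℤ × ℤ := if b then g2 (cn c0 b n) else g1 (cn c0 b n)

/-- the entry belonging to the pivot -/
def zh (c0 : List Bool) (b : Bool) : ℕ := if b then (tn c0).1 else (tn c0).2.1

/-- the entry belonging to the other edge -/
def zw (c0 : List Bool) (b : Bool) (n : ℕ) : ℕ := if b then (tn (cn c0 b n)).2.1 else (tn (cn c0 b n)).1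

/-- coordinates with respect to `(wv 0, hv)` -/
def cX (c0 : List Bool) (b : Bool) (v : ℤ × ℤ) : ℤ := if b then det (g1 c0) v else det v (g2 c0)

def cY (c0 : List Bool) (b : Bool) (v : ℤ × ℤ) : ℤ := if b then det v (g2 c0) else det (g1 c0) v

/-- abstract sequence of the entries along a ray -/
structure RS (z : ℕ) (y : ℕ → ℕ) : Prop where
  hz : 1 ≤ z
  hy : 1 ≤ y 0
  lt : ∀ n, y n < y (n + 1)
  zlt : ∀ n, z < y (n + 1)
  bg : ∀ n, 3 * z * y n < 2 * y (n + 1)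
  rc : ∀ n, y (n + 2) + y n = 3 * z * y (n + 1)
  mko : ∀ n, y n ^ 2 + y (n + 1) ^ 2 + z ^ 2 = 3 * z * y n * y (n + 1)

/-- `9 z² - 4` -/
def dz (z : ℕ) : ℤ := 9 * (z : ℤ) ^ 2 - 4

/-- `λ = e^{F z}`, so that `λ + 1/λ = 3 z` -/
noncomputable def lam (z : ℕ) : ℝ := Real.exp (F z)

/-- `√(9 z² - 4) = λ - 1/λ` -/
noncomputable def sq (z : ℕ) : ℝ := Real.sqrt (9 * (z : ℝ) ^ 2 - 4)

/-- `coth(F z) / 2` -/
noncomputable def kz (z : ℕ) : ℝ := 3 * (z : ℝ) / (2 * sq z)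

/-- `1/(1 - λ^{-2}) = 1/2 + coth(F z)/2` -/
noncomputable def x0 (z : ℕ) : ℝ := 1 / 2 + kz z

/-- `T_n`: `3 y_n = T_n + c / T_n`, `c = 9 z²/(9 z² - 4)` -/
noncomputable def TT (z : ℕ) (y : ℕ → ℕ) (n : ℕ) : ℝ := 3 * ((y (n + 1) : ℝ) - y n / lam z) / sq z

/-- the defect of the `n`th node of a ray -/
noncomputable def er (z : ℕ) (y : ℕ → ℕ) (n : ℕ) : ℝ := F (y n) + F z - F (y (n + 1))

/-- `F(y_n) - log T_n` -/
noncomputable def sg (z : ℕ) (y : ℕ → ℕ) (n : ℕ) : ℝ := F (y n) - Real.log (TT z y n)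

end Pool.Agent.Lib.MP_94ab62_ntZ
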