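import Pool.Agent.Lib.MP_94ab62_ntZ.FiB

/-!
# FiC: the final statement

Same hypothesis as `main_Z` (FiB).  `main_theorem` (MP_94ab62_nt/Fin.lean) gives one `C` with all its conjuncts (limit, `M(N) = C log²(3N) + o(log N)`, the triples, the equivalence); use it once and prove the
conjuncts about numbers as in `main_Z` (`fail_O`, `fail_o`), with the same `C`.
* last conjunct: `f N = numberCount N - C log²(3N) = o(log N)`.  For `t > 1`, `N' = ⌊t N⌋₊`: `numberCount N' - numberCount N = f N' - f N + C (log²(3N') - log²(3N))`,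
  `log N' = log N + log t + o(1)` (`t N - 1 < N' ≤ t N`, so `N'/N → t`), `log²(3N') - log²(3N) = (log(3N') - log(3N)) (log(3N') + log(3N))`; divided by `log N`: `→ log t * 2`.
  `f N' = o(log N') = o(log N)` (`IsLittleO.comp_tendsto` with `N' → ∞`, and `log N' ≤ 2 log N` eventually).
-/

set_option autoImplicit false

namespace Pool.Agent.Lib.MP_94ab62_ntZ

open Pool.Agent.Lib.MP_94ab62_nt Pool.Agent.Lib.MP_94ab62_ntU Filter Topology Asymptotics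

theorem fic_last {C : ℝ} (nc : ℕ → ℕ)
    (h : (fun N : ℕ => (nc N : ℝ) - C * (Real.log (3 * N)) ^ 2) =o[atTop] (fun N : ℕ => Real.log N))
    (t : ℝ) (ht : 1 < t) :
    Tendsto (fun N : ℕ => ((nc ⌊t * N⌋₊ : ℝ) - nc N) / Real.log N) atTop (𝓝 (2 * C * Real.log t)) := by
  have ht0 : 0 < t := by linarith
  have hlog : Tendsto (fun N : ℕ => Real.log (N : ℝ)) atTop atTop :=
    Real.tendsto_log_atTop.comp tendsto_natCast_atTop_atTop
  have hN't : Tendsto (fun N : ℕ => ⌊t * (N : ℝ)⌋₊) atTop atTop :=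
    tendsto_nat_floor_atTop.comp (Tendsto.const_mul_atTop ht0 tendsto_natCast_atTop_atTop)
  have hr : Tendsto (fun N : ℕ => (⌊t * (N : ℝ)⌋₊ : ℝ) / (N : ℝ)) atTop (𝓝 t) :=
    (tendsto_nat_floor_mul_div_atTop ht0.le).comp tendsto_natCast_atTop_atTop
  have hl : Tendsto (fun N : ℕ => Real.log ((⌊t * (N : ℝ)⌋₊ : ℝ) / (N : ℝ))) atTop (𝓝 (Real.log t)) :=
    (Real.continuousAt_log ht0.ne').tendsto.comp hr
  have hf : Tendsto (fun N : ℕ => ((nc N : ℝ) - C * (Real.log (3 * N)) ^ 2) / Real.log N) atTop (𝓝 0) :=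
    h.tendsto_div_nhds_zero
  have hf' : Tendsto (fun N : ℕ => ((nc ⌊t * (N : ℝ)⌋₊ : ℝ) - C * (Real.log (3 * (⌊t * (N : ℝ)⌋₊ : ℕ))) ^ 2) /
      Real.log (⌊t * (N : ℝ)⌋₊ : ℕ)) atTop (𝓝 0) := hf.comp hN't
  have hinv : Tendsto (fun N : ℕ => (1 : ℝ) / Real.log N) atTop (𝓝 0) :=
    tendsto_const_nhds.div_atTop hlog
  have hq : Tendsto (fun N : ℕ => 1 + Real.log ((⌊t * (N : ℝ)⌋₊ : ℝ) / (N : ℝ)) * (1 / Real.log N)) atTop (𝓝 1) := by
    have h1 := (hl.mul hinv).const_add 1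
    simpa using h1
  have hlim : Tendsto (fun N : ℕ =>
      (((nc ⌊t * (N : ℝ)⌋₊ : ℝ) - C * (Real.log (3 * (⌊t * (N : ℝ)⌋₊ : ℕ))) ^ 2) / Real.log (⌊t * (N : ℝ)⌋₊ : ℕ)) *
        (1 + Real.log ((⌊t * (N : ℝ)⌋₊ : ℝ) / (N : ℝ)) * (1 / Real.log N)) -
      ((nc N : ℝ) - C * (Real.log (3 * N)) ^ 2) / Real.log N +
      C * Real.log ((⌊t * (N : ℝ)⌋₊ : ℝ) / (N : ℝ)) *
        (2 * Real.log 3 * (1 / Real.log N) +
          (1 + Real.log ((⌊t * (N : ℝ)⌋₊ : ℝ) / (N : ℝ)) * (1 / Real.log N)) + 1)) atTop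
      (𝓝 (2 * C * Real.log t)) := by
    have h1 := (hf'.mul hq).sub hf
    have h2 := ((hinv.const_mul (2 * Real.log 3)).add hq).add_const 1
    have h3 := (hl.const_mul C).mul h2
    have h4 := h1.add h3
    have e : (0 : ℝ) * 1 - 0 + C * Real.log t * (2 * Real.log 3 * 0 + 1 + 1) = 2 * C * Real.log t := by ring
    rw [e] at h4
    exact h4
  refine hlim.congr' ?_
  filter_upwards [hlog.eventually_gt_atTop 0, eventually_ge_atTop 2, hN't.eventually_ge_atTop 2] with N hN hN2 hN2'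
  have hNpos : (0 : ℝ) < N := by
    have : 0 < N := by omega
    exact_mod_cast this
  have hM : (2 : ℝ) ≤ ((⌊t * (N : ℝ)⌋₊ : ℕ) : ℝ) := by exact_mod_cast hN2'
  obtain ⟨M, hMe⟩ : ∃ M : ℕ, M = ⌊t * (N : ℝ)⌋₊ := ⟨_, rfl⟩
  rw [← hMe] at hM ⊢
  have hMpos : (0 : ℝ) < M := by linarith
  have hlM : 0 < Real.log (M : ℝ) := Real.log_pos (by linarith)
  have e1 : Real.log ((M : ℝ) / (N : ℝ)) = Real.log M - Real.log N := Real.log_div hMpos.ne' hNpos.ne'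
  have e2 : Real.log (3 * (M : ℝ)) = Real.log 3 + Real.log M := Real.log_mul (by norm_num) hMpos.ne'
  have e3 : Real.log (3 * (N : ℝ)) = Real.log 3 + Real.log N := Real.log_mul (by norm_num) hNpos.ne'
  rw [e1, e2, e3]
  field_simp
  ring

theorem final {δ : ℝ} {R0 : ℕ} (hδ : 0 < δ) (hδ1 : δ < 1) (hZ : ZZ δ R0) :
    ∃ C : ℝ, 0 < C ∧
    Tendsto (fun N : ℕ => (tripleCount N : ℝ) / (Real.log N) ^ 2) atTop (𝓝 C) ∧
    Tendsto (fun n : ℕ => (Nat.nth IsMarkoff n : ℝ) / Real.exp (Real.sqrt n / Real.sqrt C)) atTop (𝓝 (1 / 3)) ∧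
    (fun N : ℕ => (numberCount N : ℝ) - C * (Real.log (3 * N)) ^ 2) =o[atTop] (fun N : ℕ => Real.log N) ∧
    (fun N : ℕ => (tripleCount N : ℝ) - numberCount N) =O[atTop] (fun N : ℕ => (Real.log N) ^ (1 - δ)) ∧
    (fun N : ℕ => (tripleCount N : ℝ) - C * (Real.log (3 * N)) ^ 2) =o[atTop] (fun N : ℕ => Real.log N) ∧
    Tendsto (fun n : ℕ => (tripleMax n : ℝ) / Real.exp (Real.sqrt n / Real.sqrt C)) atTop (𝓝 (1 / 3)) ∧
    (∀ t : ℝ, 1 < t → Tendsto (fun N : ℕ => ((numberCount ⌊t * N⌋₊ : ℝ) - numberCount N) / Real.log N) atTop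
      (𝓝 (2 * C * Real.log t))) := by
  obtain ⟨C, hC, hT, hlit, htri, -, hiff⟩ := main_theorem
  have ho := fail_o hδ hδ1 hZ
  have hnum : (fun N : ℕ => (numberCount N : ℝ) - C * (Real.log (3 * N)) ^ 2) =o[atTop]
      (fun N : ℕ => Real.log N) := by
    refine (hlit.sub ho).congr_left fun N => ?_
    ring
  exact ⟨C, hC, hT, hiff.2 ho, hnum, fail_O hδ hδ1 hZ, hlit, htri,
    fun t ht => fic_last numberCount hnum t ht⟩

end Pool.Agent.Lib.MP_94ab62_ntZ
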