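import Pool.Agent.Lib.MP_94ab62_ntZ.TcK
import Pool.Agent.Lib.MP_94ab62_ntZ.FiC

set_option autoImplicit false

/-!
# The end: the `n`th Markoff number is `(1/3 + o(1)) A^√n`
-/

namespace Pool.Agent.Lib.MP_94ab62_ntZ

open Pool.Agent.Lib.MP_94ab62_nt Pool.Agent.Lib.MP_94ab62_ntU Filter Topology Asymptotics

theorem end_theorem :
    ∃ C : ℝ, 0 < C ∧
    Tendsto (fun N : ℕ => (tripleCount N : ℝ) / (Real.log N) ^ 2) atTop (𝓝 C) ∧
    Tendsto (fun n : ℕ => (Nat.nth IsMarkoff n : ℝ) / Real.exp (Real.sqrt n / Real.sqrt C)) atTop (𝓝 (1 / 3)) ∧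
    (fun N : ℕ => (numberCount N : ℝ) - C * (Real.log (3 * N)) ^ 2) =o[atTop] (fun N : ℕ => Real.log N) ∧
    (fun N : ℕ => (tripleCount N : ℝ) - numberCount N) =O[atTop] (fun N : ℕ => (Real.log N) ^ ((1 : ℝ) - 1 / 1000)) ∧
    (fun N : ℕ => (tripleCount N : ℝ) - C * (Real.log (3 * N)) ^ 2) =o[atTop] (fun N : ℕ => Real.log N) ∧
    Tendsto (fun n : ℕ => (tripleMax n : ℝ) / Real.exp (Real.sqrt n / Real.sqrt C)) atTop (𝓝 (1 / 3)) ∧
    (∀ t : ℝ, 1 < t → Tendsto (fun N : ℕ => ((numberCount ⌊t * N⌋₊ : ℝ) - numberCount N) / Real.log N) atTop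
      (𝓝 (2 * C * Real.log t))) := by
  obtain ⟨R0, hR0⟩ := Z_main
  exact final (by norm_num) (by norm_num) hR0

end Pool.Agent.Lib.MP_94ab62_ntZ
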