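import Pool.Agent.Lib.MP_94ab62_ntZ.Defs
import Pool.Agent.Lib.MP_94ab62_ntU.Fail
import Mathlib.Logic.Encodable.Basic

/-!
# FiA: failures of uniqueness as a partial matching

Let `Q = {p : List Bool | zz p ≤ N}` (finite, `fin_zz`).  By the proof of `count_fail` (Fail.lean: `fail_count`, `fail_sub`, `fail_number` are private there; copy what is needed, or
use `count_fail`'s ingredients again): `tripleCount N ≤ 2 + |Q|` and `2 + |zz '' Q| ≤ numberCount N`.
Order the lists by `Encodable.encode : List Bool → ℕ` (injective).  Let `P p q := zz q = zz p ∧ encode q < encode p` and, for `p ∈ Q` which has some `q` with `P p q`, let `pred p` be the one with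
the largest code (`Finset.exists_max_image` on the finite set `{q ∈ Q | P p q}`).
`S := {(p, q) | p ∈ Q, q ∈ Q, zz q = zz p, encode q < encode p, and for all r ∈ Q with zz r = zz p and encode r < encode p : encode r ≤ encode q}`.
* `InjOn fst`: `q` is determined by `p` (two maxima have the same code, `Encodable.encode_injective`).
* `InjOn snd`: `(p,q), (p',q) ∈ S`, `p ≠ p'`, say `encode p < encode p'`; `zz p = zz q = zz p'`; then `p` is one of the `r` for `p'`, so `encode p ≤ encode q < encode p`: contradiction.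
* count: the map `Q \ (first coordinates of S) → ℕ`, `p ↦ zz p` is injective (two elements of `Q` with the same `zz`: the one with the larger code has a smaller one, so it is a first coordinate), so
  `|Q| - |S| ≤ |zz '' Q|` and `tripleCount N ≤ 2 + |Q| ≤ 2 + |zz '' Q| + |S| ≤ numberCount N + |S|`.
-/

set_option autoImplicit false

namespace Pool.Agent.Lib.MP_94ab62_ntZ

open Pool.Agent.Lib.MP_94ab62_nt Pool.Agent.Lib.MP_94ab62_ntU

/-- solutions with two equal entries -/
private theorem fia_eq {x z : ℕ} (hx : 0 < x) (hz : 0 < z) (he : x ^ 2 + x ^ 2 + z ^ 2 = 3 * x * x * z) :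
    x = 1 ∧ (z = 1 ∨ z = 2) := by
  have h1 : x ^ 2 ∣ z ^ 2 := by
    have h2 : x ^ 2 ∣ x ^ 2 + x ^ 2 + z ^ 2 := by
      rw [he]
      exact ⟨3 * z, by ring⟩
    have h3 : x ^ 2 ∣ x ^ 2 + x ^ 2 := ⟨2, by ring⟩
    exact (Nat.dvd_add_right h3).1 h2
  rw [Nat.pow_dvd_pow_iff (by norm_num)] at h1
  obtain ⟨k, rfl⟩ := h1
  have h4 : 2 + k ^ 2 = 3 * x * k := by
    have h5 : x ^ 2 * (2 + k ^ 2) = x ^ 2 * (3 * x * k) := by
      calc x ^ 2 * (2 + k ^ 2) = x ^ 2 + x ^ 2 + (x * k) ^ 2 := by ring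
        _ = 3 * x * x * (x * k) := he
        _ = x ^ 2 * (3 * x * k) := by ring
    exact Nat.eq_of_mul_eq_mul_left (by positivity) h5
  have hk : 0 < k := Nat.pos_of_mul_pos_left hz |> fun h => by
    rcases Nat.eq_zero_or_pos k with h0 | h0
    · subst h0; simp at hz
    · exact h0
  have h6 : k ∣ 2 := by
    have h7 : k ∣ 2 + k ^ 2 := by
      rw [h4]
      exact ⟨3 * x, by ring⟩
    have h8 : k ∣ k ^ 2 := ⟨k, by ring⟩
    exact (Nat.dvd_add_left h8).1 h7
  have h9 : k ≤ 2 := Nat.le_of_dvd (by norm_num) h6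
  interval_cases k
  · have : x = 1 := by omega
    subst this
    simp
  · have : x = 1 := by omega
    subst this
    simp

private def fia_A (N : ℕ) : Finset Nd :=
  (Finset.Icc 1 N ×ˢ Finset.Icc 1 N ×ˢ Finset.Icc 1 N).filter
    (fun p : ℕ × ℕ × ℕ =>
      p.1 < p.2.1 ∧ p.2.1 < p.2.2 ∧
        p.1 ^ 2 + p.2.1 ^ 2 + p.2.2 ^ 2 = 3 * p.1 * p.2.1 * p.2.2)

private theorem fia_memA (N : ℕ) (s : Nd) : s ∈ fia_A N ↔
    0 < s.1 ∧ s.1 < s.2.1 ∧ s.2.1 < s.2.2 ∧ s.2.2 ≤ N ∧
      s.1 ^ 2 + s.2.1 ^ 2 + s.2.2 ^ 2 = 3 * s.1 * s.2.1 * s.2.2 := by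
  unfold fia_A
  simp only [Finset.mem_filter, Finset.mem_product, Finset.mem_Icc]
  constructor
  · rintro ⟨⟨⟨h1, h2⟩, ⟨h3, h4⟩, h5, h6⟩, h7, h8, h9⟩
    exact ⟨by omega, h7, h8, h6, h9⟩
  · rintro ⟨h1, h2, h3, h4, h5⟩
    exact ⟨⟨⟨by omega, by omega⟩, ⟨by omega, by omega⟩, by omega, by omega⟩, h2, h3, h5⟩

private theorem fia_count {N : ℕ} (hN : 2 ≤ N) : tripleCount N = 2 + (fia_A N).card := by
  classical
  have h1 : (Finset.Icc 1 N ×ˢ Finset.Icc 1 N ×ˢ Finset.Icc 1 N).filter
    (fun p : ℕ × ℕ × ℕ =>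
      p.1 ≤ p.2.1 ∧ p.2.1 ≤ p.2.2 ∧
        p.1 ^ 2 + p.2.1 ^ 2 + p.2.2 ^ 2 = 3 * p.1 * p.2.1 * p.2.2) =
      ({(1, 1, 1), (1, 1, 2)} : Finset Nd) ∪ fia_A N := by
    ext ⟨x, y, z⟩
    rw [Finset.mem_union, fia_memA]
    simp only [Finset.mem_filter, Finset.mem_product, Finset.mem_Icc, Finset.mem_insert,
      Finset.mem_singleton, Prod.mk.injEq]
    constructor
    · rintro ⟨⟨⟨h1, h2⟩, ⟨h3, h4⟩, h5, h6⟩, h7, h8, h9⟩
      rcases Nat.lt_or_ge x y with hxy | hxy
      · rcases Nat.lt_or_ge y z with hyz | hyz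
        · right
          exact ⟨by omega, hxy, hyz, h6, h9⟩
        · exfalso
          have hyz' : y = z := le_antisymm h8 hyz
          subst hyz'
          have := fia_eq (x := y) (z := x) (by omega) (by omega) (by
            have e1 : x ^ 2 + y ^ 2 + y ^ 2 = y ^ 2 + y ^ 2 + x ^ 2 := by ring
            have e2 : 3 * x * y * y = 3 * y * y * x := by ring
            rw [← e1, h9, e2])
          omega
      · have hxy' : x = y := le_antisymm h7 hxy
        subst hxy'
        left
        have := fia_eq (x := x) (z := z) (by omega) (by omega) h9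
        omega
    · rintro ((⟨rfl, rfl, rfl⟩ | ⟨rfl, rfl, rfl⟩) | ⟨h1, h2, h3, h4, h5⟩)
      · exact ⟨⟨⟨by omega, by omega⟩, ⟨by omega, by omega⟩, by omega, by omega⟩, by omega, by omega,
          by norm_num⟩
      · exact ⟨⟨⟨by omega, by omega⟩, ⟨by omega, by omega⟩, by omega, by omega⟩, by omega, by omega,
          by norm_num⟩
      · exact ⟨⟨⟨by omega, by omega⟩, ⟨by omega, by omega⟩, by omega, by omega⟩, by omega, by omega,
          h5⟩
  unfold tripleCount
  rw [h1, Finset.card_union_of_disjoint]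
  · congr 1
  · rw [Finset.disjoint_left]
    intro a ha hb
    rw [fia_memA] at hb
    simp only [Finset.mem_insert, Finset.mem_singleton] at ha
    rcases ha with rfl | rfl
    · exact absurd hb.2.1 (by simp)
    · exact absurd hb.2.1 (by simp)

private def fia_O (t : Nd) : Nd := if t.1 < t.2.1 then t else sw t

private theorem fia_good (p : List Bool) : Good (tn p) := by
  rw [tn_eq_nd]
  exact good_nd good_root _

private theorem fia_sub (N : ℕ) :
    fia_A N ⊆ (fin_zz N).toFinset.image (fun p => fia_O (tn p)) := by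
  intro s hs
  rw [fia_memA] at hs
  obtain ⟨h1, h2, h3, h4, h5⟩ := hs
  obtain ⟨p, hp⟩ := tn_exists (s := s) ⟨h1, h1.trans h2, h2.ne, h2.trans h3, h3, h5⟩
  have hz : zz p = s.2.2 := by
    unfold zz
    rcases hp with hp | hp <;> rw [hp]
    rfl
  rw [Finset.mem_image]
  refine ⟨p, ?_, ?_⟩
  · rw [Set.Finite.mem_toFinset]
    change zz p ≤ N
    omega
  · rcases hp with hp | hp
    · rw [hp, fia_O, if_pos h2]
    · rw [hp, fia_O, if_neg]
      · rfl
      · simp only [sw]
        omega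

private theorem fia_number (N : ℕ) (hN : 2 ≤ N) :
    2 + ((fin_zz N).toFinset.image zz).card ≤ numberCount N := by
  classical
  unfold numberCount
  have h0 : (({1, 2} : Finset ℕ) ∪ (fin_zz N).toFinset.image zz).card =
      2 + ((fin_zz N).toFinset.image zz).card := by
    rw [Finset.card_union_of_disjoint]
    · congr 1
    · rw [Finset.disjoint_left]
      intro a ha hb
      rw [Finset.mem_image] at hb
      obtain ⟨p, -, hp⟩ := hb
      have h1 := zz_ge p
      simp only [Finset.mem_insert, Finset.mem_singleton] at ha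
      omega
  rw [← h0]
  apply Finset.card_le_card
  intro m hm
  rw [Finset.mem_union, Finset.mem_image] at hm
  rw [Finset.mem_filter, Finset.mem_Icc]
  rcases hm with hm | ⟨p, hp, rfl⟩
  · simp only [Finset.mem_insert, Finset.mem_singleton] at hm
    rcases hm with rfl | rfl
    · exact ⟨⟨le_rfl, by omega⟩, 1, 1, by norm_num, by norm_num, by norm_num, by norm_num⟩
    · exact ⟨⟨by norm_num, hN⟩, 1, 1, by norm_num, by norm_num, by norm_num, by norm_num⟩
  · rw [Set.Finite.mem_toFinset] at hp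
    have h1 := zz_ge p
    have h2 : zz p ≤ N := hp
    have hg := fia_good p
    exact ⟨⟨by omega, h2⟩, (tn p).1, (tn p).2.1, hg.1, hg.2.1, by omega, hg.2.2.2.2.2⟩

theorem fail_match {N : ℕ} (hN : 2 ≤ N) : ∃ S : Set PP,
    (∀ x ∈ S, x.1 ≠ x.2 ∧ zz x.1 = zz x.2 ∧ zz x.1 ≤ N) ∧ Set.InjOn Prod.fst S ∧ Set.InjOn Prod.snd S ∧
      S.Finite ∧ tripleCount N ≤ numberCount N + S.ncard := by
  classical
  obtain ⟨Q, hQ⟩ : ∃ Q, Q = (fin_zz N).toFinset := ⟨_, rfl⟩
  have hmem : ∀ p, p ∈ Q ↔ zz p ≤ N := by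
    intro p
    rw [hQ, Set.Finite.mem_toFinset]
    exact Iff.rfl
  have h1 : tripleCount N ≤ 2 + Q.card := by
    rw [fia_count hN, hQ]
    exact Nat.add_le_add_left ((Finset.card_le_card (fia_sub N)).trans Finset.card_image_le) 2
  have h2 : 2 + (Q.image zz).card ≤ numberCount N := by
    rw [hQ]
    exact fia_number N hN
  obtain ⟨T, hT⟩ : ∃ T : Finset PP, T = (Q ×ˢ Q).filter (fun x : PP => zz x.1 = zz x.2 ∧
      Encodable.encode x.2 < Encodable.encode x.1 ∧
      ∀ r ∈ Q, zz r = zz x.1 → Encodable.encode r < Encodable.encode x.1 →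
        Encodable.encode r ≤ Encodable.encode x.2) := ⟨_, rfl⟩
  have hTm : ∀ x : PP, x ∈ T ↔ (x.1 ∈ Q ∧ x.2 ∈ Q) ∧ zz x.1 = zz x.2 ∧
      Encodable.encode x.2 < Encodable.encode x.1 ∧
      ∀ r ∈ Q, zz r = zz x.1 → Encodable.encode r < Encodable.encode x.1 →
        Encodable.encode r ≤ Encodable.encode x.2 := by
    intro x
    rw [hT, Finset.mem_filter, Finset.mem_product]
  have hinj1 : Set.InjOn Prod.fst (T : Set PP) := by
    rintro ⟨p, q⟩ hx ⟨p', q'⟩ hy he
    rw [Finset.mem_coe, hTm] at hx hy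
    simp only at hx hy he
    subst he
    obtain ⟨⟨x1, x2⟩, x3, x4, x5⟩ := hx
    obtain ⟨⟨y1, y2⟩, y3, y4, y5⟩ := hy
    have e1 := x5 q' y2 y3.symm y4
    have e2 := y5 q x2 x3.symm x4
    have e3 : q = q' := Encodable.encode_injective (le_antisymm e2 e1)
    rw [e3]
  have hinj2 : Set.InjOn Prod.snd (T : Set PP) := by
    have key : ∀ p p' q : List Bool, (p, q) ∈ T → (p', q) ∈ T →
        ¬ Encodable.encode p < Encodable.encode p' := by
      intro p p' q hx hy hlt
      rw [hTm] at hx hy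
      simp only at hx hy
      obtain ⟨⟨x1, x2⟩, x3, x4, x5⟩ := hx
      obtain ⟨⟨y1, y2⟩, y3, y4, y5⟩ := hy
      have e1 := y5 p x1 (x3.trans y3.symm) hlt
      omega
    rintro ⟨p, q⟩ hx ⟨p', q'⟩ hy he
    simp only at he
    subst he
    have e1 := key p p' q hx hy
    have e2 := key p' p q hy hx
    have e3 : p = p' := Encodable.encode_injective (le_antisymm (not_lt.1 e2) (not_lt.1 e1))
    rw [e3]
  have h3 : (Q \ T.image Prod.fst).card ≤ (Q.image zz).card := by
    have key : ∀ p q : List Bool, p ∈ Q → q ∈ Q → zz q = zz p → Encodable.encode q < Encodable.encode p →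
        p ∈ T.image Prod.fst := by
      intro p q hp hq he hlt
      obtain ⟨r, hr, hmax⟩ := Finset.exists_max_image
        (Q.filter (fun r => zz r = zz p ∧ Encodable.encode r < Encodable.encode p))
        (fun r => Encodable.encode r) ⟨q, by rw [Finset.mem_filter]; exact ⟨hq, he, hlt⟩⟩
      rw [Finset.mem_filter] at hr
      rw [Finset.mem_image]
      refine ⟨(p, r), ?_, rfl⟩
      rw [hTm]
      refine ⟨⟨hp, hr.1⟩, hr.2.1.symm, hr.2.2, ?_⟩
      intro s hs h1 h2
      exact hmax s (by rw [Finset.mem_filter]; exact ⟨hs, h1, h2⟩)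
    refine Finset.card_le_card_of_injOn zz ?_ ?_
    · intro p hp
      have hp' := (Finset.mem_sdiff.1 (Finset.mem_coe.1 hp)).1
      exact Finset.mem_coe.2 (Finset.mem_image_of_mem _ hp')
    · intro p hp q hq he
      have hp' := Finset.mem_sdiff.1 (Finset.mem_coe.1 hp)
      have hq' := Finset.mem_sdiff.1 (Finset.mem_coe.1 hq)
      rcases lt_trichotomy (Encodable.encode p) (Encodable.encode q) with h | h | h
      · exact absurd (key q p hq'.1 hp'.1 he h) hq'.2
      · exact Encodable.encode_injective h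
      · exact absurd (key p q hp'.1 hq'.1 he.symm h) hp'.2
  have h4 : Q.card ≤ (Q \ T.image Prod.fst).card + T.card := by
    have e1 : Q.card ≤ (Q \ T.image Prod.fst).card + (T.image Prod.fst).card := by
      have e2 : Q ⊆ (Q \ T.image Prod.fst) ∪ T.image Prod.fst := by
        intro p hp
        rw [Finset.mem_union, Finset.mem_sdiff]
        by_cases h : p ∈ T.image Prod.fst
        · exact Or.inr h
        · exact Or.inl ⟨hp, h⟩
      exact (Finset.card_le_card e2).trans (Finset.card_union_le _ _)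
    exact e1.trans (Nat.add_le_add_left Finset.card_image_le _)
  refine ⟨(T : Set PP), ?_, hinj1, hinj2, T.finite_toSet, ?_⟩
  · intro x hx
    rw [Finset.mem_coe, hTm] at hx
    refine ⟨?_, hx.2.1, (hmem _).1 hx.1.1⟩
    intro he
    have := hx.2.2.1
    rw [he] at this
    exact lt_irrefl _ this
  · rw [Set.ncard_coe_finset]
    omega

end Pool.Agent.Lib.MP_94ab62_ntZ
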