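import Pool.Agent.Lib.MP_94ab62_ntZ.FiA
import Pool.Agent.Lib.MP_94ab62_ntU.EndU

/-!
# FiB: from the counting theorem to Markoff numbers

Hypothesis `hZ`: `#S ≤ R^(1-δ)` for every partial matching `S` of coincidences up to `R`, `R ≥ R0`.
* `fail_Z`: copy of `fail_bound` (EndU): `R = ⌊10/9 log (3N)⌋₊` tends to infinity, `zz p ≤ N → ss p ≤ R` (there), `R ≤ 2 log N`.  `fail_match hN`: `S`; every member is `Pr R x.1 x.2`
  (`zz x.2 = zz x.1 ≤ N`).  `tripleCount N - numberCount N ≤ S.ncard ≤ R^(1-δ) ≤ (2 log N)^(1-δ) ≤ 2 (log N)^(1-δ)`.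
* `fail_O`: `IsBigO` form (`numberCount_le N`: the difference is `≥ 0`).
* `fail_o`: `(log N)^(1-δ) =o (log N)`: `isLittleO_rpow_rpow` composed with `log N → ∞`.
* `main_Z`: `main_theorem` (MP_94ab62_nt/Fin.lean; its conjuncts are those of `LeadingAsymptotics`): `C`, the limit, `tripleCount N - C log² (3N) = o(log N)`, ..., the equivalence
  `m_n ~ (1/3) A^√n ↔ tripleCount N - numberCount N = o(log N)`.
  `numberCount N - C log²(3N) = (tripleCount N - C log²(3N)) - (tripleCount N - numberCount N)`.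
-/

set_option autoImplicit false

namespace Pool.Agent.Lib.MP_94ab62_ntZ

open Pool.Agent.Lib.MP_94ab62_nt Pool.Agent.Lib.MP_94ab62_ntU Filter Topology Asymptotics

/-- the counting theorem with exponent `1 - δ` -/
def ZZ (δ : ℝ) (R0 : ℕ) : Prop :=
  ∀ R : ℕ, R0 ≤ R → ∀ S : Set PP, (∀ x ∈ S, Pr R x.1 x.2) → Set.InjOn Prod.fst S → Set.InjOn Prod.snd S →
    (S.ncard : ℝ) ≤ (R : ℝ) ^ (1 - δ)

theorem fail_Z {δ : ℝ} {R0 : ℕ} (hδ : 0 < δ) (hδ1 : δ < 1) (hZ : ZZ δ R0) : ∀ᶠ N : ℕ in atTop,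
    (tripleCount N : ℝ) - numberCount N ≤ 2 * (Real.log N) ^ (1 - δ) := by
  have hlog : Tendsto (fun N : ℕ => Real.log (N : ℝ)) atTop atTop :=
    Real.tendsto_log_atTop.comp tendsto_natCast_atTop_atTop
  have hRt : Tendsto (fun N : ℕ => ⌊10 / 9 * Real.log (3 * (N : ℝ))⌋₊) atTop atTop := by
    refine tendsto_nat_floor_atTop.comp ?_
    refine Tendsto.const_mul_atTop (by norm_num) ?_
    exact Real.tendsto_log_atTop.comp (Tendsto.const_mul_atTop (by norm_num) tendsto_natCast_atTop_atTop)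
  have h1 := hRt.eventually_ge_atTop R0
  filter_upwards [h1, eventually_ge_atTop 2, hlog.eventually_ge_atTop (5 / 4 * Real.log 3)] with N hN hN2 hNlog
  obtain ⟨R, hR⟩ : ∃ R : ℕ, R = ⌊10 / 9 * Real.log (3 * (N : ℝ))⌋₊ := ⟨_, rfl⟩
  rw [← hR] at hN
  have hN0 : (0 : ℝ) < N := by
    have : 0 < N := by omega
    exact_mod_cast this
  have hl3 : Real.log (3 * (N : ℝ)) = Real.log 3 + Real.log N :=
    Real.log_mul (by norm_num) hN0.ne'
  have hl30 : 0 < Real.log 3 := Real.log_pos (by norm_num)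
  have hRle : (R : ℝ) ≤ 10 / 9 * Real.log (3 * (N : ℝ)) := by
    rw [hR]
    refine Nat.floor_le ?_
    rw [hl3]
    linarith
  have hR2 : (R : ℝ) ≤ 2 * Real.log N := by
    rw [hl3] at hRle
    linarith
  have hss : ∀ p : List Bool, zz p ≤ N → ss p ≤ R := by
    intro p hp
    have h5 : 1 ≤ zz p := le_trans (by norm_num) (zz_ge p)
    have h2 : ll p ≤ Real.log (3 * (N : ℝ)) := by
      have h6 : F (zz p) ≤ F N := F_le h5 hp
      exact h6.trans (F_log (by omega)).1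
    have h3 := ll_ge p
    rw [hR]
    refine Nat.le_floor ?_
    linarith
  obtain ⟨S, hS, hi1, hi2, -, hcnt⟩ := fail_match hN2
  have hPr : ∀ x ∈ S, Pr R x.1 x.2 := by
    intro x hx
    obtain ⟨a1, a2, a3⟩ := hS x hx
    exact ⟨a1, a2, hss _ a3, hss _ (a2 ▸ a3)⟩
  have h2 := hZ R hN S hPr hi1 hi2
  have h3 : (tripleCount N : ℝ) ≤ numberCount N + (S.ncard : ℝ) := by exact_mod_cast hcnt
  have hlogN : 0 ≤ Real.log N := by linarith
  have h4 : (R : ℝ) ^ (1 - δ) ≤ 2 * (Real.log N) ^ (1 - δ) := by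
    calc (R : ℝ) ^ (1 - δ) ≤ (2 * Real.log N) ^ (1 - δ) :=
          Real.rpow_le_rpow (Nat.cast_nonneg _) hR2 (by linarith)
      _ = (2 : ℝ) ^ (1 - δ) * (Real.log N) ^ (1 - δ) := Real.mul_rpow (by norm_num) hlogN
      _ ≤ 2 * (Real.log N) ^ (1 - δ) := by
          refine mul_le_mul_of_nonneg_right ?_ (Real.rpow_nonneg hlogN _)
          have h5 : (2 : ℝ) ^ (1 - δ) ≤ (2 : ℝ) ^ (1 : ℝ) :=
            Real.rpow_le_rpow_of_exponent_le (by norm_num) (by linarith)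
          rwa [Real.rpow_one] at h5
  linarith

theorem fail_O {δ : ℝ} {R0 : ℕ} (hδ : 0 < δ) (hδ1 : δ < 1) (hZ : ZZ δ R0) :
    (fun N : ℕ => (tripleCount N : ℝ) - numberCount N) =O[atTop] (fun N : ℕ => (Real.log N) ^ (1 - δ)) := by
  have hlog : Tendsto (fun N : ℕ => Real.log (N : ℝ)) atTop atTop :=
    Real.tendsto_log_atTop.comp tendsto_natCast_atTop_atTop
  refine IsBigO.of_bound 2 ?_
  filter_upwards [fail_Z hδ hδ1 hZ, hlog.eventually_ge_atTop 0] with N hN hN0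
  have h1 : (numberCount N : ℝ) ≤ tripleCount N := by exact_mod_cast numberCount_le N
  rw [Real.norm_eq_abs, Real.norm_eq_abs, abs_of_nonneg (by linarith),
    abs_of_nonneg (Real.rpow_nonneg hN0 _)]
  exact hN

theorem fail_o {δ : ℝ} {R0 : ℕ} (hδ : 0 < δ) (hδ1 : δ < 1) (hZ : ZZ δ R0) :
    (fun N : ℕ => (tripleCount N : ℝ) - numberCount N) =o[atTop] (fun N : ℕ => Real.log N) := by
  have hlog : Tendsto (fun N : ℕ => Real.log (N : ℝ)) atTop atTop :=
    Real.tendsto_log_atTop.comp tendsto_natCast_atTop_atTop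
  refine (fail_O hδ hδ1 hZ).trans_isLittleO ?_
  have h0 : Tendsto (fun N : ℕ => (Real.log (N : ℝ)) ^ (-δ)) atTop (𝓝 0) :=
    (tendsto_rpow_neg_atTop hδ).comp hlog
  rw [isLittleO_iff_tendsto']
  · refine h0.congr' ?_
    filter_upwards [hlog.eventually_gt_atTop 0] with N hN
    rw [eq_div_iff hN.ne']
    nth_rewrite 2 [← Real.rpow_one (Real.log (N : ℝ))]
    rw [← Real.rpow_add hN]
    congr 1
    ring
  · filter_upwards [hlog.eventually_gt_atTop 0] with N hN h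
    exact absurd h hN.ne'

theorem main_Z {δ : ℝ} {R0 : ℕ} (hδ : 0 < δ) (hδ1 : δ < 1) (hZ : ZZ δ R0) : ∃ C : ℝ, 0 < C ∧
    Tendsto (fun N : ℕ => (tripleCount N : ℝ) / (Real.log N) ^ 2) atTop (𝓝 C) ∧
    Tendsto (fun n : ℕ => (Nat.nth IsMarkoff n : ℝ) / Real.exp (Real.sqrt n / Real.sqrt C)) atTop (𝓝 (1 / 3)) ∧
    (fun N : ℕ => (numberCount N : ℝ) - C * (Real.log (3 * N)) ^ 2) =o[atTop] (fun N : ℕ => Real.log N) ∧
    (fun N : ℕ => (tripleCount N : ℝ) - numberCount N) =O[atTop] (fun N : ℕ => (Real.log N) ^ (1 - δ)) := by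
  obtain ⟨C, hC, hT, hlit, -, -, hiff⟩ := main_theorem
  have ho := fail_o hδ hδ1 hZ
  refine ⟨C, hC, hT, hiff.2 ho, ?_, fail_O hδ hδ1 hZ⟩
  refine (hlit.sub ho).congr_left fun N => ?_
  ring

end Pool.Agent.Lib.MP_94ab62_ntZ
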