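import Pool.Agent.Lib.MP_94ab62_ntZ.RaF

/-!
# LrA: nodes below a ray, expansion of their length (general position)
-/

set_option autoImplicit false

namespace Pool.Agent.Lib.MP_94ab62_ntZ

open Pool.Agent.Lib.MP_94ab62_nt Pool.Agent.Lib.MP_94ab62_ntU

/-- `p` is below `c` and `uu p = X w_0 + Y h` for the ray `(c, b)` -/
structure Bel (c : List Bool) (b : Bool) (X Y : ℕ) (p : List Bool) : Prop where
  sf : c <:+ p
  cx : cX c b (uu p) = X
  cy : cY c b (uu p) = Y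

/-- the same with `uu p = X w_n + f h` -/
structure RepG (c0 : List Bool) (b : Bool) (n X f : ℕ) (p : List Bool) : Prop where
  hX : 1 ≤ X
  hf : f < X
  cx : cX c0 b (uu p) = X
  cy : cY c0 b (uu p) = n * X + f
  cas : en c0 b n <:+ p ∨ (X = 1 ∧ f = 0 ∧ ∃ m, n = m + 1 ∧ p = cn c0 b m)

theorem bel_rep {c : List Bool} {b : Bool} {X Y : ℕ} {p : List Bool} (h : Bel c b X Y p) :
    ∃ n f : ℕ, Y = n * X + f ∧ RepG c b n X f p := by
  rcases ray_cases b h.sf with ⟨m, hm⟩ | ⟨m, hm⟩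
  · have h1 : cX c b (uu p) = 1 := by rw [hm, uu_cn, cX_wv]
    have h2 : cY c b (uu p) = ((m + 1 : ℕ) : ℤ) := by rw [hm, uu_cn, cY_wv]
    have hX : X = 1 := by
      have := h.cx
      rw [h1] at this
      exact_mod_cast this.symm
    have hY : Y = m + 1 := by
      have := h.cy
      rw [h2] at this
      exact_mod_cast this.symm
    subst hX hY
    refine ⟨m + 1, 0, by ring, le_refl _, by norm_num, ?_, ?_, Or.inr ⟨rfl, rfl, m, rfl, hm⟩⟩
    · rw [h1]; norm_num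
    · rw [h2]; push_cast; ring
  · obtain ⟨X', f, h1, h2, h3, h4⟩ := en_coord hm
    have hX : X = X' := by
      have := h.cx
      rw [h3] at this
      exact_mod_cast this.symm
    subst hX
    have hY : Y = m * X + f := by
      have := h.cy
      rw [h4] at this
      exact_mod_cast this.symm
    exact ⟨m, f, hY, by omega, h2, h3, h4, Or.inl hm⟩

private theorem lra_hv_nonneg (c0 : List Bool) (b : Bool) : 0 ≤ (hv c0 b).1 ∧ 0 ≤ (hv c0 b).2 := by
  obtain ⟨h1, h2, h3, h4⟩ := g_nonneg c0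
  cases b
  · exact ⟨h3, h4⟩
  · exact ⟨h1, h2⟩

private theorem lra_wv_nonneg (c0 : List Bool) (b : Bool) : 0 ≤ (wv c0 b 0).1 ∧ 0 ≤ (wv c0 b 0).2 := by
  obtain ⟨h1, h2, h3, h4⟩ := g_nonneg c0
  cases b
  · exact ⟨h1, h2⟩
  · exact ⟨h3, h4⟩

private theorem lra_nm {v : ℤ × ℤ} (h1 : 0 ≤ v.1) (h2 : 0 ≤ v.2) : nm v = v.1 + v.2 := by
  unfold nm
  have h1' : (0 : ℝ) ≤ v.1 := by exact_mod_cast h1
  have h2' : (0 : ℝ) ≤ v.2 := by exact_mod_cast h2
  rw [abs_of_nonneg h1', abs_of_nonneg h2']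

theorem repG_ss {c0 : List Bool} {b : Bool} {n X f : ℕ} {p : List Bool} (h : RepG c0 b n X f p) :
    (ss p : ℝ) = X * nm (wv c0 b 0) + ((n * X + f : ℕ) : ℝ) * nm (hv c0 b) := by
  have h1 := coord c0 b (uu p)
  rw [h.cx, h.cy] at h1
  obtain ⟨a1, a2⟩ := lra_hv_nonneg c0 b
  obtain ⟨a3, a4⟩ := lra_wv_nonneg c0 b
  have h2 := ss_eq p
  rw [h1] at h2
  simp only [Prod.fst_add, Prod.snd_add, Prod.smul_fst, Prod.smul_snd, smul_eq_mul] at h2
  rw [lra_nm a1 a2, lra_nm a3 a4]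
  have h3 : ((ss p : ℤ) : ℝ) = ((X * ((wv c0 b 0).1 + (wv c0 b 0).2) +
      ((n * X + f : ℕ) : ℤ) * ((hv c0 b).1 + (hv c0 b).2) : ℤ) : ℝ) := by
    rw [← h2]
    congr 1
    push_cast
    ring
  rw [Int.cast_natCast] at h3
  rw [h3]
  push_cast
  ring

theorem hv_nm_ge (c0 : List Bool) (b : Bool) : 1 ≤ nm (hv c0 b) := by
  cases b with
  | true =>
    show 1 ≤ nm (g1 c0)
    rw [nm_g1]
    exact_mod_cast m1_pos c0
  | false =>
    show 1 ≤ nm (g2 c0)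
    rw [nm_g2]
    exact_mod_cast m2_pos c0

theorem wv_nm_ge (c0 : List Bool) (b : Bool) : 1 ≤ nm (wv c0 b 0) := by
  cases b with
  | true =>
    show 1 ≤ nm (g2 c0)
    rw [nm_g2]
    exact_mod_cast m2_pos c0
  | false =>
    show 1 ≤ nm (g1 c0)
    rw [nm_g1]
    exact_mod_cast m1_pos c0

theorem repG_XR {R : ℕ} {c0 : List Bool} {b : Bool} {n X f : ℕ} {p : List Bool} (h : RepG c0 b n X f p)
    (hs : ss p ≤ R) : (X : ℝ) ≤ R := by
  have h1 := repG_ss h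
  have h2 := hv_nm_ge c0 b
  have h3 := wv_nm_ge c0 b
  have h4 : (ss p : ℝ) ≤ R := by exact_mod_cast hs
  have h5 : (0 : ℝ) ≤ X := Nat.cast_nonneg X
  have h6 : (0 : ℝ) ≤ ((n * X + f : ℕ) : ℝ) := Nat.cast_nonneg _
  nlinarith

private theorem lra_exp_tenth : Real.exp (1 / 10) ≤ 6 / 5 := by
  have h1 := Real.add_one_le_exp (-(1 / 10) : ℝ)
  have h2 : Real.exp (1 / 10) * Real.exp (-(1 / 10)) = 1 := by
    rw [← Real.exp_add]; simp
  have h3 := Real.exp_pos (1 / 10)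
  nlinarith

private theorem lra_aux {x e e' : ℝ} (he : 0 < e) (hs : e ≤ 1 / 20)
    (h1 : e' ≤ 2 * Real.sinh (e' / 2))
    (h2 : Real.sinh (e' / 2) ≤ Real.exp (-2 * x + 1 / 10) * Real.sinh (e / 2)) :
    e' ≤ 2 * Real.exp (-(2 * x)) * e := by
  have h3 := eps3_sinh_le (u := e / 2) (by linarith)
  have h4 : Real.sinh (e / 2) ≤ 21 / 40 * e := by
    have h5 : 0 ≤ Real.sinh (e / 2) := Real.sinh_nonneg_iff.2 (by linarith)
    nlinarith
  have h6 : Real.exp (-2 * x + 1 / 10) = Real.exp (-(2 * x)) * Real.exp (1 / 10) := by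
    rw [← Real.exp_add]; congr 1; ring
  have h7 := lra_exp_tenth
  have h10 := Real.exp_pos (-(2 * x))
  have h8 : Real.exp (-2 * x + 1 / 10) ≤ Real.exp (-(2 * x)) * (6 / 5) := by
    rw [h6]
    exact mul_le_mul_of_nonneg_left h7 h10.le
  have h12 : Real.exp (-2 * x + 1 / 10) * Real.sinh (e / 2) ≤
      Real.exp (-(2 * x)) * (6 / 5) * (21 / 40 * e) :=
    mul_le_mul h8 h4 (Real.sinh_nonneg_iff.2 (by linarith)) (by positivity)
  have h13 : 0 < Real.exp (-(2 * x)) * e := mul_pos h10 he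
  linarith

theorem ee_enG (c0 : List Bool) (b : Bool) (n : ℕ) :
    ee (en c0 b n) ≤ 2 * Real.exp (-(2 * F (zw c0 b n))) * ee (cn c0 b n) := by
  have hg := good_tn (cn c0 b n)
  cases b with
  | true => exact lra_aux (ee_pos _) (ee_small _) (eps3_two_sinh (good_rc hg)) (eps4_right hg)
  | false => exact lra_aux (ee_pos _) (ee_small _) (eps3_two_sinh (good_lc hg)) (eps4_left hg)

private theorem lra_D {z : ℕ} (hz : 1 ≤ z) : (5 : ℝ) ≤ 9 * (z : ℝ) ^ 2 - 4 := by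
  have h1 : (1 : ℝ) ≤ (z : ℝ) := by exact_mod_cast hz
  nlinarith

private theorem lra_expT {z : ℕ} {y : ℕ → ℕ} (h : RS z y) (n : ℕ) :
    Real.exp (-(2 * F (y n))) ≤ 1 / TT z y n ^ 2 := by
  have h1 := sg_pos h n
  have hT := TT_pos h n
  have h2 : Real.log (TT z y n) ≤ F (y n) := by
    unfold sg at h1
    linarith
  have h3 : Real.exp (-(2 * F (y n))) ≤ Real.exp (-(2 * Real.log (TT z y n))) :=
    Real.exp_le_exp.2 (by linarith)
  refine h3.trans (le_of_eq ?_)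
  rw [Real.exp_neg, one_div]
  congr 1
  rw [two_mul, Real.exp_add, Real.exp_log hT]
  ring

theorem rep_lenT {R : ℕ} {c0 : List Bool} {b : Bool} {n X f : ℕ} {p : List Bool} (h : RepG c0 b n X f p)
    (hs : ss p ≤ R) (hT : 29 / 10 ≤ TT (zh c0 b) (zw c0 b) n) :
    |ll p - (X * Real.log (TT (zh c0 b) (zw c0 b) 0) + (n * X + f : ℕ) * F (zh c0 b)) -
        4 / (9 * (zh c0 b : ℝ) ^ 2 - 4) / TT (zh c0 b) (zw c0 b) n ^ 2 * (X - f * (1 - 1 / lam (zh c0 b) ^ 2))| ≤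
      24 * (R : ℝ) ^ 2 / TT (zh c0 b) (zw c0 b) n ^ 4 := by
  have hRS := rs_ray c0 b
  have hXR := repG_XR h hs
  have hX1 : (1 : ℝ) ≤ X := by exact_mod_cast h.hX
  have hfX : (f : ℝ) ≤ X := by exact_mod_cast h.hf.le
  have hf0 : (0 : ℝ) ≤ f := Nat.cast_nonneg f
  have hD := lra_D hRS.hz
  have hsg := sg_asymT hRS hT
  have her := er_asymT hRS hT
  have hbd := er_bdT hRS hT
  have hx := lra_expT hRS n
  have hF := rae_F c0 b n
  have hen := ee_enG c0 b n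
  have hee := ee_cn c0 b n
  obtain ⟨T, hTd⟩ : ∃ T, T = TT (zh c0 b) (zw c0 b) n := ⟨_, rfl⟩
  obtain ⟨D, hDd⟩ : ∃ D, D = 9 * (zh c0 b : ℝ) ^ 2 - 4 := ⟨_, rfl⟩
  obtain ⟨u, hu⟩ : ∃ u, u = 1 - 1 / lam (zh c0 b) ^ 2 := ⟨_, rfl⟩
  rw [← hTd] at hsg her hbd hT hx ⊢
  rw [← hDd] at hsg her hbd hD ⊢
  rw [← hu] at her ⊢
  have hT0 : 0 < T := by linarith
  have hD0 : 0 < D := by linarith
  obtain ⟨a, ha⟩ : ∃ a, a = 1 / D / T ^ 4 := ⟨_, rfl⟩
  have ha0 : 0 < a := by rw [ha]; positivity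
  have ha5 : 5 * a ≤ 1 / T ^ 4 := by
    rw [ha, div_div, ← mul_div_assoc, div_le_div_iff₀ (by positivity) (by positivity)]
    have : 0 < T ^ 4 := by positivity
    nlinarith
  have e8 : 8 / D / T ^ 4 = 8 * a := by rw [ha]; ring
  have e16 : 16 / D / T ^ 4 = 16 * a := by rw [ha]; ring
  have e24 : 24 * (R : ℝ) ^ 2 / T ^ 4 = 24 * (R : ℝ) ^ 2 * (1 / T ^ 4) := by ring
  rw [e8] at hsg
  rw [e16] at her
  rw [e24]
  have hR1 : (1 : ℝ) ≤ R := hX1.trans hXR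
  have hR2 : (R : ℝ) ≤ (R : ℝ) ^ 2 := by nlinarith
  rcases h.cas with hc | ⟨h1, h2, m, h3, h4⟩
  · have h1 := ll_app hc
    have h2 := LL_en c0 b n (uu p)
    have h3 : Li c0 b (uu p) =
        X * Real.log (TT (zh c0 b) (zw c0 b) 0) + (n * X + f : ℕ) * F (zh c0 b) := by
      unfold Li
      rw [h.cx, h.cy]
      push_cast
      ring
    rw [h3, h.cx, h.cy, hee] at h2
    obtain ⟨Λ, hΛ⟩ : ∃ Λ, Λ = X * Real.log (TT (zh c0 b) (zw c0 b) 0) +
      (n * X + f : ℕ) * F (zh c0 b) := ⟨_, rfl⟩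
    rw [← hΛ] at h2 ⊢
    rw [hee] at hen
    push_cast at h2
    have h4 : ee (en c0 b n) ≤ 12 * a := by
      have h5 : ee (en c0 b n) ≤ 2 * (1 / T ^ 2) * (6 / D / T ^ 2) := by
        refine hen.trans ?_
        apply mul_le_mul _ hbd.2 _ (by positivity)
        · linarith
        · have := ee_pos (cn c0 b n)
          rw [hee] at this
          exact this.le
      refine h5.trans (le_of_eq ?_)
      rw [ha]
      field_simp
      ring
    have hspR : (ss p : ℝ) ≤ R := by exact_mod_cast hs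
    have hseR : (ss (en c0 b n) : ℝ) ≤ R := by exact_mod_cast (ss_suffix hc).trans hs
    have h5 : 3 * ww (en c0 b n) * ss p ≤ 36 * (R : ℝ) ^ 2 * a := by
      unfold ww
      have h6 : ee (en c0 b n) * (ss (en c0 b n) : ℝ) ≤ 12 * a * R :=
        mul_le_mul h4 hseR (Nat.cast_nonneg _) (by positivity)
      have h7 : 3 * (ee (en c0 b n) * (ss (en c0 b n) : ℝ)) * ss p ≤ 3 * (12 * a * R) * R := by
        apply mul_le_mul _ hspR (Nat.cast_nonneg _) (by positivity)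
        linarith
      refine h7.trans (le_of_eq ?_)
      ring
    have h6 := h1.trans h5
    have h8 : |(X : ℝ) * (sg (zh c0 b) (zw c0 b) n - 4 / D / T ^ 2)| ≤ X * (8 * a) := by
      rw [abs_mul, abs_of_nonneg (show (0 : ℝ) ≤ X by linarith)]
      exact mul_le_mul_of_nonneg_left hsg (by linarith)
    have h9 : |(f : ℝ) * (er (zh c0 b) (zw c0 b) n - 4 / D * u / T ^ 2)| ≤ X * (16 * a) := by
      rw [abs_mul, abs_of_nonneg hf0]
      exact mul_le_mul hfX her (abs_nonneg _) (by linarith)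
    have h10 : ll p - Λ - 4 / D / T ^ 2 * (X - f * u) =
        (ll p - LL (en c0 b n) (uu p)) +
          ((X : ℝ) * (sg (zh c0 b) (zw c0 b) n - 4 / D / T ^ 2) -
            (f : ℝ) * (er (zh c0 b) (zw c0 b) n - 4 / D * u / T ^ 2)) := by
      rw [h2]
      ring
    rw [h10]
    refine (abs_add_le _ _).trans ((add_le_add h6 ((abs_sub _ _).trans (add_le_add h8 h9))).trans ?_)
    have h11 : 36 * (R : ℝ) ^ 2 * a + (X * (8 * a) + X * (16 * a)) ≤ 60 * (R : ℝ) ^ 2 * a := by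
      have h20 : (X : ℝ) * a ≤ (R : ℝ) ^ 2 * a := mul_le_mul_of_nonneg_right (hXR.trans hR2) ha0.le
      have h21 : X * (8 * a) + X * (16 * a) = 24 * ((X : ℝ) * a) := by ring
      rw [h21]
      linarith
    have h12 : 60 * (R : ℝ) ^ 2 * a ≤ 12 * (R : ℝ) ^ 2 * (1 / T ^ 4) := by
      have : 12 * (R : ℝ) ^ 2 * (5 * a) ≤ 12 * (R : ℝ) ^ 2 * (1 / T ^ 4) :=
        mul_le_mul_of_nonneg_left ha5 (by positivity)
      linarith
    have h13 : 0 ≤ (R : ℝ) ^ 2 * (1 / T ^ 4) := by positivity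
    linarith
  · subst h1 h2
    have h5 : ll p = F (zw c0 b n) := by
      rw [h4, ll_cn, h3]
    rw [h5, hF]
    have h6 : Real.log (TT (zh c0 b) (zw c0 b) 0) + n * F (zh c0 b) + sg (zh c0 b) (zw c0 b) n -
        (((1 : ℕ) : ℝ) * Real.log (TT (zh c0 b) (zw c0 b) 0) + ((n * 1 + 0 : ℕ) : ℝ) * F (zh c0 b)) -
        4 / D / T ^ 2 * (((1 : ℕ) : ℝ) - ((0 : ℕ) : ℝ) * u) =
        sg (zh c0 b) (zw c0 b) n - 4 / D / T ^ 2 := by
      push_cast
      ring
    rw [h6]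
    refine hsg.trans ?_
    have h13 : 0 < 1 / T ^ 4 := by positivity
    have h14 : 1 * (1 / T ^ 4) ≤ (R : ℝ) ^ 2 * (1 / T ^ 4) :=
      mul_le_mul_of_nonneg_right (by nlinarith) h13.le
    linarith

end Pool.Agent.Lib.MP_94ab62_ntZ
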