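import Pool.Agent.Lib.MP_94ab62_ntZ.LrA
import Pool.Agent.Lib.MP_94ab62_ntZ.DdD
import Pool.Agent.Lib.MP_94ab62_ntZ.DdE

/-!
# LrB: two coincidences on two rays: the first order relation is exact

`lr_len`: as in the proof of `rep_len'` (DdB, there `T ≥ e^{0.9K}`): `rep_lenT` gives the expansion with error `24 R²/T⁴ ≤ 24 R²/T²` (`T ≥ 1`), and
  `0 ≤ (4/D)/T² (X - f w) ≤ X/T² ≤ R/T² ≤ R²/T²` (`4/D ≤ 1`, `0 ≤ w ≤ 1`, `f < X ≤ R`: `repG_XR`).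
`TT_low`: `cosh_F`: `3 y = e^{F y} + e^{-F y} ≥ e^{F y}`, and `y n ≤ TT z y n` (`TT_le`).
`TT_low0`: `TT_mono` and `TT_low` for `0`.
`lr_first`: put `u_i = X log T_0 + Y_i F z`, `v_i = X' log T_0' + Y_i' F z'`.  `bel_rep` + `lr_len` (with `T_n ≥ T_0 ≥ e^w/3`, so `1/T² ≤ 9 e^{-2w}`;
  `e^w/3 ≥ 29/10` because `w ≥ 200`):  `|ll p_i - u_i| ≤ 225 R² e^{-2w}`, the same for `q_i`; `ll p_i = ll q_i` because `zz p_i = zz q_i`
  (`ll p = fc (tn p) = F (zz p)`).  So `|u_i - v_i| ≤ 450 R² e^{-2w}`, and `|(Y2-Y1) F z - (Y2'-Y1') F z'| ≤ ε := 900 R² e^{-2w}`.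
  `near_eq` (a = Y2-Y1 : ℕ, a' = Y2'-Y1'; conditions `ε ≤ 1` and `6 ε e^{a F z} < 1` follow from `hc`, see `lr_num1`) gives equality, `comm_field` gives `W`,
  `ups` (with `B = e^H`; `z ≤ e^{F z} ≤ e^H` since `3z = λ + 1/λ ≤ 2λ`; `ε = 450 R² e^{-2w}`; condition `lr_num2`) gives `u_1 = v_1` and the norm equation, `norm_eq` gives `X = X'`, `z = z'`.
`lr_num1`: take logarithms: `log (5400 R² e^{a} e^{-2w}) = log 5400 + 2 log R + a - 2w < 0` as `w ≥ 200 + a + 20 log R` (`Real.exp_log`; write `R = e^{log R}`).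
`lr_num2`: `log(12 · (60000 e^{8H})^m · 450 R² e^{-2w}) = log 5400 + m (log 60000 + 8 H) + 2 log R - 2w`, `log 5400 ≤ 9`, `log 60000 ≤ 12` (e.g. `e^9 ≥ 2^9 · ...`; `Real.exp_one_gt_d9`:
  `e^9 ≥ 2.718^9 ≥ 8000`, `e^12 ≥ 160000`).
-/

set_option autoImplicit false

namespace Pool.Agent.Lib.MP_94ab62_ntZ

open Pool.Agent.Lib.MP_94ab62_nt Pool.Agent.Lib.MP_94ab62_ntU

theorem lr_len {R : ℕ} {c0 : List Bool} {b : Bool} {n X f : ℕ} {p : List Bool} (h : RepG c0 b n X f p)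
    (hs : ss p ≤ R) (hT : 29 / 10 ≤ TT (zh c0 b) (zw c0 b) n) :
    |ll p - (X * Real.log (TT (zh c0 b) (zw c0 b) 0) + (n * X + f : ℕ) * F (zh c0 b))| ≤
      25 * (R : ℝ) ^ 2 / TT (zh c0 b) (zw c0 b) n ^ 2 := by
  have h1 := rep_lenT h hs hT
  have hRS := rs_ray c0 b
  have hXR := repG_XR h hs
  have hX1 : (1 : ℝ) ≤ X := by exact_mod_cast h.hX
  have hfX : (f : ℝ) ≤ X := by exact_mod_cast h.hf.le
  have hf0 : (0 : ℝ) ≤ f := Nat.cast_nonneg f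
  have hD : (5 : ℝ) ≤ 9 * (zh c0 b : ℝ) ^ 2 - 4 := by
    have h2 : (1 : ℝ) ≤ (zh c0 b : ℝ) := by exact_mod_cast hRS.hz
    nlinarith
  have hl := lam_ge hRS.hz
  obtain ⟨T, hTd⟩ : ∃ T, T = TT (zh c0 b) (zw c0 b) n := ⟨_, rfl⟩
  obtain ⟨D, hDd⟩ : ∃ D, D = 9 * (zh c0 b : ℝ) ^ 2 - 4 := ⟨_, rfl⟩
  obtain ⟨l, hld⟩ : ∃ l, l = lam (zh c0 b) := ⟨_, rfl⟩
  obtain ⟨Λ, hΛ⟩ : ∃ Λ, Λ = X * Real.log (TT (zh c0 b) (zw c0 b) 0) +
      (n * X + f : ℕ) * F (zh c0 b) := ⟨_, rfl⟩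
  rw [← hΛ, ← hTd, ← hDd, ← hld] at h1
  rw [← hΛ, ← hTd]
  rw [← hTd] at hT
  rw [← hDd] at hD
  rw [← hld] at hl
  have hT0 : 0 < T := by linarith
  have hD0 : 0 < D := by linarith
  have hl0 : 0 < l := by linarith
  have hR1 : (1 : ℝ) ≤ R := hX1.trans hXR
  have hu0 : 0 < 1 / l ^ 2 := by positivity
  have hu1 : 1 / l ^ 2 ≤ 1 := by
    rw [div_le_one (by positivity)]
    nlinarith
  have h2 : 0 ≤ (X : ℝ) - f * (1 - 1 / l ^ 2) := by nlinarith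
  have h3 : (X : ℝ) - f * (1 - 1 / l ^ 2) ≤ X := by
    have : 0 ≤ (f : ℝ) * (1 - 1 / l ^ 2) := mul_nonneg hf0 (by linarith)
    linarith
  obtain ⟨v, hv⟩ : ∃ v, v = 1 / T ^ 2 := ⟨_, rfl⟩
  have hv0 : 0 < v := by rw [hv]; positivity
  have hv1 : v ≤ 1 := by
    rw [hv, div_le_one (by positivity)]
    nlinarith
  have h4 : 4 / D / T ^ 2 ≤ v := by
    rw [hv]
    apply div_le_div_of_nonneg_right _ (by positivity)
    rw [div_le_one hD0]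
    linarith
  have h40 : 0 ≤ 4 / D / T ^ 2 := by positivity
  have h5 : |4 / D / T ^ 2 * ((X : ℝ) - f * (1 - 1 / l ^ 2))| ≤ v * R := by
    rw [abs_of_nonneg (mul_nonneg h40 h2)]
    exact mul_le_mul h4 (h3.trans hXR) h2 hv0.le
  have h6 : 24 * (R : ℝ) ^ 2 / T ^ 4 ≤ 24 * (R : ℝ) ^ 2 * v := by
    have h7 : 24 * (R : ℝ) ^ 2 / T ^ 4 = 24 * (R : ℝ) ^ 2 * (v * v) := by
      rw [hv]
      field_simp
    rw [h7]
    apply mul_le_mul_of_nonneg_left _ (by positivity)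
    nlinarith
  have h8 : |ll p - Λ| ≤ 25 * (R : ℝ) ^ 2 * v := by
    have h9 : ll p - Λ = (ll p - Λ - 4 / D / T ^ 2 * ((X : ℝ) - f * (1 - 1 / l ^ 2))) +
        4 / D / T ^ 2 * ((X : ℝ) - f * (1 - 1 / l ^ 2)) := by ring
    rw [h9]
    refine (abs_add_le _ _).trans ((add_le_add (h1.trans h6) h5).trans ?_)
    have h10 : v * (R : ℝ) ≤ v * (R : ℝ) ^ 2 := mul_le_mul_of_nonneg_left (by nlinarith) hv0.le
    linarith
  have h11 : 25 * (R : ℝ) ^ 2 / T ^ 2 = 25 * (R : ℝ) ^ 2 * v := by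
    rw [hv]; ring
  rw [h11]
  exact h8

private theorem lrb_y {z : ℕ} {y : ℕ → ℕ} (h : RS z y) (n : ℕ) : 1 ≤ y n := by
  induction n with
  | zero => exact h.hy
  | succ n ih => exact ih.trans (h.lt n).le

private theorem lrb_exp {z : ℕ} (hz : 1 ≤ z) : Real.exp (F z) ≤ 3 * z := by
  have h1 := cosh_F hz
  rw [Real.cosh_eq] at h1
  have h2 := Real.exp_pos (-F z)
  linarith

theorem TT_low {z : ℕ} {y : ℕ → ℕ} (h : RS z y) (n : ℕ) : Real.exp (F (y n)) / 3 ≤ TT z y n := by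
  have h1 := lrb_exp (lrb_y h n)
  have h2 := (TT_le h n).1
  linarith

theorem TT_low0 {z : ℕ} {y : ℕ → ℕ} (h : RS z y) {w : ℝ} (hw : w ≤ F (y 0)) (n : ℕ) : Real.exp w / 3 ≤ TT z y n := by
  have h1 := TT_low h 0
  have h2 := TT_mono h (Nat.zero_le n)
  have h3 := Real.exp_le_exp.2 hw
  linarith

theorem z_le_exp {z : ℕ} (hz : 1 ≤ z) : (z : ℝ) ≤ Real.exp (F z) := by
  have h1 := cosh_F hz
  rw [Real.cosh_eq] at h1
  have h2 : Real.exp (-F z) ≤ Real.exp (F z) := Real.exp_le_exp.2 (by linarith [F_pos hz])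
  have h3 : (0 : ℝ) ≤ (z : ℝ) := Nat.cast_nonneg z
  linarith

private theorem lrb_e9 : (5400 : ℝ) ≤ Real.exp 9 := by
  have h1 : Real.exp 9 = Real.exp 1 ^ 9 := by
    rw [← Real.exp_nat_mul]; norm_num
  have h2 : (2.7 : ℝ) ≤ Real.exp 1 := by
    have := Real.exp_one_gt_d9
    linarith
  rw [h1]
  have h3 : (2.7 : ℝ) ^ 9 ≤ Real.exp 1 ^ 9 := pow_le_pow_left₀ (by norm_num) h2 9
  refine le_trans ?_ h3
  norm_num

private theorem lrb_e12 : (60000 : ℝ) ≤ Real.exp 12 := by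
  have h1 : Real.exp 12 = Real.exp 1 ^ 12 := by
    rw [← Real.exp_nat_mul]; norm_num
  have h2 : (2.7 : ℝ) ≤ Real.exp 1 := by
    have := Real.exp_one_gt_d9
    linarith
  rw [h1]
  have h3 : (2.7 : ℝ) ^ 12 ≤ Real.exp 1 ^ 12 := pow_le_pow_left₀ (by norm_num) h2 12
  refine le_trans ?_ h3
  norm_num

private theorem lrb_R {R : ℕ} (hR : 100 ≤ R) : (R : ℝ) ^ 2 = Real.exp (2 * Real.log R) := by
  have h1 : (0 : ℝ) < R := by
    have : (100 : ℝ) ≤ R := by exact_mod_cast hR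
    linarith
  rw [two_mul, Real.exp_add, Real.exp_log h1]
  ring

private theorem lrb_logR {R : ℕ} (hR : 100 ≤ R) : 0 ≤ Real.log R := by
  apply Real.log_nonneg
  have : (100 : ℝ) ≤ R := by exact_mod_cast hR
  linarith

theorem lr_num1 {R : ℕ} (hR : 100 ≤ R) {a w : ℝ} (ha : 0 ≤ a) (hc : 200 + 20 * Real.log R + a ≤ w) :
    900 * (R : ℝ) ^ 2 * Real.exp (-(2 * w)) ≤ 1 ∧ 6 * (900 * (R : ℝ) ^ 2 * Real.exp (-(2 * w))) * Real.exp a < 1 := by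
  have hL := lrb_logR hR
  have hL2 := lrb_R hR
  obtain ⟨L, hLd⟩ : ∃ L, L = Real.log R := ⟨_, rfl⟩
  rw [← hLd] at hL hL2 hc
  rw [hL2]
  have h9 := lrb_e9
  have h1 : 5400 * (Real.exp (2 * L) * Real.exp (-(2 * w)) * Real.exp a) < 1 := by
    have h2 : 5400 * (Real.exp (2 * L) * Real.exp (-(2 * w)) * Real.exp a) ≤
        Real.exp 9 * (Real.exp (2 * L) * Real.exp (-(2 * w)) * Real.exp a) :=
      mul_le_mul_of_nonneg_right h9 (by positivity)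
    refine lt_of_le_of_lt h2 ?_
    rw [← Real.exp_add, ← Real.exp_add, ← Real.exp_add, Real.exp_lt_one_iff]
    linarith
  have h2 : 1 ≤ Real.exp a := Real.one_le_exp ha
  have h3 : 0 < Real.exp (2 * L) * Real.exp (-(2 * w)) := by positivity
  constructor
  · nlinarith
  · linarith

theorem lr_num2 {R m : ℕ} (hR : 100 ≤ R) {H w : ℝ} (hH : 0 ≤ H) (hm : 1 ≤ m) (hc : 20 * (m * (H + 10) + Real.log R) ≤ w) :
    12 * (60000 * Real.exp H ^ 8) ^ m * (450 * (R : ℝ) ^ 2 * Real.exp (-(2 * w))) < 1 := by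
  have hL := lrb_logR hR
  have hL2 := lrb_R hR
  obtain ⟨L, hLd⟩ : ∃ L, L = Real.log R := ⟨_, rfl⟩
  rw [← hLd] at hL hL2 hc
  rw [hL2]
  have h9 := lrb_e9
  have h12 := lrb_e12
  have hm' : (1 : ℝ) ≤ m := by exact_mod_cast hm
  have h8 : Real.exp H ^ 8 = Real.exp (8 * H) := by
    rw [← Real.exp_nat_mul]; norm_num
  have h3 : (60000 * Real.exp H ^ 8) ^ m ≤ Real.exp (m * (12 + 8 * H)) := by
    rw [Real.exp_nat_mul, Real.exp_add, h8]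
    apply pow_le_pow_left₀ (by positivity)
    exact mul_le_mul_of_nonneg_right h12 (Real.exp_pos _).le
  have h4 : 12 * (60000 * Real.exp H ^ 8) ^ m * (450 * Real.exp (2 * L) * Real.exp (-(2 * w))) =
      5400 * ((60000 * Real.exp H ^ 8) ^ m * (Real.exp (2 * L) * Real.exp (-(2 * w)))) := by ring
  rw [h4]
  have h5 : 5400 * ((60000 * Real.exp H ^ 8) ^ m * (Real.exp (2 * L) * Real.exp (-(2 * w)))) ≤
      Real.exp 9 * (Real.exp (m * (12 + 8 * H)) * (Real.exp (2 * L) * Real.exp (-(2 * w)))) := by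
    apply mul_le_mul h9 _ (by positivity) (Real.exp_pos _).le
    exact mul_le_mul_of_nonneg_right h3 (by positivity)
  refine lt_of_le_of_lt h5 ?_
  rw [← Real.exp_add, ← Real.exp_add, ← Real.exp_add, Real.exp_lt_one_iff]
  have h6 : 0 ≤ (m : ℝ) * H := mul_nonneg (by linarith) hH
  nlinarith

private theorem lrb_one {R : ℕ} {c : List Bool} {b : Bool} {X Y : ℕ} {p : List Bool} {w : ℝ}
    (h : Bel c b X Y p) (hs : ss p ≤ R) (hw : w ≤ F (zw c b 0)) (hw2 : 200 ≤ w) :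
    1 ≤ X ∧ |ll p - (X * Real.log (TT (zh c b) (zw c b) 0) + Y * F (zh c b))| ≤
      225 * (R : ℝ) ^ 2 * Real.exp (-(2 * w)) := by
  obtain ⟨n, f, hY, hr⟩ := bel_rep h
  have hRS := rs_ray c b
  have h1 := TT_low0 hRS hw n
  have h2 : w + 1 ≤ Real.exp w := Real.add_one_le_exp w
  have hT : 29 / 10 ≤ TT (zh c b) (zw c b) n := by linarith
  have h3 := lr_len hr hs hT
  rw [← hY] at h3
  refine ⟨hr.hX, h3.trans ?_⟩
  have h4 : Real.exp (-(2 * w)) = 1 / Real.exp w ^ 2 := by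
    rw [Real.exp_neg, one_div]
    congr 1
    rw [two_mul, Real.exp_add]
    ring
  have h5 : 0 < Real.exp w := Real.exp_pos w
  have h6 : (Real.exp w / 3) ^ 2 ≤ TT (zh c b) (zw c b) n ^ 2 := pow_le_pow_left₀ (by positivity) h1 2
  have h7 : 25 * (R : ℝ) ^ 2 / TT (zh c b) (zw c b) n ^ 2 ≤ 25 * (R : ℝ) ^ 2 / (Real.exp w / 3) ^ 2 :=
    div_le_div_of_nonneg_left (by positivity) (by positivity) h6
  refine h7.trans (le_of_eq ?_)
  rw [h4]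
  field_simp
  ring

theorem lr_first {R m : ℕ} (hR : 100 ≤ R) {c c' : List Bool} {b b' : Bool} {p1 p2 q1 q2 : List Bool}
    {X X' Y1 Y2 Y1' Y2' : ℕ} {H w : ℝ}
    (h1 : Bel c b X Y1 p1) (h2 : Bel c b X Y2 p2) (k1 : Bel c' b' X' Y1' q1) (k2 : Bel c' b' X' Y2' q2)
    (e1 : zz p1 = zz q1) (e2 : zz p2 = zz q2) (hY : Y1 < Y2) (hY' : Y1' < Y2')
    (s1 : ss p1 ≤ R) (s2 : ss p2 ≤ R) (s3 : ss q1 ≤ R) (s4 : ss q2 ≤ R) (hX : X ≤ m) (hX' : X' ≤ m)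
    (hH : F (zh c b) ≤ H) (hH' : F (zh c' b') ≤ H) (hw : w ≤ F (zw c b 0)) (hw' : w ≤ F (zw c' b' 0))
    (hc : 20 * (m * (H + 10) + m * Real.log R + Real.log R) + (Y2 - Y1 : ℕ) * F (zh c b) ≤ w) :
    X = X' ∧ zh c b = zh c' b' ∧
      X * Real.log (TT (zh c b) (zw c b) 0) + Y1 * F (zh c b) =
        X' * Real.log (TT (zh c' b') (zw c' b') 0) + Y1' * F (zh c' b') := by
  have hRS := rs_ray c b
  have hRS' := rs_ray c' b'
  have hX0 : 1 ≤ X := by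
    obtain ⟨n, f, -, hr⟩ := bel_rep h1
    exact hr.hX
  have hX0' : 1 ≤ X' := by
    obtain ⟨n, f, -, hr⟩ := bel_rep k1
    exact hr.hX
  have hm : 1 ≤ m := hX0.trans hX
  have hm' : (1 : ℝ) ≤ m := by exact_mod_cast hm
  have hF := F_pos hRS.hz
  have hF' := F_pos hRS'.hz
  have hH0 : 0 ≤ H := by linarith
  have hL := lrb_logR hR
  have ha0 : 0 ≤ ((Y2 - Y1 : ℕ) : ℝ) * F (zh c b) := mul_nonneg (Nat.cast_nonneg _) hF.le
  have hmL : 0 ≤ (m : ℝ) * Real.log R := mul_nonneg (by linarith) hL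
  have hmH : 10 ≤ (m : ℝ) * (H + 10) := by nlinarith
  have hw2 : 200 ≤ w := by linarith
  obtain ⟨-, l1⟩ := lrb_one h1 s1 hw hw2
  obtain ⟨-, l2⟩ := lrb_one h2 s2 hw hw2
  obtain ⟨-, l3⟩ := lrb_one k1 s3 hw' hw2
  obtain ⟨-, l4⟩ := lrb_one k2 s4 hw' hw2
  have g1' : ll p1 = ll q1 := by
    show F (zz p1) = F (zz q1)
    rw [e1]
  have g2' : ll p2 = ll q2 := by
    show F (zz p2) = F (zz q2)
    rw [e2]
  rw [← g1'] at l3
  rw [← g2'] at l4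
  have n1 := lr_num1 (w := w) hR ha0 (by linarith)
  have n2 := lr_num2 (m := m) (H := H) (w := w) hR hH0 hm (by linarith)
  have hB : (1 : ℝ) ≤ Real.exp H := Real.one_le_exp hH0
  have hzB : ((zh c b : ℕ) : ℝ) ≤ Real.exp H := (z_le_exp hRS.hz).trans (Real.exp_le_exp.2 hH)
  have hzB' : ((zh c' b' : ℕ) : ℝ) ≤ Real.exp H := (z_le_exp hRS'.hz).trans (Real.exp_le_exp.2 hH')
  have d1 : |(X * Real.log (TT (zh c b) (zw c b) 0) + Y1 * F (zh c b)) -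
      (X' * Real.log (TT (zh c' b') (zw c' b') 0) + Y1' * F (zh c' b'))| ≤
      450 * (R : ℝ) ^ 2 * Real.exp (-(2 * w)) := by
    have h3 := abs_sub_le_iff.1 l1
    have h4 := abs_sub_le_iff.1 l3
    rw [abs_sub_le_iff]
    constructor
    · linarith [h3.1, h3.2, h4.1, h4.2]
    · linarith [h3.1, h3.2, h4.1, h4.2]
  have d2 : |(X * Real.log (TT (zh c b) (zw c b) 0) + Y2 * F (zh c b)) -
      (X' * Real.log (TT (zh c' b') (zw c' b') 0) + Y2' * F (zh c' b'))| ≤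
      450 * (R : ℝ) ^ 2 * Real.exp (-(2 * w)) := by
    have h3 := abs_sub_le_iff.1 l2
    have h4 := abs_sub_le_iff.1 l4
    rw [abs_sub_le_iff]
    constructor
    · linarith [h3.1, h3.2, h4.1, h4.2]
    · linarith [h3.1, h3.2, h4.1, h4.2]
  have d3 : |((Y2 - Y1 : ℕ) : ℝ) * F (zh c b) - ((Y2' - Y1' : ℕ) : ℝ) * F (zh c' b')| ≤
      900 * (R : ℝ) ^ 2 * Real.exp (-(2 * w)) := by
    have h3 := abs_sub_le_iff.1 d1
    have h4 := abs_sub_le_iff.1 d2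
    rw [Nat.cast_sub hY.le, Nat.cast_sub hY'.le, abs_sub_le_iff]
    constructor
    · linarith [h3.1, h3.2, h4.1, h4.2]
    · linarith [h3.1, h3.2, h4.1, h4.2]
  have d4 := near_eq hRS.hz hRS'.hz d3 n1.1 n1.2
  obtain ⟨W, hW⟩ := comm_field hRS.hz hRS'.hz (show 1 ≤ Y2 - Y1 by omega) (show 1 ≤ Y2' - Y1' by omega) d4
  obtain ⟨r1, r2⟩ := ups hRS hRS' hW hX0 hX0' hX hX' hB hzB hzB' d1 n2
  obtain ⟨r3, r4⟩ := norm_eq hRS.hz hRS'.hz hX0 hX0' r2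
  exact ⟨r3, r4, r1⟩

end Pool.Agent.Lib.MP_94ab62_ntZ
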