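import Pool.Agent.Lib.MP_94ab62_ntZ.DdF
import Pool.Agent.Lib.MP_94ab62_ntZ.DdG

/-!
# LrC: the second order relation is exact

`D = 9z²-4`, `λ = lam z = e^{F z}`, `u = 1 - 1/λ² ∈ [0,1]`, `A = X - f u ≥ 1` (`f ≤ X - 1`, `u ≤ 1`), `A' = X - f' u ≥ 1`, both `≤ X ≤ m`; `ρ = (T/T')²`.
`h1`: `X log (T/T') = (f' - f) F z`, so `ρ^X = λ^{2(f'-f)}`, i.e. `ρ^X λ^{2f} = λ^{2f'}` (in the form `T^{2X} λ^{2f} = T'^{2X} λ^{2f'}`, exponentiate `2*h1`).
`ρ ≤ λ²`: `log ρ = 2 (f'-f)/X · F z ≤ 2 F z` as `f' - f ≤ X`.   `λ² ≤ 9z² ≤ 9B²` (`lam_le`), `G := m (3B)²`; `A ≤ m ≤ G`, `A' ρ ≤ m 9B² = G`.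
`h2` multiplied by `T² D/4`: `|A - A' ρ| ≤ (D/4) T² δ ≤ 3 B² T² δ =: η`.
`|A^X - (A'ρ)^X| ≤ X G^{X-1} |A - A'ρ|` (lemma `pow_sub_pow_le`: `a^X - b^X = (a-b) Σ a^i b^{X-1-i}`, or induction on X) `≤ m G^m η`.
Multiply by `λ^{2f} ≤ G^m` (`λ^{2f} ≤ (9B²)^f ≤ G^m` as `f ≤ m`, `G ≥ 1`):
  `|A^X λ^{2f} - A'^X λ^{2f'}| ≤ m G^{2m} η`.  Apply `second` with `ε = m G^{2m} η`: condition `2 ε G^m = 2 m G^{3m} · 3B²T²δ < 1`: from `hδ` (`6 m B² ≤ G`).
So the two expressions are equal and `f = f' ∨ f + f' = X`.  In the second case: if `f = 0` then `f' = X`, contradiction with `f' < X`; the same if `f' = 0`;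
otherwise `sym_f` gives `f = f'`.  Then `h1` gives `X log T = X log T'`, so `T = T'` (`Real.log_injOn_pos`).
-/

set_option autoImplicit false

namespace Pool.Agent.Lib.MP_94ab62_ntZ

open Pool.Agent.Lib.MP_94ab62_nt Pool.Agent.Lib.MP_94ab62_ntU

theorem pow_sub_le {a b G : ℝ} (ha : 0 ≤ a) (hb : 0 ≤ b) (haG : a ≤ G) (hbG : b ≤ G) (hG : 1 ≤ G) (X : ℕ) :
    |a ^ X - b ^ X| ≤ X * G ^ X * |a - b| := by
  induction X with
  | zero => simp
  | succ n ih =>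
    have h1 : a ^ (n + 1) - b ^ (n + 1) = a * (a ^ n - b ^ n) + b ^ n * (a - b) := by ring
    have hG0 : 0 ≤ G := by linarith
    have h2 : |a * (a ^ n - b ^ n)| ≤ G * (n * G ^ n * |a - b|) := by
      rw [abs_mul, abs_of_nonneg ha]
      exact mul_le_mul haG ih (abs_nonneg _) hG0
    have h3 : |b ^ n * (a - b)| ≤ G ^ (n + 1) * |a - b| := by
      rw [abs_mul, abs_of_nonneg (pow_nonneg hb n)]
      refine mul_le_mul_of_nonneg_right ?_ (abs_nonneg _)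
      exact (pow_le_pow_left₀ hb hbG n).trans (pow_le_pow_right₀ hG (Nat.le_succ n))
    rw [h1]
    refine (abs_add_le _ _).trans ((add_le_add h2 h3).trans (le_of_eq ?_))
    push_cast
    ring

/-- comparison of `T` and `T'` -/
theorem rho_le {z X f f' : ℕ} {T T' : ℝ} (hz : 1 ≤ z) (hX : 1 ≤ X) (hf : f < X) (hf' : f' < X) (hT : 1 ≤ T) (hT' : 1 ≤ T')
    (h1 : X * Real.log T + f * F z = X * Real.log T' + f' * F z) : (T / T') ^ 2 ≤ lam z ^ 2 := by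
  have hT0 : 0 < T := by linarith
  have hT'0 : 0 < T' := by linarith
  have hX0 : (0 : ℝ) < X := by exact_mod_cast hX
  have hF : 0 < F z := F_pos hz
  have hfX : (f' : ℝ) - f ≤ X := by
    have h2 : (f' : ℝ) < X := by exact_mod_cast hf'
    have h3 : (0 : ℝ) ≤ f := Nat.cast_nonneg f
    linarith
  have h2 : Real.log (T / T') ≤ F z := by
    rw [Real.log_div hT0.ne' hT'0.ne']
    have h3 : (X : ℝ) * (Real.log T - Real.log T') ≤ X * F z := by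
      have h4 : (X : ℝ) * (Real.log T - Real.log T') = (f' - f) * F z := by linarith
      rw [h4]
      exact mul_le_mul_of_nonneg_right hfX hF.le
    exact le_of_mul_le_mul_left h3 hX0
  have h3 : T / T' ≤ lam z := by
    have h4 := Real.exp_le_exp.2 h2
    rw [Real.exp_log (div_pos hT0 hT'0)] at h4
    exact h4
  exact pow_le_pow_left₀ (div_pos hT0 hT'0).le h3 2

private theorem lrc_pow {z X f f' : ℕ} {T T' : ℝ} (hT : 1 ≤ T) (hT' : 1 ≤ T')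
    (h1 : X * Real.log T + f * F z = X * Real.log T' + f' * F z) :
    ((T / T') ^ 2) ^ X * lam z ^ (2 * f) = lam z ^ (2 * f') := by
  have hT0 : 0 < T := by linarith
  have hT'0 : 0 < T' := by linarith
  have hq : 0 < T / T' := div_pos hT0 hT'0
  have hl : 0 < lam z := Real.exp_pos _
  have hL : Real.log (lam z) = F z := Real.log_exp _
  refine Real.log_injOn_pos (Set.mem_Ioi.2 (by positivity)) (Set.mem_Ioi.2 (by positivity)) ?_
  rw [Real.log_mul (by positivity) (by positivity), Real.log_pow, Real.log_pow, Real.log_pow, Real.log_pow, hL,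
    Real.log_div hT0.ne' hT'0.ne']
  push_cast
  linarith

theorem sec_real {z X f f' m : ℕ} {T T' B δ : ℝ} (hz : 1 ≤ z) (hzB : (z : ℝ) ≤ B) (hX : 1 ≤ X) (hXm : X ≤ m)
    (hf : f < X) (hf' : f' < X) (hT : 1 ≤ T) (hT' : 1 ≤ T')
    (h1 : X * Real.log T + f * F z = X * Real.log T' + f' * F z)
    (h2 : |4 / (9 * (z : ℝ) ^ 2 - 4) / T ^ 2 * (X - f * (1 - 1 / lam z ^ 2)) -
        4 / (9 * (z : ℝ) ^ 2 - 4) / T' ^ 2 * (X - f' * (1 - 1 / lam z ^ 2))| ≤ δ)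
    (hδ : ((m : ℝ) * (3 * B) ^ 2) ^ (3 * m + 1) * (T ^ 2 * δ) < 1) : f = f' ∧ T = T' := by
  have hz1 : (1 : ℝ) ≤ z := by exact_mod_cast hz
  have hB1 : 1 ≤ B := hz1.trans hzB
  have hm1 : (1 : ℝ) ≤ m := by exact_mod_cast hX.trans hXm
  have hX1 : (1 : ℝ) ≤ X := by exact_mod_cast hX
  have hXmR : (X : ℝ) ≤ m := by exact_mod_cast hXm
  have hT0 : 0 < T := by linarith
  have hT'0 : 0 < T' := by linarith
  have hδ0 : 0 ≤ δ := (abs_nonneg _).trans h2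
  have hlam := lam_ge hz
  have hlam' := lam_le hz
  have hl0 : 0 < lam z := by linarith
  have hlB : lam z ≤ 3 * B := by linarith
  obtain ⟨w, hw⟩ : ∃ w : ℝ, w = 1 - 1 / lam z ^ 2 := ⟨_, rfl⟩
  have hw0 : 0 ≤ w := by
    have h3 : 1 / lam z ^ 2 ≤ 1 := by
      rw [div_le_one (by positivity)]
      exact one_le_pow₀ (by linarith)
    linarith
  have hw1 : w ≤ 1 := by
    have h3 : 0 ≤ 1 / lam z ^ 2 := by positivity
    linarith
  obtain ⟨G, hG⟩ : ∃ G : ℝ, G = (m : ℝ) * (3 * B) ^ 2 := ⟨_, rfl⟩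
  have h9 : 1 ≤ (3 * B) ^ 2 := one_le_pow₀ (by linarith)
  have hmG : (m : ℝ) ≤ G := by
    rw [hG]
    exact le_mul_of_one_le_right (by linarith) h9
  have hG1 : 1 ≤ G := hm1.trans hmG
  have hG0 : 0 < G := by linarith
  have hfR : (f : ℝ) + 1 ≤ X := by exact_mod_cast hf
  have hf'R : (f' : ℝ) + 1 ≤ X := by exact_mod_cast hf'
  have hf0 : (0 : ℝ) ≤ f := Nat.cast_nonneg f
  have hf'0 : (0 : ℝ) ≤ f' := Nat.cast_nonneg f'
  obtain ⟨A, hA⟩ : ∃ A : ℝ, A = X - f * w := ⟨_, rfl⟩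
  obtain ⟨A', hA'⟩ : ∃ A' : ℝ, A' = X - f' * w := ⟨_, rfl⟩
  have hA0 : 0 ≤ A := by
    have h3 : (f : ℝ) * w ≤ f * 1 := mul_le_mul_of_nonneg_left hw1 hf0
    linarith
  have hA'0 : 0 ≤ A' := by
    have h3 : (f' : ℝ) * w ≤ f' * 1 := mul_le_mul_of_nonneg_left hw1 hf'0
    linarith
  have hAm : A ≤ m := by
    have h3 : 0 ≤ (f : ℝ) * w := mul_nonneg hf0 hw0
    linarith
  have hA'm : A' ≤ m := by
    have h3 : 0 ≤ (f' : ℝ) * w := mul_nonneg hf'0 hw0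
    linarith
  obtain ⟨ρ, hρ⟩ : ∃ ρ : ℝ, ρ = (T / T') ^ 2 := ⟨_, rfl⟩
  have hρ0 : 0 ≤ ρ := by
    rw [hρ]
    positivity
  have hρl : ρ ≤ (3 * B) ^ 2 := by
    rw [hρ]
    exact (rho_le hz hX hf hf' hT hT' h1).trans (pow_le_pow_left₀ hl0.le hlB 2)
  have hA'ρ : A' * ρ ≤ G := by
    rw [hG]
    exact mul_le_mul hA'm hρl hρ0 (by linarith)
  have hzz : (1 : ℝ) ≤ (z : ℝ) ^ 2 := one_le_pow₀ hz1
  have hzB2 : (z : ℝ) ^ 2 ≤ B ^ 2 := pow_le_pow_left₀ (by linarith) hzB 2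
  have hD0 : 0 < 9 * (z : ℝ) ^ 2 - 4 := by linarith
  have hDB : 9 * (z : ℝ) ^ 2 - 4 ≤ 12 * B ^ 2 := by linarith
  have hη : |A - A' * ρ| ≤ 3 * B ^ 2 * (T ^ 2 * δ) := by
    have h3 : A - A' * ρ = T ^ 2 * ((9 * (z : ℝ) ^ 2 - 4) / 4) *
        (4 / (9 * (z : ℝ) ^ 2 - 4) / T ^ 2 * (X - f * (1 - 1 / lam z ^ 2)) -
          4 / (9 * (z : ℝ) ^ 2 - 4) / T' ^ 2 * (X - f' * (1 - 1 / lam z ^ 2))) := by
      rw [← hw, ← hA, ← hA', hρ]
      field_simp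
    rw [h3, abs_mul, abs_of_nonneg (by positivity)]
    calc T ^ 2 * ((9 * (z : ℝ) ^ 2 - 4) / 4) * |4 / (9 * (z : ℝ) ^ 2 - 4) / T ^ 2 * (X - f * (1 - 1 / lam z ^ 2)) -
          4 / (9 * (z : ℝ) ^ 2 - 4) / T' ^ 2 * (X - f' * (1 - 1 / lam z ^ 2))|
        ≤ T ^ 2 * ((9 * (z : ℝ) ^ 2 - 4) / 4) * δ := mul_le_mul_of_nonneg_left h2 (by positivity)
      _ = ((9 * (z : ℝ) ^ 2 - 4) / 4) * (T ^ 2 * δ) := by ring
      _ ≤ 3 * B ^ 2 * (T ^ 2 * δ) := by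
        refine mul_le_mul_of_nonneg_right ?_ (by positivity)
        linarith
  have hpow := pow_sub_le hA0 (mul_nonneg hA'0 hρ0) (hAm.trans hmG) hA'ρ hG1 X
  have hpow' : |A ^ X - (A' * ρ) ^ X| ≤ m * G ^ m * (3 * B ^ 2 * (T ^ 2 * δ)) := by
    refine hpow.trans (mul_le_mul (mul_le_mul hXmR (pow_le_pow_right₀ hG1 hXm) (by positivity) (by positivity))
      hη (abs_nonneg _) (by positivity))
  have hlf : lam z ^ (2 * f) ≤ G ^ m := by
    rw [pow_mul]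
    have h3 : lam z ^ 2 ≤ G := by
      rw [hG]
      exact (pow_le_pow_left₀ hl0.le hlB 2).trans (le_mul_of_one_le_left (by positivity) hm1)
    exact (pow_le_pow_left₀ (by positivity) h3 f).trans
      (pow_le_pow_right₀ hG1 ((Nat.le_of_lt hf).trans hXm))
  have hkey := lrc_pow (z := z) (X := X) (f := f) (f' := f') hT hT' h1
  rw [← hρ] at hkey
  have hdiff : A ^ X * lam z ^ (2 * f) - A' ^ X * lam z ^ (2 * f') =
      (A ^ X - (A' * ρ) ^ X) * lam z ^ (2 * f) := by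
    rw [← hkey, mul_pow]
    ring
  have hsec : |A ^ X * lam z ^ (2 * f) - A' ^ X * lam z ^ (2 * f')| ≤
      m * G ^ m * (3 * B ^ 2 * (T ^ 2 * δ)) * G ^ m := by
    rw [hdiff, abs_mul, abs_of_nonneg (pow_nonneg hl0.le (2 * f))]
    exact mul_le_mul hpow' hlf (pow_nonneg hl0.le _) (by positivity)
  have hε : 2 * (m * G ^ m * (3 * B ^ 2 * (T ^ 2 * δ)) * G ^ m) * ((m : ℝ) * (3 * B) ^ 2) ^ m < 1 := by
    rw [← hG]
    rw [← hG] at hδ
    refine lt_of_le_of_lt ?_ hδ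
    have h3 : 2 * (m * G ^ m * (3 * B ^ 2 * (T ^ 2 * δ)) * G ^ m) * G ^ m =
        (6 * m * B ^ 2) * (G ^ (3 * m) * (T ^ 2 * δ)) := by
      have h4 : G ^ (3 * m) = G ^ m * G ^ m * G ^ m := by
        rw [← pow_add, ← pow_add]
        congr 1
        ring
      rw [h4]
      ring
    have h4 : G ^ (3 * m + 1) * (T ^ 2 * δ) = G * (G ^ (3 * m) * (T ^ 2 * δ)) := by
      rw [pow_succ]
      ring
    rw [h3, h4]
    refine mul_le_mul_of_nonneg_right ?_ (by positivity)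
    have h5 : (0 : ℝ) ≤ m * B ^ 2 := mul_nonneg (by linarith) (sq_nonneg B)
    have h6 : G = 9 * (m * B ^ 2) := by
      rw [hG]
      ring
    rw [h6]
    linarith
  rw [hA, hA', hw] at hsec
  obtain ⟨h3, h4⟩ := second hz hzB hX hXm hf hf' hsec hε
  have hff : f = f' := by
    rcases h4 with h4 | h4
    · exact h4
    · exact sym_f hz (by omega) (by omega) h4 h3
  refine ⟨hff, ?_⟩
  rw [hff] at h1
  have h5 : Real.log T = Real.log T' := by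
    have hX0 : (X : ℝ) ≠ 0 := by linarith
    exact mul_left_cancel₀ hX0 (by linarith)
  exact Real.log_injOn_pos (Set.mem_Ioi.2 hT0) (Set.mem_Ioi.2 hT'0) h5

end Pool.Agent.Lib.MP_94ab62_ntZ
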