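import Pool.Agent.Lib.MP_94ab62_ntZ.Defs

/-!
# RaA: nodes, vectors and entries along a ray

`cn c0 b (n+1) = b :: cn c0 b n` (List.replicate_succ).  `true` keeps `g1`, `false` keeps `g2`
(`g1_true, g2_true, g1_false, g2_false` of BasisA), in the same way `tn (true :: p) = lc (tn p) = (x, z, 3xz - y)`,
`tn (false :: p) = rc (tn p) = (z, y, 3zy - x)` if `tn p = (x,y,z)`.  All statements: case split on `b`, induction on `n`.

* `hv_cn`, `zh_cn`: induction on `n` (the kept edge does not change).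
* `wv_succ`: the other edge of `b :: p` is `uu p`.  `wv_eq`: `wv (n+1) = uu (cn n) = (kept edge) + (other edge) = hv + wv n`.
* `zw_succ`: by definition of `lc`, `rc` (`zz p = (tn p).2.2`).
* `rs_ray`: `good_tn (cn n)` gives positivity, the strict inequalities and the Markoff equation for
  `(tn (cn n)) = (zw n, zh, zw (n+1))` (b = false) or `(zh, zw n, zw (n+1))` (b = true); `rc` : the third entry of the child is
  `3 * zh * zw (n+1) - zw n` (natural subtraction, but `zw n < zw (n+1) ≤ 3 * zh * zw (n+1)`); `bg` is `eps2_large`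
  (MP_94ab62_nt/Eps2.lean: `3 x y < 2 z`).
* `ee_cn`, `ll_cn`: definition of `ee = ep (tn _)`, `ep t = fa t + fb t - fc t`, `ll p = fc (tn p)`.
* `coord`: `basis_decomp c0 v` (BasisB).  `cX_add ...`: `det_add_left`, ...
-/

set_option autoImplicit false

namespace Pool.Agent.Lib.MP_94ab62_ntZ

open Pool.Agent.Lib.MP_94ab62_nt Pool.Agent.Lib.MP_94ab62_ntU

theorem cn_zero (c0 : List Bool) (b : Bool) : cn c0 b 0 = c0 := rfl

theorem cn_succ (c0 : List Bool) (b : Bool) (n : ℕ) : cn c0 b (n + 1) = b :: cn c0 b n := rfl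

theorem cn_len (c0 : List Bool) (b : Bool) (n : ℕ) : (cn c0 b n).length = n + c0.length := by
  unfold cn
  rw [List.length_append, List.length_replicate]

theorem cn_suffix (c0 : List Bool) (b : Bool) {m n : ℕ} (h : m ≤ n) : cn c0 b m <:+ cn c0 b n := by
  induction n, h using Nat.le_induction with
  | base => exact List.suffix_rfl
  | succ n _ ih =>
    rw [cn_succ]
    exact ih.trans (List.suffix_cons _ _)

theorem cn_en_suffix (c0 : List Bool) (b : Bool) {m n : ℕ} (h : m ≤ n) : cn c0 b m <:+ en c0 b n :=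
  (cn_suffix c0 b h).trans (List.suffix_cons _ _)

theorem raa_g1 (c0 : List Bool) (n : ℕ) : g1 (cn c0 true n) = g1 c0 := by
  induction n with
  | zero => rfl
  | succ n ih => rw [cn_succ, g1_true, ih]

theorem raa_g2 (c0 : List Bool) (n : ℕ) : g2 (cn c0 false n) = g2 c0 := by
  induction n with
  | zero => rfl
  | succ n ih => rw [cn_succ, g2_false, ih]

/-- the kept edge of `cn c0 b n` -/
theorem hv_cn (c0 : List Bool) (b : Bool) (n : ℕ) :
    (if b then g1 (cn c0 b n) else g2 (cn c0 b n)) = hv c0 b := by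
  cases b
  · exact raa_g2 c0 n
  · exact raa_g1 c0 n

theorem uu_cn (c0 : List Bool) (b : Bool) (n : ℕ) : uu (cn c0 b n) = wv c0 b (n + 1) := by
  cases b
  · rfl
  · rfl

theorem wv_succ (c0 : List Bool) (b : Bool) (n : ℕ) : wv c0 b (n + 1) = wv c0 b n + hv c0 b := by
  rw [← uu_cn, ← hv_cn c0 b n]
  cases b
  · rfl
  · exact add_comm _ _

theorem wv_eq (c0 : List Bool) (b : Bool) (n : ℕ) : wv c0 b n = wv c0 b 0 + (n : ℤ) • hv c0 b := by
  induction n with
  | zero => simp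
  | succ n ih =>
    rw [wv_succ, ih]
    push_cast
    rw [add_smul, one_smul, add_assoc]

theorem raa_t1 (c0 : List Bool) (n : ℕ) : (tn (cn c0 true n)).1 = (tn c0).1 := by
  induction n with
  | zero => rfl
  | succ n ih =>
    rw [cn_succ, ← ih]
    rfl

theorem raa_t2 (c0 : List Bool) (n : ℕ) : (tn (cn c0 false n)).2.1 = (tn c0).2.1 := by
  induction n with
  | zero => rfl
  | succ n ih =>
    rw [cn_succ, ← ih]
    rfl

theorem zh_cn (c0 : List Bool) (b : Bool) (n : ℕ) :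
    (if b then (tn (cn c0 b n)).1 else (tn (cn c0 b n)).2.1) = zh c0 b := by
  cases b
  · exact raa_t2 c0 n
  · exact raa_t1 c0 n

theorem zw_succ (c0 : List Bool) (b : Bool) (n : ℕ) : zw c0 b (n + 1) = zz (cn c0 b n) := by
  cases b
  · rfl
  · rfl

theorem raa_rc (c0 : List Bool) (b : Bool) (n : ℕ) :
    zw c0 b (n + 2) = 3 * zh c0 b * zw c0 b (n + 1) - zw c0 b n := by
  cases b
  · show 3 * (tn (cn c0 false n)).2.2 * (tn (cn c0 false n)).2.1 - (tn (cn c0 false n)).1 =
      3 * (tn c0).2.1 * (tn (cn c0 false n)).2.2 - (tn (cn c0 false n)).1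
    rw [raa_t2]
    congr 1
    ring
  · show 3 * (tn (cn c0 true n)).1 * (tn (cn c0 true n)).2.2 - (tn (cn c0 true n)).2.1 =
      3 * (tn c0).1 * (tn (cn c0 true n)).2.2 - (tn (cn c0 true n)).2.1
    rw [raa_t1]

theorem raa_bg (c0 : List Bool) (b : Bool) (n : ℕ) : 3 * zh c0 b * zw c0 b n < 2 * zw c0 b (n + 1) := by
  obtain ⟨h1, h2, h3, h4, h5, h6⟩ := good_tn (cn c0 b n)
  have h := eps2_large h1 h2 h3 h4 h5 h6
  cases b
  · rw [raa_t2] at h
    show 3 * (tn c0).2.1 * (tn (cn c0 false n)).1 < 2 * (tn (cn c0 false n)).2.2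
    linarith
  · rw [raa_t1] at h
    exact h

theorem rs_ray (c0 : List Bool) (b : Bool) : RS (zh c0 b) (zw c0 b) := by
  have key : ∀ n, 0 < zh c0 b ∧ 0 < zw c0 b n ∧ zw c0 b n < zw c0 b (n + 1) ∧ zh c0 b < zw c0 b (n + 1) ∧
      zw c0 b n ^ 2 + zw c0 b (n + 1) ^ 2 + zh c0 b ^ 2 = 3 * zh c0 b * zw c0 b n * zw c0 b (n + 1) := by
    intro n
    obtain ⟨h1, h2, _, h4, h5, h6⟩ := good_tn (cn c0 b n)
    cases b
    · rw [raa_t2] at h2 h5 h6
      refine ⟨h2, h1, h4, h5, ?_⟩
      show (tn (cn c0 false n)).1 ^ 2 + (tn (cn c0 false n)).2.2 ^ 2 + (tn c0).2.1 ^ 2 =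
        3 * (tn c0).2.1 * (tn (cn c0 false n)).1 * (tn (cn c0 false n)).2.2
      linarith
    · rw [raa_t1] at h1 h4 h6
      refine ⟨h1, h2, h5, h4, ?_⟩
      show (tn (cn c0 true n)).2.1 ^ 2 + (tn (cn c0 true n)).2.2 ^ 2 + (tn c0).1 ^ 2 =
        3 * (tn c0).1 * (tn (cn c0 true n)).2.1 * (tn (cn c0 true n)).2.2
      linarith
  refine ⟨(key 0).1, (key 0).2.1, fun n => (key n).2.2.1, fun n => (key n).2.2.2.1, fun n => ?_, fun n => ?_,
    fun n => (key n).2.2.2.2⟩
  · exact raa_bg c0 b n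
  · obtain ⟨h1, h2, h3, h4, h5⟩ := key n
    rw [raa_rc]
    have h6 : zw c0 b n ≤ 3 * zh c0 b * zw c0 b (n + 1) :=
      h3.le.trans (Nat.le_mul_of_pos_left _ (by omega))
    exact Nat.sub_add_cancel h6

theorem ll_cn (c0 : List Bool) (b : Bool) (n : ℕ) : ll (cn c0 b n) = F (zw c0 b (n + 1)) := by
  rw [zw_succ]
  rfl

theorem ee_cn (c0 : List Bool) (b : Bool) (n : ℕ) : ee (cn c0 b n) = er (zh c0 b) (zw c0 b) n := by
  have h := zh_cn c0 b n
  cases b
  · rw [← h]
    rfl
  · rw [← h]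
    show F _ + F _ - F _ = F _ + F _ - F _
    rw [add_comm]
    rfl

theorem coord (c0 : List Bool) (b : Bool) (v : ℤ × ℤ) :
    v = cX c0 b v • wv c0 b 0 + cY c0 b v • hv c0 b := by
  cases b
  · exact basis_decomp c0 v
  · have h := basis_decomp c0 v
    rw [add_comm] at h
    exact h

theorem cX_add (c0 : List Bool) (b : Bool) (v w : ℤ × ℤ) : cX c0 b (v + w) = cX c0 b v + cX c0 b w := by
  cases b
  · exact det_add_left _ _ _
  · exact det_add_right _ _ _

theorem cY_add (c0 : List Bool) (b : Bool) (v w : ℤ × ℤ) : cY c0 b (v + w) = cY c0 b v + cY c0 b w := by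
  cases b
  · exact det_add_right _ _ _
  · exact det_add_left _ _ _

theorem cX_smul (c0 : List Bool) (b : Bool) (a : ℤ) (v : ℤ × ℤ) : cX c0 b (a • v) = a * cX c0 b v := by
  cases b
  · exact det_smul_left _ _ _
  · exact det_smul_right _ _ _

theorem cY_smul (c0 : List Bool) (b : Bool) (a : ℤ) (v : ℤ × ℤ) : cY c0 b (a • v) = a * cY c0 b v := by
  cases b
  · exact det_smul_right _ _ _
  · exact det_smul_left _ _ _

theorem cX_hv (c0 : List Bool) (b : Bool) : cX c0 b (hv c0 b) = 0 := by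
  cases b
  · exact det_self _
  · exact det_self _

theorem cY_hv (c0 : List Bool) (b : Bool) : cY c0 b (hv c0 b) = 1 := by
  cases b
  · exact det_g c0
  · exact det_g c0

theorem raa_x0 (c0 : List Bool) (b : Bool) : cX c0 b (wv c0 b 0) = 1 := by
  cases b
  · exact det_g c0
  · exact det_g c0

theorem raa_y0 (c0 : List Bool) (b : Bool) : cY c0 b (wv c0 b 0) = 0 := by
  cases b
  · exact det_self _
  · exact det_self _

theorem cX_wv (c0 : List Bool) (b : Bool) (n : ℕ) : cX c0 b (wv c0 b n) = 1 := by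
  rw [wv_eq, cX_add, cX_smul, cX_hv, raa_x0, mul_zero, add_zero]

theorem cY_wv (c0 : List Bool) (b : Bool) (n : ℕ) : cY c0 b (wv c0 b n) = n := by
  rw [wv_eq, cY_add, cY_smul, cY_hv, raa_y0, mul_one, zero_add]

theorem cX_le (c0 : List Bool) (b : Bool) (v : ℤ × ℤ) : |(cX c0 b v : ℝ)| ≤ nm (hv c0 b) * nm v := by
  cases b
  · rw [mul_comm]
    exact det_le v (g2 c0)
  · exact det_le (g1 c0) v

theorem cY_le (c0 : List Bool) (b : Bool) (v : ℤ × ℤ) : |(cY c0 b v : ℝ)| ≤ nm (wv c0 b 0) * nm v := by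
  cases b
  · exact det_le (g1 c0) v
  · rw [mul_comm]
    exact det_le v (g2 c0)

end Pool.Agent.Lib.MP_94ab62_ntZ
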