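import Pool.Agent.Lib.MP_94ab62_ntZ.NtA
import Pool.Agent.Lib.MP_94ab62_ntZ.RaA
import Pool.Agent.Lib.MP_94ab62_ntU.EnumU

/-!
# NtD: two rays with the same pivot entry

Let `RS z y`, `RS z y'`, `T = TT z y n`, `T' = TT z y' m`, `X = T'/T > 0`, `c = 9z²/(9z²-4)`, `s = sq z`, `λ = lam z`.  By `TT_rel`, `TT_succ`:
 `3 y_n = T + c/T`, `3 y_{n+1} = λT + c/(λT)`, `3 y'_m = XT + c/(XT)`, `3 y'_{m+1} = λXT + c/(λXT)`.
`bil_one`: `9 (y'_{m+1} y_n - y'_m y_{n+1}) = c (λ - 1/λ)(X - 1/X)` (expand, the terms `λXT²` and `c²/(λXT²)` cancel), and `c s = 9z²/s`, so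
   `X - 1/X = (y'_{m+1} y_n - y'_m y_{n+1}) s/z²`.
`bil_two`: `9 (3z (y_n y'_{m+1} + y_{n+1} y'_m) - 2 y_n y'_m - 2 y_{n+1} y'_{m+1}) = c (X + 1/X)((λ+1/λ)² - 4) = 9 z² (X + 1/X)`
   (use `3z = λ + 1/λ`, `(λ+1/λ)² - 4 = (λ-1/λ)² = 9z²-4`; the terms with `T²` and `T^{-2}` cancel).
`same_ray`: suppose `|X² - P/Q| ≤ ε` with natural `P, Q ≥ 1`, `P,Q,z ≤ K`, `4 K^12 ε < 1`.  Let `v = P/Q ∈ [1/K, K]`.  Then `X² ≥ v - ε ≥ 1/(2K)`, and
   `|X^{-2} - 1/v| ≤ ε/(X² v) ≤ 2K² ε`.  By `bil_two` `X² + X^{-2} + 2 = (X+1/X)² = (k2/z²)²`, `k2` integer.  So `|k2²/z⁴ - 2 - v - 1/v| ≤ 3K² ε`, and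
   `k2² P Q - z⁴ (P+Q)²` is an integer of absolute value `≤ 3K²ε z⁴ P Q ≤ 3K^8 ε < 1`, so it is `0`: `X² + X^{-2} = v + 1/v`, so `X² = v` or `X² = 1/v`:
   `X²` is rational.  `X² - X^{-2} = (X - 1/X)(X + 1/X) = k1 k2 s/z⁴` is rational, `s` irrational: `k1 k2 = 0`, `k2 ≠ 0`, so `k1 = 0`, `X = 1/X`, `X = 1`;
   then `v + 1/v = 2`, `v = 1`, `P = Q`.
`ray_eq`: if `TT z y n = TT z y' m` for the rays `(c0,b)`, `(c0',b')` with the same `zh`: `zw n = zw' m`, `zw (n+1) = zw' (m+1)` (TT_rel), so `tn (cn c0 b n)` and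
   `tn (cn c0' b' m)` agree if `b = b'` (`zh_cn`, `zw_succ`), and agree up to `sw` if `b ≠ b'`: `tn_inj`, `tn_ne_sw` (EnumU).
-/

set_option autoImplicit false

namespace Pool.Agent.Lib.MP_94ab62_ntZ

open Pool.Agent.Lib.MP_94ab62_nt Pool.Agent.Lib.MP_94ab62_ntU

private theorem ntd_one {L T X c s a0 a1 b0 b1 : ℝ} (hL : L ≠ 0) (hT : T ≠ 0) (hX : X ≠ 0)
    (hs : L - 1 / L = s) (h1 : 3 * a0 = T + c / T) (h2 : 3 * a1 = L * T + c / (L * T))
    (h3 : 3 * b0 = X + c / X) (h4 : 3 * b1 = L * X + c / (L * X)) :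
    9 * (b1 * a0 - b0 * a1) = c * s * (X / T - T / X) := by
  have e : 9 * (b1 * a0 - b0 * a1) = (3 * b1) * (3 * a0) - (3 * b0) * (3 * a1) := by ring
  rw [e, h1, h2, h3, h4, ← hs]
  field_simp
  ring

private theorem ntd_two {L T X c z a0 a1 b0 b1 : ℝ} (hL : L ≠ 0) (hT : T ≠ 0) (hX : X ≠ 0)
    (hz : L + 1 / L = 3 * z) (h1 : 3 * a0 = T + c / T) (h2 : 3 * a1 = L * T + c / (L * T))
    (h3 : 3 * b0 = X + c / X) (h4 : 3 * b1 = L * X + c / (L * X)) :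
    9 * (3 * z * (a0 * b1 + a1 * b0) - 2 * (a0 * b0) - 2 * (a1 * b1)) =
      c * ((3 * z) ^ 2 - 4) * (X / T + T / X) := by
  have e : 9 * (3 * z * (a0 * b1 + a1 * b0) - 2 * (a0 * b0) - 2 * (a1 * b1)) =
      3 * z * ((3 * a0) * (3 * b1) + (3 * a1) * (3 * b0)) - 2 * ((3 * a0) * (3 * b0)) -
        2 * ((3 * a1) * (3 * b1)) := by ring
  rw [e, h1, h2, h3, h4, ← hz]
  field_simp
  ring

private theorem ntd_c {z : ℕ} (hz : 1 ≤ z) :
    9 * (z : ℝ) ^ 2 / (9 * (z : ℝ) ^ 2 - 4) * (9 * (z : ℝ) ^ 2 - 4) = 9 * (z : ℝ) ^ 2 := by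
  have h1 : (1 : ℝ) ≤ (z : ℝ) := by exact_mod_cast hz
  have h2 : (9 * (z : ℝ) ^ 2 - 4) ≠ 0 := by nlinarith
  rw [div_mul_cancel₀ _ h2]

theorem bil_one {z : ℕ} {y y' : ℕ → ℕ} (h : RS z y) (h' : RS z y') (n m : ℕ) :
    TT z y' m / TT z y n - TT z y n / TT z y' m =
      ((y' (m + 1) : ℝ) * y n - y' m * y (n + 1)) * sq z / (z : ℝ) ^ 2 := by
  have hz := h.hz
  have hz0 : (0 : ℝ) < (z : ℝ) := by exact_mod_cast hz
  have hL : lam z ≠ 0 := (Real.exp_pos _).ne'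
  have hT := (TT_pos h n).ne'
  have hX := (TT_pos h' m).ne'
  have h2 := TT_rel h (n + 1)
  have h4 := TT_rel h' (m + 1)
  rw [TT_succ h n] at h2
  rw [TT_succ h' m] at h4
  have key := ntd_one hL hT hX (lam_sub hz) (TT_rel h n) h2 (TT_rel h' m) h4
  have hc := ntd_c hz
  rw [← sq_sq hz] at hc key
  rw [eq_div_iff (by positivity)]
  linear_combination (-(TT z y' m / TT z y n - TT z y n / TT z y' m) / 9) * hc - (sq z / 9) * key

theorem bil_two {z : ℕ} {y y' : ℕ → ℕ} (h : RS z y) (h' : RS z y') (n m : ℕ) :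
    TT z y' m / TT z y n + TT z y n / TT z y' m =
      (3 * (z : ℝ) * ((y n : ℝ) * y' (m + 1) + y (n + 1) * y' m) - 2 * (y n * y' m) - 2 * (y (n + 1) * y' (m + 1))) /
        (z : ℝ) ^ 2 := by
  have hz := h.hz
  have hz0 : (0 : ℝ) < (z : ℝ) := by exact_mod_cast hz
  have hL : lam z ≠ 0 := (Real.exp_pos _).ne'
  have hT := (TT_pos h n).ne'
  have hX := (TT_pos h' m).ne'
  have h2 := TT_rel h (n + 1)
  have h4 := TT_rel h' (m + 1)
  rw [TT_succ h n] at h2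
  rw [TT_succ h' m] at h4
  have key := ntd_two hL hT hX (lam_add hz) (TT_rel h n) h2 (TT_rel h' m) h4
  have hc := ntd_c hz
  rw [eq_div_iff (by positivity)]
  linear_combination (-(TT z y' m / TT z y n + TT z y n / TT z y' m) / 9) * hc - (1 / 9) * key

theorem same_ray {z : ℕ} {y y' : ℕ → ℕ} (h : RS z y) (h' : RS z y') {n m P Q : ℕ} (hP : 1 ≤ P) (hQ : 1 ≤ Q)
    {K ε : ℝ} (hPK : (P : ℝ) ≤ K) (hQK : (Q : ℝ) ≤ K) (hzK : (z : ℝ) ≤ K) (hε : 0 ≤ ε) (hK : 4 * K ^ 12 * ε < 1)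
    (hX : |(TT z y' m / TT z y n) ^ 2 - (P : ℝ) / Q| ≤ ε) : TT z y' m = TT z y n ∧ P = Q := by
  have hz := h.hz
  have hT := TT_pos h n
  have hT' := TT_pos h' m
  have hz1 : (1 : ℝ) ≤ (z : ℝ) := by exact_mod_cast hz
  have hP1 : (1 : ℝ) ≤ (P : ℝ) := by exact_mod_cast hP
  have hQ1 : (1 : ℝ) ≤ (Q : ℝ) := by exact_mod_cast hQ
  have hK1 : 1 ≤ K := hP1.trans hPK
  have hb1 := bil_one h h' n m
  have hb2 := bil_two h h' n m
  obtain ⟨X, hXd⟩ : ∃ X, X = TT z y' m / TT z y n := ⟨_, rfl⟩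
  have hXi : TT z y n / TT z y' m = 1 / X := by
    rw [hXd, one_div_div]
  have hX0 : 0 < X := by rw [hXd]; positivity
  rw [hXi, ← hXd] at hb1 hb2
  rw [← hXd] at hX
  obtain ⟨k1, hk1⟩ : ∃ k : ℤ, k = (y' (m + 1) : ℤ) * y n - y' m * y (n + 1) := ⟨_, rfl⟩
  obtain ⟨k2, hk2⟩ : ∃ k : ℤ, k = 3 * (z : ℤ) * ((y n : ℤ) * y' (m + 1) + y (n + 1) * y' m) -
      2 * (y n * y' m) - 2 * (y (n + 1) * y' (m + 1)) := ⟨_, rfl⟩
  have hk1' : ((y' (m + 1) : ℝ) * y n - y' m * y (n + 1)) = (k1 : ℝ) := by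
    rw [hk1]; push_cast; ring
  have hk2' : (3 * (z : ℝ) * ((y n : ℝ) * y' (m + 1) + y (n + 1) * y' m) - 2 * (y n * y' m) -
      2 * (y (n + 1) * y' (m + 1))) = (k2 : ℝ) := by
    rw [hk2]; push_cast; ring
  rw [hk1'] at hb1
  rw [hk2'] at hb2
  have hz2 : (0 : ℝ) < (z : ℝ) ^ 2 := by positivity
  obtain ⟨v, hv⟩ : ∃ v, v = (P : ℝ) / Q := ⟨_, rfl⟩
  obtain ⟨w, hw⟩ : ∃ w, w = X ^ 2 := ⟨_, rfl⟩
  rw [← hv, ← hw] at hX
  have hv0 : 0 < v := by rw [hv]; positivity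
  have hw0 : 0 < w := by rw [hw]; positivity
  have hvK : 1 / K ≤ v := by
    rw [hv, div_le_div_iff₀ (by positivity) (by positivity)]
    calc 1 * (Q : ℝ) = Q := one_mul _
      _ ≤ K := hQK
      _ = 1 * K := (one_mul K).symm
      _ ≤ (P : ℝ) * K := mul_le_mul_of_nonneg_right hP1 (by linarith only [hK1])
  have hKp : K ≤ K ^ 12 := by
    calc K = K ^ 1 := (pow_one K).symm
      _ ≤ K ^ 12 := pow_le_pow_right₀ hK1 (by norm_num)
  have hεK : 4 * K * ε < 1 := by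
    refine lt_of_le_of_lt ?_ hK
    have := mul_le_mul_of_nonneg_right hKp hε
    linarith only [this]
  have hwK : 1 / (2 * K) ≤ w := by
    have h1 := abs_le.1 hX
    have h2 : ε ≤ 1 / (2 * K) := by
      rw [le_div_iff₀ (by positivity)]
      have h5 : 0 ≤ K * ε := mul_nonneg (by linarith only [hK1]) hε
      linarith only [h5, hεK]
    have h3 : 1 / K = 1 / (2 * K) + 1 / (2 * K) := by
      field_simp; norm_num
    linarith [h1.1]
  have hinv : |1 / w - 1 / v| ≤ 2 * K ^ 2 * ε := by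
    have e1 : 1 / w - 1 / v = (v - w) / (w * v) := by
      field_simp
    rw [e1, abs_div, abs_of_pos (mul_pos hw0 hv0), div_le_iff₀ (mul_pos hw0 hv0), abs_sub_comm]
    have h2 : 1 ≤ 2 * K ^ 2 * (w * v) := by
      have h3 : 1 ≤ 2 * K * w := by
        rw [div_le_iff₀ (by positivity)] at hwK
        linarith
      have h4 : 1 ≤ K * v := by
        rw [div_le_iff₀ (by positivity)] at hvK
        linarith
      have h5 := mul_le_mul h3 h4 (by norm_num) (by positivity)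
      calc (1 : ℝ) = 1 * 1 := by norm_num
        _ ≤ 2 * K * w * (K * v) := h5
        _ = 2 * K ^ 2 * (w * v) := by ring
    calc |w - v| ≤ ε := hX
      _ = ε * 1 := (mul_one ε).symm
      _ ≤ ε * (2 * K ^ 2 * (w * v)) := mul_le_mul_of_nonneg_left h2 hε
      _ = 2 * K ^ 2 * ε * (w * v) := by ring
  have hsq : w + 1 / w + 2 = (k2 : ℝ) ^ 2 / (z : ℝ) ^ 4 := by
    have e1 : w + 1 / w + 2 = (X + 1 / X) ^ 2 := by
      rw [hw]
      field_simp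
      ring
    rw [e1, hb2, div_pow]
    ring
  have hvv : v + 1 / v + 2 = ((P : ℝ) + Q) ^ 2 / (P * Q) := by
    rw [hv]
    field_simp
    ring
  have hdiff : |(k2 : ℝ) ^ 2 / (z : ℝ) ^ 4 - ((P : ℝ) + Q) ^ 2 / (P * Q)| ≤ 3 * K ^ 2 * ε := by
    rw [← hsq, ← hvv]
    have e1 : w + 1 / w + 2 - (v + 1 / v + 2) = (w - v) + (1 / w - 1 / v) := by ring
    rw [e1]
    refine (abs_add_le _ _).trans ?_
    have h1 : ε ≤ K ^ 2 * ε := by
      have : 1 ≤ K ^ 2 := one_le_pow₀ hK1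
      exact le_mul_of_one_le_left hε this
    linarith
  have hint : (k2 : ℝ) ^ 2 * (P * Q) = (z : ℝ) ^ 4 * ((P : ℝ) + Q) ^ 2 := by
    have e1 : (k2 : ℝ) ^ 2 * (P * Q) - (z : ℝ) ^ 4 * ((P : ℝ) + Q) ^ 2 =
        ((k2 : ℝ) ^ 2 / (z : ℝ) ^ 4 - ((P : ℝ) + Q) ^ 2 / (P * Q)) * ((z : ℝ) ^ 4 * (P * Q)) := by
      field_simp
    have h1 : |(k2 : ℝ) ^ 2 * (P * Q) - (z : ℝ) ^ 4 * ((P : ℝ) + Q) ^ 2| < 1 := by
      rw [e1, abs_mul, abs_of_pos (show (0 : ℝ) < (z : ℝ) ^ 4 * (P * Q) by positivity)]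
      have h2 : (z : ℝ) ^ 4 * (P * Q) ≤ K ^ 6 := by
        have h3 : (z : ℝ) ^ 4 ≤ K ^ 4 := pow_le_pow_left₀ (by linarith) hzK 4
        have h4 : (P : ℝ) * Q ≤ K * K := mul_le_mul hPK hQK (by linarith) (by linarith)
        calc (z : ℝ) ^ 4 * (P * Q) ≤ K ^ 4 * (K * K) :=
              mul_le_mul h3 h4 (by positivity) (by positivity)
          _ = K ^ 6 := by ring
      have h5 : |(k2 : ℝ) ^ 2 / (z : ℝ) ^ 4 - ((P : ℝ) + Q) ^ 2 / (P * Q)| * ((z : ℝ) ^ 4 * (P * Q)) ≤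
          3 * K ^ 2 * ε * K ^ 6 := mul_le_mul hdiff h2 (by positivity) (by positivity)
      have h6 : K ^ 8 ≤ K ^ 12 := pow_le_pow_right₀ hK1 (by norm_num)
      have h7 : K ^ 8 * ε ≤ K ^ 12 * ε := mul_le_mul_of_nonneg_right h6 hε
      have h8 : 0 ≤ K ^ 12 * ε := by positivity
      have h9 : 3 * K ^ 2 * ε * K ^ 6 = 3 * (K ^ 8 * ε) := by ring
      rw [h9] at h5
      linarith
    have h2 : ((k2 ^ 2 * (P * Q) - (z : ℤ) ^ 4 * ((P : ℤ) + Q) ^ 2 : ℤ) : ℝ) =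
        (k2 : ℝ) ^ 2 * (P * Q) - (z : ℝ) ^ 4 * ((P : ℝ) + Q) ^ 2 := by push_cast; ring
    rw [← h2, ← Int.cast_abs] at h1
    have h3 : |k2 ^ 2 * ((P : ℤ) * Q) - (z : ℤ) ^ 4 * ((P : ℤ) + Q) ^ 2| < 1 := by exact_mod_cast h1
    have h4 : k2 ^ 2 * ((P : ℤ) * Q) - (z : ℤ) ^ 4 * ((P : ℤ) + Q) ^ 2 = 0 := Int.abs_lt_one_iff.1 h3
    rw [h4] at h2
    push_cast at h2
    linarith
  have hwv : w + 1 / w = v + 1 / v := by
    have e1 : w + 1 / w + 2 = v + 1 / v + 2 := by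
      rw [hsq, hvv, div_eq_div_iff (by positivity) (by positivity)]
      linear_combination hint
    linarith
  have hcase : w = v ∨ w = 1 / v := by
    have e1 : (w - v) * (w * v - 1) = 0 := by
      have e2 : (w - v) * (w * v - 1) = (w + 1 / w - (v + 1 / v)) * (w * v) := by
        field_simp
        ring
      rw [e2, hwv, sub_self, zero_mul]
    rcases mul_eq_zero.1 e1 with h1 | h1
    · left; linarith
    · right
      rw [eq_div_iff hv0.ne']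
      linarith
  have hrat : ∃ r : ℚ, w - 1 / w = (r : ℝ) := by
    rcases hcase with h1 | h1
    · refine ⟨(P : ℚ) / Q - 1 / ((P : ℚ) / Q), ?_⟩
      rw [h1, hv]; push_cast; ring
    · refine ⟨1 / ((P : ℚ) / Q) - 1 / (1 / ((P : ℚ) / Q)), ?_⟩
      rw [h1, hv]; push_cast; ring
  have hprod : w - 1 / w = (k1 : ℝ) * k2 * sq z / (z : ℝ) ^ 4 := by
    have e1 : w - 1 / w = (X - 1 / X) * (X + 1 / X) := by
      rw [hw]
      field_simp
      ring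
    rw [e1, hb1, hb2]
    field_simp
  have hk20 : k2 ≠ 0 := by
    intro h0
    rw [h0, Int.cast_zero, zero_div] at hb2
    have : 0 < X + 1 / X := by positivity
    linarith
  have hk10 : k1 = 0 := by
    by_contra hne
    obtain ⟨r, hr⟩ := hrat
    have hirr := sq_irr hz
    have hkk : ((k1 : ℝ) * k2) ≠ 0 := by
      have h1 : (k1 : ℝ) ≠ 0 := by exact_mod_cast hne
      have h2 : (k2 : ℝ) ≠ 0 := by exact_mod_cast hk20
      exact mul_ne_zero h1 h2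
    apply hirr
    refine ⟨r * (z : ℚ) ^ 4 / ((k1 : ℚ) * k2), ?_⟩
    push_cast
    rw [← hr, hprod]
    field_simp
  have hX1 : X = 1 := by
    rw [hk10, Int.cast_zero, zero_mul, zero_div] at hb1
    have h1 : X * X = 1 := by
      have h2 : X = 1 / X := by linarith
      calc X * X = X * (1 / X) := by rw [← h2]
        _ = 1 := by field_simp
    have h2 : (X - 1) * (X + 1) = 0 := by linear_combination h1
    rcases mul_eq_zero.1 h2 with h3 | h3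
    · linarith only [h3]
    · exact absurd h3 (by positivity)
  have hw1 : w = 1 := by rw [hw, hX1, one_pow]
  have hv1 : v = 1 := by
    rcases hcase with h1 | h1
    · rw [← h1, hw1]
    · rw [hw1, eq_div_iff hv0.ne'] at h1
      linarith
  refine ⟨?_, ?_⟩
  · rw [hX1, eq_div_iff hT.ne', one_mul] at hXd
    exact hXd.symm
  · rw [hv, div_eq_one_iff_eq (by positivity)] at hv1
    exact_mod_cast hv1

theorem ray_eq {c0 c0' : List Bool} {b b' : Bool} {n m : ℕ} (hz : zh c0 b = zh c0' b')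
    (h : TT (zh c0 b) (zw c0 b) n = TT (zh c0' b') (zw c0' b') m) : b = b' ∧ cn c0 b n = cn c0' b' m := by
  have hr := rs_ray c0 b
  have hr' := rs_ray c0' b'
  have h1 : zw c0 b n = zw c0' b' m := by
    have e1 := TT_rel hr n
    have e2 := TT_rel hr' m
    rw [← h, ← hz, ← e1] at e2
    have e3 : ((zw c0' b' m : ℕ) : ℝ) = (zw c0 b n : ℕ) := by linarith
    exact_mod_cast e3.symm
  have h2 : zw c0 b (n + 1) = zw c0' b' (m + 1) := by
    have e1 := TT_rel hr (n + 1)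
    have e2 := TT_rel hr' (m + 1)
    rw [TT_succ hr n] at e1
    rw [TT_succ hr' m, ← h, ← hz, ← e1] at e2
    have e3 : ((zw c0' b' (m + 1) : ℕ) : ℝ) = (zw c0 b (n + 1) : ℕ) := by linarith
    exact_mod_cast e3.symm
  have h3 := zh_cn c0 b n
  have h3' := zh_cn c0' b' m
  rw [zw_succ, zw_succ] at h2
  unfold zz at h2
  unfold zw at h1
  rw [hz, ← h3'] at h3
  cases b <;> cases b'
  · refine ⟨rfl, tn_inj ?_⟩
    simp only [Bool.false_eq_true, if_false] at h1 h3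
    exact Prod.ext h1 (Prod.ext h3 h2)
  · exfalso
    simp only [Bool.false_eq_true, if_false, if_true] at h1 h3
    exact tn_ne_sw (cn c0 false n) (cn c0' true m) (Prod.ext h1 (Prod.ext h3 h2))
  · exfalso
    simp only [Bool.false_eq_true, if_false, if_true] at h1 h3
    exact tn_ne_sw (cn c0 true n) (cn c0' false m) (Prod.ext h3 (Prod.ext h1 h2))
  · refine ⟨rfl, tn_inj ?_⟩
    simp only [if_true] at h1 h3
    exact Prod.ext h3 (Prod.ext h1 h2)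

end Pool.Agent.Lib.MP_94ab62_ntZ
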