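import Pool.Agent.Lib.MP_94ab62_ntZ.LrB
import Pool.Agent.Lib.MP_94ab62_ntZ.LrC
import Pool.Agent.Lib.MP_94ab62_ntZ.NtD

/-!
# LrD: two coincidences on two rays with the same multiplicities are impossible

`lr_num3`: `G = m (3 e^H)² = 9 m e^{2H}`, `1 ≤ m ≤ R`: `log(G^{3m+1} · 48 R² · 82 e^{4H} · 9 e^{-2w}) = (3m+1)(log 9 + log m + 2H) + log(48·82·9) + 2 log R + 4H - 2w`; `log 9 ≤ 3`,
   `log m ≤ log R`, `log(48·82·9) ≤ 11`, `(3m+1) ≤ 4m`: `≤ 4m(3 + log R + 2H) + 11 + 2 log R + 4H - 2w < 0`.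
`lr_real`: the real core.  (`T, T'` ≥ e^w/3; `|ll - ... | ≤ 24 R²/T⁴`.)
`LR0`: `lr_first` gives `X = X'`, `zh c b = zh c' b' = z` and `u_1 = v_1`.  `bel_rep` for `p1`, `q1`: `Y1 = n X + f`, `Y1' = n' X + f'`.  `rep_lenT` twice and `ll p1 = ll q1`:
   subtracting the exact relation `u_1 = v_1`:
   `|4/D/T_n² (X - f u) - 4/D/T'_{n'}² (X - f' u)| ≤ δ := 24 R² (1/T_n⁴ + 1/T'_{n'}⁴)`.
   `log_TT`: `X log T_n + f F z = X log T'_{n'} + f' F z` (from `u_1 = v_1`).  `m0 := max X X' ≤ min m R` (`repG_XR`); use `m0` instead of `m` (the condition `hc` is monotone in `m`).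
   Condition of `sec_real` (`B = e^H`): `T² δ = 24 R² (1/T² + T²/T'⁴) = 24 R²/T² (1 + (T/T')⁴) ≤ 24 R²/T² (1 + (9 B²)²)` (`rho_le`, `lam_le`), `≤ 24 R² · 82 e^{4H} · 9 e^{-2w}`; then `lr_num3`.
   So `f = f'` and `T_n = T'_{n'}`.  `ray_eq` (note `zh` equal): `b = b'` and `cn c b n = cn c' b' n'`.  Then (subst b) `hv c b = hv c' b` (`hv_cn` for both) and `wv c b n = wv c' b n'`
   (`wv c b n = if b then g2 (cn c b n) else g1 (cn c b n)` by definition), and `uu p1 = X • wv c b n + f • hv c b` (`coord`, `wv_eq`, `cx`, `cy`), the same for `q1`.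
   So `uu p1 = uu q1`, `uu_inj`.
-/

set_option autoImplicit false

namespace Pool.Agent.Lib.MP_94ab62_ntZ

open Pool.Agent.Lib.MP_94ab62_nt Pool.Agent.Lib.MP_94ab62_ntU

theorem lrd_exp3 : (9 : ℝ) ≤ Real.exp 3 := by
  have h1 := Real.add_one_le_exp (1 : ℝ)
  have h2 : Real.exp 3 = Real.exp 1 ^ 3 := by
    rw [← Real.exp_nat_mul]
    norm_num
  have h3 := Real.exp_one_gt_d9
  have h4 : (2.7 : ℝ) ≤ Real.exp 1 := by linarith
  rw [h2]
  calc (9 : ℝ) ≤ 2.7 ^ 3 := by norm_num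
    _ ≤ Real.exp 1 ^ 3 := pow_le_pow_left₀ (by norm_num) h4 3

theorem lrd_exp11 : (24 * 82 * 9 : ℝ) ≤ Real.exp 11 := by
  have h2 : Real.exp 11 = Real.exp 1 ^ 11 := by
    rw [← Real.exp_nat_mul]
    norm_num
  have h3 := Real.exp_one_gt_d9
  have h4 : (2.7 : ℝ) ≤ Real.exp 1 := by linarith
  rw [h2]
  calc (24 * 82 * 9 : ℝ) ≤ 2.7 ^ 11 := by norm_num
    _ ≤ Real.exp 1 ^ 11 := pow_le_pow_left₀ (by norm_num) h4 11

theorem lr_num3 {R m : ℕ} (hR : 100 ≤ R) {H w : ℝ} (hH : 0 ≤ H) (hm : 1 ≤ m) (hmR : m ≤ R)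
    (hc : 20 * (m * (H + 10) + m * Real.log R + Real.log R) ≤ w) :
    ((m : ℝ) * (3 * Real.exp H) ^ 2) ^ (3 * m + 1) *
      (24 * (R : ℝ) ^ 2 * (82 * Real.exp H ^ 4) * (9 * Real.exp (-(2 * w)))) < 1 := by
  have hR0 : (0 : ℝ) < (R : ℝ) := by
    have : 0 < R := by omega
    exact_mod_cast this
  have hR1 : (1 : ℝ) ≤ (R : ℝ) := by
    have : 1 ≤ R := by omega
    exact_mod_cast this
  have hm1 : (1 : ℝ) ≤ (m : ℝ) := by exact_mod_cast hm
  set r : ℝ := Real.log R with hr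
  have hr0 : 0 ≤ r := Real.log_nonneg hR1
  have hRe : (R : ℝ) = Real.exp r := (Real.exp_log hR0).symm
  have hmR' : (m : ℝ) ≤ Real.exp r := by
    rw [← hRe]
    exact_mod_cast hmR
  have h1 : (m : ℝ) * (3 * Real.exp H) ^ 2 ≤ Real.exp (r + 3 + 2 * H) := by
    have e : Real.exp (r + 3 + 2 * H) = Real.exp r * (Real.exp 3 * Real.exp H ^ 2) := by
      rw [← Real.exp_nat_mul, ← Real.exp_add, ← Real.exp_add]
      congr 1
      push_cast
      ring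
    rw [e]
    refine mul_le_mul hmR' ?_ (by positivity) (Real.exp_pos _).le
    rw [mul_pow]
    refine mul_le_mul_of_nonneg_right ?_ (by positivity)
    have := lrd_exp3
    linarith
  have h2 : ((m : ℝ) * (3 * Real.exp H) ^ 2) ^ (3 * m + 1) ≤ Real.exp ((3 * m + 1) * (r + 3 + 2 * H)) := by
    have h3 := pow_le_pow_left₀ (by positivity) h1 (3 * m + 1)
    refine h3.trans (le_of_eq ?_)
    rw [← Real.exp_nat_mul]
    push_cast
    rfl
  have h3 : 24 * (R : ℝ) ^ 2 * (82 * Real.exp H ^ 4) * (9 * Real.exp (-(2 * w))) ≤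
      Real.exp (11 + 2 * r + 4 * H - 2 * w) := by
    have e : Real.exp (11 + 2 * r + 4 * H - 2 * w) =
        Real.exp 11 * (Real.exp r ^ 2 * Real.exp H ^ 4 * Real.exp (-(2 * w))) := by
      rw [← Real.exp_nat_mul, ← Real.exp_nat_mul, ← Real.exp_add, ← Real.exp_add, ← Real.exp_add]
      congr 1
      push_cast
      ring
    rw [e, hRe]
    have e2 : 24 * Real.exp r ^ 2 * (82 * Real.exp H ^ 4) * (9 * Real.exp (-(2 * w))) =
        (24 * 82 * 9) * (Real.exp r ^ 2 * Real.exp H ^ 4 * Real.exp (-(2 * w))) := by ring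
    rw [e2]
    exact mul_le_mul_of_nonneg_right lrd_exp11 (by positivity)
  have h4 := mul_le_mul h2 h3 (by positivity) (Real.exp_pos _).le
  rw [← Real.exp_add] at h4
  refine lt_of_le_of_lt h4 ?_
  rw [Real.exp_lt_one_iff]
  have hmH : 0 ≤ (m : ℝ) * H := by positivity
  have hmr : 0 ≤ (m : ℝ) * r := by positivity
  nlinarith [mul_nonneg (sub_nonneg.2 hm1) hH, mul_nonneg (sub_nonneg.2 hm1) hr0]

theorem rep_uu {c0 : List Bool} {b : Bool} {n X f : ℕ} {p : List Bool} (h : RepG c0 b n X f p) :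
    uu p = (X : ℤ) • wv c0 b n + (f : ℤ) • hv c0 b := by
  have h1 := coord c0 b (uu p)
  rw [h.cx, h.cy] at h1
  rw [h1, wv_eq c0 b n]
  rw [smul_add, smul_smul, add_assoc, ← add_smul]
  congr 2
  ring

theorem LR0 {R m : ℕ} (hR : 100 ≤ R) {c c' : List Bool} {b b' : Bool} {p1 p2 q1 q2 : List Bool}
    {X X' Y1 Y2 Y1' Y2' : ℕ} {H w : ℝ}
    (h1 : Bel c b X Y1 p1) (h2 : Bel c b X Y2 p2) (k1 : Bel c' b' X' Y1' q1) (k2 : Bel c' b' X' Y2' q2)
    (e1 : zz p1 = zz q1) (e2 : zz p2 = zz q2) (hY : Y1 < Y2) (hY' : Y1' < Y2')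
    (s1 : ss p1 ≤ R) (s2 : ss p2 ≤ R) (s3 : ss q1 ≤ R) (s4 : ss q2 ≤ R) (hX : X ≤ m) (hX' : X' ≤ m)
    (hH : F (zh c b) ≤ H) (hH' : F (zh c' b') ≤ H) (hw : w ≤ F (zw c b 0)) (hw' : w ≤ F (zw c' b' 0))
    (hc : 20 * (m * (H + 10) + m * Real.log R + Real.log R) + (Y2 - Y1 : ℕ) * F (zh c b) ≤ w) : p1 = q1 := by
  obtain ⟨hXX, hzz, huv⟩ := lr_first hR h1 h2 k1 k2 e1 e2 hY hY' s1 s2 s3 s4 hX hX' hH hH' hw hw' hc
  subst hXX
  obtain ⟨n, f, hYn, r1⟩ := bel_rep h1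
  obtain ⟨n', f', hYn', r1'⟩ := bel_rep k1
  have hRS := rs_ray c b
  have hRS' := rs_ray c' b'
  have hz := hRS.hz
  have hR1 : (1 : ℝ) ≤ (R : ℝ) := by
    have : 1 ≤ R := by omega
    exact_mod_cast this
  have hr0 : 0 ≤ Real.log R := Real.log_nonneg hR1
  have hX1 : 1 ≤ X := r1.hX
  have hX1' : (1 : ℝ) ≤ (X : ℝ) := by exact_mod_cast hX1
  have hXm : (X : ℝ) ≤ (m : ℝ) := by exact_mod_cast hX
  have hH0 : 0 ≤ H := (F_pos hz).le.trans hH
  have hXR : X ≤ R := by exact_mod_cast repG_XR r1 s1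
  have hcX : 20 * (X * (H + 10) + X * Real.log R + Real.log R) ≤ w := by
    have h3 : (0 : ℝ) ≤ ((Y2 - Y1 : ℕ) : ℝ) * F (zh c b) := mul_nonneg (Nat.cast_nonneg _) (F_pos hz).le
    have h4 : (X : ℝ) * (H + 10) ≤ m * (H + 10) := mul_le_mul_of_nonneg_right hXm (by linarith)
    have h5 : (X : ℝ) * Real.log R ≤ m * Real.log R := mul_le_mul_of_nonneg_right hXm hr0
    linarith
  have hw200 : 200 ≤ w := by
    have h3 : (0 : ℝ) ≤ (X : ℝ) * H := by positivity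
    have h4 : (0 : ℝ) ≤ (X : ℝ) * Real.log R := by positivity
    nlinarith
  set T : ℝ := TT (zh c b) (zw c b) n with hT
  set T' : ℝ := TT (zh c' b') (zw c' b') n' with hT'
  have hTl : Real.exp w / 3 ≤ T := TT_low0 hRS hw n
  have hTl' : Real.exp w / 3 ≤ T' := TT_low0 hRS' hw' n'
  have hew : 201 ≤ Real.exp w := by
    have := Real.add_one_le_exp w
    linarith
  have hT29 : 29 / 10 ≤ T := by linarith
  have hT29' : 29 / 10 ≤ T' := by linarith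
  have hT0 : 0 < T := by linarith
  have hT0' : 0 < T' := by linarith
  have hl1 := rep_lenT r1 s1 hT29
  have hl2 := rep_lenT r1' s3 hT29'
  rw [← hT] at hl1
  rw [← hT'] at hl2
  have hll : ll p1 = ll q1 := by
    change F (zz p1) = F (zz q1)
    rw [e1]
  have hlog := log_TT hRS n
  have hlog' := log_TT hRS' n'
  rw [← hT] at hlog
  rw [← hT'] at hlog'
  rw [← hzz] at hl2 hlog' huv
  rw [← hYn] at hl1
  rw [← hYn'] at hl2
  have g1 : X * Real.log T + f * F (zh c b) = X * Real.log T' + f' * F (zh c b) := by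
    rw [hlog, hlog']
    have a1 : (Y1 : ℝ) = n * X + f := by rw [hYn]; push_cast; rfl
    have a2 : (Y1' : ℝ) = n' * X + f' := by rw [hYn']; push_cast; rfl
    rw [a1, a2] at huv
    linarith
  have g2 : |4 / (9 * (zh c b : ℝ) ^ 2 - 4) / T ^ 2 * (X - f * (1 - 1 / lam (zh c b) ^ 2)) -
        4 / (9 * (zh c b : ℝ) ^ 2 - 4) / T' ^ 2 * (X - f' * (1 - 1 / lam (zh c b) ^ 2))| ≤
      24 * (R : ℝ) ^ 2 / T ^ 4 + 24 * (R : ℝ) ^ 2 / T' ^ 4 := by
    rw [abs_le] at hl1 hl2 ⊢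
    constructor <;> linarith [hl1.1, hl1.2, hl2.1, hl2.2]
  have hzB : (zh c b : ℝ) ≤ Real.exp H := (z_le_exp hz).trans (Real.exp_le_exp.2 hH)
  have hrho := rho_le hz hX1 r1.hf r1'.hf (by linarith : 1 ≤ T) (by linarith : 1 ≤ T') g1
  have hlam4 : lam (zh c b) ^ 4 ≤ 81 * Real.exp H ^ 4 := by
    have h3 : lam (zh c b) ≤ 3 * Real.exp H := (lam_le hz).trans (by linarith)
    have h4 : 0 ≤ lam (zh c b) := by
      have := lam_ge hz
      linarith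
    calc lam (zh c b) ^ 4 ≤ (3 * Real.exp H) ^ 4 := pow_le_pow_left₀ h4 h3 4
      _ = 81 * Real.exp H ^ 4 := by ring
  have hT2 : 1 / T ^ 2 ≤ 9 * Real.exp (-(2 * w)) := by
    have h3 : (Real.exp w / 3) ^ 2 ≤ T ^ 2 := pow_le_pow_left₀ (by positivity) hTl 2
    have h4 : 1 / T ^ 2 ≤ 1 / (Real.exp w / 3) ^ 2 := one_div_le_one_div_of_le (by positivity) h3
    refine h4.trans (le_of_eq ?_)
    rw [Real.exp_neg, two_mul, Real.exp_add]
    have := Real.exp_pos w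
    field_simp
    norm_num
  have g3 : T ^ 2 * (24 * (R : ℝ) ^ 2 / T ^ 4 + 24 * (R : ℝ) ^ 2 / T' ^ 4) ≤
      24 * (R : ℝ) ^ 2 * (82 * Real.exp H ^ 4) * (9 * Real.exp (-(2 * w))) := by
    have h3 : T ^ 2 * (24 * (R : ℝ) ^ 2 / T ^ 4 + 24 * (R : ℝ) ^ 2 / T' ^ 4) =
        24 * (R : ℝ) ^ 2 * (1 + ((T / T') ^ 2) ^ 2) * (1 / T ^ 2) := by
      field_simp
    rw [h3]
    have h4 : ((T / T') ^ 2) ^ 2 ≤ 81 * Real.exp H ^ 4 := by
      refine le_trans (pow_le_pow_left₀ (by positivity) hrho 2) ?_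
      rw [← pow_mul]
      exact hlam4
    have h5 : 1 ≤ Real.exp H ^ 4 := one_le_pow₀ (Real.one_le_exp hH0)
    have h6 : 1 + ((T / T') ^ 2) ^ 2 ≤ 82 * Real.exp H ^ 4 := by linarith
    exact mul_le_mul (mul_le_mul_of_nonneg_left h6 (by positivity)) hT2 (by positivity) (by positivity)
  have g4 : ((X : ℝ) * (3 * Real.exp H) ^ 2) ^ (3 * X + 1) *
      (T ^ 2 * (24 * (R : ℝ) ^ 2 / T ^ 4 + 24 * (R : ℝ) ^ 2 / T' ^ 4)) < 1 :=
    lt_of_le_of_lt (mul_le_mul_of_nonneg_left g3 (by positivity)) (lr_num3 hR hH0 hX1 hXR hcX)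
  obtain ⟨hff, hTT⟩ := sec_real hz hzB hX1 (le_refl X) r1.hf r1'.hf (by linarith : 1 ≤ T) (by linarith : 1 ≤ T') g1 g2 g4
  obtain ⟨hbb, hcn⟩ := ray_eq (c0 := c) (c0' := c') (b := b) (b' := b') (n := n) (m := n') hzz hTT
  subst hbb
  have hhv : hv c b = hv c' b := by
    rw [← hv_cn c b n, ← hv_cn c' b n', hcn]
  have hwv : wv c b n = wv c' b n' := by
    unfold wv
    rw [hcn]
  apply uu_inj
  rw [rep_uu r1, rep_uu r1', hhv, hwv, hff]

end Pool.Agent.Lib.MP_94ab62_ntZ
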