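import Pool.Agent.Lib.MP_94ab62_ntZ.Defs

/-!
# LvA: definitions for the levels (complete file, no job)
-/

set_option autoImplicit false

namespace Pool.Agent.Lib.MP_94ab62_ntZ

open Pool.Agent.Lib.MP_94ab62_nt Pool.Agent.Lib.MP_94ab62_ntU

/-- parameters: `T^1000 = R`, `T` larger than powers of `log R`, divisor bound -/
structure Par (R : ℕ) (T : ℝ) (Dv : ℕ) : Prop where
  hR : 100 ≤ R
  hT : T ^ 1000 = R
  hl : 10 ^ 10 * (Real.log R + 1) ^ 10 ≤ T
  hD : (Dv : ℝ) ≤ T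
  hDv : DvB R Dv

/-- length of the longer edge -/
noncomputable def mx (p : List Bool) : ℝ := max (fa (tn p)) (fb (tn p))

/-- leaves of level `k`: the first nodes whose longer edge has length at least `k` -/
def Lf (k : ℝ) (P : List Bool) : Prop := ∃ b p, P = b :: p ∧ mx p < k ∧ k ≤ mx P

/-- degenerate at level `k` -/
def Dg (R : ℕ) (k : ℝ) (P : List Bool) : Prop :=
  ∃ v : ℤ × ℤ, v ≠ 0 ∧ nm v ≤ 3 * (R : ℝ) ^ 3 ∧ |LL P v| ≤ (R : ℝ) ^ 30 * Real.exp (-(2 * k))

open Classical in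
/-- the leaf of level `k` above `q` -/
noncomputable def ct (k : ℝ) : List Bool → List Bool
  | [] => []
  | b :: c => if k ≤ mx c then ct k c else b :: c

/-- degenerate leaves -/
def DL (R : ℕ) (k : ℝ) : Set (List Bool) := {P | Lf k P ∧ ss P ≤ R ∧ Dg R k P}

/-- leaves of level `k + 1` below a degenerate leaf of level `k` -/
def DP (R : ℕ) (k : ℝ) : Set (List Bool) := {P | Lf (k + 1) P ∧ ss P ≤ R ∧ ct k P ∈ DL R k}

end Pool.Agent.Lib.MP_94ab62_ntZ
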