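import Pool.Agent.Lib.MP_94ab62_ntZ.TpA

/-!
# TpF: sharp size estimates of the defects; `kap`

`kap p = min (fa (tn p)) (fb (tn p))`.
* `ee_t`: `eps4_left (good_tn p)`: `sinh (ee (true::p) / 2) ≤ exp (-2 fa + 1/10) sinh (ee p / 2)`; `u ≤ sinh u` (`Real.self_le_sinh_iff`), `sinh u ≤ 1.01 u` for `0 ≤ u ≤ 1/40`
  (see `eps3_sinh_le`, `eps3_two_sinh` in Eps3: `sinh u * (1 - u) ≤ u * (1 - u/2)`), `exp (1/10) ≤ 1.11`.  So `ee (true :: p) ≤ 2 sinh(..) ≤ 1.11 * 1.01 * .. ≤ 6/5 * exp (-2 fa) * ee p`.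
  `ee_f`: `eps4_right`.  `ee_b`: both.
* `ee_asy`: as in `MP_94ab62_ntU/Asy.lean` (`ee_asym`, copy the proof) with `θ = e^(-2κ)`, `κ = kap p ≥ 2` instead of `1/R^40`: write `a = fa`, `b = fb`, `c = ll p`, `ε = ee p = a + b - c`.
  `ep_formula`: `2 sinh(ε/2) (S + √(S²-1)) sinh((a+b+c)/2) = 1`, `S = sinh a sinh b = (e^(a+b)/4)(1 - e^(-2a))(1 - e^(-2b))`, `(1-2θ) e^(a+b)/4 ≤ S ≤ e^(a+b)/4`;
  `2S - 1/S ≤ S + √(S²-1) ≤ 2S`, `1/S ≤ θ S`; `(a+b+c)/2 = c + ε/2`; `sinh (c + ε/2) = (e^(c+ε/2)/2)(1 - e^(-2c-ε))`, `e^(-2c-ε) ≤ θ`; so the product of the two factors lies between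
  `(1/4) e^(2c + 3ε/2) (1-2θ)(1-θ/2)(1-θ)` and `(1/4) e^(2c+3ε/2)`; `ε ≤ 2 sinh(ε/2) ≤ ε (1+ε)`, `ε ≤ 8 θ²` (`ep_le`: `ε ≤ 8 e^(-2(a+b)) ≤ 8 θ²`).
* `ee_low`: `ep_ge`: `exp (-2 (fa + fb)) ≤ ee p`, `fa + fb = ll p + ee p ≤ ll p + 1/20`, so `exp (-2 ll p) * exp (-1/10) ≤ ee p`, `exp (-1/10) ≥ 9/10`.
* `ee_up` = `ee_le_ll`.
* `kap_cons`: `fa (tn (true :: p)) = fa (tn p)`, `fb (tn (true :: p)) = ll p ≥ fb (tn p)` (`fb_lt_fc`), etc.  `kap_suffix`: induction.
* `kap_gd`: `Gd R p ↔ 20 log R ≤ kap p` (`le_min_iff`).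
* `ll_cons`: `ll (true :: p) = fa (tn p) + ll p - ee (true :: p)` (`ll_eq`, `fb (tn (true :: p)) = ll p`), `ee (true :: p) ≤ ee p/4 ≤ 1/80` (`ee_small`: `ee ≤ 1/20`).
* `ll_desc`: `(b :: c) <:+ p` implies `ll c + kap c - 1/10 ≤ ll p`: `ll` increases along the tree (`fa_lt_fc`, `fb_lt_fc` : `ll c < ll (b :: c) ≤ ll p`).
* `F_log_gap`: for nodes `|ll c - ll d| * (3/2 z) ...`: `zz_of_ll`: if `|ll c - ll d| ≤ t`, `2 t * exp (ll c) < 1`, `t ≤ 1/2` then `zz c = zz d`: `cosh (ll c) = 3/2 zz c` (`cosh_F`), `|cosh x - cosh y| ≤ |x - y| e^(max x y)`,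
   `e^(max) ≤ 2 e^(ll c)`, so `|3/2 zz c - 3/2 zz d| ≤ 2 t e^(ll c) < 1 < 3/2`.
-/

set_option autoImplicit false

namespace Pool.Agent.Lib.MP_94ab62_ntZ

open Pool.Agent.Lib.MP_94ab62_nt Pool.Agent.Lib.MP_94ab62_ntU

theorem tpf_sinh (a : ℝ) :
    Real.sinh a = Real.exp a / 2 * (1 - Real.exp (-2 * a)) := by
  have h : Real.exp (-a) = Real.exp a * Real.exp (-2 * a) := by
    rw [← Real.exp_add]
    congr 1
    ring
  rw [Real.sinh_eq, h]
  ring

theorem tpf_real {a b c θ : ℝ} (ha : Real.exp (-2 * a) ≤ θ) (hb : Real.exp (-2 * b) ≤ θ)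
    (h0 : 0 < θ) (hθ : θ ≤ 1 / 50) (hac : a ≤ c) (hb0 : 0 ≤ b) (he0 : 0 < a + b - c)
    (heθ : a + b - c ≤ θ)
    (hf : 2 * Real.sinh ((a + b - c) / 2) * ((Real.sinh a * Real.sinh b +
      Real.sqrt ((Real.sinh a * Real.sinh b) ^ 2 - 1)) * Real.sinh ((a + b + c) / 2)) = 1) :
    |(a + b - c) * Real.exp (2 * c) / 4 - 1| ≤ 20 * θ := by
  obtain ⟨p, hp⟩ : ∃ p, p = Real.exp (-2 * a) := ⟨_, rfl⟩
  obtain ⟨q, hq⟩ : ∃ q, q = Real.exp (-2 * b) := ⟨_, rfl⟩
  obtain ⟨P, hP⟩ : ∃ P, P = Real.exp (a + b) := ⟨_, rfl⟩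
  obtain ⟨S, hS⟩ : ∃ S, S = Real.sinh a * Real.sinh b := ⟨_, rfl⟩
  obtain ⟨Q, hQ⟩ : ∃ Q, Q = Real.exp ((a + b + c) / 2) := ⟨_, rfl⟩
  obtain ⟨H, hH⟩ : ∃ H, H = Real.sinh ((a + b + c) / 2) := ⟨_, rfl⟩
  obtain ⟨ε, hε⟩ : ∃ ε, ε = a + b - c := ⟨_, rfl⟩
  obtain ⟨s, hs⟩ : ∃ s, s = 2 * Real.sinh ((a + b - c) / 2) := ⟨_, rfl⟩
  obtain ⟨E, hE⟩ : ∃ E, E = Real.exp (2 * c) := ⟨_, rfl⟩
  obtain ⟨η, hη⟩ : ∃ η, η = Real.exp (3 * (a + b - c) / 2) := ⟨_, rfl⟩
  have hp0 : 0 < p := hp ▸ Real.exp_pos _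
  have hq0 : 0 < q := hq ▸ Real.exp_pos _
  have hP0 : 0 < P := hP ▸ Real.exp_pos _
  have hQ0 : 0 < Q := hQ ▸ Real.exp_pos _
  have hE0 : 0 < E := hE ▸ Real.exp_pos _
  have hη0 : 0 < η := hη ▸ Real.exp_pos _
  rw [← hp] at ha
  rw [← hq] at hb
  have hSe : S = P / 4 * ((1 - p) * (1 - q)) := by
    rw [hS, tpf_sinh a, tpf_sinh b, hP, Real.exp_add, hp, hq]
    ring
  have hpq : 1 ≤ θ * P := by
    have h1 : p * q * (P * P) = 1 := by
      rw [hp, hq, hP, ← Real.exp_add, ← Real.exp_add, ← Real.exp_add, ← Real.exp_zero]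
      congr 1
      ring
    have h2 : p * q ≤ θ * θ := mul_le_mul ha hb hq0.le h0.le
    have h3 : 1 ≤ (θ * P) ^ 2 := by
      calc (1 : ℝ) = p * q * (P * P) := h1.symm
        _ ≤ θ * θ * (P * P) := mul_le_mul_of_nonneg_right h2 (by positivity)
        _ = (θ * P) ^ 2 := by ring
    by_contra h4
    push Not at h4
    have h5 : (θ * P) ^ 2 < 1 := by
      have h6 : 0 < θ * P := by positivity
      nlinarith
    linarith
  have hpq1 : (1 - p) * (1 - q) = 1 - p - q + p * q := by ring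
  have hr : 1 - 2 * θ ≤ (1 - p) * (1 - q) := by
    rw [hpq1]
    linarith [mul_pos hp0 hq0]
  have hr' : (1 - p) * (1 - q) ≤ 1 := by
    rw [hpq1]
    have h1 : p * q ≤ p * 1 := mul_le_mul_of_nonneg_left (by linarith) hp0.le
    linarith
  have hSu : S ≤ P / 4 := by
    rw [hSe]
    have h1 : P / 4 * ((1 - p) * (1 - q)) ≤ P / 4 * 1 :=
      mul_le_mul_of_nonneg_left hr' (by positivity)
    linarith
  have hSl : P / 4 * (1 - 2 * θ) ≤ S := by
    rw [hSe]
    exact mul_le_mul_of_nonneg_left hr (by positivity)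
  have hP100 : 50 ≤ P := by
    have h1 : θ * P ≤ 1 / 50 * P := mul_le_mul_of_nonneg_right hθ hP0.le
    linarith
  have hS8 : P / 8 ≤ S := by
    have h1 : P / 4 * (1 / 2) ≤ P / 4 * (1 - 2 * θ) :=
      mul_le_mul_of_nonneg_left (by linarith) (by positivity)
    linarith
  have hS0 : 0 < S := by linarith
  have hθS : 1 ≤ θ * S ^ 2 := by
    have h1 : 1 / 8 ≤ θ * S := by
      have h2 : θ * (P / 8) ≤ θ * S := mul_le_mul_of_nonneg_left hS8 h0.le
      linarith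
    have h2 : 8 ≤ S := by
      have h3 : (12 : ℝ) * (24 / 25) ≤ P / 4 * (1 - 2 * θ) :=
        mul_le_mul (by linarith) (by linarith) (by norm_num) (by positivity)
      linarith
    calc (1 : ℝ) = 1 / 8 * 8 := by norm_num
      _ ≤ θ * S * S := mul_le_mul h1 h2 (by norm_num) (by positivity)
      _ = θ * S ^ 2 := by ring
  rw [← hS, ← hs, ← hH] at hf
  obtain ⟨W, hW⟩ : ∃ W, W = S + Real.sqrt (S ^ 2 - 1) := ⟨_, rfl⟩
  rw [← hW] at hf
  have hWu : W ≤ 2 * S := by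
    have h1 : Real.sqrt (S ^ 2 - 1) ≤ S := by
      rw [Real.sqrt_le_left hS0.le]
      linarith
    linarith
  have hWl : (2 - θ) * S ≤ W := by
    have h1 : (1 - θ) * S ≤ Real.sqrt (S ^ 2 - 1) := by
      refine Real.le_sqrt_of_sq_le ?_
      have h2 : 0 ≤ θ * S ^ 2 * (1 - θ) := mul_nonneg (by positivity) (by linarith)
      have h3 : ((1 - θ) * S) ^ 2 = S ^ 2 - θ * S ^ 2 - θ * S ^ 2 * (1 - θ) := by ring
      rw [h3]
      linarith
    linarith
  have hHe : H = Q / 2 * (1 - Real.exp (-2 * ((a + b + c) / 2))) := by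
    rw [hH, hQ]
    exact tpf_sinh _
  have hm0 : 0 < Real.exp (-2 * ((a + b + c) / 2)) := Real.exp_pos _
  have hm1 : Real.exp (-2 * ((a + b + c) / 2)) ≤ θ := by
    refine le_trans ?_ ha
    rw [hp]
    exact Real.exp_le_exp.2 (by linarith)
  have hHu : H ≤ Q / 2 := by
    rw [hHe]
    have h1 : Q / 2 * (1 - Real.exp (-2 * ((a + b + c) / 2))) ≤ Q / 2 * 1 :=
      mul_le_mul_of_nonneg_left (by linarith) (by positivity)
    linarith
  have hHl : Q / 2 * (1 - θ) ≤ H := by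
    rw [hHe]
    exact mul_le_mul_of_nonneg_left (by linarith) (by positivity)
  have hH0 : 0 < H := lt_of_lt_of_le (mul_pos (by positivity) (by linarith)) hHl
  have hPQ : P * Q = E * η := by
    rw [hP, hQ, hE, hη, ← Real.exp_add, ← Real.exp_add]
    congr 1
    ring
  have hη1 : 1 ≤ η := by
    rw [hη]
    exact Real.one_le_exp (by linarith)
  have hη2 : η * (1 - 3 * ε / 2) ≤ 1 := by
    have h1 : 1 - 3 * ε / 2 ≤ Real.exp (-(3 * (a + b - c) / 2)) := by
      have h2 := Real.add_one_le_exp (-(3 * (a + b - c) / 2))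
      rw [hε]
      linarith
    calc η * (1 - 3 * ε / 2) ≤ η * Real.exp (-(3 * (a + b - c) / 2)) :=
          mul_le_mul_of_nonneg_left h1 hη0.le
      _ = 1 := by rw [hη, ← Real.exp_add, add_neg_cancel, Real.exp_zero]
  rw [← hε] at he0 heθ
  have hs1 : ε ≤ s := by
    have h1 : ε / 2 ≤ Real.sinh (ε / 2) := Real.self_le_sinh_iff.2 (by linarith)
    rw [hs, ← hε]
    linarith
  have hs2 : s ≤ ε * (1 + ε) := by
    have h1 := eps3_sinh_le (u := ε / 2) (by linarith)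
    have h2 : s * (1 - ε / 2) ≤ ε * (1 + ε) * (1 - ε / 2) := by
      have h3 : s = 2 * Real.sinh (ε / 2) := by rw [hs, hε]
      rw [h3]
      have h4 : ε * (1 + ε) * (1 - ε / 2) - 2 * (ε / 2 * (1 - ε / 2 / 2)) =
        ε * ε * (3 / 4 - ε / 2) := by ring
      have h5 : 0 ≤ ε * ε * (3 / 4 - ε / 2) := mul_nonneg (by positivity) (by linarith)
      linarith
    exact le_of_mul_le_mul_right h2 (by linarith)
  rw [← hε, ← hE]
  have hup : ε * E / 4 * (1 - 4 * θ) ≤ 1 := by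
    have h1 : (2 - θ) * (P / 4 * (1 - 2 * θ)) ≤ W :=
      le_trans (mul_le_mul_of_nonneg_left hSl (by linarith)) hWl
    have h2 : (2 - θ) * (P / 4 * (1 - 2 * θ)) * (Q / 2 * (1 - θ)) ≤ W * H :=
      mul_le_mul h1 hHl (mul_nonneg (by positivity) (by linarith))
        (le_trans (mul_nonneg (by linarith) (mul_nonneg (by positivity) (by linarith))) h1)
    have h3 : E * (1 - 4 * θ) / 4 ≤ (2 - θ) * (P / 4 * (1 - 2 * θ)) * (Q / 2 * (1 - θ)) := by
      have h4 : (2 - θ) * (P / 4 * (1 - 2 * θ)) * (Q / 2 * (1 - θ)) =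
        E * η / 4 * ((1 - θ / 2) * (1 - 2 * θ) * (1 - θ)) := by
        rw [← hPQ]
        ring
      have h5 : 1 - 4 * θ ≤ (1 - θ / 2) * (1 - 2 * θ) * (1 - θ) := by
        have h6 : (1 - θ / 2) * (1 - 2 * θ) * (1 - θ) - (1 - 4 * θ) =
          θ * (1 / 2 + θ * (7 / 2 - θ)) := by ring
        have h7 : 0 ≤ θ * (7 / 2 - θ) := mul_nonneg h0.le (by linarith)
        have h8 : 0 ≤ θ * (1 / 2 + θ * (7 / 2 - θ)) := mul_nonneg h0.le (by linarith)
        linarith
      rw [h4]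
      calc E * (1 - 4 * θ) / 4 = E / 4 * (1 - 4 * θ) := by ring
        _ ≤ E * η / 4 * ((1 - θ / 2) * (1 - 2 * θ) * (1 - θ)) := by
          refine mul_le_mul ?_ h5 (by linarith) (by positivity)
          have h6 : E * 1 ≤ E * η := mul_le_mul_of_nonneg_left hη1 hE0.le
          linarith
    have h6 : 0 ≤ E * (1 - 4 * θ) / 4 :=
      div_nonneg (mul_nonneg hE0.le (by linarith)) (by norm_num)
    calc ε * E / 4 * (1 - 4 * θ) = ε * (E * (1 - 4 * θ) / 4) := by ring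
      _ ≤ s * (W * H) := mul_le_mul hs1 (h3.trans h2) h6 (he0.le.trans hs1)
      _ = 1 := hf
  have hlo : 1 - 3 * ε / 2 ≤ (1 + ε) * (ε * E / 4) := by
    have hW0 : 0 ≤ W := le_trans (mul_nonneg (by linarith) hS0.le) hWl
    have h1 : W * H ≤ 2 * (P / 4) * (Q / 2) :=
      mul_le_mul (by linarith) hHu hH0.le (by positivity)
    have h2 : 1 ≤ ε * (1 + ε) * (E * η / 4) := by
      calc (1 : ℝ) = s * (W * H) := hf.symm
        _ ≤ ε * (1 + ε) * (2 * (P / 4) * (Q / 2)) :=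
          mul_le_mul hs2 h1 (mul_nonneg hW0 hH0.le) (by positivity)
        _ = ε * (1 + ε) * (P * Q / 4) := by ring
        _ = ε * (1 + ε) * (E * η / 4) := by rw [hPQ]
    calc 1 - 3 * ε / 2 = 1 * (1 - 3 * ε / 2) := by ring
      _ ≤ ε * (1 + ε) * (E * η / 4) * (1 - 3 * ε / 2) :=
        mul_le_mul_of_nonneg_right h2 (by linarith)
      _ = (1 + ε) * (ε * E / 4) * (η * (1 - 3 * ε / 2)) := by ring
      _ ≤ (1 + ε) * (ε * E / 4) * 1 := mul_le_mul_of_nonneg_left hη2 (by positivity)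
      _ = (1 + ε) * (ε * E / 4) := by ring
  obtain ⟨y, hy⟩ : ∃ y, y = ε * E / 4 := ⟨_, rfl⟩
  rw [← hy] at hup hlo ⊢
  have hy0 : 0 < y := by
    rw [hy]
    positivity
  rw [abs_le]
  constructor
  · by_contra h
    push Not at h
    have h1 : y < 1 - 20 * θ := by linarith
    have h2 : (1 + ε) * y < (1 + ε) * (1 - 20 * θ) := mul_lt_mul_of_pos_left h1 (by linarith)
    have h3 : (1 + ε) * (1 - 20 * θ) ≤ 1 - 3 * ε / 2 := by
      have h4 : (1 + ε) * (1 - 20 * θ) = 1 + ε - 20 * θ - 20 * (ε * θ) := by ring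
      rw [h4]
      linarith [mul_pos he0 h0]
    linarith
  · by_contra h
    push Not at h
    have h1 : 1 + 20 * θ < y := by linarith
    have h2 : (1 + 20 * θ) * (1 - 4 * θ) < y * (1 - 4 * θ) :=
      mul_lt_mul_of_pos_right h1 (by linarith)
    have h3 : 1 ≤ (1 + 20 * θ) * (1 - 4 * θ) := by
      have h4 : (1 + 20 * θ) * (1 - 4 * θ) = 1 + 16 * θ - 80 * (θ * θ) := by ring
      have h5 : θ * θ ≤ θ * (1 / 50) := mul_le_mul_of_nonneg_left hθ h0.le
      rw [h4]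
      linarith
    linarith

theorem tpf_ee {x y k : ℝ} (hx : 0 < x) (hy : 0 < y) (hy2 : y ≤ 1 / 20)
    (h : Real.sinh (x / 2) ≤ Real.exp (-2 * k + 1 / 10) * Real.sinh (y / 2)) :
    x ≤ 6 / 5 * Real.exp (-(2 * k)) * y := by
  have h1 : x / 2 ≤ Real.sinh (x / 2) := Real.self_le_sinh_iff.2 (by linarith)
  have h2 := eps3_sinh_le (u := y / 2) (by linarith)
  have h3 : 0 ≤ Real.sinh (y / 2) := Real.sinh_nonneg_iff.2 (by linarith)
  have h4 : Real.sinh (y / 2) ≤ 102 / 100 * (y / 2) := by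
    by_contra hc
    push Not at hc
    have h5 : 102 / 100 * (y / 2) * (1 - y / 2) < Real.sinh (y / 2) * (1 - y / 2) :=
      mul_lt_mul_of_pos_right hc (by linarith)
    nlinarith
  have h6 : Real.exp (1 / 10) ≤ 10 / 9 := by
    have h7 := Real.add_one_le_exp (-(1 / 10 : ℝ))
    have h8 : Real.exp (1 / 10) * Real.exp (-(1 / 10)) = 1 := by
      rw [← Real.exp_add, add_neg_cancel, Real.exp_zero]
    have h9 : Real.exp (1 / 10) * (9 / 10) ≤ Real.exp (1 / 10) * Real.exp (-(1 / 10)) :=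
      mul_le_mul_of_nonneg_left (by linarith) (Real.exp_pos _).le
    linarith
  have h10 : Real.exp (-2 * k + 1 / 10) = Real.exp (-(2 * k)) * Real.exp (1 / 10) := by
    rw [← Real.exp_add]
    congr 1
    ring
  rw [h10] at h
  have hE := Real.exp_pos (-(2 * k))
  have h11 : Real.exp (-(2 * k)) * Real.exp (1 / 10) ≤ Real.exp (-(2 * k)) * (10 / 9) :=
    mul_le_mul_of_nonneg_left h6 hE.le
  have h12 : Real.exp (-(2 * k)) * Real.exp (1 / 10) * Real.sinh (y / 2) ≤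
      Real.exp (-(2 * k)) * (10 / 9) * (102 / 100 * (y / 2)) :=
    mul_le_mul h11 h4 h3 (by positivity)
  have h13 : 0 ≤ Real.exp (-(2 * k)) * y := by positivity
  linarith

theorem ee_t (p : List Bool) : ee (true :: p) ≤ 6 / 5 * Real.exp (-(2 * fa (tn p))) * ee p :=
  tpf_ee (ee_pos _) (ee_pos _) (ee_small _) (eps4_left (good_tn p))

theorem ee_f (p : List Bool) : ee (false :: p) ≤ 6 / 5 * Real.exp (-(2 * fb (tn p))) * ee p :=
  tpf_ee (ee_pos _) (ee_pos _) (ee_small _) (eps4_right (good_tn p))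

theorem ee_b (b : Bool) (p : List Bool) : ee (b :: p) ≤ 6 / 5 * Real.exp (-(2 * kap p)) * ee p := by
  have hp := ee_pos p
  cases b
  · refine (ee_f p).trans ?_
    have h1 : Real.exp (-(2 * fb (tn p))) ≤ Real.exp (-(2 * kap p)) := by
      have h2 : kap p ≤ fb (tn p) := min_le_right _ _
      exact Real.exp_le_exp.2 (by linarith)
    exact mul_le_mul_of_nonneg_right (by linarith) hp.le
  · refine (ee_t p).trans ?_
    have h1 : Real.exp (-(2 * fa (tn p))) ≤ Real.exp (-(2 * kap p)) := by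
      have h2 : kap p ≤ fa (tn p) := min_le_left _ _
      exact Real.exp_le_exp.2 (by linarith)
    exact mul_le_mul_of_nonneg_right (by linarith) hp.le

theorem tpf_e4 : Real.exp (-4 : ℝ) ≤ 1 / 50 := by
  have h1 : (50 : ℝ) ≤ Real.exp 4 := by
    have h2 : Real.exp 4 = Real.exp 1 ^ 4 := by
      rw [← Real.exp_nat_mul]
      norm_num
    rw [h2]
    have h3 := Real.exp_one_gt_d9
    have h4 : (2.7 : ℝ) ^ 4 ≤ Real.exp 1 ^ 4 := pow_le_pow_left₀ (by norm_num) (by linarith) 4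
    refine le_trans ?_ h4
    norm_num
  rw [Real.exp_neg, ← one_div]
  exact one_div_le_one_div_of_le (by norm_num) h1

theorem ee_asy {p : List Bool} (h : 2 ≤ kap p) :
    |ee p * Real.exp (2 * ll p) / 4 - 1| ≤ 20 * Real.exp (-(2 * kap p)) := by
  have hg := good_tn p
  have ha : kap p ≤ fa (tn p) := min_le_left _ _
  have hb : kap p ≤ fb (tn p) := min_le_right _ _
  have hθ : Real.exp (-(2 * kap p)) ≤ 1 / 50 :=
    (Real.exp_le_exp.2 (by linarith)).trans tpf_e4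
  have h0 := Real.exp_pos (-(2 * kap p))
  have hsm : ee p ≤ Real.exp (-(2 * kap p)) := by
    refine (ep_le hg).trans ?_
    have h1 : Real.exp (-2 * (fa (tn p) + fb (tn p))) ≤
        Real.exp (-(2 * kap p)) * Real.exp (-(2 * kap p)) := by
      rw [← Real.exp_add]
      exact Real.exp_le_exp.2 (by linarith)
    have h2 : Real.exp (-(2 * kap p)) * Real.exp (-(2 * kap p)) ≤
        Real.exp (-(2 * kap p)) * (1 / 50) := mul_le_mul_of_nonneg_left hθ h0.le
    linarith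
  exact tpf_real (Real.exp_le_exp.2 (by linarith)) (Real.exp_le_exp.2 (by linarith)) h0 hθ
    (fa_lt_fc hg).le (by linarith) (ep_pos hg) hsm (ep_formula hg)

theorem ee_low (p : List Bool) : 9 / 10 * Real.exp (-(2 * ll p)) ≤ ee p := by
  refine le_trans ?_ (ep_ge (good_tn p))
  have h1 := ll_eq p
  have h2 := ee_small p
  have h3 : Real.exp (-(2 * ll p)) * Real.exp (-(1 / 10)) ≤ Real.exp (-2 * (fa (tn p) + fb (tn p))) := by
    rw [← Real.exp_add]
    exact Real.exp_le_exp.2 (by linarith)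
  have h4 := Real.add_one_le_exp (-(1 / 10 : ℝ))
  have h5 : Real.exp (-(2 * ll p)) * (9 / 10) ≤ Real.exp (-(2 * ll p)) * Real.exp (-(1 / 10)) :=
    mul_le_mul_of_nonneg_left (by linarith) (Real.exp_pos _).le
  linarith

theorem kap_cons (b : Bool) (p : List Bool) : kap p ≤ kap (b :: p) := by
  cases b
  · exact min_le_min (fa_lt_fc (good_tn p)).le le_rfl
  · exact min_le_min le_rfl (fb_lt_fc (good_tn p)).le

theorem kap_suffix {c p : List Bool} (h : c <:+ p) : kap c ≤ kap p := by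
  obtain ⟨l, rfl⟩ := h
  induction l with
  | nil => exact le_rfl
  | cons b l ih => exact ih.trans (kap_cons b _)

theorem kap_gd {R : ℕ} {p : List Bool} : Gd R p ↔ 20 * Real.log R ≤ kap p := le_min_iff.symm

theorem kap_ge (p : List Bool) : 9 / 10 ≤ kap p :=
  le_min (by linarith [fa_ge (good_tn p)]) (by linarith [fb_ge (good_tn p)])

theorem ll_cons (b : Bool) (p : List Bool) : ll p + kap p - 1 / 80 ≤ ll (b :: p) := by
  have h1 := ee_cons_le b p
  have h2 := ee_small p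
  have h3 := ll_eq (b :: p)
  cases b
  · have h4 : kap p ≤ fb (tn p) := min_le_right _ _
    have h5 : fa (tn (false :: p)) = ll p := rfl
    have h6 : fb (tn (false :: p)) = fb (tn p) := rfl
    linarith
  · have h4 : kap p ≤ fa (tn p) := min_le_left _ _
    have h5 : fa (tn (true :: p)) = fa (tn p) := rfl
    have h6 : fb (tn (true :: p)) = ll p := rfl
    linarith

theorem ll_suffix {c p : List Bool} (h : c <:+ p) : ll c ≤ ll p := by
  obtain ⟨l, rfl⟩ := h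
  induction l with
  | nil => exact le_rfl
  | cons b l ih =>
    have h1 := ll_cons b (l ++ c)
    have h2 := kap_ge (l ++ c)
    refine ih.trans ?_
    show ll (l ++ c) ≤ ll (b :: (l ++ c))
    linarith

theorem ll_desc {c p : List Bool} {b : Bool} (h : (b :: c) <:+ p) : ll c + kap c - 1 / 80 ≤ ll p :=
  (ll_cons b c).trans (ll_suffix h)

theorem tpf_cosh {x y : ℝ} (hxy : x ≤ y) : Real.cosh y - Real.cosh x ≤ (y - x) * Real.exp y / 2 := by
  rw [Real.cosh_eq, Real.cosh_eq]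
  have h1 : Real.exp (-y) ≤ Real.exp (-x) := Real.exp_le_exp.2 (by linarith)
  have h2 := Real.add_one_le_exp (x - y)
  have h3 : Real.exp y * Real.exp (x - y) = Real.exp x := by
    rw [← Real.exp_add]
    congr 1
    ring
  have h4 : Real.exp y * (x - y + 1) ≤ Real.exp y * Real.exp (x - y) :=
    mul_le_mul_of_nonneg_left h2 (Real.exp_pos _).le
  rw [h3] at h4
  nlinarith

theorem tpf_half : Real.exp (1 / 2) ≤ 2 := by
  have h7 := Real.add_one_le_exp (-(1 / 2 : ℝ))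
  have h8 : Real.exp (1 / 2) * Real.exp (-(1 / 2)) = 1 := by
    rw [← Real.exp_add, add_neg_cancel, Real.exp_zero]
  have h9 : Real.exp (1 / 2) * (1 / 2) ≤ Real.exp (1 / 2) * Real.exp (-(1 / 2)) :=
    mul_le_mul_of_nonneg_left (by linarith) (Real.exp_pos _).le
  linarith

theorem tpf_zz (c : List Bool) : 1 ≤ zz c := by
  have h := good_tn c
  have h1 := h.1
  have h2 := h.2.2.2.1
  show 1 ≤ (tn c).2.2
  omega

theorem zz_of_ll {c d : List Bool} {t : ℝ} (h : |ll c - ll d| ≤ t) (ht : t ≤ 1 / 2)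
    (h2 : 2 * t * Real.exp (ll c) < 1) : zz c = zz d := by
  have hc : Real.cosh (ll c) = 3 * (zz c : ℝ) / 2 := cosh_F (tpf_zz c)
  have hd : Real.cosh (ll d) = 3 * (zz d : ℝ) / 2 := cosh_F (tpf_zz d)
  have hab := abs_le.1 h
  have h0 : 0 ≤ t := (abs_nonneg _).trans h
  have hE := Real.exp_pos (ll c)
  have hlt : |(zz c : ℝ) - (zz d : ℝ)| < 1 := by
    rcases le_total (ll c) (ll d) with hcd | hcd
    · have h3 := tpf_cosh hcd
      have h4 : Real.cosh (ll c) ≤ Real.cosh (ll d) := by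
        have hp : 0 < ll c := F_pos (tpf_zz c)
        exact Real.cosh_le_cosh.2 (by rw [abs_of_pos hp, abs_of_pos (by linarith)]; exact hcd)
      have h5 : Real.exp (ll d) ≤ 2 * Real.exp (ll c) := by
        have h6 : Real.exp (ll d) ≤ Real.exp (ll c) * Real.exp (1 / 2) := by
          rw [← Real.exp_add]
          exact Real.exp_le_exp.2 (by linarith)
        have h7 : Real.exp (ll c) * Real.exp (1 / 2) ≤ Real.exp (ll c) * 2 :=
          mul_le_mul_of_nonneg_left tpf_half hE.le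
        linarith
      have h8 : (ll d - ll c) * Real.exp (ll d) ≤ t * (2 * Real.exp (ll c)) :=
        mul_le_mul (by linarith) h5 (Real.exp_pos _).le h0
      rw [hc, hd] at h3 h4
      rw [abs_lt]
      constructor <;> linarith
    · have h3 := tpf_cosh hcd
      have h4 : Real.cosh (ll d) ≤ Real.cosh (ll c) := by
        have hp : 0 < ll d := F_pos (tpf_zz d)
        exact Real.cosh_le_cosh.2 (by rw [abs_of_pos hp, abs_of_pos (by linarith)]; exact hcd)
      have h8 : (ll c - ll d) * Real.exp (ll c) ≤ t * Real.exp (ll c) :=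
        mul_le_mul_of_nonneg_right (by linarith) hE.le
      rw [hc, hd] at h3 h4
      rw [abs_lt]
      constructor <;> linarith
  have h9 : |((zz c : ℤ) : ℝ) - ((zz d : ℤ) : ℝ)| < 1 := by
    push_cast
    exact hlt
  have h10 : |(zz c : ℤ) - (zz d : ℤ)| < 1 := by
    exact_mod_cast h9
  have h11 := Int.abs_lt_one_iff.1 h10
  omega

end Pool.Agent.Lib.MP_94ab62_ntZ
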