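import Pool.Agent.Lib.MP_94ab62_ntZ.LvA
import Pool.Agent.Lib.MP_94ab62_ntZ.TpF

/-!
# LvB: levels by the length of the longer edge, basic lemmas

`mx p = max (fa (tn p)) (fb (tn p))`.  `Lf k P` = `P` is the first node with `k ≤ mx` on its path, `ct k q` = the leaf of level `k` above (or equal to) `q`.
* `mx_cons`: `tn (true :: c) = lc (tn c) = (x, z, ..)`, so `fa = fa (tn c)`, `fb = F z = ll c` and `fa (tn c) < ll c` (`fa_lt_fc (good_tn c)`); `false`: `fa = ll c`, `fb = fb (tn c) < ll c`.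
* `mx_lt_ll`: `fa_lt_fc`, `fb_lt_fc`.  `mx_suffix`: one step `mx c < ll c = mx (b :: c)`, induction on the list.  `mx_nil`: `tn [] = (1,2,5)`: `max (F 1) (F 2)`; `F 2 = arcosh 3 < 2` (`F_two` or `F_log`:
  `cosh_F`, `cosh 2 > 3`).
* `kap_le_mx`: `min_le_max`.  `ll_mx_kap`: `ll p = fa + fb - ee p` (`ll_eq`), `fa + fb = mx + kap` (`max_add_min`), `0 < ee p ≤ 1/20` (`ee_pos`, `ee_small`).
* `ss_mx`: `9/10 m1 ≤ fa`, `9/10 m2 ≤ fb` (`fa_ge'`, `fb_ge'`): `ss p = m1 + m2 ≤ 10/9 (fa + fb) ≤ 20/9 mx p`.  `mx_ss`: `mx p ≤ 9/5 ss p`  (`fa_le`, `fb_le`).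
* `ct_suffix`, `ct_mem`, `ct_of`, `ct_ct`: induction on `q`, as `cut_suffix`, `cut_mem`, `cut_of_LF`, `cut_le` of `MP_94ab62_ntU/CutU.lean` (same proofs with `mx` instead of `ss`);
  `ct_mem`: `q = b :: c`, `k ≤ mx (b :: c)`: if `k ≤ mx c` induction hypothesis; else `ct k q = b :: c` and `Lf k (b :: c)` by definition.  `q = []`: `2 ≤ k ≤ mx [] < 2`: impossible.
  `ct_ct`: by induction on `q`: if `k' ≤ mx c` (`q = b :: c`) both sides reduce to `c` (then also `k ≤ mx c`); otherwise `ct k' q = q`.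
* `Lf_incomp`: `p <:+ q`, `q = b :: c`: `p = q` or `p <:+ c`, then `k ≤ mx p ≤ mx c < k`.
* `ee_Lf`: `ee_le_ll`, `ll p ≥ mx p ≥ k`.
* `mx_ge`: `9/10 ≤ kap p ≤ mx p` (`kap_ge`).
-/

set_option autoImplicit false

namespace Pool.Agent.Lib.MP_94ab62_ntZ

open Pool.Agent.Lib.MP_94ab62_nt Pool.Agent.Lib.MP_94ab62_ntU

theorem mx_cons (b : Bool) (c : List Bool) : mx (b :: c) = ll c := by
  have h1 : fa (tn c) < ll c := fa_lt_fc (good_tn c)
  have h2 : fb (tn c) < ll c := fb_lt_fc (good_tn c)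
  cases b
  · change max (ll c) (fb (tn c)) = ll c
    exact max_eq_left h2.le
  · change max (fa (tn c)) (ll c) = ll c
    exact max_eq_right h1.le

theorem mx_lt_ll (p : List Bool) : mx p < ll p :=
  max_lt (fa_lt_fc (good_tn p)) (fb_lt_fc (good_tn p))

theorem mx_suffix {c p : List Bool} (h : c <:+ p) : mx c ≤ mx p := by
  obtain ⟨l, rfl⟩ := h
  induction l with
  | nil => exact le_rfl
  | cons b l ih =>
    have h1 := mx_cons b (l ++ c)
    have h2 := mx_lt_ll (l ++ c)
    rw [List.cons_append, h1]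
    exact ih.trans h2.le

theorem mx_nil : mx [] < 2 := by
  have h1 := F_two
  have h2 : F 1 < F 2 := F_lt le_rfl (by norm_num)
  change max (F 1) (F 2) < 2
  exact max_lt (by linarith [h1.2]) (by linarith [h1.2])

theorem kap_le_mx (p : List Bool) : kap p ≤ mx p := min_le_max

theorem ll_mx_kap (p : List Bool) : mx p + kap p - 1 / 20 ≤ ll p ∧ ll p ≤ mx p + kap p := by
  have h1 := ll_eq p
  have h2 := ee_pos p
  have h3 := ee_small p
  have h4 : kap p + mx p = fa (tn p) + fb (tn p) := min_add_max _ _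
  constructor <;> linarith

theorem ss_mx (p : List Bool) : (ss p : ℝ) ≤ 20 / 9 * mx p := by
  have h1 := fa_ge' p
  have h2 := fb_ge' p
  have h3 : fa (tn p) ≤ mx p := le_max_left _ _
  have h4 : fb (tn p) ≤ mx p := le_max_right _ _
  have h5 : (ss p : ℝ) = m1 p + m2 p := by
    rw [ss]
    push_cast
    rfl
  rw [h5]
  linarith

theorem mx_ss (p : List Bool) : mx p ≤ 9 / 5 * ss p := by
  have h1 := fa_le p
  have h2 := fb_le p
  have h5 : (ss p : ℝ) = m1 p + m2 p := by
    rw [ss]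
    push_cast
    rfl
  have h6 : (0 : ℝ) ≤ m1 p := Nat.cast_nonneg _
  have h7 : (0 : ℝ) ≤ m2 p := Nat.cast_nonneg _
  rw [h5]
  exact max_le (by linarith) (by linarith)

theorem ct_suffix (k : ℝ) (q : List Bool) : ct k q <:+ q := by
  induction q with
  | nil => exact List.suffix_refl _
  | cons b p ih =>
    rw [ct]
    split
    · exact ih.trans (List.suffix_cons b p)
    · exact List.suffix_refl _

theorem ct_mem {k : ℝ} (hk : 2 ≤ k) {q : List Bool} (h : k ≤ mx q) : Lf k (ct k q) := by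
  induction q with
  | nil =>
    exfalso
    have h1 := mx_nil
    linarith
  | cons b p ih =>
    rw [ct]
    split
    · next h1 => exact ih h1
    · next h1 => exact ⟨b, p, rfl, not_le.1 h1, h⟩

theorem Lf_mx {k : ℝ} {p : List Bool} (h : Lf k p) : k ≤ mx p := by
  obtain ⟨b, c, -, -, h2⟩ := h
  exact h2

theorem ct_of {k : ℝ} {p q : List Bool} (h : Lf k p) (hs : p <:+ q) : ct k q = p := by
  obtain ⟨b, c, rfl, h1, h2⟩ := h
  induction q with
  | nil => exact absurd (List.suffix_nil.1 hs) (by simp)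
  | cons b' q ih =>
    rcases List.suffix_cons_iff.1 hs with h3 | h3
    · rw [← h3, ct, if_neg (not_le.2 h1)]
    · rw [ct, if_pos (h2.trans (mx_suffix h3))]
      exact ih h3

theorem Lf_incomp {k : ℝ} {p q : List Bool} (hp : Lf k p) (hq : Lf k q) (h : p <:+ q) : p = q := by
  rw [← ct_of hp h, ct_of hq (List.suffix_refl q)]

theorem ct_ct {k k' : ℝ} (h : k ≤ k') {q : List Bool} (hq : k' ≤ mx q) :
    ct k (ct k' q) = ct k q ∧ ct k q <:+ ct k' q := by
  have key : ct k (ct k' q) = ct k q := by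
    clear hq
    induction q with
    | nil => rfl
    | cons b c ih =>
      by_cases h1 : k' ≤ mx c
      · rw [show ct k' (b :: c) = ct k' c by rw [ct, if_pos h1],
          show ct k (b :: c) = ct k c by rw [ct, if_pos (h.trans h1)]]
        exact ih
      · rw [show ct k' (b :: c) = b :: c by rw [ct, if_neg h1]]
  refine ⟨key, ?_⟩
  rw [← key]
  exact ct_suffix k _

theorem ee_Lf {k : ℝ} {p : List Bool} (h : Lf k p) : ee p ≤ 8 * Real.exp (-(2 * k)) := by
  have h1 := ee_le_ll p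
  have h2 := Lf_mx h
  have h3 := mx_lt_ll p
  have h4 : Real.exp (-(2 * ll p)) ≤ Real.exp (-(2 * k)) := Real.exp_le_exp.2 (by linarith)
  linarith

end Pool.Agent.Lib.MP_94ab62_ntZ
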