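import Pool.Agent.Lib.MP_94ab62_ntZ.TpC

/-!
# TpD: strict convexity with constants

* `ee_two`: `ee (true :: d) + ee (false :: d) ≤ ee d / 4`: `ep_sum (good_tn d)` (MP_94ab62_nt/Eps4.lean; `tn (true :: d) = lc (tn d)`, `tn (false :: d) = rc (tn d)`, `ee = ep (tn _)`).
* `LL_tf`: `LL (false :: d) v - LL (true :: d) v = ee d * det (uu d) v`: `LL_true`, `LL_false`, `uu d = g1 d + g2 d`, `det_add_left`, `det_swap`.
* `sur_tf`: `X` below `true :: d`, `v` in the closed cone of `false :: d` (`cc_false`).  Let `β = det (uu d) (uu v) ≥ 0`.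
  (1) `LL X (uu v) ≤ LL (true :: d) (uu v) + 4/3 * ee (true :: d) * β`: `conv_pot1` with `P = true :: d`: `g2 (true :: d) = uu d`, `det (uu v) (uu d) = -β ≤ 0`, and `0 ≤ det (g1 d) (uu v)` (`cc_child`).
  (2) `ll v ≥ LL (false :: d) (uu v) - 4/3 * ee (false :: d) * β`: `cc_cases` for `false :: d`: if `(false :: d) <:+ v`: `conv_low` and `min .. ≤ det (g1 (false :: d)) (uu v) = β`
      (`g1 (false :: d) = uu d`); if `uu v` is an edge: `LL_edge1`, `LL_edge2` (equality, and `β ≥ 0`).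
  (3) `LL_tf`, `ee_two`: `ll v - LL X (uu v) ≥ ee d β - 4/3 (ee d / 4) β = 2/3 ee d β`.
* `sur_ft`: mirror image (`conv_pot2`, `det (uu v) (uu d)`).
-/

set_option autoImplicit false

namespace Pool.Agent.Lib.MP_94ab62_ntZ

open Pool.Agent.Lib.MP_94ab62_nt Pool.Agent.Lib.MP_94ab62_ntU

theorem ee_two (d : List Bool) : ee (true :: d) + ee (false :: d) ≤ ee d / 4 := by
  exact ep_sum (good_tn d)

theorem LL_tf (d : List Bool) (v : ℤ × ℤ) : LL (false :: d) v - LL (true :: d) v = ee d * (det (uu d) v : ℝ) := by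
  rw [LL_false, LL_true, show uu d = g1 d + g2 d from rfl, det_add_left, det_swap (g2 d) v]
  push_cast
  ring

theorem tpD_low_false {d v : List Bool} (hv : CC (false :: d) (uu v)) :
    LL (false :: d) (uu v) - 4 / 3 * ee (false :: d) * (det (uu d) (uu v) : ℝ) ≤ ll v := by
  have hb : (0 : ℝ) ≤ (det (uu d) (uu v) : ℝ) := by
    exact_mod_cast (cc_false.1 hv).1
  have he := (ee_pos (false :: d)).le
  have h0 : 0 ≤ 4 / 3 * ee (false :: d) * (det (uu d) (uu v) : ℝ) := by positivity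
  rcases cc_cases hv with h | h | h
  · have h1 := conv_low h
    rw [g1_false] at h1
    have h2 : min (det (uu v) (g2 (false :: d)) : ℝ) (det (uu d) (uu v) : ℝ) ≤
        (det (uu d) (uu v) : ℝ) := min_le_right _ _
    have h3 : 4 / 3 * ee (false :: d) * min (det (uu v) (g2 (false :: d)) : ℝ) (det (uu d) (uu v) : ℝ) ≤
        4 / 3 * ee (false :: d) * (det (uu d) (uu v) : ℝ) :=
      mul_le_mul_of_nonneg_left h2 (by positivity)
    linarith
  · have h1 := LL_edge1 h
    linarith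
  · have h1 := LL_edge2 h
    linarith

theorem tpD_low_true {d v : List Bool} (hv : CC (true :: d) (uu v)) :
    LL (true :: d) (uu v) - 4 / 3 * ee (true :: d) * (det (uu v) (uu d) : ℝ) ≤ ll v := by
  have hb : (0 : ℝ) ≤ (det (uu v) (uu d) : ℝ) := by
    exact_mod_cast (cc_true.1 hv).2
  have he := (ee_pos (true :: d)).le
  have h0 : 0 ≤ 4 / 3 * ee (true :: d) * (det (uu v) (uu d) : ℝ) := by positivity
  rcases cc_cases hv with h | h | h
  · have h1 := conv_low h
    rw [g2_true] at h1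
    have h2 : min (det (uu v) (uu d) : ℝ) (det (g1 (true :: d)) (uu v) : ℝ) ≤
        (det (uu v) (uu d) : ℝ) := min_le_left _ _
    have h3 : 4 / 3 * ee (true :: d) * min (det (uu v) (uu d) : ℝ) (det (g1 (true :: d)) (uu v) : ℝ) ≤
        4 / 3 * ee (true :: d) * (det (uu v) (uu d) : ℝ) :=
      mul_le_mul_of_nonneg_left h2 (by positivity)
    linarith
  · have h1 := LL_edge1 h
    linarith
  · have h1 := LL_edge2 h
    linarith

theorem sur_tf {d v X : List Bool} (hX : (true :: d) <:+ X) (hv : CC (false :: d) (uu v)) :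
    2 / 3 * ee d * (det (uu d) (uu v) : ℝ) ≤ ll v - LL X (uu v) := by
  have hbZ : 0 ≤ det (uu d) (uu v) := (cc_false.1 hv).1
  have hb : (0 : ℝ) ≤ (det (uu d) (uu v) : ℝ) := by exact_mod_cast hbZ
  have hsw : det (uu v) (uu d) = -det (uu d) (uu v) := det_swap _ _
  have h1 : LL X (uu v) ≤ LL (true :: d) (uu v) + 4 / 3 * ee (true :: d) * |(det (uu v) (g2 (true :: d)) : ℝ)| := by
    apply conv_pot1 hX
    · rw [g2_true, hsw]
      omega
    · rw [g1_true]
      exact (cc_child hv).1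
  have h2 : |(det (uu v) (g2 (true :: d)) : ℝ)| = (det (uu d) (uu v) : ℝ) := by
    rw [g2_true, hsw]
    push_cast
    rw [abs_neg, abs_of_nonneg hb]
  rw [h2] at h1
  have h3 := tpD_low_false hv
  have h4 := LL_tf d (uu v)
  have h5 := ee_two d
  have h6 : (ee (true :: d) + ee (false :: d)) * (det (uu d) (uu v) : ℝ) ≤
      ee d / 4 * (det (uu d) (uu v) : ℝ) := mul_le_mul_of_nonneg_right h5 hb
  linarith

theorem sur_ft {d v X : List Bool} (hX : (false :: d) <:+ X) (hv : CC (true :: d) (uu v)) :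
    2 / 3 * ee d * (det (uu v) (uu d) : ℝ) ≤ ll v - LL X (uu v) := by
  have hbZ : 0 ≤ det (uu v) (uu d) := (cc_true.1 hv).2
  have hb : (0 : ℝ) ≤ (det (uu v) (uu d) : ℝ) := by exact_mod_cast hbZ
  have hsw : det (uu d) (uu v) = -det (uu v) (uu d) := det_swap _ _
  have h1 : LL X (uu v) ≤ LL (false :: d) (uu v) + 4 / 3 * ee (false :: d) * |(det (g1 (false :: d)) (uu v) : ℝ)| := by
    apply conv_pot2 hX
    · rw [g2_false]
      exact (cc_child hv).2
    · rw [g1_false, hsw]
      omega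
  have h2 : |(det (g1 (false :: d)) (uu v) : ℝ)| = (det (uu v) (uu d) : ℝ) := by
    rw [g1_false, hsw]
    push_cast
    rw [abs_neg, abs_of_nonneg hb]
  rw [h2] at h1
  have h3 := tpD_low_true hv
  have h4 := LL_tf d (uu v)
  have h4' : (det (uu d) (uu v) : ℝ) = -(det (uu v) (uu d) : ℝ) := by
    rw [hsw]
    push_cast
    ring
  rw [h4'] at h4
  have h5 := ee_two d
  have h6 : (ee (true :: d) + ee (false :: d)) * (det (uu v) (uu d) : ℝ) ≤
      ee d / 4 * (det (uu v) (uu d) : ℝ) := mul_le_mul_of_nonneg_right h5 hb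
  linarith

end Pool.Agent.Lib.MP_94ab62_ntZ
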