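import Pool.Agent.Lib.MP_94ab62_ntZ.LvB
import Pool.Agent.Lib.MP_94ab62_ntZ.TpD

/-!
# LvC: degenerate nodes: gap, uniqueness of the vector, monotonicity

* `gap`: coordinates of `w` at `c`: `x = det w (g2 c) ≥ 0`, `y = det (g1 c) w ≤ 0`; `det w (uu c) = x - y = x + |y|` (`uu c = g1 c + g2 c`, `det_add_right`, `det_swap`).
  At `true :: c` the coordinates are `(x - y, y)`: `det w (g2 (true :: c)) = det w (uu c) = x - y ≥ 0`, `det (g1 (true :: c)) w = y ≤ 0`.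
  (1) `LL X w ≥ LL (true :: c) w - 4/3 ee (true :: c) (x - y)`: `conv_pot1` for `-w` (`det (-w) (g2 (true :: c)) = -(x-y) ≤ 0 ≤ det (g1 ..) (-w) = -y`; `LL X (-w) = - LL X w`: `LL_smul` with `-1`).
  (2) `LL Y w ≤ LL (false :: c) w + 4/3 ee (false :: c) (x - y)`: `conv_pot2` for `w`: `det w (g2 (false :: c)) = x ≥ 0`, `det (g1 (false :: c)) w = det (uu c) w = y - x ≤ 0`.
  (3) `LL (false :: c) w - LL (true :: c) w = ee c * det (uu c) w = - ee c (x - y)` (`LL_tf`, TpD), `ee (true::c) + ee (false::c) ≤ ee c / 4` (`ee_two`, TpD).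
  Sum: `LL X w - LL Y w ≥ ee c (x - y) - 4/3 (ee c/4) (x - y) = 2/3 ee c (x-y)`.
* `mixed`: if `0 ≤ w.1`, `0 ≤ w.2`: `LL_pos`: `LL P w ≥ 7/10 nm w ≥ 7/10` (`nm_ge_one`); if both `≤ 0` the same for `-w`.
* `mixed_det`: `g_nonneg`, `uu_pos`: `det w v = w.1 v.2 - w.2 v.1`.
* `small_par`: `det w w' = 0`, both nonzero: `w.1 * w' = w'.1 * w` and `w.2 * w' = w'.2 * w` (componentwise, from `w.1 w'.2 = w.2 w'.1`), so `|w.1| |LL P w'| = |w'.1| |LL P w|`, the same for the second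
  coordinates; add: `nm w * |LL P w'| = nm w' * |LL P w|`, `nm w' ≥ 1`, `nm w ≤ A`.
* `dg_mono`: `P` with the vector `w`; `Q = ct k P` (`k ≤ k+1 ≤ mx P` by `Lf_mx`), `Lf k Q` (`ct_mem`), `Q <:+ P`, `ss Q ≤ ss P ≤ R`; `LL_diff : |LL P w - LL Q w| ≤ 2 * ww Q * nm w`,
  `ww Q = ee Q * ss Q ≤ 8 e^(-2k) R` (`ee_Lf`), so `|LL Q w| ≤ R^30 e^(-2k-2) + 48 R^4 e^(-2k) ≤ R^30 e^(-2k)` (`e^(-2) ≤ 1/4`, `48 R^4 ≤ R^30/2`).
* `dg_down`: induction on `i` with `dg_mono` and `ct_ct`.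
* `dg_par`: `w1, w2` vectors for `P1, P2 ∈ DL R k` with the same `ct k0 P1 = ct k0 P2 = P0`, `(R:ℝ)^100 ≤ e^k0`: `|LL P0 w_i| ≤ R^30 e^(-2k) + 2 (8 e^(-2 k0) R)(3R³) ≤ R^31 e^(-2 k0) ≤ R^(-169)`, and
  `2 * (3 R^3) * R^(-169) < 7/10`: `LL_det`.
-/

set_option autoImplicit false

namespace Pool.Agent.Lib.MP_94ab62_ntZ

open Pool.Agent.Lib.MP_94ab62_nt Pool.Agent.Lib.MP_94ab62_ntU

theorem gap {c X Y : List Bool} {w : ℤ × ℤ} (hX : (true :: c) <:+ X) (hY : (false :: c) <:+ Y)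
    (hx : 0 ≤ det w (g2 c)) (hy : det (g1 c) w ≤ 0) :
    2 / 3 * ee c * (det w (uu c) : ℝ) ≤ LL X w - LL Y w := by
  have hD : det w (uu c) = det w (g2 c) - det (g1 c) w := by
    rw [show uu c = g1 c + g2 c from rfl, det_add_right, det_swap w (g1 c)]
    ring
  have hD0 : 0 ≤ det w (uu c) := by
    rw [hD]
    linarith
  have hD1 : (0 : ℝ) ≤ (det w (uu c) : ℝ) := by exact_mod_cast hD0
  have e1 : det ((-1 : ℤ) • w) (uu c) = -det w (uu c) := by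
    rw [det_smul_left]
    ring
  have e2 : det (uu c) w = -det w (uu c) := det_swap _ _
  have h1 := conv_pot1 hX (v := (-1 : ℤ) • w) (by rw [g2_true, e1]; linarith)
    (by rw [g1_true, det_smul_right]; linarith)
  have h2 := conv_pot2 hY (v := w) (by rw [g2_false]; exact hx) (by rw [g1_false, e2]; linarith)
  rw [g2_true, e1, LL_smul, LL_smul] at h1
  rw [g1_false, e2] at h2
  push_cast at h1 h2
  rw [abs_neg, abs_of_nonneg hD1] at h1 h2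
  have h3 := LL_tf c w
  rw [e2] at h3
  push_cast at h3
  have h4 := ee_two c
  have h5 : (ee (true :: c) + ee (false :: c)) * (det w (uu c) : ℝ) ≤ ee c / 4 * (det w (uu c) : ℝ) :=
    mul_le_mul_of_nonneg_right h4 hD1
  nlinarith

theorem lvc_pos {P : List Bool} {w : ℤ × ℤ} (hw : w ≠ 0) (h : |LL P w| < 7 / 10) :
    ¬ (0 ≤ w.1 ∧ 0 ≤ w.2) := by
  rintro ⟨h1, h2⟩
  have h3 := LL_pos P h1 h2
  have h4 := nm_ge_one hw
  have h5 := (abs_lt.1 h).2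
  linarith

theorem mixed {P : List Bool} {w : ℤ × ℤ} (hw : w ≠ 0) (h : |LL P w| < 7 / 10) :
    (0 < w.1 ∧ w.2 < 0) ∨ (w.1 < 0 ∧ 0 < w.2) := by
  have h1 := lvc_pos hw h
  have h2 : ¬ (0 ≤ ((-1 : ℤ) • w).1 ∧ 0 ≤ ((-1 : ℤ) • w).2) := by
    refine lvc_pos (P := P) (fun h0 => hw ?_) ?_
    · have h3 : (-1 : ℤ) • ((-1 : ℤ) • w) = 0 := by rw [h0, smul_zero]
      rw [smul_smul] at h3
      simpa using h3
    · rw [LL_smul]
      push_cast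
      rw [neg_one_mul, abs_neg]
      exact h
  have e1 : ((-1 : ℤ) • w).1 = -w.1 := by simp
  have e2 : ((-1 : ℤ) • w).2 = -w.2 := by simp
  rw [e1, e2] at h2
  omega

theorem mixed_det {c : List Bool} {w : ℤ × ℤ} (h1 : 0 < w.1) (h2 : w.2 < 0) :
    0 ≤ det w (g2 c) ∧ det (g1 c) w ≤ 0 ∧ 1 ≤ det w (uu c) := by
  obtain ⟨a1, a2, a3, a4⟩ := g_nonneg c
  obtain ⟨b1, b2⟩ := uu_pos c
  unfold det
  refine ⟨?_, ?_, ?_⟩
  · nlinarith [mul_nonneg h1.le a4, mul_nonneg (neg_nonneg.2 h2.le) a3]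
  · nlinarith [mul_nonneg h1.le a2, mul_nonneg (neg_nonneg.2 h2.le) a1]
  · nlinarith [mul_le_mul h1 b2 zero_le_one (by linarith : (0:ℤ) ≤ w.1), mul_nonneg (neg_nonneg.2 h2.le) (by linarith : (0:ℤ) ≤ (uu c).1)]

theorem small_par {P : List Bool} {w w' : ℤ × ℤ} (hw : w ≠ 0) (hw' : w' ≠ 0) (hd : det w w' = 0) {A t : ℝ}
    (hA : nm w ≤ A) (h : |LL P w'| ≤ t) : |LL P w| ≤ A * t := by
  unfold det at hd
  have e1 : w.1 • w' = w'.1 • w := by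
    refine Prod.ext ?_ ?_
    · simp only [Prod.smul_fst, smul_eq_mul]
      ring
    · simp only [Prod.smul_snd, smul_eq_mul]
      linarith
  have e2 : w.2 • w' = w'.2 • w := by
    refine Prod.ext ?_ ?_
    · simp only [Prod.smul_fst, smul_eq_mul]
      linarith
    · simp only [Prod.smul_snd, smul_eq_mul]
      ring
  have f1 : |(w.1 : ℝ)| * |LL P w'| = |(w'.1 : ℝ)| * |LL P w| := by
    rw [← abs_mul, ← abs_mul, ← LL_smul, ← LL_smul, e1]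
  have f2 : |(w.2 : ℝ)| * |LL P w'| = |(w'.2 : ℝ)| * |LL P w| := by
    rw [← abs_mul, ← abs_mul, ← LL_smul, ← LL_smul, e2]
  have f3 : nm w * |LL P w'| = nm w' * |LL P w| := by
    unfold nm
    linarith
  have f4 := nm_ge_one hw'
  have f5 : 1 * |LL P w| ≤ nm w' * |LL P w| := mul_le_mul_of_nonneg_right f4 (abs_nonneg _)
  have f6 : nm w * |LL P w'| ≤ A * t := mul_le_mul hA h (abs_nonneg _) ((nm_nonneg w).trans hA)
  linarith

theorem lvc_ww {R : ℕ} {k : ℝ} {Q : List Bool} (hQ : Lf k Q) (hs : ss Q ≤ R) :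
    ww Q ≤ 8 * R * Real.exp (-(2 * k)) := by
  have h1 := ee_Lf hQ
  have h2 : (ss Q : ℝ) ≤ R := by exact_mod_cast hs
  unfold ww
  have h3 : ee Q * (ss Q : ℝ) ≤ 8 * Real.exp (-(2 * k)) * R :=
    mul_le_mul h1 h2 (Nat.cast_nonneg _) (by positivity)
  linarith

theorem lvc_diff {R : ℕ} {k : ℝ} {P Q : List Bool} (hQ : Lf k Q) (hs : ss Q ≤ R) (h : Q <:+ P) {w : ℤ × ℤ}
    (hw : nm w ≤ 3 * (R : ℝ) ^ 3) : |LL P w - LL Q w| ≤ 48 * (R : ℝ) ^ 4 * Real.exp (-(2 * k)) := by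
  have h1 := LL_diff h w
  have h2 := lvc_ww hQ hs
  have h3 : ww Q * nm w ≤ 8 * R * Real.exp (-(2 * k)) * (3 * (R : ℝ) ^ 3) :=
    mul_le_mul h2 hw (nm_nonneg w) (by positivity)
  have h4 : 2 * ww Q * nm w = 2 * (ww Q * nm w) := by ring
  rw [h4] at h1
  refine h1.trans ?_
  refine (mul_le_mul_of_nonneg_left h3 (by norm_num)).trans (le_of_eq ?_)
  ring

theorem dg_mono {R : ℕ} {k : ℝ} (hR : 100 ≤ R) (hk : 2 ≤ k) {P : List Bool} (h : P ∈ DL R (k + 1)) : ct k P ∈ DL R k := by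
  obtain ⟨hL, hs, w, hw0, hw1, hw2⟩ := h
  have hmx : k ≤ mx P := by linarith [Lf_mx hL]
  have hQ := ct_mem hk hmx
  have hQP := ct_suffix k P
  have hQs : ss (ct k P) ≤ R := (ss_suffix hQP).trans hs
  refine ⟨hQ, hQs, w, hw0, hw1, ?_⟩
  have h1 := lvc_diff hQ hQs hQP hw1
  have hR' : (100 : ℝ) ≤ R := by exact_mod_cast hR
  have he : Real.exp (-(2 * (k + 1))) ≤ Real.exp (-(2 * k)) / 4 := by
    rw [show -(2 * (k + 1)) = -(2 * k) + (-2) by ring, Real.exp_add]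
    have h2 : Real.exp (-2) ≤ 1 / 4 := by
      rw [Real.exp_neg]
      have h3 := Real.add_one_le_exp (2 : ℝ)
      have h4 : (4 : ℝ) ≤ Real.exp 2 := by
        have h5 := Real.quadratic_le_exp_of_nonneg (by norm_num : (0:ℝ) ≤ 2)
        linarith
      rw [one_div]
      exact inv_anti₀ (by norm_num) h4
    have h6 := Real.exp_pos (-(2 * k))
    nlinarith
  have h7 : (R : ℝ) ^ 30 * Real.exp (-(2 * (k + 1))) ≤ (R : ℝ) ^ 30 * (Real.exp (-(2 * k)) / 4) :=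
    mul_le_mul_of_nonneg_left he (by positivity)
  have h8 : 48 * (R : ℝ) ^ 4 ≤ (R : ℝ) ^ 30 / 2 := by
    have h9 : (R : ℝ) ^ 30 = (R : ℝ) ^ 4 * (R : ℝ) ^ 26 := by ring
    have h10 : (100 : ℝ) ≤ (R : ℝ) ^ 26 := hR'.trans (le_self_pow₀ (by linarith) (by norm_num))
    rw [h9]
    have h11 : (0 : ℝ) ≤ (R : ℝ) ^ 4 := by positivity
    nlinarith
  have h9 : 48 * (R : ℝ) ^ 4 * Real.exp (-(2 * k)) ≤ (R : ℝ) ^ 30 / 2 * Real.exp (-(2 * k)) :=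
    mul_le_mul_of_nonneg_right h8 (Real.exp_pos _).le
  have h10 : |LL (ct k P) w| ≤ |LL P w| + |LL P w - LL (ct k P) w| := by
    have h11 := abs_sub_le (LL (ct k P) w) (LL P w) 0
    rw [sub_zero, sub_zero, abs_sub_comm] at h11
    linarith
  have h12 : 0 ≤ (R : ℝ) ^ 30 * Real.exp (-(2 * k)) := by positivity
  linarith

theorem dg_down {R : ℕ} {k : ℝ} (hR : 100 ≤ R) (hk : 2 ≤ k) (i : ℕ) {P : List Bool} (h : P ∈ DL R (k + i)) :
    ct k P ∈ DL R k := by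
  induction i generalizing P with
  | zero =>
    have h1 : P ∈ DL R k := by simpa using h
    rw [ct_of h1.1 (List.suffix_refl P)]
    exact h1
  | succ i ih =>
    have h1 : P ∈ DL R ((k + i) + 1) := by
      have e : k + ((i + 1 : ℕ) : ℝ) = (k + i) + 1 := by
        push_cast
        ring
      rw [← e]
      exact h
    have hi : (0 : ℝ) ≤ i := Nat.cast_nonneg i
    have h2 := ih (dg_mono hR (by linarith) h1)
    have h3 := (ct_ct (k := k) (k' := k + i) (by linarith) (q := P) (by linarith [Lf_mx h1.1])).1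
    rw [h3] at h2
    exact h2

theorem dg_par {R : ℕ} {k0 k : ℝ} (hR : 100 ≤ R) (hk0 : 2 ≤ k0) (h0 : (R : ℝ) ^ 100 ≤ Real.exp k0) (hk : k0 ≤ k)
    {P1 P2 : List Bool} (h1 : P1 ∈ DL R k) (h2 : P2 ∈ DL R k) (h12 : ct k0 P1 = ct k0 P2) {w1 w2 : ℤ × ℤ}
    (n1 : nm w1 ≤ 3 * (R : ℝ) ^ 3) (n2 : nm w2 ≤ 3 * (R : ℝ) ^ 3)
    (l1 : |LL P1 w1| ≤ (R : ℝ) ^ 30 * Real.exp (-(2 * k)))
    (l2 : |LL P2 w2| ≤ (R : ℝ) ^ 30 * Real.exp (-(2 * k))) : det w1 w2 = 0 := by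
  have hR' : (100 : ℝ) ≤ R := by exact_mod_cast hR
  have key : ∀ {P : List Bool} {w : ℤ × ℤ}, P ∈ DL R k → nm w ≤ 3 * (R : ℝ) ^ 3 →
      |LL P w| ≤ (R : ℝ) ^ 30 * Real.exp (-(2 * k)) → |LL (ct k0 P) w| ≤ 2 * (R : ℝ) ^ 30 * Real.exp (-(2 * k0)) := by
    intro P w hP hw hl
    have hmx : k0 ≤ mx P := by linarith [Lf_mx hP.1]
    have hQ := ct_mem hk0 hmx
    have hQP := ct_suffix k0 P
    have hQs : ss (ct k0 P) ≤ R := (ss_suffix hQP).trans hP.2.1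
    have h1 := lvc_diff hQ hQs hQP hw
    have h10 : |LL (ct k0 P) w| ≤ |LL P w| + |LL P w - LL (ct k0 P) w| := by
      have h11 := abs_sub_le (LL (ct k0 P) w) (LL P w) 0
      rw [sub_zero, sub_zero, abs_sub_comm] at h11
      linarith
    have h2 : (R : ℝ) ^ 30 * Real.exp (-(2 * k)) ≤ (R : ℝ) ^ 30 * Real.exp (-(2 * k0)) :=
      mul_le_mul_of_nonneg_left (Real.exp_le_exp.2 (by linarith)) (by positivity)
    have h8 : 48 * (R : ℝ) ^ 4 ≤ (R : ℝ) ^ 30 := by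
      have h9 : (R : ℝ) ^ 30 = (R : ℝ) ^ 4 * (R : ℝ) ^ 26 := by ring
      have h10 : (100 : ℝ) ≤ (R : ℝ) ^ 26 := hR'.trans (le_self_pow₀ (by linarith) (by norm_num))
      rw [h9]
      have h11 : (0 : ℝ) ≤ (R : ℝ) ^ 4 := by positivity
      nlinarith
    have h9 : 48 * (R : ℝ) ^ 4 * Real.exp (-(2 * k0)) ≤ (R : ℝ) ^ 30 * Real.exp (-(2 * k0)) :=
      mul_le_mul_of_nonneg_right h8 (Real.exp_pos _).le
    linarith
  have a1 := key h1 n1 l1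
  have a2 := key h2 n2 l2
  rw [← h12] at a2
  refine LL_det n1 n2 a1 a2 ?_
  have he : Real.exp (-(2 * k0)) ≤ ((R : ℝ) ^ 200)⁻¹ := by
    rw [Real.exp_neg]
    refine inv_anti₀ (by positivity) ?_
    rw [show (2 : ℝ) * k0 = k0 + k0 by ring, Real.exp_add]
    calc (R : ℝ) ^ 200 = (R : ℝ) ^ 100 * (R : ℝ) ^ 100 := by ring
      _ ≤ Real.exp k0 * Real.exp k0 := mul_le_mul h0 h0 (by positivity) (Real.exp_pos _).le
  have hb : 2 * (3 * (R : ℝ) ^ 3) * (2 * (R : ℝ) ^ 30 * Real.exp (-(2 * k0))) ≤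
      12 * (R : ℝ) ^ 33 * ((R : ℝ) ^ 200)⁻¹ := by
    calc 2 * (3 * (R : ℝ) ^ 3) * (2 * (R : ℝ) ^ 30 * Real.exp (-(2 * k0)))
        = 12 * (R : ℝ) ^ 33 * Real.exp (-(2 * k0)) := by ring
      _ ≤ _ := mul_le_mul_of_nonneg_left he (by positivity)
  refine lt_of_le_of_lt hb ?_
  have hR0 : (0 : ℝ) < R := by linarith
  have h13 : 12 * (R : ℝ) ^ 33 * ((R : ℝ) ^ 200)⁻¹ = 12 * ((R : ℝ) ^ 167)⁻¹ := by
    rw [show (R : ℝ) ^ 200 = (R : ℝ) ^ 33 * (R : ℝ) ^ 167 by ring, mul_inv]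
    field_simp
  rw [h13]
  have h14 : (100 : ℝ) ≤ (R : ℝ) ^ 167 := hR'.trans (le_self_pow₀ (by linarith) (by norm_num))
  have h15 : ((R : ℝ) ^ 167)⁻¹ ≤ (100 : ℝ)⁻¹ := inv_anti₀ (by norm_num) h14
  norm_num at h15 ⊢
  linarith

end Pool.Agent.Lib.MP_94ab62_ntZ
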