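import Pool.Agent.Lib.MP_94ab62_ntZ.RaA

/-!
# RaB: the nodes below a ray; base of a ray

* `ray_cases`: `p = l ++ c0`; induction on `l` from the right end (the step next to `c0`): either `l` is `replicate n b` or
  `l = l' ++ (!b) :: replicate n b` for a unique `n` (`n` = number of `b`s before the first `!b`, reading from `c0`).
* `en_disj`: two elements `(!b) :: replicate n b ++ c0`, `(!b) :: replicate m b ++ c0` are suffixes of the same list; suffixes of
  one list are comparable (List.suffix_or_suffix_of_suffix); compare the entry at position `min n m` (counted from `c0`).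
* `en_coord`: `coords (c := en c0 b n)` of BasisA: `uu p = x • g1 (en) + y • g2 (en)`, `x,y ≥ 1`, and the edges of `en c0 b n` are
  `wv n`, `wv (n+1)` (in this order if b = false, reversed if b = true: `cn n` has edges `(wv n, hv)`, `en n = true :: cn n` has
  edges `(wv n, uu (cn n))`; for b = true `cn n` has edges `(hv, wv n)`, `en n = false :: cn n` has edges `(uu (cn n), wv n)`).
  Then `cX_wv, cY_wv`.
* `kap_en`: the entries of `en n` are `zw n`, `zw (n+1)` and `F` is monotone (`F_le`, Eps1).
* `base_exists`: induction on `p`: if `p = []` or `p = (!b) :: c'` take `c0 = p, n = 0`; if `p = b :: p'` use `p'`.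
* `base_small`: `c0 = []`: `tn [] = (1,2,5)`.  `c0 = (!b) :: c'`: the pivot of `c0` is `uu c'` (newest vector), so
  `zh c0 b = zz c'` is larger than the other entry (good_tn).
* `base_nm`: the same for norms (`m1`, `m2`: `m1_eq`, `m2_eq`, `nm_g1`, `nm_g2`).
-/

set_option autoImplicit false

namespace Pool.Agent.Lib.MP_94ab62_ntZ

open Pool.Agent.Lib.MP_94ab62_nt Pool.Agent.Lib.MP_94ab62_ntU

private theorem rab_en_len (c0 : List Bool) (b : Bool) (n : ℕ) :
    (en c0 b n).length = n + 1 + c0.length := by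
  unfold en
  rw [List.length_cons, cn_len]
  omega

private theorem rab_not_cn {c0 : List Bool} {b : Bool} (m n : ℕ)
    (h : en c0 b m <:+ cn c0 b n) : False := by
  induction n with
  | zero =>
    have h1 := h.length_le
    rw [rab_en_len, cn_len] at h1
    omega
  | succ n ih =>
    rw [cn_succ] at h
    rcases List.suffix_cons_iff.1 h with h1 | h1
    · have h2 : (!b) = b := (List.cons.inj h1).1
      cases b <;> simp at h2
    · exact ih h1

private theorem rab_disj {c0 : List Bool} {b : Bool} {m n : ℕ} (h : en c0 b m <:+ en c0 b n) :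
    m = n := by
  rcases List.suffix_cons_iff.1 h with h1 | h1
  · have h2 := congrArg List.length h1
    rw [rab_en_len, List.length_cons, cn_len] at h2
    omega
  · exact (rab_not_cn m n h1).elim

private theorem rab_cn_cn (c0 : List Bool) (b : Bool) (m n : ℕ) :
    cn (cn c0 b m) b n = cn c0 b (m + n) := by
  induction n with
  | zero => rw [cn_zero, add_zero]
  | succ n ih => rw [cn_succ, ih, ← add_assoc, cn_succ]

private theorem rab_edges (c0 : List Bool) (b : Bool) (n : ℕ) :
    (g1 (en c0 b n) = (if b then wv c0 b (n + 1) else wv c0 b n)) ∧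
      (g2 (en c0 b n) = (if b then wv c0 b n else wv c0 b (n + 1))) := by
  cases b
  · rw [if_neg (by simp), if_neg (by simp), ← uu_cn]
    exact ⟨rfl, rfl⟩
  · rw [if_pos rfl, if_pos rfl, ← uu_cn]
    exact ⟨rfl, rfl⟩

theorem ray_cases {c0 p : List Bool} (b : Bool) (h : c0 <:+ p) :
    (∃ n, p = cn c0 b n) ∨ (∃ n, en c0 b n <:+ p) := by
  obtain ⟨r, rfl⟩ := h
  induction r with
  | nil => exact Or.inl ⟨0, (cn_zero c0 b).symm⟩
  | cons x r ih =>
    rcases ih with ⟨n, hn⟩ | ⟨n, hn⟩
    · by_cases hx : x = b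
      · left
        refine ⟨n + 1, ?_⟩
        rw [List.cons_append, hn, cn_succ, hx]
      · right
        refine ⟨n, ?_⟩
        have hx' : x = !b := by
          cases x <;> cases b <;> simp_all
        rw [List.cons_append, hn, hx']
        exact List.suffix_rfl
    · right
      refine ⟨n, ?_⟩
      rw [List.cons_append]
      exact hn.trans (List.suffix_cons _ _)

theorem en_disj {c0 p : List Bool} {b : Bool} {m n : ℕ} (h : en c0 b m <:+ p) (h' : en c0 b n <:+ p) : m = n := by
  rcases List.suffix_or_suffix_of_suffix h h' with h1 | h1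
  · exact rab_disj h1
  · exact (rab_disj h1).symm

theorem en_not_cn {c0 : List Bool} {b : Bool} {m n : ℕ} (h : en c0 b m <:+ cn c0 b n) : False := by
  exact rab_not_cn m n h

theorem cn_inj {c0 : List Bool} {b : Bool} {m n : ℕ} (h : cn c0 b m = cn c0 b n) : m = n := by
  have h1 := congrArg List.length h
  rw [cn_len, cn_len] at h1
  omega

/-- a node below `cn c0 b m` is a later node of the ray or below a later exit cone -/
theorem ray_cases' {c0 p : List Bool} {b : Bool} {m : ℕ} (h : cn c0 b m <:+ p) :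
    (∃ n, m ≤ n ∧ p = cn c0 b n) ∨ (∃ n, m ≤ n ∧ en c0 b n <:+ p) := by
  rcases ray_cases b h with ⟨n, hn⟩ | ⟨n, hn⟩
  · left
    refine ⟨m + n, Nat.le_add_right _ _, ?_⟩
    rw [hn, rab_cn_cn]
  · right
    refine ⟨m + n, Nat.le_add_right _ _, ?_⟩
    have h1 : en (cn c0 b m) b n = en c0 b (m + n) := by
      unfold en
      rw [rab_cn_cn]
    rwa [h1] at hn

theorem en_len {c0 p : List Bool} {b : Bool} {n : ℕ} (h : en c0 b n <:+ p) : n + 1 + c0.length ≤ p.length := by
  have h1 := h.length_le
  rw [rab_en_len] at h1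
  exact h1

theorem en_coord {c0 p : List Bool} {b : Bool} {n : ℕ} (h : en c0 b n <:+ p) :
    ∃ X f : ℕ, 1 ≤ f ∧ f < X ∧ cX c0 b (uu p) = X ∧ cY c0 b (uu p) = n * X + f := by
  obtain ⟨x, y, hx, hy, hu, -⟩ := coords h
  obtain ⟨h1, h2⟩ := rab_edges c0 b n
  rw [h1, h2] at hu
  cases b
  · rw [if_neg (by simp), if_neg (by simp)] at hu
    refine ⟨x + y, y, hy, by omega, ?_, ?_⟩
    · rw [hu, cX_add, cX_smul, cX_smul, cX_wv, cX_wv]
      push_cast
      ring
    · rw [hu, cY_add, cY_smul, cY_smul, cY_wv, cY_wv]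
      push_cast
      ring
  · rw [if_pos rfl, if_pos rfl] at hu
    refine ⟨x + y, x, hx, by omega, ?_, ?_⟩
    · rw [hu, cX_add, cX_smul, cX_smul, cX_wv, cX_wv]
      push_cast
      ring
    · rw [hu, cY_add, cY_smul, cY_smul, cY_wv, cY_wv]
      push_cast
      ring

/-- the edges of the exit cone -/
theorem en_edges (c0 : List Bool) (b : Bool) (n : ℕ) :
    (g1 (en c0 b n) = (if b then wv c0 b (n + 1) else wv c0 b n)) ∧
      (g2 (en c0 b n) = (if b then wv c0 b n else wv c0 b (n + 1))) := by
  exact rab_edges c0 b n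

theorem kap_en (c0 : List Bool) (b : Bool) (n : ℕ) : kap (en c0 b n) = F (zw c0 b n) := by
  obtain ⟨h1, h2, -, h3, h4, -⟩ := good_tn (cn c0 b n)
  cases b
  · change min (F (tn (cn c0 false n)).1) (F (tn (cn c0 false n)).2.2) = F (tn (cn c0 false n)).1
    exact min_eq_left (F_le h1 h3.le)
  · change min (F (tn (cn c0 true n)).2.2) (F (tn (cn c0 true n)).2.1) = F (tn (cn c0 true n)).2.1
    exact min_eq_right (F_le h2 h4.le)

theorem base_exists (p : List Bool) (b : Bool) :
    ∃ (c0 : List Bool) (n : ℕ), p = cn c0 b n ∧ (c0 = [] ∨ ∃ c', c0 = (!b) :: c') := by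
  induction p with
  | nil => exact ⟨[], 0, (cn_zero [] b).symm, Or.inl rfl⟩
  | cons x p ih =>
    by_cases hx : x = b
    · obtain ⟨c0, n, h1, h2⟩ := ih
      refine ⟨c0, n + 1, ?_, h2⟩
      rw [cn_succ, ← h1, hx]
    · have hx' : x = !b := by
        cases x <;> cases b <;> simp_all
      refine ⟨x :: p, 0, (cn_zero _ b).symm, Or.inr ⟨p, ?_⟩⟩
      rw [hx']

theorem base_small {c0 : List Bool} {b : Bool} (h : c0 = [] ∨ ∃ c', c0 = (!b) :: c') :
    zw c0 b 0 ≤ 2 * zh c0 b := by
  rcases h with rfl | ⟨c', rfl⟩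
  · cases b
    · change 1 ≤ 2 * 2
      norm_num
    · change 2 ≤ 2 * 1
      norm_num
  · obtain ⟨h1, h2, -, h3, h4, -⟩ := good_tn c'
    cases b
    · change (tn c').1 ≤ 2 * (tn c').2.2
      omega
    · change (tn c').2.1 ≤ 2 * (tn c').2.2
      omega

theorem base_nm {c0 : List Bool} {b : Bool} (h : c0 = [] ∨ ∃ c', c0 = (!b) :: c') :
    nm (wv c0 b 0) ≤ nm (hv c0 b) := by
  rcases h with rfl | ⟨c', rfl⟩
  · cases b
    · change nm (g1 []) ≤ nm (g2 [])
      rw [nm_g1, nm_g2]
      exact le_of_eq rfl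
    · change nm (g2 []) ≤ nm (g1 [])
      rw [nm_g1, nm_g2]
      exact le_of_eq rfl
  · cases b
    · change nm (g1 (true :: c')) ≤ nm (g2 (true :: c'))
      rw [nm_g1, nm_g2, m1_true, m2_true]
      unfold ss
      exact_mod_cast Nat.le_add_right _ _
    · change nm (g2 (false :: c')) ≤ nm (g1 (false :: c'))
      rw [nm_g1, nm_g2, m1_false, m2_false]
      unfold ss
      exact_mod_cast Nat.le_add_left _ _

end Pool.Agent.Lib.MP_94ab62_ntZ
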