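import Pool.Agent.Lib.MP_94ab62_ntZ.LvC
import Pool.Agent.Lib.MP_94ab62_ntZ.RaB

/-!
# LvD: two degenerate leaves diverge late; leaves below a node

* `dg_div`: let `w1`, `w2` be the vectors of `P1`, `P2` (from `Dg`), `det w1 w2 = 0` (`dg_par`), so `|LL P2 w1| ≤ 3R³ * (R^30 e^(-2k))` (`small_par`), and `|LL P1 w1| ≤ R^30 e^(-2k)`.  `R^30 e^(-2k) < 7/10`
  (`e^(-2k) ≤ R^(-200)`), so `mixed`: `w1` or `-w1` satisfies `0 < .1`, `.2 < 0`; call it `w` (same bounds).  `gap` at `c` (for `b = true` with `X = P1`, `Y = P2`, for `b = false` exchanged) and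
  `1 ≤ det w (uu c)` (`mixed_det`): `2/3 ee c ≤ |LL P1 w| + |LL P2 w| ≤ 4 R^33 e^(-2k)`.  `ee_low`: `9/10 e^(-2 ll c) ≤ ee c`; so `e^(-2 ll c) ≤ 7 R^33 e^(-2k) ≤ R^34 e^(-2k)`, take logarithms
  (`R^34 = e^(34 log R)`).
* `lv_app`: `Lf k P`, `P <:+ p`, `ss p ≤ R`: `|ll p - LL P (uu p)| ≤ 24 R² e^(-2k)`: `ll_app`, `ww P = ee P * ss P ≤ 8 e^(-2k) R` (`ee_Lf`).
* `mx_card`: `mx x < K` implies `ss x ≤ 20/9 mx x < 3K` (`ss_mx`): subset of `{q | ss q < 3K}` (`fin_ss`, `ss_lt_card (3*K)`: `≤ (3K)² = 9K²`).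
* `Lf_card`: the set is contained in the image of `{true,false} × {c | mx c < k}` under `(b,c) ↦ b :: c`.
* `first_node`: shortest suffix with `t ≤ ll`: induction on `p`: `p = b :: p'`: if `t ≤ ll p'` use the induction hypothesis for `p'` (a suffix `c` of `b :: p'` is `b :: p'` or a suffix of `p'`,
  `List.suffix_cons_iff`); else take `cs = b :: p'` (a suffix `c` of `p'` has `ll c ≤ ll p' < t`: `ll_suffix`).
* `below_ray`: if `c = cs`: `n = 0` (`cn_zero`).  Otherwise `(b :: cs) <:+ c` for some `b`, i.e. `cn cs b 1 <:+ c` (`cn_succ`, `cn_zero`), `ray_cases'`: `c = cn cs b n`, done, or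
  `en cs b n <:+ c` with `1 ≤ n`: `kap (en cs b n) = F (zw cs b n) = ll (cn cs b (n-1)) ≥ ll cs` (`kap_en`, `ll_cn`, `ll_suffix`, `cn_suffix`), `mx (en cs b n) = ll (cn cs b n) ≥ ll cs` (`mx_cons`), so by
  `ll_mx_kap`  `ll c ≥ ll (en cs b n) ≥ 2 ll cs - 1/20 ≥ 2(k - Λ) - 1/20 ≥ k`: contradiction with `ll c < k`.
* `ball`: `c = cn cs b n` with `ll (cn cs b n) ≥ ll cs + (88/100) n` (`ll_cons`, `kap_ge`: `kap ≥ 9/10`, `kap - 1/80 ≥ 88/100`), so `(88/100) n < Λ`, `n < 2Λ + 1`: image of `{true,false} × range (2Λ+1)`.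
* `ball_leaves`: `Lf k P`, `cs <:+ P`: `P = cs` or `P = b :: c`, `cs <:+ c`, `mx c < k`; then `c = cs` or `c = b' :: c1`, `cs <:+ c1`, `ll c1 = mx c < k` (`ball`).
  Number `≤ 1 + 2 (1 + 2 (4Λ+2)) = 16 Λ + 11`.
-/

set_option autoImplicit false

namespace Pool.Agent.Lib.MP_94ab62_ntZ

open Pool.Agent.Lib.MP_94ab62_nt Pool.Agent.Lib.MP_94ab62_ntU

theorem lvd_gap {P1 P2 c : List Bool} {b : Bool} {w : ℤ × ℤ} {B : ℝ} (h1 : 0 < w.1) (h2 : w.2 < 0)
    (l1 : |LL P1 w| ≤ B) (l2 : |LL P2 w| ≤ B) (c1 : (b :: c) <:+ P1) (c2 : ((!b) :: c) <:+ P2) :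
    ee c ≤ 3 * B := by
  obtain ⟨d1, d2, d3⟩ := mixed_det (c := c) h1 h2
  have d4 : (1 : ℝ) ≤ (det w (uu c) : ℝ) := by exact_mod_cast d3
  have he := ee_pos c
  have h5 : 2 / 3 * ee c * 1 ≤ 2 / 3 * ee c * (det w (uu c) : ℝ) := mul_le_mul_of_nonneg_left d4 (by linarith)
  have l3 := abs_le.1 l1
  have l4 := abs_le.1 l2
  cases b
  · have h6 := gap c2 c1 d1 d2
    linarith [l3.1, l3.2, l4.1, l4.2]
  · have h6 := gap c1 c2 d1 d2
    linarith [l3.1, l3.2, l4.1, l4.2]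

theorem dg_div {R : ℕ} {k0 k : ℝ} (hR : 100 ≤ R) (hk0 : 2 ≤ k0) (h0 : (R : ℝ) ^ 100 ≤ Real.exp k0) (hk : k0 ≤ k)
    {P1 P2 c : List Bool} {b : Bool} (h1 : P1 ∈ DL R k) (h2 : P2 ∈ DL R k) (h12 : ct k0 P1 = ct k0 P2)
    (c1 : (b :: c) <:+ P1) (c2 : ((!b) :: c) <:+ P2) : k - 17 * Real.log R ≤ ll c := by
  have hR' : (100 : ℝ) ≤ R := by exact_mod_cast hR
  have hR0 : (0 : ℝ) < R := by linarith
  obtain ⟨-, -, w1, hw0, hw1, hw2⟩ := id h1
  obtain ⟨-, -, w2, hv0, hv1, hv2⟩ := id h2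
  have hdet := dg_par hR hk0 h0 hk h1 h2 h12 hw1 hv1 hw2 hv2
  have hp2 := small_par hw0 hv0 hdet hw1 hv2
  set B : ℝ := 3 * (R : ℝ) ^ 3 * ((R : ℝ) ^ 30 * Real.exp (-(2 * k))) with hB
  have hR3 : (1 : ℝ) ≤ 3 * (R : ℝ) ^ 3 := by
    have h3 : (1 : ℝ) ≤ (R : ℝ) ^ 3 := one_le_pow₀ (by linarith)
    linarith
  have hE : 0 ≤ (R : ℝ) ^ 30 * Real.exp (-(2 * k)) := by positivity
  have hp1 : |LL P1 w1| ≤ B := hw2.trans (le_mul_of_one_le_left hE hR3)
  have he : Real.exp (-(2 * k)) ≤ ((R : ℝ) ^ 200)⁻¹ := by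
    rw [Real.exp_neg]
    refine inv_anti₀ (by positivity) ?_
    have h5 : (R : ℝ) ^ 100 ≤ Real.exp k := h0.trans (Real.exp_le_exp.2 hk)
    rw [show (2 : ℝ) * k = k + k by ring, Real.exp_add]
    calc (R : ℝ) ^ 200 = (R : ℝ) ^ 100 * (R : ℝ) ^ 100 := by ring
      _ ≤ Real.exp k * Real.exp k := mul_le_mul h5 h5 (by positivity) (Real.exp_pos _).le
  have hs : |LL P1 w1| < 7 / 10 := by
    refine lt_of_le_of_lt hp1 ?_
    have h6 : B ≤ 3 * (R : ℝ) ^ 3 * ((R : ℝ) ^ 30 * ((R : ℝ) ^ 200)⁻¹) := by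
      rw [hB]
      gcongr
    refine lt_of_le_of_lt h6 ?_
    have h7 : 3 * (R : ℝ) ^ 3 * ((R : ℝ) ^ 30 * ((R : ℝ) ^ 200)⁻¹) = 3 * ((R : ℝ) ^ 167)⁻¹ := by
      rw [show (R : ℝ) ^ 200 = (R : ℝ) ^ 33 * (R : ℝ) ^ 167 by ring, mul_inv]
      field_simp
    rw [h7]
    have h14 : (100 : ℝ) ≤ (R : ℝ) ^ 167 := hR'.trans (le_self_pow₀ (by linarith) (by norm_num))
    have h15 : ((R : ℝ) ^ 167)⁻¹ ≤ (100 : ℝ)⁻¹ := inv_anti₀ (by norm_num) h14
    norm_num at h15 ⊢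
    linarith
  have key : ee c ≤ 3 * B := by
    rcases mixed hw0 hs with ⟨m1, m2⟩ | ⟨m1, m2⟩
    · exact lvd_gap m1 m2 hp1 hp2 c1 c2
    · have e1 : ((-1 : ℤ) • w1).1 = -w1.1 := by simp
      have e2 : ((-1 : ℤ) • w1).2 = -w1.2 := by simp
      have e3 : ∀ P, |LL P ((-1 : ℤ) • w1)| = |LL P w1| := by
        intro P
        rw [LL_smul]
        push_cast
        rw [neg_one_mul, abs_neg]
      exact lvd_gap (w := (-1 : ℤ) • w1) (by rw [e1]; linarith) (by rw [e2]; linarith) (by rw [e3]; exact hp1)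
        (by rw [e3]; exact hp2) c1 c2
  have hl := ee_low c
  have h9 : Real.exp (-(2 * ll c)) ≤ (R : ℝ) ^ 34 * Real.exp (-(2 * k)) := by
    have h10 : Real.exp (-(2 * ll c)) ≤ 10 * ((R : ℝ) ^ 33 * Real.exp (-(2 * k))) := by
      have h11 : B = 3 * ((R : ℝ) ^ 33 * Real.exp (-(2 * k))) := by
        rw [hB]
        ring
      rw [h11] at key
      linarith
    have h12 : 10 * ((R : ℝ) ^ 33 * Real.exp (-(2 * k))) ≤ R * ((R : ℝ) ^ 33 * Real.exp (-(2 * k))) :=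
      mul_le_mul_of_nonneg_right (by linarith) (by positivity)
    refine h10.trans (h12.trans (le_of_eq ?_))
    ring
  have h13 := Real.log_le_log (Real.exp_pos _) h9
  rw [Real.log_exp, Real.log_mul (by positivity) (Real.exp_pos _).ne', Real.log_exp, Real.log_pow] at h13
  push_cast at h13
  linarith

theorem lv_app {R : ℕ} {k : ℝ} {P p : List Bool} (hP : Lf k P) (h : P <:+ p) (hs : ss p ≤ R) :
    |ll p - LL P (uu p)| ≤ 24 * (R : ℝ) ^ 2 * Real.exp (-(2 * k)) := by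
  have h1 := ll_app h
  have h2 := lvc_ww hP ((ss_suffix h).trans hs)
  have h3 : (ss p : ℝ) ≤ R := by exact_mod_cast hs
  refine h1.trans ?_
  calc 3 * ww P * ss p ≤ 3 * (8 * R * Real.exp (-(2 * k))) * R := by
        refine mul_le_mul (mul_le_mul_of_nonneg_left h2 (by norm_num)) h3 (Nat.cast_nonneg _) (by positivity)
    _ = _ := by ring

theorem mx_card (K : ℕ) : {x : List Bool | mx x < K}.Finite ∧ {x : List Bool | mx x < K}.ncard ≤ 9 * K ^ 2 := by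
  have hsub : {x : List Bool | mx x < K} ⊆ {x : List Bool | ss x < 3 * K} := by
    intro x hx
    have h1 : mx x < K := hx
    have h2 := ss_mx x
    have h4 : 0 ≤ mx x := by linarith [kap_ge x, kap_le_mx x]
    have h3 : (ss x : ℝ) < 3 * K := by linarith
    show ss x < 3 * K
    exact_mod_cast h3
  have hfin : {x : List Bool | ss x < 3 * K}.Finite :=
    (fin_ss (3 * K)).subset fun x hx => le_of_lt (show ss x < 3 * K from hx)
  refine ⟨hfin.subset hsub, ?_⟩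
  refine (Set.ncard_le_ncard hsub hfin).trans ((ss_lt_card (3 * K)).trans (le_of_eq ?_))
  ring

theorem lvd_pair {A S : Set (List Bool)} {N : ℕ} (hf : A.Finite) (hN : A.ncard ≤ N)
    (hS : ∀ P ∈ S, ∃ b c, P = b :: c ∧ c ∈ A) : S.Finite ∧ S.ncard ≤ 2 * N := by
  have hsub : S ⊆ (fun z : Bool × List Bool => z.1 :: z.2) '' ((Set.univ : Set Bool) ×ˢ A) := by
    intro P hP
    obtain ⟨b, c, rfl, hc⟩ := hS P hP
    exact ⟨(b, c), ⟨Set.mem_univ _, hc⟩, rfl⟩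
  have hfp : ((Set.univ : Set Bool) ×ˢ A).Finite := Set.finite_univ.prod hf
  refine ⟨(hfp.image _).subset hsub, ?_⟩
  refine (Set.ncard_le_ncard hsub (hfp.image _)).trans ((Set.ncard_image_le hfp).trans ?_)
  rw [Set.ncard_prod, Set.ncard_univ, Nat.card_eq_fintype_card, Fintype.card_bool]
  exact Nat.mul_le_mul_left 2 hN

theorem Lf_card (k : ℕ) : {P : List Bool | Lf k P}.Finite ∧ {P : List Bool | Lf k P}.ncard ≤ 18 * k ^ 2 := by
  obtain ⟨h1, h2⟩ := mx_card k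
  have h3 := lvd_pair (S := {P : List Bool | Lf k P}) h1 h2 (fun P hP => by
    obtain ⟨b, c, rfl, h4, -⟩ := hP
    exact ⟨b, c, rfl, h4⟩)
  exact ⟨h3.1, by linarith [h3.2]⟩

theorem first_node {t : ℝ} {p : List Bool} (h : t ≤ ll p) :
    ∃ cs, cs <:+ p ∧ t ≤ ll cs ∧ ∀ c, c <:+ p → t ≤ ll c → cs <:+ c := by
  induction p with
  | nil =>
    refine ⟨[], List.suffix_refl _, h, fun c _ _ => List.nil_suffix⟩
  | cons b p ih =>
    by_cases h1 : t ≤ ll p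
    · obtain ⟨cs, a1, a2, a3⟩ := ih h1
      refine ⟨cs, a1.trans (List.suffix_cons _ _), a2, fun c hc ht => ?_⟩
      rcases List.suffix_cons_iff.1 hc with h2 | h2
      · rw [h2]
        exact a1.trans (List.suffix_cons _ _)
      · exact a3 c h2 ht
    · refine ⟨b :: p, List.suffix_refl _, h, fun c hc ht => ?_⟩
      rcases List.suffix_cons_iff.1 hc with h2 | h2
      · rw [h2]
      · exact absurd (ht.trans (ll_suffix h2)) h1

theorem below_ray {k Λ : ℕ} (hk : 3 * Λ + 2 ≤ k) (hΛ : 1 ≤ Λ) {cs c : List Bool} (hs : (k : ℝ) - Λ ≤ ll cs)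
    (h : cs <:+ c) (hc : ll c < k) : ∃ (b : Bool) (n : ℕ), c = cn cs b n := by
  have hk' : 3 * (Λ : ℝ) + 2 ≤ k := by exact_mod_cast hk
  have bad : ∀ (b : Bool) (n : ℕ), 1 ≤ n → en cs b n <:+ c → False := by
    intro b n hn hen
    obtain ⟨m, rfl⟩ : ∃ m, n = m + 1 := ⟨n - 1, by omega⟩
    have h1 : kap (en cs b (m + 1)) = ll (cn cs b m) := by rw [kap_en, ll_cn]
    have h2 : mx (en cs b (m + 1)) = ll (cn cs b (m + 1)) := mx_cons _ _
    have h3 : ll cs ≤ ll (cn cs b m) := ll_suffix (cn_suffix cs b (Nat.zero_le m))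
    have h4 : ll cs ≤ ll (cn cs b (m + 1)) := ll_suffix (cn_suffix cs b (Nat.zero_le _))
    have h5 := (ll_mx_kap (en cs b (m + 1))).1
    have h6 := ll_suffix hen
    linarith
  rcases ray_cases true h with ⟨n, hn⟩ | ⟨n, hn⟩
  · exact ⟨true, n, hn⟩
  · rcases Nat.eq_zero_or_pos n with h0 | h0
    · subst h0
      have h1 : cn cs false 1 <:+ c := hn
      rcases ray_cases' h1 with ⟨m, -, hm⟩ | ⟨m, hm0, hm⟩
      · exact ⟨false, m, hm⟩
      · exact (bad false m hm0 hm).elim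
    · exact (bad true n h0 hn).elim

theorem ball {k Λ : ℕ} (hk : 3 * Λ + 2 ≤ k) (hΛ : 1 ≤ Λ) {cs : List Bool} (hs : (k : ℝ) - Λ ≤ ll cs) :
    {c | cs <:+ c ∧ ll c < k}.Finite ∧ {c | cs <:+ c ∧ ll c < k}.ncard ≤ 4 * Λ + 2 := by
  have hgrow : ∀ (b : Bool) (n : ℕ), ll cs + 88 / 100 * n ≤ ll (cn cs b n) := by
    intro b n
    induction n with
    | zero =>
      rw [cn_zero]
      simp
    | succ n ih =>
      have h1 := ll_cons b (cn cs b n)
      have h2 := kap_ge (cn cs b n)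
      rw [cn_succ]
      push_cast
      linarith
  have hsub : {c | cs <:+ c ∧ ll c < k} ⊆ (fun z : Bool × ℕ => cn cs z.1 z.2) ''
      (((Finset.univ : Finset Bool) ×ˢ Finset.range (2 * Λ + 1) : Finset (Bool × ℕ)) : Set (Bool × ℕ)) := by
    rintro c ⟨h1, h2⟩
    obtain ⟨b, n, rfl⟩ := below_ray hk hΛ hs h1 h2
    refine ⟨(b, n), ?_, rfl⟩
    rw [Finset.mem_coe, Finset.mem_product, Finset.mem_range]
    refine ⟨Finset.mem_univ _, ?_⟩
    have h3 := hgrow b n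
    have h4 : (n : ℝ) < 2 * Λ + 1 := by
      have h5 : (0 : ℝ) ≤ Λ := Nat.cast_nonneg _
      linarith
    show n < 2 * Λ + 1
    exact_mod_cast h4
  have hfin : ((fun z : Bool × ℕ => cn cs z.1 z.2) ''
      (((Finset.univ : Finset Bool) ×ˢ Finset.range (2 * Λ + 1) : Finset (Bool × ℕ)) : Set (Bool × ℕ))).Finite :=
    (Finset.finite_toSet _).image _
  refine ⟨hfin.subset hsub, ?_⟩
  refine (Set.ncard_le_ncard hsub hfin).trans ((Set.ncard_image_le (Finset.finite_toSet _)).trans ?_)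
  rw [Set.ncard_coe_finset, Finset.card_product, Finset.card_range, Finset.card_univ, Fintype.card_bool]
  linarith

theorem ball_leaves {k Λ : ℕ} (hk : 3 * Λ + 2 ≤ k) (hΛ : 1 ≤ Λ) {cs : List Bool} (hs : (k : ℝ) - Λ ≤ ll cs) :
    {P | Lf k P ∧ cs <:+ P}.Finite ∧ {P | Lf k P ∧ cs <:+ P}.ncard ≤ 16 * Λ + 11 := by
  obtain ⟨b1, b2⟩ := ball hk hΛ hs
  have step : ∀ {A : Set (List Bool)} {N : ℕ}, A.Finite → A.ncard ≤ N →
      ({cs} ∪ (fun z : Bool × List Bool => z.1 :: z.2) '' ((Set.univ : Set Bool) ×ˢ A)).Finite ∧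
      ({cs} ∪ (fun z : Bool × List Bool => z.1 :: z.2) '' ((Set.univ : Set Bool) ×ˢ A)).ncard ≤ 1 + 2 * N := by
    intro A N hf hN
    have hfp : ((Set.univ : Set Bool) ×ˢ A).Finite := Set.finite_univ.prod hf
    refine ⟨(Set.finite_singleton _).union (hfp.image _), ?_⟩
    refine (Set.ncard_union_le _ _).trans ?_
    rw [Set.ncard_singleton]
    refine Nat.add_le_add_left ((Set.ncard_image_le hfp).trans ?_) 1
    rw [Set.ncard_prod, Set.ncard_univ, Nat.card_eq_fintype_card, Fintype.card_bool]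
    exact Nat.mul_le_mul_left 2 hN
  obtain ⟨s1, s2⟩ := step b1 b2
  obtain ⟨t1, t2⟩ := step s1 s2
  have hsub : {P | Lf k P ∧ cs <:+ P} ⊆ {cs} ∪ (fun z : Bool × List Bool => z.1 :: z.2) ''
      ((Set.univ : Set Bool) ×ˢ ({cs} ∪ (fun z : Bool × List Bool => z.1 :: z.2) ''
        ((Set.univ : Set Bool) ×ˢ {c | cs <:+ c ∧ ll c < k}))) := by
    rintro P ⟨⟨b, c, rfl, h1, h2⟩, h3⟩
    rcases List.suffix_cons_iff.1 h3 with h4 | h4
    · exact Or.inl h4.symm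
    · refine Or.inr ⟨(b, c), ⟨Set.mem_univ _, ?_⟩, rfl⟩
      rcases c with _ | ⟨b', c1⟩
      · left
        exact (List.suffix_nil.1 h4).symm
      · rcases List.suffix_cons_iff.1 h4 with h5 | h5
        · exact Or.inl h5.symm
        · refine Or.inr ⟨(b', c1), ⟨Set.mem_univ _, h5, ?_⟩, rfl⟩
          rw [mx_cons] at h1
          exact h1
  refine ⟨t1.subset hsub, (Set.ncard_le_ncard hsub t1).trans (t2.trans (le_of_eq ?_))⟩
  ring

end Pool.Agent.Lib.MP_94ab62_ntZ
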