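import Pool.Agent.Lib.MP_94ab62_ntZ.LvD

/-!
# LvE: number of degenerate leaves

`DL R k = {P | Lf k P ∧ ss P ≤ R ∧ Dg R k P}`, `DP R k = {P | Lf (k+1) P ∧ ss P ≤ R ∧ ct k P ∈ DL R k}`.
* `dl_fin`, `dp_fin`: subsets of `{q | ss q ≤ R}` (`fin_ss`).
* `dg_fiber`: if the fibre is not empty take `P1` in it and `cs` from `first_node` for `t = k - Λ` (`k - Λ ≤ k ≤ mx P1 < ll P1`).  Every `P` of the fibre is below `cs`: `P = P1` clear; otherwise `P`, `P1` are incomparable
  (`Lf_incomp`), `diverge` gives `c`, and `k - Λ ≤ k - 17 log R ≤ ll c` (`dg_div`), `c <:+ P1`, so `cs <:+ c <:+ P`.  `ball_leaves`.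
* `dg_card`: `fibre_le` (CutU) with the map `ct k0 : DL R k → {P | Lf k0 P}` (`ct_mem`: `k0 ≤ k ≤ mx P`), `Lf_card`.
* `step_mid`: `Lf k P`, `P <:+ x`, `mx x < k + 1`: `x = P` or `x = b :: c1` with `P <:+ c1`, `ll c1 = mx x < k+1` (`mx_cons`); if `c1 ≠ P` then `(b' :: P) <:+ c1`, `ll c1 ≥ ll P + kap P - 1/80` (`ll_desc`) and
  `ll P ≥ mx P + kap P - 1/20` (`ll_mx_kap`), `kap P ≥ 9/10`, `mx P ≥ k`: `ll c1 ≥ k + 1.7`: contradiction.  So `x = b :: P`.
* `dp_card`: `Lf (k+1) P`, `P' = ct k P <:+ P` (`Lf k P'`): `P = P'` or `P = b :: c`, `P' <:+ c`, `mx c < k+1`, `step_mid` for `c`: `c = P'` or `c = b' :: P'`.  So for each `P' ∈ DL R k` at most 7 nodes `P`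
  (`P', b :: P', b :: b' :: P'`); `fibre_le` with the map `ct k`.
* `md_card`: `x` with `k ≤ mx x < k+1`, `ct k x ∈ DL R k`: `step_mid`: at most 3 nodes for each element of `DL R k`.
-/

set_option autoImplicit false

namespace Pool.Agent.Lib.MP_94ab62_ntZ

open Pool.Agent.Lib.MP_94ab62_nt Pool.Agent.Lib.MP_94ab62_ntU

theorem dl_fin (R : ℕ) (k : ℝ) : (DL R k).Finite :=
  (fin_ss R).subset fun _ h => h.2.1

theorem dp_fin (R : ℕ) (k : ℝ) : (DP R k).Finite :=
  (fin_ss R).subset fun _ h => h.2.1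

theorem dg_fiber {R k0 k Λ : ℕ} (hR : 100 ≤ R) (h0 : (R : ℝ) ^ 100 ≤ Real.exp (k0 : ℝ)) (hk : k0 ≤ k)
    (hΛ : 17 * Real.log R ≤ Λ) (hΛk : 3 * Λ + 2 ≤ k0) (P0 : List Bool) :
    {P | P ∈ DL R k ∧ ct k0 P = P0}.ncard ≤ 16 * Λ + 11 := by
  have hRr : (100 : ℝ) ≤ R := by exact_mod_cast hR
  have hlog : 0 < Real.log R := Real.log_pos (by linarith)
  have hΛ0 : (0 : ℝ) < Λ := by linarith
  have hΛ1 : 1 ≤ Λ := by
    have : 0 < Λ := by exact_mod_cast hΛ0
    omega
  have hk0 : (2 : ℝ) ≤ k0 := by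
    have : 2 ≤ k0 := by omega
    exact_mod_cast this
  have hkr : (k0 : ℝ) ≤ k := by exact_mod_cast hk
  rcases Set.eq_empty_or_nonempty {P | P ∈ DL R k ∧ ct k0 P = P0} with he | ⟨P1, hP1⟩
  · rw [he, Set.ncard_empty]
    omega
  · obtain ⟨h1, h1'⟩ := hP1
    have hL1 : Lf k P1 := h1.1
    have hm1 := Lf_mx hL1
    have hm2 := mx_lt_ll P1
    obtain ⟨cs, hcs, hcl, hcc⟩ := first_node (t := (k : ℝ) - Λ) (p := P1) (by linarith)
    obtain ⟨hfin, hcard⟩ := ball_leaves (k := k) (Λ := Λ) (by omega) hΛ1 hcl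
    refine (Set.ncard_le_ncard ?_ hfin).trans hcard
    rintro P ⟨h2, h2'⟩
    have hL2 : Lf k P := h2.1
    refine ⟨hL2, ?_⟩
    by_cases hPP : P1 = P
    · rw [← hPP]
      exact hcs
    · have hn1 : ¬ P1 <:+ P := fun h => hPP (Lf_incomp hL1 hL2 h)
      have hn2 : ¬ P <:+ P1 := fun h => hPP (Lf_incomp hL2 hL1 h).symm
      obtain ⟨c, b, hb1, hb2⟩ := diverge hn1 hn2
      have hd := dg_div (R := R) (k0 := (k0 : ℝ)) (k := (k : ℝ)) hR hk0 h0 hkr h1 h2
        (h1'.trans h2'.symm) hb1 hb2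
      have hc1 : c <:+ P1 := (List.suffix_cons b c).trans hb1
      have hc2 : c <:+ P := (List.suffix_cons (!b) c).trans hb2
      exact (hcc c hc1 (by linarith)).trans hc2

theorem dg_card {R k0 k Λ : ℕ} (hR : 100 ≤ R) (h0 : (R : ℝ) ^ 100 ≤ Real.exp (k0 : ℝ)) (hk : k0 ≤ k)
    (hΛ : 17 * Real.log R ≤ Λ) (hΛk : 3 * Λ + 2 ≤ k0) : (DL R k).ncard ≤ 18 * k0 ^ 2 * (16 * Λ + 11) := by
  have hk0 : (2 : ℝ) ≤ k0 := by
    have : 2 ≤ k0 := by omega
    exact_mod_cast this
  have hkr : (k0 : ℝ) ≤ k := by exact_mod_cast hk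
  have h1 := fibre_le (S := DL R k) (T := {P | Lf k0 P}) (ct k0) (dl_fin R k) (Lf_card k0).1
    (fun x hx => ct_mem hk0 (hkr.trans (Lf_mx hx.1))) (B := 16 * Λ + 11)
    (fun t _ => dg_fiber hR h0 hk hΛ hΛk t)
  exact h1.trans (Nat.mul_le_mul_right _ (Lf_card k0).2)

theorem step_mid {k : ℝ} {P x : List Bool} (hP : Lf k P) (h : P <:+ x) (hx : mx x < k + 1) :
    x = P ∨ ∃ b, x = b :: P := by
  cases x with
  | nil => exact Or.inl (List.suffix_nil.1 h).symm
  | cons b c1 =>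
    rcases List.suffix_cons_iff.1 h with h1 | h1
    · exact Or.inl h1.symm
    · right
      refine ⟨b, ?_⟩
      by_cases hc : c1 = P
      · rw [hc]
      · exfalso
        rw [mx_cons] at hx
        obtain ⟨l, rfl⟩ := h1
        rcases List.eq_nil_or_concat l with hl | ⟨l', b', hl⟩
        · exact hc (by rw [hl, List.nil_append])
        · have h2 : (b' :: P) <:+ (l ++ P) := by
            refine ⟨l', ?_⟩
            rw [hl, List.concat_eq_append, List.append_assoc]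
            rfl
          have h3 := ll_desc h2
          have h4 := (ll_mx_kap P).1
          have h5 := kap_ge P
          have h6 := Lf_mx hP
          linarith

private theorem lve_ext {D : Set (List Bool)} (hD : D.Finite) :
    (D ∪ (List.cons true '' D ∪ List.cons false '' D)).Finite ∧
      (D ∪ (List.cons true '' D ∪ List.cons false '' D)).ncard ≤ 3 * D.ncard := by
  refine ⟨hD.union ((hD.image _).union (hD.image _)), ?_⟩
  have h1 := Set.ncard_union_le D (List.cons true '' D ∪ List.cons false '' D)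
  have h2 := Set.ncard_union_le (List.cons true '' D) (List.cons false '' D)
  have h3 := Set.ncard_image_le (f := List.cons true) hD
  have h4 := Set.ncard_image_le (f := List.cons false) hD
  omega

private theorem lve_mem {D : Set (List Bool)} {x P : List Bool} (hP : P ∈ D)
    (h : x = P ∨ ∃ b, x = b :: P) : x ∈ D ∪ (List.cons true '' D ∪ List.cons false '' D) := by
  rcases h with rfl | ⟨b, rfl⟩
  · exact Or.inl hP
  · cases b
    · exact Or.inr (Or.inr ⟨P, hP, rfl⟩)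
    · exact Or.inr (Or.inl ⟨P, hP, rfl⟩)

theorem dp_card {R k : ℕ} (hk : 2 ≤ k) : (DP R k).ncard ≤ 7 * (DL R k).ncard := by
  have hD := dl_fin R (k : ℝ)
  obtain ⟨hE, hEc⟩ := lve_ext hD
  have hsub : DP R k ⊆ DL R k ∪
      (List.cons true '' (DL R k ∪ (List.cons true '' DL R k ∪ List.cons false '' DL R k)) ∪
        List.cons false '' (DL R k ∪ (List.cons true '' DL R k ∪ List.cons false '' DL R k))) := by
    rintro P ⟨⟨b, c, rfl, h1, h2⟩, h3, h4⟩
    have hs := ct_suffix (k : ℝ) (b :: c)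
    rcases List.suffix_cons_iff.1 hs with h5 | h5
    · left
      rw [← h5]
      exact h4
    · right
      have h6 := lve_mem h4 (step_mid h4.1 h5 h1)
      cases b
      · exact Or.inr ⟨c, h6, rfl⟩
      · exact Or.inl ⟨c, h6, rfl⟩
  have h0 := Set.ncard_le_ncard hsub (hD.union ((hE.image _).union (hE.image _)))
  have h1 := Set.ncard_union_le (DL R k)
    (List.cons true '' (DL R k ∪ (List.cons true '' DL R k ∪ List.cons false '' DL R k)) ∪
      List.cons false '' (DL R k ∪ (List.cons true '' DL R k ∪ List.cons false '' DL R k)))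
  have h2 := Set.ncard_union_le
    (List.cons true '' (DL R k ∪ (List.cons true '' DL R k ∪ List.cons false '' DL R k)))
    (List.cons false '' (DL R k ∪ (List.cons true '' DL R k ∪ List.cons false '' DL R k)))
  have h3 := Set.ncard_image_le (f := List.cons true) hE
  have h4 := Set.ncard_image_le (f := List.cons false) hE
  omega

theorem md_card {R k : ℕ} (hk : 2 ≤ k) :
    {x : List Bool | (k : ℝ) ≤ mx x ∧ mx x < k + 1 ∧ ct k x ∈ DL R k}.Finite ∧
      {x : List Bool | (k : ℝ) ≤ mx x ∧ mx x < k + 1 ∧ ct k x ∈ DL R k}.ncard ≤ 3 * (DL R k).ncard := by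
  have hk2 : (2 : ℝ) ≤ k := by exact_mod_cast hk
  obtain ⟨hE, hEc⟩ := lve_ext (dl_fin R (k : ℝ))
  have hsub : {x : List Bool | (k : ℝ) ≤ mx x ∧ mx x < k + 1 ∧ ct k x ∈ DL R k} ⊆
      DL R k ∪ (List.cons true '' DL R k ∪ List.cons false '' DL R k) := by
    rintro x ⟨h1, h2, h3⟩
    exact lve_mem h3 (step_mid (ct_mem hk2 h1) (ct_suffix _ _) h2)
  exact ⟨hE.subset hsub, (Set.ncard_le_ncard hsub hE).trans hEc⟩

end Pool.Agent.Lib.MP_94ab62_ntZ
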