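import Pool.Agent.Lib.MP_94ab62_ntZ.LvE

/-!
# LvF: the sum of `1/kap` over the exit leaves

* `thin_ray`: `Q = ct t P`, `b = sd Q`: `b = true` iff `fa (tn Q) < fb (tn Q)`.  `ray_cases b (ct_suffix t P)`: `P = cn Q b n`, done, or `en Q b n <:+ P`: then `kap P ≥ kap (en Q b n) = F (zw Q b n) ≥ F (zw Q b 0)`
  (`kap_suffix`, `kap_en`, `F_le` and `(rs_ray Q b).lt`), and `F (zw Q b 0) = mx Q` (`zw Q true 0 = (tn Q).2.1`: `fb`; `zw Q false 0 = (tn Q).1`: `fa`; the other edge is the longer one; `cn_zero`), `mx Q ≥ t` (`ct_mem`, `Lf_mx`):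
  contradiction with `kap P < t`.
* `thin_inj`: (both `P`, `P'` on the ray of the same `Q`.)  If `k = k'`: `P`, `P'` are comparable (`cn_suffix`), `Lf_incomp`.  Let `k < k'` (the other case is symmetric).
  `ct k' P' ∈ DL R k'` (from `DP`), `k' = (k+1) + i`, `dg_down`: `ct (k+1) (ct k' P') ∈ DL R (k+1)`, and `ct (k+1) (ct k' P') = ct (k+1) P'` (`ct_ct`, `k' ≤ k'+1 ≤ mx P'`).  `P <:+ P'`: otherwise (`cn_suffix`) `P' <:+ P`, `P' ≠ P`,
  `P = b :: p0` with `mx p0 < k+1`, so `P' <:+ p0`, `k'+1 ≤ mx P' ≤ mx p0 < k+1`: contradiction.  So `ct (k+1) P' = P` (`ct_of`), `P ∈ DL R (k+1)`: contradiction.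
* `harm`: `∑_{k=a}^{b} 1/k ≤ 1 + log b` (`harmonic_le_one_add_log`).
* `sum_E`: split `𝓔` in thick (`k + 1 ≤ 4 kap P`) and thin.  Thick: `1/kap P ≤ 4/(k+1)`; for fixed `k` at most `#DP R k ≤ 7 d` elements (`dp_card`): `∑ ≤ 28 d (1 + log L)`.
  Thin: `t = ⌊kap P⌋₊ + 2 : ℕ`, `kap P < t ≤ kap P + 2 ≤ 4 kap P` (`kap ≥ 9/10`), so `1/kap P ≤ 4/t`; `t ≤ kap P + 2 < (k+1)/4 + 2 ≤ k` (k ≥ 3), `t ≤ k + 1 ≤ mx P`.  The map `(k,P) ↦ (t, ct t P)` is injective on the thin part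
  (`thin_inj`; `t` is determined, `thin_ray`).  `Q = ct t P`: `Lf t Q` (`ct_mem`, `t ≥ 2`), and if `t ≥ k0`: `Q = ct t (ct k P) ∈ DL R t` (`dg_down`, `ct_ct`).
  So `∑ ≤ ∑_{t=2}^{k0-1} (4/t) 18 t² + ∑_{t=k0}^{L} (4/t) d ≤ 36 k0² + 4 d (1 + log L)` (`Lf_card`).
-/

set_option autoImplicit false

namespace Pool.Agent.Lib.MP_94ab62_ntZ

open Pool.Agent.Lib.MP_94ab62_nt Pool.Agent.Lib.MP_94ab62_ntU

open Classical in
/-- the side of the shorter edge (`true` keeps `g1`) -/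
noncomputable def sd (Q : List Bool) : Bool := if fa (tn Q) < fb (tn Q) then true else false

theorem lvf_mx (Q : List Bool) : F (zw Q (sd Q) 0) = mx Q := by
  unfold sd mx
  by_cases h : fa (tn Q) < fb (tn Q)
  · rw [if_pos h, max_eq_right h.le]
    rfl
  · rw [if_neg h, max_eq_left (not_lt.1 h)]
    rfl

theorem thin_ray {t : ℝ} (ht : 2 ≤ t) {P : List Bool} (h1 : kap P < t) (h2 : t ≤ mx P) :
    ∃ n : ℕ, P = cn (ct t P) (sd (ct t P)) n := by
  have hQ := ct_mem ht h2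
  rcases ray_cases (sd (ct t P)) (ct_suffix t P) with h | ⟨n, hn⟩
  · exact h
  · exfalso
    have h3 := kap_suffix hn
    rw [kap_en] at h3
    have h4 : F (zw (ct t P) (sd (ct t P)) 0) ≤ F (zw (ct t P) (sd (ct t P)) n) := by
      have hrs := rs_ray (ct t P) (sd (ct t P))
      have hmono : zw (ct t P) (sd (ct t P)) 0 ≤ zw (ct t P) (sd (ct t P)) n := by
        have hm : StrictMono (zw (ct t P) (sd (ct t P))) := strictMono_nat_of_lt_succ hrs.lt
        exact hm.monotone (Nat.zero_le n)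
      exact F_le hrs.hy hmono
    have h5 := Lf_mx hQ
    rw [← lvf_mx (ct t P)] at h5
    linarith

theorem lvf_inj {R k0 k k' n n' : ℕ} (hR : 100 ≤ R) (hk0 : 2 ≤ k0) (hk : k0 ≤ k)
    {P P' Q : List Bool} {b : Bool}
    (h : P ∈ DP R k) (h' : P' ∈ DP R k') (hn : P ∉ DL R ((k : ℝ) + 1))
    (hQ : P = cn Q b n) (hQ' : P' = cn Q b n') (hlt : k < k') : False := by
  have hmP' := Lf_mx h'.1
  have hkk : (k : ℝ) + 1 ≤ (k' : ℝ) := by exact_mod_cast hlt
  have hPP' : P <:+ P' := by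
    rcases le_total n n' with hnn | hnn
    · rw [hQ, hQ']
      exact cn_suffix Q b hnn
    · have h1 : P' <:+ P := by
        rw [hQ, hQ']
        exact cn_suffix Q b hnn
      obtain ⟨b0, p0, hp0, hm1, hm2⟩ := h.1
      rw [hp0] at h1
      rcases List.suffix_cons_iff.1 h1 with h2 | h2
      · rw [hp0, h2]
      · exfalso
        have h3 := mx_suffix h2
        linarith
  obtain ⟨i, hi⟩ := Nat.exists_eq_add_of_le (show k + 1 ≤ k' from hlt)
  have hi' : (k' : ℝ) = ((k : ℝ) + 1) + (i : ℕ) := by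
    rw [hi]
    push_cast
    ring
  have hc := h'.2.2
  have hk2 : (2 : ℝ) ≤ (k : ℝ) + 1 := by
    have : (2 : ℝ) ≤ (k : ℝ) := by exact_mod_cast hk0.trans hk
    linarith
  have hd : ct ((k : ℝ) + 1) (ct (k' : ℝ) P') ∈ DL R ((k : ℝ) + 1) := by
    apply dg_down hR hk2 i
    rw [hi'] at hc ⊢
    exact hc
  have hcc := (ct_ct (k := (k : ℝ) + 1) (k' := (k' : ℝ)) hkk (q := P') (by linarith)).1
  rw [hcc, ct_of h.1 hPP'] at hd
  exact hn hd

theorem thin_inj {R k0 k k' n n' : ℕ} (hR : 100 ≤ R) (hk0 : 2 ≤ k0) (hk : k0 ≤ k) (hk' : k0 ≤ k') {P P' Q : List Bool} {b : Bool}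
    (h : P ∈ DP R k) (h' : P' ∈ DP R k') (hn : P ∉ DL R ((k : ℝ) + 1)) (hn' : P' ∉ DL R ((k' : ℝ) + 1))
    (hQ : P = cn Q b n) (hQ' : P' = cn Q b n') : k = k' ∧ P = P' := by
  rcases lt_trichotomy k k' with hlt | heq | hgt
  · exact (lvf_inj hR hk0 hk h h' hn hQ hQ' hlt).elim
  · refine ⟨heq, ?_⟩
    subst heq
    rcases le_total n n' with hnn | hnn
    · apply Lf_incomp h.1 h'.1
      rw [hQ, hQ']
      exact cn_suffix Q b hnn
    · apply Eq.symm
      apply Lf_incomp h'.1 h.1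
      rw [hQ, hQ']
      exact cn_suffix Q b hnn
  · exact (lvf_inj hR hk0 hk' h' h hn' hQ' hQ hgt).elim

theorem harm {a b : ℕ} (ha : 1 ≤ a) (hb : 1 ≤ b) : ∑ k ∈ Finset.Icc a b, 1 / (k : ℝ) ≤ 1 + Real.log b := by
  have h1 : ∑ k ∈ Finset.Icc a b, 1 / (k : ℝ) ≤ ∑ k ∈ Finset.Icc 1 b, 1 / (k : ℝ) := by
    apply Finset.sum_le_sum_of_subset_of_nonneg
    · exact Finset.Icc_subset_Icc_left ha
    · intro i _ _
      positivity
  have h2 := harmonic_le_one_add_log b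
  rw [harmonic_eq_sum_Icc] at h2
  push_cast at h2
  simp only [one_div] at h1 ⊢
  linarith

theorem lvf_card {S : Finset (ℕ × List Bool)} {T : Set (List Bool)} (hT : T.Finite)
    (g : ℕ × List Bool → List Bool) (hg : ∀ x ∈ S, g x ∈ T)
    (hi : ∀ x ∈ S, ∀ y ∈ S, g x = g y → x = y) : S.card ≤ T.ncard := by
  classical
  have h1 : (S.image g).card = S.card :=
    Finset.card_image_of_injOn (fun x hx y hy h => hi x hx y hy h)
  rw [← h1, ← Set.ncard_coe_finset]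
  apply Set.ncard_le_ncard _ hT
  intro z hz
  obtain ⟨x, hx, rfl⟩ := Finset.mem_image.1 (Finset.mem_coe.1 hz)
  exact hg x hx

theorem lvf_sum (S : Finset (ℕ × List Bool)) (h : ℕ × List Bool → ℕ) (a b : ℕ)
    (hm : ∀ x ∈ S, h x ∈ Finset.Icc a b) (m : ℕ → ℕ)
    (hc : ∀ t ∈ Finset.Icc a b, (S.filter (fun x => h x = t)).card ≤ m t)
    (w : ℕ → ℝ) (hw : ∀ t, 0 ≤ w t) :
    ∑ x ∈ S, w (h x) ≤ ∑ t ∈ Finset.Icc a b, (m t : ℝ) * w t := by
  rw [← Finset.sum_fiberwise_of_maps_to hm]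
  apply Finset.sum_le_sum
  intro t ht
  have h1 : ∑ x ∈ S.filter (fun x => h x = t), w (h x) = ∑ x ∈ S.filter (fun x => h x = t), w t := by
    apply Finset.sum_congr rfl
    intro x hx
    rw [(Finset.mem_filter.1 hx).2]
  rw [h1, Finset.sum_const, nsmul_eq_mul]
  apply mul_le_mul_of_nonneg_right _ (hw t)
  exact_mod_cast hc t ht

theorem sum_E {R k0 L d : ℕ} (hR : 100 ≤ R) (hk0 : 10 ≤ k0) (hL : k0 ≤ L) (hd : ∀ k : ℕ, k0 ≤ k → (DL R k).ncard ≤ d)
    (E : Finset (ℕ × List Bool))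
    (hE : ∀ x ∈ E, k0 ≤ x.1 ∧ x.1 < L ∧ x.2 ∈ DP R x.1 ∧ x.2 ∉ DL R ((x.1 : ℝ) + 1)) :
    ∑ x ∈ E, 1 / kap x.2 ≤ 32 * d * (1 + Real.log L) + 36 * (k0 : ℝ) ^ 2 := by
  classical
  have hlog : 0 ≤ Real.log (L : ℝ) := Real.log_natCast_nonneg L
  -- thick part
  have hthick : ∑ x ∈ E.filter (fun x => (x.1 : ℝ) + 1 ≤ 4 * kap x.2), 1 / kap x.2 ≤
      28 * d * (1 + Real.log L) := by
    have h1 : ∑ x ∈ E.filter (fun x => (x.1 : ℝ) + 1 ≤ 4 * kap x.2), 1 / kap x.2 ≤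
        ∑ x ∈ E.filter (fun x => (x.1 : ℝ) + 1 ≤ 4 * kap x.2), 4 / ((x.1 : ℕ) : ℝ) := by
      apply Finset.sum_le_sum
      intro x hx
      obtain ⟨hxE, hx4⟩ := Finset.mem_filter.1 hx
      obtain ⟨hx1, hx2, hx3, hx5⟩ := hE x hxE
      have hk := kap_ge x.2
      have hx0 : (0 : ℝ) < x.1 := by
        have : 0 < x.1 := by omega
        exact_mod_cast this
      rw [div_le_div_iff₀ (by linarith) hx0]
      linarith
    have h2 := lvf_sum (E.filter (fun x => (x.1 : ℝ) + 1 ≤ 4 * kap x.2)) (fun x => x.1) k0 L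
      (by
        intro x hx
        obtain ⟨hx1, hx2, -, -⟩ := hE x (Finset.mem_filter.1 hx).1
        exact Finset.mem_Icc.2 ⟨hx1, hx2.le⟩)
      (fun _ => 7 * d)
      (by
        intro t ht
        have ht0 := (Finset.mem_Icc.1 ht).1
        refine (lvf_card (dp_fin R (t : ℝ)) (fun x => x.2) ?_ ?_).trans
          ((dp_card (R := R) (k := t) (by omega)).trans (Nat.mul_le_mul_left 7 (hd t ht0)))
        · intro x hx
          obtain ⟨hx1, hx2⟩ := Finset.mem_filter.1 hx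
          obtain ⟨-, -, hx3, -⟩ := hE x (Finset.mem_filter.1 hx1).1
          rw [← hx2]
          exact hx3
        · intro x hx y hy hxy
          have hx2 := (Finset.mem_filter.1 hx).2
          have hy2 := (Finset.mem_filter.1 hy).2
          exact Prod.ext (hx2.trans hy2.symm) hxy)
      (fun t => 4 / (t : ℝ)) (fun t => by positivity)
    have h3 : ∑ t ∈ Finset.Icc k0 L, ((7 * d : ℕ) : ℝ) * (4 / (t : ℝ)) =
        28 * d * ∑ t ∈ Finset.Icc k0 L, 1 / (t : ℝ) := by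
      rw [Finset.mul_sum]
      apply Finset.sum_congr rfl
      intro t _
      push_cast
      ring
    have h4 := harm (a := k0) (b := L) (by omega) (by omega)
    calc ∑ x ∈ E.filter (fun x => (x.1 : ℝ) + 1 ≤ 4 * kap x.2), 1 / kap x.2
        ≤ ∑ x ∈ E.filter (fun x => (x.1 : ℝ) + 1 ≤ 4 * kap x.2), 4 / ((x.1 : ℕ) : ℝ) := h1
      _ ≤ ∑ t ∈ Finset.Icc k0 L, ((7 * d : ℕ) : ℝ) * (4 / (t : ℝ)) := h2
      _ = 28 * d * ∑ t ∈ Finset.Icc k0 L, 1 / (t : ℝ) := h3
      _ ≤ 28 * d * (1 + Real.log L) := by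
        apply mul_le_mul_of_nonneg_left h4
        positivity
  -- thin part
  have hthin : ∑ x ∈ E.filter (fun x => ¬ ((x.1 : ℝ) + 1 ≤ 4 * kap x.2)), 1 / kap x.2 ≤
      4 * d * (1 + Real.log L) + 36 * (k0 : ℝ) ^ 2 := by
    have hthis : ∀ x ∈ E.filter (fun x => ¬ ((x.1 : ℝ) + 1 ≤ 4 * kap x.2)),
        2 ≤ ⌊kap x.2⌋₊ + 2 ∧ ⌊kap x.2⌋₊ + 2 ≤ x.1 ∧ kap x.2 < ((⌊kap x.2⌋₊ + 2 : ℕ) : ℝ) ∧
          ((⌊kap x.2⌋₊ + 2 : ℕ) : ℝ) ≤ 4 * kap x.2 := by
      intro x hx
      obtain ⟨hxE, hx4⟩ := Finset.mem_filter.1 hx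
      obtain ⟨hx1, hx2, hx3, hx5⟩ := hE x hxE
      push Not at hx4
      have hk := kap_ge x.2
      have hf1 := Nat.floor_le (show (0 : ℝ) ≤ kap x.2 by linarith)
      have hf2 := Nat.lt_floor_add_one (kap x.2)
      have hx0 : (10 : ℝ) ≤ x.1 := by
        have : 10 ≤ x.1 := by omega
        exact_mod_cast this
      refine ⟨by omega, ?_, ?_, ?_⟩
      · have : ((⌊kap x.2⌋₊ + 2 : ℕ) : ℝ) ≤ (x.1 : ℝ) := by
          push_cast
          linarith
        exact_mod_cast this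
      · push_cast
        linarith
      · push_cast
        linarith
    have h1 : ∑ x ∈ E.filter (fun x => ¬ ((x.1 : ℝ) + 1 ≤ 4 * kap x.2)), 1 / kap x.2 ≤
        ∑ x ∈ E.filter (fun x => ¬ ((x.1 : ℝ) + 1 ≤ 4 * kap x.2)),
          4 / ((⌊kap x.2⌋₊ + 2 : ℕ) : ℝ) := by
      apply Finset.sum_le_sum
      intro x hx
      obtain ⟨h2, h3, h4, h5⟩ := hthis x hx
      have hk := kap_ge x.2
      rw [div_le_div_iff₀ (by linarith) (by positivity)]
      linarith
    have h2 := lvf_sum (E.filter (fun x => ¬ ((x.1 : ℝ) + 1 ≤ 4 * kap x.2)))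
      (fun x => ⌊kap x.2⌋₊ + 2) 2 L
      (by
        intro x hx
        obtain ⟨h2, h3, h4, h5⟩ := hthis x hx
        obtain ⟨hx1, hx2, -, -⟩ := hE x (Finset.mem_filter.1 hx).1
        exact Finset.mem_Icc.2 ⟨h2, h3.trans hx2.le⟩)
      (fun t => if t < k0 then 18 * t ^ 2 else d)
      (by
        intro t ht
        have ht2 := (Finset.mem_Icc.1 ht).1
        have ht2' : (2 : ℝ) ≤ (t : ℝ) := by exact_mod_cast ht2
        -- facts for the elements of the fibre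
        have hf : ∀ x ∈ (E.filter (fun x => ¬ ((x.1 : ℝ) + 1 ≤ 4 * kap x.2))).filter
            (fun x => ⌊kap x.2⌋₊ + 2 = t), kap x.2 < (t : ℝ) ∧ t ≤ x.1 ∧ (t : ℝ) ≤ mx x.2 ∧
              (x.1 : ℝ) + 1 ≤ mx x.2 ∧ k0 ≤ x.1 ∧ x.2 ∈ DP R x.1 ∧ x.2 ∉ DL R ((x.1 : ℝ) + 1) := by
          intro x hx
          obtain ⟨hx1, hx2⟩ := Finset.mem_filter.1 hx
          obtain ⟨h2, h3, h4, h5⟩ := hthis x hx1
          rw [hx2] at h3 h4
          obtain ⟨hx3, hx4, hx5, hx6⟩ := hE x (Finset.mem_filter.1 hx1).1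
          have hm := Lf_mx hx5.1
          have h3' : (t : ℝ) ≤ (x.1 : ℝ) := by exact_mod_cast h3
          exact ⟨h4, h3, by linarith, hm, hx3, hx5, hx6⟩
        have hinj : ∀ x ∈ (E.filter (fun x => ¬ ((x.1 : ℝ) + 1 ≤ 4 * kap x.2))).filter
            (fun x => ⌊kap x.2⌋₊ + 2 = t), ∀ y ∈ (E.filter (fun x =>
              ¬ ((x.1 : ℝ) + 1 ≤ 4 * kap x.2))).filter (fun x => ⌊kap x.2⌋₊ + 2 = t),
            ct (t : ℝ) x.2 = ct (t : ℝ) y.2 → x = y := by
          intro x hx y hy hxy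
          obtain ⟨a1, a2, a3, a4, a5, a6, a7⟩ := hf x hx
          obtain ⟨b1, b2, b3, b4, b5, b6, b7⟩ := hf y hy
          obtain ⟨n, hn⟩ := thin_ray ht2' a1 a3
          obtain ⟨n', hn'⟩ := thin_ray ht2' b1 b3
          rw [← hxy] at hn'
          obtain ⟨c1, c2⟩ := thin_inj hR (by omega : 2 ≤ k0) a5 b5 a6 b6 a7 b7 hn hn'
          exact Prod.ext c1 c2
        by_cases htk : t < k0
        · simp only [htk, if_true]
          refine (lvf_card (Lf_card t).1 (fun x => ct (t : ℝ) x.2) ?_ hinj).trans (Lf_card t).2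
          intro x hx
          exact ct_mem ht2' (hf x hx).2.2.1
        · simp only [htk, if_false]
          refine (lvf_card (dl_fin R (t : ℝ)) (fun x => ct (t : ℝ) x.2) ?_ hinj).trans
            (hd t (by omega))
          intro x hx
          obtain ⟨a1, a2, a3, a4, a5, a6, a7⟩ := hf x hx
          obtain ⟨i, hi⟩ := Nat.exists_eq_add_of_le a2
          have hc := a6.2.2
          have hi' : (x.1 : ℝ) = (t : ℝ) + (i : ℕ) := by
            rw [hi]
            push_cast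
            ring
          have hcc := (ct_ct (k := (t : ℝ)) (k' := (x.1 : ℝ)) (by exact_mod_cast a2)
            (q := x.2) (by linarith)).1
          show ct (t : ℝ) x.2 ∈ DL R (t : ℝ)
          rw [← hcc]
          apply dg_down hR ht2' i
          rw [hi'] at hc ⊢
          exact hc)
      (fun t => 4 / (t : ℝ)) (fun t => by positivity)
    have h3 : ∑ t ∈ Finset.Icc 2 L, ((if t < k0 then 18 * t ^ 2 else d : ℕ) : ℝ) * (4 / (t : ℝ)) ≤
        4 * d * (1 + Real.log L) + 36 * (k0 : ℝ) ^ 2 := by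
      have h4 : ∑ t ∈ Finset.Icc 2 L, ((if t < k0 then 18 * t ^ 2 else d : ℕ) : ℝ) * (4 / (t : ℝ)) ≤
          ∑ t ∈ Finset.Icc 2 L, (4 * d * (1 / (t : ℝ)) + (if t < k0 then 72 * (t : ℝ) else 0)) := by
        apply Finset.sum_le_sum
        intro t ht
        have ht2 := (Finset.mem_Icc.1 ht).1
        have ht0 : (0 : ℝ) < t := by
          have : 0 < t := by omega
          exact_mod_cast this
        by_cases htk : t < k0
        · simp only [htk, if_true]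
          push_cast
          have h5 : 18 * (t : ℝ) ^ 2 * (4 / (t : ℝ)) = 72 * t := by
            field_simp
            ring
          rw [h5]
          have : 0 ≤ 4 * (d : ℝ) * (1 / (t : ℝ)) := by positivity
          linarith
        · simp only [htk, if_false]
          rw [add_zero]
          apply le_of_eq
          ring
      have h5 : ∑ t ∈ Finset.Icc 2 L, (4 * (d : ℝ) * (1 / (t : ℝ)) + (if t < k0 then 72 * (t : ℝ) else 0)) =
          4 * d * ∑ t ∈ Finset.Icc 2 L, 1 / (t : ℝ) +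
            ∑ t ∈ Finset.Icc 2 L, (if t < k0 then 72 * (t : ℝ) else 0) := by
        rw [Finset.sum_add_distrib, Finset.mul_sum]
      have h6 := harm (a := 2) (b := L) (by omega) (by omega)
      have h7 : ∑ t ∈ Finset.Icc 2 L, (if t < k0 then 72 * (t : ℝ) else 0) ≤ 36 * (k0 : ℝ) ^ 2 := by
        rw [← Finset.sum_filter]
        have h8 : ∑ t ∈ (Finset.Icc 2 L).filter (fun t => t < k0), 72 * (t : ℝ) ≤
            ∑ t ∈ Finset.range k0, 72 * (t : ℝ) := by
          apply Finset.sum_le_sum_of_subset_of_nonneg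
          · intro t ht
            exact Finset.mem_range.2 (Finset.mem_filter.1 ht).2
          · intro t _ _
            positivity
        rw [← Finset.mul_sum] at h8
        have h9 : (∑ t ∈ Finset.range k0, (t : ℝ)) * 2 ≤ (k0 : ℝ) ^ 2 := by
          have h10 := Finset.sum_range_id_mul_two k0
          have h11 : (∑ i ∈ Finset.range k0, i) * 2 ≤ k0 ^ 2 := by
            rw [h10, pow_two]
            exact Nat.mul_le_mul_left _ (Nat.sub_le _ _)
          have h14 : (((∑ i ∈ Finset.range k0, i) * 2 : ℕ) : ℝ) ≤ ((k0 ^ 2 : ℕ) : ℝ) :=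
            Nat.cast_le.2 h11
          push_cast at h14
          exact h14
        have h12 : ∑ t ∈ (Finset.Icc 2 L).filter (fun t => t < k0), 72 * (t : ℝ) ≤
            72 * ∑ t ∈ Finset.range k0, (t : ℝ) := by
          rw [Finset.mul_sum] at h8
          rw [Finset.mul_sum]
          exact h8
        linarith
      rw [h5] at h4
      have h13 : 4 * (d : ℝ) * ∑ t ∈ Finset.Icc 2 L, 1 / (t : ℝ) ≤ 4 * d * (1 + Real.log L) := by
        apply mul_le_mul_of_nonneg_left h6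
        positivity
      linarith
    exact h1.trans (h2.trans h3)
  have hsplit := Finset.sum_filter_add_sum_filter_not E
    (fun x => (x.1 : ℝ) + 1 ≤ 4 * kap x.2) (fun x => 1 / kap x.2)
  rw [← hsplit]
  linarith

end Pool.Agent.Lib.MP_94ab62_ntZ
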