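import Pool.Agent.Lib.MP_94ab62_ntZ.TpC

/-!
# TaA: families of coincidences

`Fam R A B S D D' M M'` (Defs): members `x = (p, q)` of `S` satisfy `Pr R p q` (`p ≠ q`, `zz p = zz q`, `ss p, ss q ≤ R`), `A <:+ p`, `B <:+ q`, `D • uu q = M (uu p)`, `D' • uu p = M' (uu q)`,
`1 ≤ D ≤ R^2`, `1 ≤ |D'| ≤ R^2`, `M M' = M' M = D D'`, `dM M = dM M' = D D'`.

* `fam_ll`: `ll p = F (zz p)`.
* `fam_det`: `D^2 det v_x v_y = det (M u_x) (M u_y) = dM M * det u_x u_y = D D' det u_x u_y` (`det_ap`, `det_smul_left`, `det_smul_right`), cancel `D`.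
* `fam_Hd`: multiply by `D` and use `fam_det` three times, `fam_ll`.
* `fam_inj1`: `x.1 = y.1` gives `D • uu x.2 = D • uu y.2`, `D ≥ 1`, `uu_inj`.  `fam_inj2` similarly with `D' ≠ 0`.
* `fam_ord`, `fam_ord'`: `fam_det` and signs.
* `fam_M0`: `M v = 0` gives `0 = M' (M v) = (D D') • v`.
* `fam_swap`: `s = Int.sign D'`; the matrices `s M'`, `s M` (`msm s M`); all conditions multiply by `s`, `s^2 = 1`, `s D' = |D'|`.
* `fam_sub`: subset, and larger cones: `A' <:+ A`... the members lie below `A'` and `B'` by assumption.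
* `fam_exists`: choose `x ≠ y` in `S`; `det (uu x.1) (uu y.1) ≠ 0`, `det (uu x.2) (uu y.2) ≠ 0` (`par_eq` and `Mtc.i1`, `Mtc.i2`: `x.1 ≠ y.1`, `x.2 ≠ y.2`); exchange `x, y` so that
  `D = det (uu x.1) (uu y.1) > 0`, `D' = det (uu x.2) (uu y.2)`.  `M v = det v (uu y.1) • uu x.2 + det (uu x.1) v • uu y.2` as a matrix (rows: entries are the values on `(1,0)`, `(0,1)`),
  `M' w = det w (uu y.2) • uu x.1 + det (uu x.2) w • uu y.1`.  The relation `hr` for `(z, x, y)` gives `D' • uu z.1 = M' (uu z.2)` for all `z ∈ S`.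
  `M (M' w) = D D' w`: both are linear in `w`, check on `w = uu x.2, uu y.2` (`M' (uu x.2) = D' • uu x.1`, `M (uu x.1) = D • uu x.2`) and `comp_of_two`, or directly by `ring` after unfolding
  (`Prod.ext`).  Then `D' • M (uu z.1) = M (M' (uu z.2)) = D' D • uu z.2`, so `M (uu z.1) = D • uu z.2`.  `dM M = D D'` by `ring`.  Bounds: `|det| ≤ nm * nm ≤ R^2` (`det_le`, `nm_uu`),
  `nm (M v) ≤ nm v * R * R + R * nm v * R`.
-/

set_option autoImplicit false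

namespace Pool.Agent.Lib.MP_94ab62_ntZ

open Pool.Agent.Lib.MP_94ab62_nt Pool.Agent.Lib.MP_94ab62_ntU

/-- partial matchings consisting of coincidences -/
structure Mtc (R : ℕ) (S : Set PP) : Prop where
  pr : ∀ x ∈ S, Pr R x.1 x.2
  i1 : ∀ x ∈ S, ∀ y ∈ S, x.1 = y.1 → x = y
  i2 : ∀ x ∈ S, ∀ y ∈ S, x.2 = y.2 → x = y

/-- transposed rank two relation -/
def R2' (S : Set PP) : Prop :=
  ∀ x ∈ S, ∀ y ∈ S, ∀ z ∈ S,
    det (uu y.2) (uu z.2) • uu x.1 + det (uu z.2) (uu x.2) • uu y.1 + det (uu x.2) (uu y.2) • uu z.1 = 0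

/-- multiple of a matrix -/
def msm (s : ℤ) (M : Mt) : Mt := ((s * M.1.1, s * M.1.2), (s * M.2.1, s * M.2.2))

variable {R : ℕ} {A B : List Bool} {S : Set PP} {D D' : ℤ} {M M' : Mt}

private theorem taa_cancel {k : ℤ} (hk : k ≠ 0) {v w : ℤ × ℤ} (h : k • v = k • w) : v = w := by
  apply Prod.ext
  · have h1 := congrArg Prod.fst h
    simp only [Prod.smul_fst, smul_eq_mul] at h1
    exact mul_left_cancel₀ hk h1
  · have h1 := congrArg Prod.snd h
    simp only [Prod.smul_snd, smul_eq_mul] at h1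
    exact mul_left_cancel₀ hk h1

private theorem taa_zero {k : ℤ} (hk : k ≠ 0) {v : ℤ × ℤ} (h : k • v = 0) : v = 0 := by
  apply taa_cancel hk
  rw [h, smul_zero]

private theorem taa_ap_zero (M : Mt) : ap M 0 = 0 := by
  apply Prod.ext
  · simp [ap]
  · simp [ap]

private theorem taa_dM (s : ℤ) (M : Mt) : dM (msm s M) = s * s * dM M := by
  simp only [dM, msm]; ring

theorem ap_msm (s : ℤ) (M : Mt) (v : ℤ × ℤ) : ap (msm s M) v = s • ap M v := by
  apply Prod.ext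
  · simp only [ap, msm, Prod.smul_fst, smul_eq_mul]; ring
  · simp only [ap, msm, Prod.smul_snd, smul_eq_mul]; ring

theorem fam_ll (hF : Fam R A B S D D' M M') {x : PP} (hx : x ∈ S) : ll x.1 = ll x.2 := by
  show F (zz x.1) = F (zz x.2)
  rw [(hF.pr x hx).2.1]

theorem fam_det (hF : Fam R A B S D D' M M') {x y : PP} (hx : x ∈ S) (hy : y ∈ S) :
    D * det (uu x.2) (uu y.2) = D' * det (uu x.1) (uu y.1) := by
  have h := det_ap M (uu x.1) (uu y.1)
  rw [← hF.e1 x hx, ← hF.e1 y hy, det_smul_left, det_smul_right, hF.dm, mul_assoc] at h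
  have hD : D ≠ 0 := by have := hF.D1; omega
  exact mul_left_cancel₀ hD h

theorem fam_Hd (hF : Fam R A B S D D' M M') {x y z : PP} (hx : x ∈ S) (hy : y ∈ S) (hz : z ∈ S) :
    (D : ℝ) * Hd x.2 y.2 z.2 = D' * Hd x.1 y.1 z.1 := by
  have h1 : (D : ℝ) * (det (uu y.2) (uu z.2) : ℝ) = D' * (det (uu y.1) (uu z.1) : ℝ) := by
    exact_mod_cast fam_det hF hy hz
  have h2 : (D : ℝ) * (det (uu x.2) (uu z.2) : ℝ) = D' * (det (uu x.1) (uu z.1) : ℝ) := by
    exact_mod_cast fam_det hF hx hz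
  have h3 : (D : ℝ) * (det (uu x.2) (uu y.2) : ℝ) = D' * (det (uu x.1) (uu y.1) : ℝ) := by
    exact_mod_cast fam_det hF hx hy
  unfold Hd
  rw [← fam_ll hF hx, ← fam_ll hF hy, ← fam_ll hF hz]
  linear_combination ll x.1 * h1 - ll y.1 * h2 + ll z.1 * h3

theorem fam_inj1 (hF : Fam R A B S D D' M M') {x y : PP} (hx : x ∈ S) (hy : y ∈ S) (h : x.1 = y.1) : x = y := by
  have h1 := hF.e1 x hx
  have h2 := hF.e1 y hy
  rw [h, ← h2] at h1
  have hD : D ≠ 0 := by have := hF.D1; omega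
  have h3 := uu_inj (taa_cancel hD h1)
  exact Prod.ext h h3

theorem fam_inj2 (hF : Fam R A B S D D' M M') {x y : PP} (hx : x ∈ S) (hy : y ∈ S) (h : x.2 = y.2) : x = y := by
  have h1 := hF.e2 x hx
  have h2 := hF.e2 y hy
  rw [h, ← h2] at h1
  have hD : D' ≠ 0 := by
    intro h0
    have := hF.D'1
    rw [h0, abs_zero] at this
    omega
  have h3 := uu_inj (taa_cancel hD h1)
  exact Prod.ext h3 h

theorem fam_ord (hF : Fam R A B S D D' M M') (hD : 0 < D') {x y : PP} (hx : x ∈ S) (hy : y ∈ S)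
    (h : 0 < det (uu x.1) (uu y.1)) : 0 < det (uu x.2) (uu y.2) := by
  have h1 := fam_det hF hx hy
  have h2 : 0 < D' * det (uu x.1) (uu y.1) := mul_pos hD h
  have h3 := hF.D1
  by_contra hc
  push Not at hc
  have h4 : D * det (uu x.2) (uu y.2) ≤ 0 := mul_nonpos_of_nonneg_of_nonpos (by omega) hc
  omega

theorem fam_ord' (hF : Fam R A B S D D' M M') (hD : D' < 0) {x y : PP} (hx : x ∈ S) (hy : y ∈ S)
    (h : 0 < det (uu x.1) (uu y.1)) : 0 < det (uu y.2) (uu x.2) := by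
  have h1 := fam_det hF hx hy
  have h2 : D' * det (uu x.1) (uu y.1) < 0 := mul_neg_of_neg_of_pos hD h
  have h3 := hF.D1
  rw [det_swap]
  by_contra hc
  push Not at hc
  have h5 : 0 ≤ det (uu x.2) (uu y.2) := by omega
  have h4 : 0 ≤ D * det (uu x.2) (uu y.2) := mul_nonneg (by omega) h5
  omega

private theorem taa_D' (hF : Fam R A B S D D' M M') : D' ≠ 0 := by
  intro h0
  have := hF.D'1
  rw [h0, abs_zero] at this
  omega

private theorem taa_DD (hF : Fam R A B S D D' M M') : D * D' ≠ 0 :=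
  mul_ne_zero (by have := hF.D1; omega) (taa_D' hF)

private theorem taa_det {p q : List Bool} (hp : ss p ≤ R) (hq : ss q ≤ R) :
    |det (uu p) (uu q)| ≤ (R : ℤ) ^ 2 := by
  have h1 := det_le (uu p) (uu q)
  rw [nm_uu, nm_uu] at h1
  have h2 : ((ss p : ℕ) : ℝ) ≤ (R : ℝ) := by exact_mod_cast hp
  have h3 : ((ss q : ℕ) : ℝ) ≤ (R : ℝ) := by exact_mod_cast hq
  have h4 : (0 : ℝ) ≤ (ss p : ℝ) := Nat.cast_nonneg _
  have h5 : (0 : ℝ) ≤ (ss q : ℝ) := Nat.cast_nonneg _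
  have h6 : |(det (uu p) (uu q) : ℝ)| ≤ (R : ℝ) ^ 2 :=
    calc |(det (uu p) (uu q) : ℝ)| ≤ (ss p : ℝ) * (ss q : ℝ) := h1
      _ ≤ (R : ℝ) * (R : ℝ) := mul_le_mul h2 h3 h5 (h4.trans h2)
      _ = (R : ℝ) ^ 2 := by ring
  exact_mod_cast h6

private def taa_mk (a b c d : ℤ × ℤ) : Mt :=
  ((b.2 * c.1 - a.2 * d.1, a.1 * d.1 - b.1 * c.1), (b.2 * c.2 - a.2 * d.2, a.1 * d.2 - b.1 * c.2))

private theorem taa_mk_ap (a b c d v : ℤ × ℤ) :
    ap (taa_mk a b c d) v = det v b • c + det a v • d := by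
  apply Prod.ext
  · simp only [ap, taa_mk, det, Prod.fst_add, Prod.smul_fst, smul_eq_mul]; ring
  · simp only [ap, taa_mk, det, Prod.snd_add, Prod.smul_snd, smul_eq_mul]; ring

private theorem taa_mk_comp (a b c d v : ℤ × ℤ) :
    ap (taa_mk a b c d) (ap (taa_mk c d a b) v) = (det a b * det c d) • v := by
  apply Prod.ext
  · simp only [ap, taa_mk, det, Prod.smul_fst, smul_eq_mul]; ring
  · simp only [ap, taa_mk, det, Prod.smul_snd, smul_eq_mul]; ring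

private theorem taa_mk_dM (a b c d : ℤ × ℤ) : dM (taa_mk a b c d) = det a b * det c d := by
  simp only [dM, taa_mk, det]; ring

private theorem taa_mk_nm {a b c d : ℤ × ℤ} {r : ℝ} (ha : nm a ≤ r) (hb : nm b ≤ r) (hc : nm c ≤ r)
    (hd : nm d ≤ r) (v : ℤ × ℤ) : nm (ap (taa_mk a b c d) v) ≤ 2 * r ^ 2 * nm v := by
  have hr : 0 ≤ r := (nm_nonneg a).trans ha
  have hv := nm_nonneg v
  rw [taa_mk_ap]
  calc nm (det v b • c + det a v • d) ≤ nm (det v b • c) + nm (det a v • d) := nm_add _ _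
    _ = |(det v b : ℝ)| * nm c + |(det a v : ℝ)| * nm d := by rw [nm_smul, nm_smul]
    _ ≤ (nm v * r) * r + (r * nm v) * r :=
        add_le_add
          (mul_le_mul ((det_le v b).trans (mul_le_mul_of_nonneg_left hb hv)) hc (nm_nonneg c)
            (by positivity))
          (mul_le_mul ((det_le a v).trans (mul_le_mul_of_nonneg_right ha hv)) hd (nm_nonneg d)
            (by positivity))
    _ = 2 * r ^ 2 * nm v := by ring

private theorem taa_ex (hR : 100 ≤ R) (hM : Mtc R S) (hA : ∀ x ∈ S, A <:+ x.1) (hB : ∀ x ∈ S, B <:+ x.2)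
    (hr : R2' S) {x y : PP} (hx : x ∈ S) (hy : y ∈ S) (hne : x ≠ y) (hpos : 0 < det (uu x.1) (uu y.1)) :
    ∃ D D' M M', Fam R A B S D D' M M' := by
  have h2ne : det (uu x.2) (uu y.2) ≠ 0 := fun h => hne (hM.i2 x hx y hy (par_eq h))
  have px := hM.pr x hx
  have py := hM.pr y hy
  have nx1 : nm (uu x.1) ≤ (R : ℝ) := by rw [nm_uu]; exact_mod_cast px.2.2.1
  have nx2 : nm (uu x.2) ≤ (R : ℝ) := by rw [nm_uu]; exact_mod_cast px.2.2.2
  have ny1 : nm (uu y.1) ≤ (R : ℝ) := by rw [nm_uu]; exact_mod_cast py.2.2.1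
  have ny2 : nm (uu y.2) ≤ (R : ℝ) := by rw [nm_uu]; exact_mod_cast py.2.2.2
  have he2 : ∀ z ∈ S, det (uu x.2) (uu y.2) • uu z.1 =
      ap (taa_mk (uu x.2) (uu y.2) (uu x.1) (uu y.1)) (uu z.2) := by
    intro z hz
    have h := hr x hx y hy z hz
    rw [taa_mk_ap, det_swap (uu z.2) (uu y.2), det_swap (uu x.2) (uu z.2), neg_smul, neg_smul]
    rw [← sub_eq_zero]
    rw [← h]
    abel
  refine ⟨det (uu x.1) (uu y.1), det (uu x.2) (uu y.2), taa_mk (uu x.1) (uu y.1) (uu x.2) (uu y.2),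
    taa_mk (uu x.2) (uu y.2) (uu x.1) (uu y.1), hR, hM.pr, hA, hB, ?_, ?_, ?_, ?_, ?_, he2, ?_, ?_, ?_, ?_,
    ?_, ?_⟩
  · omega
  · exact (le_abs_self _).trans (taa_det px.2.2.1 py.2.2.1)
  · exact Int.one_le_abs h2ne
  · exact taa_det px.2.2.2 py.2.2.2
  · intro z hz
    apply taa_cancel h2ne
    rw [← ap_smul, he2 z hz, taa_mk_comp, smul_smul, mul_comm]
  · intro v
    exact taa_mk_comp _ _ _ _ v
  · intro v
    rw [taa_mk_comp, mul_comm]
  · exact taa_mk_dM _ _ _ _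
  · rw [taa_mk_dM, mul_comm]
  · exact taa_mk_nm nx1 ny1 nx2 ny2
  · exact taa_mk_nm nx2 ny2 nx1 ny1

theorem fam_M0 (hF : Fam R A B S D D' M M') {v : ℤ × ℤ} (h : ap M v = 0) : v = 0 := by
  have h1 := hF.c2 v
  rw [h, taa_ap_zero] at h1
  exact taa_zero (taa_DD hF) h1.symm

theorem fam_M0' (hF : Fam R A B S D D' M M') {v : ℤ × ℤ} (h : ap M' v = 0) : v = 0 := by
  have h1 := hF.c1 v
  rw [h, taa_ap_zero] at h1
  exact taa_zero (taa_DD hF) h1.symm

theorem fam_swap (hF : Fam R A B S D D' M M') :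
    Fam R B A (Prod.swap '' S) |D'| (Int.sign D' * D) (msm (Int.sign D') M') (msm (Int.sign D') M) := by
  obtain ⟨s, hs⟩ : ∃ s : ℤ, s = Int.sign D' := ⟨_, rfl⟩
  rw [← hs]
  have hD0 : D' ≠ 0 := taa_D' hF
  have hs2 : s * s = 1 := by
    rcases lt_or_gt_of_ne hD0 with h | h
    · rw [hs, Int.sign_eq_neg_one_of_neg h]; norm_num
    · rw [hs, Int.sign_eq_one_of_pos h]; norm_num
  have hsD : |D'| = s * D' := by
    rcases lt_or_gt_of_ne hD0 with h | h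
    · rw [hs, Int.sign_eq_neg_one_of_neg h, abs_of_neg h]; ring
    · rw [hs, Int.sign_eq_one_of_pos h, abs_of_pos h]; ring
  have hsa : |s| = 1 := by
    rcases lt_or_gt_of_ne hD0 with h | h
    · rw [hs, Int.sign_eq_neg_one_of_neg h]; norm_num
    · rw [hs, Int.sign_eq_one_of_pos h]; norm_num
  have hsr : |(s : ℝ)| = 1 := by exact_mod_cast hsa
  have hDD : |D'| * (s * D) = D * D' := by
    rw [hsD]
    linear_combination (D * D') * hs2
  have hsDabs : |s * D| = D := by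
    rw [abs_mul, hsa, one_mul]
    exact abs_of_pos (by have := hF.D1; omega)
  refine ⟨hF.hR, ?_, ?_, ?_, hF.D'1, hF.D'2, ?_, ?_, ?_, ?_, ?_, ?_, ?_, ?_, ?_, ?_⟩
  · rintro _ ⟨y, hy, rfl⟩
    have h := hF.pr y hy
    exact ⟨h.1.symm, h.2.1.symm, h.2.2.2, h.2.2.1⟩
  · rintro _ ⟨y, hy, rfl⟩
    exact hF.hB y hy
  · rintro _ ⟨y, hy, rfl⟩
    exact hF.hA y hy
  · rw [hsDabs]; exact hF.D1
  · rw [hsDabs]; exact hF.D2
  · rintro _ ⟨y, hy, rfl⟩
    show |D'| • uu y.1 = ap (msm s M') (uu y.2)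
    rw [ap_msm, ← hF.e2 y hy, smul_smul, hsD]
  · rintro _ ⟨y, hy, rfl⟩
    show (s * D) • uu y.2 = ap (msm s M) (uu y.1)
    rw [ap_msm, ← hF.e1 y hy, smul_smul]
  · intro v
    rw [ap_msm, ap_msm, ap_smul, hF.c2, smul_smul, smul_smul, hDD, hs2, one_mul]
  · intro v
    rw [ap_msm, ap_msm, ap_smul, hF.c1, smul_smul, smul_smul, hDD, hs2, one_mul]
  · rw [taa_dM, hs2, one_mul, hF.dm', hDD]
  · rw [taa_dM, hs2, one_mul, hF.dm, hDD]
  · intro v
    rw [ap_msm, nm_smul, hsr, one_mul]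
    exact hF.b2 v
  · intro v
    rw [ap_msm, nm_smul, hsr, one_mul]
    exact hF.b1 v

theorem fam_sub (hF : Fam R A B S D D' M M') {S' : Set PP} (h : S' ⊆ S) {A' B' : List Bool}
    (hA : ∀ x ∈ S', A' <:+ x.1) (hB : ∀ x ∈ S', B' <:+ x.2) : Fam R A' B' S' D D' M M' := by
  exact ⟨hF.hR, fun x hx => hF.pr x (h hx), hA, hB, hF.D1, hF.D2, hF.D'1, hF.D'2,
    fun x hx => hF.e1 x (h hx), fun x hx => hF.e2 x (h hx), hF.c1, hF.c2, hF.dm, hF.dm', hF.b1, hF.b2⟩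

theorem fam_exists (hR : 100 ≤ R) (hM : Mtc R S) (hA : ∀ x ∈ S, A <:+ x.1) (hB : ∀ x ∈ S, B <:+ x.2)
    (hr : R2' S) (h2 : ∃ x ∈ S, ∃ y ∈ S, x ≠ y) : ∃ D D' M M', Fam R A B S D D' M M' := by
  obtain ⟨x, hx, y, hy, hne⟩ := h2
  have h1ne : det (uu x.1) (uu y.1) ≠ 0 := fun h => hne (hM.i1 x hx y hy (par_eq h))
  rcases lt_or_gt_of_ne h1ne with h | h
  · have h' : 0 < det (uu y.1) (uu x.1) := by
      rw [det_swap]; omega
    exact taa_ex hR hM hA hB hr hy hx hne.symm h'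
  · exact taa_ex hR hM hA hB hr hx hy hne h

theorem fam_finite (hF : Fam R A B S D D' M M') : S.Finite := by
  have hfin : {p : List Bool | p.length ≤ R}.Finite := List.finite_length_le Bool R
  refine (hfin.prod hfin).subset ?_
  intro x hx
  have h := hF.pr x hx
  have h1 := ss_len x.1
  have h2 := ss_len x.2
  have h3 := h.2.2.1
  have h4 := h.2.2.2
  refine ⟨?_, ?_⟩
  · show x.1.length ≤ R
    omega
  · show x.2.length ≤ R
    omega

/-- two members give closeness of the functionals -/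
theorem fam_close (hF : Fam R A B S D D' M M') {x1 x2 : PP} (m1 : x1 ∈ S) (m2 : x2 ∈ S) (hne : x1 ≠ x2)
    {X Y : List Bool} (h1 : CC X (uu x1.1)) (h2 : CC X (uu x2.1)) (h3 : CC Y (uu x1.2)) (h4 : CC Y (uu x2.2))
    (v : ℤ × ℤ) : |D * LL X v - LL Y (ap M v)| ≤ 6 * (R : ℝ) ^ 5 * (ee X + ee Y) * nm v := by
  have hdet : det (uu x1.1) (uu x2.1) ≠ 0 := fun h => hne (fam_inj1 hF m1 m2 (par_eq h))
  have p1 := hF.pr x1 m1
  have p2 := hF.pr x2 m2
  have hD1 : (0 : ℝ) ≤ (D : ℝ) := by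
    have : (0 : ℤ) ≤ D := by have := hF.D1; omega
    exact_mod_cast this
  have hD2 : (D : ℝ) ≤ (R : ℝ) ^ 2 := by exact_mod_cast hF.D2
  have heX := ee_pos X
  have heY := ee_pos Y
  have key : ∀ x ∈ S, CC X (uu x.1) → CC Y (uu x.2) →
      |(D : ℝ) * LL X (uu x.1) - LL Y (ap M (uu x.1))| ≤ 3 * (R : ℝ) ^ 4 * (ee X + ee Y) := by
    intro x hx c1 c2
    have q := hF.pr x hx
    have f1 := cl c1 q.2.2.1
    have f2 := cl c2 q.2.2.2
    rw [← fam_ll hF hx] at f2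
    rw [← hF.e1 x hx, LL_smul, ← mul_sub, abs_mul, abs_of_nonneg hD1]
    have f3 : |LL X (uu x.1) - LL Y (uu x.2)| ≤ 3 * (R : ℝ) ^ 2 * (ee X + ee Y) := by
      have f4 : LL X (uu x.1) - LL Y (uu x.2) =
          -(ll x.1 - LL X (uu x.1)) + (ll x.1 - LL Y (uu x.2)) := by ring
      rw [f4]
      calc |-(ll x.1 - LL X (uu x.1)) + (ll x.1 - LL Y (uu x.2))|
          ≤ |-(ll x.1 - LL X (uu x.1))| + |ll x.1 - LL Y (uu x.2)| := abs_add_le _ _
        _ ≤ 3 * (R : ℝ) ^ 2 * ee X + 3 * (R : ℝ) ^ 2 * ee Y := by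
            rw [abs_neg]; exact add_le_add f1 f2
        _ = 3 * (R : ℝ) ^ 2 * (ee X + ee Y) := by ring
    calc (D : ℝ) * |LL X (uu x.1) - LL Y (uu x.2)|
        ≤ (R : ℝ) ^ 2 * (3 * (R : ℝ) ^ 2 * (ee X + ee Y)) :=
          mul_le_mul hD2 f3 (abs_nonneg _) (by positivity)
      _ = 3 * (R : ℝ) ^ 4 * (ee X + ee Y) := by ring
  have n1 : nm (uu x1.1) ≤ (R : ℝ) := by
    rw [nm_uu]; exact_mod_cast p1.2.2.1
  have n2 : nm (uu x2.1) ≤ (R : ℝ) := by
    rw [nm_uu]; exact_mod_cast p2.2.2.1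
  have ht : 0 ≤ 3 * (R : ℝ) ^ 4 * (ee X + ee Y) := by positivity
  have fin := close2 hdet n1 n2 ht (key x1 m1 h1 h3) (key x2 m2 h2 h4) v
  calc |(D : ℝ) * LL X v - LL Y (ap M v)| ≤ 2 * R * (3 * (R : ℝ) ^ 4 * (ee X + ee Y)) * nm v := fin
    _ = 6 * (R : ℝ) ^ 5 * (ee X + ee Y) * nm v := by ring

end Pool.Agent.Lib.MP_94ab62_ntZ
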