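import Pool.Agent.Lib.MP_94ab62_ntZ.LvE
import Pool.Agent.Lib.MP_94ab62_ntZ.TaA

/-!
# LvG: matchings: counting through leaves

`Mtc R S` (TaA): coincidences, both projections injective.
* `mtc_sub`, `mtc_swap` (`Pr R p q → Pr R q p`), `mtc_fin` (subset of `{q | ss q ≤ R} ×ˢ {q | ss q ≤ R}`, `fin_ss`).
* `mtc_fst`: `Prod.fst` is injective on `S` (`i1`) and maps it into the finite set `X`: `Set.ncard_le_ncard_of_injOn`.  `mtc_snd`: the same.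
* `mtc_prod`: `S ⊆ ⋃_{P ∈ X} ⋃_{H ∈ Y} {x ∈ S | P <:+ x.1 ∧ H <:+ x.2}`; `Finset.sum` over `X ×ˢ Y` (e.g. induction, or `Set.ncard` of a finite union `≤` sum: `Finset.set_ncard_biUnion_le`).
* `tf_count`: let `TFh`: for the pairs `(P,H)` with `¬ Dg R k P`: apply `mtc_prod` with `b = B / kap P`, and `∑_{P ∈ X} ∑_{H ∈ Y} B/kap P = #Y * B * ∑_{P∈X} 1/kap P`.
  (`hX`: every `P ∈ X` is a leaf of level `k` with `¬ Dg R k P`; `hY`: every `H ∈ Y` is a leaf of level `k`; `mtc_sub`.)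
* `tf_count'`: the same for the second coordinates: apply `tf_count` to `Prod.swap '' S` (`ncard` of an injective image).
-/

set_option autoImplicit false

namespace Pool.Agent.Lib.MP_94ab62_ntZ

open Pool.Agent.Lib.MP_94ab62_nt Pool.Agent.Lib.MP_94ab62_ntU

/-- the bound for nondegenerate pairs of leaves -/
def TFh (R k0 L : ℕ) (B : ℝ) : Prop :=
  ∀ (k : ℕ) (P H : List Bool) (S : Set PP), k0 ≤ k → k ≤ L → Lf k P → Lf k H → ¬ Dg R k P → Mtc R S →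
    (∀ x ∈ S, P <:+ x.1) → (∀ x ∈ S, H <:+ x.2) → (S.ncard : ℝ) ≤ B / kap P

/-- the bound for pairs of leaves of the last level -/
def ENh (R L : ℕ) (B : ℝ) : Prop :=
  ∀ (P H : List Bool) (S : Set PP), Lf L P → Lf L H → Mtc R S →
    (∀ x ∈ S, P <:+ x.1) → (∀ x ∈ S, H <:+ x.2) → (S.ncard : ℝ) ≤ B

theorem mtc_sub {R : ℕ} {S S' : Set PP} (h : Mtc R S) (hs : S' ⊆ S) : Mtc R S' := by
  exact ⟨fun x hx => h.pr x (hs hx), fun x hx y hy => h.i1 x (hs hx) y (hs hy),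
    fun x hx y hy => h.i2 x (hs hx) y (hs hy)⟩

theorem mtc_swap {R : ℕ} {S : Set PP} (h : Mtc R S) : Mtc R (Prod.swap '' S) := by
  refine ⟨?_, ?_, ?_⟩
  · rintro _ ⟨x, hx, rfl⟩
    obtain ⟨h1, h2, h3, h4⟩ := h.pr x hx
    exact ⟨h1.symm, h2.symm, h4, h3⟩
  · rintro _ ⟨x, hx, rfl⟩ _ ⟨y, hy, rfl⟩ hxy
    rw [h.i2 x hx y hy hxy]
  · rintro _ ⟨x, hx, rfl⟩ _ ⟨y, hy, rfl⟩ hxy
    rw [h.i1 x hx y hy hxy]

theorem mtc_fin {R : ℕ} {S : Set PP} (h : Mtc R S) : S.Finite := by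
  refine ((fin_ss R).prod (fin_ss R)).subset fun x hx => ?_
  obtain ⟨h1, h2, h3, h4⟩ := h.pr x hx
  exact ⟨h3, h4⟩

theorem mtc_fst {R : ℕ} {S : Set PP} (h : Mtc R S) {X : Set (List Bool)} (hX : X.Finite) (hs : ∀ x ∈ S, x.1 ∈ X) :
    S.ncard ≤ X.ncard := by
  exact Set.ncard_le_ncard_of_injOn Prod.fst hs (fun x hx y hy hxy => h.i1 x hx y hy hxy) hX

theorem mtc_snd {R : ℕ} {S : Set PP} (h : Mtc R S) {X : Set (List Bool)} (hX : X.Finite) (hs : ∀ x ∈ S, x.2 ∈ X) :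
    S.ncard ≤ X.ncard := by
  exact Set.ncard_le_ncard_of_injOn Prod.snd hs (fun x hx y hy hxy => h.i2 x hx y hy hxy) hX

theorem mtc_prod {R : ℕ} {S : Set PP} (h : Mtc R S) (X Y : Finset (List Bool)) (b : List Bool → List Bool → ℝ)
    (hs : ∀ x ∈ S, ∃ P ∈ X, ∃ H ∈ Y, P <:+ x.1 ∧ H <:+ x.2)
    (hb : ∀ P ∈ X, ∀ H ∈ Y, (({x | x ∈ S ∧ P <:+ x.1 ∧ H <:+ x.2} : Set PP).ncard : ℝ) ≤ b P H) :
    (S.ncard : ℝ) ≤ ∑ P ∈ X, ∑ H ∈ Y, b P H := by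
  classical
  have hf := mtc_fin h
  have h1 : S ⊆ ⋃ i ∈ X ×ˢ Y, ({x | x ∈ S ∧ i.1 <:+ x.1 ∧ i.2 <:+ x.2} : Set PP) := by
    intro x hx
    obtain ⟨P, hP, H, hH, h2, h3⟩ := hs x hx
    simp only [Set.mem_iUnion]
    exact ⟨(P, H), Finset.mem_product.2 ⟨hP, hH⟩, hx, h2, h3⟩
  have h2 : (⋃ i ∈ X ×ˢ Y, ({x | x ∈ S ∧ i.1 <:+ x.1 ∧ i.2 <:+ x.2} : Set PP)).Finite := by
    refine hf.subset ?_
    intro x hx
    simp only [Set.mem_iUnion] at hx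
    obtain ⟨i, -, hx1, -⟩ := hx
    exact hx1
  have h3 := Set.ncard_le_ncard h1 h2
  have h4 := Finset.set_ncard_biUnion_le (X ×ˢ Y)
    (fun i : List Bool × List Bool => ({x | x ∈ S ∧ i.1 <:+ x.1 ∧ i.2 <:+ x.2} : Set PP))
  have h5 : (S.ncard : ℝ) ≤
      ((∑ i ∈ X ×ˢ Y, ({x | x ∈ S ∧ i.1 <:+ x.1 ∧ i.2 <:+ x.2} : Set PP).ncard : ℕ) : ℝ) :=
    Nat.cast_le.2 (h3.trans h4)
  refine h5.trans ?_
  push_cast
  rw [Finset.sum_product]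
  exact Finset.sum_le_sum fun P hP => Finset.sum_le_sum fun H hH => hb P hP H hH

theorem tf_count {R k0 L k : ℕ} {B : ℝ} (hT : TFh R k0 L B) (hk : k0 ≤ k) (hkL : k ≤ L) {S : Set PP} (h : Mtc R S)
    (X Y : Finset (List Bool)) (hX : ∀ P ∈ X, Lf k P ∧ ¬ Dg R k P) (hY : ∀ H ∈ Y, Lf k H)
    (hs : ∀ x ∈ S, ∃ P ∈ X, ∃ H ∈ Y, P <:+ x.1 ∧ H <:+ x.2) :
    (S.ncard : ℝ) ≤ Y.card * B * ∑ P ∈ X, 1 / kap P := by
  have h1 := mtc_prod h X Y (fun P _ => B / kap P) hs (fun P hP H hH =>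
    hT k P H _ hk hkL (hX P hP).1 (hY H hH) (hX P hP).2 (mtc_sub h (fun x hx => hx.1))
      (fun x hx => hx.2.1) (fun x hx => hx.2.2))
  refine h1.trans (le_of_eq ?_)
  rw [Finset.mul_sum]
  refine Finset.sum_congr rfl fun P _ => ?_
  rw [Finset.sum_const, nsmul_eq_mul]
  ring

theorem tf_count' {R k0 L k : ℕ} {B : ℝ} (hT : TFh R k0 L B) (hk : k0 ≤ k) (hkL : k ≤ L) {S : Set PP} (h : Mtc R S)
    (X Y : Finset (List Bool)) (hX : ∀ P ∈ X, Lf k P ∧ ¬ Dg R k P) (hY : ∀ H ∈ Y, Lf k H)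
    (hs : ∀ x ∈ S, ∃ P ∈ X, ∃ H ∈ Y, P <:+ x.2 ∧ H <:+ x.1) :
    (S.ncard : ℝ) ≤ Y.card * B * ∑ P ∈ X, 1 / kap P := by
  have h1 : (Prod.swap '' S).ncard = S.ncard := Set.ncard_image_of_injective S Prod.swap_injective
  rw [← h1]
  refine tf_count hT hk hkL (mtc_swap h) X Y hX hY ?_
  rintro _ ⟨x, hx, rfl⟩
  exact hs x hx

end Pool.Agent.Lib.MP_94ab62_ntZ
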