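import Pool.Agent.Lib.MP_94ab62_ntZ.LvF
import Pool.Agent.Lib.MP_94ab62_ntZ.LvG

/-!
# LvH: sum over the levels

`EE R k x` = both coordinates have a degenerate leaf of level `k` above them.
* `cover`: let `x ∈ S`.  If `mx x.1 < k0` or `mx x.2 < k0`: first alternative.  Otherwise let `k` be the least natural number with `k0 ≤ k ≤ L` and `¬ EE R k x` (`Nat.find`); if there is none then `EE R L x`: last
  alternative.  If `k ≤ mx x.1` and `k ≤ mx x.2`: second alternative for `k` (`k = k0` or `EE R (k-1) x` by minimality).  Otherwise `k ≠ k0`, `EE R (k-1) x` and (`mx x.1 < (k-1) + 1` or `mx x.2 < (k-1)+1`): third alternative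
  for `k - 1`.
* `cnt_first`: `A0 = {x ∈ S | mx x.1 < k0}` and `{x ∈ S | mx x.2 < k0}`: `mtc_fst`, `mtc_snd` with `X = {x | mx x < k0}` (`mx_card`): `≤ 9 k0² + 9 k0²`.
* `cnt_base`: `x ∈ S` with `k0 ≤ mx x.1, mx x.2`, `¬ EE R k0 x`: `P = ct k0 x.1`, `H = ct k0 x.2` are leaves of level `k0` (`ct_mem`), `ss P ≤ ss x.1 ≤ R`, so `P ∉ DL` means `¬ Dg R k0 P`, or the same for `H`.
  Split in two sets; `tf_count`, `tf_count'` with `X = {P | Lf k0 P ∧ ¬ Dg R k0 P}`, `Y = {P | Lf k0 P}` (finite: `Lf_card`), `1/kap P ≤ 10/9` (`kap_ge`): `≤ 2 * (18 k0²) * B * (18 k0² * 10/9) ≤ 720 k0^4 B`.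
* `cnt_lev`: `k0 ≤ k < L`, `x ∈ S` with `k + 1 ≤ mx x.1, mx x.2`, `EE R k x`, `¬ EE R (k+1) x`: `P = ct (k+1) x.1`, `H = ct (k+1) x.2` are in `DP R k` (`ct k P = ct k x.1` by `ct_ct`), one of them not in `DL R (k+1)`; such a node
  is not `Dg R (k+1)` (it is a leaf of level `k+1` with `ss ≤ R`).  `tf_count`, `tf_count'` at level `k+1`: `≤ 2 * (7d) * B * ∑_{P ∈ DP R k \ DL R (k+1)} 1/kap P`.   (Write `((k+1 : ℕ) : ℝ) = (k:ℝ) + 1` by `Nat.cast_succ`.)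
* `cnt_mid`: `x ∈ S` with `EE R k x` and `mx x.1 < k+1`: `mtc_fst` with the set of `md_card`: `≤ 3 d`; the same for `x.2`: together `≤ 6 d`.
* `cnt_last`: `EE R L x`: `mtc_prod` with `X = Y = DL R L` and `b = B2`: `≤ d² B2`.
* `levels`: `cover`, sum over `k`; the sum over `k ∈ [k0, L)` of `cnt_lev` is `≤ 14 d B * (32 d (1 + log L) + 36 k0²)` by `sum_E` with `E = ⋃_k {k} × (DP R k \ DL R (k+1))`.
-/

set_option autoImplicit false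

namespace Pool.Agent.Lib.MP_94ab62_ntZ

open Pool.Agent.Lib.MP_94ab62_nt Pool.Agent.Lib.MP_94ab62_ntU

/-- both coordinates lie below a degenerate leaf of level `k` -/
def EE (R : ℕ) (k : ℝ) (x : PP) : Prop :=
  k ≤ mx x.1 ∧ k ≤ mx x.2 ∧ ct k x.1 ∈ DL R k ∧ ct k x.2 ∈ DL R k

private theorem lvh_split {S A B : Set PP} (hS : S.Finite) (hA : A ⊆ S) (hB : B ⊆ S) (h : S ⊆ A ∪ B) :
    S.ncard ≤ A.ncard + B.ncard :=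
  (Set.ncard_le_ncard h ((hS.subset hA).union (hS.subset hB))).trans (Set.ncard_union_le _ _)

private theorem lvh_kap (P : List Bool) : 1 / kap P ≤ 10 / 9 := by
  have h := kap_ge P
  have h1 : 1 / kap P ≤ 1 / (9 / 10) := one_div_le_one_div_of_le (by norm_num) h
  linarith [show (1 : ℝ) / (9 / 10) = 10 / 9 by norm_num]

private theorem lvh_kap0 (P : List Bool) : 0 ≤ 1 / kap P := by
  have h := kap_ge P
  exact div_nonneg zero_le_one (by linarith)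

private theorem lvh_fin_card {A : Set (List Bool)} (hA : A.Finite) : hA.toFinset.card = A.ncard :=
  (Set.ncard_eq_toFinset_card A hA).symm

theorem cover (R : ℕ) {k0 L : ℕ} (hL : k0 ≤ L) (x : PP) :
    (mx x.1 < k0 ∨ mx x.2 < k0) ∨
    ((k0 : ℝ) ≤ mx x.1 ∧ (k0 : ℝ) ≤ mx x.2 ∧ ¬ EE R k0 x) ∨
    (∃ k : ℕ, k0 ≤ k ∧ k < L ∧ (k : ℝ) + 1 ≤ mx x.1 ∧ (k : ℝ) + 1 ≤ mx x.2 ∧ EE R k x ∧ ¬ EE R ((k : ℝ) + 1) x) ∨
    (∃ k : ℕ, k0 ≤ k ∧ k < L ∧ EE R k x ∧ (mx x.1 < (k : ℝ) + 1 ∨ mx x.2 < (k : ℝ) + 1)) ∨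
    EE R L x := by
  classical
  by_cases h1 : mx x.1 < k0 ∨ mx x.2 < k0
  · exact Or.inl h1
  rw [not_or, not_lt, not_lt] at h1
  obtain ⟨h1a, h1b⟩ := h1
  by_cases h2 : EE R k0 x
  swap
  · exact Or.inr (Or.inl ⟨h1a, h1b, h2⟩)
  by_cases h3 : EE R L x
  · exact Or.inr (Or.inr (Or.inr (Or.inr h3)))
  have hex : ∃ n : ℕ, k0 ≤ n ∧ ¬ EE R n x := ⟨L, hL, h3⟩
  obtain ⟨n, hn⟩ : ∃ n, n = Nat.find hex := ⟨_, rfl⟩
  obtain ⟨hn1, hn2⟩ := Nat.find_spec hex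
  rw [← hn] at hn1 hn2
  have hnk : n ≠ k0 := by
    intro h
    rw [h] at hn2
    exact hn2 h2
  obtain ⟨k, hk⟩ : ∃ k, n = k + 1 := ⟨n - 1, by omega⟩
  have hk0 : k0 ≤ k := by omega
  have hkE : EE R k x := by
    by_contra hc
    exact Nat.find_min hex (m := k) (by omega) ⟨hk0, hc⟩
  have hnL : n ≤ L := by
    rw [hn]
    exact Nat.find_min' hex ⟨hL, h3⟩
  have hkL : k < L := by omega
  have hn2' : ¬ EE R ((k : ℝ) + 1) x := by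
    rw [hk, Nat.cast_succ] at hn2
    exact hn2
  by_cases h4 : (k : ℝ) + 1 ≤ mx x.1 ∧ (k : ℝ) + 1 ≤ mx x.2
  · exact Or.inr (Or.inr (Or.inl ⟨k, hk0, hkL, h4.1, h4.2, hkE, hn2'⟩))
  · refine Or.inr (Or.inr (Or.inr (Or.inl ⟨k, hk0, hkL, hkE, ?_⟩)))
    by_contra hc
    rw [not_or, not_lt, not_lt] at hc
    exact h4 hc

theorem cnt_first {R k0 : ℕ} {S : Set PP} (h : Mtc R S) (hs : ∀ x ∈ S, mx x.1 < k0 ∨ mx x.2 < k0) :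
    (S.ncard : ℝ) ≤ 18 * (k0 : ℝ) ^ 2 := by
  have hfin := mtc_fin h
  obtain ⟨hXf, hXc⟩ := mx_card k0
  have h1 : ({x | x ∈ S ∧ mx x.1 < k0} : Set PP).ncard ≤ {x : List Bool | mx x < k0}.ncard :=
    mtc_fst (mtc_sub h fun x hx => hx.1) hXf fun x hx => hx.2
  have h2 : ({x | x ∈ S ∧ mx x.2 < k0} : Set PP).ncard ≤ {x : List Bool | mx x < k0}.ncard :=
    mtc_snd (mtc_sub h fun x hx => hx.1) hXf fun x hx => hx.2
  have h3 := lvh_split (S := S) (A := {x | x ∈ S ∧ mx x.1 < k0}) (B := {x | x ∈ S ∧ mx x.2 < k0}) hfin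
    (fun x hx => hx.1) (fun x hx => hx.1)
    (fun x hx => (hs x hx).elim (fun h => Or.inl ⟨hx, h⟩) (fun h => Or.inr ⟨hx, h⟩))
  have h5 : S.ncard ≤ 18 * k0 ^ 2 := by omega
  exact_mod_cast h5

theorem cnt_base {R k0 L : ℕ} {B : ℝ} (hB : 0 ≤ B) (hT : TFh R k0 L B) (hk0 : 2 ≤ k0) (hL : k0 ≤ L) {S : Set PP} (h : Mtc R S)
    (hs : ∀ x ∈ S, (k0 : ℝ) ≤ mx x.1 ∧ (k0 : ℝ) ≤ mx x.2 ∧ ¬ EE R k0 x) :
    (S.ncard : ℝ) ≤ 720 * (k0 : ℝ) ^ 4 * B := by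
  classical
  have hfin := mtc_fin h
  obtain ⟨hYf, hYc⟩ := Lf_card k0
  have h2k : (2 : ℝ) ≤ (k0 : ℝ) := by exact_mod_cast hk0
  obtain ⟨Y, hY⟩ : ∃ Y : Finset (List Bool), Y = hYf.toFinset := ⟨_, rfl⟩
  have hYm : ∀ H, H ∈ Y ↔ Lf k0 H := by
    intro H
    rw [hY, Set.Finite.mem_toFinset]
    rfl
  have hYcard : (Y.card : ℝ) ≤ 18 * (k0 : ℝ) ^ 2 := by
    rw [hY, lvh_fin_card]
    exact_mod_cast hYc
  obtain ⟨X, hX⟩ : ∃ X : Finset (List Bool), X = Y.filter (fun P => ¬ Dg R k0 P) := ⟨_, rfl⟩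
  have hXm : ∀ P, P ∈ X ↔ Lf k0 P ∧ ¬ Dg R k0 P := by
    intro P
    rw [hX, Finset.mem_filter, hYm]
  have hXcard : (X.card : ℝ) ≤ 18 * (k0 : ℝ) ^ 2 := by
    refine le_trans ?_ hYcard
    rw [hX]
    exact_mod_cast Finset.card_filter_le _ _
  have hsum : ∑ P ∈ X, 1 / kap P ≤ 20 * (k0 : ℝ) ^ 2 := by
    refine (Finset.sum_le_card_nsmul X _ (10 / 9) fun P _ => lvh_kap P).trans ?_
    rw [nsmul_eq_mul]
    linarith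
  have hsum0 : 0 ≤ ∑ P ∈ X, 1 / kap P := Finset.sum_nonneg fun P _ => lvh_kap0 P
  have hbd : (Y.card : ℝ) * B * ∑ P ∈ X, 1 / kap P ≤ 360 * (k0 : ℝ) ^ 4 * B := by
    have h1 : (Y.card : ℝ) * B ≤ 18 * (k0 : ℝ) ^ 2 * B := mul_le_mul_of_nonneg_right hYcard hB
    have h2 : 0 ≤ 18 * (k0 : ℝ) ^ 2 * B := mul_nonneg (by positivity) hB
    calc (Y.card : ℝ) * B * ∑ P ∈ X, 1 / kap P ≤ (18 * (k0 : ℝ) ^ 2 * B) * ∑ P ∈ X, 1 / kap P :=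
          mul_le_mul_of_nonneg_right h1 hsum0
      _ ≤ (18 * (k0 : ℝ) ^ 2 * B) * (20 * (k0 : ℝ) ^ 2) := mul_le_mul_of_nonneg_left hsum h2
      _ = 360 * (k0 : ℝ) ^ 4 * B := by ring
  have hlf1 : ∀ x ∈ S, Lf k0 (ct k0 x.1) := fun x hx => ct_mem h2k (hs x hx).1
  have hlf2 : ∀ x ∈ S, Lf k0 (ct k0 x.2) := fun x hx => ct_mem h2k (hs x hx).2.1
  have hss1 : ∀ x ∈ S, ss (ct k0 x.1) ≤ R := fun x hx => (ss_suffix (ct_suffix _ _)).trans (h.pr x hx).2.2.1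
  have hss2 : ∀ x ∈ S, ss (ct k0 x.2) ≤ R := fun x hx => (ss_suffix (ct_suffix _ _)).trans (h.pr x hx).2.2.2
  have h1 : (({x | x ∈ S ∧ ct k0 x.1 ∉ DL R k0} : Set PP).ncard : ℝ) ≤ 360 * (k0 : ℝ) ^ 4 * B := by
    refine (tf_count hT le_rfl hL (mtc_sub h fun x hx => hx.1) X Y (fun P hP => (hXm P).1 hP)
      (fun H hH => (hYm H).1 hH) ?_).trans hbd
    rintro x ⟨hx, hx2⟩
    refine ⟨ct k0 x.1, (hXm _).2 ⟨hlf1 x hx, fun hd => hx2 ⟨hlf1 x hx, hss1 x hx, hd⟩⟩,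
      ct k0 x.2, (hYm _).2 (hlf2 x hx), ct_suffix _ _, ct_suffix _ _⟩
  have h2 : (({x | x ∈ S ∧ ct k0 x.2 ∉ DL R k0} : Set PP).ncard : ℝ) ≤ 360 * (k0 : ℝ) ^ 4 * B := by
    refine (tf_count' hT le_rfl hL (mtc_sub h fun x hx => hx.1) X Y (fun P hP => (hXm P).1 hP)
      (fun H hH => (hYm H).1 hH) ?_).trans hbd
    rintro x ⟨hx, hx2⟩
    refine ⟨ct k0 x.2, (hXm _).2 ⟨hlf2 x hx, fun hd => hx2 ⟨hlf2 x hx, hss2 x hx, hd⟩⟩,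
      ct k0 x.1, (hYm _).2 (hlf1 x hx), ct_suffix _ _, ct_suffix _ _⟩
  have h3 := lvh_split (S := S) (A := {x | x ∈ S ∧ ct k0 x.1 ∉ DL R k0})
    (B := {x | x ∈ S ∧ ct k0 x.2 ∉ DL R k0}) hfin (fun x hx => hx.1) (fun x hx => hx.1)
    (fun x hx => by
      obtain ⟨e1, e2, e3⟩ := hs x hx
      by_cases hc : ct k0 x.1 ∈ DL R k0
      · exact Or.inr ⟨hx, fun hd => e3 ⟨e1, e2, hc, hd⟩⟩
      · exact Or.inl ⟨hx, hc⟩)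
  have h4 : (S.ncard : ℝ) ≤ (({x | x ∈ S ∧ ct k0 x.1 ∉ DL R k0} : Set PP).ncard : ℝ) +
      (({x | x ∈ S ∧ ct k0 x.2 ∉ DL R k0} : Set PP).ncard : ℝ) := by exact_mod_cast h3
  linarith

theorem cnt_lev {R k0 L k d : ℕ} {B : ℝ} (hB : 0 ≤ B) (hT : TFh R k0 L B) (hk0 : 2 ≤ k0) (hk : k0 ≤ k) (hkL : k < L)
    (hd : (DL R k).ncard ≤ d) {S : Set PP} (h : Mtc R S)
    (hs : ∀ x ∈ S, (k : ℝ) + 1 ≤ mx x.1 ∧ (k : ℝ) + 1 ≤ mx x.2 ∧ EE R k x ∧ ¬ EE R ((k : ℝ) + 1) x) (X : Finset (List Bool))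
    (hX : ∀ P, P ∈ X ↔ P ∈ DP R k ∧ P ∉ DL R ((k : ℝ) + 1)) :
    (S.ncard : ℝ) ≤ 14 * d * B * ∑ P ∈ X, 1 / kap P := by
  classical
  have hfin := mtc_fin h
  have hcs : ((k + 1 : ℕ) : ℝ) = (k : ℝ) + 1 := Nat.cast_succ k
  have h2k : (2 : ℝ) ≤ (k : ℝ) := by exact_mod_cast hk0.trans hk
  have h2k1 : (2 : ℝ) ≤ (k : ℝ) + 1 := by linarith
  obtain ⟨Y, hY⟩ : ∃ Y : Finset (List Bool), Y = (dp_fin R k).toFinset := ⟨_, rfl⟩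
  have hYm : ∀ H, H ∈ Y ↔ H ∈ DP R k := by
    intro H
    rw [hY, Set.Finite.mem_toFinset]
  have hYcard : (Y.card : ℝ) ≤ 7 * d := by
    rw [hY, lvh_fin_card]
    have h1 := dp_card (R := R) (k := k) (hk0.trans hk)
    have h2 : (DP R k).ncard ≤ 7 * d := by omega
    exact_mod_cast h2
  have hsum0 : 0 ≤ ∑ P ∈ X, 1 / kap P := Finset.sum_nonneg fun P _ => lvh_kap0 P
  have hbd : (Y.card : ℝ) * B * ∑ P ∈ X, 1 / kap P ≤ 7 * d * B * ∑ P ∈ X, 1 / kap P :=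
    mul_le_mul_of_nonneg_right (mul_le_mul_of_nonneg_right hYcard hB) hsum0
  have hXn : ∀ P ∈ X, Lf ((k + 1 : ℕ) : ℝ) P ∧ ¬ Dg R ((k + 1 : ℕ) : ℝ) P := by
    intro P hP
    obtain ⟨hP1, hP2⟩ := (hX P).1 hP
    rw [hcs]
    exact ⟨hP1.1, fun hd => hP2 ⟨hP1.1, hP1.2.1, hd⟩⟩
  have hYn : ∀ H ∈ Y, Lf ((k + 1 : ℕ) : ℝ) H := by
    intro H hH
    rw [hcs]
    exact ((hYm H).1 hH).1
  have hdp1 : ∀ x ∈ S, ct ((k : ℝ) + 1) x.1 ∈ DP R k := by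
    intro x hx
    obtain ⟨e1, e2, e3, e4⟩ := hs x hx
    refine ⟨ct_mem h2k1 e1, (ss_suffix (ct_suffix _ _)).trans (h.pr x hx).2.2.1, ?_⟩
    rw [(ct_ct (by linarith) e1).1]
    exact e3.2.2.1
  have hdp2 : ∀ x ∈ S, ct ((k : ℝ) + 1) x.2 ∈ DP R k := by
    intro x hx
    obtain ⟨e1, e2, e3, e4⟩ := hs x hx
    refine ⟨ct_mem h2k1 e2, (ss_suffix (ct_suffix _ _)).trans (h.pr x hx).2.2.2, ?_⟩
    rw [(ct_ct (by linarith) e2).1]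
    exact e3.2.2.2
  have h1 : (({x | x ∈ S ∧ ct ((k : ℝ) + 1) x.1 ∉ DL R ((k : ℝ) + 1)} : Set PP).ncard : ℝ) ≤
      7 * d * B * ∑ P ∈ X, 1 / kap P := by
    refine (tf_count hT (k := k + 1) (by omega) (by omega) (mtc_sub h fun x hx => hx.1) X Y hXn hYn ?_).trans hbd
    rintro x ⟨hx, hx2⟩
    exact ⟨ct ((k : ℝ) + 1) x.1, (hX _).2 ⟨hdp1 x hx, hx2⟩, ct ((k : ℝ) + 1) x.2, (hYm _).2 (hdp2 x hx),
      ct_suffix _ _, ct_suffix _ _⟩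
  have h2 : (({x | x ∈ S ∧ ct ((k : ℝ) + 1) x.2 ∉ DL R ((k : ℝ) + 1)} : Set PP).ncard : ℝ) ≤
      7 * d * B * ∑ P ∈ X, 1 / kap P := by
    refine (tf_count' hT (k := k + 1) (by omega) (by omega) (mtc_sub h fun x hx => hx.1) X Y hXn hYn ?_).trans hbd
    rintro x ⟨hx, hx2⟩
    exact ⟨ct ((k : ℝ) + 1) x.2, (hX _).2 ⟨hdp2 x hx, hx2⟩, ct ((k : ℝ) + 1) x.1, (hYm _).2 (hdp1 x hx),
      ct_suffix _ _, ct_suffix _ _⟩
  have h3 := lvh_split (S := S) (A := {x | x ∈ S ∧ ct ((k : ℝ) + 1) x.1 ∉ DL R ((k : ℝ) + 1)})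
    (B := {x | x ∈ S ∧ ct ((k : ℝ) + 1) x.2 ∉ DL R ((k : ℝ) + 1)}) hfin (fun x hx => hx.1) (fun x hx => hx.1)
    (fun x hx => by
      obtain ⟨e1, e2, e3, e4⟩ := hs x hx
      by_cases hc : ct ((k : ℝ) + 1) x.1 ∈ DL R ((k : ℝ) + 1)
      · exact Or.inr ⟨hx, fun hd => e4 ⟨e1, e2, hc, hd⟩⟩
      · exact Or.inl ⟨hx, hc⟩)
  have h4 : (S.ncard : ℝ) ≤ (({x | x ∈ S ∧ ct ((k : ℝ) + 1) x.1 ∉ DL R ((k : ℝ) + 1)} : Set PP).ncard : ℝ) +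
      (({x | x ∈ S ∧ ct ((k : ℝ) + 1) x.2 ∉ DL R ((k : ℝ) + 1)} : Set PP).ncard : ℝ) := by exact_mod_cast h3
  linarith

theorem cnt_mid {R k d : ℕ} (hk : 2 ≤ k) (hd : (DL R k).ncard ≤ d) {S : Set PP} (h : Mtc R S)
    (hs : ∀ x ∈ S, EE R k x ∧ (mx x.1 < (k : ℝ) + 1 ∨ mx x.2 < (k : ℝ) + 1)) : (S.ncard : ℝ) ≤ 6 * d := by
  have hfin := mtc_fin h
  obtain ⟨hXf, hXc⟩ := md_card (R := R) hk
  have h1 := mtc_fst (S := {x | x ∈ S ∧ mx x.1 < (k : ℝ) + 1}) (mtc_sub h fun x hx => hx.1) hXf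
    (fun x hx => ⟨(hs x hx.1).1.1, hx.2, (hs x hx.1).1.2.2.1⟩)
  have h2 := mtc_snd (S := {x | x ∈ S ∧ mx x.2 < (k : ℝ) + 1}) (mtc_sub h fun x hx => hx.1) hXf
    (fun x hx => ⟨(hs x hx.1).1.2.1, hx.2, (hs x hx.1).1.2.2.2⟩)
  have h3 := lvh_split (S := S) (A := {x | x ∈ S ∧ mx x.1 < (k : ℝ) + 1})
    (B := {x | x ∈ S ∧ mx x.2 < (k : ℝ) + 1}) hfin (fun x hx => hx.1) (fun x hx => hx.1)
    (fun x hx => (hs x hx).2.elim (fun h => Or.inl ⟨hx, h⟩) (fun h => Or.inr ⟨hx, h⟩))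
  have h5 : S.ncard ≤ 6 * d := by omega
  exact_mod_cast h5

theorem cnt_last {R L d : ℕ} {B : ℝ} (hB : 0 ≤ B) (hE : ENh R L B) (hL : 2 ≤ L) (hd : (DL R L).ncard ≤ d) {S : Set PP} (h : Mtc R S)
    (hs : ∀ x ∈ S, EE R L x) : (S.ncard : ℝ) ≤ (d : ℝ) ^ 2 * B := by
  obtain ⟨X, hX⟩ : ∃ X : Finset (List Bool), X = (dl_fin R L).toFinset := ⟨_, rfl⟩
  have hXm : ∀ P, P ∈ X ↔ P ∈ DL R L := by
    intro P
    rw [hX, Set.Finite.mem_toFinset]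
  have hXcard : (X.card : ℝ) ≤ d := by
    rw [hX, lvh_fin_card]
    exact_mod_cast hd
  have h1 := mtc_prod h X X (fun _ _ => B)
    (fun x hx => ⟨ct L x.1, (hXm _).2 (hs x hx).2.2.1, ct L x.2, (hXm _).2 (hs x hx).2.2.2,
      ct_suffix _ _, ct_suffix _ _⟩)
    (fun P hP H hH => hE P H _ ((hXm P).1 hP).1 ((hXm H).1 hH).1 (mtc_sub h fun x hx => hx.1)
      (fun x hx => hx.2.1) (fun x hx => hx.2.2))
  rw [Finset.sum_const, Finset.sum_const, nsmul_eq_mul, nsmul_eq_mul] at h1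
  refine h1.trans ?_
  have h0 : (0 : ℝ) ≤ X.card := Nat.cast_nonneg _
  calc (X.card : ℝ) * (X.card * B) = (X.card * X.card) * B := by ring
    _ ≤ ((d : ℝ) * d) * B := mul_le_mul_of_nonneg_right (mul_le_mul hXcard hXcard h0 (Nat.cast_nonneg _)) hB
    _ = (d : ℝ) ^ 2 * B := by ring

theorem levels {R k0 L d : ℕ} {B B2 : ℝ} (hR : 100 ≤ R) (hk0 : 10 ≤ k0) (hL : k0 ≤ L) (hB : 0 ≤ B) (hB2 : 0 ≤ B2)
    (hd : ∀ k : ℕ, k0 ≤ k → (DL R k).ncard ≤ d) (hT : TFh R k0 L B) (hE : ENh R L B2) {S : Set PP} (h : Mtc R S) :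
    (S.ncard : ℝ) ≤ 18 * (k0 : ℝ) ^ 2 + 720 * (k0 : ℝ) ^ 4 * B +
      14 * d * B * (32 * d * (1 + Real.log L) + 36 * (k0 : ℝ) ^ 2) + 6 * d * L + (d : ℝ) ^ 2 * B2 := by
  classical
  have hfin := mtc_fin h
  have hk02 : 2 ≤ k0 := by omega
  have hsub : ∀ A : Set PP, A ⊆ S → Mtc R A := fun A hA => mtc_sub h hA
  obtain ⟨S1, hS1⟩ : ∃ A : Set PP, A = {x | x ∈ S ∧ (mx x.1 < k0 ∨ mx x.2 < k0)} := ⟨_, rfl⟩
  obtain ⟨S2, hS2⟩ : ∃ A : Set PP, A = {x | x ∈ S ∧ ((k0 : ℝ) ≤ mx x.1 ∧ (k0 : ℝ) ≤ mx x.2 ∧ ¬ EE R k0 x)} :=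
    ⟨_, rfl⟩
  obtain ⟨S3, hS3⟩ : ∃ A : ℕ → Set PP, A = fun k : ℕ => {x | x ∈ S ∧ ((k : ℝ) + 1 ≤ mx x.1 ∧
      (k : ℝ) + 1 ≤ mx x.2 ∧ EE R k x ∧ ¬ EE R ((k : ℝ) + 1) x)} := ⟨_, rfl⟩
  obtain ⟨S4, hS4⟩ : ∃ A : ℕ → Set PP, A = fun k : ℕ => {x | x ∈ S ∧ (EE R k x ∧
      (mx x.1 < (k : ℝ) + 1 ∨ mx x.2 < (k : ℝ) + 1))} := ⟨_, rfl⟩
  obtain ⟨S5, hS5⟩ : ∃ A : Set PP, A = {x | x ∈ S ∧ EE R L x} := ⟨_, rfl⟩
  have u1 : S1 ⊆ S := by rw [hS1]; exact fun x hx => hx.1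
  have u2 : S2 ⊆ S := by rw [hS2]; exact fun x hx => hx.1
  have u3 : ∀ k, S3 k ⊆ S := by intro k; rw [hS3]; exact fun x hx => hx.1
  have u4 : ∀ k, S4 k ⊆ S := by intro k; rw [hS4]; exact fun x hx => hx.1
  have u5 : S5 ⊆ S := by rw [hS5]; exact fun x hx => hx.1
  have n1 : (S1.ncard : ℝ) ≤ 18 * (k0 : ℝ) ^ 2 :=
    cnt_first (hsub S1 u1) (by rw [hS1]; exact fun x hx => hx.2)
  have n2 : (S2.ncard : ℝ) ≤ 720 * (k0 : ℝ) ^ 4 * B :=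
    cnt_base hB hT hk02 hL (hsub S2 u2) (by rw [hS2]; exact fun x hx => hx.2)
  have n5 : (S5.ncard : ℝ) ≤ (d : ℝ) ^ 2 * B2 :=
    cnt_last hB2 hE (by omega) (hd L hL) (hsub S5 u5) (by rw [hS5]; exact fun x hx => hx.2)
  have n4 : ∀ k ∈ Finset.Ico k0 L, ((S4 k).ncard : ℝ) ≤ 6 * d := by
    intro k hk
    rw [Finset.mem_Ico] at hk
    exact cnt_mid (by omega) (hd k hk.1) (hsub (S4 k) (u4 k)) (by rw [hS4]; exact fun x hx => hx.2)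
  obtain ⟨Z, hZ⟩ : ∃ Z : Finset (List Bool), Z = (fin_ss R).toFinset := ⟨_, rfl⟩
  have hZm : ∀ P, P ∈ Z ↔ ss P ≤ R := by
    intro P
    rw [hZ, Set.Finite.mem_toFinset]
    rfl
  have n3 : ∀ k ∈ Finset.Ico k0 L, ((S3 k).ncard : ℝ) ≤ 14 * d * B *
      ∑ P ∈ Z.filter (fun P => P ∈ DP R k ∧ P ∉ DL R ((k : ℝ) + 1)), 1 / kap P := by
    intro k hk
    rw [Finset.mem_Ico] at hk
    refine cnt_lev hB hT hk02 hk.1 hk.2 (hd k hk.1) (hsub (S3 k) (u3 k))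
      (by rw [hS3]; exact fun x hx => hx.2) _ ?_
    intro P
    rw [Finset.mem_filter, hZm]
    exact ⟨fun h => h.2, fun h => ⟨h.1.2.1, h⟩⟩
  have hcov : S ⊆ S1 ∪ (S2 ∪ ((⋃ k ∈ Finset.Ico k0 L, S3 k) ∪ ((⋃ k ∈ Finset.Ico k0 L, S4 k) ∪ S5))) := by
    intro x hx
    rcases cover R hL x with h1 | h1 | ⟨k, h1, h2, h3⟩ | ⟨k, h1, h2, h3⟩ | h1
    · exact Or.inl (by rw [hS1]; exact ⟨hx, h1⟩)
    · exact Or.inr (Or.inl (by rw [hS2]; exact ⟨hx, h1⟩))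
    · refine Or.inr (Or.inr (Or.inl ?_))
      rw [Set.mem_iUnion₂]
      exact ⟨k, Finset.mem_Ico.2 ⟨h1, h2⟩, by rw [hS3]; exact ⟨hx, h3⟩⟩
    · refine Or.inr (Or.inr (Or.inr (Or.inl ?_)))
      rw [Set.mem_iUnion₂]
      exact ⟨k, Finset.mem_Ico.2 ⟨h1, h2⟩, by rw [hS4]; exact ⟨hx, h3⟩⟩
    · exact Or.inr (Or.inr (Or.inr (Or.inr (by rw [hS5]; exact ⟨hx, h1⟩))))
  have w3 : (⋃ k ∈ Finset.Ico k0 L, S3 k) ⊆ S := Set.iUnion₂_subset fun k _ => u3 k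
  have w4 : (⋃ k ∈ Finset.Ico k0 L, S4 k) ⊆ S := Set.iUnion₂_subset fun k _ => u4 k
  have hcount : S.ncard ≤ S1.ncard + (S2.ncard + ((∑ k ∈ Finset.Ico k0 L, (S3 k).ncard) +
      ((∑ k ∈ Finset.Ico k0 L, (S4 k).ncard) + S5.ncard))) := by
    have hf : (S1 ∪ (S2 ∪ ((⋃ k ∈ Finset.Ico k0 L, S3 k) ∪ ((⋃ k ∈ Finset.Ico k0 L, S4 k) ∪ S5)))).Finite :=
      hfin.subset (Set.union_subset u1 (Set.union_subset u2 (Set.union_subset w3 (Set.union_subset w4 u5))))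
    refine (Set.ncard_le_ncard hcov hf).trans ((Set.ncard_union_le _ _).trans (Nat.add_le_add_left ?_ _))
    refine (Set.ncard_union_le _ _).trans (Nat.add_le_add_left ?_ _)
    refine (Set.ncard_union_le _ _).trans (Nat.add_le_add (Finset.set_ncard_biUnion_le _ _) ?_)
    exact (Set.ncard_union_le _ _).trans (Nat.add_le_add_right (Finset.set_ncard_biUnion_le _ _) _)
  have hcount' : (S.ncard : ℝ) ≤ (S1.ncard : ℝ) + ((S2.ncard : ℝ) + ((∑ k ∈ Finset.Ico k0 L, ((S3 k).ncard : ℝ)) +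
      ((∑ k ∈ Finset.Ico k0 L, ((S4 k).ncard : ℝ)) + (S5.ncard : ℝ)))) := by exact_mod_cast hcount
  have t4 : ∑ k ∈ Finset.Ico k0 L, ((S4 k).ncard : ℝ) ≤ 6 * d * L := by
    refine (Finset.sum_le_card_nsmul _ _ _ n4).trans ?_
    rw [nsmul_eq_mul, Nat.card_Ico]
    have h1 : ((L - k0 : ℕ) : ℝ) ≤ L := by exact_mod_cast Nat.sub_le L k0
    have h2 : (0 : ℝ) ≤ 6 * d := by positivity
    calc ((L - k0 : ℕ) : ℝ) * (6 * d) ≤ L * (6 * d) := mul_le_mul_of_nonneg_right h1 h2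
      _ = 6 * d * L := by ring
  have t3 : ∑ k ∈ Finset.Ico k0 L, ((S3 k).ncard : ℝ) ≤
      14 * d * B * (32 * d * (1 + Real.log L) + 36 * (k0 : ℝ) ^ 2) := by
    refine (Finset.sum_le_sum n3).trans ?_
    rw [← Finset.mul_sum]
    refine mul_le_mul_of_nonneg_left ?_ (mul_nonneg (by positivity) hB)
    have hE2 := sum_E hR hk0 hL hd
      (((Finset.Ico k0 L) ×ˢ Z).filter (fun x : ℕ × List Bool => x.2 ∈ DP R x.1 ∧ x.2 ∉ DL R ((x.1 : ℝ) + 1)))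
      (by
        intro x hx
        rw [Finset.mem_filter, Finset.mem_product, Finset.mem_Ico] at hx
        exact ⟨hx.1.1.1, hx.1.1.2, hx.2.1, hx.2.2⟩)
    refine le_trans (le_of_eq ?_) hE2
    rw [Finset.sum_filter, Finset.sum_product]
    refine Finset.sum_congr rfl fun k _ => ?_
    rw [Finset.sum_filter]
  linarith

end Pool.Agent.Lib.MP_94ab62_ntZ
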