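import Pool.Agent.Lib.MP_94ab62_ntZ.RaB
import Pool.Agent.Lib.MP_94ab62_ntZ.RaD

/-!
# RaE: the functional of an exit cone

Let `z = zh c0 b`, `y = zw c0 b`, `E = en c0 b n`.  `LL E` is linear (`LL_add`, `LL_smul`) with `LL E (g1 E) = fa (tn E)`,
`LL E (g2 E) = fb (tn E)`; the edges are `wv n`, `wv (n+1)` (`en_edges`) and `fa`, `fb` of `tn E` are `F (y n)`, `F (y (n+1))`
in the corresponding order (entries of `lc`, `rc` of `tn (cn n)`).  So
  `LL E (wv n) = F (y n)`, `LL E (wv (n+1)) = F (y (n+1))`, `LL E (hv) = LL E (wv (n+1) - wv n) = F (y (n+1)) - F (y n) = F z - er n`.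
With `v = X g + Y h`, `g = wv 0 = wv n - n h` (`coord`, `wv_eq`):
  `LL E v = X (F (y n) - n (F z - er n)) + Y (F z - er n)`, and `F (y n) = log T_n + sg n = log T_0 + n F z + sg n` (`log_TT`):
  `LL_en`.  `LL_en'`: replace `sg n` by `x0 er n` with the error of `sg_er`.
`LL_cn`: the edges of `cn n` are `wv n`, `hv` with the values `F (y n)`, `F z`:
  `LL (cn n) v = X (F (y n) - n F z) + Y F z = X (log T_0 + sg n) + Y F z`.
-/

set_option autoImplicit false

namespace Pool.Agent.Lib.MP_94ab62_ntZ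

open Pool.Agent.Lib.MP_94ab62_nt Pool.Agent.Lib.MP_94ab62_ntU

/-- the limit functional of a ray -/
noncomputable def Li (c0 : List Bool) (b : Bool) (v : ℤ × ℤ) : ℝ :=
  cX c0 b v * Real.log (TT (zh c0 b) (zw c0 b) 0) + cY c0 b v * F (zh c0 b)

/-- `F_n(v) = X (n + x0) - Y` -/
noncomputable def Fn (c0 : List Bool) (b : Bool) (n : ℕ) (v : ℤ × ℤ) : ℝ :=
  cX c0 b v * (n + x0 (zh c0 b)) - cY c0 b v

theorem LL_wv (c0 : List Bool) (b : Bool) (n : ℕ) : LL (en c0 b n) (wv c0 b n) = F (zw c0 b n) := by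
  have h := en_edges c0 b n
  cases b with
  | true =>
    have h2 : g2 (en c0 true n) = wv c0 true n := h.2
    rw [← h2, LL_g2]
    rfl
  | false =>
    have h1 : g1 (en c0 false n) = wv c0 false n := h.1
    rw [← h1, LL_g1]
    rfl

theorem rae_wv_succ (c0 : List Bool) (b : Bool) (n : ℕ) :
    LL (en c0 b n) (wv c0 b (n + 1)) = F (zw c0 b (n + 1)) := by
  have h := en_edges c0 b n
  rw [zw_succ]
  cases b with
  | true =>
    have h1 : g1 (en c0 true n) = wv c0 true (n + 1) := h.1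
    rw [← h1, LL_g1]
    rfl
  | false =>
    have h2 : g2 (en c0 false n) = wv c0 false (n + 1) := h.2
    rw [← h2, LL_g2]
    rfl

theorem LL_en_hv (c0 : List Bool) (b : Bool) (n : ℕ) :
    LL (en c0 b n) (hv c0 b) = F (zh c0 b) - ee (cn c0 b n) := by
  have h1 : hv c0 b = wv c0 b (n + 1) - wv c0 b n := by
    rw [wv_succ]
    exact (add_sub_cancel_left _ _).symm
  have h2 : ee (cn c0 b n) = F (zw c0 b n) + F (zh c0 b) - F (zw c0 b (n + 1)) := ee_cn c0 b n
  rw [h1, LL_sub, LL_wv, rae_wv_succ, h2]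
  ring

theorem rae_F (c0 : List Bool) (b : Bool) (n : ℕ) :
    F (zw c0 b n) = Real.log (TT (zh c0 b) (zw c0 b) 0) + n * F (zh c0 b) + sg (zh c0 b) (zw c0 b) n := by
  have h1 := log_TT (rs_ray c0 b) n
  have h2 : sg (zh c0 b) (zw c0 b) n = F (zw c0 b n) - Real.log (TT (zh c0 b) (zw c0 b) n) := rfl
  rw [h2, h1]
  ring

theorem rae_coord (c0 : List Bool) (b : Bool) (n : ℕ) (v : ℤ × ℤ) (p : List Bool) :
    LL p v = cX c0 b v * (LL p (wv c0 b n) - n * LL p (hv c0 b)) + cY c0 b v * LL p (hv c0 b) := by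
  have h1 : LL p (wv c0 b n) = LL p (wv c0 b 0) + n * LL p (hv c0 b) := by
    rw [wv_eq c0 b n, LL_add, LL_smul, Int.cast_natCast]
  have h2 : LL p v = cX c0 b v * LL p (wv c0 b 0) + cY c0 b v * LL p (hv c0 b) := by
    have h3 := congrArg (LL p) (coord c0 b v)
    rw [LL_add, LL_smul, LL_smul] at h3
    exact h3
  rw [h2, h1]
  ring

theorem LL_en (c0 : List Bool) (b : Bool) (n : ℕ) (v : ℤ × ℤ) :
    LL (en c0 b n) v = Li c0 b v + cX c0 b v * sg (zh c0 b) (zw c0 b) n +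
      ee (cn c0 b n) * (n * cX c0 b v - cY c0 b v) := by
  rw [rae_coord c0 b n v, LL_wv, LL_en_hv, rae_F]
  unfold Li
  ring

theorem LL_cn (c0 : List Bool) (b : Bool) (n : ℕ) (v : ℤ × ℤ) :
    LL (cn c0 b n) v = Li c0 b v + cX c0 b v * sg (zh c0 b) (zw c0 b) n := by
  have h1 : LL (cn c0 b n) (wv c0 b n) = F (zw c0 b n) := by
    cases b with
    | true => exact LL_g2 (cn c0 true n)
    | false => exact LL_g1 (cn c0 false n)
  have h2 : LL (cn c0 b n) (hv c0 b) = F (zh c0 b) := by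
    have h3 := hv_cn c0 b n
    have h4 := zh_cn c0 b n
    rw [← h3, ← h4]
    cases b with
    | true => exact LL_g1 (cn c0 true n)
    | false => exact LL_g2 (cn c0 false n)
  rw [rae_coord c0 b n v, h1, h2, rae_F]
  unfold Li
  ring

theorem LL_en' (c0 : List Bool) (b : Bool) {n : ℕ} (hn : 1 ≤ n) (v : ℤ × ℤ) :
    |LL (en c0 b n) v - Li c0 b v - ee (cn c0 b n) * Fn c0 b n v| ≤
      28 / TT (zh c0 b) (zw c0 b) n ^ 2 * ee (cn c0 b n) * |(cX c0 b v : ℝ)| := by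
  have h1 := sg_er (rs_ray c0 b) hn
  have h2 : ee (cn c0 b n) = er (zh c0 b) (zw c0 b) n := ee_cn c0 b n
  have h3 : LL (en c0 b n) v - Li c0 b v - ee (cn c0 b n) * Fn c0 b n v =
      (sg (zh c0 b) (zw c0 b) n - x0 (zh c0 b) * er (zh c0 b) (zw c0 b) n) * (cX c0 b v : ℝ) := by
    rw [LL_en, h2]
    unfold Fn
    ring
  rw [h3, abs_mul, h2]
  exact mul_le_mul_of_nonneg_right h1 (abs_nonneg _)

end Pool.Agent.Lib.MP_94ab62_ntZ
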