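import Pool.Agent.Lib.MP_94ab62_ntZ.LvB
import Pool.Agent.Lib.MP_94ab62_ntZ.RaB
import Pool.Agent.Lib.MP_94ab62_ntZ.RaE

/-!
# TbE: the class bound for nondegenerate pairs (`μ = 3`)

`ssd P` = the side which keeps the SHORT edge of `P` (`true` keeps `g1`, length `fa (tn P) = F (tn P).1`).
* `sd_h`, `sd_w`: unfold `ssd`, `zh`, `zw`, `kap`, `mx`, `cn P b 0 = P`; `fa s = F s.1`, `fb s = F s.2.1` (`rfl`), `min_eq_left`, `max_eq_right` etc.
* `zw_mono`: `F (zw P b 0) ≤ F (zw P b n)`: `(rs_ray P b).lt`, `F_le`, induction.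
* `short_ray`: `ray_cases (ssd P) h`: `c = cn P (ssd P) n` or `en P (ssd P) n <:+ c`; in the second case `kap c ≥ kap (en ..) = F (zw P (ssd P) n) ≥ F (zw P (ssd P) 0) = mx P ≥ κ` (`kap_suffix`, `kap_en`, `sd_w`).
* `ray_gap`: for `m < n`: `ll (cn P b (m+1)) ≥ ll (cn P b m) + kap - 1/80 ≥ ll + 7/8` (`cn_succ`, `ll_cons`: `kap ≥ 9/10`, `kap_ge`); `ll` is increasing along the ray (`ll_suffix`, `cn_suffix`).
* `cb3`.  Let `(c, d)`, `(c', d')` be different members of the class, `θ = exp (-2 min (kap c) (kap d))`, `θ'` similarly.  `c ≠ c'` and `d ≠ d'`: `ap M (uu c) = a • uu d`, `ap M (uu c') = a • uu d'`, `a ≥ 1`: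
  `c = c'` gives `a • uu d = a • uu d'`, `uu_inj`; `d = d'` gives `ap M (uu c - uu c') = 0`, `hM`.
  (1) `R^8 e^(-2κ) ≤ θ` or `R^8 e^(-2κ) ≤ θ'`.  Otherwise `|ll c - ll c'| ≤ R^20 (θ + θ') ≤ 2 R^28 e^(-2κ)` (triangle inequality with `x`).  `v = uu c - uu c' ≠ 0`, `nm v ≤ 2R ≤ 3R^3`, so `|LL P v| > R^30 e^(-2κ)` (`hnd`).
      `ll_app` (Func): `|ll c - LL P (uu c)| ≤ 3 ww P ss c ≤ 3 (8 e^(-2κ) R) R`: `ww P = ee P * ss P`, `ee P ≤ 8 exp (-2 ll P)` (`ee_le_ll`), `ll P ≥ mx P ≥ κ` (`mx_lt_ll`), `ss P ≤ ss c ≤ R`; same for `c'`; `LL_sub`: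
      `|LL P v| ≤ 2 R^28 e^(-2κ) + 48 R^2 e^(-2κ) ≤ R^30 e^(-2κ)`.  Contradiction.
  (2) If `R^8 e^(-2κ) ≤ θ` then `min (kap c) (kap d) ≤ κ` so `min < κ + ...`: precisely `2 min ≤ 2κ - 8 log R < 2κ`: `kap c < κ` or `kap d < κ`.  By `short_ray` `c = cn P (ssd P) n` or `d = cn H (ssd H) n` for some `n`.
  (3) Two different members with `c, c'` both on the ray `cn P (ssd P) _`: `|ll c - ll c'| ≥ 7/8` (`ray_gap`), but `≤ R^20 (θ + θ') ≤ 2 R^20 R^(-40) < 7/8`: `kap c ≥ kap A ≥ 20 log R`, `kap d ≥ kap B ≥ 20 log R`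
      (`kap_gd`, `kap_suffix`), so `θ ≤ exp (-40 log R) = R^(-40)`.  The same for `d, d'` on the ray of `H` (with `|ll d - ll d'|`).
  (4) So the class is contained in the union of three sets with at most one element: `{θ < R^8 e^(-2κ)}`, `{c on the ray of P}`, `{d on the ray of H}`: `encard ≤ 3` (`Set.encard_union_le`, `Set.encard_le_one_iff`).
-/

set_option autoImplicit false

namespace Pool.Agent.Lib.MP_94ab62_ntZ

open Pool.Agent.Lib.MP_94ab62_nt Pool.Agent.Lib.MP_94ab62_ntU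

open Classical in
/-- the side which keeps the shorter edge -/
noncomputable def ssd (P : List Bool) : Bool := if fa (tn P) ≤ fb (tn P) then true else false

theorem sd_h (P : List Bool) : F (zh P (ssd P)) = kap P := by
  unfold ssd kap
  split
  · next h => rw [min_eq_left h]; rfl
  · next h => rw [min_eq_right (not_le.1 h).le]; rfl

theorem sd_w (P : List Bool) : F (zw P (ssd P) 0) = mx P := by
  unfold ssd mx
  split
  · next h => rw [max_eq_right h]; rfl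
  · next h => rw [max_eq_left (not_le.1 h).le]; rfl

theorem zw_mono (P : List Bool) (b : Bool) {m n : ℕ} (h : m ≤ n) : F (zw P b m) ≤ F (zw P b n) := by
  have h1 := rs_ray P b
  have h2 : Monotone (zw P b) := monotone_nat_of_le_succ fun n => (h1.lt n).le
  exact F_le (h1.hy.trans (h2 (Nat.zero_le m))) (h2 h)

theorem short_ray {P c : List Bool} {κ : ℝ} (h : P <:+ c) (hP : κ ≤ mx P) (hc : kap c < κ) :
    ∃ n, c = cn P (ssd P) n := by
  rcases ray_cases (ssd P) h with h1 | ⟨n, h1⟩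
  · exact h1
  · exfalso
    have h2 := kap_suffix h1
    rw [kap_en] at h2
    have h3 := zw_mono P (ssd P) (Nat.zero_le n)
    rw [sd_w] at h3
    linarith

theorem ray_gap (P : List Bool) (b : Bool) {m n : ℕ} (h : m < n) : ll (cn P b m) + 7 / 8 ≤ ll (cn P b n) := by
  have h1 := ll_suffix (cn_suffix P b (Nat.succ_le_of_lt h))
  rw [Nat.succ_eq_add_one, cn_succ] at h1
  have h2 := ll_cons b (cn P b m)
  have h3 := kap_ge (cn P b m)
  linarith

private theorem tbe_leaf {R : ℕ} {κ : ℝ} {P x : List Bool} (hP : κ ≤ mx P) (h : P <:+ x) (hs : ss x ≤ R) :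
    |ll x - LL P (uu x)| ≤ 24 * (R : ℝ) ^ 2 * Real.exp (-(2 * κ)) := by
  have h0 : ee P ≤ 8 * Real.exp (-(2 * κ)) := by
    have h2 := mx_lt_ll P
    have h3 : Real.exp (-(2 * ll P)) ≤ Real.exp (-(2 * κ)) := Real.exp_le_exp.2 (by linarith)
    have h4 := ee_le_ll P
    linarith
  have h2 : (ss P : ℝ) ≤ R := by exact_mod_cast (ss_suffix h).trans hs
  have h3 : (ss x : ℝ) ≤ R := by exact_mod_cast hs
  have h5 : ww P ≤ 8 * Real.exp (-(2 * κ)) * R := by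
    unfold ww
    exact mul_le_mul h0 h2 (Nat.cast_nonneg _) (by positivity)
  have h1 := ll_app h
  have h4 : 3 * ww P * ss x ≤ 3 * (8 * Real.exp (-(2 * κ)) * R) * R := by
    refine mul_le_mul (by linarith) h3 (Nat.cast_nonneg _) (by positivity)
  have h6 : 3 * (8 * Real.exp (-(2 * κ)) * (R : ℝ)) * R = 24 * (R : ℝ) ^ 2 * Real.exp (-(2 * κ)) := by ring
  linarith

private theorem tbe_one {S : Set PP} (h : ∀ y ∈ S, ∀ z ∈ S, y = z) : S.encard ≤ 1 :=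
  Set.encard_le_one_iff.2 fun y z hy hz => h y hy z hz

private theorem tbe_th {R : ℕ} (hR : 100 ≤ R) {t : ℝ} (h : 20 * Real.log R ≤ t) :
    (R : ℝ) ^ 20 * Real.exp (-(2 * t)) ≤ 1 / 4 := by
  have hR0 : (100 : ℝ) ≤ R := by exact_mod_cast hR
  have hRp : (0 : ℝ) < R := by linarith
  have h1 : Real.exp (-(2 * t)) ≤ Real.exp (-(40 * Real.log R)) := Real.exp_le_exp.2 (by linarith)
  have h2 : Real.exp (-(40 * Real.log R)) * (R : ℝ) ^ 40 = 1 := by
    rw [Real.exp_neg]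
    have h3 : Real.exp (40 * Real.log R) = (R : ℝ) ^ 40 := by
      have h4 : (40 : ℝ) * Real.log R = ((40 : ℕ) : ℝ) * Real.log R := by norm_num
      rw [h4, Real.exp_nat_mul, Real.exp_log hRp]
    rw [h3]
    exact inv_mul_cancel₀ (by positivity)
  have h5 : (4 : ℝ) ≤ (R : ℝ) ^ 20 := by
    have i1 : (100 : ℝ) ^ 20 ≤ (R : ℝ) ^ 20 := pow_le_pow_left₀ (by norm_num) hR0 20
    exact le_trans (by norm_num) i1
  have h6 : Real.exp (-(2 * t)) * (R : ℝ) ^ 40 ≤ 1 := by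
    rw [← h2]
    exact mul_le_mul_of_nonneg_right h1 (by positivity)
  have h7 : ((R : ℝ) ^ 20 * Real.exp (-(2 * t))) * 4 ≤ ((R : ℝ) ^ 20 * Real.exp (-(2 * t))) * (R : ℝ) ^ 20 :=
    mul_le_mul_of_nonneg_left h5 (by positivity)
  have h8 : ((R : ℝ) ^ 20 * Real.exp (-(2 * t))) * (R : ℝ) ^ 20 = Real.exp (-(2 * t)) * (R : ℝ) ^ 40 := by ring
  linarith

private theorem tbe_ray {P c c' : List Bool} {x s t : ℝ} (h : ∃ n, c = cn P (ssd P) n) (h' : ∃ n, c' = cn P (ssd P) n)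
    (h1 : |ll c - x| ≤ s) (h2 : |ll c' - x| ≤ t) (hs : s ≤ 1 / 4) (ht : t ≤ 1 / 4) : c = c' := by
  obtain ⟨n, rfl⟩ := h
  obtain ⟨m, rfl⟩ := h'
  rw [abs_le] at h1 h2
  rcases lt_trichotomy n m with h3 | h3 | h3
  · exfalso
    have h4 := ray_gap P (ssd P) h3
    linarith [h1.1, h1.2, h2.1, h2.2]
  · rw [h3]
  · exfalso
    have h4 := ray_gap P (ssd P) h3
    linarith [h1.1, h1.2, h2.1, h2.2]

theorem cb3 {R : ℕ} (hR : 100 ≤ R) {A B P H : List Bool} {M : Mt} {κ : ℝ} (hPA : P <:+ A) (hHB : H <:+ B)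
    (gA : Gd R A) (gB : Gd R B) (hP : κ ≤ mx P) (hH : κ ≤ mx H) (hnd : ¬ Dg R κ P)
    (hM : ∀ v, ap M v = 0 → v = 0) : CB R A B M 3 := by
  intro a x x' ha
  obtain ⟨S, hS⟩ : ∃ S : Set PP, S = {y : PP | A <:+ y.1 ∧ B <:+ y.2 ∧ ss y.1 ≤ R ∧ ss y.2 ≤ R ∧ Mat M a y.1 y.2 ∧
      |ll y.1 - x| ≤ (R : ℝ) ^ 20 * Real.exp (-(2 * min (kap y.1) (kap y.2))) ∧
      |ll y.2 - x'| ≤ (R : ℝ) ^ 20 * Real.exp (-(2 * min (kap y.1) (kap y.2)))} := ⟨_, rfl⟩
  rw [← hS]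
  have hR0 : (100 : ℝ) ≤ R := by exact_mod_cast hR
  have hE := Real.exp_pos (-(2 * κ))
  have ha0 : (a : ℤ) ≠ 0 := by
    have h1 : (1 : ℤ) ≤ a := by exact_mod_cast ha
    omega
  have q1 : ∀ y ∈ S, ∀ z ∈ S, y.1 = z.1 → y = z := by
    intro y hy z hz h
    rw [hS] at hy hz
    have m1 : ap M (uu y.1) = (a : ℤ) • uu y.2 := hy.2.2.2.2.1
    have m2 : ap M (uu z.1) = (a : ℤ) • uu z.2 := hz.2.2.2.2.1
    rw [h, m2] at m1
    have m3 : uu z.2 = uu y.2 := by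
      refine Prod.ext ?_ ?_
      · have m4 := congrArg Prod.fst m1
        simp only [Prod.smul_fst, smul_eq_mul] at m4
        exact mul_left_cancel₀ ha0 m4
      · have m4 := congrArg Prod.snd m1
        simp only [Prod.smul_snd, smul_eq_mul] at m4
        exact mul_left_cancel₀ ha0 m4
    exact Prod.ext h (uu_inj m3).symm
  have q2 : ∀ y ∈ S, ∀ z ∈ S, y.2 = z.2 → y = z := by
    intro y hy z hz h
    rw [hS] at hy hz
    have m1 : ap M (uu y.1) = (a : ℤ) • uu y.2 := hy.2.2.2.2.1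
    have m2 : ap M (uu z.1) = (a : ℤ) • uu z.2 := hz.2.2.2.2.1
    rw [h, ← m2] at m1
    have m3 : ap M (uu y.1 - uu z.1) = 0 := by
      have m4 : ap M (uu y.1 - uu z.1) = ap M (uu y.1) - ap M (uu z.1) := by
        unfold ap
        refine Prod.ext ?_ ?_
        · simp only [Prod.fst_sub, Prod.snd_sub]
          ring
        · simp only [Prod.fst_sub, Prod.snd_sub]
          ring
      rw [m4, m1, sub_self]
    have m5 := hM _ m3
    exact Prod.ext (uu_inj (sub_eq_zero.1 m5)) h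
  have th : ∀ y ∈ S, (R : ℝ) ^ 20 * Real.exp (-(2 * min (kap y.1) (kap y.2))) ≤ 1 / 4 := by
    intro y hy
    rw [hS] at hy
    have k1 := kap_suffix hy.1
    have k2 := kap_suffix hy.2.1
    have k3 := kap_gd.1 gA
    have k4 := kap_gd.1 gB
    exact tbe_th hR (le_min (k3.trans k1) (k4.trans k2))
  have c1 : ({y ∈ S | Real.exp (-(2 * min (kap y.1) (kap y.2))) < (R : ℝ) ^ 8 * Real.exp (-(2 * κ))}).encard ≤ 1 := by
    refine tbe_one ?_
    rintro y ⟨hy, ty⟩ z ⟨hz, tz⟩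
    by_contra hne
    have hc : y.1 ≠ z.1 := fun h => hne (q1 y hy z hz h)
    rw [hS] at hy hz
    obtain ⟨y1, y2, y3, y4, y5, y6, y7⟩ := hy
    obtain ⟨z1, z2, z3, z4, z5, z6, z7⟩ := hz
    apply hnd
    refine ⟨uu y.1 - uu z.1, fun h => hc (uu_inj (sub_eq_zero.1 h)), ?_, ?_⟩
    · have n1 := nm_sub (uu y.1) (uu z.1)
      rw [nm_uu, nm_uu] at n1
      have n2 : (ss y.1 : ℝ) ≤ R := by exact_mod_cast y3
      have n3 : (ss z.1 : ℝ) ≤ R := by exact_mod_cast z3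
      have n4 : (R : ℝ) * 1 ≤ (R : ℝ) * (R : ℝ) ^ 2 := by
        refine mul_le_mul_of_nonneg_left ?_ (by linarith)
        nlinarith
      have n5 : (R : ℝ) * (R : ℝ) ^ 2 = (R : ℝ) ^ 3 := by ring
      linarith
    · have l1 := tbe_leaf hP (hPA.trans y1) y3
      have l2 := tbe_leaf hP (hPA.trans z1) z3
      rw [LL_sub]
      have g0 : (0 : ℝ) < (R : ℝ) ^ 20 := by positivity
      have g1 := mul_lt_mul_of_pos_left ty g0
      have g2 := mul_lt_mul_of_pos_left tz g0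
      have g3 : |LL P (uu y.1) - LL P (uu z.1)| ≤
          2 * ((R : ℝ) ^ 20 * ((R : ℝ) ^ 8 * Real.exp (-(2 * κ)))) + 48 * (R : ℝ) ^ 2 * Real.exp (-(2 * κ)) := by
        rw [abs_le] at l1 l2 y6 z6 ⊢
        constructor <;> linarith [l1.1, l1.2, l2.1, l2.2, y6.1, y6.2, z6.1, z6.2]
      have g4 : 2 * (R : ℝ) ^ 28 + 48 * (R : ℝ) ^ 2 ≤ (R : ℝ) ^ 30 := by
        have i0 : (10000 : ℝ) ≤ (R : ℝ) ^ 2 := by nlinarith
        have i1 : (R : ℝ) ^ 30 = (R : ℝ) ^ 2 * (R : ℝ) ^ 28 := by ring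
        have i2 : 10000 * (R : ℝ) ^ 28 ≤ (R : ℝ) ^ 2 * (R : ℝ) ^ 28 :=
          mul_le_mul_of_nonneg_right i0 (by positivity)
        have i3 : (R : ℝ) ^ 2 ≤ (R : ℝ) ^ 28 := pow_le_pow_right₀ (by linarith) (by norm_num)
        linarith [pow_pos (show (0 : ℝ) < R by linarith) 28]
      have g5 := mul_le_mul_of_nonneg_right g4 hE.le
      have g6 : 2 * ((R : ℝ) ^ 20 * ((R : ℝ) ^ 8 * Real.exp (-(2 * κ)))) + 48 * (R : ℝ) ^ 2 * Real.exp (-(2 * κ)) =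
          (2 * (R : ℝ) ^ 28 + 48 * (R : ℝ) ^ 2) * Real.exp (-(2 * κ)) := by ring
      rw [g6] at g3
      exact g3.trans g5
  have c2 : ({y ∈ S | ∃ n, y.1 = cn P (ssd P) n}).encard ≤ 1 := by
    refine tbe_one ?_
    rintro y ⟨hy, ty⟩ z ⟨hz, tz⟩
    have t1 := th y hy
    have t2 := th z hz
    refine q1 y hy z hz ?_
    rw [hS] at hy hz
    exact tbe_ray ty tz hy.2.2.2.2.2.1 hz.2.2.2.2.2.1 t1 t2
  have c3 : ({y ∈ S | ∃ n, y.2 = cn H (ssd H) n}).encard ≤ 1 := by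
    refine tbe_one ?_
    rintro y ⟨hy, ty⟩ z ⟨hz, tz⟩
    have t1 := th y hy
    have t2 := th z hz
    refine q2 y hy z hz ?_
    rw [hS] at hy hz
    exact tbe_ray ty tz hy.2.2.2.2.2.2 hz.2.2.2.2.2.2 t1 t2
  have hsub : S ⊆ ({y ∈ S | Real.exp (-(2 * min (kap y.1) (kap y.2))) < (R : ℝ) ^ 8 * Real.exp (-(2 * κ))} ∪
      {y ∈ S | ∃ n, y.1 = cn P (ssd P) n}) ∪ {y ∈ S | ∃ n, y.2 = cn H (ssd H) n} := by
    intro y hy
    by_cases ty : Real.exp (-(2 * min (kap y.1) (kap y.2))) < (R : ℝ) ^ 8 * Real.exp (-(2 * κ))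
    · exact Or.inl (Or.inl ⟨hy, ty⟩)
    · have hy' := hy
      rw [hS] at hy'
      have t1 := not_lt.1 ty
      have t2 : (1 : ℝ) < (R : ℝ) ^ 8 := one_lt_pow₀ (by linarith) (by norm_num)
      have t3 : 1 * Real.exp (-(2 * κ)) < (R : ℝ) ^ 8 * Real.exp (-(2 * κ)) := mul_lt_mul_of_pos_right t2 hE
      rw [one_mul] at t3
      have t4 := Real.exp_lt_exp.1 (t3.trans_le t1)
      have t5 : min (kap y.1) (kap y.2) < κ := by linarith
      rcases min_lt_iff.1 t5 with t6 | t6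
      · exact Or.inl (Or.inr ⟨hy, short_ray (hPA.trans hy'.1) hP t6⟩)
      · exact Or.inr ⟨hy, short_ray (hHB.trans hy'.2.1) hH t6⟩
  refine (Set.encard_le_encard hsub).trans ?_
  refine (Set.encard_union_le _ _).trans ?_
  have e1 := (Set.encard_union_le {y ∈ S | Real.exp (-(2 * min (kap y.1) (kap y.2))) <
    (R : ℝ) ^ 8 * Real.exp (-(2 * κ))} {y ∈ S | ∃ n, y.1 = cn P (ssd P) n}).trans (add_le_add c1 c2)
  refine (add_le_add e1 c3).trans ?_
  norm_num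

end Pool.Agent.Lib.MP_94ab62_ntZ
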