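import Pool.Agent.Lib.MP_94ab62_ntZ.LvB
import Pool.Agent.Lib.MP_94ab62_ntZ.TaA

/-!
# TcA: the relation of a nondegenerate pair of leaves; lengths in cone coordinates

* `leaf_app`: `κ ≤ mx P`, `P <:+ x`, `ss x ≤ R`: `|ll x - LL P (uu x)| ≤ 3 ww P ss x` (`ll_app`), `ww P = ee P * ss P ≤ 8 exp (-2 ll P) R` (`ee_le_ll`, `ss_suffix`), `ll P ≥ mx P ≥ κ` (`mx_lt_ll`): `≤ 24 R^2 exp (-2κ)`.
* `rank_rel`: members `x, y, z`; `u = uu _.1`, `v = uu _.2`; `k = det v_y v_z • u_x + det v_z v_x • u_y + det v_x v_y • u_z`.  `|det| ≤ R^2` (`det_le`, `nm_uu`), so `nm k ≤ 3 R^3` (`nm_add`, `nm_smul`).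
  `det v_y v_z • v_x + .. = 0` (`three_rel`), so `0 = LL H (..) = det v_y v_z LL H v_x + ..` (`LL_add`, `LL_smul`).  `ll x.1 = ll x.2` (from `zz x.1 = zz x.2`, `ll = F (zz _)`: `rfl`-like, see `fam_ll` in TaA for the
  proof), so `|LL P u_x - LL H v_x| ≤ 48 R^2 exp (-2κ)` (`leaf_app` twice).  `|LL P k| = |∑ det (LL P u - LL H v)| ≤ 3 R^2 * 48 R^2 exp (-2κ) ≤ R^30 exp (-2κ)` (`144 R^4 ≤ R^30`).  If `k ≠ 0` this contradicts
  `hnd : ¬ Dg R κ P`.  So `R2' S`.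
* `geo_low`: `coords`/`conv_low`: `ll p ≥ LL I (uu p) - 4/3 ee I min(x, y)`, `x = det (uu p) (g2 I) ≥ 1`, `y = det (g1 I) (uu p) ≥ 1` (`in_cone`), `LL I (uu p) = fa x + fb y` (definition of `LL`), `ee I ≤ 1/20`,
  `min (x,y) ≤ (x + y)/2`, `fa, fb ≥ 9/10` (`kap_ge`): `4/3 * 1/20 * (x+y)/2 ≤ (x + y)/30 ≤ (fa x + fb y)/27`, so `ll p ≥ 26/27 (fa x + fb y) ≥ 9/10 (fa x + fb y)`.
* `geo_up`: `ll p ≤ LL I (uu p)` (`cl_le`, `cc_of_suffix`) `= fa x + fb y`.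
-/

set_option autoImplicit false

namespace Pool.Agent.Lib.MP_94ab62_ntZ

open Pool.Agent.Lib.MP_94ab62_nt Pool.Agent.Lib.MP_94ab62_ntU

private theorem tca_ww {R : ℕ} {κ : ℝ} {P x : List Bool} (hP : κ ≤ mx P) (h : P <:+ x) (hs : ss x ≤ R) :
    ww P ≤ 8 * Real.exp (-(2 * κ)) * R := by
  have h1 : ee P ≤ 8 * Real.exp (-(2 * κ)) := by
    have h2 := mx_lt_ll P
    have h3 : Real.exp (-(2 * ll P)) ≤ Real.exp (-(2 * κ)) := Real.exp_le_exp.2 (by linarith)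
    have h4 := ee_le_ll P
    linarith
  have h2 : (ss P : ℝ) ≤ R := by exact_mod_cast (ss_suffix h).trans hs
  unfold ww
  exact mul_le_mul h1 h2 (Nat.cast_nonneg _) (by positivity)

private theorem tca_det {R : ℕ} {p q : List Bool} (hp : ss p ≤ R) (hq : ss q ≤ R) :
    |(det (uu p) (uu q) : ℝ)| ≤ (R : ℝ) ^ 2 := by
  have h1 := det_le (uu p) (uu q)
  rw [nm_uu, nm_uu] at h1
  have h2 : (ss p : ℝ) ≤ R := by exact_mod_cast hp
  have h3 : (ss q : ℝ) ≤ R := by exact_mod_cast hq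
  have h4 : (ss p : ℝ) * ss q ≤ R * R := mul_le_mul h2 h3 (Nat.cast_nonneg _) (Nat.cast_nonneg _)
  rw [pow_two]
  linarith

theorem leaf_app {R : ℕ} {κ : ℝ} {P x : List Bool} (hP : κ ≤ mx P) (h : P <:+ x) (hs : ss x ≤ R) :
    |ll x - LL P (uu x)| ≤ 24 * (R : ℝ) ^ 2 * Real.exp (-(2 * κ)) := by
  have h1 := ll_app h
  have h2 := tca_ww hP h hs
  have h3 : (ss x : ℝ) ≤ R := by exact_mod_cast hs
  have h4 : 3 * ww P * ss x ≤ 3 * (8 * Real.exp (-(2 * κ)) * R) * R := by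
    refine mul_le_mul (by linarith) h3 (Nat.cast_nonneg _) (by positivity)
  have h5 : 3 * (8 * Real.exp (-(2 * κ)) * (R : ℝ)) * R = 24 * (R : ℝ) ^ 2 * Real.exp (-(2 * κ)) := by ring
  linarith

theorem rank_rel {R : ℕ} (hR : 100 ≤ R) {κ : ℝ} {P H : List Bool} {S : Set PP} (hM : Mtc R S)
    (hP : κ ≤ mx P) (hH : κ ≤ mx H) (hnd : ¬ Dg R κ P) (h1 : ∀ x ∈ S, P <:+ x.1) (h2 : ∀ x ∈ S, H <:+ x.2) :
    R2' S := by
  intro x hx y hy z hz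
  have px := hM.pr x hx
  have py := hM.pr y hy
  have pz := hM.pr z hz
  obtain ⟨k, hk⟩ : ∃ k : ℤ × ℤ, k = det (uu y.2) (uu z.2) • uu x.1 + det (uu z.2) (uu x.2) • uu y.1 +
    det (uu x.2) (uu y.2) • uu z.1 := ⟨_, rfl⟩
  rw [← hk]
  by_contra hk0
  apply hnd
  have hR0 : (100 : ℝ) ≤ R := by exact_mod_cast hR
  have hE := Real.exp_pos (-(2 * κ))
  have d1 := tca_det py.2.2.2 pz.2.2.2
  have d2 := tca_det pz.2.2.2 px.2.2.2
  have d3 := tca_det px.2.2.2 py.2.2.2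
  have n1 : nm (uu x.1) ≤ R := by rw [nm_uu]; exact_mod_cast px.2.2.1
  have n2 : nm (uu y.1) ≤ R := by rw [nm_uu]; exact_mod_cast py.2.2.1
  have n3 : nm (uu z.1) ≤ R := by rw [nm_uu]; exact_mod_cast pz.2.2.1
  refine ⟨k, hk0, ?_, ?_⟩
  · have a1 := nm_add (det (uu y.2) (uu z.2) • uu x.1 + det (uu z.2) (uu x.2) • uu y.1)
      (det (uu x.2) (uu y.2) • uu z.1)
    have a2 := nm_add (det (uu y.2) (uu z.2) • uu x.1) (det (uu z.2) (uu x.2) • uu y.1)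
    rw [← hk] at a1
    rw [nm_smul] at a1
    rw [nm_smul, nm_smul] at a2
    have b1 : |(det (uu y.2) (uu z.2) : ℝ)| * nm (uu x.1) ≤ (R : ℝ) ^ 2 * R :=
      mul_le_mul d1 n1 (nm_nonneg _) (by positivity)
    have b2 : |(det (uu z.2) (uu x.2) : ℝ)| * nm (uu y.1) ≤ (R : ℝ) ^ 2 * R :=
      mul_le_mul d2 n2 (nm_nonneg _) (by positivity)
    have b3 : |(det (uu x.2) (uu y.2) : ℝ)| * nm (uu z.1) ≤ (R : ℝ) ^ 2 * R :=
      mul_le_mul d3 n3 (nm_nonneg _) (by positivity)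
    have b4 : (R : ℝ) ^ 2 * R = (R : ℝ) ^ 3 := by ring
    rw [b4] at b1 b2 b3
    linarith
  · have key : ∀ w ∈ S, |LL P (uu w.1) - LL H (uu w.2)| ≤ 48 * (R : ℝ) ^ 2 * Real.exp (-(2 * κ)) := by
      intro w hw
      have pw := hM.pr w hw
      have l1 := leaf_app hP (h1 w hw) pw.2.2.1
      have l2 := leaf_app hH (h2 w hw) pw.2.2.2
      have l3 : ll w.1 = ll w.2 := by
        show F (zz w.1) = F (zz w.2)
        rw [pw.2.1]
      rw [l3] at l1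
      rw [abs_le] at l1 l2 ⊢
      constructor <;> linarith [l1.1, l1.2, l2.1, l2.2]
    have e1 : LL P k = (det (uu y.2) (uu z.2) : ℝ) * LL P (uu x.1) + (det (uu z.2) (uu x.2) : ℝ) * LL P (uu y.1) +
        (det (uu x.2) (uu y.2) : ℝ) * LL P (uu z.1) := by
      rw [hk, LL_add, LL_add, LL_smul, LL_smul, LL_smul]
    have e2 : (det (uu y.2) (uu z.2) : ℝ) * LL H (uu x.2) + (det (uu z.2) (uu x.2) : ℝ) * LL H (uu y.2) +
        (det (uu x.2) (uu y.2) : ℝ) * LL H (uu z.2) = 0 := by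
      have h3 := congrArg (LL H) (three_rel (uu x.2) (uu y.2) (uu z.2))
      rw [LL_add, LL_add, LL_smul, LL_smul, LL_smul] at h3
      rw [h3]
      unfold LL det
      simp
    have e3 : LL P k = (det (uu y.2) (uu z.2) : ℝ) * (LL P (uu x.1) - LL H (uu x.2)) +
        (det (uu z.2) (uu x.2) : ℝ) * (LL P (uu y.1) - LL H (uu y.2)) +
        (det (uu x.2) (uu y.2) : ℝ) * (LL P (uu z.1) - LL H (uu z.2)) := by
      rw [e1]
      linear_combination e2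
    have m0 : (0 : ℝ) ≤ (R : ℝ) ^ 2 := by positivity
    have f1 : |(det (uu y.2) (uu z.2) : ℝ) * (LL P (uu x.1) - LL H (uu x.2))| ≤
        (R : ℝ) ^ 2 * (48 * (R : ℝ) ^ 2 * Real.exp (-(2 * κ))) := by
      rw [abs_mul]
      exact mul_le_mul d1 (key x hx) (abs_nonneg _) m0
    have f2 : |(det (uu z.2) (uu x.2) : ℝ) * (LL P (uu y.1) - LL H (uu y.2))| ≤
        (R : ℝ) ^ 2 * (48 * (R : ℝ) ^ 2 * Real.exp (-(2 * κ))) := by
      rw [abs_mul]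
      exact mul_le_mul d2 (key y hy) (abs_nonneg _) m0
    have f3 : |(det (uu x.2) (uu y.2) : ℝ) * (LL P (uu z.1) - LL H (uu z.2))| ≤
        (R : ℝ) ^ 2 * (48 * (R : ℝ) ^ 2 * Real.exp (-(2 * κ))) := by
      rw [abs_mul]
      exact mul_le_mul d3 (key z hz) (abs_nonneg _) m0
    have g0 : |LL P k| ≤ 3 * ((R : ℝ) ^ 2 * (48 * (R : ℝ) ^ 2 * Real.exp (-(2 * κ)))) := by
      rw [e3]
      rw [abs_le] at f1 f2 f3 ⊢
      constructor <;> linarith [f1.1, f1.2, f2.1, f2.2, f3.1, f3.2]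
    have g1 : 144 * (R : ℝ) ^ 4 ≤ (R : ℝ) ^ 30 := by
      have i1 : (100 : ℝ) ^ 26 ≤ (R : ℝ) ^ 26 := pow_le_pow_left₀ (by norm_num) hR0 26
      have i2 : (144 : ℝ) ≤ (R : ℝ) ^ 26 := le_trans (by norm_num) i1
      have i3 : (R : ℝ) ^ 30 = (R : ℝ) ^ 26 * (R : ℝ) ^ 4 := by ring
      rw [i3]
      exact mul_le_mul_of_nonneg_right i2 (by positivity)
    have g2 : 144 * (R : ℝ) ^ 4 * Real.exp (-(2 * κ)) ≤ (R : ℝ) ^ 30 * Real.exp (-(2 * κ)) :=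
      mul_le_mul_of_nonneg_right g1 hE.le
    have g3 : 3 * ((R : ℝ) ^ 2 * (48 * (R : ℝ) ^ 2 * Real.exp (-(2 * κ)))) =
        144 * (R : ℝ) ^ 4 * Real.exp (-(2 * κ)) := by ring
    rw [g3] at g0
    exact g0.trans g2

theorem geo_low {I p : List Bool} (h : I <:+ p) :
    9 / 10 * (fa (tn I) * (det (uu p) (g2 I) : ℝ) + fb (tn I) * (det (g1 I) (uu p) : ℝ)) ≤ ll p ∧
      1 ≤ det (uu p) (g2 I) ∧ 1 ≤ det (g1 I) (uu p) := by
  obtain ⟨hy, hx⟩ := in_cone.2 h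
  refine ⟨?_, hx, hy⟩
  have h1 := conv_low h
  have e1 : LL I (uu p) = fa (tn I) * (det (uu p) (g2 I) : ℝ) + fb (tn I) * (det (g1 I) (uu p) : ℝ) := rfl
  have hX : (1 : ℝ) ≤ (det (uu p) (g2 I) : ℝ) := by exact_mod_cast hx
  have hY : (1 : ℝ) ≤ (det (g1 I) (uu p) : ℝ) := by exact_mod_cast hy
  rw [e1] at h1
  obtain ⟨X, hXe⟩ : ∃ X : ℝ, X = (det (uu p) (g2 I) : ℝ) := ⟨_, rfl⟩
  obtain ⟨Y, hYe⟩ : ∃ Y : ℝ, Y = (det (g1 I) (uu p) : ℝ) := ⟨_, rfl⟩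
  rw [← hXe, ← hYe] at h1
  rw [← hXe] at hX ⊢
  rw [← hYe] at hY ⊢
  have hk := kap_ge I
  have ha : 9 / 10 ≤ fa (tn I) := hk.trans (min_le_left _ _)
  have hb : 9 / 10 ≤ fb (tn I) := hk.trans (min_le_right _ _)
  have he := ee_small I
  have he0 := ee_pos I
  have hm : min X Y ≤ (X + Y) / 2 := by
    rcases le_total X Y with h2 | h2
    · rw [min_eq_left h2]; linarith
    · rw [min_eq_right h2]; linarith
  have hm0 : 0 ≤ min X Y := le_min (by linarith) (by linarith)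
  have h3 : 4 / 3 * ee I * min X Y ≤ 4 / 3 * (1 / 20) * ((X + Y) / 2) :=
    mul_le_mul (by linarith) hm hm0 (by norm_num)
  have h4 : 9 / 10 * X ≤ fa (tn I) * X := mul_le_mul_of_nonneg_right ha (by linarith)
  have h5 : 9 / 10 * Y ≤ fb (tn I) * Y := mul_le_mul_of_nonneg_right hb (by linarith)
  linarith

theorem geo_up {I p : List Bool} (h : I <:+ p) :
    ll p ≤ fa (tn I) * (det (uu p) (g2 I) : ℝ) + fb (tn I) * (det (g1 I) (uu p) : ℝ) := by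
  exact cl_le (cc_of_suffix h)

end Pool.Agent.Lib.MP_94ab62_ntZ
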