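import Pool.Agent.Lib.MP_94ab62_ntZ.TbB
import Pool.Agent.Lib.MP_94ab62_ntZ.TbE
import Pool.Agent.Lib.MP_94ab62_ntZ.TcA
import Pool.Agent.Lib.MP_94ab62_ntZ.LrD

/-!
# TcB: one window of one class below a long edge

Family with first entries below `c`, all with the same `cX c b = X ≤ m`, lengths in a window of length `W`.  Claim `S.ncard ≤ m + 3`.
`win_det`: `det (uu p) (uu p') = (if b then -1 else 1) * (X * Y' - Y * X)` (`det_coord`): for equal `cX = X ≥ 1` the order of the `Y`s is the angular order: `Y1 < Y2 < Y3` gives `Bt p1 p2 p3`.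
`cc_nat`: for `c <:+ p`: `cX c b (uu p) ≥ 1`, `cY c b (uu p) ≥ 1` (`in_cone`; by cases on `b`).
`ll_XY`: for `c <:+ p`, `ss p ≤ R`: `|ll p - (cX * F (zw c b 0) + cY * F (zh c b))| ≤ 3 R^2 ee c`: `ll_app` (`ww c * ss p ≤ ee c R R`), and `LL c v = cX v * F (zw c b 0) + cY v * F (zh c b)` (definition of `LL`, by cases on `b`).
Proof of `lrc_window`.  Let `S.ncard ≥ m + 4`.  `l = log R`.  `m ≥ 1` (from `hm`, `w > 0`: `hc` gives `w ≥ 200 + 20 l`).
 (1) `Y x = cY c b (uu x.1) ≥ 1`; different members have different `Y` (`coord`: `uu x.1` is determined by `X, Y`; `uu_inj`, `fam_inj1`).  Let `p, r ∈ S` have the smallest and the largest `Y` (`S` finite, nonempty: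
     `Set.exists_min_image`, `Set.exists_max_image`).  `S'' = S \ {p, r}` has at least `m + 2` elements, each `x ∈ S''` has `Bt p.1 x.1 r.1` (`win_det`).
 (2) `d` with `Tu p.2 r.2 d` (`tu_exists`, `p.2 ≠ r.2`); for `x ∈ S''`: `d <:+ x.2` (`bt_fam`, `tu_below`).  `ee d ≤ 14 R^6 ee c` (`tu_size`, one `x ∈ S''`, `cc_of_suffix`), `ee c ≤ 8 exp (-2 ll c)` (`ee_le_ll`),
     `ll c ≥ F (zw c b 0) ≥ 3 w` (`fa_lt_fc`, `fb_lt_fc`).  `ee_low`: `9/10 exp (-2 ll d) ≤ ee d ≤ 112 R^6 exp (-6 w)`, so `ll d ≥ 3 w - 3 l - 3`, and `ll d ≤ fa + fb ≤ 2 mx d` (`ll_eq`, `ee_pos`), so `mx d ≥ w`.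
 (3) `b' = ssd d`: `F (zw d b' 0) = mx d ≥ w`, `F (zh d b') = kap d` (`sd_w`, `sd_h`).  For `x ∈ S''`: `X' = cX d b' (uu x.2) ≥ 1` and `9/10 * mx d * X' ≤ ll x.2 ≤ 9/5 R` (`geo_low`, `ll_le`), so `w X' ≤ 2 R`, `X' ≤ m` (`hm`).
     Pigeonhole (`Finset.exists_ne_map_eq_of_card_lt_of_maps_to`): two different `x, y ∈ S''` with the same `X'`.  Wlog `Y x < Y y`.
 (4) `E = 3 R^2 ee c ≤ 24 R^2 exp (-6 w) ≤ 1/20` and `3 R^2 ee d ≤ 42 R^8 ee c ≤ 1/20` (`w ≥ 20 l + 200`).  `ll_XY` for `x.1, y.1`: `(Y y - Y x) F (zh c b) ≤ ll y.1 - ll x.1 + 1/10 ≤ W + 1/10` and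
     `ll y.1 - ll x.1 ≥ F (zh c b) - 1/10 ≥ 8/10` (`F z ≥ 9/10` for `z ≥ 1`: `kap_ge` since `kap c ≤ F (zh c b)`).  `ll x.1 = ll x.2` (`fam_ll`).  `ll_XY` for `x.2, y.2` (`Y' = cY d b'`):
     `(Y' y - Y' x) kap d ≥ 8/10 - 1/10 > 0`, so `Y' x < Y' y` and `kap d ≤ (Y' y - Y' x) kap d ≤ W + 1/10 + 1/10 ≤ W + 1 ≤ H`.
 (5) `LR0` (LrD) with `Bel c b X (Y x) x.1`, `Bel c b X (Y y) y.1`, `Bel d b' X' (Y' x) x.2`, `Bel d b' X' (Y' y) y.2`: condition `20 (m (H+10) + m l + l) + (Y y - Y x) F (zh c b) ≤ w` by `hc`.  Gives `x.1 = x.2`,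
     contradiction to `(hF.pr x _).1`.
-/

set_option autoImplicit false

namespace Pool.Agent.Lib.MP_94ab62_ntZ

open Pool.Agent.Lib.MP_94ab62_nt Pool.Agent.Lib.MP_94ab62_ntU

private theorem tcb_LL (c : List Bool) (b : Bool) (v : ℤ × ℤ) :
    LL c v = (cX c b v : ℝ) * F (zw c b 0) + (cY c b v : ℝ) * F (zh c b) := by
  cases b
  · change fa (tn c) * (det v (g2 c) : ℝ) + fb (tn c) * (det (g1 c) v : ℝ) =
      (det v (g2 c) : ℝ) * fa (tn c) + (det (g1 c) v : ℝ) * fb (tn c)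
    ring
  · change fa (tn c) * (det v (g2 c) : ℝ) + fb (tn c) * (det (g1 c) v : ℝ) =
      (det (g1 c) v : ℝ) * fb (tn c) + (det v (g2 c) : ℝ) * fa (tn c)
    ring

private theorem tcb_h (c : List Bool) (b : Bool) : 9 / 10 ≤ F (zh c b) := by
  have h := kap_ge c
  cases b
  · exact h.trans (min_le_right _ _)
  · exact h.trans (min_le_left _ _)

private theorem tcb_mx (c : List Bool) (b : Bool) : F (zw c b 0) ≤ ll c := by
  have h := mx_lt_ll c
  cases b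
  · exact (le_max_left (fa (tn c)) (fb (tn c))).trans h.le
  · exact (le_max_right (fa (tn c)) (fb (tn c))).trans h.le

private theorem tcb_e5 : 1120 / 9 ≤ Real.exp 5 := by
  have h2 : Real.exp 5 = Real.exp 1 ^ 5 := by
    rw [← Real.exp_nat_mul]
    norm_num
  have h3 := Real.exp_one_gt_d9
  have h4 : (2.7 : ℝ) ≤ Real.exp 1 := by linarith
  rw [h2]
  calc (1120 / 9 : ℝ) ≤ 2.7 ^ 5 := by norm_num
    _ ≤ Real.exp 1 ^ 5 := pow_le_pow_left₀ (by norm_num) h4 5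

private theorem tcb_e200 : Real.exp (-200) ≤ 1 / 10000 := by
  have h1 : Real.exp 200 = Real.exp 100 * Real.exp 100 := by
    rw [← Real.exp_add]
    norm_num
  have h2 := Real.add_one_le_exp (100 : ℝ)
  have h3 : (10000 : ℝ) ≤ Real.exp 200 := by
    rw [h1]
    nlinarith
  rw [Real.exp_neg, ← one_div]
  exact one_div_le_one_div_of_le (by norm_num) h3

theorem win_bt {c : List Bool} {b : Bool} {p1 p2 p3 : List Bool} {X Y1 Y2 Y3 : ℕ} (h1 : Bel c b X Y1 p1)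
    (h2 : Bel c b X Y2 p2) (h3 : Bel c b X Y3 p3) (h12 : Y1 < Y2) (h23 : Y2 < Y3) : Bt p1 p2 p3 := by
  have h0 := in_cone.2 h1.sf
  have hX : (1 : ℤ) ≤ X := by
    have e := h1.cx
    cases b
    · change det (uu p1) (g2 c) = X at e
      have := h0.2
      omega
    · change det (g1 c) (uu p1) = X at e
      have := h0.1
      omega
  have e12 : (Y1 : ℤ) + 1 ≤ Y2 := by exact_mod_cast h12
  have e23 : (Y2 : ℤ) + 1 ≤ Y3 := by exact_mod_cast h23
  have k12 : (X : ℤ) * 1 ≤ X * (Y2 - Y1) := mul_le_mul_of_nonneg_left (by linarith) (by linarith)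
  have k23 : (X : ℤ) * 1 ≤ X * (Y3 - Y2) := mul_le_mul_of_nonneg_left (by linarith) (by linarith)
  cases b
  · left
    rw [det_coord c false, det_coord c false (uu p2), h1.cx, h1.cy, h2.cx, h2.cy, h3.cx, h3.cy]
    change 0 < 1 * ((X : ℤ) * Y2 - Y1 * X) ∧ 0 < 1 * ((X : ℤ) * Y3 - Y2 * X)
    constructor <;> linarith
  · right
    rw [det_coord c true, det_coord c true (uu p2), h1.cx, h1.cy, h2.cx, h2.cy, h3.cx, h3.cy]
    change 0 < -1 * ((X : ℤ) * Y2 - Y3 * X) ∧ 0 < -1 * ((X : ℤ) * Y1 - Y2 * X)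
    constructor <;> linarith

theorem bel_of {c p : List Bool} (b : Bool) (h : c <:+ p) :
    ∃ X Y : ℕ, 1 ≤ X ∧ 1 ≤ Y ∧ Bel c b X Y p := by
  obtain ⟨h1, h2⟩ := in_cone.2 h
  cases b
  · refine ⟨(det (uu p) (g2 c)).toNat, (det (g1 c) (uu p)).toNat, by omega, by omega, h, ?_, ?_⟩
    · change det (uu p) (g2 c) = _
      omega
    · change det (g1 c) (uu p) = _
      omega
  · refine ⟨(det (g1 c) (uu p)).toNat, (det (uu p) (g2 c)).toNat, by omega, by omega, h, ?_, ?_⟩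
    · change det (g1 c) (uu p) = _
      omega
    · change det (uu p) (g2 c) = _
      omega

theorem bel_inj {c : List Bool} {b : Bool} {p1 p2 : List Bool} {X Y : ℕ} (h1 : Bel c b X Y p1)
    (h2 : Bel c b X Y p2) : p1 = p2 := by
  apply uu_inj
  rw [coord c b (uu p1), h1.cx, h1.cy, ← h2.cx, ← h2.cy]
  exact (coord c b (uu p2)).symm

theorem ll_XY {R : ℕ} {c : List Bool} {b : Bool} {p : List Bool} {X Y : ℕ} (h : Bel c b X Y p) (hs : ss p ≤ R) :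
    |ll p - (X * F (zw c b 0) + Y * F (zh c b))| ≤ 3 * (R : ℝ) ^ 2 * ee c := by
  have h1 := ll_app h.sf
  have e1 := tcb_LL c b (uu p)
  rw [h.cx, h.cy] at e1
  push_cast at e1
  rw [e1] at h1
  refine h1.trans ?_
  have h2 : (ss c : ℝ) ≤ R := by exact_mod_cast (ss_suffix h.sf).trans hs
  have h3 : (ss p : ℝ) ≤ R := by exact_mod_cast hs
  have h4 := (ee_pos c).le
  have h5 : ww c ≤ ee c * R := mul_le_mul_of_nonneg_left h2 h4
  have h6 : 3 * ww c * ss p ≤ 3 * (ee c * R) * R :=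
    mul_le_mul (by linarith) h3 (Nat.cast_nonneg _) (by positivity)
  have h7 : 3 * (ee c * R) * (R : ℝ) = 3 * (R : ℝ) ^ 2 * ee c := by ring
  linarith

theorem X_le {R : ℕ} {c : List Bool} {b : Bool} {p : List Bool} {X Y : ℕ} (h : Bel c b X Y p) (hs : ss p ≤ R)
    {w : ℝ} (hw : w ≤ F (zw c b 0)) : X * w ≤ 2 * R := by
  obtain ⟨h1, h2, h3⟩ := geo_low h.sf
  have e1 := tcb_LL c b (uu p)
  have e2 : LL c (uu p) = fa (tn c) * (det (uu p) (g2 c) : ℝ) + fb (tn c) * (det (g1 c) (uu p) : ℝ) := rfl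
  rw [← e2, e1, h.cx, h.cy] at h1
  push_cast at h1
  have h4 := ll_le p
  have h5 : (ss p : ℝ) ≤ R := by exact_mod_cast hs
  have h6 : (X : ℝ) * w ≤ X * F (zw c b 0) := mul_le_mul_of_nonneg_left hw (Nat.cast_nonneg _)
  have h7 : (0 : ℝ) ≤ Y * F (zh c b) := mul_nonneg (Nat.cast_nonneg _) (by linarith [tcb_h c b])
  linarith

theorem lrc_window {R : ℕ} {c B : List Bool} {b : Bool} {S : Set PP} {D D' : ℤ} {M M' : Mt}
    (hF : Fam R c B S D D' M M') {X m : ℕ} {H w W : ℝ} (hX : ∀ x ∈ S, cX c b (uu x.1) = X) (hXm : X ≤ m)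
    (hwin : ∀ x ∈ S, ∀ y ∈ S, |ll x.1 - ll y.1| ≤ W) (hH : F (zh c b) ≤ H) (hW : W + 1 ≤ H)
    (hw : 3 * w ≤ F (zw c b 0)) (hm : 3 * R ≤ m * w)
    (hc : 20 * (m * (H + 10) + m * Real.log R + Real.log R) + (W + 1) ≤ w) : S.ncard ≤ m + 3 := by
  by_contra hcon
  have hS := fam_finite hF
  have hcard : m + 4 ≤ hS.toFinset.card := by
    rw [← Set.ncard_eq_toFinset_card S hS]
    omega
  obtain ⟨T, hT⟩ : ∃ T : Finset PP, T = hS.toFinset := ⟨_, rfl⟩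
  rw [← hT] at hcard
  have hTS : ∀ x, x ∈ T ↔ x ∈ S := fun x => by rw [hT]; exact Set.Finite.mem_toFinset hS
  have hne : T.Nonempty := Finset.card_pos.1 (by omega)
  obtain ⟨x0, hx0⟩ := hne
  have hW0 : 0 ≤ W := by
    have h1 := hwin x0 ((hTS x0).1 hx0) x0 ((hTS x0).1 hx0)
    rw [sub_self, abs_zero] at h1
    exact h1
  have hR := hF.hR
  have hR0 : (100 : ℝ) ≤ R := by exact_mod_cast hR
  have hl0 : 0 ≤ Real.log R := Real.log_nonneg (by linarith)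
  have hm0 : (0 : ℝ) ≤ m := Nat.cast_nonneg m
  have hH0 : 9 / 10 ≤ H := (tcb_h c b).trans hH
  have hw0 : 0 < w := by
    have h1 : (0 : ℝ) ≤ m * (H + 10) := mul_nonneg hm0 (by linarith)
    have h2 : (0 : ℝ) ≤ m * Real.log R := mul_nonneg hm0 hl0
    linarith
  have hm1 : (1 : ℝ) ≤ m := by
    have h1 : m ≠ 0 := by
      rintro rfl
      rw [Nat.cast_zero, zero_mul] at hm
      linarith
    exact_mod_cast Nat.one_le_iff_ne_zero.2 h1
  have hwl : 200 + 20 * Real.log R ≤ w := by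
    have h1 : 1 * (H + 10) ≤ m * (H + 10) := mul_le_mul_of_nonneg_right hm1 (by linarith)
    have h2 : (0 : ℝ) ≤ m * Real.log R := mul_nonneg hm0 hl0
    linarith
  -- the coordinate `Y`
  obtain ⟨Y, hY⟩ : ∃ Y : PP → ℕ, ∀ x, Y x = (cY c b (uu x.1)).toNat := ⟨_, fun _ => rfl⟩
  have hbel : ∀ x ∈ S, Bel c b X (Y x) x.1 := by
    intro x hx
    obtain ⟨X0, Y0, h1, h2, h3⟩ := bel_of b (hF.hA x hx)
    refine ⟨h3.sf, hX x hx, ?_⟩
    rw [hY x, h3.cy]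
    rfl
  have hYne : ∀ x ∈ S, ∀ y ∈ S, Y x = Y y → x = y := by
    intro x hx y hy h
    have h1 := hbel x hx
    rw [h] at h1
    exact fam_inj1 hF hx hy (bel_inj h1 (hbel y hy))
  obtain ⟨p, hpT, hp⟩ := Finset.exists_min_image T Y ⟨x0, hx0⟩
  obtain ⟨r, hrT, hr⟩ := Finset.exists_max_image T Y ⟨x0, hx0⟩
  have hpS := (hTS p).1 hpT
  have hrS := (hTS r).1 hrT
  obtain ⟨U, hU⟩ : ∃ U : Finset PP, U = (T.erase p).erase r := ⟨_, rfl⟩
  have hUc : m + 2 ≤ U.card := by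
    have h1 := Finset.pred_card_le_card_erase (s := T) (a := p)
    have h2 := Finset.pred_card_le_card_erase (s := T.erase p) (a := r)
    rw [hU]
    omega
  have hUS : ∀ x ∈ U, x ∈ S ∧ Y p < Y x ∧ Y x < Y r := by
    intro x hx
    rw [hU, Finset.mem_erase, Finset.mem_erase] at hx
    obtain ⟨h1, h2, h3⟩ := hx
    have h4 := (hTS x).1 h3
    refine ⟨h4, lt_of_le_of_ne (hp x h3) fun h => h2 (hYne p hpS x h4 h).symm,
      lt_of_le_of_ne (hr x h3) fun h => h1 (hYne x h4 r hrS h)⟩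
  have hbt : ∀ x ∈ U, Bt p.1 x.1 r.1 := by
    intro x hx
    obtain ⟨h1, h2, h3⟩ := hUS x hx
    exact win_bt (hbel p hpS) (hbel x h1) (hbel r hrS) h2 h3
  have hUne : U.Nonempty := Finset.card_pos.1 (by omega)
  obtain ⟨u0, hu0⟩ := hUne
  have hpr : p.2 ≠ r.2 := by
    intro h
    have h1 := fam_inj2 hF hpS hrS h
    obtain ⟨_, h2, h3⟩ := hUS u0 hu0
    rw [h1] at h2
    omega
  obtain ⟨d, hd⟩ := tu_exists hpr
  have hdx : ∀ x ∈ U, d <:+ x.2 := by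
    intro x hx
    exact tu_below hd ((bt_fam hF hpS (hUS x hx).1 hrS).1 (hbt x hx))
  have hed : ee d ≤ 14 * (R : ℝ) ^ 6 * ee c :=
    tu_size hF hpS (hUS u0 hu0).1 hrS (hbt u0 hu0) hd (cc_of_suffix (hF.hA p hpS))
      (cc_of_suffix (hF.hA u0 (hUS u0 hu0).1)) (cc_of_suffix (hF.hA r hrS))
  have hec : ee c ≤ 8 * Real.exp (-(6 * w)) := by
    have h1 := ee_le_ll c
    have h2 := tcb_mx c b
    have h3 : Real.exp (-(2 * ll c)) ≤ Real.exp (-(6 * w)) := Real.exp_le_exp.2 (by linarith)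
    linarith
  have hRp : (0 : ℝ) < R := by linarith
  have hexpR : ∀ k : ℕ, (R : ℝ) ^ k = Real.exp (k * Real.log R) := by
    intro k
    rw [Real.exp_nat_mul, Real.exp_log hRp]
  have hR6 : (0 : ℝ) ≤ (R : ℝ) ^ 6 := by positivity
  have hed2 : ee d ≤ 112 * ((R : ℝ) ^ 6 * Real.exp (-(6 * w))) := by
    have h1 := mul_le_mul_of_nonneg_left hec (show (0 : ℝ) ≤ 14 * (R : ℝ) ^ 6 by positivity)
    linarith
  have hmxd : w ≤ mx d := by
    have h1 := ee_low d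
    have h2 : Real.exp (-(2 * ll d)) ≤ Real.exp 5 * ((R : ℝ) ^ 6 * Real.exp (-(6 * w))) := by
      have h3 : (0 : ℝ) ≤ (R : ℝ) ^ 6 * Real.exp (-(6 * w)) := by positivity
      have h4 := mul_le_mul_of_nonneg_right tcb_e5 h3
      linarith
    rw [hexpR 6, ← Real.exp_add, ← Real.exp_add] at h2
    have h5 := Real.exp_le_exp.1 h2
    have h6 := ll_eq d
    have h7 := ee_pos d
    have h8 : fa (tn d) ≤ mx d := le_max_left _ _
    have h9 : fb (tn d) ≤ mx d := le_max_right _ _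
    push_cast at h5
    linarith
  have hsmall : (R : ℝ) ^ 8 * Real.exp (-(6 * w)) ≤ 1 / 10000 := by
    rw [hexpR 8, ← Real.exp_add]
    push_cast
    refine (Real.exp_le_exp.2 (show 8 * Real.log R + -(6 * w) ≤ -200 by linarith)).trans tcb_e200
  have hEc : 3 * (R : ℝ) ^ 2 * ee c ≤ 1 / 20 := by
    have h1 := mul_le_mul_of_nonneg_left hec (show (0 : ℝ) ≤ 3 * (R : ℝ) ^ 2 by positivity)
    have h2 : (R : ℝ) ^ 2 ≤ (R : ℝ) ^ 8 := pow_le_pow_right₀ (by linarith) (by norm_num)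
    have h3 := mul_le_mul_of_nonneg_right h2 (Real.exp_pos (-(6 * w))).le
    linarith
  have hEd : 3 * (R : ℝ) ^ 2 * ee d ≤ 1 / 20 := by
    have h1 := mul_le_mul_of_nonneg_left hed2 (show (0 : ℝ) ≤ 3 * (R : ℝ) ^ 2 by positivity)
    have h2 : 3 * (R : ℝ) ^ 2 * (112 * ((R : ℝ) ^ 6 * Real.exp (-(6 * w)))) =
        336 * ((R : ℝ) ^ 8 * Real.exp (-(6 * w))) := by ring
    linarith
  -- the coordinates with respect to `d`
  obtain ⟨X', hX'⟩ : ∃ X' : PP → ℕ, ∀ x, X' x = (cX d (ssd d) (uu x.2)).toNat := ⟨_, fun _ => rfl⟩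
  obtain ⟨Y', hY'⟩ : ∃ Y' : PP → ℕ, ∀ x, Y' x = (cY d (ssd d) (uu x.2)).toNat := ⟨_, fun _ => rfl⟩
  have hbel' : ∀ x ∈ U, 1 ≤ X' x ∧ Bel d (ssd d) (X' x) (Y' x) x.2 := by
    intro x hx
    obtain ⟨X0, Y0, h1, h2, h3⟩ := bel_of (ssd d) (hdx x hx)
    have h4 : X' x = X0 := by
      rw [hX' x, h3.cx]
      rfl
    have h5 : Y' x = Y0 := by
      rw [hY' x, h3.cy]
      rfl
    rw [h4, h5]
    exact ⟨h1, h3⟩
  have hX'm : ∀ x ∈ U, X' x ≤ m := by
    intro x hx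
    have h1 := X_le (hbel' x hx).2 (hF.pr x (hUS x hx).1).2.2.2 (w := w) (by rw [sd_w]; exact hmxd)
    have h2 : (X' x : ℝ) * w < m * w := by linarith
    have h3 := lt_of_mul_lt_mul_right h2 hw0.le
    exact_mod_cast h3.le
  obtain ⟨x, hx, y, hy, hxy, hXX⟩ : ∃ x ∈ U, ∃ y ∈ U, x ≠ y ∧ X' x = X' y := by
    have h1 : (Finset.Icc 1 m).card < U.card := by
      rw [Nat.card_Icc]
      omega
    exact Finset.exists_ne_map_eq_of_card_lt_of_maps_to h1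
      (fun x hx => Finset.mem_coe.2 (Finset.mem_Icc.2 ⟨(hbel' x hx).1, hX'm x hx⟩))
  have key : ∀ x ∈ U, ∀ y ∈ U, X' x = X' y → Y x < Y y → False := by
    intro x hx y hy hXX hYY
    obtain ⟨hxS, _, _⟩ := hUS x hx
    obtain ⟨hyS, _, _⟩ := hUS y hy
    obtain ⟨px1, px2, px3, px4⟩ := hF.pr x hxS
    obtain ⟨py1, py2, py3, py4⟩ := hF.pr y hyS
    have a1 := ll_XY (hbel x hxS) px3
    have a2 := ll_XY (hbel y hyS) py3
    have a3 := ll_XY (hbel' x hx).2 px4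
    have a4 := ll_XY (hbel' y hy).2 py4
    have a5 := fam_ll hF hxS
    have a6 := fam_ll hF hyS
    rw [← hXX] at a4
    rw [← a5] at a3
    rw [← a6] at a4
    have a7 := hwin x hxS y hyS
    rw [abs_le] at a1 a2 a3 a4 a7
    have hh := tcb_h c b
    have hh' := tcb_h d (ssd d)
    have hYc : (Y x : ℝ) + 1 ≤ Y y := by exact_mod_cast hYY
    have b1 : 1 * F (zh c b) ≤ ((Y y : ℝ) - Y x) * F (zh c b) :=
      mul_le_mul_of_nonneg_right (by linarith) (by linarith)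
    have b2 : ((Y y : ℝ) - Y x) * F (zh c b) = Y y * F (zh c b) - Y x * F (zh c b) := by ring
    have b3 : 8 / 10 ≤ ll y.1 - ll x.1 := by
      linarith [a1.1, a1.2, a2.1, a2.2]
    have b4 : ((Y' y : ℝ) - Y' x) * F (zh d (ssd d)) = Y' y * F (zh d (ssd d)) - Y' x * F (zh d (ssd d)) := by
      ring
    have b5 : 0 < ((Y' y : ℝ) - Y' x) * F (zh d (ssd d)) := by
      linarith [a3.1, a3.2, a4.1, a4.2]
    have b6 : (0 : ℝ) < (Y' y : ℝ) - Y' x := pos_of_mul_pos_left b5 (by linarith)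
    have b7 : Y' x < Y' y := by
      have h1 : (Y' x : ℝ) < Y' y := by linarith
      exact_mod_cast h1
    have b8 : (Y' x : ℝ) + 1 ≤ Y' y := by exact_mod_cast b7
    have b9 : 1 * F (zh d (ssd d)) ≤ ((Y' y : ℝ) - Y' x) * F (zh d (ssd d)) :=
      mul_le_mul_of_nonneg_right (by linarith) (by linarith)
    have c1 : F (zh d (ssd d)) ≤ H := by
      linarith [a3.1, a3.2, a4.1, a4.2, a7.1]
    have c2 : ((Y y - Y x : ℕ) : ℝ) = (Y y : ℝ) - Y x := Nat.cast_sub hYY.le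
    have k2 := (hbel' y hy).2
    rw [← hXX] at k2
    have hw1 : w ≤ F (zw c b 0) := by linarith
    have hw2 : w ≤ F (zw d (ssd d) 0) := by
      rw [sd_w]
      exact hmxd
    have fin := LR0 hR (hbel x hxS) (hbel y hyS) (hbel' x hx).2 k2 px2 py2 hYY b7 px3 py3 px4 py4
      hXm (hX'm x hx) hH c1 hw1 hw2 (by
        rw [c2]
        linarith [a1.1, a1.2, a2.1, a2.2, a7.1])
    exact px1 fin
  rcases lt_trichotomy (Y x) (Y y) with h | h | h
  · exact key x hx y hy hXX h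
  · exact hxy (hYne x (hUS x hx).1 y (hUS y hy).1 h)
  · exact key y hy x hx hXX.symm h

end Pool.Agent.Lib.MP_94ab62_ntZ
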