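import Pool.Agent.Lib.MP_94ab62_ntZ.LvA

/-!
# TcG: the choice of the parameters, thick case (pure real arithmetic)

`l = log R`, `Par`: `T^1000 = R`, `10^10 (l+1)^10 ≤ T`, `Dv ≤ T`, `R ≥ 100` (so `l ≥ 4`, `T ≥ 10^10`, `l + 1 ≤ T/10^10`, more generally `(l+1)^j * 10^10 ≤ T` for `j ≤ 10`).  Write `R = T^1000` everywhere; `R/T^160 = T^840`.
* `par_basic`: `10^10 ≤ T`, `4 ≤ l`, `l + 1 ≤ T/10^10` (`(l+1) ≤ (l+1)^10`).  `log 100 ≥ 4`: `Real.exp_one_lt_d9`/`Real.add_one_le_exp`, or `exp 4 < 100` (`exp 1 < 2.7182818286`).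
* `par_pow`: existence of `i` with `9/5 R < 2^i`, `i ≤ 2 l`: `i = ⌈log (9/5 R) / log 2⌉₊ + ..`; simplest: the least `i` with `9/5 R < 2^i` (`pow_unbounded_of_one_lt`, `Nat.find`): `i ≥ 1`, `2^(i-1) ≤ 9/5 R`, so
  `(i - 1) log 2 ≤ log (9/5) + l ≤ 0.6 + l`, `log 2 > 0.6931` (`Real.log_two_gt_d9`): `i ≤ 1 + (l + 0.6)/0.69 ≤ 2 l` as `l ≥ 4`.
* `num_thick`.  Choose `N = ⌊R/(T^21 a)⌋₊`, so `R/(2 T^21 a) ≤ N ≤ R/(T^21 a)` (`R/(T^21 a) ≥ T^(840... )`: `a ≤ T^840`, so `R/(T^21 a) ≥ T^139 ≥ 2`); `Λ = 4 T^21 a`, `W = T^110 a`, `H = 2 T^110 a`,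
  `m = ⌈T^22⌉₊` (`T^22 ≤ m ≤ 2 T^22`), `w = R/(8 T^21)`.
  - `2 R ≤ Λ N` ok.  `Λ ≤ H`, `W + 1 ≤ H`, `1 ≤ W` ok (`a ≥ 1`).  `10 w = 10/8 R/T^21 ≤ 3/2 R/T^21 ≤ 3 N a` ok.
  - `3 R ≤ m w`: `m w ≥ T^22 R/(8 T^21) = T R/8 ≥ 3R` ok.
  - (c) `20 (m (H + 10) + m l + l) + (W + 1) ≤ w`: `m (H+10) ≤ 2 T^22 * 12 T^110 a ≤ 24 T^132 a`, `m l ≤ 2 T^23`, so the left side is `≤ T^134 a ≤ T^134 T^840 = T^974`, `w = T^979/8`.
  - (n) nondeep: `3 (2 (2 i N) + 6) + (200 l + 2)(3 (3 Dv + 2)(2 i N + 1))`: with `2 i N + 1 ≤ 4 l N + 1 ≤ 5 l N`, `3 Dv + 2 ≤ 5 T`: `≤ 60 l N + 18 + (202 l)(15 T)(5 l N) ≤ T^2 * N`-type bound: `15150 l^2 T N ≤ T^2 N / 10`;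
    total `≤ T^2 N ≤ R/(T^19 a) ≤ R/(2 T^16 a)`.
  - (d) deep: `(2 + 2 (Λ/(9/10 a))^2) ≤ 2 + 2 (5 T^21)^2 ≤ 60 T^42`; `m (m+3) ≤ 2 T^22 * 3 T^22 = 6 T^44`; `2 R/W + 1 = 2 R/(T^110 a) + 1`: product `≤ 360 T^86 (2R/(T^110 a) + 1) ≤ T^87 (2R/(T^110 a) + 1)
    = 2 R/(T^23 a) + T^87 ≤ 3 R/(T^23 a) ≤ R/(2 T^16 a)` (`T^87 ≤ R/(T^23 a)` as `a ≤ T^840`, `R/(T^23 a) ≥ T^137`).
  - `1 ≤ R/(T^16 a)`: `R/(T^16 a) ≥ T^144`.
-/

set_option autoImplicit false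

namespace Pool.Agent.Lib.MP_94ab62_ntZ

theorem tcg_log100 : (4 : ℝ) ≤ Real.log 100 := by
  rw [Real.le_log_iff_exp_le (by norm_num)]
  have h1 : Real.exp 1 < 2.7182818286 := Real.exp_one_lt_d9
  have h4 : Real.exp 4 = (Real.exp 1) ^ 4 := by
    rw [← Real.exp_nat_mul]; norm_num
  rw [h4]
  have h0 : 0 ≤ Real.exp 1 := (Real.exp_pos 1).le
  calc (Real.exp 1) ^ 4 ≤ (2.7182818286 : ℝ) ^ 4 := pow_le_pow_left₀ h0 h1.le 4
    _ ≤ 100 := by norm_num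

theorem tcg_logR {R : ℕ} (hR : 100 ≤ R) : (4 : ℝ) ≤ Real.log R := by
  refine le_trans tcg_log100 (Real.log_le_log (by norm_num) ?_)
  exact_mod_cast hR

theorem par_basic {R : ℕ} {T : ℝ} {Dv : ℕ} (hp : Par R T Dv) :
    10 ^ 10 ≤ T ∧ 4 ≤ Real.log R ∧ 10 ^ 10 * (Real.log R + 1) ≤ T ∧ 10 ^ 10 * (Real.log R + 1) ^ 4 ≤ T := by
  have hl := tcg_logR hp.hR
  have h1 : (1 : ℝ) ≤ Real.log R + 1 := by linarith
  have hT := hp.hl
  have e1 : (1 : ℝ) ≤ (Real.log R + 1) ^ 10 := one_le_pow₀ h1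
  have e2 : (Real.log R + 1) ≤ (Real.log R + 1) ^ 10 := le_self_pow₀ h1 (by norm_num)
  have e3 : (Real.log R + 1) ^ 4 ≤ (Real.log R + 1) ^ 10 := pow_le_pow_right₀ h1 (by norm_num)
  refine ⟨?_, hl, ?_, ?_⟩
  · refine le_trans ?_ hT
    linarith
  · refine le_trans ?_ hT
    exact mul_le_mul_of_nonneg_left e2 (by norm_num)
  · refine le_trans ?_ hT
    exact mul_le_mul_of_nonneg_left e3 (by norm_num)

theorem par_pow {R : ℕ} (hR : 100 ≤ R) : ∃ i : ℕ, 9 / 5 * (R : ℝ) < 2 ^ i ∧ (i : ℝ) ≤ 2 * Real.log R := by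
  classical
  have hl := tcg_logR hR
  have hR0 : (100 : ℝ) ≤ R := by exact_mod_cast hR
  have hex : ∃ i : ℕ, 9 / 5 * (R : ℝ) < 2 ^ i := pow_unbounded_of_one_lt _ (by norm_num)
  have hs := Nat.find_spec hex
  have hm := fun (j : ℕ) (hj : j < Nat.find hex) => Nat.find_min hex hj
  generalize Nat.find hex = i at hs hm
  refine ⟨i, hs, ?_⟩
  rcases Nat.eq_zero_or_pos i with h0 | h0
  · subst h0
    norm_num
    linarith
  · obtain ⟨k, rfl⟩ : ∃ k, i = k + 1 := ⟨i - 1, by omega⟩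
    have h1 := hm k (by omega)
    have h2 : (2 : ℝ) ^ k ≤ 9 / 5 * (R : ℝ) := not_lt.mp h1
    have h3 : Real.log ((2 : ℝ) ^ k) ≤ Real.log (9 / 5 * (R : ℝ)) :=
      Real.log_le_log (by positivity) h2
    rw [Real.log_pow, Real.log_mul (by norm_num) (by linarith)] at h3
    have h4 : Real.log (9 / 5 : ℝ) ≤ 9 / 5 - 1 := Real.log_le_sub_one_of_pos (by norm_num)
    have h5 : (0.6931471803 : ℝ) < Real.log 2 := Real.log_two_gt_d9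
    push_cast
    have hk : (0 : ℝ) ≤ k := Nat.cast_nonneg k
    have h6 : (k : ℝ) * 0.69 ≤ 4 / 5 + Real.log R := by
      have : (k : ℝ) * 0.69 ≤ (k : ℝ) * Real.log 2 :=
        mul_le_mul_of_nonneg_left (by linarith) hk
      linarith
    linarith

theorem tcg_pw {T : ℝ} (hT : 10 ^ 10 ≤ T) {j k : ℕ} (h : j < k) : 10 ^ 10 * T ^ j ≤ T ^ k := by
  have h1 : (1 : ℝ) ≤ T := le_trans (by norm_num) hT
  have h2 : T ^ (j + 1) ≤ T ^ k := pow_le_pow_right₀ h1 h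
  refine le_trans ?_ h2
  rw [pow_succ, mul_comm]
  exact mul_le_mul_of_nonneg_left hT (by positivity)

theorem tcg_c {T a l m : ℝ} (hT : 10 ^ 10 ≤ T) (ha1 : 1 ≤ a) (ha2 : a ≤ T ^ 840) (hl0 : 0 ≤ l) (hlT : l ≤ T)
    (hm0 : 0 ≤ m) (hm : m ≤ 2 * T ^ 22) :
    20 * (m * (2 * T ^ 110 * a + 10) + m * l + l) + (T ^ 110 * a + 1) ≤ T ^ 979 / 8 := by
  have h1 : (1 : ℝ) ≤ T := le_trans (by norm_num) hT
  have hT110 : (1 : ℝ) ≤ T ^ 110 := one_le_pow₀ h1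
  have hTbig : (10 : ℝ) ≤ T ^ 110 := by
    have := tcg_pw hT (show 0 < 110 by norm_num)
    norm_num at this
    linarith
  have e1 : 2 * T ^ 110 * a + 10 ≤ 3 * (T ^ 110 * a) := by
    have : T ^ 110 * 1 ≤ T ^ 110 * a := mul_le_mul_of_nonneg_left ha1 (by positivity)
    linarith
  have e2 : m * (2 * T ^ 110 * a + 10) ≤ (2 * T ^ 22) * (3 * (T ^ 110 * a)) :=
    mul_le_mul hm e1 (by positivity) (by positivity)
  have e2' : (2 * T ^ 22) * (3 * (T ^ 110 * a)) = 6 * (T ^ 132 * a) := by ring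
  have e3 : m * l ≤ (2 * T ^ 22) * T := mul_le_mul hm hlT hl0 (by positivity)
  have e3' : (2 * T ^ 22) * T = 2 * T ^ 23 := by ring
  have f1 : T ^ 132 * a ≤ T ^ 132 * T ^ 840 := mul_le_mul_of_nonneg_left ha2 (by positivity)
  have f1' : T ^ 132 * T ^ 840 = T ^ 972 := by ring
  have f2 : T ^ 110 * a ≤ T ^ 110 * T ^ 840 := mul_le_mul_of_nonneg_left ha2 (by positivity)
  have f2' : T ^ 110 * T ^ 840 = T ^ 950 := by ring
  have g1 := tcg_pw hT (show 972 < 979 by norm_num)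
  have g2 := tcg_pw hT (show 950 < 979 by norm_num)
  have g3 := tcg_pw hT (show 23 < 979 by norm_num)
  have g4 := tcg_pw hT (show 1 < 979 by norm_num)
  have g5 := tcg_pw hT (show 0 < 979 by norm_num)
  rw [pow_one] at g4
  rw [pow_zero] at g5
  generalize T ^ 979 = Z at *
  generalize T ^ 972 = Z1 at *
  generalize T ^ 950 = Z2 at *
  generalize T ^ 23 = Z3 at *
  norm_num at g1 g2 g3 g4 g5
  linarith

theorem tcg_n {T Q l Dv i N : ℝ} (hT : 10 ^ 10 ≤ T) (hQ : 1 ≤ Q) (hl0 : 0 ≤ l) (hlT : l ≤ T)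
    (hD0 : 0 ≤ Dv) (hD : Dv ≤ T) (hi0 : 0 ≤ i) (hi : i ≤ 2 * T) (hN0 : 0 ≤ N) (hN : N ≤ Q) :
    3 * (2 * (2 * i * N) + 6) + (2 * (100 * l) + 2) * (3 * (Dv * 3 + 2) * ((2 * i * N) + 1)) ≤ T ^ 5 * Q / 2 := by
  have h1 : (1 : ℝ) ≤ T := le_trans (by norm_num) hT
  have e0 : i * N ≤ (2 * T) * Q := mul_le_mul hi hN hN0 (by positivity)
  have e0' : 0 ≤ i * N := by positivity
  have hTQ : 1 ≤ T * Q := by
    calc (1 : ℝ) = 1 * 1 := by ring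
      _ ≤ T * Q := mul_le_mul h1 hQ (by norm_num) (by linarith)
  have e1 : 2 * i * N + 1 ≤ 5 * (T * Q) := by linarith
  have e2 : 2 * (100 * l) + 2 ≤ 202 * T := by linarith
  have e3 : 3 * (Dv * 3 + 2) ≤ 15 * T := by linarith
  have e4 : 3 * (Dv * 3 + 2) * ((2 * i * N) + 1) ≤ (15 * T) * (5 * (T * Q)) :=
    mul_le_mul e3 e1 (by positivity) (by positivity)
  have e5 : (2 * (100 * l) + 2) * (3 * (Dv * 3 + 2) * ((2 * i * N) + 1)) ≤ (202 * T) * ((15 * T) * (5 * (T * Q))) :=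
    mul_le_mul e2 e4 (by positivity) (by positivity)
  have e6 : (202 * T) * ((15 * T) * (5 * (T * Q))) = 15150 * T ^ 3 * Q := by ring
  have e7 : 3 * (2 * (2 * i * N) + 6) ≤ 42 * (T * Q) := by linarith
  have g1 := tcg_pw hT (show 3 < 5 by norm_num)
  have g2 := tcg_pw hT (show 1 < 5 by norm_num)
  rw [pow_one] at g2
  have g1' := mul_le_mul_of_nonneg_right g1 (show 0 ≤ Q by linarith)
  have g2' := mul_le_mul_of_nonneg_right g2 (show 0 ≤ Q by linarith)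
  have z1 : 0 ≤ T ^ 5 * Q := by positivity
  norm_num at g1' g2'
  linarith

theorem tcg_d {T Q a m : ℝ} (hT : 10 ^ 10 ≤ T) (hQ : T ^ 139 ≤ Q) (ha : 1 ≤ a)
    (hm0 : 0 ≤ m) (hm : m ≤ 2 * T ^ 22) :
    (2 + 2 * (4 * T ^ 21 * a / (9 / 10 * a)) ^ 2) * (m * ((2 * (Q / T ^ 89) + 1) * (m + 3))) ≤ T ^ 5 * Q / 2 := by
  have h1 : (1 : ℝ) ≤ T := le_trans (by norm_num) hT
  have hT0 : (0 : ℝ) < T := by linarith
  have ha0 : a ≠ 0 := by linarith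
  have q0 : 4 * T ^ 21 * a / (9 / 10 * a) = 40 / 9 * T ^ 21 := by
    field_simp
    norm_num
  have hT42 : (1 : ℝ) ≤ T ^ 42 := one_le_pow₀ h1
  have hT22 : (10 : ℝ) ≤ T ^ 22 := by
    have := tcg_pw hT (show 0 < 22 by norm_num)
    norm_num at this
    linarith
  have e1 : 2 + 2 * (4 * T ^ 21 * a / (9 / 10 * a)) ^ 2 ≤ 60 * T ^ 42 := by
    rw [q0]
    have : (40 / 9 * T ^ 21) ^ 2 = 1600 / 81 * T ^ 42 := by ring
    rw [this]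
    linarith
  have hQ0 : 0 ≤ Q := le_trans (by positivity) hQ
  have hb : 0 ≤ 2 * (Q / T ^ 89) + 1 := by positivity
  have e2 : (2 * (Q / T ^ 89) + 1) * (m + 3) ≤ (2 * (Q / T ^ 89) + 1) * (3 * T ^ 22) :=
    mul_le_mul_of_nonneg_left (by linarith) hb
  have e3 : m * ((2 * (Q / T ^ 89) + 1) * (m + 3)) ≤ (2 * T ^ 22) * ((2 * (Q / T ^ 89) + 1) * (3 * T ^ 22)) :=
    mul_le_mul hm e2 (by positivity) (by positivity)
  have e4 : (2 + 2 * (4 * T ^ 21 * a / (9 / 10 * a)) ^ 2) * (m * ((2 * (Q / T ^ 89) + 1) * (m + 3))) ≤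
      (60 * T ^ 42) * ((2 * T ^ 22) * ((2 * (Q / T ^ 89) + 1) * (3 * T ^ 22))) :=
    mul_le_mul e1 e3 (by positivity) (by positivity)
  have e5 : (60 * T ^ 42) * ((2 * T ^ 22) * ((2 * (Q / T ^ 89) + 1) * (3 * T ^ 22))) =
      720 * (T ^ 86 * (Q / T ^ 89)) + 360 * T ^ 86 := by ring
  have e6 : T ^ 86 * (Q / T ^ 89) ≤ Q := by
    have : T ^ 86 * (Q / T ^ 89) = Q / T ^ 3 := by
      field_simp
    rw [this]
    exact div_le_self hQ0 (one_le_pow₀ h1)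
  have g1 := tcg_pw hT (show 86 < 139 by norm_num)
  have g2 := tcg_pw hT (show 0 < 5 by norm_num)
  rw [pow_zero] at g2
  have g2' := mul_le_mul_of_nonneg_right g2 hQ0
  norm_num at g1 g2'
  linarith

theorem num_thick {R : ℕ} {T : ℝ} {Dv : ℕ} (hp : Par R T Dv) {a : ℝ} (ha1 : 1 ≤ a) (ha2 : a ≤ R / T ^ 160) :
    ∃ (i N m : ℕ) (H w W Λ : ℝ), 9 / 5 * (R : ℝ) < 2 ^ i ∧ 1 ≤ N ∧ 2 * R ≤ Λ * N ∧ Λ ≤ H ∧ W + 1 ≤ H ∧ 1 ≤ W ∧
      10 * w ≤ 3 * N * a ∧ 3 * R ≤ m * w ∧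
      20 * (m * (H + 10) + m * Real.log R + Real.log R) + (W + 1) ≤ w ∧
      3 * (2 * ((2 * i * N : ℕ) : ℝ) + 6) +
        (2 * (100 * Real.log R) + 2) * (3 * (Dv * 3 + 2) * (((2 * i * N : ℕ) : ℝ) + 1)) ≤ R / (2 * T ^ 16 * a) ∧
      (2 + 2 * (Λ / (9 / 10 * a)) ^ 2) * (m * ((2 * R / W + 1) * (m + 3))) ≤ R / (2 * T ^ 16 * a) ∧
      1 ≤ R / (T ^ 16 * a) := by
  obtain ⟨hT, hl4, hlT1, -⟩ := par_basic hp
  obtain ⟨i, hi, hi2⟩ := par_pow hp.hR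
  have h1 : (1 : ℝ) ≤ T := le_trans (by norm_num) hT
  have hT0 : (0 : ℝ) < T := by linarith
  have ha0 : 0 < a := by linarith
  have hRT : (R : ℝ) = T ^ 1000 := hp.hT.symm
  have hlT : Real.log R ≤ T := by
    norm_num at hlT1
    linarith
  have hlR0 : 0 ≤ Real.log R := by linarith
  rw [hRT] at ha2
  have ha3 : a ≤ T ^ 840 := by
    have : T ^ 1000 / T ^ 160 = T ^ 840 := by
      rw [div_eq_iff (by positivity)]
      ring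
    rw [this] at ha2
    exact ha2
  have hD := hp.hD
  have hD0 : (0 : ℝ) ≤ Dv := Nat.cast_nonneg _
  obtain ⟨Q, hQd⟩ : ∃ Q : ℝ, Q = T ^ 1000 / (T ^ 21 * a) := ⟨_, rfl⟩
  have hTa : 0 < T ^ 21 * a := by positivity
  have hQe : Q * (T ^ 21 * a) = T ^ 1000 := by
    rw [hQd]
    exact div_mul_cancel₀ _ hTa.ne'
  have hQ139 : T ^ 139 ≤ Q := by
    rw [hQd, le_div_iff₀ hTa]
    calc T ^ 139 * (T ^ 21 * a) = T ^ 160 * a := by ring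
      _ ≤ T ^ 160 * T ^ 840 := mul_le_mul_of_nonneg_left ha3 (by positivity)
      _ = T ^ 1000 := by ring
  have hQ2 : 2 ≤ Q := by
    refine le_trans ?_ hQ139
    have := tcg_pw hT (show 0 < 139 by norm_num)
    norm_num at this
    linarith
  have hQ0 : 0 < Q := by linarith
  have hf1 : ((⌊Q⌋₊ : ℕ) : ℝ) ≤ Q := Nat.floor_le hQ0.le
  have hf2 : Q < (⌊Q⌋₊ : ℕ) + 1 := Nat.lt_floor_add_one Q
  have hf3 : Q / 2 ≤ (⌊Q⌋₊ : ℕ) := by linarith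
  have hc1 : T ^ 22 ≤ (⌈T ^ 22⌉₊ : ℕ) := Nat.le_ceil _
  have hc2 : ((⌈T ^ 22⌉₊ : ℕ) : ℝ) < T ^ 22 + 1 := Nat.ceil_lt_add_one (by positivity)
  have hT22 : (1 : ℝ) ≤ T ^ 22 := one_le_pow₀ h1
  have hN0 : (0 : ℝ) ≤ (⌊Q⌋₊ : ℕ) := Nat.cast_nonneg _
  have hN1 : 1 ≤ ⌊Q⌋₊ := Nat.le_floor (by push_cast; linarith)
  generalize ⌊Q⌋₊ = N at *
  generalize ⌈T ^ 22⌉₊ = m at *
  have hm0 : (0 : ℝ) ≤ (m : ℝ) := Nat.cast_nonneg _
  have hm2 : (m : ℝ) ≤ 2 * T ^ 22 := by linarith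
  have hR16 : T ^ 1000 / (2 * T ^ 16 * a) = T ^ 5 * Q / 2 := by
    rw [div_eq_iff (by positivity), ← hQe]
    ring
  have hR16' : T ^ 1000 / (T ^ 16 * a) = T ^ 5 * Q := by
    rw [div_eq_iff (by positivity), ← hQe]
    ring
  have hRW : 2 * T ^ 1000 / (T ^ 110 * a) = 2 * (Q / T ^ 89) := by
    rw [div_eq_iff (by positivity), ← hQe]
    field_simp
  have hw : T ^ 979 / 8 * (T ^ 21 * 8) = T ^ 1000 := by ring
  refine ⟨i, N, m, 2 * T ^ 110 * a, T ^ 979 / 8, T ^ 110 * a, 4 * T ^ 21 * a, hi, hN1, ?_, ?_, ?_, ?_, ?_, ?_, ?_, ?_, ?_, ?_⟩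
  · rw [hRT, ← hQe]
    have : 4 * T ^ 21 * a * (Q / 2) ≤ 4 * T ^ 21 * a * N := mul_le_mul_of_nonneg_left hf3 (by positivity)
    linarith
  · have : T ^ 21 * a ≤ T ^ 110 * a :=
      mul_le_mul_of_nonneg_right (pow_le_pow_right₀ h1 (by norm_num)) ha0.le
    have g1 := mul_le_mul_of_nonneg_right (tcg_pw hT (show 21 < 110 by norm_num)) ha0.le
    have z : 0 ≤ T ^ 21 * a := by positivity
    norm_num at g1
    linarith
  · have : T ^ 110 * 1 ≤ T ^ 110 * a := mul_le_mul_of_nonneg_left ha1 (by positivity)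
    have h110 : (1 : ℝ) ≤ T ^ 110 := one_le_pow₀ h1
    linarith
  · have : T ^ 110 * 1 ≤ T ^ 110 * a := mul_le_mul_of_nonneg_left ha1 (by positivity)
    have h110 : (1 : ℝ) ≤ T ^ 110 := one_le_pow₀ h1
    linarith
  · have e : Q / 2 * a ≤ N * a := mul_le_mul_of_nonneg_right hf3 ha0.le
    have e2 : T ^ 979 = Q * a := by
      have h21 : T ^ 21 ≠ 0 := by positivity
      apply mul_left_cancel₀ h21
      rw [← pow_add]
      rw [show 21 + 979 = 1000 from rfl, ← hQe]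
      ring
    rw [e2]
    have z : 0 ≤ Q * a := by positivity
    linarith
  · rw [hRT]
    have e : T ^ 22 * (T ^ 979 / 8) ≤ m * (T ^ 979 / 8) := mul_le_mul_of_nonneg_right hc1 (by positivity)
    have e2 : T ^ 22 * (T ^ 979 / 8) = T ^ 1001 / 8 := by ring
    have g := tcg_pw hT (show 1000 < 1001 by norm_num)
    have z : 0 ≤ T ^ 1000 := by positivity
    rw [e2] at e
    generalize T ^ 1001 = Z1 at *
    generalize T ^ 1000 = Z2 at *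
    norm_num at g
    linarith
  · exact tcg_c hT ha1 ha3 hlR0 hlT hm0 hm2
  · rw [hRT, hR16]
    push_cast
    rw [← hRT]
    exact tcg_n hT (by linarith) hlR0 hlT hD0 hD (Nat.cast_nonneg i) (by linarith) hN0 hf1
  · rw [hRT, hR16, hRW]
    exact tcg_d hT hQ139 ha1 hm0 hm2
  · rw [hRT, hR16']
    calc (1 : ℝ) = 1 * 1 := by ring
      _ ≤ T ^ 5 * Q := mul_le_mul (one_le_pow₀ h1) (by linarith) (by norm_num) (by positivity)

end Pool.Agent.Lib.MP_94ab62_ntZ
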