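import Pool.Agent.Lib.MP_94ab62_ntZ.LvF
import Pool.Agent.Lib.MP_94ab62_ntZ.LvG
import Pool.Agent.Lib.MP_94ab62_ntZ.LrD
import Pool.Agent.Lib.MP_94ab62_ntZ.TcB
import Pool.Agent.Lib.MP_94ab62_ntZ.TcG

/-!
# LvI: pairs of leaves of the last level

* `sd_zh`: `sd P = true` iff `fa (tn P) < fb (tn P)`; `zh P true = (tn P).1`, `zw P true 0 = (tn P).2.1` (`cn_zero`), `fa t = F t.1`, `fb t = F t.2.1`: `F (zh P true) = fa = min`, `F (zw P true 0) = fb = max`; for `false` exchanged.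
* `bel_exists`: `coords`: `uu x = α g1 P + β g2 P`, `α, β ≥ 1`; `cX P true v = det (g1 P) v`, `cY P true v = det v (g2 P)`, for `false` exchanged; so `{X, Y} = {α, β}` (`det_g`, `det_smul_left`, ...).
* `bel_LL`: `coord`, `LL_add`, `LL_smul`; `wv P true 0 = g2 P`, `hv P true = g1 P`, `LL_g1`, `LL_g2`.
* `bel_X`: `conv_low`: `LL P (uu x) - 4/3 * ee P * min .. ≤ ll x`, the minimum is at most `X`, `ee P ≤ 1/20`, `LL P (uu x) ≥ X * mx P`, `mx P ≥ 9/10`: `ll x ≥ X (mx P - 1/15) ≥ 8/10 X mx P`.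
* `bel_diff`: two nodes below `P` with the same `X`: `|ll x2 - ll x1 - (Y2 - Y1) F (zh P b)| ≤ 48 R² e^(-2k)`: `lv_app` twice, `bel_LL`.
* `ends_num`: with `ℓ = log R ≤ T/100`, `T ≥ 10^10`: `m ≤ 3 T^170`: `m (T^190 + 10) ≤ 4 T^360`, `m ℓ ≤ T^172`: everything `≤ T^830`.
* `ends`: Case 1: `T^190 ≤ kap P`: `mtc_fst` with `X = {q | P <:+ q ∧ ss q ≤ R}` (finite: `fin_ss`) and `cnt R P : X.ncard * (m1 P * m2 P) ≤ R^2`; `fa ≤ 9/5 m1`, `fb ≤ 9/5 m2` (`fa_le`, `fb_le`), `fa * fb = kap * mx`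
   (`min_mul_max`), so `m1 * m2 ≥ 25/81 * T^190 * T^830`, `X.ncard ≤ 81/25 R²/T^1020 = 81/25 T^980 ≤ T^983 = R/T^17`.  Case 2: `T^190 ≤ kap H`: the same with `mtc_snd`.
  Case 3: both `< T^190`.  `b = sd P`, `b' = sd H`.  Every `x ∈ S` has `X, Y`, `X', Y'` (`bel_exists`), `8/10 X T^830 ≤ ll x.1 ≤ 9/5 R` (`ll_le`), so `X ≤ m := ⌊3 T^170⌋₊`, the same `X' ≤ m`; `ll x.1 = ll x.2` (`zz` equal).
   The map `x ↦ (X, X', ⌊ll x.1 / T^380⌋₊)` (choose `X`, `X'` as `(cX ..).toNat`) is injective on `S`: two different members with the same image: `|ll x1.1 - ll x2.1| < T^380`.  `Y1 ≠ Y2` (otherwise `uu x1.1 = uu x2.1` by `coord`, so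
   `x1.1 = x2.1`, `x1 = x2` by `i1`).  Let `Y1 < Y2`.  `bel_diff`: `(Y2-Y1) kap P ≤ T^380 + 1`, and `ll x2.1 - ll x1.1 ≥ 9/10 - 1/10`, so by `bel_diff` for `H` : `(Y2' - Y1') kap H ≥ 8/10 - 1/10 > 0`, `Y1' < Y2'`.
   `LR0` with `H := T^190`, `w := T^830`, `ends_num`: `x1.1 = x1.2`, contradiction with `Pr` (`p ≠ q`).
   Number of values: `(m+1)² (2 R/T^380 + 2) ≤ 16 T^340 (2 T^620 + 2) ≤ 64 T^960 ≤ T^983`.
-/

set_option autoImplicit false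

namespace Pool.Agent.Lib.MP_94ab62_ntZ

open Pool.Agent.Lib.MP_94ab62_nt Pool.Agent.Lib.MP_94ab62_ntU

theorem sd_zh (P : List Bool) : F (zh P (sd P)) = kap P ∧ F (zw P (sd P) 0) = mx P := by
  refine ⟨?_, lvf_mx P⟩
  unfold sd kap
  by_cases h : fa (tn P) < fb (tn P)
  · rw [if_pos h, min_eq_left h.le]
    rfl
  · rw [if_neg h, min_eq_right (not_lt.1 h)]
    rfl

theorem bel_exists {P x : List Bool} (b : Bool) (h : P <:+ x) : ∃ X Y : ℕ, 1 ≤ X ∧ 1 ≤ Y ∧ Bel P b X Y x :=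
  bel_of b h

theorem lvi_LL (c : List Bool) (b : Bool) (v : ℤ × ℤ) :
    LL c v = (cX c b v : ℝ) * F (zw c b 0) + (cY c b v : ℝ) * F (zh c b) := by
  cases b
  · change fa (tn c) * (det v (g2 c) : ℝ) + fb (tn c) * (det (g1 c) v : ℝ) =
      (det v (g2 c) : ℝ) * fa (tn c) + (det (g1 c) v : ℝ) * fb (tn c)
    ring
  · change fa (tn c) * (det v (g2 c) : ℝ) + fb (tn c) * (det (g1 c) v : ℝ) =
      (det (g1 c) v : ℝ) * fb (tn c) + (det v (g2 c) : ℝ) * fa (tn c)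
    ring

theorem bel_LL {P x : List Bool} {b : Bool} {X Y : ℕ} (h : Bel P b X Y x) :
    LL P (uu x) = X * F (zw P b 0) + Y * F (zh P b) := by
  rw [lvi_LL P b, h.cx, h.cy]
  push_cast
  rfl

theorem bel_X {P x : List Bool} {X Y : ℕ} (h : Bel P (sd P) X Y x) : 8 / 10 * (X * mx P) ≤ ll x := by
  obtain ⟨h1, h2, h3⟩ := geo_low h.sf
  have e2 : LL P (uu x) = fa (tn P) * (det (uu x) (g2 P) : ℝ) + fb (tn P) * (det (g1 P) (uu x) : ℝ) := rfl
  rw [← e2, bel_LL h, (sd_zh P).2, (sd_zh P).1] at h1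
  have h4 : (0 : ℝ) ≤ Y * kap P := mul_nonneg (Nat.cast_nonneg _) (by linarith [kap_ge P])
  have h5 : (0 : ℝ) ≤ X * mx P := mul_nonneg (Nat.cast_nonneg _) (by linarith [kap_ge P, kap_le_mx P])
  linarith

theorem bel_diff {R : ℕ} {k : ℝ} {P x1 x2 : List Bool} {b : Bool} {X Y1 Y2 : ℕ} (hP : Lf k P) (h1 : Bel P b X Y1 x1)
    (h2 : Bel P b X Y2 x2) (s1 : ss x1 ≤ R) (s2 : ss x2 ≤ R) :
    |ll x2 - ll x1 - ((Y2 : ℝ) - Y1) * F (zh P b)| ≤ 48 * (R : ℝ) ^ 2 * Real.exp (-(2 * k)) := by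
  have a1 := abs_le.1 (lv_app hP h1.sf s1)
  have a2 := abs_le.1 (lv_app hP h2.sf s2)
  rw [bel_LL h1] at a1
  rw [bel_LL h2] at a2
  rw [abs_le]
  constructor
  · nlinarith [a1.1, a1.2, a2.1, a2.2]
  · nlinarith [a1.1, a1.2, a2.1, a2.2]

theorem ends_num {R : ℕ} {T : ℝ} {Dv m : ℕ} (hP : Par R T Dv) (hm : (m : ℝ) ≤ 3 * T ^ 170) {u : ℝ} (hu : u ≤ T ^ 380 + 1) :
    20 * (m * (T ^ 190 + 10) + m * Real.log R + Real.log R) + u ≤ T ^ 830 := by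
  obtain ⟨hT, hl4, hl, -⟩ := par_basic hP
  have hT1 : (1 : ℝ) ≤ T := by linarith
  have hT0 : (0 : ℝ) < T := by linarith
  have hm0 : (0 : ℝ) ≤ m := Nat.cast_nonneg _
  have hlT : Real.log R ≤ T := by linarith
  have p190 : (1 : ℝ) ≤ T ^ 190 := one_le_pow₀ hT1
  have hT190 : T ≤ T ^ 190 := by
    calc T = T ^ 1 := (pow_one T).symm
      _ ≤ T ^ 190 := pow_le_pow_right₀ hT1 (by norm_num)
  have h1 : (m : ℝ) * (T ^ 190 + 10) ≤ 3 * T ^ 170 * (11 * T ^ 190) :=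
    mul_le_mul hm (by linarith) (by linarith) (by positivity)
  have h2 : (m : ℝ) * Real.log R ≤ 3 * T ^ 170 * T ^ 190 :=
    mul_le_mul hm (hlT.trans hT190) (by linarith) (by positivity)
  have e1 : T ^ 170 * T ^ 190 = T ^ 360 := by rw [← pow_add]
  have p360 : T ^ 360 ≤ T ^ 380 := pow_le_pow_right₀ hT1 (by norm_num)
  have pT : T ≤ T ^ 380 := by
    calc T = T ^ 1 := (pow_one T).symm
      _ ≤ T ^ 380 := pow_le_pow_right₀ hT1 (by norm_num)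
  have p1 : (1 : ℝ) ≤ T ^ 380 := one_le_pow₀ hT1
  have h3 : 20 * (m * (T ^ 190 + 10) + m * Real.log R + Real.log R) + u ≤ 1000 * T ^ 380 := by
    nlinarith
  have e2 : T * T ^ 380 = T ^ 381 := by rw [← pow_succ']
  have p381 : T ^ 381 ≤ T ^ 830 := pow_le_pow_right₀ hT1 (by norm_num)
  have h4 : 1000 * T ^ 380 ≤ T * T ^ 380 := mul_le_mul_of_nonneg_right (by linarith) (by positivity)
  linarith

theorem ends_big {R : ℕ} {T : ℝ} {Dv : ℕ} (hP : Par R T Dv) {k : ℝ} (hk : T ^ 830 ≤ k) {P : List Bool}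
    (h1 : Lf k P) (h : T ^ 190 ≤ kap P) : (({q : List Bool | P <:+ q ∧ ss q ≤ R}.ncard : ℕ) : ℝ) ≤ R / T ^ 17 := by
  obtain ⟨hT, hl4, hl, -⟩ := par_basic hP
  have hT1 : (1 : ℝ) ≤ T := by linarith
  have hT0 : (0 : ℝ) < T := by linarith
  have hc : (({q : List Bool | P <:+ q ∧ ss q ≤ R}.ncard : ℕ) : ℝ) * ((m1 P : ℝ) * m2 P) ≤ (R : ℝ) ^ 2 := by
    exact_mod_cast cnt R P
  obtain ⟨n, hn⟩ : ∃ n : ℝ, n = (({q : List Bool | P <:+ q ∧ ss q ≤ R}.ncard : ℕ) : ℝ) := ⟨_, rfl⟩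
  rw [← hn] at hc ⊢
  have hn0 : 0 ≤ n := by rw [hn]; exact Nat.cast_nonneg _
  have ha := fa_le P
  have hb := fb_le P
  have hmx : T ^ 830 ≤ mx P := hk.trans (Lf_mx h1)
  have e1 : fa (tn P) * fb (tn P) = kap P * mx P := (min_mul_max _ _).symm
  have hka : (9 / 10 : ℝ) ≤ fa (tn P) := (kap_ge P).trans (min_le_left _ _)
  have hkb : (9 / 10 : ℝ) ≤ fb (tn P) := (kap_ge P).trans (min_le_right _ _)
  have h2 : T ^ 190 * T ^ 830 ≤ fa (tn P) * fb (tn P) := by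
    rw [e1]
    exact mul_le_mul h hmx (by positivity) (by linarith [kap_ge P])
  have h3 : fa (tn P) * fb (tn P) ≤ (9 / 5 * (m1 P : ℝ)) * (9 / 5 * (m2 P : ℝ)) :=
    mul_le_mul ha hb (by linarith) (by positivity)
  have e2 : T ^ 190 * T ^ 830 = T ^ 1020 := by rw [← pow_add]
  have h4 : 25 / 81 * T ^ 1020 ≤ (m1 P : ℝ) * m2 P := by
    rw [e2] at h2
    linarith
  have h5 : n * (25 / 81 * T ^ 1020) ≤ (R : ℝ) ^ 2 := (mul_le_mul_of_nonneg_left h4 hn0).trans hc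
  have hR : (R : ℝ) = T ^ 1000 := hP.hT.symm
  have e3 : (R : ℝ) / T ^ 17 = T ^ 983 := by
    rw [hR, div_eq_iff (by positivity), ← pow_add]
  have e4 : (R : ℝ) ^ 2 = T ^ 980 * T ^ 1020 := by
    rw [hR, ← pow_mul, ← pow_add]
  rw [e4] at h5
  have h6 : n * (25 / 81) ≤ T ^ 980 := by
    have hp : (0 : ℝ) < T ^ 1020 := by positivity
    have : n * (25 / 81) * T ^ 1020 ≤ T ^ 980 * T ^ 1020 := by linarith
    exact le_of_mul_le_mul_right this hp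
  have e5 : T ^ 983 = T ^ 3 * T ^ 980 := by rw [← pow_add]
  have h7 : (4 : ℝ) * T ^ 980 ≤ T ^ 3 * T ^ 980 := by
    apply mul_le_mul_of_nonneg_right _ (by positivity)
    have : T ^ 1 ≤ T ^ 3 := pow_le_pow_right₀ hT1 (by norm_num)
    rw [pow_one] at this
    linarith
  rw [e3, e5]
  linarith

theorem ends_exp {R : ℕ} {T : ℝ} {Dv : ℕ} (hP : Par R T Dv) {k : ℝ} (hk : T ^ 830 ≤ k) :
    48 * (R : ℝ) ^ 2 * Real.exp (-(2 * k)) ≤ 1 / 10 := by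
  obtain ⟨hT, hl4, hl, -⟩ := par_basic hP
  have hT1 : (1 : ℝ) ≤ T := by linarith
  have hRpos : (0 : ℝ) < R := by
    have := hP.hR
    exact_mod_cast (by omega : 0 < R)
  have h1 : T ≤ T ^ 830 := by
    calc T = T ^ 1 := (pow_one T).symm
      _ ≤ T ^ 830 := pow_le_pow_right₀ hT1 (by norm_num)
  have h2 : 10 ^ 10 * (Real.log R + 1) ≤ k := by linarith
  have h3 : Real.exp (-(2 * k)) ≤ Real.exp (-(3 * Real.log R + 10)) := by
    apply Real.exp_le_exp.2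
    linarith
  have h4 : Real.exp (-(3 * Real.log R + 10)) = 1 / (R : ℝ) ^ 3 * Real.exp (-10) := by
    rw [neg_add, Real.exp_add, Real.exp_neg (3 * Real.log R)]
    congr 1
    rw [show (3 : ℝ) * Real.log R = Real.log ((R : ℝ) ^ 3) by rw [Real.log_pow]; norm_num,
      Real.exp_log (by positivity), one_div]
  have h5 : Real.exp (-10) ≤ 1 := by
    rw [← Real.exp_zero]
    exact Real.exp_le_exp.2 (by norm_num)
  have hR100 : (100 : ℝ) ≤ R := by exact_mod_cast hP.hR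
  have h6 : 48 * (R : ℝ) ^ 2 * Real.exp (-(2 * k)) ≤ 48 * (R : ℝ) ^ 2 * (1 / (R : ℝ) ^ 3 * Real.exp (-10)) := by
    apply mul_le_mul_of_nonneg_left _ (by positivity)
    rw [← h4]
    exact h3
  have h10 : Real.exp (-10) ≤ 1 / 11 := by
    have h11 := Real.add_one_le_exp (10 : ℝ)
    rw [Real.exp_neg, ← one_div]
    exact one_div_le_one_div_of_le (by norm_num) (by linarith)
  have h7 : 48 * (R : ℝ) ^ 2 * (1 / (R : ℝ) ^ 3 * Real.exp (-10)) = 48 / R * Real.exp (-10) := by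
    field_simp
  rw [h7] at h6
  have h8 : 48 / (R : ℝ) ≤ 48 / 100 := by
    apply div_le_div_of_nonneg_left (by norm_num) (by norm_num) hR100
  have h9 : 48 / (R : ℝ) * Real.exp (-10) ≤ 48 / 100 * (1 / 11) :=
    mul_le_mul h8 h10 (Real.exp_pos _).le (by norm_num)
  linarith

/-- two members of the same class and window are equal -/
theorem ends_inj {R : ℕ} {T : ℝ} {Dv : ℕ} (hP : Par R T Dv) {S : Set PP} (hM : Mtc R S) {k : ℝ} (hk : T ^ 830 ≤ k)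
    {P H : List Bool} (h1 : Lf k P) (h2 : Lf k H) (kP : kap P < T ^ 190) (kH : kap H < T ^ 190)
    {x y : PP} (hx : x ∈ S) (hy : y ∈ S) {m X X' Y1 Y2 Y1' Y2' : ℕ} (hm : (m : ℝ) ≤ 3 * T ^ 170) (hXm : X ≤ m)
    (hXm' : X' ≤ m) (b1 : Bel P (sd P) X Y1 x.1) (b2 : Bel P (sd P) X Y2 y.1) (b1' : Bel H (sd H) X' Y1' x.2)
    (b2' : Bel H (sd H) X' Y2' y.2) (hw : |ll x.1 - ll y.1| ≤ T ^ 380) (hlt : Y1 < Y2) : False := by
  obtain ⟨_, zx, sx1, sx2⟩ := hM.pr x hx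
  obtain ⟨_, zy, sy1, sy2⟩ := hM.pr y hy
  have lx : ll x.1 = ll x.2 := by
    change F (zz x.1) = F (zz x.2)
    rw [zx]
  have ly : ll y.1 = ll y.2 := by
    change F (zz y.1) = F (zz y.2)
    rw [zy]
  have ex := ends_exp hP hk
  have d1 := abs_le.1 ((bel_diff h1 b1 b2 sx1 sy1).trans ex)
  have d2 := abs_le.1 ((bel_diff h2 b1' b2' sx2 sy2).trans ex)
  rw [(sd_zh P).1] at d1
  rw [(sd_zh H).1] at d2
  have hw' := abs_le.1 hw
  have kP' := kap_ge P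
  have kH' := kap_ge H
  have hY : (Y1 : ℝ) + 1 ≤ Y2 := by exact_mod_cast hlt
  have h3 : 9 / 10 ≤ ((Y2 : ℝ) - Y1) * kap P := by nlinarith
  have h4 : 8 / 10 ≤ ll y.2 - ll x.2 := by
    rw [← lx, ← ly]
    linarith [d1.1]
  have hY' : Y1' < Y2' := by
    by_contra hcon
    have h5 : (Y2' : ℝ) ≤ Y1' := by exact_mod_cast not_lt.1 hcon
    have h6 : ((Y2' : ℝ) - Y1') * kap H ≤ 0 :=
      mul_nonpos_of_nonpos_of_nonneg (by linarith) (by linarith)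
    linarith [d2.2]
  have h7 : ((Y2 - Y1 : ℕ) : ℝ) * F (zh P (sd P)) ≤ T ^ 380 + 1 := by
    rw [(sd_zh P).1, Nat.cast_sub hlt.le]
    linarith [d1.1, hw'.1]
  have hmx : T ^ 830 ≤ F (zw P (sd P) 0) := by
    rw [(sd_zh P).2]
    exact hk.trans (Lf_mx h1)
  have hmx' : T ^ 830 ≤ F (zw H (sd H) 0) := by
    rw [(sd_zh H).2]
    exact hk.trans (Lf_mx h2)
  have hz : F (zh P (sd P)) ≤ T ^ 190 := by
    rw [(sd_zh P).1]
    exact kP.le
  have hz' : F (zh H (sd H)) ≤ T ^ 190 := by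
    rw [(sd_zh H).1]
    exact kH.le
  have := LR0 hP.hR b1 b2 b1' b2' zx zy hlt hY' sx1 sy1 sx2 sy2 hXm hXm' hz hz' hmx hmx' (ends_num hP hm h7)
  exact (hM.pr x hx).1 this

theorem ends_X {R : ℕ} {T : ℝ} {Dv : ℕ} (hP : Par R T Dv) {k : ℝ} (hk : T ^ 830 ≤ k) {P p : List Bool}
    (h1 : Lf k P) {X Y : ℕ} (hb : Bel P (sd P) X Y p) (hs : ss p ≤ R) : (X : ℝ) ≤ 3 * T ^ 170 := by
  obtain ⟨hT, hl4, hl, -⟩ := par_basic hP
  have hT1 : (1 : ℝ) ≤ T := by linarith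
  have hT0 : (0 : ℝ) < T := by linarith
  have h2 := bel_X hb
  have h3 := ll_le p
  have h4 : (ss p : ℝ) ≤ R := by exact_mod_cast hs
  have hmx : T ^ 830 ≤ mx P := hk.trans (Lf_mx h1)
  have h5 : (X : ℝ) * T ^ 830 ≤ X * mx P := mul_le_mul_of_nonneg_left hmx (Nat.cast_nonneg _)
  have hR : (R : ℝ) = T ^ 170 * T ^ 830 := by
    rw [← hP.hT, ← pow_add]
  have h6 : (X : ℝ) * T ^ 830 ≤ 3 * T ^ 170 * T ^ 830 := by
    have : (X : ℝ) * T ^ 830 ≤ 9 / 4 * R := by linarith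
    rw [hR] at this
    have hp : (0 : ℝ) < T ^ 170 * T ^ 830 := by positivity
    linarith
  exact le_of_mul_le_mul_right h6 (by positivity)

theorem ends_small {R : ℕ} {T : ℝ} {Dv : ℕ} (hP : Par R T Dv) {S : Set PP} (hM : Mtc R S) {k : ℝ} (hk : T ^ 830 ≤ k)
    {P H : List Bool} (h1 : Lf k P) (h2 : Lf k H) (hA : ∀ x ∈ S, P <:+ x.1) (hB : ∀ x ∈ S, H <:+ x.2)
    (kP : kap P < T ^ 190) (kH : kap H < T ^ 190) : (S.ncard : ℝ) ≤ R / T ^ 17 := by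
  classical
  obtain ⟨hT, hl4, hl, -⟩ := par_basic hP
  have hT1 : (1 : ℝ) ≤ T := by linarith
  have hT0 : (0 : ℝ) < T := by linarith
  obtain ⟨m, hmdef⟩ : ∃ m : ℕ, m = ⌊3 * T ^ 170⌋₊ := ⟨_, rfl⟩
  have hm : (m : ℝ) ≤ 3 * T ^ 170 := by
    rw [hmdef]
    exact Nat.floor_le (by positivity)
  obtain ⟨J, hJdef⟩ : ∃ J : ℕ, J = ⌊2 * R / T ^ 380⌋₊ := ⟨_, rfl⟩
  have hJ : (J : ℝ) ≤ 2 * R / T ^ 380 := by
    rw [hJdef]
    exact Nat.floor_le (by positivity)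
  -- coordinates
  have hex : ∀ x ∈ S, ∃ X Y X' Y' : ℕ, Bel P (sd P) X Y x.1 ∧ Bel H (sd H) X' Y' x.2 := by
    intro x hx
    obtain ⟨X, Y, _, _, hb⟩ := bel_exists (sd P) (hA x hx)
    obtain ⟨X', Y', _, _, hb'⟩ := bel_exists (sd H) (hB x hx)
    exact ⟨X, Y, X', Y', hb, hb'⟩
  choose! fX fY fX' fY' hf hf' using hex
  let g : PP → ℕ × ℕ × ℕ := fun x => (fX x, fX' x, ⌊ll x.1 / T ^ 380⌋₊)
  have hmaps : ∀ x ∈ S, g x ∈ ((Finset.range (m + 1) ×ˢ (Finset.range (m + 1) ×ˢ Finset.range (J + 1)) : Finset (ℕ × ℕ × ℕ)) : Set (ℕ × ℕ × ℕ)) := by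
    intro x hx
    obtain ⟨_, _, sx1, sx2⟩ := hM.pr x hx
    rw [Finset.mem_coe, Finset.mem_product, Finset.mem_product, Finset.mem_range, Finset.mem_range, Finset.mem_range]
    refine ⟨Nat.lt_succ_of_le ?_, Nat.lt_succ_of_le ?_, Nat.lt_succ_of_le ?_⟩
    · rw [hmdef]
      exact Nat.le_floor (ends_X hP hk h1 (hf x hx) sx1)
    · rw [hmdef]
      exact Nat.le_floor (ends_X hP hk h2 (hf' x hx) sx2)
    · rw [hJdef]
      apply Nat.floor_le_floor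
      apply div_le_div_of_nonneg_right _ (by positivity)
      have h3 := ll_le x.1
      have h4 : (ss x.1 : ℝ) ≤ R := by exact_mod_cast sx1
      have h5 : (0 : ℝ) ≤ R := Nat.cast_nonneg _
      linarith
  have hinj : Set.InjOn g S := by
    intro x hx y hy hxy
    simp only [g, Prod.mk.injEq] at hxy
    obtain ⟨e1, e2, e3⟩ := hxy
    have hwin : |ll x.1 - ll y.1| ≤ T ^ 380 := by
      have hp : (0 : ℝ) < T ^ 380 := by positivity
      have a1 := Nat.floor_le (div_nonneg (le_trans (by positivity) (ll_ge x.1)) hp.le : 0 ≤ ll x.1 / T ^ 380)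
      have a2 := Nat.lt_floor_add_one (ll x.1 / T ^ 380)
      have b1 := Nat.floor_le (div_nonneg (le_trans (by positivity) (ll_ge y.1)) hp.le : 0 ≤ ll y.1 / T ^ 380)
      have b2 := Nat.lt_floor_add_one (ll y.1 / T ^ 380)
      rw [e3] at a1 a2
      have c1 : ll x.1 / T ^ 380 - ll y.1 / T ^ 380 < 1 := by linarith
      have c2 : ll y.1 / T ^ 380 - ll x.1 / T ^ 380 < 1 := by linarith
      rw [← sub_div, div_lt_one hp] at c1 c2
      rw [abs_le]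
      constructor
      · linarith
      · linarith
    by_contra hne
    have bx := hf x hx
    have by' := hf y hy
    have bx' := hf' x hx
    have by'' := hf' y hy
    rw [← e1] at by'
    rw [← e2] at by''
    have mX : fX x ≤ m := by
      rw [hmdef]
      exact Nat.le_floor (ends_X hP hk h1 bx (hM.pr x hx).2.2.1)
    have mX' : fX' x ≤ m := by
      rw [hmdef]
      exact Nat.le_floor (ends_X hP hk h2 bx' (hM.pr x hx).2.2.2)
    rcases lt_trichotomy (fY x) (fY y) with hl | hl | hl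
    · exact ends_inj hP hM hk h1 h2 kP kH hx hy hm mX mX' bx by' bx' by'' hwin hl
    · rw [← hl] at by'
      exact hne (hM.i1 x hx y hy (bel_inj bx by'))
    · refine ends_inj hP hM hk h1 h2 kP kH hy hx hm mX mX' by' bx by'' bx' ?_ hl
      rw [abs_sub_comm]
      exact hwin
  have hcard := Set.ncard_le_ncard_of_injOn g hmaps hinj (Finset.finite_toSet _)
  rw [Set.ncard_coe_finset, Finset.card_product, Finset.card_product, Finset.card_range, Finset.card_range] at hcard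
  have hcard' : (S.ncard : ℝ) ≤ ((m : ℝ) + 1) * (((m : ℝ) + 1) * ((J : ℝ) + 1)) := by exact_mod_cast hcard
  have hR : (R : ℝ) = T ^ 1000 := hP.hT.symm
  have e3 : (R : ℝ) / T ^ 17 = T ^ 983 := by
    rw [hR, div_eq_iff (by positivity), ← pow_add]
  have e4 : 2 * (R : ℝ) / T ^ 380 = 2 * T ^ 620 := by
    rw [hR, div_eq_iff (by positivity), mul_assoc, ← pow_add]
  rw [e4] at hJ
  have q1 : (1 : ℝ) ≤ T ^ 170 := one_le_pow₀ hT1
  have q2 : (1 : ℝ) ≤ T ^ 620 := one_le_pow₀ hT1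
  have m4 : (m : ℝ) + 1 ≤ 4 * T ^ 170 := by linarith
  have j3 : (J : ℝ) + 1 ≤ 3 * T ^ 620 := by linarith
  have h8 : ((m : ℝ) + 1) * (((m : ℝ) + 1) * ((J : ℝ) + 1)) ≤ 4 * T ^ 170 * (4 * T ^ 170 * (3 * T ^ 620)) := by
    apply mul_le_mul m4 _ (by positivity) (by positivity)
    exact mul_le_mul m4 j3 (by positivity) (by positivity)
  have e5 : 4 * T ^ 170 * (4 * T ^ 170 * (3 * T ^ 620)) = 48 * T ^ 960 := by ring
  have e6 : T ^ 961 = T * T ^ 960 := by rw [← pow_succ']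
  have h9 : 48 * T ^ 960 ≤ T * T ^ 960 := mul_le_mul_of_nonneg_right (by linarith) (by positivity)
  have h10 : T ^ 961 ≤ T ^ 983 := pow_le_pow_right₀ hT1 (by norm_num)
  rw [e3]
  linarith

theorem ends {R : ℕ} {T : ℝ} {Dv : ℕ} (hP : Par R T Dv) {S : Set PP} (hM : Mtc R S) {k : ℝ} (hk : T ^ 830 ≤ k)
    {P H : List Bool} (h1 : Lf k P) (h2 : Lf k H) (hA : ∀ x ∈ S, P <:+ x.1) (hB : ∀ x ∈ S, H <:+ x.2) :
    (S.ncard : ℝ) ≤ R / T ^ 17 := by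
  by_cases cP : T ^ 190 ≤ kap P
  · have hfin : {q : List Bool | P <:+ q ∧ ss q ≤ R}.Finite := (fin_ss R).subset fun q hq => hq.2
    have h3 := mtc_fst hM hfin (fun x hx => ⟨hA x hx, (hM.pr x hx).2.2.1⟩)
    have h4 : (S.ncard : ℝ) ≤ (({q : List Bool | P <:+ q ∧ ss q ≤ R}.ncard : ℕ) : ℝ) := by exact_mod_cast h3
    exact h4.trans (ends_big hP hk h1 cP)
  by_cases cH : T ^ 190 ≤ kap H
  · have hfin : {q : List Bool | H <:+ q ∧ ss q ≤ R}.Finite := (fin_ss R).subset fun q hq => hq.2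
    have h3 := mtc_snd hM hfin (fun x hx => ⟨hB x hx, (hM.pr x hx).2.2.2⟩)
    have h4 : (S.ncard : ℝ) ≤ (({q : List Bool | H <:+ q ∧ ss q ≤ R}.ncard : ℕ) : ℝ) := by exact_mod_cast h3
    exact h4.trans (ends_big hP hk h2 cH)
  exact ends_small hP hM hk h1 h2 hA hB (not_le.1 cP) (not_le.1 cH)

end Pool.Agent.Lib.MP_94ab62_ntZ
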