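import Pool.Agent.Lib.MP_94ab62_ntZ.LvH
import Pool.Agent.Lib.MP_94ab62_ntZ.LvI
import Pool.Agent.Lib.MP_94ab62_ntZ.FiB
import Pool.Agent.Lib.MP_2a816b_nt.Divisor

/-!
# LvJ: parameters and theorem Z

* `par_exists`: `T = R^(1/1000)` (real power), `T^1000 = R` (`Real.rpow_natCast`, `Real.rpow_mul`); `10^10 (log R + 1)^10 ≤ R^(1/1000)` for large `R` (`isLittleO_log_rpow_atTop` or `Real.isLittleO_pow_log_id_atTop`-type;
  `log R + 1 ≤ 2 log R`, `(log R)^10 = o(R^(1/1000))`).  `Dv = ⌊T⌋₊`: `divisor_bound` (Lib/MP_2a816b_nt/Divisor.lean) with exponent `1/16000`: `d(n) ≤ C n^(1/16000) ≤ C R^(8/16000) = C R^(1/2000) ≤ R^(1/1000) - 1` for large `R`.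
* `tot_num`: `ℓ = log R + 1 ≥ 1`, `T ≥ 10^10 ℓ^10`.  `k0 ≤ 10^5 ℓ`, `Λ ≤ 17 ℓ`, `d = 18 k0² (16 Λ + 11) ≤ 10^14 ℓ^3`, `1 + log L ≤ ℓ` (`L ≤ T^830 + 1 ≤ R`), `B = R/T^15`, `B2 = R/T^17`:
  `18 k0² ≤ 10^12 ℓ² ≤ T^2`, `720 k0^4 B ≤ 10^23 ℓ^4 R/T^15 ≤ R/T^12`, `14 d B (32 d ℓ + 36 k0²) ≤ 10^31 ℓ^7 R/T^15 ≤ R/T^11`, `6 d L ≤ 10^15 ℓ^3 * 2 T^830 ≤ T^832`, `d² B2 ≤ 10^28 ℓ^6 R/T^17 ≤ R/T^14`; with
  `R = T^1000` the sum is at most `R/T`.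
* `total`: `levels` with `k0 = ⌈10^5 log R⌉₊`, `L = ⌈T^830⌉₊`, `Λ = ⌈17 log R⌉₊`, `d = 18 * k0^2 * (16 * Λ + 11)`; `dg_card` (`(R:ℝ)^100 = e^(100 log R) ≤ e^k0`, `3 Λ + 2 ≤ k0`); `TFh` from `hTF`
  (`B / kap P = R/(T^15 * kap P)`), `ENh` from `ends`.
* `thmZ`: `ZZ (1/1000) R0`: `Mtc` from the hypotheses (`Set.InjOn`), `R/T = R^(1 - 1/1000)`.
-/

set_option autoImplicit false

namespace Pool.Agent.Lib.MP_94ab62_ntZ

open Pool.Agent.Lib.MP_94ab62_nt Pool.Agent.Lib.MP_94ab62_ntU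

/-- the statement of the theorem `TF` -/
def TFst : Prop :=
  ∀ (R : ℕ) (T : ℝ) (Dv : ℕ), Par R T Dv → ∀ S : Set PP, Mtc R S → ∀ k : ℝ, 10 ^ 5 * Real.log R ≤ k → k ≤ T ^ 830 + 1 →
    ∀ P H : List Bool, Lf k P → Lf k H → ¬ Dg R k P → (∀ x ∈ S, P <:+ x.1) → (∀ x ∈ S, H <:+ x.2) →
      (S.ncard : ℝ) ≤ R / (T ^ 15 * kap P)

theorem par_exists : ∃ R0 : ℕ, ∀ R : ℕ, R0 ≤ R → ∃ Dv : ℕ, Par R ((R : ℝ) ^ ((1 : ℝ) / 1000)) Dv := by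
  obtain ⟨C, hC1, hC⟩ := Pool.Agent.Lib.MP_2a816b_nt.divisor_bound (1 / 16000) (by norm_num)
  have e1 : ∀ᶠ x : ℝ in Filter.atTop, ‖Real.log x‖ ≤ 1 / 20 * ‖x ^ ((1 : ℝ) / 10000)‖ :=
    (isLittleO_log_rpow_atTop (by norm_num : (0 : ℝ) < 1 / 10000)).def (by norm_num : (0 : ℝ) < 1 / 20)
  have e2 : ∀ᶠ x : ℝ in Filter.atTop, C ≤ x ^ ((1 : ℝ) / 2000) :=
    (tendsto_rpow_atTop (by norm_num : (0 : ℝ) < 1 / 2000)).eventually_ge_atTop C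
  have e3 : ∀ᶠ R : ℕ in Filter.atTop, 100 ≤ R ∧ ‖Real.log (R : ℝ)‖ ≤ 1 / 20 * ‖(R : ℝ) ^ ((1 : ℝ) / 10000)‖ ∧
      C ≤ (R : ℝ) ^ ((1 : ℝ) / 2000) :=
    (Filter.eventually_ge_atTop 100).and ((tendsto_natCast_atTop_atTop.eventually e1).and
      (tendsto_natCast_atTop_atTop.eventually e2))
  obtain ⟨R0, h0⟩ := Filter.eventually_atTop.1 e3
  refine ⟨R0, fun R hR => ?_⟩
  obtain ⟨h1, h2, h3⟩ := h0 R hR
  have hR0 : (0 : ℝ) < R := by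
    have : (100 : ℝ) ≤ R := by exact_mod_cast h1
    linarith
  have hR1 : (1 : ℝ) ≤ R := by
    have : (100 : ℝ) ≤ R := by exact_mod_cast h1
    linarith
  have hT0 : 0 < (R : ℝ) ^ ((1 : ℝ) / 1000) := Real.rpow_pos_of_pos hR0 _
  refine ⟨⌊(R : ℝ) ^ ((1 : ℝ) / 1000)⌋₊, ?_, ?_, ?_, ?_, ?_⟩
  · exact h1
  · rw [← Real.rpow_natCast, ← Real.rpow_mul hR0.le]
    norm_num
  · have hl1 : 1 ≤ Real.log (R : ℝ) := by
      rw [Real.le_log_iff_exp_le hR0]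
      have : (100 : ℝ) ≤ R := by exact_mod_cast h1
      linarith [Real.exp_one_lt_d9]
    have hp : 0 < (R : ℝ) ^ ((1 : ℝ) / 10000) := Real.rpow_pos_of_pos hR0 _
    rw [Real.norm_of_nonneg (by linarith), Real.norm_of_nonneg hp.le] at h2
    have h4 : (Real.log (R : ℝ) + 1) ≤ 1 / 10 * (R : ℝ) ^ ((1 : ℝ) / 10000) := by linarith
    have h5 : (Real.log (R : ℝ) + 1) ^ 10 ≤ (1 / 10 * (R : ℝ) ^ ((1 : ℝ) / 10000)) ^ 10 :=
      pow_le_pow_left₀ (by linarith) h4 10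
    have h6 : ((R : ℝ) ^ ((1 : ℝ) / 10000)) ^ 10 = (R : ℝ) ^ ((1 : ℝ) / 1000) := by
      rw [← Real.rpow_natCast, ← Real.rpow_mul hR0.le]
      norm_num
    rw [mul_pow, h6] at h5
    calc (10 : ℝ) ^ 10 * (Real.log (R : ℝ) + 1) ^ 10
        ≤ 10 ^ 10 * ((1 / 10) ^ 10 * (R : ℝ) ^ ((1 : ℝ) / 1000)) :=
          mul_le_mul_of_nonneg_left h5 (by positivity)
      _ = (R : ℝ) ^ ((1 : ℝ) / 1000) := by rw [← mul_assoc, ← mul_pow]; norm_num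
  · exact Nat.floor_le hT0.le
  · intro n hn1 hn2
    refine Nat.le_floor ?_
    have hn0 : (0 : ℝ) < n := by exact_mod_cast hn1
    have h4 : (n : ℝ) ≤ (R : ℝ) ^ 8 := by exact_mod_cast hn2
    have h5 : (n : ℝ) ^ ((1 : ℝ) / 16000) ≤ (R : ℝ) ^ ((1 : ℝ) / 2000) := by
      calc (n : ℝ) ^ ((1 : ℝ) / 16000) ≤ ((R : ℝ) ^ 8) ^ ((1 : ℝ) / 16000) :=
            Real.rpow_le_rpow hn0.le h4 (by norm_num)
        _ = (R : ℝ) ^ ((1 : ℝ) / 2000) := by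
          rw [← Real.rpow_natCast, ← Real.rpow_mul hR0.le]
          norm_num
    have h6 : (R : ℝ) ^ ((1 : ℝ) / 2000) * (R : ℝ) ^ ((1 : ℝ) / 2000) = (R : ℝ) ^ ((1 : ℝ) / 1000) := by
      rw [← Real.rpow_add hR0]
      norm_num
    calc (n.divisors.card : ℝ) ≤ C * (n : ℝ) ^ ((1 : ℝ) / 16000) := hC n hn1
      _ ≤ (R : ℝ) ^ ((1 : ℝ) / 2000) * (R : ℝ) ^ ((1 : ℝ) / 2000) :=
        mul_le_mul h3 h5 (Real.rpow_nonneg hn0.le _) (Real.rpow_nonneg hR0.le _)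
      _ = _ := h6

theorem tot_num {R : ℕ} {T : ℝ} {Dv k0 L Λ : ℕ} (hP : Par R T Dv) (h1 : (k0 : ℝ) ≤ 10 ^ 5 * Real.log R + 1)
    (h2 : (L : ℝ) ≤ T ^ 830 + 1) (h2' : 1 ≤ L) (h3 : (Λ : ℝ) ≤ 17 * Real.log R + 1) {d : ℕ} (hd : d = 18 * k0 ^ 2 * (16 * Λ + 11)) :
    18 * (k0 : ℝ) ^ 2 + 720 * (k0 : ℝ) ^ 4 * (R / T ^ 15) +
      14 * d * (R / T ^ 15) * (32 * d * (1 + Real.log L) + 36 * (k0 : ℝ) ^ 2) + 6 * d * L + (d : ℝ) ^ 2 * (R / T ^ 17) ≤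
      R / T := by
  obtain ⟨hR, hT, hl, -, -⟩ := hP
  have hR100 : (100 : ℝ) ≤ R := by exact_mod_cast hR
  have hlog0 : 0 ≤ Real.log (R : ℝ) := Real.log_nonneg (by linarith)
  set ℓ : ℝ := Real.log (R : ℝ) + 1 with hℓ
  have hℓ1 : 1 ≤ ℓ := by linarith
  have hℓ0 : 0 ≤ ℓ := by linarith
  have hℓ10 : 1 ≤ ℓ ^ 10 := one_le_pow₀ hℓ1
  have hT10 : 10 ^ 10 ≤ T := by
    calc (10 : ℝ) ^ 10 = 10 ^ 10 * 1 := by ring
      _ ≤ 10 ^ 10 * ℓ ^ 10 := mul_le_mul_of_nonneg_left hℓ10 (by positivity)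
      _ ≤ T := hl
  have hT1 : (1 : ℝ) ≤ T := by
    have : (1 : ℝ) ≤ 10 ^ 10 := by norm_num
    linarith
  have hT0 : 0 < T := by linarith
  have hpw : ∀ j : ℕ, j ≤ 10 → 10 ^ 10 * ℓ ^ j ≤ T := fun j hj => by
    have : ℓ ^ j ≤ ℓ ^ 10 := pow_le_pow_right₀ hℓ1 hj
    linarith [mul_le_mul_of_nonneg_left this (by positivity : (0 : ℝ) ≤ 10 ^ 10)]
  have hmono : ∀ i j : ℕ, i ≤ j → T ^ i ≤ T ^ j := fun i j hij => pow_le_pow_right₀ hT1 hij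
  have hk0n : (0 : ℝ) ≤ k0 := Nat.cast_nonneg _
  have hΛn : (0 : ℝ) ≤ Λ := Nat.cast_nonneg _
  have hLn : (0 : ℝ) ≤ L := Nat.cast_nonneg _
  have hdn : (0 : ℝ) ≤ d := Nat.cast_nonneg _
  have hk1 : (k0 : ℝ) ≤ 10 ^ 5 * ℓ := by rw [hℓ]; nlinarith
  have hk2 : (k0 : ℝ) ^ 2 ≤ 10 ^ 10 * ℓ ^ 2 := by
    calc (k0 : ℝ) ^ 2 ≤ (10 ^ 5 * ℓ) ^ 2 := pow_le_pow_left₀ hk0n hk1 2
      _ = 10 ^ 10 * ℓ ^ 2 := by ring
  have hk2T : (k0 : ℝ) ^ 2 ≤ T := hk2.trans (hpw 2 (by norm_num))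
  have hk4 : (k0 : ℝ) ^ 4 ≤ T ^ 2 := by
    calc (k0 : ℝ) ^ 4 = ((k0 : ℝ) ^ 2) ^ 2 := by ring
      _ ≤ T ^ 2 := pow_le_pow_left₀ (by positivity) hk2T 2
  have hΛ1 : 16 * (Λ : ℝ) + 11 ≤ 283 * ℓ := by rw [hℓ]; nlinarith
  have hdR : (d : ℝ) = 18 * (k0 : ℝ) ^ 2 * (16 * Λ + 11) := by rw [hd]; push_cast; ring
  have hd1 : (d : ℝ) ≤ T ^ 2 := by
    calc (d : ℝ) = 18 * (k0 : ℝ) ^ 2 * (16 * Λ + 11) := hdR
      _ ≤ 18 * (10 ^ 10 * ℓ ^ 2) * (283 * ℓ) := by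
        apply mul_le_mul _ hΛ1 (by positivity) (by positivity)
        linarith
      _ = 5094 * (10 ^ 10 * ℓ ^ 3) := by ring
      _ ≤ 5094 * T := mul_le_mul_of_nonneg_left (hpw 3 (by norm_num)) (by norm_num)
      _ ≤ T * T := mul_le_mul_of_nonneg_right (by norm_num at hT10 ⊢; linarith) hT0.le
      _ = T ^ 2 := by ring
  have hLT : (L : ℝ) ≤ 2 * T ^ 830 := by
    have : 1 ≤ T ^ 830 := one_le_pow₀ hT1
    linarith
  have hLR : (L : ℝ) ≤ R := by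
    calc (L : ℝ) ≤ 2 * T ^ 830 := hLT
      _ ≤ T * T ^ 830 := mul_le_mul_of_nonneg_right (by norm_num at hT10 ⊢; linarith) (by positivity)
      _ = T ^ 831 := by ring
      _ ≤ T ^ 1000 := hmono _ _ (by norm_num)
      _ = R := hT
  have hL1 : (1 : ℝ) ≤ L := by exact_mod_cast h2'
  have hlogL : 1 + Real.log L ≤ ℓ := by
    have := Real.log_le_log (by linarith : (0 : ℝ) < L) hLR
    rw [hℓ]; linarith
  have hlogL0 : 0 ≤ 1 + Real.log L := by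
    have := Real.log_nonneg hL1
    linarith
  have q15 : (R : ℝ) / T ^ 15 = T ^ 985 := by
    rw [div_eq_iff (by positivity), ← hT, ← pow_add]
  have q17 : (R : ℝ) / T ^ 17 = T ^ 983 := by
    rw [div_eq_iff (by positivity), ← hT, ← pow_add]
  have q1 : (R : ℝ) / T = T ^ 999 := by
    rw [div_eq_iff (by positivity), ← hT, ← pow_succ]
  rw [q15, q17, q1]
  have t1 : 18 * (k0 : ℝ) ^ 2 ≤ T ^ 992 := by
    calc 18 * (k0 : ℝ) ^ 2 ≤ 18 * T := mul_le_mul_of_nonneg_left hk2T (by norm_num)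
      _ ≤ T * T := mul_le_mul_of_nonneg_right (by norm_num at hT10 ⊢; linarith) hT0.le
      _ = T ^ 2 := by ring
      _ ≤ T ^ 992 := hmono _ _ (by norm_num)
  have t2 : 720 * (k0 : ℝ) ^ 4 * T ^ 985 ≤ T ^ 992 := by
    calc 720 * (k0 : ℝ) ^ 4 * T ^ 985 ≤ T * T ^ 2 * T ^ 985 := by
          apply mul_le_mul_of_nonneg_right _ (by positivity)
          apply mul_le_mul _ hk4 (by positivity) hT0.le
          norm_num at hT10 ⊢; linarith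
      _ = T ^ 988 := by ring
      _ ≤ T ^ 992 := hmono _ _ (by norm_num)
  have t3a : 32 * (d : ℝ) * (1 + Real.log L) + 36 * (k0 : ℝ) ^ 2 ≤ 2 * T ^ 3 := by
    have a1 : 32 * (d : ℝ) * (1 + Real.log L) ≤ T ^ 3 := by
      have hℓT : 32 * ℓ ≤ T := by
        have := hpw 1 (by norm_num)
        rw [pow_one] at this
        nlinarith
      calc 32 * (d : ℝ) * (1 + Real.log L) ≤ 32 * (d : ℝ) * ℓ :=
            mul_le_mul_of_nonneg_left hlogL (by positivity)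
        _ = d * (32 * ℓ) := by ring
        _ ≤ T ^ 2 * T := mul_le_mul hd1 hℓT (by positivity) (by positivity)
        _ = T ^ 3 := by ring
    have a2 : 36 * (k0 : ℝ) ^ 2 ≤ T ^ 3 := by
      calc 36 * (k0 : ℝ) ^ 2 ≤ 36 * T := mul_le_mul_of_nonneg_left hk2T (by norm_num)
        _ ≤ T * T := mul_le_mul_of_nonneg_right (by norm_num at hT10 ⊢; linarith) hT0.le
        _ = T ^ 2 := by ring
        _ ≤ T ^ 3 := hmono _ _ (by norm_num)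
    linarith
  have t3 : 14 * (d : ℝ) * T ^ 985 * (32 * d * (1 + Real.log L) + 36 * (k0 : ℝ) ^ 2) ≤ T ^ 992 := by
    calc 14 * (d : ℝ) * T ^ 985 * (32 * d * (1 + Real.log L) + 36 * (k0 : ℝ) ^ 2)
        ≤ 14 * (d : ℝ) * T ^ 985 * (2 * T ^ 3) := mul_le_mul_of_nonneg_left t3a (by positivity)
      _ ≤ 14 * T ^ 2 * T ^ 985 * (2 * T ^ 3) := by
        apply mul_le_mul_of_nonneg_right _ (by positivity)
        apply mul_le_mul_of_nonneg_right _ (by positivity)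
        exact mul_le_mul_of_nonneg_left hd1 (by norm_num)
      _ = 28 * T ^ 990 := by ring
      _ ≤ T * T ^ 990 := mul_le_mul_of_nonneg_right (by norm_num at hT10 ⊢; linarith) (by positivity)
      _ = T ^ 991 := by ring
      _ ≤ T ^ 992 := hmono _ _ (by norm_num)
  have t4 : 6 * (d : ℝ) * L ≤ T ^ 992 := by
    calc 6 * (d : ℝ) * L ≤ 6 * T ^ 2 * (2 * T ^ 830) :=
          mul_le_mul (mul_le_mul_of_nonneg_left hd1 (by norm_num)) hLT hLn (by positivity)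
      _ = 12 * T ^ 832 := by ring
      _ ≤ T * T ^ 832 := mul_le_mul_of_nonneg_right (by norm_num at hT10 ⊢; linarith) (by positivity)
      _ = T ^ 833 := by ring
      _ ≤ T ^ 992 := hmono _ _ (by norm_num)
  have t5 : (d : ℝ) ^ 2 * T ^ 983 ≤ T ^ 992 := by
    calc (d : ℝ) ^ 2 * T ^ 983 ≤ (T ^ 2) ^ 2 * T ^ 983 :=
          mul_le_mul_of_nonneg_right (pow_le_pow_left₀ hdn hd1 2) (by positivity)
      _ = T ^ 987 := by ring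
      _ ≤ T ^ 992 := hmono _ _ (by norm_num)
  have t6 : 5 * T ^ 992 ≤ T ^ 999 := by
    calc 5 * T ^ 992 ≤ T * T ^ 992 :=
          mul_le_mul_of_nonneg_right (by norm_num at hT10 ⊢; linarith) (by positivity)
      _ = T ^ 993 := by ring
      _ ≤ T ^ 999 := hmono _ _ (by norm_num)
  linarith

theorem total (hTF : TFst) {R : ℕ} {T : ℝ} {Dv : ℕ} (hP : Par R T Dv) {S : Set PP} (hM : Mtc R S) :
    (S.ncard : ℝ) ≤ R / T := by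
  have hR := hP.hR
  have hR100 : (100 : ℝ) ≤ R := by exact_mod_cast hR
  have hR0 : (0 : ℝ) < R := by linarith
  have hlog1 : 1 ≤ Real.log (R : ℝ) := by
    rw [Real.le_log_iff_exp_le hR0]
    linarith [Real.exp_one_lt_d9]
  have hlog0 : 0 ≤ Real.log (R : ℝ) := by linarith
  have hT10 : 10 ^ 10 * (Real.log R + 1) ≤ T := by
    refine le_trans ?_ hP.hl
    apply mul_le_mul_of_nonneg_left _ (by positivity)
    calc Real.log R + 1 = (Real.log R + 1) ^ 1 := by ring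
      _ ≤ (Real.log R + 1) ^ 10 := pow_le_pow_right₀ (by linarith) (by norm_num)
  have hT1 : (1 : ℝ) ≤ T := by nlinarith
  have hT0 : 0 < T := by linarith
  have hTT : T ≤ T ^ 830 := by
    calc T = T ^ 1 := by ring
      _ ≤ T ^ 830 := pow_le_pow_right₀ hT1 (by norm_num)
  have hk0R : 10 ^ 5 * Real.log R ≤ ((⌈10 ^ 5 * Real.log (R : ℝ)⌉₊ : ℕ) : ℝ) := Nat.le_ceil _
  have hk0R' : ((⌈10 ^ 5 * Real.log (R : ℝ)⌉₊ : ℕ) : ℝ) < 10 ^ 5 * Real.log R + 1 :=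
    Nat.ceil_lt_add_one (by positivity)
  have hLR : T ^ 830 ≤ ((⌈T ^ 830⌉₊ : ℕ) : ℝ) := Nat.le_ceil _
  have hLR' : ((⌈T ^ 830⌉₊ : ℕ) : ℝ) < T ^ 830 + 1 := Nat.ceil_lt_add_one (by positivity)
  have hΛR : 17 * Real.log R ≤ ((⌈17 * Real.log (R : ℝ)⌉₊ : ℕ) : ℝ) := Nat.le_ceil _
  have hΛR' : ((⌈17 * Real.log (R : ℝ)⌉₊ : ℕ) : ℝ) < 17 * Real.log R + 1 :=
    Nat.ceil_lt_add_one (by positivity)
  have hkL : ⌈10 ^ 5 * Real.log (R : ℝ)⌉₊ ≤ ⌈T ^ 830⌉₊ := by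
    apply Nat.ceil_le_ceil
    refine le_trans ?_ hTT
    nlinarith
  generalize ⌈10 ^ 5 * Real.log (R : ℝ)⌉₊ = k0 at hk0R hk0R' hkL
  generalize ⌈T ^ 830⌉₊ = L at hLR hLR' hkL
  generalize ⌈17 * Real.log (R : ℝ)⌉₊ = Λ at hΛR hΛR'
  have hk10 : 10 ≤ k0 := by
    have : (10 : ℝ) ≤ k0 := by linarith
    exact_mod_cast this
  have hΛk : 3 * Λ + 2 ≤ k0 := by
    have : 3 * (Λ : ℝ) + 2 ≤ k0 := by linarith
    exact_mod_cast this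
  have h0 : (R : ℝ) ^ 100 ≤ Real.exp (k0 : ℝ) := by
    calc (R : ℝ) ^ 100 = Real.exp (100 * Real.log R) := by
          rw [← Real.exp_log hR0, ← Real.exp_nat_mul, Real.log_exp]
          norm_num
      _ ≤ Real.exp (k0 : ℝ) := Real.exp_le_exp.2 (by linarith)
  have hd : ∀ k : ℕ, k0 ≤ k → (DL R k).ncard ≤ 18 * k0 ^ 2 * (16 * Λ + 11) :=
    fun k hk => dg_card hR h0 hk hΛR hΛk
  have hTFh : TFh R k0 L (R / T ^ 15) := by
    intro k P H S' hk hkL' h1 h2 h3 hM' hA hB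
    rw [div_div]
    have hk' : (k0 : ℝ) ≤ k := by exact_mod_cast hk
    have hkL'' : (k : ℝ) ≤ L := by exact_mod_cast hkL'
    exact hTF R T Dv hP S' hM' k (by linarith) (by linarith) P H h1 h2 h3 hA hB
  have hEN : ENh R L (R / T ^ 17) := by
    intro P H S' h1 h2 hM' hA hB
    exact ends hP hM' hLR h1 h2 hA hB
  have hL1 : 1 ≤ L := by omega
  refine le_trans (levels hR hk10 hkL (by positivity) (by positivity) hd hTFh hEN hM) ?_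
  exact tot_num hP hk0R'.le hLR'.le hL1 hΛR'.le rfl

theorem thmZ (hTF : TFst) : ∃ R0 : ℕ, ZZ (1 / 1000) R0 := by
  obtain ⟨R0, h0⟩ := par_exists
  refine ⟨R0, fun R hR S hS h1 h2 => ?_⟩
  obtain ⟨Dv, hP⟩ := h0 R hR
  have hR0 : (0 : ℝ) < R := by
    have : (100 : ℝ) ≤ R := by exact_mod_cast hP.hR
    linarith
  have hM : Mtc R S := ⟨hS, fun x hx y hy hxy => h1 hx hy hxy, fun x hx y hy hxy => h2 hx hy hxy⟩
  have := total hTF hP hM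
  rw [Real.rpow_sub hR0, Real.rpow_one]
  exact this

end Pool.Agent.Lib.MP_94ab62_ntZ
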