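import Pool.Agent.Lib.MP_94ab62_ntZ.RaC

/-!
# NtA: lower bounds for linear and bilinear forms in `x0 z`, `x0 z'`

`not_square`: `m² = 9z²-4`, `m ≥ 0`, `z ≥ 1`: `(3z-m)(3z+m) = 4`, `3z+m ≥ 3`, so `3z+m ∣ 4`, `3z + m = 4`, `3z - m = 1`, `6z = 5`: impossible.
`sq_irr`: `sq z = √(9z²-4)` is irrational (`irrational_sqrt_...`: e.g. `Nat.Prime`-free version: `irrational_nrt_of_notint_nrt` or
  `Int.not_isSquare_iff...`; `Irrational √n ↔ ¬ IsSquare n`: Mathlib `irrational_sqrt_natCast_iff`/`irrational_sqrt_intCast_iff`).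
`lin_sq`: integers `A, B` not both 0, `s = sq z`: `A² - B² s² = A² - B² (9z²-4)` is a nonzero integer (else `B ≠ 0` and
  `9z²-4 = (A/B)²` rational square, contradiction), so `1 ≤ |A + B s| |A - B s| ≤ |A + B s| (|A| + |B| s)`.
`irr_x0`: `x0 = 1/2 + 3z/(2s) = (s² + 3 z s)/(2 s²)`; norm: `(a + b x0)(a + b (1 - x0)) = a² + a b + b² x0 (1-x0)`,
  `x0(1-x0) = 1/4 - kz² = -1/(9z²-4)`.  `D (a²+ab) - b²` is a nonzero integer because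
  `4 (D(a²+ab) - b²) = D (2a+b)² - 9z² b²` would give `sq z = 3z|b|/|2a+b|` (or `a=b=0`).  `|a + b(1-x0)| ≤ |a| + |b|` as `|1-x0| = kz - 1/2 ≤ 1`.
`lio`: `θ = a + b x0 + c x0' + d x0 x0'`, `s = sq z, t = sq z'`, `D = 9z²-4`, `D' = 9z'²-4`, `x0 = (D + 3 z s)/(2D)`:
  `4 D D' θ = P(s,t) := A + B s + C t + E s t`,  `A = 4DD'a + 2DD'b + 2DD'c + DD'd`, `B = 6zD'b + 3zD'd`, `C = 6z'Dc + 3z'Dd`, `E = 9zz'd`.
  With `|a|,|b|,|c|,|d|,z,z' ≤ K`: `D, D' ≤ 9K²`, `s,t ≤ 3K`, all of `|A|, |B|s, |C|t, |E|st` are `≤ G := 729 K⁵`.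
  `N1 := P(s,t) P(s,-t) = (A + B s)² - D' (C + E s)² = A0 + B0 s` with integers `A0, B0`, and its conjugate
  `A0 - B0 s = P(-s,t) P(-s,-t)` has absolute value `≤ 16 G²`.  If `N1 ≠ 0`: `|N1| ≥ 1/(16G²)` (`|A0² - B0² D| ≥ 1`), so
  `|P(s,t)| ≥ 1/(64 G³)`.  If `N1 = 0` and `P(s,t) ≠ 0` then `P(s,-t) = 0`, `P(s,t) = 2t(C + E s) ≠ 0`, `|C + E s| ≥ 1/(|C| + |E| s) ≥ 1/(2G)`
  (t ≥ 1), so `|P(s,t)| ≥ 1/G`.  Finally `θ = P/(4DD')`, `4DD' ≤ 324K⁴`; `324 K⁴ · 64 · (729 K⁵)³ ≤ 10^13 K^19`.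
-/

set_option autoImplicit false

namespace Pool.Agent.Lib.MP_94ab62_ntZ

open Pool.Agent.Lib.MP_94ab62_nt Pool.Agent.Lib.MP_94ab62_ntU

theorem not_square {z : ℕ} (hz : 1 ≤ z) : ¬ ∃ m : ℤ, m ^ 2 = 9 * (z : ℤ) ^ 2 - 4 := by
  rintro ⟨m, hm⟩
  have hz1 : (1 : ℤ) ≤ z := by exact_mod_cast hz
  obtain ⟨k, hk⟩ : ∃ k : ℤ, k = |m| := ⟨_, rfl⟩
  have hk0 : 0 ≤ k := by
    rw [hk]
    exact abs_nonneg m
  have hk2 : k ^ 2 = 9 * (z : ℤ) ^ 2 - 4 := by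
    rw [hk, sq_abs]
    exact hm
  have h1 : k < 3 * z := by
    by_contra h
    have h2 : 3 * (z : ℤ) ≤ k := by omega
    nlinarith
  have h3 : 3 * (z : ℤ) - 1 < k := by
    by_contra h
    have h2 : k ≤ 3 * (z : ℤ) - 1 := by omega
    nlinarith
  omega

theorem sq_irr {z : ℕ} (hz : 1 ≤ z) : Irrational (sq z) := by
  have hz1 : (1 : ℤ) ≤ z := by exact_mod_cast hz
  have h0 : (0 : ℤ) ≤ 9 * (z : ℤ) ^ 2 - 4 := by nlinarith
  have h1 : sq z = Real.sqrt ((9 * (z : ℤ) ^ 2 - 4 : ℤ) : ℝ) := by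
    unfold sq
    push_cast
    rfl
  rw [h1, irrational_sqrt_intCast_iff_of_nonneg h0]
  rintro ⟨r, hr⟩
  exact not_square hz ⟨r, by rw [hr, pow_two]⟩

private theorem nta_sq {z : ℕ} (hz : 1 ≤ z) : sq z ^ 2 = ((9 * (z : ℤ) ^ 2 - 4 : ℤ) : ℝ) := by
  rw [sq_sq hz]
  push_cast
  ring

theorem kz_irr {z : ℕ} (hz : 1 ≤ z) : Irrational (kz z) := by
  have hD := nta_sq hz
  have hs := sq_pos hz
  have hz1 : (1 : ℚ) ≤ z := by exact_mod_cast hz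
  have hq : (3 * (z : ℚ) / (2 * (9 * (z : ℚ) ^ 2 - 4))) ≠ 0 := by
    have h2 : (0 : ℚ) < 9 * (z : ℚ) ^ 2 - 4 := by nlinarith
    positivity
  have h1 : kz z = ((3 * (z : ℚ) / (2 * (9 * (z : ℚ) ^ 2 - 4)) : ℚ) : ℝ) * sq z := by
    unfold kz
    push_cast
    rw [← sq_sq hz]
    field_simp
  rw [h1]
  exact (sq_irr hz).ratCast_mul hq

private theorem nta_zero {z : ℕ} (hz : 1 ≤ z) {A B : ℤ} (h : (A : ℝ) + B * sq z = 0) :
    A = 0 ∧ B = 0 := by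
  have hB : B = 0 := by
    by_contra hB
    have hBr : (B : ℝ) ≠ 0 := by exact_mod_cast hB
    refine sq_irr hz ⟨-(A : ℚ) / B, ?_⟩
    push_cast
    rw [div_eq_iff hBr]
    linarith
  subst hB
  refine ⟨?_, rfl⟩
  rw [Int.cast_zero, zero_mul, add_zero] at h
  exact_mod_cast h

private theorem nta_int {z : ℕ} (hz : 1 ≤ z) {A B : ℤ} (h : A ≠ 0 ∨ B ≠ 0) :
    1 ≤ |(A : ℝ) + B * sq z| * |(A : ℝ) - B * sq z| := by
  rw [← abs_mul]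
  have h1 : ((A : ℝ) + B * sq z) * ((A : ℝ) - B * sq z) =
      ((A ^ 2 - B ^ 2 * (9 * (z : ℤ) ^ 2 - 4) : ℤ) : ℝ) := by
    push_cast
    linear_combination (-(B : ℝ) ^ 2) * sq_sq hz
  have h2 : A ^ 2 - B ^ 2 * (9 * (z : ℤ) ^ 2 - 4) ≠ 0 := by
    intro h0
    rw [h0, Int.cast_zero] at h1
    rcases mul_eq_zero.1 h1 with h3 | h3
    · obtain ⟨h4, h5⟩ := nta_zero hz h3
      rcases h with h | h
      · exact h h4
      · exact h h5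
    · have h3' : (A : ℝ) + ((-B : ℤ) : ℝ) * sq z = 0 := by
        push_cast
        linarith
      obtain ⟨h4, h5⟩ := nta_zero hz h3'
      rcases h with h | h
      · exact h h4
      · exact h (by omega)
  rw [h1]
  have h3 := Int.one_le_abs h2
  exact_mod_cast h3

theorem lin_sq {z : ℕ} (hz : 1 ≤ z) {A B : ℤ} (h : A ≠ 0 ∨ B ≠ 0) :
    1 ≤ |(A : ℝ) + B * sq z| * (|(A : ℝ)| + |(B : ℝ)| * sq z) := by
  have hs := sq_pos hz
  refine (nta_int hz h).trans (mul_le_mul_of_nonneg_left ?_ (abs_nonneg _))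
  refine (abs_sub _ _).trans ?_
  rw [abs_mul, abs_of_pos hs]

theorem irr_x0 {z : ℕ} (hz : 1 ≤ z) {a b : ℤ} (h : a ≠ 0 ∨ b ≠ 0) :
    1 ≤ (9 * (z : ℝ) ^ 2 - 4) * (|(a : ℝ)| + |(b : ℝ)|) * |(a : ℝ) + b * x0 z| := by
  have hs := sq_pos hz
  have hs2 := sq_sq hz
  have hz1 : (1 : ℝ) ≤ z := by exact_mod_cast hz
  have hD : 0 < 9 * (z : ℝ) ^ 2 - 4 := by nlinarith
  -- the integer
  have hN : (9 * (z : ℤ) ^ 2 - 4) * (a ^ 2 + a * b) - b ^ 2 ≠ 0 := by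
    intro h0
    have h1 : (9 * (z : ℝ) ^ 2 - 4) * ((a : ℝ) ^ 2 + a * b) - (b : ℝ) ^ 2 = 0 := by
      exact_mod_cast h0
    have h2 : (((3 * z * b : ℤ) : ℝ) + ((2 * a + b : ℤ) : ℝ) * sq z) *
        (((3 * z * b : ℤ) : ℝ) + ((-(2 * a + b) : ℤ) : ℝ) * sq z) = 0 := by
      push_cast
      linear_combination (-4) * h1 - (2 * (a : ℝ) + b) ^ 2 * hs2
    have h3 : (3 * (z : ℤ) * b = 0 ∧ 2 * a + b = 0) := by
      rcases mul_eq_zero.1 h2 with h4 | h4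
      · exact nta_zero hz h4
      · obtain ⟨h5, h6⟩ := nta_zero hz h4
        exact ⟨h5, by omega⟩
    have hz0 : (3 * (z : ℤ)) ≠ 0 := by omega
    have hb : b = 0 := (mul_eq_zero.1 h3.1).resolve_left hz0
    rcases h with h | h
    · exact h (by omega)
    · exact h hb
  have hN1 : (1 : ℝ) ≤ |(9 * (z : ℝ) ^ 2 - 4) * ((a : ℝ) ^ 2 + a * b) - (b : ℝ) ^ 2| := by
    have h1 := Int.one_le_abs hN
    exact_mod_cast h1
  have hx : x0 z * (1 - x0 z) * (9 * (z : ℝ) ^ 2 - 4) = -1 := by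
    unfold x0 kz
    rw [← hs2]
    field_simp
    linear_combination hs2
  have hfac : (9 * (z : ℝ) ^ 2 - 4) * ((a : ℝ) ^ 2 + a * b) - (b : ℝ) ^ 2 =
      (9 * (z : ℝ) ^ 2 - 4) * ((a : ℝ) + b * x0 z) * ((a : ℝ) + b * (1 - x0 z)) := by
    linear_combination (-(b : ℝ) ^ 2) * hx
  have hk0 : 0 ≤ kz z := by
    unfold kz
    positivity
  have hk1 : kz z ≤ 3 / 2 := by
    unfold kz
    rw [div_le_div_iff₀ (by positivity) (by norm_num)]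
    nlinarith
  have h1x : |1 - x0 z| ≤ 1 := by
    rw [abs_le]
    unfold x0
    constructor <;> linarith
  have h2 : |(a : ℝ) + b * (1 - x0 z)| ≤ |(a : ℝ)| + |(b : ℝ)| := by
    refine (abs_add_le _ _).trans ?_
    rw [abs_mul]
    have := mul_le_mul_of_nonneg_left h1x (abs_nonneg (b : ℝ))
    linarith
  rw [hfac, abs_mul, abs_mul, abs_of_pos hD] at hN1
  have h3 : 0 ≤ (9 * (z : ℝ) ^ 2 - 4) * |(a : ℝ) + b * x0 z| := by positivity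
  have h4 := mul_le_mul_of_nonneg_left h2 h3
  linarith

private theorem nta_DD {K D D' : ℝ} (hD' : 0 ≤ D') (hDK : D ≤ 9 * K ^ 2)
    (hDK' : D' ≤ 9 * K ^ 2) : D * D' ≤ 81 * K ^ 4 := by
  calc D * D' ≤ (9 * K ^ 2) * (9 * K ^ 2) :=
        mul_le_mul hDK hDK' hD' (by positivity)
    _ = 81 * K ^ 4 := by ring

private theorem nta_bA {K D D' a b c d : ℝ} (hK0 : 0 ≤ K) (hD0 : 0 ≤ D) (hD0' : 0 ≤ D')
    (hDD : D * D' ≤ 81 * K ^ 4) (ha : |a| ≤ K) (hb : |b| ≤ K) (hc : |c| ≤ K) (hd : |d| ≤ K) :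
    |D * D' * (4 * a + 2 * b + 2 * c + d)| ≤ 729 * K ^ 5 := by
  obtain ⟨a1, a2⟩ := abs_le.1 ha
  obtain ⟨b1, b2⟩ := abs_le.1 hb
  obtain ⟨c1, c2⟩ := abs_le.1 hc
  obtain ⟨d1, d2⟩ := abs_le.1 hd
  have h1 : |4 * a + 2 * b + 2 * c + d| ≤ 9 * K :=
    abs_le.2 ⟨by linarith, by linarith⟩
  rw [abs_mul, abs_of_nonneg (mul_nonneg hD0 hD0')]
  calc D * D' * |4 * a + 2 * b + 2 * c + d| ≤ (81 * K ^ 4) * (9 * K) :=
        mul_le_mul hDD h1 (abs_nonneg _) (by positivity)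
    _ = 729 * K ^ 5 := by ring

private theorem nta_bB {K z D s b d : ℝ} (hK1 : 1 ≤ K) (hz0 : 0 ≤ z) (hzK : z ≤ K)
    (hD0 : 0 ≤ D) (hDK : D ≤ 9 * K ^ 2) (hs0 : 0 ≤ s) (hsK : s ≤ 3 * K) (hb : |b| ≤ K)
    (hd : |d| ≤ K) : |3 * z * D * (2 * b + d)| * s ≤ 729 * K ^ 5 := by
  have hK0 : 0 ≤ K := by linarith
  obtain ⟨b1, b2⟩ := abs_le.1 hb
  obtain ⟨d1, d2⟩ := abs_le.1 hd
  have h1 : |2 * b + d| ≤ 3 * K := abs_le.2 ⟨by linarith, by linarith⟩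
  have h2 : 3 * z * D ≤ (3 * K) * (9 * K ^ 2) :=
    mul_le_mul (by linarith) hDK hD0 (by positivity)
  have h3 : K ^ 5 = K * K ^ 4 := by ring
  have h4 : 1 * K ^ 4 ≤ K * K ^ 4 := mul_le_mul_of_nonneg_right hK1 (by positivity)
  have h5 : 0 ≤ K ^ 4 := by positivity
  rw [abs_mul, abs_of_nonneg (by positivity : 0 ≤ 3 * z * D)]
  calc 3 * z * D * |2 * b + d| * s ≤ ((3 * K) * (9 * K ^ 2)) * (3 * K) * (3 * K) :=
        mul_le_mul (mul_le_mul h2 h1 (abs_nonneg _) (by positivity)) hsK hs0 (by positivity)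
    _ = 243 * K ^ 5 := by ring
    _ ≤ 729 * K ^ 5 := by
        rw [h3]
        linarith

private theorem nta_bE {K z z' s t d : ℝ} (hK1 : 1 ≤ K) (hz0 : 0 ≤ z) (hz0' : 0 ≤ z')
    (hzK : z ≤ K) (hzK' : z' ≤ K) (hs0 : 0 ≤ s) (ht0 : 0 ≤ t) (hsK : s ≤ 3 * K)
    (htK : t ≤ 3 * K) (hd : |d| ≤ K) : |9 * z * z' * d| * (s * t) ≤ 729 * K ^ 5 := by
  have hK0 : 0 ≤ K := by linarith
  have h2 : 9 * z * z' ≤ (9 * K) * K :=
    mul_le_mul (by linarith) hzK' hz0' (by positivity)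
  have h3 : 0 ≤ K ^ 5 := by positivity
  rw [abs_mul, abs_of_nonneg (by positivity : 0 ≤ 9 * z * z')]
  calc 9 * z * z' * |d| * (s * t) ≤ ((9 * K) * K) * K * ((3 * K) * (3 * K)) :=
        mul_le_mul (mul_le_mul h2 hd (abs_nonneg _) (by positivity))
          (mul_le_mul hsK htK ht0 (by positivity)) (by positivity) (by positivity)
    _ = 81 * K ^ 5 := by ring
    _ ≤ 729 * K ^ 5 := by linarith

private theorem nta_key {z : ℕ} (hz : 1 ≤ z) {s t G P : ℝ} {D D' : ℤ} (hs0 : 0 < s)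
    (ht0 : 0 < t) (ht1 : 1 ≤ t) (hsd : s = sq z) (hsD : s ^ 2 = D) (htD : t ^ 2 = D')
    (A B C E : ℤ) (hG1 : 1 ≤ G) (bA : |(A : ℝ)| ≤ G) (bB : |(B : ℝ)| * s ≤ G)
    (bC : |(C : ℝ)| * t ≤ G) (bE : |(E : ℝ)| * (s * t) ≤ G)
    (hP : P = A + B * s + C * t + E * (s * t)) (hP0 : P ≠ 0) : 1 ≤ 64 * G ^ 3 * |P| := by
  have hst : 0 < s * t := mul_pos hs0 ht0
  have cB : |(B : ℝ) * s| ≤ G := by rw [abs_mul, abs_of_pos hs0]; exact bB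
  have cC : |(C : ℝ) * t| ≤ G := by rw [abs_mul, abs_of_pos ht0]; exact bC
  have cE : |(E : ℝ) * (s * t)| ≤ G := by rw [abs_mul, abs_of_pos hst]; exact bE
  obtain ⟨a1, a2⟩ := abs_le.1 bA
  obtain ⟨b1, b2⟩ := abs_le.1 cB
  obtain ⟨c1, c2⟩ := abs_le.1 cC
  obtain ⟨e1, e2⟩ := abs_le.1 cE
  obtain ⟨P2, hP2⟩ : ∃ P2 : ℝ, P2 = A + B * s - C * t - E * (s * t) := ⟨_, rfl⟩
  obtain ⟨P3, hP3⟩ : ∃ P3 : ℝ, P3 = A - B * s + C * t - E * (s * t) := ⟨_, rfl⟩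
  obtain ⟨P4, hP4⟩ : ∃ P4 : ℝ, P4 = A - B * s - C * t + E * (s * t) := ⟨_, rfl⟩
  have h2 : |P2| ≤ 4 * G := by
    rw [hP2, abs_le]
    constructor <;> linarith
  have h3 : |P3| ≤ 4 * G := by
    rw [hP3, abs_le]
    constructor <;> linarith
  have h4 : |P4| ≤ 4 * G := by
    rw [hP4, abs_le]
    constructor <;> linarith
  have hPn := abs_nonneg P
  by_cases hz2 : P2 = 0
  · -- the second case
    have hPe : P = 2 * t * (C + E * s) := by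
      rw [hP]
      rw [hP2] at hz2
      linear_combination hz2
    have hCE : C ≠ 0 ∨ E ≠ 0 := by
      by_contra hcon
      push Not at hcon
      apply hP0
      rw [hPe, hcon.1, hcon.2]
      push_cast
      ring
    have h5 := lin_sq hz hCE
    rw [← hsd] at h5
    have h6 : |(C : ℝ)| + |(E : ℝ)| * s ≤ 2 * G := by
      have h7 : |(C : ℝ)| * 1 ≤ |(C : ℝ)| * t := mul_le_mul_of_nonneg_left ht1 (abs_nonneg _)
      have h8 : |(E : ℝ)| * s * 1 ≤ |(E : ℝ)| * s * t :=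
        mul_le_mul_of_nonneg_left ht1 (mul_nonneg (abs_nonneg _) hs0.le)
      have h9 : |(E : ℝ)| * s * t = |(E : ℝ)| * (s * t) := by ring
      linarith
    have h7 : |(C : ℝ) + E * s| * (|(C : ℝ)| + |(E : ℝ)| * s) ≤ |(C : ℝ) + E * s| * (2 * G) :=
      mul_le_mul_of_nonneg_left h6 (abs_nonneg _)
    have h8 : 2 * |(C : ℝ) + E * s| ≤ |P| := by
      rw [hPe, abs_mul, abs_of_pos (by positivity : (0 : ℝ) < 2 * t)]
      exact mul_le_mul_of_nonneg_right (by linarith) (abs_nonneg _)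
    have h9 : 1 ≤ G * |P| := by nlinarith
    have h10 : G ≤ G ^ 3 := by nlinarith [pow_nonneg (by linarith : (0 : ℝ) ≤ G) 2]
    have h11 : G * |P| ≤ G ^ 3 * |P| := mul_le_mul_of_nonneg_right h10 hPn
    have h12 : 0 ≤ G ^ 3 * |P| := by positivity
    linarith
  · -- the first case
    obtain ⟨A0, hA0⟩ : ∃ A0 : ℤ, A0 = A ^ 2 + B ^ 2 * D - D' * (C ^ 2 + E ^ 2 * D) := ⟨_, rfl⟩
    obtain ⟨B0, hB0⟩ : ∃ B0 : ℤ, B0 = 2 * A * B - 2 * D' * C * E := ⟨_, rfl⟩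
    have hA0r : (A0 : ℝ) = A ^ 2 + B ^ 2 * D - D' * (C ^ 2 + E ^ 2 * D) := by
      rw [hA0]
      push_cast
      ring
    have hB0r : (B0 : ℝ) = 2 * A * B - 2 * D' * C * E := by
      rw [hB0]
      push_cast
      ring
    have n1 : P * P2 = A0 + B0 * sq z := by
      rw [hP, hP2, hA0r, hB0r, ← hsd, ← hsD, ← htD]
      ring
    have n2 : P3 * P4 = A0 - B0 * sq z := by
      rw [hP3, hP4, hA0r, hB0r, ← hsd, ← hsD, ← htD]
      ring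
    have hne : A0 ≠ 0 ∨ B0 ≠ 0 := by
      by_contra hcon
      push Not at hcon
      rw [hcon.1, hcon.2] at n1
      push_cast at n1
      rw [zero_mul, add_zero] at n1
      rcases mul_eq_zero.1 n1 with h | h
      · exact hP0 h
      · exact hz2 h
    have h5 := nta_int hz hne
    rw [← n1, ← n2, abs_mul, abs_mul] at h5
    have h6 : |P2| * (|P3| * |P4|) ≤ (4 * G) * ((4 * G) * (4 * G)) :=
      mul_le_mul h2 (mul_le_mul h3 h4 (abs_nonneg _) (by positivity))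
        (mul_nonneg (abs_nonneg _) (abs_nonneg _)) (by positivity)
    have h7 := mul_le_mul_of_nonneg_left h6 hPn
    calc (1 : ℝ) ≤ |P| * |P2| * (|P3| * |P4|) := h5
      _ = |P| * (|P2| * (|P3| * |P4|)) := by ring
      _ ≤ |P| * ((4 * G) * ((4 * G) * (4 * G))) := h7
      _ = 64 * G ^ 3 * |P| := by ring

theorem lio {z z' : ℕ} (hz : 1 ≤ z) (hz' : 1 ≤ z') {a b c d : ℤ} {K : ℝ} (hzK : (z : ℝ) ≤ K) (hzK' : (z' : ℝ) ≤ K)
    (ha : |(a : ℝ)| ≤ K) (hb : |(b : ℝ)| ≤ K) (hc : |(c : ℝ)| ≤ K) (hd : |(d : ℝ)| ≤ K) :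
    (a : ℝ) + b * x0 z + c * x0 z' + d * (x0 z * x0 z') = 0 ∨
      1 ≤ 10 ^ 13 * K ^ 19 * |(a : ℝ) + b * x0 z + c * x0 z' + d * (x0 z * x0 z')| := by
  obtain ⟨θ, hθ⟩ : ∃ θ : ℝ, θ = (a : ℝ) + b * x0 z + c * x0 z' + d * (x0 z * x0 z') := ⟨_, rfl⟩
  rw [← hθ]
  by_cases hθ0 : θ = 0
  · exact Or.inl hθ0
  right
  have hs := sq_pos hz
  have ht := sq_pos hz'
  have hs2 := sq_sq hz
  have ht2 := sq_sq hz'
  have hz1 : (1 : ℝ) ≤ z := by exact_mod_cast hz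
  have hz1' : (1 : ℝ) ≤ z' := by exact_mod_cast hz'
  have hK1 : 1 ≤ K := hz1.trans hzK
  obtain ⟨D, hD⟩ : ∃ D : ℤ, D = 9 * (z : ℤ) ^ 2 - 4 := ⟨_, rfl⟩
  obtain ⟨D', hD'⟩ : ∃ D' : ℤ, D' = 9 * (z' : ℤ) ^ 2 - 4 := ⟨_, rfl⟩
  obtain ⟨s, hsd⟩ : ∃ s : ℝ, s = sq z := ⟨_, rfl⟩
  obtain ⟨t, htd⟩ : ∃ t : ℝ, t = sq z' := ⟨_, rfl⟩
  have hDr : (D : ℝ) = 9 * (z : ℝ) ^ 2 - 4 := by
    rw [hD]
    push_cast
    ring
  have hDr' : (D' : ℝ) = 9 * (z' : ℝ) ^ 2 - 4 := by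
    rw [hD']
    push_cast
    ring
  have hsD : s ^ 2 = D := by rw [hsd, hs2, hDr]
  have htD : t ^ 2 = D' := by rw [htd, ht2, hDr']
  have hs0 : 0 < s := by rw [hsd]; exact hs
  have ht0 : 0 < t := by rw [htd]; exact ht
  have hD0 : (0 : ℝ) < D := by rw [← hsD]; positivity
  have hD0' : (0 : ℝ) < D' := by rw [← htD]; positivity
  have hDK : (D : ℝ) ≤ 9 * K ^ 2 := by rw [hDr]; nlinarith
  have hDK' : (D' : ℝ) ≤ 9 * K ^ 2 := by rw [hDr']; nlinarith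
  have hsK : s ≤ 3 * K := by
    refine (sq_le_sq₀ hs0.le (by positivity)).1 ?_
    rw [hsD]
    linarith
  have htK : t ≤ 3 * K := by
    refine (sq_le_sq₀ ht0.le (by positivity)).1 ?_
    rw [htD]
    linarith
  have ht1 : 1 ≤ t := by
    refine (sq_le_sq₀ zero_le_one ht0.le).1 ?_
    rw [htD, hDr']
    nlinarith
  -- the form
  have hx : 2 * (D : ℝ) * x0 z = D + 3 * z * s := by
    unfold x0 kz
    rw [← hsd, ← hsD]
    field_simp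
  have hx' : 2 * (D' : ℝ) * x0 z' = D' + 3 * z' * t := by
    unfold x0 kz
    rw [← htd, ← htD]
    field_simp
  obtain ⟨A, hA⟩ : ∃ A : ℤ, A = D * D' * (4 * a + 2 * b + 2 * c + d) := ⟨_, rfl⟩
  obtain ⟨B, hB⟩ : ∃ B : ℤ, B = 3 * z * D' * (2 * b + d) := ⟨_, rfl⟩
  obtain ⟨C, hC⟩ : ∃ C : ℤ, C = 3 * z' * D * (2 * c + d) := ⟨_, rfl⟩
  obtain ⟨E, hE⟩ : ∃ E : ℤ, E = 9 * z * z' * d := ⟨_, rfl⟩
  have hAr : (A : ℝ) = D * D' * (4 * a + 2 * b + 2 * c + d) := by rw [hA]; push_cast; ring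
  have hBr : (B : ℝ) = 3 * z * D' * (2 * b + d) := by rw [hB]; push_cast; ring
  have hCr : (C : ℝ) = 3 * z' * D * (2 * c + d) := by rw [hC]; push_cast; ring
  have hEr : (E : ℝ) = 9 * z * z' * d := by rw [hE]; push_cast; ring
  obtain ⟨P, hP⟩ : ∃ P : ℝ, P = A + B * s + C * t + E * (s * t) := ⟨_, rfl⟩
  have hPθ : 4 * (D : ℝ) * D' * θ = P := by
    rw [hP, hθ, hAr, hBr, hCr, hEr]
    linear_combination (2 * (D' : ℝ) * b + 2 * (D' : ℝ) * x0 z' * d) * hx +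
      (2 * (D : ℝ) * c + ((D : ℝ) + 3 * z * s) * d) * hx'
  have hP0 : P ≠ 0 := by
    rw [← hPθ]
    positivity
  -- the bounds
  obtain ⟨G, hG⟩ : ∃ G : ℝ, G = 729 * K ^ 5 := ⟨_, rfl⟩
  have hG1 : 1 ≤ G := by
    rw [hG]
    have := one_le_pow₀ hK1 (n := 5)
    linarith
  have hz0 : (0 : ℝ) ≤ z := by linarith
  have hz0' : (0 : ℝ) ≤ z' := by linarith
  have hDD : (D : ℝ) * D' ≤ 81 * K ^ 4 := nta_DD hD0'.le hDK hDK'
  have bA : |(A : ℝ)| ≤ G := by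
    rw [hAr, hG]
    exact nta_bA (by linarith) hD0.le hD0'.le hDD ha hb hc hd
  have bB : |(B : ℝ)| * s ≤ G := by
    rw [hBr, hG]
    exact nta_bB hK1 hz0 hzK hD0'.le hDK' hs0.le hsK hb hd
  have bC : |(C : ℝ)| * t ≤ G := by
    rw [hCr, hG]
    exact nta_bB hK1 hz0' hzK' hD0.le hDK ht0.le htK hc hd
  have bE : |(E : ℝ)| * (s * t) ≤ G := by
    rw [hEr, hG]
    exact nta_bE hK1 hz0 hz0' hzK hzK' hs0.le ht0.le hsK htK hd
  have key : 1 ≤ 64 * G ^ 3 * |P| :=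
    nta_key hz hs0 ht0 ht1 hsd hsD htD A B C E hG1 bA bB bC bE hP hP0
  have hfin : |P| ≤ 324 * K ^ 4 * |θ| := by
    rw [← hPθ, abs_mul, abs_of_pos (by positivity : (0 : ℝ) < 4 * D * D')]
    refine mul_le_mul_of_nonneg_right ?_ (abs_nonneg _)
    linarith
  have hθ1 := abs_nonneg θ
  calc (1 : ℝ) ≤ 64 * G ^ 3 * |P| := key
    _ ≤ 64 * G ^ 3 * (324 * K ^ 4 * |θ|) :=
        mul_le_mul_of_nonneg_left hfin (by positivity)
    _ = (64 * 729 ^ 3 * 324) * (K ^ 19 * |θ|) := by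
        rw [hG]
        ring
    _ ≤ 10 ^ 13 * (K ^ 19 * |θ|) :=
        mul_le_mul_of_nonneg_right (by norm_num) (by positivity)
    _ = 10 ^ 13 * K ^ 19 * |θ| := by ring

end Pool.Agent.Lib.MP_94ab62_ntZ
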