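import Pool.Agent.Lib.MP_94ab62_ntZ.RaD

/-!
# NtC: `x ↦ x coth x` and the gap between different lengths

`2 kz z = coth (F z) = cosh (F z)/sinh (F z)` (`cosh_F`: cosh (F z) = 3z/2; `sinh_F`; `sq z = 2 sinh (F z)`).
`φ(x) = x cosh x / sinh x` has `φ'(x) = (sinh x cosh x - x)/sinh² x ≥ 1/4` for `x ≥ 24/25`: put `c = cosh x`, `s = sinh x`;
 `s c - x ≥ s²/4`  ⟸  `x ≤ s (c - s/4)`; `c - s/4 = (3 e^x + 5 e^{-x})/8 ≥ 0.96` (with `a = e^x`: `3a² - 7.68 a + 5 ≥ 0`, discriminant `< 0`) and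
 `s ≥ x + x³/6 ≥ 1.15 x` for `x ≥ 24/25`; `0.96 * 1.15 ≥ 1`.
`phi_mono`: mean value inequality (`Convex.mul_sub_le_image_sub_of_le_deriv`) or `monotoneOn_of_deriv_nonneg` for `φ(x) - x/4` on `[24/25, ∞)`.
`kz_F`: `F z * kz z = φ(F z)/2`.
`coth_eq`: from `phi_mono`, equality gives `F z = F z'`, so `z = z'` (`F_lt`).
`coth_near`: `|F z - F z'|/8 ≤ |F z kz z - F z' kz z'|`.
`F_gap`: `z < z'`: `F z' - F z ≥ 1/z'`: `cosh (F z') - cosh (F z) = 3(z'-z)/2 ≥ 3/2` and `cosh b - cosh a ≤ (b - a) sinh b`, `sinh (F z') ≤ cosh (F z') = 3z'/2`.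
-/

set_option autoImplicit false

namespace Pool.Agent.Lib.MP_94ab62_ntZ

open Pool.Agent.Lib.MP_94ab62_nt Pool.Agent.Lib.MP_94ab62_ntU

private theorem ntc_der {u : ℝ} (hu : 24 / 25 ≤ u) :
    1 / 4 ≤ ((1 * Real.cosh u + u * Real.sinh u) * Real.sinh u -
      u * Real.cosh u * Real.cosh u) / Real.sinh u ^ 2 := by
  have hs : 0 < Real.sinh u := Real.sinh_pos_iff.2 (by linarith)
  have hcs := Real.cosh_sq u
  rw [div_le_div_iff₀ (by norm_num) (by positivity), one_mul, one_mul]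
  -- exponential of `2 u`
  have hw : 1 + (2 * u) + (2 * u) ^ 2 / 2 + (2 * u) ^ 3 / 6 ≤ Real.exp (2 * u) := by
    have h1 := Real.sum_le_exp_of_nonneg (by linarith : 0 ≤ 2 * u) 4
    simp [Finset.sum_range_succ, Nat.factorial] at h1
    linarith
  obtain ⟨w, hwd⟩ : ∃ w : ℝ, w = Real.exp (2 * u) := ⟨_, rfl⟩
  rw [← hwd] at hw
  have hw4 : 4 ≤ w := by nlinarith
  have hwi : 1 / w ≤ 1 / 4 := one_div_le_one_div_of_le (by norm_num) hw4
  have hsc : Real.sinh u * Real.cosh u = (w - 1 / w) / 4 := by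
    rw [hwd, two_mul, Real.exp_add, Real.sinh_eq, Real.cosh_eq, Real.exp_neg]
    have := Real.exp_pos u
    field_simp
    ring
  have hss : Real.sinh u ^ 2 = (w - 2 + 1 / w) / 4 := by
    rw [hwd, two_mul, Real.exp_add, Real.sinh_eq, Real.exp_neg]
    have := Real.exp_pos u
    field_simp
    ring
  have hmain : Real.sinh u ^ 2 ≤ 4 * (Real.sinh u * Real.cosh u - u) := by
    rw [hsc, hss]
    have hpoly : 0 ≤ 6 * u ^ 2 + 4 * u ^ 3 + 15 / 4 - 10 * u := by
      nlinarith [mul_nonneg (by linarith : (0 : ℝ) ≤ u - 24 / 25) (sq_nonneg u)]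
    nlinarith
  have hid : (Real.cosh u + u * Real.sinh u) * Real.sinh u - u * Real.cosh u * Real.cosh u =
      Real.sinh u * Real.cosh u - u := by
    linear_combination (-u) * hcs
  rw [hid]
  linarith

theorem kz_coth {z : ℕ} (hz : 1 ≤ z) : kz z = Real.cosh (F z) / (2 * Real.sinh (F z)) := by
  have h1 := cosh_F hz
  have h2 : 2 * Real.sinh (F z) = sq z := by
    rw [← lam_sub hz, Real.sinh_eq, lam, Real.exp_neg]
    ring
  unfold kz
  rw [h1, h2]
  field_simp

theorem phi_mono {x y : ℝ} (hx : 24 / 25 ≤ x) (hxy : x ≤ y) :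
    (y - x) / 4 ≤ y * Real.cosh y / Real.sinh y - x * Real.cosh x / Real.sinh x := by
  have hpos : ∀ u ∈ Set.Ici (24 / 25 : ℝ), 0 < Real.sinh u := by
    intro u hu
    have hu' : (24 / 25 : ℝ) ≤ u := hu
    exact Real.sinh_pos_iff.2 (by linarith)
  have hder : ∀ u ∈ Set.Ici (24 / 25 : ℝ),
      HasDerivAt (fun u : ℝ => u * Real.cosh u / Real.sinh u)
        (((1 * Real.cosh u + u * Real.sinh u) * Real.sinh u - u * Real.cosh u * Real.cosh u) /
          Real.sinh u ^ 2) u := by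
    intro u hu
    exact ((hasDerivAt_id u).mul (Real.hasDerivAt_cosh u)).div (Real.hasDerivAt_sinh u)
      (hpos u hu).ne'
  have h := Convex.mul_sub_le_image_sub_of_le_deriv (convex_Ici (24 / 25 : ℝ))
    (f := fun u : ℝ => u * Real.cosh u / Real.sinh u) (C := 1 / 4)
    (fun u hu => (hder u hu).continuousAt.continuousWithinAt)
    (fun u hu => (hder u (interior_subset hu)).differentiableAt.differentiableWithinAt)
    (fun u hu => by
      rw [(hder u (interior_subset hu)).deriv]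
      exact ntc_der (interior_subset hu))
    x hx y (hx.trans hxy) hxy
  have h' : 1 / 4 * (y - x) ≤
      y * Real.cosh y / Real.sinh y - x * Real.cosh x / Real.sinh x := h
  linarith

theorem coth_near {z z' : ℕ} (hz : 1 ≤ z) (hz' : 1 ≤ z') :
    |F z - F z'| ≤ 8 * |F z * kz z - F z' * kz z'| := by
  have hF : ∀ w : ℕ, 1 ≤ w → 24 / 25 ≤ F w := fun w hw => F_one.1.trans (F_le le_rfl hw)
  have hk : ∀ w : ℕ, 1 ≤ w → F w * Real.cosh (F w) / Real.sinh (F w) = 2 * (F w * kz w) := by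
    intro w hw
    rw [kz_coth hw]
    ring
  rcases le_total (F z) (F z') with h | h
  · have h1 := phi_mono (hF z hz) h
    rw [hk z hz, hk z' hz'] at h1
    rw [abs_of_nonpos (by linarith), abs_of_nonpos (by linarith)]
    linarith
  · have h1 := phi_mono (hF z' hz') h
    rw [hk z hz, hk z' hz'] at h1
    rw [abs_of_nonneg (by linarith), abs_of_nonneg (by linarith)]
    linarith

theorem coth_eq {z z' : ℕ} (hz : 1 ≤ z) (hz' : 1 ≤ z') (h : F z * kz z = F z' * kz z') : z = z' := by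
  have h1 := coth_near hz hz'
  rw [h, sub_self, abs_zero, mul_zero] at h1
  have h2 : F z = F z' := by
    have h3 := abs_nonpos_iff.1 h1
    linarith
  rcases lt_trichotomy z z' with h3 | h3 | h3
  · exact absurd h2 (F_lt hz h3).ne
  · exact h3
  · exact absurd h2 (F_lt hz' h3).ne'

theorem F_gap {z z' : ℕ} (hz : 1 ≤ z) (h : z < z') : 1 / (z' : ℝ) ≤ F z' - F z := by
  have hz' : 1 ≤ z' := by omega
  have h1 := lam_add hz
  have h2 := lam_add hz'
  have hz1 : (1 : ℝ) ≤ z := by exact_mod_cast hz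
  have hzz : (z : ℝ) + 1 ≤ z' := by exact_mod_cast h
  have l1 := lam_ge hz
  have l2 := lam_ge hz'
  have l3 := lam_le hz'
  have hF := F_lt hz h
  have hll : lam z ≤ lam z' := Real.exp_le_exp.2 hF.le
  have hinv : 1 / lam z' ≤ 1 / lam z := one_div_le_one_div_of_le (by linarith) hll
  have h3 : 3 ≤ lam z' - lam z := by linarith
  have h4 : F z - F z' + 1 ≤ lam z / lam z' := by
    have h5 := Real.add_one_le_exp (F z - F z')
    rw [Real.exp_sub] at h5
    exact h5
  have hlp : 0 < lam z' := by linarith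
  have hz0 : (0 : ℝ) < z' := by linarith
  have h6 : 1 / (z' : ℝ) ≤ (lam z' - lam z) / lam z' := by
    rw [div_le_div_iff₀ hz0 hlp]
    nlinarith
  have h7 : (lam z' - lam z) / lam z' = 1 - lam z / lam z' := by
    rw [sub_div, div_self hlp.ne']
  linarith

end Pool.Agent.Lib.MP_94ab62_ntZ
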