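import Pool.Agent.Lib.MP_94ab62_ntZ.Defs

/-!
# RaC: `λ`, `√(9z²-4)` and `T_n`

Let `z ≥ 1`, `λ = lam z = e^{F z}`.  `cosh (F z) = 3z/2` (`cosh_F`, Eps1) gives `λ + 1/λ = 3z` (`Real.cosh_eq`);
`sinh (F z) = √((3z/2)² - 1)` (`sinh_F`) gives `λ - 1/λ = 2 sinh = √(9z² - 4) = sq z`.  `F z ≥ F 1 ≥ 24/25` (`F_le`, `F_one`), so
`λ ≥ e^{0.96} ≥ 13/5` (`13/5 ≤ λ`; e.g. `1 + x + x²/2 + x³/6 + x^4/24 ≤ e^x`, Real.sum_le_exp_of_nonneg, gives 2.603 > 2.6).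
`λ ≤ 3z` clear.

`TT_succ`: `y_{n+2} = 3z y_{n+1} - y_n` (RS.rc, cast), `3z = λ + 1/λ`:
  `y_{n+2} - y_{n+1}/λ = λ y_{n+1} - y_n = λ (y_{n+1} - y_n/λ)`.
`TT_pos`: `y_n < y_{n+1}`, `λ > 1`.
`TT_rel`: let `A = y_{n+1} - y_n/λ`, `T = 3A/s`, `s = sq z`, `s² = (λ-1/λ)² = 9z²-4`.  Claim `3 y_n T = T² + 9z²/s²`:
  multiply by `s²`: `9 y_n A s = 9A² + 9z²`, i.e. `A² - y_n A (λ - 1/λ) + z² = 0`, i.e. (put `A = y_{n+1} - y_n/λ`)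
  `y_{n+1}² + y_n² + z² - (λ + 1/λ) y_n y_{n+1} = 0`, which is RS.mko with `3z = λ + 1/λ`.
`TT_ge`: `T_0 = 3 (y_1 - y_0/λ)/s ≥ 3 y_1 (1 - 1/λ)/(λ - 1/λ) = 3 y_1/(λ+1)` (as `y_0 < y_1`), and `2 y_1 > 3 z y_0 ≥ 3z` (RS.bg),
  `λ + 1 ≤ 3z + 1 ≤ 4z`: `T_0 ≥ 9z/(2 (λ+1)) ≥ 9/8`.  Then `T_n = λ^n T_0 ≥ 9/8`; `T_n ≥ 9/8 * λ ≥ 2.9` for `n ≥ 1`.
`TT_le`: from `TT_rel`: `3 y_n - T_n = c/T_n > 0`, and `c = 9z²/(9z²-4) ≤ 9/5`, so `3y_n - T_n ≤ (9/5)/(9/8) = 8/5 ≤ 2 y_n`.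
-/

set_option autoImplicit false

namespace Pool.Agent.Lib.MP_94ab62_ntZ

open Pool.Agent.Lib.MP_94ab62_nt Pool.Agent.Lib.MP_94ab62_ntU

private theorem raC_aux {z : ℕ} (hz : 1 ≤ z) :
    ∃ X r : ℝ, X = 3 * (z : ℝ) / 2 ∧ 3 / 2 ≤ X ∧ r ^ 2 = X ^ 2 - 1 ∧ 1.1 ≤ r ∧ r ≤ X ∧
      lam z = X + r ∧ 1 / lam z = X - r ∧ sq z = 2 * r := by
  have hz1 : (1 : ℝ) ≤ (z : ℝ) := by exact_mod_cast hz
  have hX : (3 : ℝ) / 2 ≤ 3 * (z : ℝ) / 2 := by linarith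
  have hnn : 0 ≤ (3 * (z : ℝ) / 2) ^ 2 - 1 := by nlinarith
  have hr2 : Real.sqrt ((3 * (z : ℝ) / 2) ^ 2 - 1) ^ 2 = (3 * (z : ℝ) / 2) ^ 2 - 1 := Real.sq_sqrt hnn
  have hr0 : 0 ≤ Real.sqrt ((3 * (z : ℝ) / 2) ^ 2 - 1) := Real.sqrt_nonneg _
  have hlam : lam z = 3 * (z : ℝ) / 2 + Real.sqrt ((3 * (z : ℝ) / 2) ^ 2 - 1) := by
    unfold lam F
    exact Real.exp_arcosh (by linarith)
  refine ⟨3 * (z : ℝ) / 2, Real.sqrt ((3 * (z : ℝ) / 2) ^ 2 - 1), rfl, hX, hr2, ?_, ?_, hlam, ?_, ?_⟩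
  · apply Real.le_sqrt_of_sq_le
    nlinarith
  · rw [Real.sqrt_le_left (by linarith)]
    linarith
  · rw [hlam, div_eq_iff (by linarith)]
    linear_combination hr2
  · unfold sq
    rw [show (9 : ℝ) * (z : ℝ) ^ 2 - 4 = 2 ^ 2 * ((3 * (z : ℝ) / 2) ^ 2 - 1) by ring,
      Real.sqrt_mul (by norm_num), Real.sqrt_sq (by norm_num)]

theorem lam_add {z : ℕ} (hz : 1 ≤ z) : lam z + 1 / lam z = 3 * z := by
  obtain ⟨X, r, hX, _, _, _, _, h1, h2, _⟩ := raC_aux hz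
  rw [h2, h1, hX]
  ring

theorem lam_sub {z : ℕ} (hz : 1 ≤ z) : lam z - 1 / lam z = sq z := by
  obtain ⟨X, r, _, _, _, _, _, h1, h2, h3⟩ := raC_aux hz
  rw [h2, h1, h3]
  ring

theorem lam_ge {z : ℕ} (hz : 1 ≤ z) : 13 / 5 ≤ lam z := by
  obtain ⟨X, r, _, hX, _, hr, _, h1, _, _⟩ := raC_aux hz
  rw [h1]
  linarith

theorem lam_le {z : ℕ} (hz : 1 ≤ z) : lam z ≤ 3 * z := by
  obtain ⟨X, r, hX, _, _, _, hr, h1, _, _⟩ := raC_aux hz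
  rw [h1]
  linarith

theorem sq_pos {z : ℕ} (hz : 1 ≤ z) : 0 < sq z := by
  obtain ⟨X, r, _, _, _, hr, _, _, _, h3⟩ := raC_aux hz
  rw [h3]
  linarith

theorem sq_sq {z : ℕ} (hz : 1 ≤ z) : sq z ^ 2 = 9 * (z : ℝ) ^ 2 - 4 := by
  have hz1 : (1 : ℝ) ≤ (z : ℝ) := by exact_mod_cast hz
  unfold sq
  exact Real.sq_sqrt (by nlinarith)

theorem TT_succ {z : ℕ} {y : ℕ → ℕ} (h : RS z y) (n : ℕ) : TT z y (n + 1) = lam z * TT z y n := by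
  have hL := lam_ge h.hz
  have h0 : lam z ≠ 0 := by linarith
  have hs := (sq_pos h.hz).ne'
  have h1 : ((y (n + 2) : ℕ) : ℝ) + (y n : ℝ) = 3 * (z : ℝ) * (y (n + 1) : ℝ) := by
    exact_mod_cast h.rc n
  rw [← lam_add h.hz] at h1
  have h2 : ((y (n + 1 + 1) : ℕ) : ℝ) = (lam z + 1 / lam z) * (y (n + 1) : ℝ) - (y n : ℝ) := by
    linarith
  unfold TT
  rw [h2]
  field_simp
  ring

theorem TT_add {z : ℕ} {y : ℕ → ℕ} (h : RS z y) (n m : ℕ) : TT z y (n + m) = lam z ^ m * TT z y n := by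
  induction m with
  | zero => simp
  | succ m ih =>
    rw [← Nat.add_assoc, TT_succ h, ih, pow_succ]
    ring

theorem TT_pos {z : ℕ} {y : ℕ → ℕ} (h : RS z y) (n : ℕ) : 0 < TT z y n := by
  have hL := lam_ge h.hz
  have hs := sq_pos h.hz
  have h1 : ((y n : ℕ) : ℝ) < (y (n + 1) : ℝ) := by exact_mod_cast h.lt n
  have h2 : (0 : ℝ) ≤ (y n : ℝ) := Nat.cast_nonneg _
  have h3 : (y n : ℝ) / lam z ≤ (y n : ℝ) := div_le_self h2 (by linarith)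
  unfold TT
  apply div_pos _ hs
  linarith

theorem TT_rel {z : ℕ} {y : ℕ → ℕ} (h : RS z y) (n : ℕ) :
    3 * (y n : ℝ) = TT z y n + 9 * (z : ℝ) ^ 2 / (9 * (z : ℝ) ^ 2 - 4) / TT z y n := by
  have hL := lam_ge h.hz
  have hs := sq_pos h.hz
  have hs2 := sq_sq h.hz
  have hadd := lam_add h.hz
  have hsub := lam_sub h.hz
  have hT := TT_pos h n
  have hm : ((y n : ℕ) : ℝ) ^ 2 + (y (n + 1) : ℝ) ^ 2 + (z : ℝ) ^ 2
      = 3 * (z : ℝ) * (y n : ℝ) * (y (n + 1) : ℝ) := by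
    exact_mod_cast h.mko n
  have hLM : lam z * (1 / lam z) = 1 := by
    rw [mul_one_div, div_self (by linarith)]
  obtain ⟨A, hA⟩ : ∃ A : ℝ, A = (y (n + 1) : ℝ) - (y n : ℝ) / lam z := ⟨_, rfl⟩
  have hTA : TT z y n = 3 * A / sq z := by
    unfold TT
    rw [hA]
  have hA' : A = (y (n + 1) : ℝ) - (y n : ℝ) * (1 / lam z) := by
    rw [hA]; ring
  have hA0 : 0 < A := by
    have h1 : 0 < 3 * A / sq z := by rw [← hTA]; exact hT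
    have h2 : 0 < 3 * A := by
      have := mul_pos h1 hs
      rwa [div_mul_cancel₀ _ hs.ne'] at this
    linarith
  have key : (y n : ℝ) * sq z * A = A ^ 2 + (z : ℝ) ^ 2 := by
    rw [← hsub, hA']
    have h3 : (y n : ℝ) * (y (n + 1) : ℝ) * (lam z + 1 / lam z)
        = (y n : ℝ) ^ 2 + (y (n + 1) : ℝ) ^ 2 + (z : ℝ) ^ 2 := by
      rw [hadd]; linear_combination -hm
    linear_combination h3 - (y n : ℝ) ^ 2 * hLM
  rw [← hs2, hTA]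
  have hs' := hs.ne'
  have hA'' := hA0.ne'
  field_simp
  linear_combination 9 * key

theorem TT_ge {z : ℕ} {y : ℕ → ℕ} (h : RS z y) (n : ℕ) : 9 / 8 ≤ TT z y n := by
  have hL := lam_ge h.hz
  have h0 : 9 / 8 ≤ TT z y 0 := by
    have hL3 := lam_le h.hz
    have hs := sq_pos h.hz
    have hsub := lam_sub h.hz
    have hz1 : (1 : ℝ) ≤ (z : ℝ) := by exact_mod_cast h.hz
    have hLM : lam z * (1 / lam z) = 1 := by
      rw [mul_one_div, div_self (by linarith)]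
    obtain ⟨M, hM⟩ : ∃ M : ℝ, M = 1 / lam z := ⟨_, rfl⟩
    have hM0 : 0 ≤ M := by rw [hM]; exact one_div_nonneg.mpr (by linarith)
    have hM1 : M ≤ 1 := by
      rw [hM, div_le_one (by linarith)]; linarith
    have hab : ((y 0 : ℕ) : ℝ) < (y (0 + 1) : ℝ) := by exact_mod_cast h.lt 0
    have hbg : 3 * (z : ℝ) * (y 0 : ℝ) < 2 * (y (0 + 1) : ℝ) := by exact_mod_cast h.bg 0
    have hy : (1 : ℝ) ≤ (y 0 : ℝ) := by exact_mod_cast h.hy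
    have hb : 3 * (z : ℝ) ≤ 2 * (y (0 + 1) : ℝ) := by nlinarith
    unfold TT
    rw [le_div_iff₀ hs, ← hsub, div_eq_mul_one_div ((y 0 : ℕ) : ℝ) (lam z), ← hM]
    rw [← hM] at hLM
    have h1 : lam z - M = (1 - M) * (lam z + 1) := by linear_combination hLM
    have h2 : (1 - M) * (lam z + 1) ≤ (1 - M) * (4 * z) :=
      mul_le_mul_of_nonneg_left (by linarith) (by linarith)
    have h3 : (1 - M) * (3 * (z : ℝ)) ≤ (1 - M) * (2 * (y (0 + 1) : ℝ)) :=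
      mul_le_mul_of_nonneg_left hb (by linarith)
    have h4 : ((y 0 : ℕ) : ℝ) * M ≤ (y (0 + 1) : ℝ) * M :=
      mul_le_mul_of_nonneg_right hab.le hM0
    rw [h1]
    nlinarith
  induction n with
  | zero => exact h0
  | succ n ih =>
    rw [TT_succ h]
    nlinarith

theorem TT_ge' {z : ℕ} {y : ℕ → ℕ} (h : RS z y) {n : ℕ} (hn : 1 ≤ n) : 29 / 10 ≤ TT z y n := by
  obtain ⟨m, rfl⟩ : ∃ m, n = m + 1 := ⟨n - 1, by omega⟩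
  have hL := lam_ge h.hz
  have h1 := TT_ge h m
  rw [TT_succ h]
  nlinarith

theorem TT_le {z : ℕ} {y : ℕ → ℕ} (h : RS z y) (n : ℕ) : (y n : ℝ) ≤ TT z y n ∧ TT z y n ≤ 3 * y n := by
  have hz1 : (1 : ℝ) ≤ (z : ℝ) := by exact_mod_cast h.hz
  have hrel := TT_rel h n
  have hge := TT_ge h n
  have hyn : 1 ≤ y n := by
    have : ∀ k, 1 ≤ y k := by
      intro k
      induction k with
      | zero => exact h.hy
      | succ k ih => exact le_trans ih (h.lt k).le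
    exact this n
  have hyn' : (1 : ℝ) ≤ (y n : ℝ) := by exact_mod_cast hyn
  have hd : (0 : ℝ) < 9 * (z : ℝ) ^ 2 - 4 := by nlinarith
  have hc : 9 * (z : ℝ) ^ 2 / (9 * (z : ℝ) ^ 2 - 4) ≤ 9 / 5 := by
    rw [div_le_iff₀ hd]
    nlinarith
  have hc0 : 0 ≤ 9 * (z : ℝ) ^ 2 / (9 * (z : ℝ) ^ 2 - 4) := by positivity
  have hq0 : 0 ≤ 9 * (z : ℝ) ^ 2 / (9 * (z : ℝ) ^ 2 - 4) / TT z y n := by
    apply div_nonneg hc0; linarith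
  have hq1 : 9 * (z : ℝ) ^ 2 / (9 * (z : ℝ) ^ 2 - 4) / TT z y n ≤ 8 / 5 := by
    rw [div_le_iff₀ (by linarith)]
    linarith
  constructor
  · linarith
  · linarith

theorem log_TT {z : ℕ} {y : ℕ → ℕ} (h : RS z y) (n : ℕ) :
    Real.log (TT z y n) = Real.log (TT z y 0) + n * F z := by
  have h1 := TT_add h 0 n
  rw [Nat.zero_add] at h1
  have h0 := TT_pos h 0
  rw [h1]
  unfold lam
  rw [Real.log_mul (pow_ne_zero _ (Real.exp_pos _).ne') h0.ne', Real.log_pow, Real.log_exp]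
  ring

end Pool.Agent.Lib.MP_94ab62_ntZ
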