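import Pool.Agent.Lib.MP_94ab62_ntZ.TpB
import Pool.Agent.Lib.MP_94ab62_ntZ.TpD

/-!
# TpE: lower bound of the second difference

* `hlow`: `Top q1 q3 d`, `u1 < u2 < u3` (`ui = uu qi`).  Case A: `0 ≤ det u2 (uu d)` (`u2 ≤ u_d`).  Let `X = List.replicate n false ++ (true :: q2)`, `n = q1.length + 1`: `g2 X = uu q2`
   (`false` keeps `g2`, `g2 (true :: q2) = uu q2`).
   * `LL X (uu q2) = ll q2` (`LL_edge2`).
   * `X` is below `true :: d`: `d <:+ q2` (`top_below`); if `u2 < u_d` then `(true :: d) <:+ q2 <:+ X` (`d <:+ q2`, `q2 ≠ d`, `(b :: d) <:+ q2`, `b = false` is excluded by `side_false`);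
     if `det u2 (uu d) = 0` then `q2 = d` (`par_eq`) and `true :: d = true :: q2 <:+ X`.
   * `LL X (uu q1) ≤ ll q1`: if `uu q1 = g1 X` equality (`LL_edge1`); `uu q1 ≠ g2 X = uu q2`; `¬ X <:+ q1` by length; `conv_strict`.
   * `ll q3 - LL X (uu q3) ≥ 2/3 ee d * det (uu d) (uu q3)`: `sur_tf` (`top_cc`).
   By `Hd_lin` for `X`: `Hd = det u2 u3 (ll q1 - L u1) - det u1 u3 (ll q2 - L u2) + det u1 u2 (ll q3 - L u3) ≥ det u1 u2 * (2/3) ee d * det (uu d) u3`, both integers are `≥ 1`.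
   Case B: `det u2 (uu d) < 0`: mirror image: `X = List.replicate n true ++ (false :: q2)`, `n = q3.length + 1`, `g1 X = uu q2`, `X` below `false :: d`, `sur_ft` for `q1`, `LL X (uu q3) ≤ ll q3`:
   `Hd ≥ det u2 u3 * (2/3) ee d * det u1 (uu d)`.
* `hpos`: `0 < Hd` (`top_exists`, `hlow`, `ee_pos`).
* `size`: all three `pi` in the closed cone of `D0` and `qi` with top `d`: `(2/3) ee d ≤ |Hd q1 q2 q3|`; from `a * Hd q = a' * Hd p` with `1 ≤ |a|`, `|a'| ≤ R^2` conclude
  `ee d ≤ 14 R^6 ee D0` (`hup`: `|Hd p| ≤ 9 R^4 ee D0`).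
-/

set_option autoImplicit false

namespace Pool.Agent.Lib.MP_94ab62_ntZ

open Pool.Agent.Lib.MP_94ab62_nt Pool.Agent.Lib.MP_94ab62_ntU

private theorem tpe_g2 (n : ℕ) (P : List Bool) : g2 (List.replicate n false ++ P) = g2 P := by
  induction n with
  | zero => rfl
  | succ n ih =>
    rw [List.replicate_succ, List.cons_append, g2_false, ih]

private theorem tpe_g1 (n : ℕ) (P : List Bool) : g1 (List.replicate n true ++ P) = g1 P := by
  induction n with
  | zero => rfl
  | succ n ih =>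
    rw [List.replicate_succ, List.cons_append, g1_true, ih]

private theorem tpe_cons {d q : List Bool} (h : d <:+ q) (hne : q ≠ d) : ∃ b, (b :: d) <:+ q := by
  obtain ⟨r, rfl⟩ := h
  rcases List.eq_nil_or_concat r with hr | ⟨r', b, hr⟩
  · subst hr
    exact absurd rfl hne
  · subst hr
    refine ⟨b, r', ?_⟩
    rw [List.concat_eq_append, List.append_assoc, List.singleton_append]

private theorem tpe_real {a b : ℤ} {x : ℝ} (ha : 0 < a) (hb : 0 < b) (hx : 0 ≤ x) :
    x ≤ (a : ℝ) * (x * (b : ℝ)) := by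
  have h1 : (1 : ℝ) ≤ a := by exact_mod_cast ha
  have h2 : (1 : ℝ) ≤ b := by exact_mod_cast hb
  have h3 : x * 1 ≤ x * (b : ℝ) := mul_le_mul_of_nonneg_left h2 hx
  have h4 : 0 ≤ x * (b : ℝ) := mul_nonneg hx (by linarith)
  nlinarith

theorem hlow {q1 q2 q3 d : List Bool} (ht : Top q1 q3 d) (h12 : 0 < det (uu q1) (uu q2))
    (h23 : 0 < det (uu q2) (uu q3)) : 2 / 3 * ee d ≤ Hd q1 q2 q3 := by
  have hd := top_below ht h12 h23
  obtain ⟨c1, c2, -, -⟩ := top_cc ht
  have h13 := uu_trans h12 h23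
  have he := ee_pos d
  obtain ⟨-, t2, t3, -⟩ := ht
  rcases le_or_gt 0 (det (uu q2) (uu d)) with hA | hB
  · obtain ⟨X, hXd⟩ : ∃ X, X = List.replicate (q1.length + 1) false ++ (true :: q2) := ⟨_, rfl⟩
    have hg : g2 X = uu q2 := by rw [hXd, tpe_g2, g2_true]
    have hs : (true :: q2) <:+ X := ⟨_, hXd.symm⟩
    have hX : (true :: d) <:+ X := by
      by_cases hq : q2 = d
      · rw [← hq]
        exact hs
      · obtain ⟨b, hb⟩ := tpe_cons hd hq
        cases b with
        | true => exact (hb.trans (List.suffix_cons true q2)).trans hs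
        | false =>
          have h1 := side_false hb
          rw [det_swap] at h1
          omega
    have e2 : ll q2 = LL X (uu q2) := LL_edge2 hg.symm
    have e1 : LL X (uu q1) ≤ ll q1 := by
      by_cases h1 : uu q1 = g1 X
      · exact (LL_edge1 h1).symm.le
      · refine (conv_strict ?_ h1 ?_).le
        · intro h2
          have h3 := h2.length_le
          rw [hXd, List.length_append, List.length_replicate] at h3
          omega
        · intro h2
          rw [hg] at h2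
          rw [h2, det_self] at h12
          omega
    have e3 := sur_tf hX c2
    have hl := Hd_lin X (uu q1) (uu q2) (uu q3)
    have h1 : (1 : ℝ) ≤ det (uu q1) (uu q2) := by exact_mod_cast h12
    have h2 : (1 : ℝ) ≤ det (uu q2) (uu q3) := by exact_mod_cast h23
    have h5 : Hd q1 q2 q3 = (det (uu q2) (uu q3) : ℝ) * (ll q1 - LL X (uu q1)) +
        (det (uu q1) (uu q2) : ℝ) * (ll q3 - LL X (uu q3)) := by
      unfold Hd
      rw [e2]
      linarith
    rw [h5]
    have h6 : 0 ≤ (det (uu q2) (uu q3) : ℝ) * (ll q1 - LL X (uu q1)) :=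
      mul_nonneg (by linarith) (by linarith)
    have h7 : (det (uu q1) (uu q2) : ℝ) * (2 / 3 * ee d * (det (uu d) (uu q3) : ℝ)) ≤
        (det (uu q1) (uu q2) : ℝ) * (ll q3 - LL X (uu q3)) :=
      mul_le_mul_of_nonneg_left e3 (by linarith)
    have h8 := tpe_real (x := 2 / 3 * ee d) h12 t3 (by linarith)
    linarith
  · obtain ⟨X, hXd⟩ : ∃ X, X = List.replicate (q3.length + 1) true ++ (false :: q2) := ⟨_, rfl⟩
    have hg : g1 X = uu q2 := by rw [hXd, tpe_g1, g1_false]
    have hs : (false :: q2) <:+ X := ⟨_, hXd.symm⟩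
    have hX : (false :: d) <:+ X := by
      have hq : q2 ≠ d := by
        intro h
        rw [h, det_self] at hB
        omega
      obtain ⟨b, hb⟩ := tpe_cons hd hq
      cases b with
      | false => exact (hb.trans (List.suffix_cons false q2)).trans hs
      | true =>
        have h1 := side_true hb
        omega
    have e2 : ll q2 = LL X (uu q2) := LL_edge1 hg.symm
    have e1 : LL X (uu q3) ≤ ll q3 := by
      by_cases h1 : uu q3 = g2 X
      · exact (LL_edge2 h1).symm.le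
      · refine (conv_strict ?_ ?_ h1).le
        · intro h2
          have h3 := h2.length_le
          rw [hXd, List.length_append, List.length_replicate] at h3
          omega
        · intro h2
          rw [hg] at h2
          rw [h2, det_self] at h23
          omega
    have e3 := sur_ft hX c1
    have hl := Hd_lin X (uu q1) (uu q2) (uu q3)
    have h1 : (1 : ℝ) ≤ det (uu q1) (uu q2) := by exact_mod_cast h12
    have h2 : (1 : ℝ) ≤ det (uu q2) (uu q3) := by exact_mod_cast h23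
    have h5 : Hd q1 q2 q3 = (det (uu q2) (uu q3) : ℝ) * (ll q1 - LL X (uu q1)) +
        (det (uu q1) (uu q2) : ℝ) * (ll q3 - LL X (uu q3)) := by
      unfold Hd
      rw [e2]
      linarith
    rw [h5]
    have h6 : 0 ≤ (det (uu q1) (uu q2) : ℝ) * (ll q3 - LL X (uu q3)) :=
      mul_nonneg (by linarith) (by linarith)
    have h7 : (det (uu q2) (uu q3) : ℝ) * (2 / 3 * ee d * (det (uu q1) (uu d) : ℝ)) ≤
        (det (uu q2) (uu q3) : ℝ) * (ll q1 - LL X (uu q1)) :=
      mul_le_mul_of_nonneg_left e3 (by linarith)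
    have h8 := tpe_real (x := 2 / 3 * ee d) h23 t2 (by linarith)
    linarith

theorem hpos {q1 q2 q3 : List Bool} (h12 : 0 < det (uu q1) (uu q2)) (h23 : 0 < det (uu q2) (uu q3)) :
    0 < Hd q1 q2 q3 := by
  obtain ⟨d, hd⟩ := top_exists (uu_trans h12 h23)
  have h1 := hlow hd h12 h23
  have h2 := ee_pos d
  linarith

theorem size {R : ℕ} {D0 p1 p2 p3 q1 q2 q3 d : List Bool} (ht : Top q1 q3 d) (h12 : 0 < det (uu q1) (uu q2))
    (h23 : 0 < det (uu q2) (uu q3)) (h1 : CC D0 (uu p1)) (h2 : CC D0 (uu p2)) (h3 : CC D0 (uu p3))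
    (s1 : ss p1 ≤ R) (s2 : ss p2 ≤ R) (s3 : ss p3 ≤ R) {a a' : ℝ} (ha : 1 ≤ |a|) (ha' : |a'| ≤ (R : ℝ) ^ 2)
    (h : a * Hd q1 q2 q3 = a' * Hd p1 p2 p3) : ee d ≤ 14 * (R : ℝ) ^ 6 * ee D0 := by
  have e1 := hlow ht h12 h23
  have e2 := hup h1 h2 h3 s1 s2 s3
  have e3 : |a| * |Hd q1 q2 q3| = |a'| * |Hd p1 p2 p3| := by
    rw [← abs_mul, ← abs_mul, h]
  have e4 : |a'| * |Hd p1 p2 p3| ≤ (R : ℝ) ^ 2 * (9 * (R : ℝ) ^ 4 * ee D0) :=
    mul_le_mul ha' e2 (abs_nonneg _) (by positivity)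
  have e5 : 1 * |Hd q1 q2 q3| ≤ |a| * |Hd q1 q2 q3| := mul_le_mul_of_nonneg_right ha (abs_nonneg _)
  have e6 := le_abs_self (Hd q1 q2 q3)
  have e7 : (R : ℝ) ^ 2 * (9 * (R : ℝ) ^ 4 * ee D0) = 9 * ((R : ℝ) ^ 6 * ee D0) := by ring
  have e8 : 0 ≤ (R : ℝ) ^ 6 * ee D0 := mul_nonneg (by positivity) (ee_pos D0).le
  rw [e7] at e4
  linarith

end Pool.Agent.Lib.MP_94ab62_ntZ
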