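import Pool.Agent.Lib.MP_94ab62_ntZ.TaA
import Pool.Agent.Lib.MP_94ab62_ntZ.TpE

/-!
# TaB: the partners of a branching node

`x1, x2` have first entries below `true :: c`, `x3, x4` below `false :: c`, `u1 < u2 < u_c < u3 < u4` (`ui = uu xi.1`, `side_true`, `side_false`, `uu_trans`); write `pi = xi.1`, `qi = xi.2`.
`Gd R c`, `Gd R d` for every `d` below `B` (`Gd_suffix`); `ee (b :: d) ≤ 2 / R^40 * ee d` (`ee_cons_good`).

Case `D' > 0`: `q1 < q2 < q3 < q4` (`fam_ord`).  `d = top of (q1, q4)` (`top_exists`), `B <:+ d` (`top_base`), `d <:+ q2` (`top_below`), so `ss d ≤ ss q2 ≤ R`.  All `qi` lie in the closed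
cone of `d` (`top_mid`), all `pi` in that of `c` (`cc_of_suffix`, `cc_child`).
* `(S1)` `ee d ≤ 14 R^6 ee c`: `hlow` for `(q1, q2, q4)` and `hup` for `(p1, p2, p4)` (lemma `size` with `D0 = c`, `a = D`, `a' = D'`: `fam_Hd`).
* `(S2)` `ee c ≤ 14 R^6 ee d`: `Top p1 p4 c` holds (`cc_of_suffix`, `side_true`, `side_false`); `size` with the roles exchanged, `D0 = d`.
* Claim `0 ≤ det (uu q2) (uu d)`.  Otherwise `uu d < uu q2 < uu q3 < uu q4`, all three in `CC (false :: d)` (`cc_false`, `top_mid`), so `|Hd q2 q3 q4| ≤ 9 R^4 ee (false :: d) ≤ 18 R^4/R^40 ee d`.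
  `Top p2 p4 c`: `hlow`: `2/3 ee c ≤ Hd p2 p3 p4`, and `|D'| |Hd p2 p3 p4| = D |Hd q2 q3 q4| ≤ R^2 * 18 R^4/R^40 * ee d ≤ 18 R^(-34) * 14 R^6 ee c < 2/3 ee c`.  Contradiction (`|D'| ≥ 1`).
* Claim `0 ≤ det (uu d) (uu q3)`: mirror image (`q1, q2, q3 ∈ CC (true :: d)`, `Top p1 p3 c`).
* So `q1, q2 ∈ CC (true :: d)`, `q3, q4 ∈ CC (false :: d)` (`cc_true`, `cc_false`, `top_mid`), `b = true`.
Case `D' < 0`: `q4 < q3 < q2 < q1` (`fam_ord'`), `d = top of (q4, q1)`, the same with reversed order (`Hd_rev`), `b = false`.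
(`14 R^6 ≤ R^8`.)
-/

set_option autoImplicit false

namespace Pool.Agent.Lib.MP_94ab62_ntZ

open Pool.Agent.Lib.MP_94ab62_nt Pool.Agent.Lib.MP_94ab62_ntU

/-- comparison of a second difference with the node `c` -/
private def tabQ (R : ℕ) (c : List Bool) (D a H : ℝ) : Prop :=
  ∃ T : ℝ, 2 / 3 * ee c ≤ |T| ∧ |T| ≤ 9 * (R : ℝ) ^ 4 * ee c ∧ D * H = a * T

private theorem tabQ_eq {D a H T : ℝ} (hD1 : 1 ≤ D) (h : D * H = a * T) : D * |H| = |a| * |T| := by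
  have h1 : |D * H| = |a * T| := by rw [h]
  rw [abs_mul, abs_mul, abs_of_pos (lt_of_lt_of_le one_pos hD1)] at h1
  exact h1

private theorem tabQ_up {R : ℕ} {c : List Bool} {D a H : ℝ} (hD1 : 1 ≤ D)
    (ha2 : |a| ≤ (R : ℝ) ^ 2) (h : tabQ R c D a H) : |H| ≤ 9 * ((R : ℝ) ^ 6 * ee c) := by
  obtain ⟨T, -, h2, h3⟩ := h
  have h4 := tabQ_eq hD1 h3
  calc |H| = 1 * |H| := (one_mul _).symm
    _ ≤ D * |H| := mul_le_mul_of_nonneg_right hD1 (abs_nonneg _)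
    _ = |a| * |T| := h4
    _ ≤ (R : ℝ) ^ 2 * (9 * (R : ℝ) ^ 4 * ee c) :=
        mul_le_mul ha2 h2 (abs_nonneg _) (by positivity)
    _ = 9 * ((R : ℝ) ^ 6 * ee c) := by ring

private theorem tabQ_low {R : ℕ} {c : List Bool} {D a H : ℝ} (hD1 : 1 ≤ D)
    (hD2 : D ≤ (R : ℝ) ^ 2) (ha1 : 1 ≤ |a|) (h : tabQ R c D a H) :
    2 / 3 * ee c ≤ (R : ℝ) ^ 2 * |H| := by
  obtain ⟨T, h1, -, h3⟩ := h
  have h4 := tabQ_eq hD1 h3
  calc 2 / 3 * ee c ≤ |T| := h1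
    _ = 1 * |T| := (one_mul _).symm
    _ ≤ |a| * |T| := mul_le_mul_of_nonneg_right ha1 (abs_nonneg _)
    _ = D * |H| := h4.symm
    _ ≤ (R : ℝ) ^ 2 * |H| := mul_le_mul_of_nonneg_right hD2 (abs_nonneg _)

private theorem tab_absurd {R : ℕ} (hR : 100 ≤ R) {H x y z : ℝ} (hz : 0 < z)
    (h1 : |H| ≤ 9 * (R : ℝ) ^ 4 * x) (h2 : x ≤ 2 / (R : ℝ) ^ 40 * y)
    (h3 : y ≤ 14 * ((R : ℝ) ^ 6 * z)) (h4 : 2 / 3 * z ≤ (R : ℝ) ^ 2 * |H|) : False := by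
  have hRr : (100 : ℝ) ≤ R := by exact_mod_cast hR
  have hR0 : (0 : ℝ) < R := by linarith
  have h5 : (R : ℝ) ^ 2 * |H| ≤
      (R : ℝ) ^ 2 * (9 * (R : ℝ) ^ 4 * (2 / (R : ℝ) ^ 40 * (14 * ((R : ℝ) ^ 6 * z)))) := by
    refine mul_le_mul_of_nonneg_left (h1.trans ?_) (by positivity)
    refine mul_le_mul_of_nonneg_left (h2.trans ?_) (by positivity)
    exact mul_le_mul_of_nonneg_left h3 (by positivity)
  have h6 : (R : ℝ) ^ 2 * (9 * (R : ℝ) ^ 4 * (2 / (R : ℝ) ^ 40 * (14 * ((R : ℝ) ^ 6 * z)))) =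
      252 / (R : ℝ) ^ 28 * z := by
    field_simp
    ring
  have h7 : (10000 : ℝ) ≤ (R : ℝ) ^ 28 := by
    calc (10000 : ℝ) = 100 ^ 2 := by norm_num
      _ ≤ (R : ℝ) ^ 2 := pow_le_pow_left₀ (by norm_num) hRr 2
      _ ≤ (R : ℝ) ^ 28 := pow_le_pow_right₀ (by linarith) (by norm_num)
  have h8 : 252 / (R : ℝ) ^ 28 ≤ 1 / 3 := by
    rw [div_le_iff₀ (by positivity)]
    linarith
  have h9 : 252 / (R : ℝ) ^ 28 * z ≤ 1 / 3 * z := mul_le_mul_of_nonneg_right h8 hz.le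
  rw [h6] at h5
  linarith

private theorem tab_core {R : ℕ} {B c q1 q2 q3 q4 : List Bool} {D a : ℝ} (hR : 100 ≤ R)
    (gB : Gd R B) (b1 : B <:+ q1) (b4 : B <:+ q4) (s1 : ss q1 ≤ R) (s2 : ss q2 ≤ R)
    (s3 : ss q3 ≤ R) (s4 : ss q4 ≤ R) (h12 : 0 < det (uu q1) (uu q2))
    (h23 : 0 < det (uu q2) (uu q3)) (h34 : 0 < det (uu q3) (uu q4)) (hD1 : 1 ≤ D)
    (hD2 : D ≤ (R : ℝ) ^ 2) (ha1 : 1 ≤ |a|) (ha2 : |a| ≤ (R : ℝ) ^ 2)
    (k1 : tabQ R c D a (Hd q1 q2 q4)) (k2 : tabQ R c D a (Hd q2 q3 q4))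
    (k3 : tabQ R c D a (Hd q1 q2 q3)) :
    ∃ d, B <:+ d ∧ ss d ≤ R ∧ CC (true :: d) (uu q1) ∧ CC (true :: d) (uu q2) ∧
      CC (false :: d) (uu q3) ∧ CC (false :: d) (uu q4) ∧ ee c ≤ (R : ℝ) ^ 8 * ee d ∧
      ee d ≤ (R : ℝ) ^ 8 * ee c := by
  have h24 := uu_trans h23 h34
  have h14 := uu_trans h12 h24
  have h13 := uu_trans h12 h23
  obtain ⟨d, hd⟩ := top_exists h14
  have hBd := top_base hd b1 b4
  have hd2 : d <:+ q2 := top_below hd h12 h24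
  have hGd := Gd_suffix hBd gB
  obtain ⟨c1, c4, e1, e4⟩ := top_cc hd
  have e2 : CC d (uu q2) := top_mid hd h12.le h24.le
  have e3 : CC d (uu q3) := top_mid hd h13.le h34.le
  have hec := ee_pos c
  have hed := ee_pos d
  have hRr : (100 : ℝ) ≤ R := by exact_mod_cast hR
  have hR0 : (0 : ℝ) < R := by linarith
  have p1 : 0 ≤ (R : ℝ) ^ 6 * ee c := by positivity
  have p2 : 0 ≤ (R : ℝ) ^ 6 * ee d := by positivity
  have S1 : ee d ≤ 14 * ((R : ℝ) ^ 6 * ee c) := by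
    have h1 := hlow hd h12 h24
    have h2 := tabQ_up hD1 ha2 k1
    have h3 := le_abs_self (Hd q1 q2 q4)
    linarith
  have S2 : ee c ≤ 14 * ((R : ℝ) ^ 6 * ee d) := by
    have h1 := hup e1 e2 e4 s1 s2 s4
    have h2 := tabQ_low hD1 hD2 ha1 k1
    have h3 : (R : ℝ) ^ 2 * |Hd q1 q2 q4| ≤ (R : ℝ) ^ 2 * (9 * (R : ℝ) ^ 4 * ee d) :=
      mul_le_mul_of_nonneg_left h1 (by positivity)
    have h4 : (R : ℝ) ^ 2 * (9 * (R : ℝ) ^ 4 * ee d) = 9 * ((R : ℝ) ^ 6 * ee d) := by ring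
    rw [h4] at h3
    linarith
  have C1 : 0 ≤ det (uu q2) (uu d) := by
    by_contra hc
    rw [det_swap] at hc
    have g2' : 0 < det (uu d) (uu q2) := by omega
    have g3' : 0 < det (uu d) (uu q3) := uu_trans g2' h23
    have f2 : CC (false :: d) (uu q2) := cc_false.2 ⟨g2'.le, e2.2⟩
    have f3 : CC (false :: d) (uu q3) := cc_false.2 ⟨g3'.le, e3.2⟩
    exact tab_absurd hR hec (hup f2 f3 c4 s2 s3 s4) (ee_cons_good (by omega) hGd false) S1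
      (tabQ_low hD1 hD2 ha1 k2)
  have C2 : 0 ≤ det (uu d) (uu q3) := by
    by_contra hc
    rw [det_swap] at hc
    have g3' : 0 < det (uu q3) (uu d) := by omega
    have g2' : 0 < det (uu q2) (uu d) := uu_trans h23 g3'
    have f2 : CC (true :: d) (uu q2) := cc_true.2 ⟨e2.1, g2'.le⟩
    have f3 : CC (true :: d) (uu q3) := cc_true.2 ⟨e3.1, g3'.le⟩
    exact tab_absurd hR hec (hup c1 f2 f3 s1 s2 s3) (ee_cons_good (by omega) hGd true) S1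
      (tabQ_low hD1 hD2 ha1 k3)
  have h8 : ∀ x : ℝ, 0 ≤ x → 14 * ((R : ℝ) ^ 6 * x) ≤ (R : ℝ) ^ 8 * x := by
    intro x hx
    have h1 : (14 : ℝ) ≤ (R : ℝ) ^ 2 := by nlinarith
    have h2 : 0 ≤ (R : ℝ) ^ 6 * x := by positivity
    have h3 : 14 * ((R : ℝ) ^ 6 * x) ≤ (R : ℝ) ^ 2 * ((R : ℝ) ^ 6 * x) :=
      mul_le_mul_of_nonneg_right h1 h2
    have h4 : (R : ℝ) ^ 2 * ((R : ℝ) ^ 6 * x) = (R : ℝ) ^ 8 * x := by ring
    rwa [h4] at h3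
  exact ⟨d, hBd, (ss_suffix hd2).trans s2, c1, cc_true.2 ⟨e2.1, C1⟩, cc_false.2 ⟨C2, e3.2⟩, c4,
    S2.trans (h8 _ hed.le), S1.trans (h8 _ hec.le)⟩

variable {R : ℕ} {A B : List Bool} {S : Set PP} {D D' : ℤ} {M M' : Mt}

theorem ev_geo (hF : Fam R A B S D D' M M') (gA : Gd R A) (gB : Gd R B) {c : List Bool} (hc : A <:+ c)
    {x1 x2 x3 x4 : PP} (m1 : x1 ∈ S) (m2 : x2 ∈ S) (m3 : x3 ∈ S) (m4 : x4 ∈ S) (h1 : (true :: c) <:+ x1.1)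
    (h2 : (true :: c) <:+ x2.1) (h3 : (false :: c) <:+ x3.1) (h4 : (false :: c) <:+ x4.1)
    (h12 : 0 < det (uu x1.1) (uu x2.1)) (h34 : 0 < det (uu x3.1) (uu x4.1)) :
    ∃ (d : List Bool) (b : Bool), B <:+ d ∧ ss d ≤ R ∧ (b = true ↔ 0 < D') ∧
      CC (b :: d) (uu x1.2) ∧ CC (b :: d) (uu x2.2) ∧ CC ((!b) :: d) (uu x3.2) ∧ CC ((!b) :: d) (uu x4.2) ∧
      ee c ≤ (R : ℝ) ^ 8 * ee d ∧ ee d ≤ (R : ℝ) ^ 8 * ee c := by
  have hR := hF.hR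
  have hc1 : ∀ {b : Bool} {p : List Bool}, (b :: c) <:+ p → CC c (uu p) := fun h =>
    cc_of_suffix ((List.suffix_cons _ c).trans h)
  have t1 := side_true h1
  have t2 := side_true h2
  have t3 := side_false h3
  have t4 := side_false h4
  have h23 : 0 < det (uu x2.1) (uu x3.1) := uu_trans t2 t3
  have h24 : 0 < det (uu x2.1) (uu x4.1) := uu_trans h23 h34
  have h13 : 0 < det (uu x1.1) (uu x3.1) := uu_trans h12 h23
  obtain ⟨-, -, s1, s1'⟩ := hF.pr x1 m1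
  obtain ⟨-, -, s2, s2'⟩ := hF.pr x2 m2
  obtain ⟨-, -, s3, s3'⟩ := hF.pr x3 m3
  obtain ⟨-, -, s4, s4'⟩ := hF.pr x4 m4
  have hD1 : (1 : ℝ) ≤ (D : ℝ) := by exact_mod_cast hF.D1
  have hD2 : (D : ℝ) ≤ (R : ℝ) ^ 2 := by exact_mod_cast hF.D2
  have ha1 : (1 : ℝ) ≤ |(D' : ℝ)| := by exact_mod_cast hF.D'1
  have ha2 : |(D' : ℝ)| ≤ (R : ℝ) ^ 2 := by exact_mod_cast hF.D'2
  have tp : ∀ {p q : List Bool}, (true :: c) <:+ p → (false :: c) <:+ q → Top p q c :=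
    fun hp hq => ⟨(hc1 hp).1, side_true hp, side_false hq, (hc1 hq).2⟩
  have key : ∀ {x y z : PP}, x ∈ S → y ∈ S → z ∈ S → (true :: c) <:+ x.1 → CC c (uu y.1) →
      (false :: c) <:+ z.1 → 0 < det (uu x.1) (uu y.1) → 0 < det (uu y.1) (uu z.1) →
      2 / 3 * ee c ≤ |Hd x.1 y.1 z.1| ∧ |Hd x.1 y.1 z.1| ≤ 9 * (R : ℝ) ^ 4 * ee c ∧
        (D : ℝ) * Hd x.2 y.2 z.2 = D' * Hd x.1 y.1 z.1 := by
    intro x y z hx hy hz h1 h2 h3 h4 h5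
    refine ⟨(hlow (tp h1 h3) h4 h5).trans (le_abs_self _), ?_, fam_Hd hF hx hy hz⟩
    exact hup (hc1 h1) h2 (hc1 h3) (hF.pr x hx).2.2.1 (hF.pr y hy).2.2.1 (hF.pr z hz).2.2.1
  have k124 := key m1 m2 m4 h1 (hc1 h2) h4 h12 h24
  have k134 := key m1 m3 m4 h1 (hc1 h3) h4 h13 h34
  have k234 := key m2 m3 m4 h2 (hc1 h3) h4 h23 h34
  have k123 := key m1 m2 m3 h1 (hc1 h2) h3 h12 h23
  have hD0 : D' ≠ 0 := by
    intro h
    have h5 := hF.D'1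
    rw [h, abs_zero] at h5
    omega
  rcases lt_or_gt_of_ne hD0 with hneg | hpos
  · have kk : ∀ {x y z : PP}, (2 / 3 * ee c ≤ |Hd x.1 y.1 z.1| ∧
        |Hd x.1 y.1 z.1| ≤ 9 * (R : ℝ) ^ 4 * ee c ∧
        (D : ℝ) * Hd x.2 y.2 z.2 = D' * Hd x.1 y.1 z.1) → tabQ R c D D' (Hd z.2 y.2 x.2) := by
      intro x y z h
      refine ⟨-Hd x.1 y.1 z.1, ?_, ?_, ?_⟩
      · rw [abs_neg]
        exact h.1
      · rw [abs_neg]
        exact h.2.1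
      · rw [Hd_rev, mul_neg, mul_neg, h.2.2]
    obtain ⟨d, r1, r2, r3, r4, r5, r6, r7, r8⟩ := tab_core hR gB (hF.hB x4 m4) (hF.hB x1 m1)
      s4' s3' s2' s1' (fam_ord' hF hneg m3 m4 h34) (fam_ord' hF hneg m2 m3 h23)
      (fam_ord' hF hneg m1 m2 h12) hD1 hD2 ha1 ha2 (kk k134) (kk k123) (kk k234)
    refine ⟨d, false, r1, r2, ?_, r6, r5, r4, r3, r7, r8⟩
    constructor
    · intro h
      cases h
    · intro h
      omega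
  · have kk : ∀ {x y z : PP}, (2 / 3 * ee c ≤ |Hd x.1 y.1 z.1| ∧
        |Hd x.1 y.1 z.1| ≤ 9 * (R : ℝ) ^ 4 * ee c ∧
        (D : ℝ) * Hd x.2 y.2 z.2 = D' * Hd x.1 y.1 z.1) → tabQ R c D D' (Hd x.2 y.2 z.2) :=
      fun h => ⟨_, h⟩
    obtain ⟨d, r1, r2, r3, r4, r5, r6, r7, r8⟩ := tab_core hR gB (hF.hB x1 m1) (hF.hB x4 m4)
      s1' s2' s3' s4' (fam_ord hF hpos m1 m2 h12) (fam_ord hF hpos m2 m3 h23)
      (fam_ord hF hpos m3 m4 h34) hD1 hD2 ha1 ha2 (kk k124) (kk k234) (kk k123)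
    exact ⟨d, true, r1, r2, ⟨fun _ => hpos, fun _ => rfl⟩, r3, r4, r5, r6, r7, r8⟩

end Pool.Agent.Lib.MP_94ab62_ntZ
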