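import Pool.Agent.Lib.MP_94ab62_ntZ.TaB
import Pool.Agent.Lib.MP_94ab62_ntZ.TpF

/-!
# TaC: a branching node is matched

Hypotheses: the conclusion of `ev_geo` (here as hypotheses, `x1 ≠ x2`, `x3 ≠ x4`).
`G1 v = D LL (true::c) v - LL (b::d) (M v)`, `G2 v = D LL (false::c) v - LL ((!b)::d) (M v)`: `fam_close` (the first entries lie in `CC (true :: c)`, `CC (false :: c)`: `cc_of_suffix`):
`|G1 v| ≤ 6R^5 (ee (true::c) + ee (b::d)) nm v`, `|G2 v| ≤ 6R^5 (ee (false::c) + ee ((!b)::d)) nm v`.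
`LL_tf`: `G2 v - G1 v = D ee c det (uu c) v - σ ee d det (uu d) (M v)`, `σ = 1` if `b = true`, `σ = -1` if `b = false` (`σ = sign of D'`).
Sum of the four defects: `≤ 4/R^40 (ee c + ee d)` (`ee_cons_good`) and `≤ (12/5) e^(-2 min(kap c, kap d)) (ee c + ee d)` (`ee_b`; `kap c, kap d ≥ min`).
* `v = uu c` (`nm = ss c ≤ R`): `ee d |det (uu d) (M uu c)| ≤ 24 R^6/R^40 (ee c + ee d) ≤ 24 R^(-34) (R^8 + 1) ee d < ee d`: the integer is 0; `solve_uu`: `M (uu c) = k • uu d`.
* `k > 0`: `det u2 u3 • uu c = det (uu c) u3 • u2 + det u2 (uu c) • u3` (`ind_decomp`), so `det u2 u3 • k • uu d = D (det (uu c) u3 • v2 + det u2 (uu c) • v3)`, `det u2 u3, det (uu c) u3, det u2 (uu c) > 0`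
  (`side_true`, `side_false`, `uu_trans`), and `v2, v3, uu d` have positive coordinates.  Put `a = k.toNat`.
* `ρ`: `a * det (uu d) (M (g1 c)) = det (M (uu c)) (M (g1 c)) = D D' det (uu c) (g1 c) = - D D'` (`det_ap`, `hF.dm`, `det (uu c) (g1 c) = det (g2 c) (g1 c) = -1`).  `ρ = |det (uu d) (M (g1 c))|`: `a ρ = |D D'|` and
  `σ det (uu d) (M (g1 c)) = - ρ` (as `σ = sign D'`).
* (M1): `v = g1 c` (`nm ≤ ss c ≤ R`): `|G2 - G1| = |- D ee c + ρ ee d|`.   (M2): `v = uu c`: `LL (true::c) (uu c) = ll c` (`LL_edge2`: `uu c = g2 (true :: c)`), `LL (b::d) (uu d) = ll d`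
  (`uu d` is an edge of `b :: d`), `G1 (uu c) = D ll c - a ll d`.
* `ss c ≤ R`: `c <:+ x1.1`.
-/

set_option autoImplicit false

namespace Pool.Agent.Lib.MP_94ab62_ntZ

open Pool.Agent.Lib.MP_94ab62_nt Pool.Agent.Lib.MP_94ab62_ntU

variable {R : ℕ} {A B : List Bool} {S : Set PP} {D D' : ℤ} {M M' : Mt}

theorem tac_det (b : Bool) (d : List Bool) (w : ℤ × ℤ) :
    LL ((!b) :: d) w - LL (b :: d) w = (if b = true then 1 else -1 : ℝ) * (ee d * (det (uu d) w : ℝ)) := by
  cases b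
  · have := LL_tf d w
    simp only [Bool.not_false, Bool.false_eq_true, if_false]
    linarith
  · have := LL_tf d w
    simp only [Bool.not_true, if_true]
    linarith

theorem tac_ll (b : Bool) (d : List Bool) : ll d = LL (b :: d) (uu d) := by
  cases b
  · exact LL_edge1 rfl
  · exact LL_edge2 rfl

theorem tac_cc {b : Bool} {c p : List Bool} (h : (b :: c) <:+ p) : CC (b :: c) (uu p) := cc_of_suffix h

theorem tac_k {D k : ℤ} {M : Mt} {c d p2 p3 q2 q3 : List Bool} (hD : 1 ≤ D) (h2 : 0 < det (uu p2) (uu c))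
    (h3 : 0 < det (uu c) (uu p3)) (e2 : D • uu q2 = ap M (uu p2)) (e3 : D • uu q3 = ap M (uu p3))
    (hk : ap M (uu c) = k • uu d) : 0 < k := by
  have h23 := uu_trans h2 h3
  have hi := ind_decomp (uu p2) (uu p3) (uu c)
  have hM : ap M (det (uu p2) (uu p3) • uu c)
      = ap M (det (uu c) (uu p3) • uu p2 + det (uu p2) (uu c) • uu p3) := by rw [← hi]
  rw [ap_smul, ap_add, ap_smul, ap_smul, hk, ← e2, ← e3] at hM
  have hM1 := congrArg Prod.fst hM
  simp only [Prod.smul_fst, Prod.fst_add, smul_eq_mul] at hM1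
  have a1 := (uu_pos q2).1
  have a2 := (uu_pos q3).1
  have a3 := (uu_pos d).1
  have hpos : 0 < det (uu p2) (uu p3) * (k * (uu d).1) := by
    rw [hM1]
    have b1 : 0 < det (uu c) (uu p3) * (D * (uu q2).1) := by positivity
    have b2 : 0 < det (uu p2) (uu c) * (D * (uu q3).1) := by positivity
    linarith
  have hk2 : 0 < k * (uu d).1 := by
    by_contra hcon
    push Not at hcon
    nlinarith
  by_contra hcon
  push Not at hcon
  nlinarith

theorem ev_mat (hF : Fam R A B S D D' M M') (gA : Gd R A) (gB : Gd R B) {c d : List Bool} {b : Bool} (hc : A <:+ c)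
    (hd : B <:+ d) (sd : ss d ≤ R) (hb : b = true ↔ 0 < D')
    {x1 x2 x3 x4 : PP} (m1 : x1 ∈ S) (m2 : x2 ∈ S) (m3 : x3 ∈ S) (m4 : x4 ∈ S) (h1 : (true :: c) <:+ x1.1)
    (h2 : (true :: c) <:+ x2.1) (h3 : (false :: c) <:+ x3.1) (h4 : (false :: c) <:+ x4.1)
    (h12 : x1 ≠ x2) (h34 : x3 ≠ x4)
    (k1 : CC (b :: d) (uu x1.2)) (k2 : CC (b :: d) (uu x2.2)) (k3 : CC ((!b) :: d) (uu x3.2))
    (k4 : CC ((!b) :: d) (uu x4.2)) (e1 : ee c ≤ (R : ℝ) ^ 8 * ee d) (e2 : ee d ≤ (R : ℝ) ^ 8 * ee c) :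
    ∃ a ρ : ℕ, 1 ≤ a ∧ Mat M a c d ∧ (a : ℤ) * ρ = |D * D'| ∧
      |D * ee c - ρ * ee d| ≤ 30 * (R : ℝ) ^ 6 * Real.exp (-(2 * min (kap c) (kap d))) * (ee c + ee d) ∧
      |D * ll c - a * ll d| ≤ 30 * (R : ℝ) ^ 6 * Real.exp (-(2 * min (kap c) (kap d))) * (ee c + ee d) := by
  have hR := hF.hR
  have hR1 : 1 ≤ R := by omega
  have hRr : (100 : ℝ) ≤ R := by exact_mod_cast hR
  have hR0 : (0 : ℝ) < R := by linarith
  have hD1 := hF.D1
  have gc : Gd R c := Gd_suffix hc gA
  have gd : Gd R d := Gd_suffix hd gB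
  have sc : ss c ≤ R := by
    have q1 : ss (true :: c) ≤ ss x1.1 := ss_suffix h1
    have q2 := ss_cons_lt true c
    have q3 := (hF.pr x1 m1).2.2.1
    omega
  have hG1 := fam_close hF m1 m2 h12 (tac_cc h1) (tac_cc h2) k1 k2
  have hG2 := fam_close hF m3 m4 h34 (tac_cc h3) (tac_cc h4) k3 k4
  have ec := ee_pos c
  have ed := ee_pos d
  have ect := ee_pos (true :: c)
  have ecf := ee_pos (false :: c)
  have edb := ee_pos (b :: d)
  have edb' := ee_pos ((!b) :: d)
  set E : ℝ := ee (true :: c) + ee (b :: d) with hE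
  set E' : ℝ := ee (false :: c) + ee ((!b) :: d) with hE'
  have hE0 : 0 < E := by positivity
  have hE'0 : 0 < E' := by positivity
  -- two bounds for the sum
  have s1 : E + E' ≤ 4 / (R : ℝ) ^ 40 * (ee c + ee d) := by
    have t1 := ee_cons_good hR1 gc true
    have t2 := ee_cons_good hR1 gc false
    have t3 := ee_cons_good hR1 gd b
    have t4 := ee_cons_good hR1 gd (!b)
    have : 4 / (R : ℝ) ^ 40 * (ee c + ee d) = 2 * (2 / (R : ℝ) ^ 40 * ee c) + 2 * (2 / (R : ℝ) ^ 40 * ee d) := by ring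
    rw [this]
    linarith
  set κ : ℝ := min (kap c) (kap d) with hκ
  have s2 : E + E' ≤ 12 / 5 * Real.exp (-(2 * κ)) * (ee c + ee d) := by
    have u1 : Real.exp (-(2 * kap c)) ≤ Real.exp (-(2 * κ)) := by
      apply Real.exp_le_exp.2
      have := min_le_left (kap c) (kap d)
      linarith
    have u2 : Real.exp (-(2 * kap d)) ≤ Real.exp (-(2 * κ)) := by
      apply Real.exp_le_exp.2
      have := min_le_right (kap c) (kap d)
      linarith
    have t1 := ee_b true c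
    have t2 := ee_b false c
    have t3 := ee_b b d
    have t4 := ee_b (!b) d
    have v1 : 6 / 5 * Real.exp (-(2 * kap c)) * ee c ≤ 6 / 5 * Real.exp (-(2 * κ)) * ee c := by
      apply mul_le_mul_of_nonneg_right _ ec.le
      linarith
    have v2 : 6 / 5 * Real.exp (-(2 * kap d)) * ee d ≤ 6 / 5 * Real.exp (-(2 * κ)) * ee d := by
      apply mul_le_mul_of_nonneg_right _ ed.le
      linarith
    have : 12 / 5 * Real.exp (-(2 * κ)) * (ee c + ee d)
        = 2 * (6 / 5 * Real.exp (-(2 * κ)) * ee c) + 2 * (6 / 5 * Real.exp (-(2 * κ)) * ee d) := by ring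
    rw [this]
    linarith
  -- difference
  have hdiff : ∀ v : ℤ × ℤ, |(D : ℝ) * (ee c * (det (uu c) v : ℝ))
      - (if b = true then 1 else -1 : ℝ) * (ee d * (det (uu d) (ap M v) : ℝ))| ≤ 6 * (R : ℝ) ^ 5 * (E + E') * nm v := by
    intro v
    have a1 := hG1 v
    have a2 := hG2 v
    have a3 := LL_tf c v
    have a4 := tac_det b d (ap M v)
    have hid : (D : ℝ) * (ee c * (det (uu c) v : ℝ))
      - (if b = true then 1 else -1 : ℝ) * (ee d * (det (uu d) (ap M v) : ℝ))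
      = ((D : ℝ) * LL (false :: c) v - LL ((!b) :: d) (ap M v)) - ((D : ℝ) * LL (true :: c) v - LL (b :: d) (ap M v)) := by
      rw [← a3, ← a4]; ring
    rw [hid]
    calc _ ≤ |(D : ℝ) * LL (false :: c) v - LL ((!b) :: d) (ap M v)| + |(D : ℝ) * LL (true :: c) v - LL (b :: d) (ap M v)| :=
          abs_sub _ _
      _ ≤ 6 * (R : ℝ) ^ 5 * E' * nm v + 6 * (R : ℝ) ^ 5 * E * nm v := add_le_add a2 a1
      _ = _ := by ring
  have hsg : |(if b = true then 1 else -1 : ℝ)| = 1 := by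
    split_ifs <;> simp
  have hnu : nm (uu c) ≤ R := by
    rw [nm_uu]; exact_mod_cast sc
  have hnu0 := nm_nonneg (uu c)
  -- det (uu d) (M (uu c)) = 0
  have hz : det (uu d) (ap M (uu c)) = 0 := by
    have a1 := hdiff (uu c)
    rw [det_self] at a1
    simp only [Int.cast_zero, mul_zero, zero_sub, abs_neg] at a1
    rw [abs_mul, hsg, one_mul, abs_mul, abs_of_pos ed] at a1
    have a2 : 6 * (R : ℝ) ^ 5 * (E + E') * nm (uu c) ≤ 6 * (R : ℝ) ^ 5 * (4 / (R : ℝ) ^ 40 * (ee c + ee d)) * R := by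
      apply mul_le_mul _ hnu hnu0 (by positivity)
      apply mul_le_mul_of_nonneg_left s1 (by positivity)
    have a3 : 6 * (R : ℝ) ^ 5 * (4 / (R : ℝ) ^ 40 * (ee c + ee d)) * R < ee d := by
      have b1 : ee c + ee d ≤ 2 * (R : ℝ) ^ 8 * ee d := by
        have : ee d ≤ (R : ℝ) ^ 8 * ee d := by
          have : (1 : ℝ) ≤ (R : ℝ) ^ 8 := one_le_pow₀ (by linarith)
          nlinarith
        linarith
      have b2 : 6 * (R : ℝ) ^ 5 * (4 / (R : ℝ) ^ 40 * (ee c + ee d)) * R
          ≤ 6 * (R : ℝ) ^ 5 * (4 / (R : ℝ) ^ 40 * (2 * (R : ℝ) ^ 8 * ee d)) * R := by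
        apply mul_le_mul_of_nonneg_right _ hR0.le
        apply mul_le_mul_of_nonneg_left _ (by positivity)
        apply mul_le_mul_of_nonneg_left b1 (by positivity)
      have b3 : 6 * (R : ℝ) ^ 5 * (4 / (R : ℝ) ^ 40 * (2 * (R : ℝ) ^ 8 * ee d)) * R = 48 / (R : ℝ) ^ 26 * ee d := by
        have h40 : (R : ℝ) ^ 40 = (R : ℝ) ^ 26 * (R : ℝ) ^ 14 := by ring
        rw [h40]
        field_simp
        ring
      have b4 : 48 / (R : ℝ) ^ 26 < 1 := by
        rw [div_lt_one (by positivity)]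
        have : (R : ℝ) ≤ (R : ℝ) ^ 26 := by
          have := pow_le_pow_right₀ (show (1 : ℝ) ≤ R by linarith) (show 1 ≤ 26 by norm_num)
          simpa using this
        linarith
      have b5 : 48 / (R : ℝ) ^ 26 * ee d < 1 * ee d := mul_lt_mul_of_pos_right b4 ed
      linarith
    have a4 : ee d * |(det (uu d) (ap M (uu c)) : ℝ)| < ee d * 1 := by linarith
    have a5 : |(det (uu d) (ap M (uu c)) : ℝ)| < 1 := lt_of_mul_lt_mul_left a4 ed.le
    have a6 : |det (uu d) (ap M (uu c))| < 1 := by exact_mod_cast a5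
    exact Int.abs_lt_one_iff.1 a6
  have hz' : det (ap M (uu c)) (uu d) = 0 := by rw [det_swap, hz, neg_zero]
  obtain ⟨k, hk⟩ := solve_uu hz'
  have hkpos : 0 < k := tac_k hD1 (side_true h2) (side_false h3) (hF.e1 x2 m2) (hF.e1 x3 m3) hk
  have hkc : ((k.toNat : ℕ) : ℤ) = k := Int.toNat_of_nonneg hkpos.le
  -- the multiplier
  have hdg : det (uu c) (g1 c) = -1 := by
    have h := det_g c
    have h' : det (uu c) (g1 c) = det (g1 c) (g1 c) + det (g2 c) (g1 c) := by
      unfold uu; rw [det_add_left]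
    rw [h', det_self, det_swap (g2 c) (g1 c), h]
    norm_num
  have hkr : k * det (uu d) (ap M (g1 c)) = -(D * D') := by
    rw [← det_smul_left, ← hk, det_ap, hF.dm, hdg]; ring
  set r : ℤ := det (uu d) (ap M (g1 c)) with hr
  have hsr : (if b = true then 1 else -1 : ℝ) * (r : ℝ) = -(|r| : ℤ) := by
    by_cases hbt : b = true
    · have hD' := hb.1 hbt
      have : r < 0 := by
        by_contra hcon
        push Not at hcon
        have w1 : 0 < D * D' := by positivity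
        nlinarith
      rw [if_pos hbt, abs_of_neg this]
      push_cast
      ring
    · have hD' : D' < 0 := by
        have w0 := hF.D'1
        have w1 : ¬ 0 < D' := fun h => hbt (hb.2 h)
        rcases lt_trichotomy D' 0 with h | h | h
        · exact h
        · rw [h] at w0; simp at w0
        · exact absurd h w1
      have : 0 < r := by
        by_contra hcon
        push Not at hcon
        have w1 : D * D' < 0 := mul_neg_of_pos_of_neg (by linarith) hD'
        nlinarith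
      rw [if_neg hbt, abs_of_pos this]
      ring
  have hfin : ∀ w : ℝ, 0 ≤ w → w ≤ R → 6 * (R : ℝ) ^ 5 * (E + E') * w
      ≤ 30 * (R : ℝ) ^ 6 * Real.exp (-(2 * κ)) * (ee c + ee d) := by
    intro w w0 w1
    calc 6 * (R : ℝ) ^ 5 * (E + E') * w ≤ 6 * (R : ℝ) ^ 5 * (12 / 5 * Real.exp (-(2 * κ)) * (ee c + ee d)) * R := by
          apply mul_le_mul _ w1 w0 (by positivity)
          apply mul_le_mul_of_nonneg_left s2 (by positivity)
      _ = 72 / 5 * ((R : ℝ) ^ 6 * Real.exp (-(2 * κ)) * (ee c + ee d)) := by ring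
      _ ≤ 30 * ((R : ℝ) ^ 6 * Real.exp (-(2 * κ)) * (ee c + ee d)) := by
          apply mul_le_mul_of_nonneg_right (by norm_num) (by positivity)
      _ = _ := by ring
  refine ⟨k.toNat, r.natAbs, by omega, ?_, ?_, ?_, ?_⟩
  · show ap M (uu c) = ((k.toNat : ℕ) : ℤ) • uu d
    rw [hkc, hk]
  · rw [hkc, Int.natCast_natAbs]
    have : |k * r| = |D * D'| := by rw [hkr, abs_neg]
    rw [abs_mul, abs_of_pos hkpos] at this
    exact this
  · have a1 := hdiff (g1 c)
    rw [hdg, ← hr] at a1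
    have hng : nm (g1 c) ≤ R := by
      rw [nm_g1]
      have : Pool.Agent.Lib.MP_94ab62_ntU.m1 c ≤ ss c := by unfold ss; omega
      exact_mod_cast this.trans sc
    have a2 := a1.trans (hfin _ (nm_nonneg _) hng)
    have a3 : (D : ℝ) * (ee c * ((-1 : ℤ) : ℝ)) - (if b = true then 1 else -1 : ℝ) * (ee d * (r : ℝ))
        = -((D : ℝ) * ee c - ((r.natAbs : ℕ) : ℝ) * ee d) := by
      have : (if b = true then 1 else -1 : ℝ) * (ee d * (r : ℝ)) = ee d * ((if b = true then 1 else -1 : ℝ) * (r : ℝ)) := by ring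
      rw [this, hsr]
      have hc2 : ((r.natAbs : ℕ) : ℝ) = ((|r| : ℤ) : ℝ) := by
        exact Nat.cast_natAbs r
      rw [hc2]
      push_cast
      ring
    rw [a3, abs_neg] at a2
    exact a2
  · have a1 := hG1 (uu c)
    rw [hk, LL_smul, ← tac_ll b d, ← tac_ll true c] at a1
    have hkc' : (k : ℝ) = ((k.toNat : ℕ) : ℝ) := by
      exact_mod_cast hkc.symm
    rw [hkc'] at a1
    refine a1.trans (le_trans ?_ (hfin _ hnu0 hnu))
    apply mul_le_mul_of_nonneg_right _ hnu0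
    apply mul_le_mul_of_nonneg_left _ (by positivity)
    linarith

end Pool.Agent.Lib.MP_94ab62_ntZ
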