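import Pool.Agent.Lib.MP_94ab62_ntZ.TpF

/-!
# TaD: numerical consequences of a match

Put `θ = e^(-2 min(kap c, kap d)) ≤ R^(-40)` (`Gd`: `kap ≥ 20 log R`), `D = Dn` natural, `1 ≤ Dn ≤ R^2`, `1 ≤ a`, `1 ≤ ρ`, `a ρ ≤ R^4`, `R ≥ 100`.
(1) `r = ee c / ee d ∈ [R^-8, R^8]`.  (M1)/(D ee d): `|r - ρ/D| ≤ 30 R^6 θ (r + 1) ≤ 31 R^14 θ =: τ ≤ R^(-20)`; `ρ/D ≥ R^-2 ≥ 2τ`; `|log r - log (ρ/D)| ≤ 2 τ/(ρ/D) ≤ 62 R^16 θ`
    (`|log x - log y| ≤ |x-y|/min x y`, `min ≥ ρ/(2D)`).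
(2) `ee_asy`: `ee c e^(2 ll c)/4 = 1 + O(20θ)` so `|log ee c - log 4 + 2 ll c| ≤ 21 θ` (`20 θ ≤ 1/100`), same for `d`.  So `|2 (ll d - ll c) - log (ρ/D)| ≤ 62 R^16 θ + 42 θ ≤ 63 R^16 θ`.
(3) (M2)/D: `|ll c - (a/D) ll d| ≤ 30 R^6 θ (ee c + ee d) ≤ 3 R^6 θ` (`ee_small`: `ee ≤ 1/20`).  `|ll c - ll d| ≤ (log (R^8) + 1)/2 ≤ 4 log R + 1/2` from (2) and `r ∈ [R^-8,R^8]` (use `log r`), `ll d ≥ kap ≥ 20 log R ≥ 90`
    (`kap d ≤ ll d`: `fa_lt_fc`), so `a/D ≤ 2`.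
(4) So `|2 (1 - a/D) ll d - log (ρ/D)| ≤ 64 R^16 θ`.
* `num_ne` (`a ≠ D`): `|1 - a/D| ≥ 1/D ≥ R^-2`: divide (4) by `2 |1 - a/D|`: `|ll d - x'| ≤ 32 R^18 θ ≤ R^20 θ`, `x' = log (ρ/D)/(2 (1 - a/D))`; `|ll c - (a/D) x'| ≤ 3 R^6 θ + 2 * 32 R^18 θ ≤ R^20 θ`.
* `num_eq` (`a = D`): (4): `|log (ρ/D)| ≤ 64 R^16 θ ≤ R^(-20)`; if `ρ ≠ D` then `|ρ/D - 1| ≥ 1/D ≥ R^-2` so `|log (ρ/D)| ≥ R^-2/2...` (`log (1+x) ≥ x/2` for `0≤x≤1`, `-log (1-x) ≥ x`; `ρ/D ≥ 1 + R^-2` or `≤ 1 - R^-2`):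
   contradiction.  So `ρ = D`.  `zz c = zz d`: `|ll c - ll d| ≤ 30 R^6 θ (ee c + ee d) ≤ 60 R^14 θ ee c ≤ 480 R^14 θ e^(-2 ll c)` (`ee_le_ll`); `zz_of_ll`.
* `num_sq` (`a ρ = D^2`): if `a ≠ D`, `x = a/D`, `ρ/D = 1/x`: (4): `2 |1-x| ll d ≤ |log x| + 64 R^16 θ`; `|log x| ≤ |1-x| (1 + 2 log R)`: for `x ≥ 1` `log x ≤ x - 1`; for `x < 1`: `log (1/x) ≤ (1-x)(1 + log (1/x))` since
   `x log (1/x) ≤ 1 - x` (`log t ≤ t - 1`, `t = 1/x`), and `log (1/x) ≤ log D ≤ 2 log R`.  Divide by `|1-x| ≥ R^-2`: `2 ll d ≤ 1 + 2 log R + 64 R^18 θ ≤ 2 + 2 log R < 40 log R`: contradiction.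
-/

set_option autoImplicit false

namespace Pool.Agent.Lib.MP_94ab62_ntZ

open Pool.Agent.Lib.MP_94ab62_nt Pool.Agent.Lib.MP_94ab62_ntU

/-- the numerical data of a matched pair of nodes -/
structure NumD (R Dn a ρ : ℕ) (c d : List Bool) : Prop where
  hR : 100 ≤ R
  gc : Gd R c
  gd : Gd R d
  D1 : 1 ≤ Dn
  D2 : Dn ≤ R ^ 2
  a1 : 1 ≤ a
  r1 : 1 ≤ ρ
  ar : a * ρ ≤ R ^ 4
  e1 : ee c ≤ (R : ℝ) ^ 8 * ee d
  e2 : ee d ≤ (R : ℝ) ^ 8 * ee c
  M1 : |Dn * ee c - ρ * ee d| ≤ 30 * (R : ℝ) ^ 6 * Real.exp (-(2 * min (kap c) (kap d))) * (ee c + ee d)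
  M2 : |Dn * ll c - a * ll d| ≤ 30 * (R : ℝ) ^ 6 * Real.exp (-(2 * min (kap c) (kap d))) * (ee c + ee d)

private theorem tad_log {y δ : ℝ} (h : |y - 1| ≤ δ) (hδ : δ ≤ 1 / 2) : |Real.log y| ≤ 2 * δ := by
  obtain ⟨h1, h2⟩ := abs_le.1 h
  have hy : 0 < y := by linarith
  have h3 := Real.log_le_sub_one_of_pos hy
  have h4 := Real.one_sub_inv_le_log_of_pos hy
  have h5 : -(2 * δ) ≤ 1 - y⁻¹ := by
    have h6 : 1 - y⁻¹ = (y - 1) / y := by field_simp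
    rw [h6, le_div_iff₀ hy]
    nlinarith
  rw [abs_le]
  constructor
  · linarith
  · linarith

private theorem tad_pow {r θ : ℝ} (hr : 100 ≤ r) (hθ0 : 0 < θ) (hθ : r ^ 40 * θ ≤ 1) {n : ℕ} (hn : n ≤ 37) :
    r ^ n * θ ≤ 1 / 1000000 := by
  have h1 : r ^ (n + 3) ≤ r ^ 40 := pow_le_pow_right₀ (by linarith) (by omega)
  have h2 : r ^ (n + 3) * θ ≤ r ^ 40 * θ := mul_le_mul_of_nonneg_right h1 hθ0.le
  have h3 : (1000000 : ℝ) ≤ r ^ 3 := by
    have h4 : (100 : ℝ) ^ 3 ≤ r ^ 3 := pow_le_pow_left₀ (by norm_num) hr 3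
    norm_num at h4
    exact h4
  have h5 : r ^ (n + 3) * θ = r ^ 3 * (r ^ n * θ) := by ring
  have h6 : 0 < r ^ n * θ := by positivity
  have h7 : 1000000 * (r ^ n * θ) ≤ r ^ 3 * (r ^ n * θ) := mul_le_mul_of_nonneg_right h3 h6.le
  linarith

private theorem tad_core {r D a ρ θ ec ed lc ld : ℝ} (hr : 100 ≤ r) (hD1 : 1 ≤ D)
    (hρ : 1 ≤ ρ) (hec : 0 < ec) (hed : 0 < ed) (sc : ec ≤ 1 / 20) (sd : ed ≤ 1 / 20)
    (e1 : ec ≤ r ^ 8 * ed) (e2 : ed ≤ r ^ 8 * ec) (hθ0 : 0 < θ) (hθ : r ^ 40 * θ ≤ 1)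
    (M1 : |D * ec - ρ * ed| ≤ 30 * r ^ 6 * θ * (ec + ed))
    (M2 : |D * lc - a * ld| ≤ 30 * r ^ 6 * θ * (ec + ed))
    (A1 : |ec * Real.exp (2 * lc) / 4 - 1| ≤ 20 * θ) (A2 : |ed * Real.exp (2 * ld) / 4 - 1| ≤ 20 * θ) :
    |2 * (ld - lc) - Real.log (ρ / D)| ≤ 63 * (r ^ 16 * θ) ∧ |lc - a / D * ld| ≤ 3 * (r ^ 6 * θ) ∧
      |ld - lc| ≤ 4 * Real.log r + 1 / 2 := by
  have hr0 : 0 < r := by linarith
  have hD0 : 0 < D := by linarith
  have hρ0 : 0 < ρ := by linarith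
  have hθs := tad_pow hr hθ0 hθ (n := 0) (by norm_num)
  have h14 := tad_pow hr hθ0 hθ (n := 14) (by norm_num)
  rw [pow_zero, one_mul] at hθs
  have l1 := tad_log A1 (by linarith)
  have l2 := tad_log A2 (by linarith)
  have hexp : ∀ (e l : ℝ), 0 < e →
      Real.log (e * Real.exp (2 * l) / 4) = Real.log e + 2 * l - Real.log 4 := by
    intro e l he
    rw [Real.log_div (mul_pos he (Real.exp_pos _)).ne' (by norm_num),
      Real.log_mul he.ne' (Real.exp_pos _).ne', Real.log_exp]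
  rw [hexp ec lc hec] at l1
  rw [hexp ed ld hed] at l2
  have h1r8 : 1 ≤ r ^ 8 := one_le_pow₀ (by linarith)
  have hy : |D * ec / (ρ * ed) - 1| ≤ 31 * (r ^ 14 * θ) := by
    have h1 : D * ec / (ρ * ed) - 1 = (D * ec - ρ * ed) / (ρ * ed) := by field_simp
    rw [h1, abs_div, abs_of_pos (show 0 < ρ * ed by positivity), div_le_iff₀ (by positivity)]
    refine M1.trans ?_
    have h2 : ec + ed ≤ (r ^ 8 + 1) * ed := by linarith
    have h3 : 30 * r ^ 6 * θ * (ec + ed) ≤ 30 * r ^ 6 * θ * ((r ^ 8 + 1) * ed) :=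
      mul_le_mul_of_nonneg_left h2 (by positivity)
    have h4 : 30 * (r ^ 8 + 1) ≤ 31 * r ^ 8 := by
      have h5 : (30 : ℝ) ≤ r ^ 8 := by
        have h6 : r ^ 1 ≤ r ^ 8 := pow_le_pow_right₀ (by linarith) (by norm_num)
        rw [pow_one] at h6
        linarith
      linarith
    have h5 : 30 * r ^ 6 * θ * ((r ^ 8 + 1) * ed) = 30 * (r ^ 8 + 1) * (r ^ 6 * θ * ed) := by ring
    have h6 : 30 * (r ^ 8 + 1) * (r ^ 6 * θ * ed) ≤ 31 * r ^ 8 * (r ^ 6 * θ * ed) :=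
      mul_le_mul_of_nonneg_right h4 (by positivity)
    have h7 : 31 * r ^ 8 * (r ^ 6 * θ * ed) = 31 * (r ^ 14 * θ) * ed := by ring
    have h8 : 31 * (r ^ 14 * θ) * ed ≤ 31 * (r ^ 14 * θ) * (ρ * ed) := by
      apply mul_le_mul_of_nonneg_left _ (by positivity)
      nlinarith
    linarith
  have l3 := tad_log hy (by linarith)
  have e3 : Real.log (D * ec / (ρ * ed)) = Real.log ec - Real.log ed - Real.log (ρ / D) := by
    rw [Real.log_div (by positivity) (by positivity), Real.log_mul hD0.ne' hec.ne',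
      Real.log_mul hρ0.ne' hed.ne', Real.log_div hρ0.ne' hD0.ne']
    ring
  rw [e3] at l3
  have hq1 : Real.log ec ≤ 8 * Real.log r + Real.log ed := by
    have h1 := Real.log_le_log hec e1
    rw [Real.log_mul (by positivity) hed.ne', Real.log_pow] at h1
    push_cast at h1
    linarith
  have hq2 : Real.log ed ≤ 8 * Real.log r + Real.log ec := by
    have h1 := Real.log_le_log hed e2
    rw [Real.log_mul (by positivity) hec.ne', Real.log_pow] at h1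
    push_cast at h1
    linarith
  have h1416 : r ^ 14 * θ * 10000 ≤ r ^ 16 * θ := by
    have h1 : (10000 : ℝ) ≤ r ^ 2 := by nlinarith
    have h2 : r ^ 16 * θ = r ^ 14 * θ * r ^ 2 := by ring
    rw [h2]
    exact mul_le_mul_of_nonneg_left h1 (by positivity)
  have h14θ : θ ≤ r ^ 14 * θ := by
    have h1 : 1 ≤ r ^ 14 := one_le_pow₀ (by linarith)
    nlinarith
  have a1 := abs_le.1 l1
  have a2 := abs_le.1 l2
  have a3 := abs_le.1 l3
  refine ⟨?_, ?_, ?_⟩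
  · rw [abs_le]
    constructor
    · linarith [a1.1, a1.2, a2.1, a2.2, a3.1, a3.2]
    · linarith [a1.1, a1.2, a2.1, a2.2, a3.1, a3.2]
  · have h1 : lc - a / D * ld = (D * lc - a * ld) / D := by field_simp
    rw [h1, abs_div, abs_of_pos hD0, div_le_iff₀ hD0]
    refine M2.trans ?_
    have h2 : 30 * r ^ 6 * θ * (ec + ed) ≤ 30 * r ^ 6 * θ * (1 / 10) :=
      mul_le_mul_of_nonneg_left (by linarith) (by positivity)
    have h3 : 3 * (r ^ 6 * θ) * 1 ≤ 3 * (r ^ 6 * θ) * D :=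
      mul_le_mul_of_nonneg_left hD1 (by positivity)
    linarith
  · rw [abs_le]
    constructor
    · linarith [a1.1, a1.2, a2.1, a2.2]
    · linarith [a1.1, a1.2, a2.1, a2.2]

private theorem tad_facts {R Dn a ρ : ℕ} {c d : List Bool} (h : NumD R Dn a ρ c d) :
    (R : ℝ) ^ 40 * Real.exp (-(2 * min (kap c) (kap d))) ≤ 1 ∧
    |2 * (ll d - ll c) - Real.log (ρ / Dn)| ≤
      63 * ((R : ℝ) ^ 16 * Real.exp (-(2 * min (kap c) (kap d)))) ∧
    |ll c - a / Dn * ll d| ≤ 3 * ((R : ℝ) ^ 6 * Real.exp (-(2 * min (kap c) (kap d)))) ∧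
      |ll d - ll c| ≤ 4 * Real.log R + 1 / 2 ∧ 20 * Real.log R ≤ ll d ∧ 4 ≤ Real.log R := by
  have hr : (100 : ℝ) ≤ R := by exact_mod_cast h.hR
  have hr0 : (0 : ℝ) < R := by linarith
  have hlog : 4 ≤ Real.log R := by
    have h1 : Real.log 100 ≤ Real.log R := Real.log_le_log (by norm_num) hr
    have h2 : (4 : ℝ) ≤ Real.log 100 := by
      rw [Real.le_log_iff_exp_le (by norm_num)]
      have h3 := Real.exp_one_lt_d9
      have h4 : Real.exp 4 = Real.exp 1 ^ 4 := by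
        rw [← Real.exp_nat_mul]
        norm_num
      rw [h4]
      calc Real.exp 1 ^ 4 ≤ (3 : ℝ) ^ 4 := pow_le_pow_left₀ (Real.exp_pos _).le (by linarith) 4
        _ ≤ 100 := by norm_num
    linarith
  have kc := kap_gd.1 h.gc
  have kd := kap_gd.1 h.gd
  have hmin : 20 * Real.log R ≤ min (kap c) (kap d) := le_min kc kd
  have hθ : (R : ℝ) ^ 40 * Real.exp (-(2 * min (kap c) (kap d))) ≤ 1 := by
    have h1 : (R : ℝ) ^ 40 = Real.exp (40 * Real.log R) := by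
      have h2 := Real.exp_nat_mul (Real.log R) 40
      rw [Real.exp_log hr0] at h2
      rw [← h2]
      norm_num
    rw [h1, ← Real.exp_add]
    apply Real.exp_le_one_iff.2
    linarith
  have hθ0 := Real.exp_pos (-(2 * min (kap c) (kap d)))
  have A1 := ee_asy (p := c) (by linarith)
  have A2 := ee_asy (p := d) (by linarith)
  have c1 : Real.exp (-(2 * kap c)) ≤ Real.exp (-(2 * min (kap c) (kap d))) :=
    Real.exp_le_exp.2 (by linarith [min_le_left (kap c) (kap d)])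
  have c2 : Real.exp (-(2 * kap d)) ≤ Real.exp (-(2 * min (kap c) (kap d))) :=
    Real.exp_le_exp.2 (by linarith [min_le_right (kap c) (kap d)])
  have hcore := tad_core (r := R) (D := Dn) (a := a) (ρ := ρ) hr (by exact_mod_cast h.D1)
    (by exact_mod_cast h.r1) (ee_pos c) (ee_pos d) (ee_small c) (ee_small d) h.e1 h.e2 hθ0 hθ
    h.M1 h.M2 (A1.trans (by linarith)) (A2.trans (by linarith))
  refine ⟨hθ, hcore.1, hcore.2.1, hcore.2.2, ?_, hlog⟩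
  have h1 : kap d ≤ fa (tn d) := min_le_left _ _
  have h2 : fa (tn d) < ll d := fa_lt_fc (good_tn d)
  linarith

private theorem tad_four {r D a ρ θ lc ld : ℝ} (hr : 100 ≤ r) (hθ0 : 0 < θ)
    (h1 : |2 * (ld - lc) - Real.log (ρ / D)| ≤ 63 * (r ^ 16 * θ))
    (h2 : |lc - a / D * ld| ≤ 3 * (r ^ 6 * θ)) :
    |2 * (1 - a / D) * ld - Real.log (ρ / D)| ≤ 64 * (r ^ 16 * θ) := by
  have h3 : 6 * (r ^ 6 * θ) ≤ r ^ 16 * θ := by
    have h4 : (6 : ℝ) ≤ r ^ 10 := by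
      have h5 : r ^ 1 ≤ r ^ 10 := pow_le_pow_right₀ (by linarith) (by norm_num)
      rw [pow_one] at h5
      linarith
    have h6 : r ^ 16 * θ = r ^ 10 * (r ^ 6 * θ) := by ring
    rw [h6]
    exact mul_le_mul_of_nonneg_right h4 (by positivity)
  obtain ⟨a1, a2⟩ := abs_le.1 h1
  obtain ⟨a3, a4⟩ := abs_le.1 h2
  rw [abs_le]
  constructor
  · linarith
  · linarith

/-- a difference of natural numbers, divided -/
private theorem tad_gap {a D r : ℝ} {a' D' : ℕ} (ha : a = a') (hD : D = D') (hne : a' ≠ D') (hD1 : 1 ≤ D)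
    (hD2 : D ≤ r ^ 2) : 1 ≤ r ^ 2 * |1 - a / D| := by
  have hD0 : 0 < D := by linarith
  have h1 : 1 - a / D = (D - a) / D := by field_simp
  have h2 : 1 ≤ |D - a| := by
    have h3 : ((D' : ℤ) - a') ≠ 0 := by
      intro h
      apply hne
      omega
    have h4 : (1 : ℤ) ≤ |(D' : ℤ) - a'| := Int.one_le_abs h3
    have h5 : ((1 : ℤ) : ℝ) ≤ ((|(D' : ℤ) - a'| : ℤ) : ℝ) := by exact_mod_cast h4
    push_cast at h5
    rw [ha, hD]
    exact h5
  rw [h1, abs_div, abs_of_pos hD0]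
  have h3 : 1 ≤ r ^ 2 / D := by
    rw [le_div_iff₀ hD0]
    linarith
  have h4 : r ^ 2 * (|D - a| / D) = r ^ 2 / D * |D - a| := by ring
  rw [h4]
  nlinarith [abs_nonneg (D - a)]

theorem num_ne {R Dn a ρ : ℕ} {c d : List Bool} (h : NumD R Dn a ρ c d) (hne : a ≠ Dn) :
    |ll c - a / Dn * (Real.log (ρ / Dn) / (2 * (1 - a / Dn)))| ≤
        (R : ℝ) ^ 20 * Real.exp (-(2 * min (kap c) (kap d))) ∧
      |ll d - Real.log (ρ / Dn) / (2 * (1 - a / Dn))| ≤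
        (R : ℝ) ^ 20 * Real.exp (-(2 * min (kap c) (kap d))) := by
  obtain ⟨f0, f1, f2, f3, f4, f5⟩ := tad_facts h
  have hr : (100 : ℝ) ≤ R := by exact_mod_cast h.hR
  have hD1 : (1 : ℝ) ≤ Dn := by exact_mod_cast h.D1
  have hD2 : (Dn : ℝ) ≤ (R : ℝ) ^ 2 := by exact_mod_cast h.D2
  have ha1 : (1 : ℝ) ≤ a := by exact_mod_cast h.a1
  have hθ0 := Real.exp_pos (-(2 * min (kap c) (kap d)))
  have hg := tad_gap (r := R) (a := a) (D := Dn) rfl rfl hne hD1 hD2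
  have f6 := tad_four hr hθ0 f1 f2
  clear hne h
  generalize Real.exp (-(2 * min (kap c) (kap d))) = θ at *
  generalize Real.log ((ρ : ℝ) / Dn) = g at *
  generalize (R : ℝ) = r at *
  generalize (Dn : ℝ) = D at *
  generalize (a : ℝ) = A at *
  have hD0 : 0 < D := by linarith
  generalize 1 - A / D = s at *
  have hs0 : 0 < |s| := by
    rcases (abs_nonneg s).lt_or_eq with h1 | h1
    · exact h1
    · rw [← h1] at hg
      linarith
  have hsne : s ≠ 0 := abs_pos.1 hs0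
  -- the second estimate
  have k1 : |ll d - g / (2 * s)| ≤ 32 * (r ^ 18 * θ) := by
    have h1 : ll d - g / (2 * s) = (2 * s * ll d - g) / (2 * s) := by field_simp
    rw [h1, abs_div, abs_mul, abs_of_pos (show (0 : ℝ) < 2 by norm_num), div_le_iff₀ (by positivity)]
    refine f6.trans ?_
    have h2 : 64 * (r ^ 16 * θ) * 1 ≤ 64 * (r ^ 16 * θ) * (r ^ 2 * |s|) :=
      mul_le_mul_of_nonneg_left hg (by positivity)
    have h3 : 64 * (r ^ 16 * θ) * (r ^ 2 * |s|) = 32 * (r ^ 18 * θ) * (2 * |s|) := by ring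
    linarith
  have h1820 : 10000 * (r ^ 18 * θ) ≤ r ^ 20 * θ := by
    have h1 : (10000 : ℝ) ≤ r ^ 2 := by nlinarith
    have h2 : r ^ 20 * θ = r ^ 2 * (r ^ 18 * θ) := by ring
    rw [h2]
    exact mul_le_mul_of_nonneg_right h1 (by positivity)
  have h618 : r ^ 6 * θ ≤ r ^ 18 * θ :=
    mul_le_mul_of_nonneg_right (pow_le_pow_right₀ (by linarith) (by norm_num)) hθ0.le
  have p6 := tad_pow hr hθ0 f0 (n := 6) (by norm_num)
  have h18 : 0 < r ^ 18 * θ := by positivity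
  have hAD : A / D ≤ 2 := by
    have hld : 0 < ll d := by linarith
    obtain ⟨b1, b2⟩ := abs_le.1 f2
    obtain ⟨b3, b4⟩ := abs_le.1 f3
    by_contra hc
    push Not at hc
    have h1 : 2 * ll d < A / D * ll d := mul_lt_mul_of_pos_right hc hld
    linarith
  have hAD0 : 0 ≤ A / D := by positivity
  constructor
  · have h1 : ll c - A / D * (g / (2 * s)) = (ll c - A / D * ll d) + A / D * (ll d - g / (2 * s)) := by ring
    rw [h1]
    refine (abs_add_le _ _).trans ?_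
    have h2 : |A / D * (ll d - g / (2 * s))| ≤ 2 * (32 * (r ^ 18 * θ)) := by
      rw [abs_mul, abs_of_nonneg hAD0]
      exact mul_le_mul hAD k1 (abs_nonneg _) (by norm_num)
    linarith
  · linarith

theorem num_eq {R Dn a ρ : ℕ} {c d : List Bool} (h : NumD R Dn a ρ c d) (he : a = Dn) :
    ρ = Dn ∧ zz c = zz d := by
  obtain ⟨f0, f1, f2, f3, f4, f5⟩ := tad_facts h
  have hr : (100 : ℝ) ≤ R := by exact_mod_cast h.hR
  have hD1 : (1 : ℝ) ≤ Dn := by exact_mod_cast h.D1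
  have hD2 : (Dn : ℝ) ≤ (R : ℝ) ^ 2 := by exact_mod_cast h.D2
  have hρ1 : (1 : ℝ) ≤ ρ := by exact_mod_cast h.r1
  have hρ2 : (ρ : ℝ) ≤ (R : ℝ) ^ 4 := by
    have h1 : ρ ≤ R ^ 4 := le_trans (Nat.le_mul_of_pos_left ρ h.a1) h.ar
    exact_mod_cast h1
  have hθ0 := Real.exp_pos (-(2 * min (kap c) (kap d)))
  have f6 := tad_four hr hθ0 f1 f2
  have hD0 : (0 : ℝ) < Dn := by linarith
  have hρ0 : (0 : ℝ) < ρ := by linarith
  have p20 := tad_pow hr hθ0 f0 (n := 20) (by norm_num)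
  constructor
  · by_contra hne
    have h1 : (1 : ℝ) - a / Dn = 0 := by
      rw [he, div_self hD0.ne', sub_self]
    rw [h1, mul_zero, zero_mul, zero_sub, abs_neg] at f6
    have h2 : (R : ℝ) ^ 4 * |Real.log (ρ / Dn)| ≤ 64 / 1000000 := by
      have h3 : (R : ℝ) ^ 4 * |Real.log (ρ / Dn)| ≤
          (R : ℝ) ^ 4 * (64 * ((R : ℝ) ^ 16 * Real.exp (-(2 * min (kap c) (kap d))))) :=
        mul_le_mul_of_nonneg_left f6 (by positivity)
      have h4 : (R : ℝ) ^ 4 * (64 * ((R : ℝ) ^ 16 * Real.exp (-(2 * min (kap c) (kap d))))) =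
          64 * ((R : ℝ) ^ 20 * Real.exp (-(2 * min (kap c) (kap d)))) := by ring
      linarith
    have h24 : (R : ℝ) ^ 2 ≤ (R : ℝ) ^ 4 := pow_le_pow_right₀ (by linarith) (by norm_num)
    rcases lt_or_gt_of_ne hne with h5 | h5
    · -- ρ < D
      have h6 : (ρ : ℝ) + 1 ≤ Dn := by exact_mod_cast h5
      have h7 := Real.log_le_sub_one_of_pos (show (0 : ℝ) < ρ / Dn by positivity)
      have h8 : (ρ : ℝ) / Dn - 1 ≤ -(1 / Dn) := by
        have h9 : (ρ : ℝ) / Dn - 1 = (ρ - Dn) / Dn := by field_simp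
        rw [h9, ← neg_div, div_le_div_iff_of_pos_right hD0]
        linarith
      have h9 : 1 / (Dn : ℝ) ≤ |Real.log (ρ / Dn)| := by
        have := neg_abs_le (Real.log ((ρ : ℝ) / Dn))
        linarith
      have h10 : 1 ≤ (R : ℝ) ^ 4 * (1 / Dn) := by
        rw [mul_one_div, le_div_iff₀ hD0]
        linarith
      have h11 : (R : ℝ) ^ 4 * (1 / Dn) ≤ (R : ℝ) ^ 4 * |Real.log (ρ / Dn)| :=
        mul_le_mul_of_nonneg_left h9 (by positivity)
      linarith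
    · have h6 : (Dn : ℝ) + 1 ≤ ρ := by exact_mod_cast h5
      have h7 := Real.one_sub_inv_le_log_of_pos (show (0 : ℝ) < ρ / Dn by positivity)
      have h8 : 1 / (ρ : ℝ) ≤ 1 - ((ρ : ℝ) / Dn)⁻¹ := by
        have h9 : 1 - ((ρ : ℝ) / Dn)⁻¹ = (ρ - Dn) / ρ := by field_simp
        rw [h9, div_le_div_iff_of_pos_right hρ0]
        linarith
      have h9 : 1 / (ρ : ℝ) ≤ |Real.log (ρ / Dn)| := by
        have := le_abs_self (Real.log ((ρ : ℝ) / Dn))
        linarith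
      have h10 : 1 ≤ (R : ℝ) ^ 4 * (1 / ρ) := by
        rw [mul_one_div, le_div_iff₀ hρ0]
        linarith
      have h11 : (R : ℝ) ^ 4 * (1 / ρ) ≤ (R : ℝ) ^ 4 * |Real.log (ρ / Dn)| :=
        mul_le_mul_of_nonneg_left h9 (by positivity)
      linarith
  · have M2 := h.M2
    have e2 := h.e2
    have hc := ee_pos c
    have hl := ee_le_ll c
    have hlc : 0 ≤ ll c := by
      have := ll_ge c
      have h2 : (0 : ℝ) ≤ ss c := Nat.cast_nonneg _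
      linarith
    obtain ⟨θ, hθ⟩ : ∃ θ, θ = Real.exp (-(2 * min (kap c) (kap d))) := ⟨_, rfl⟩
    rw [← hθ] at f0 M2 hθ0 p20
    have p14 := tad_pow hr hθ0 f0 (n := 14) (by norm_num)
    rw [he] at M2
    have h1 : (Dn : ℝ) * ll c - Dn * ll d = Dn * (ll c - ll d) := by ring
    rw [h1, abs_mul, abs_of_pos hD0] at M2
    have h2 : |ll c - ll d| ≤ 480 * ((R : ℝ) ^ 14 * θ) * Real.exp (-(2 * ll c)) := by
      have h3 : 1 * |ll c - ll d| ≤ Dn * |ll c - ll d| :=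
        mul_le_mul_of_nonneg_right hD1 (abs_nonneg _)
      have h4 : (1 : ℝ) ≤ (R : ℝ) ^ 8 := one_le_pow₀ (by linarith)
      have h5 : ee c + ee d ≤ 2 * ((R : ℝ) ^ 8 * ee c) := by nlinarith
      have h6 : 30 * (R : ℝ) ^ 6 * θ * (ee c + ee d) ≤ 30 * (R : ℝ) ^ 6 * θ * (2 * ((R : ℝ) ^ 8 * ee c)) :=
        mul_le_mul_of_nonneg_left h5 (by positivity)
      have h7 : 30 * (R : ℝ) ^ 6 * θ * (2 * ((R : ℝ) ^ 8 * ee c)) = 60 * ((R : ℝ) ^ 14 * θ) * ee c := by ring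
      have h8 : 60 * ((R : ℝ) ^ 14 * θ) * ee c ≤ 60 * ((R : ℝ) ^ 14 * θ) * (8 * Real.exp (-(2 * ll c))) :=
        mul_le_mul_of_nonneg_left hl (by positivity)
      linarith
    have h14 : 0 < (R : ℝ) ^ 14 * θ := by positivity
    apply zz_of_ll h2
    · have h3 : Real.exp (-(2 * ll c)) ≤ 1 := Real.exp_le_one_iff.2 (by linarith)
      have h4 : 480 * ((R : ℝ) ^ 14 * θ) * Real.exp (-(2 * ll c)) ≤ 480 * ((R : ℝ) ^ 14 * θ) * 1 :=
        mul_le_mul_of_nonneg_left h3 (by positivity)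
      linarith
    · have h3 : Real.exp (-(2 * ll c)) * Real.exp (ll c) ≤ 1 := by
        rw [← Real.exp_add]
        exact Real.exp_le_one_iff.2 (by linarith)
      have h4 : 480 * ((R : ℝ) ^ 14 * θ) * (Real.exp (-(2 * ll c)) * Real.exp (ll c)) ≤
          480 * ((R : ℝ) ^ 14 * θ) * 1 := mul_le_mul_of_nonneg_left h3 (by positivity)
      have h5 : 2 * (480 * ((R : ℝ) ^ 14 * θ) * Real.exp (-(2 * ll c))) * Real.exp (ll c) =
          2 * (480 * ((R : ℝ) ^ 14 * θ) * (Real.exp (-(2 * ll c)) * Real.exp (ll c))) := by ring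
      rw [h5]
      linarith

private theorem tad_logx {x L : ℝ} (hx : 0 < x) (hL : Real.log (1 / x) ≤ L) (hL0 : 0 ≤ L) :
    |Real.log (1 / x)| ≤ |1 - x| * (1 + L) := by
  have h1 : Real.log (1 / x) = -Real.log x := by
    rw [one_div, Real.log_inv]
  rcases le_total 1 x with h | h
  · have h2 := Real.log_le_sub_one_of_pos hx
    have h3 := Real.log_nonneg h
    rw [h1, abs_neg, abs_of_nonneg h3, abs_of_nonpos (by linarith)]
    nlinarith
  · have h2 := Real.log_nonpos hx.le h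
    have h3 : 0 ≤ Real.log (1 / x) := by
      rw [h1]
      linarith
    rw [abs_of_nonneg h3, abs_of_nonneg (by linarith)]
    have h4 := Real.log_le_sub_one_of_pos (show 0 < 1 / x by positivity)
    have h5 : x * Real.log (1 / x) ≤ x * (1 / x - 1) := mul_le_mul_of_nonneg_left h4 hx.le
    have h6 : x * (1 / x - 1) = 1 - x := by field_simp
    have h7 : (1 - x) * Real.log (1 / x) ≤ (1 - x) * L := mul_le_mul_of_nonneg_left hL (by linarith)
    nlinarith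

theorem num_sq {R Dn a ρ : ℕ} {c d : List Bool} (h : NumD R Dn a ρ c d) (he : a * ρ = Dn ^ 2) : a = Dn := by
  by_contra hne
  obtain ⟨f0, f1, f2, f3, f4, f5⟩ := tad_facts h
  have hr : (100 : ℝ) ≤ R := by exact_mod_cast h.hR
  have hD1 : (1 : ℝ) ≤ Dn := by exact_mod_cast h.D1
  have hD2 : (Dn : ℝ) ≤ (R : ℝ) ^ 2 := by exact_mod_cast h.D2
  have ha1 : (1 : ℝ) ≤ a := by exact_mod_cast h.a1
  have hθ0 := Real.exp_pos (-(2 * min (kap c) (kap d)))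
  have hg := tad_gap (r := R) (a := a) (D := Dn) rfl rfl hne hD1 hD2
  have f6 := tad_four hr hθ0 f1 f2
  have p18 := tad_pow hr hθ0 f0 (n := 18) (by norm_num)
  have hD0 : (0 : ℝ) < Dn := by linarith
  have ha0 : (0 : ℝ) < a := by linarith
  have e1 : (ρ : ℝ) / Dn = 1 / ((a : ℝ) / Dn) := by
    have h1 : (a : ℝ) * ρ = (Dn : ℝ) ^ 2 := by exact_mod_cast he
    rw [one_div_div, div_eq_div_iff hD0.ne' ha0.ne']
    linarith
  rw [e1] at f6
  have hx : (0 : ℝ) < a / Dn := by positivity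
  have hL : Real.log (1 / ((a : ℝ) / Dn)) ≤ 2 * Real.log R := by
    rw [one_div_div, Real.log_div hD0.ne' ha0.ne']
    have h1 := Real.log_nonneg ha1
    have h2 := Real.log_le_log hD0 hD2
    rw [Real.log_pow] at h2
    push_cast at h2
    linarith
  have k1 := tad_logx hx hL (by linarith)
  obtain ⟨s, hs⟩ : ∃ s, s = 1 - (a : ℝ) / Dn := ⟨_, rfl⟩
  rw [← hs] at hg f6 k1
  obtain ⟨θ, hθ⟩ : ∃ θ, θ = Real.exp (-(2 * min (kap c) (kap d))) := ⟨_, rfl⟩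
  rw [← hθ] at f6 p18 hθ0
  have hs0 : 0 < |s| := by
    rcases (abs_nonneg s).lt_or_eq with h1 | h1
    · exact h1
    · rw [← h1] at hg
      linarith
  have hld : 0 < ll d := by linarith
  have k2 : 2 * |s| * ll d ≤ |Real.log (1 / ((a : ℝ) / Dn))| + 64 * ((R : ℝ) ^ 16 * θ) := by
    have h1 : |2 * s * ll d| = 2 * |s| * ll d := by
      rw [abs_mul, abs_mul, abs_of_pos hld, abs_of_pos (show (0 : ℝ) < 2 by norm_num)]
    have h2 : |2 * s * ll d| ≤ |2 * s * ll d - Real.log (1 / ((a : ℝ) / Dn))| +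
        |Real.log (1 / ((a : ℝ) / Dn))| := by
      have h3 := abs_add_le (2 * s * ll d - Real.log (1 / ((a : ℝ) / Dn))) (Real.log (1 / ((a : ℝ) / Dn)))
      rw [sub_add_cancel] at h3
      exact h3
    linarith
  have k3 : 64 * ((R : ℝ) ^ 16 * θ) ≤ |s| * 1 := by
    have h1 : 64 * ((R : ℝ) ^ 16 * θ) * 1 ≤ 64 * ((R : ℝ) ^ 16 * θ) * ((R : ℝ) ^ 2 * |s|) :=
      mul_le_mul_of_nonneg_left hg (by positivity)
    have h2 : 64 * ((R : ℝ) ^ 16 * θ) * ((R : ℝ) ^ 2 * |s|) = |s| * (64 * ((R : ℝ) ^ 18 * θ)) := by ring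
    have h3 : |s| * (64 * ((R : ℝ) ^ 18 * θ)) ≤ |s| * 1 :=
      mul_le_mul_of_nonneg_left (by linarith) hs0.le
    linarith
  have k4 : |s| * (2 * ll d) ≤ |s| * (2 + 2 * Real.log R) := by linarith
  have k5 := le_of_mul_le_mul_left k4 hs0
  linarith

end Pool.Agent.Lib.MP_94ab62_ntZ
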