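import Pool.Agent.Lib.MP_94ab62_ntZ.TpF
import Pool.Agent.Lib.MP_94ab62_ntU.EnumU

/-!
# TaE: adjacent pairs; the defect as a function of one edge

* `ss_adj`: if `|det (uu c) (uu c')| = 1` then `ss c ≠ ss c'`: if `ss c = ss c' = n` (`ss_eq`: `(uu c).1 + (uu c).2 = n`), `det (uu c) (uu c') = n ((uu c).1 - (uu c').1)` is divisible by `n ≥ 2` (`ss_ge`).
* `adj_edge`: `ss c < ss c'`, `|det| = 1`: `near_uu` for `c'`: `uu c = g1 c'` or `uu c = g2 c'`.
* `adj2`: by `ss_adj` we may exchange `(c,d)` with `(c',d')` and assume `ss c < ss c'`.  `adj_edge`, `zz_entry1`, `zz_entry2`: `zz c` is the first or the second entry of `tn c'`, so `zz c < zz c'`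
  (`good_tn`).  So `zz d < zz d'`, hence `ss d < ss d'` (otherwise `ss d' < ss d` and the same argument gives `zz d' < zz d`), and `uu d` is an edge of `d'`.  Write `m = zz c = zz d`, `n = zz c' = zz d'`,
  `x`, `x'` the third entries of `tn c'`, `tn d'`: `x^2 + m^2 + n^2 = 3 x m n` and the same for `x'`, `x, x' < n`: if `x ≠ x'` then `x + x' = 3 m n`, `x x' = m^2 + n^2 > n^2`, contradiction.
  So the triples agree, or agree after `sw`; the second is impossible (`tn_ne_sw`): `tn_inj` gives `c' = d'`, and `m` is at the same place (the two small entries of `tn c'` are different), so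
  `uu c = uu d`, `c = d` (`uu_inj`).
* `ee_ratio`: `p`, `p'` have the entries `{y, z}`, `{y', z}` (any order), `y < y'`.  Let `a = F y < a' = F y'`, `b = F z`, `δ = a' - a` (`F_lt`), `ε = ee p`, `ε' = ee p'`.  `ep_formula` (symmetric in the
  two small entries; use `ep_sw`, `fa_sw` etc. or the commutativity directly): `2 sinh(ε/2) G(a) sinh((a+b+c)/2) = 1`, `G(a) = S + √(S²-1)`, `S = sinh a sinh b`.
  `S' / S = sinh a' / sinh a ≥ e^δ` (`sinh (a+δ) = sinh a cosh δ + cosh a sinh δ ≥ sinh a e^δ`), `G' ≥ e^δ G` (`√(S'² - 1) ≥ (S'/S) √(S²-1)`), and `c' ≥ c` (`cosh c = cosh a cosh b + √(S²-1)`: `cosh_fc`, monotone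
  in `a`).  So `sinh (ε/2) ≥ e^δ sinh (ε'/2) ≥ (1 + δ) sinh (ε'/2)`; `ε' ≤ ε`, and `sinh (ε/2) - sinh (ε'/2) ≤ (ε - ε')/2 * cosh (ε/2) ≤ 0.51 (ε - ε')` (`ε ≤ 1/20`), `sinh (ε'/2) ≥ ε'/2`:
  `ε - ε' ≥ δ ε' / 1.02 ≥ 9/10 δ ε'`.
* `tri_eq`: `p`, `p'` nodes with `{(tn p).1, (tn p).2.1} = {y, z}` in the same order as for `p'`: then `tn p = tn p'` (the third entry is the root of `X² - 3yzX + y² + z² = 0` which is larger than both: if two
  different roots `X, X'` both `> max`, `X X' = y² + z² < 2 max²`..., precisely `X X' = y^2 + z^2 < X X'` since `X, X' > y, z`, i.e. `X ≥ max+1`...: `X X' > y^2`, use `X + X' = 3 y z` and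
  `(good_tn p)`: the smaller root is `< max(y,z)`: see `lc`/`rc` or `enum` lemmas).
-/

set_option autoImplicit false

namespace Pool.Agent.Lib.MP_94ab62_ntZ

open Pool.Agent.Lib.MP_94ab62_nt Pool.Agent.Lib.MP_94ab62_ntU

private theorem tae_third {m n x x' : ℕ} (hm : 0 < m) (hx : x < n) (hx' : x' < n)
    (e : x ^ 2 + m ^ 2 + n ^ 2 = 3 * x * m * n)
    (e' : x' ^ 2 + m ^ 2 + n ^ 2 = 3 * x' * m * n) : x = x' := by
  by_contra hne
  zify at *
  have h1 : ((x : ℤ) - x') * ((x : ℤ) + x' - 3 * m * n) = 0 := by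
    linear_combination e - e'
  rcases mul_eq_zero.1 h1 with h2 | h2
  · exact hne (by linarith)
  · have h3 : (0 : ℤ) ≤ ((m : ℤ) - 1) * n :=
      mul_nonneg (by linarith) (by linarith [Int.natCast_nonneg x])
    nlinarith [Int.natCast_nonneg x, Int.natCast_nonneg x']

private theorem tae_same1 {t t' : Nd} (ht : Good t) (ht' : Good t') (hz : t.2.2 = t'.2.2)
    (h : t.1 = t'.1) : t = t' := by
  obtain ⟨x, y, z⟩ := t
  obtain ⟨x', y', z'⟩ := t'
  obtain ⟨hx, hy, hxy, hxz, hyz, he⟩ := ht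
  obtain ⟨hx', hy', hxy', hxz', hyz', he'⟩ := ht'
  simp only at *
  subst hz h
  have h1 : y = y' := tae_third (m := x) (n := z) hx hyz hyz'
    (by rw [add_comm (y ^ 2)]; rw [he]; ring) (by rw [add_comm (y' ^ 2)]; rw [he']; ring)
  rw [h1]

private theorem tae_same2 {t t' : Nd} (ht : Good t) (ht' : Good t') (hz : t.2.2 = t'.2.2)
    (h : t.2.1 = t'.2.1) : t = t' := by
  obtain ⟨x, y, z⟩ := t
  obtain ⟨x', y', z'⟩ := t'
  obtain ⟨hx, hy, hxy, hxz, hyz, he⟩ := ht
  obtain ⟨hx', hy', hxy', hxz', hyz', he'⟩ := ht'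
  simp only at *
  subst hz h
  have h1 : x = x' := tae_third (m := y) (n := z) hy hxz hxz' he he'
  rw [h1]

private theorem tae_same3 {t t' : Nd} (ht : Good t) (ht' : Good t') (h1 : t.1 = t'.1)
    (h2 : t.2.1 = t'.2.1) : t = t' := by
  obtain ⟨x, y, z⟩ := t
  obtain ⟨x', y', z'⟩ := t'
  obtain ⟨hx, hy, hxy, hxz, hyz, he⟩ := ht
  obtain ⟨hx', hy', hxy', hxz', hyz', he'⟩ := ht'
  simp only at *
  subst h1 h2
  have h3 := eps2_large hx hy hxy hxz hyz he
  have h4 := eps2_large hx hy hxy hxz' hyz' he'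
  have h5 : z = z' := by
    by_contra hne
    zify at *
    have h1 : ((z : ℤ) - z') * ((z : ℤ) + z' - 3 * x * y) = 0 := by
      linear_combination he - he'
    rcases mul_eq_zero.1 h1 with h2 | h2
    · exact hne (by linarith)
    · linarith
  rw [h5]

private theorem tae_zlt {c c' : List Bool} (h : |det (uu c) (uu c')| = 1) (hs : ss c < ss c')
    (he : uu c = g1 c' ∨ uu c = g2 c') : zz c < zz c' := by
  have hg := good_tn c'
  rcases he with h5 | h5
  · have h6 := zz_entry1 h5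
    have h7 : (tn c').1 < zz c' := hg.2.2.2.1
    omega
  · have h6 := zz_entry2 h5
    have h7 : (tn c').2.1 < zz c' := hg.2.2.2.2.1
    omega


theorem ss_adj {c c' : List Bool} (h : |det (uu c) (uu c')| = 1) : ss c ≠ ss c' := by
  intro hs
  have e1 := ss_eq c
  have e2 := ss_eq c'
  rw [← hs] at e2
  have e3 : det (uu c) (uu c') = (ss c : ℤ) * ((uu c).1 - (uu c').1) := by
    unfold det
    have e4 : (uu c).2 = ss c - (uu c).1 := by linarith
    have e5 : (uu c').2 = ss c - (uu c').1 := by linarith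
    rw [e4, e5]
    ring
  have h4 : ((ss c : ℤ)) ∣ 1 := by
    rw [← h, e3, abs_mul]
    exact (dvd_abs _ _).2 (dvd_refl _) |>.mul_right _
  have h5 := Int.le_of_dvd one_pos h4
  have h6 := ss_ge c
  omega

theorem adj_edge {c c' : List Bool} (h : |det (uu c) (uu c')| = 1) (hs : ss c < ss c') :
    uu c = g1 c' ∨ uu c = g2 c' := by
  exact near_uu (p := c') (v := uu c) (by linarith [(uu_pos c).1])
    (by linarith [(uu_pos c).2]) (by rw [ss_eq]; exact_mod_cast hs) h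

private theorem tae_core {c c' d d' : List Bool} (h1 : |det (uu c) (uu c')| = 1)
    (h2 : |det (uu d) (uu d')| = 1) (hz : zz c = zz d) (hz' : zz c' = zz d')
    (hs : ss c < ss c') : c = d ∧ c' = d' := by
  have e1 := adj_edge h1 hs
  have hlt := tae_zlt h1 hs e1
  have hs2 : ss d < ss d' := by
    rcases lt_or_gt_of_ne (ss_adj h2) with h3 | h3
    · exact h3
    · exfalso
      have h2' : |det (uu d') (uu d)| = 1 := by rw [det_swap, abs_neg]; exact h2
      have h4 := tae_zlt h2' h3 (adj_edge h2' h3)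
      omega
  have e2 := adj_edge h2 hs2
  have gc := good_tn c'
  have gd := good_tn d'
  rcases e1 with e1 | e1 <;> rcases e2 with e2 | e2
  · have h3 : tn c' = tn d' := tae_same1 gc gd hz' (by rw [← zz_entry1 e1, ← zz_entry1 e2, hz])
    have h4 : c' = d' := tn_inj h3
    refine ⟨uu_inj ?_, h4⟩
    rw [e1, e2, h4]
  · exfalso
    refine tn_ne_sw c' d' (tae_same1 gc (good_sw gd) hz' ?_)
    show (tn c').1 = (tn d').2.1
    rw [← zz_entry1 e1, ← zz_entry2 e2, hz]
  · exfalso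
    refine tn_ne_sw c' d' (tae_same2 gc (good_sw gd) hz' ?_)
    show (tn c').2.1 = (tn d').1
    rw [← zz_entry2 e1, ← zz_entry1 e2, hz]
  · have h3 : tn c' = tn d' := tae_same2 gc gd hz' (by rw [← zz_entry2 e1, ← zz_entry2 e2, hz])
    have h4 : c' = d' := tn_inj h3
    refine ⟨uu_inj ?_, h4⟩
    rw [e1, e2, h4]

theorem adj2 {c c' d d' : List Bool} (h1 : |det (uu c) (uu c')| = 1) (h2 : |det (uu d) (uu d')| = 1)
    (hz : zz c = zz d) (hz' : zz c' = zz d') : c = d ∧ c' = d' := by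
  rcases lt_or_gt_of_ne (ss_adj h1) with hs | hs
  · exact tae_core h1 h2 hz hz' hs
  · have h1' : |det (uu c') (uu c)| = 1 := by rw [det_swap, abs_neg]; exact h1
    have h2' : |det (uu d') (uu d)| = 1 := by rw [det_swap, abs_neg]; exact h2
    have h3 := tae_core h1' h2' hz' hz hs
    exact ⟨h3.2, h3.1⟩

private theorem tae_sinh_diff {u v : ℝ} (hv : 0 ≤ v) (hvu : v ≤ u) (hu : u ≤ 1 / 40) :
    Real.sinh u - Real.sinh v ≤ 11 / 10 * (u - v) := by
  obtain ⟨w, hw⟩ : ∃ w, w = u - v := ⟨_, rfl⟩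
  have hw0 : 0 ≤ w := by rw [hw]; linarith
  have hw1 : w ≤ 1 / 40 := by rw [hw]; linarith
  have e1 : v = u - w := by rw [hw]; ring
  have e2 : Real.sinh v = Real.sinh u * Real.cosh w - Real.cosh u * Real.sinh w := by
    rw [e1, Real.sinh_sub]
  have hs : 0 ≤ Real.sinh u := Real.sinh_nonneg_iff.2 (hv.trans hvu)
  have hsw : 0 ≤ Real.sinh w := Real.sinh_nonneg_iff.2 hw0
  have h3 : Real.sinh u ≤ Real.sinh u * Real.cosh w := le_mul_of_one_le_right hs (Real.one_le_cosh w)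
  have h4 : Real.sinh w ≤ 40 / 39 * w := by
    have h5 := eps3_sinh_le (u := w) (by linarith)
    nlinarith [mul_nonneg hsw (by linarith : (0 : ℝ) ≤ 1 / 40 - w), mul_nonneg hw0 hw0]
  have h5 : Real.cosh u ≤ 40 / 39 := by
    have h6 : Real.cosh u ≤ Real.exp u := by
      rw [Real.cosh_eq]
      have h7 : Real.exp (-u) ≤ Real.exp u := Real.exp_le_exp.2 (by linarith)
      linarith
    have h8 : 1 - u ≤ Real.exp (-u) := by
      have := Real.add_one_le_exp (-u)
      linarith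
    have h9 : Real.exp u * Real.exp (-u) = 1 := by rw [← Real.exp_add]; simp
    have h10 : 0 < Real.exp u := Real.exp_pos u
    have h11 : Real.exp u * (39 / 40) ≤ 1 := by
      rw [← h9]
      exact mul_le_mul_of_nonneg_left (by linarith) h10.le
    linarith
  have hc : 0 ≤ Real.cosh u := (Real.cosh_pos u).le
  have h6 : Real.cosh u * Real.sinh w ≤ 40 / 39 * (40 / 39 * w) :=
    mul_le_mul h5 h4 hsw (by norm_num)
  rw [e2, ← hw]
  nlinarith

private theorem tae_ratio {t t' : Nd} (h : Good t) (h' : Good t') (hb : t.2.1 = t'.2.1)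
    (ha : t.1 < t'.1) : 9 / 10 * (fa t' - fa t) * ep t' ≤ ep t - ep t' := by
  have hb' : fb t = fb t' := by simp only [fb, hb]
  have haa : fa t < fa t' := F_lt h.1 ha
  have f1 := ep_formula h
  have f2 := ep_formula h'
  rw [← hb'] at f2
  have a0 := fa_ge h
  have a0' := fa_ge h'
  have b0 := fb_ge h
  have c0 := fc_ge h
  have c0' := fc_ge h'
  have hS : 3 ≤ Real.sinh (fa t) * Real.sinh (fb t) := S_ge h
  have hS' : 3 ≤ Real.sinh (fa t') * Real.sinh (fb t) := by rw [hb']; exact S_ge h'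
  obtain ⟨δ, hδ⟩ : ∃ δ, δ = fa t' - fa t := ⟨_, rfl⟩
  have hδ0 : 0 < δ := by rw [hδ]; linarith
  have hsb : 0 < Real.sinh (fb t) := Real.sinh_pos_iff.2 (by linarith)
  have hsa : 0 < Real.sinh (fa t) := Real.sinh_pos_iff.2 (by linarith)
  have hE1 : 1 + δ ≤ Real.exp δ := by linarith [Real.add_one_le_exp δ]
  have hE0 : 1 ≤ Real.exp δ := by linarith
  have r1 : Real.exp δ * Real.sinh (fa t) ≤ Real.sinh (fa t') := by
    have h3 := eps4_sinh_div haa.le
    have h4 : Real.exp δ * (Real.exp (fa t - fa t') * Real.sinh (fa t')) = Real.sinh (fa t') := by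
      rw [← mul_assoc, ← Real.exp_add, hδ]
      simp
    rw [← h4]
    exact mul_le_mul_of_nonneg_left h3 (Real.exp_pos _).le
  obtain ⟨S, hSd⟩ : ∃ S, S = Real.sinh (fa t) * Real.sinh (fb t) := ⟨_, rfl⟩
  obtain ⟨S', hSd'⟩ : ∃ S', S' = Real.sinh (fa t') * Real.sinh (fb t) := ⟨_, rfl⟩
  have r2 : Real.exp δ * S ≤ S' := by
    rw [hSd, hSd', ← mul_assoc]
    exact mul_le_mul_of_nonneg_right r1 hsb.le
  have ch := cosh_fc h
  have ch' := cosh_fc h'
  rw [← hb'] at ch'
  rw [← hSd] at f1 hS ch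
  rw [← hSd'] at f2 hS' ch'
  have r3 : Real.exp δ * Real.sqrt (S ^ 2 - 1) ≤ Real.sqrt (S' ^ 2 - 1) := by
    have h3 : Real.exp δ = Real.sqrt (Real.exp δ ^ 2) := (Real.sqrt_sq (Real.exp_pos _).le).symm
    rw [h3, ← Real.sqrt_mul (sq_nonneg _)]
    apply Real.sqrt_le_sqrt
    have h4 : (Real.exp δ * S) ^ 2 ≤ S' ^ 2 := by
      apply pow_le_pow_left₀ (mul_nonneg (Real.exp_pos _).le (by linarith)) r2
    have h5 : 1 ≤ Real.exp δ ^ 2 := one_le_pow₀ hE0
    nlinarith
  have r4 : Real.sqrt (S ^ 2 - 1) ≤ Real.sqrt (S' ^ 2 - 1) := by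
    refine le_trans ?_ r3
    exact le_mul_of_one_le_left (Real.sqrt_nonneg _) hE0
  have r5 : fc t ≤ fc t' := by
    have h3 : Real.cosh (fc t) ≤ Real.cosh (fc t') := by
      rw [ch, ch']
      have h4 : Real.cosh (fa t) ≤ Real.cosh (fa t') := by
        rw [Real.cosh_le_cosh, abs_of_pos (by linarith), abs_of_pos (by linarith)]
        exact haa.le
      have h5 := mul_le_mul_of_nonneg_right h4 (Real.cosh_pos (fb t)).le
      linarith
    rw [Real.cosh_le_cosh, abs_of_pos (by linarith), abs_of_pos (by linarith)] at h3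
    exact h3
  have r6 : Real.sinh ((fa t + fb t + fc t) / 2) ≤ Real.sinh ((fa t' + fb t + fc t') / 2) :=
    Real.sinh_le_sinh.2 (by linarith)
  have r7 : 0 < Real.sinh ((fa t + fb t + fc t) / 2) := Real.sinh_pos_iff.2 (by linarith)
  have r8 : Real.exp δ * (S + Real.sqrt (S ^ 2 - 1)) ≤ S' + Real.sqrt (S' ^ 2 - 1) := by
    rw [mul_add]
    linarith
  have r9 : 0 < S + Real.sqrt (S ^ 2 - 1) := by
    have := Real.sqrt_nonneg (S ^ 2 - 1)
    linarith
  have r10 : Real.exp δ * ((S + Real.sqrt (S ^ 2 - 1)) * Real.sinh ((fa t + fb t + fc t) / 2)) ≤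
      (S' + Real.sqrt (S' ^ 2 - 1)) * Real.sinh ((fa t' + fb t + fc t') / 2) := by
    rw [← mul_assoc]
    refine mul_le_mul r8 r6 r7.le ?_
    refine le_trans ?_ r8
    exact mul_nonneg (Real.exp_pos _).le r9.le
  obtain ⟨Q, hQ⟩ : ∃ Q, Q = (S + Real.sqrt (S ^ 2 - 1)) *
    Real.sinh ((fa t + fb t + fc t) / 2) := ⟨_, rfl⟩
  obtain ⟨Q', hQ'⟩ : ∃ Q', Q' = (S' + Real.sqrt (S' ^ 2 - 1)) *
    Real.sinh ((fa t' + fb t + fc t') / 2) := ⟨_, rfl⟩
  rw [← hQ] at r10 f1
  rw [← hQ'] at r10 f2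
  have hQ0 : 0 < Q := by rw [hQ]; exact mul_pos r9 r7
  have ep0 := ep_pos h
  have ep0' := ep_pos h'
  obtain ⟨s, hs⟩ : ∃ s, s = Real.sinh (ep t / 2) := ⟨_, rfl⟩
  obtain ⟨s', hs'⟩ : ∃ s', s' = Real.sinh (ep t' / 2) := ⟨_, rfl⟩
  rw [← hs] at f1
  rw [← hs'] at f2
  have s0' : 0 < s' := by rw [hs']; exact Real.sinh_pos_iff.2 (by linarith)
  have r11 : Real.exp δ * s' ≤ s := by
    have h3 : s' * (Real.exp δ * Q) ≤ s' * Q' := mul_le_mul_of_nonneg_left r10 s0'.le
    have h4 : Real.exp δ * s' * Q ≤ s * Q := by nlinarith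
    exact le_of_mul_le_mul_right h4 hQ0
  have r12 : (1 + δ) * s' ≤ s := le_trans (mul_le_mul_of_nonneg_right hE1 s0'.le) r11
  have r13 : s' ≤ s := by nlinarith
  have r14 : ep t' / 2 ≤ ep t / 2 := by
    rw [hs, hs'] at r13
    exact Real.sinh_le_sinh.1 r13
  have r15 := tae_sinh_diff (u := ep t / 2) (v := ep t' / 2) (by linarith) r14
    (by linarith [ep_small h])
  rw [← hs, ← hs'] at r15
  have r16 : ep t' / 2 ≤ s' := by rw [hs']; exact Real.self_le_sinh_iff.2 (by linarith)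
  rw [← hδ]
  have r17 : δ * (ep t' / 2) ≤ δ * s' := mul_le_mul_of_nonneg_left r16 hδ0.le
  have r18 : 0 ≤ δ * ep t' := mul_nonneg hδ0.le ep0'.le
  nlinarith

theorem ee_ratio {p p' : List Bool} {y y' z : ℕ}
    (hp : ((tn p).1 = y ∧ (tn p).2.1 = z) ∨ ((tn p).1 = z ∧ (tn p).2.1 = y))
    (hp' : ((tn p').1 = y' ∧ (tn p').2.1 = z) ∨ ((tn p').1 = z ∧ (tn p').2.1 = y')) (h : y < y') :
    9 / 10 * (F y' - F y) * ee p' ≤ ee p - ee p' := by
  have g := good_tn p
  have g' := good_tn p'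
  rcases hp with ⟨e1, e2⟩ | ⟨e1, e2⟩ <;> rcases hp' with ⟨e3, e4⟩ | ⟨e3, e4⟩
  · have h1 := tae_ratio g g' (by rw [e2, e4]) (by rw [e1, e3]; exact h)
    simp only [fa, e1, e3] at h1
    exact h1
  · have h1 := tae_ratio g (good_sw g') (by show (tn p).2.1 = (tn p').1; rw [e2, e3])
      (by show (tn p).1 < (tn p').2.1; rw [e1, e4]; exact h)
    rw [ep_sw, fa_sw] at h1
    simp only [fa, fb, e1, e4] at h1
    exact h1
  · have h1 := tae_ratio (good_sw g) g' (by show (tn p).1 = (tn p').2.1; rw [e1, e4])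
      (by show (tn p).2.1 < (tn p').1; rw [e2, e3]; exact h)
    rw [ep_sw, fa_sw] at h1
    simp only [fa, fb, e2, e3] at h1
    exact h1
  · have h1 := tae_ratio (good_sw g) (good_sw g') (by show (tn p).1 = (tn p').1; rw [e1, e3])
      (by show (tn p).2.1 < (tn p').2.1; rw [e2, e4]; exact h)
    rw [ep_sw, ep_sw, fa_sw, fa_sw] at h1
    simp only [fb, e2, e4] at h1
    exact h1

theorem tri_eq {p p' : List Bool} (h1 : (tn p).1 = (tn p').1) (h2 : (tn p).2.1 = (tn p').2.1) : p = p' := by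
  exact tn_inj (tae_same3 (good_tn p) (good_tn p') h1 h2)

theorem tri_sw {p p' : List Bool} (h1 : (tn p).1 = (tn p').2.1) (h2 : (tn p).2.1 = (tn p').1) : False := by
  exact tn_ne_sw p p' (tae_same3 (good_tn p) (good_sw (good_tn p')) h1 h2)

end Pool.Agent.Lib.MP_94ab62_ntZ
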