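import Pool.Agent.Lib.MP_94ab62_ntZ.TaC
import Pool.Agent.Lib.MP_94ab62_ntZ.TaD
import Pool.Agent.Lib.MP_94ab62_ntZ.TaE

/-!
# TaF: the two kinds of events

An event is a node `c` with two members of the family (first entries) below each child.  `Qd S c x1 x2 x3 x4`: the four members.

* `ev_num`: `ev_geo` gives `d`, `b`; `ev_mat` (`h12 : x1 ≠ x2` since `det (uu x1.1) (uu x2.1) ≠ 0`, `det_self`) gives `a`, `ρ`.  `ss c ≤ R`: `c <:+ x1.1` (`List.suffix_cons` and transitivity), `ss_suffix`,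
  `(hF.pr _ _).2.2.1`.  `NumD R D.toNat a ρ c d`: `(D.toNat : ℤ) = D` (`hF.D1`), `(D.toNat : ℝ) = D`; `D2 : D.toNat ≤ R^2` from `hF.D2`; `r1`: `a ρ = |D D'| ≥ 1` (`hF.D1`, `hF.D'1`, `abs_mul`);
  `ar`: `|D D'| ≤ R^2 R^2`; `gc`, `gd`: `Gd_suffix`.
* `ev_ne`: `ev_num`; `a ≠ D.toNat`: otherwise `num_eq` gives `ρ = D.toNat`, so `D * D = |D * D'| = D * |D'|`, `|D'| = D`, contradiction.  Then `num_ne`.
* `ev_eq`: `ev_num`; `a ρ = |D D'| = D^2`, `num_sq` gives `a = D.toNat`, `num_eq` gives `zz c = zz d`; `Mat M a c d` is `ap M (uu c) = D • uu d`.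
* `mat_scalar`: for `u = uu x.1`: `det v w • u = det u w • v + det v u • w` (`ind_decomp`), so `det v w • ap M u = det u w • (D • v) + det v u • (D • w) = det v w • (D • u)` (`ap_add`, `ap_smul`, `smul_smul`,
  `mul_comm`), cancel `det v w ≠ 0` (`smul_right_injective` or coordinatewise `mul_left_cancel₀`): `ap M u = D • u`.  `hF.e1`: `D • uu x.2 = D • uu x.1`, cancel, `uu_inj`, contradiction to `(hF.pr x hx).1`.
-/

set_option autoImplicit false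

namespace Pool.Agent.Lib.MP_94ab62_ntZ

open Pool.Agent.Lib.MP_94ab62_nt Pool.Agent.Lib.MP_94ab62_ntU

variable {R : ℕ} {A B : List Bool} {S : Set PP} {D D' : ℤ} {M M' : Mt}

private theorem taf_cast {R : ℕ} (hF : Fam R A B S D D' M M') : ((D.toNat : ℕ) : ℤ) = D :=
  Int.toNat_of_nonneg (by have := hF.D1; omega)

private theorem taf_castR {R : ℕ} (hF : Fam R A B S D D' M M') : ((D.toNat : ℕ) : ℝ) = (D : ℝ) := by
  have h := taf_cast hF
  exact_mod_cast congrArg (fun z : ℤ => (z : ℝ)) h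

private theorem taf_cancel {k : ℤ} (hk : k ≠ 0) {v w : ℤ × ℤ} (h : k • v = k • w) : v = w := by
  have h1 := congrArg Prod.fst h
  have h2 := congrArg Prod.snd h
  simp only [Prod.smul_fst, Prod.smul_snd, smul_eq_mul] at h1 h2
  exact Prod.ext (mul_left_cancel₀ hk h1) (mul_left_cancel₀ hk h2)

/-- four members showing that `c` is an event -/
structure Qd (S : Set PP) (c : List Bool) (x1 x2 x3 x4 : PP) : Prop where
  m1 : x1 ∈ S
  m2 : x2 ∈ S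
  m3 : x3 ∈ S
  m4 : x4 ∈ S
  h1 : (true :: c) <:+ x1.1
  h2 : (true :: c) <:+ x2.1
  h3 : (false :: c) <:+ x3.1
  h4 : (false :: c) <:+ x4.1
  h12 : 0 < det (uu x1.1) (uu x2.1)
  h34 : 0 < det (uu x3.1) (uu x4.1)

theorem ev_num (hF : Fam R A B S D D' M M') (gA : Gd R A) (gB : Gd R B) {c : List Bool} (hc : A <:+ c)
    {x1 x2 x3 x4 : PP} (hQ : Qd S c x1 x2 x3 x4) :
    ∃ (d : List Bool) (b : Bool) (a ρ : ℕ), B <:+ d ∧ ss c ≤ R ∧ ss d ≤ R ∧ (b = true ↔ 0 < D') ∧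
      CC (b :: d) (uu x1.2) ∧ CC (b :: d) (uu x2.2) ∧ CC ((!b) :: d) (uu x3.2) ∧ CC ((!b) :: d) (uu x4.2) ∧
      Mat M a c d ∧ (a : ℤ) * ρ = |D * D'| ∧ NumD R D.toNat a ρ c d := by
  obtain ⟨d, b, hd, sd, hb, k1, k2, k3, k4, e1, e2⟩ :=
    ev_geo hF gA gB hc hQ.m1 hQ.m2 hQ.m3 hQ.m4 hQ.h1 hQ.h2 hQ.h3 hQ.h4 hQ.h12 hQ.h34
  have n12 : x1 ≠ x2 := by
    intro h
    have h1 := hQ.h12
    rw [h, det_self] at h1
    exact lt_irrefl _ h1
  have n34 : x3 ≠ x4 := by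
    intro h
    have h1 := hQ.h34
    rw [h, det_self] at h1
    exact lt_irrefl _ h1
  obtain ⟨a, ρ, ha, hM, har, hM1, hM2⟩ :=
    ev_mat hF gA gB hc hd sd hb hQ.m1 hQ.m2 hQ.m3 hQ.m4 hQ.h1 hQ.h2 hQ.h3 hQ.h4 n12 n34 k1 k2 k3 k4 e1 e2
  have sc : ss c ≤ R := by
    have q1 : ss c ≤ ss x1.1 := ss_suffix ((List.suffix_cons true c).trans hQ.h1)
    exact q1.trans (hF.pr x1 hQ.m1).2.2.1
  have hDc := taf_cast hF
  have hDr := taf_castR hF
  have hD1 := hF.D1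
  have hD2 := hF.D2
  have hD'1 := hF.D'1
  have hD'2 := hF.D'2
  have hDD : |D * D'| = D * |D'| := by
    rw [abs_mul, abs_of_pos (by omega : (0 : ℤ) < D)]
  have hR0 : (0 : ℤ) ≤ (R : ℤ) ^ 2 := by positivity
  refine ⟨d, b, a, ρ, hd, sc, sd, hb, k1, k2, k3, k4, hM, har, ?_⟩
  refine ⟨hF.hR, Gd_suffix hc gA, Gd_suffix hd gB, ?_, ?_, ha, ?_, ?_, e1, e2, ?_, ?_⟩
  · omega
  · have h1 : ((D.toNat : ℕ) : ℤ) ≤ (R : ℤ) ^ 2 := by rw [hDc]; exact hD2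
    exact_mod_cast h1
  · rcases Nat.eq_zero_or_pos ρ with h | h
    · exfalso
      rw [h, hDD] at har
      have h2 : (0 : ℤ) < D * |D'| := mul_pos (by omega) (by omega)
      rw [← har] at h2
      simp at h2
    · exact h
  · have h1 : ((a * ρ : ℕ) : ℤ) ≤ ((R ^ 4 : ℕ) : ℤ) := by
      push_cast
      rw [har, hDD]
      calc D * |D'| ≤ (R : ℤ) ^ 2 * (R : ℤ) ^ 2 := mul_le_mul hD2 hD'2 (abs_nonneg _) hR0
        _ = (R : ℤ) ^ 4 := by ring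
    exact_mod_cast h1
  · rw [hDr]
    exact hM1
  · rw [hDr]
    exact hM2

theorem ev_ne (hF : Fam R A B S D D' M M') (gA : Gd R A) (gB : Gd R B) {c : List Bool} (hc : A <:+ c)
    {x1 x2 x3 x4 : PP} (hQ : Qd S c x1 x2 x3 x4) (hD : |D'| ≠ D) :
    ∃ (d : List Bool) (a ρ : ℕ), B <:+ d ∧ ss c ≤ R ∧ ss d ≤ R ∧ 1 ≤ a ∧ Mat M a c d ∧ (a : ℤ) * ρ = |D * D'| ∧
      |ll c - a / D * (Real.log (ρ / D) / (2 * (1 - a / D)))| ≤
        (R : ℝ) ^ 20 * Real.exp (-(2 * min (kap c) (kap d))) ∧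
      |ll d - Real.log (ρ / D) / (2 * (1 - a / D))| ≤
        (R : ℝ) ^ 20 * Real.exp (-(2 * min (kap c) (kap d))) := by
  obtain ⟨d, b, a, ρ, hd, sc, sd, hb, k1, k2, k3, k4, hM, har, hN⟩ := ev_num hF gA gB hc hQ
  have hDc := taf_cast hF
  have hDr := taf_castR hF
  have hD1 := hF.D1
  have hne : a ≠ D.toNat := by
    intro he
    have h1 := (num_eq hN he).1
    apply hD
    rw [he, h1, hDc, abs_mul, abs_of_pos (by omega : (0 : ℤ) < D)] at har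
    exact (mul_left_cancel₀ (by omega : D ≠ 0) har).symm
  have h2 := num_ne hN hne
  rw [hDr] at h2
  exact ⟨d, a, ρ, hd, sc, sd, hN.a1, hM, har, h2.1, h2.2⟩

theorem ev_eq (hF : Fam R A B S D D' M M') (gA : Gd R A) (gB : Gd R B) {c : List Bool} (hc : A <:+ c)
    {x1 x2 x3 x4 : PP} (hQ : Qd S c x1 x2 x3 x4) (hD : |D'| = D) :
    ∃ (d : List Bool) (b : Bool), B <:+ d ∧ ss c ≤ R ∧ ss d ≤ R ∧ (b = true ↔ 0 < D') ∧
      CC (b :: d) (uu x1.2) ∧ CC (b :: d) (uu x2.2) ∧ CC ((!b) :: d) (uu x3.2) ∧ CC ((!b) :: d) (uu x4.2) ∧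
      ap M (uu c) = D • uu d ∧ zz c = zz d := by
  obtain ⟨d, b, a, ρ, hd, sc, sd, hb, k1, k2, k3, k4, hM, har, hN⟩ := ev_num hF gA gB hc hQ
  have hDc := taf_cast hF
  have hD1 := hF.D1
  have h1 : a * ρ = D.toNat ^ 2 := by
    have h2 : ((a * ρ : ℕ) : ℤ) = ((D.toNat ^ 2 : ℕ) : ℤ) := by
      push_cast
      rw [har, abs_mul, abs_of_pos (by omega : (0 : ℤ) < D), hD, ← hDc]
      simp only [Int.toNat_natCast]
      ring
    exact_mod_cast h2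
  have h3 := num_sq hN h1
  have h4 := (num_eq hN h3).2
  refine ⟨d, b, hd, sc, sd, hb, k1, k2, k3, k4, ?_, h4⟩
  have h5 : ap M (uu c) = (a : ℤ) • uu d := hM
  rw [h5, h3, hDc]

theorem mat_scalar (hF : Fam R A B S D D' M M') {v w : ℤ × ℤ} (hd : det v w ≠ 0) (hv : ap M v = D • v)
    (hw : ap M w = D • w) {x : PP} (hx : x ∈ S) : False := by
  have h1 := ind_decomp v w (uu x.1)
  have h2 : det v w • ap M (uu x.1) = det v w • (D • uu x.1) := by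
    rw [← ap_smul, h1, ap_add, ap_smul, ap_smul, hv, hw, smul_comm (det v w) D, h1, smul_add,
      smul_comm D (det (uu x.1) w), smul_comm D (det v (uu x.1))]
  have h3 := taf_cancel hd h2
  have h4 := hF.e1 x hx
  rw [h3] at h4
  have h5 := taf_cancel (by have := hF.D1; omega) h4
  exact (hF.pr x hx).1 (uu_inj h5).symm

end Pool.Agent.Lib.MP_94ab62_ntZ
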