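import Pool.Agent.Lib.MP_94ab62_ntZ.TaF
import Pool.Agent.Lib.MP_94ab62_ntZ.RaB

/-!
# TaG: nested events (`|D'| = D`), first part

`hQ : Qd S c x1 x2 x3 x4`, `hQ' : Qd S c' y1 y2 y3 y4` (TaF), `(β :: c) <:+ c'`.
* `nest_pos`.  All `yi.1` are below `c'`, hence below `β :: c`.  `0 < det (uu y1.1) (uu y4.1)`: `side_true hQ'.h1`, `side_false hQ'.h4`, `uu_trans`.
  - `β = true`: `Qd S c y1 y4 x3 x4`, `ev_eq` gives `d, b` with `CC (b :: d) (uu y1.2)`, `CC (b :: d) (uu y4.2)`; `β1 = b`.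
  - `β = false`: `Qd S c x1 x2 y1 y4`, `ev_eq` gives `CC ((!b) :: d) (uu y1.2)`, `(uu y4.2)`; `β1 = !b` (`!b = false ↔ b = true`).
  `ev_eq hF gA gB _ hQ'` gives `d'`, `b'` (`A <:+ c'`).  `CC d' (uu y1.2)`, `CC d' (uu y4.2)`: `cc_child`.
  - `0 < D'`: `b' = true`: `0 ≤ det (uu y1.2) (uu d')` (`cc_true`), `0 ≤ det (uu d') (uu y4.2)` (`cc_false`), `0 < det (uu y1.2) (uu y4.2)` (`fam_ord`); `cc_between`.
  - `D' < 0` (`hF.D'1`: `D' ≠ 0`): `b' = false`: `0 ≤ det (uu d') (uu y1.2)`, `0 ≤ det (uu y4.2) (uu d')`, `0 < det (uu y4.2) (uu y1.2)` (`fam_ord'`); `cc_between` (from `y4` to `y1`).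
* `nest_det`: `det (ap M (uu c)) (ap M (uu c')) = dM M * det (uu c) (uu c') = D D' det (uu c) (uu c')` (`det_ap`, `hF.dm`) and `= D^2 det (uu d) (uu d')` (`det_smul_left`, `det_smul_right`); absolute values, `|D'| = D ≥ 1`.
* `hv_side`: `hv (β :: c) (!β) = uu c` (cases on `β`); `zh_side`: `zh (β :: c) (!β) = zz c` (cases, `rfl`).
* `det_ray`: `|det (uu c) (uu (cn (β :: c) (!β) n))| = 1`: `uu_cn`, `wv_eq`, `hv_side`, `det_self`; `wv (β :: c) (!β) 0` is `g1 c` for `β = true`, `g2 c` for `β = false`; `det_g`.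
* `det_exit`: `en (β :: c) (!β) n <:+ c'` gives `2 ≤ |det (uu c) (uu c')|`: `en_coord` gives `cX = X ≥ 2`, and `cX (β :: c) (!β) v = ± det (uu c) v` (cases on `β`).
* `nest_ray`: `c' = cn (β :: c) (!β) n`: `det_ray`, `nest_det`: both determinants are `± 1`, `adj2`: `c = d`, `c' = d'`; `mat_scalar`.
* `nest_below`: `en (β :: c) (!β) n <:+ c'`, `CC (β1 :: d) (uu d')`, `|det (uu d) (uu d')| = |det (uu c) (uu c')| ≥ 2`: `cc_cases`; `uu d' = g1 (β1 :: d)` or `g2 (β1 :: d)`: these are `uu d`, `g1 d` or `g2 d`,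
  `|det (uu d) _| ≤ 1` (`uu d = g1 d + g2 d`, `det_g`), contradiction; so `(β1 :: d) <:+ d'`; `ray_cases (!β1)`: on the ray `det_ray` gives 1, contradiction.
-/

set_option autoImplicit false

namespace Pool.Agent.Lib.MP_94ab62_ntZ

open Pool.Agent.Lib.MP_94ab62_nt Pool.Agent.Lib.MP_94ab62_ntU

variable {R : ℕ} {A B : List Bool} {S : Set PP} {D D' : ℤ} {M M' : Mt}

theorem hv_side (c : List Bool) (β : Bool) : hv (β :: c) (!β) = uu c := by
  cases β
  · rfl
  · rfl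

theorem zh_side (c : List Bool) (β : Bool) : zh (β :: c) (!β) = zz c := by
  cases β
  · rfl
  · rfl

theorem tag_det_uu_g1 (c : List Bool) : det (uu c) (g1 c) = -1 := by
  show det (g1 c + g2 c) (g1 c) = -1
  rw [det_add_left, det_self, det_swap (g2 c) (g1 c), det_g]
  norm_num

theorem tag_det_uu_g2 (c : List Bool) : det (uu c) (g2 c) = 1 := by
  show det (g1 c + g2 c) (g2 c) = 1
  rw [det_add_left, det_self, det_g]
  norm_num

theorem det_ray (c : List Bool) (β : Bool) (n : ℕ) : |det (uu c) (uu (cn (β :: c) (!β) n))| = 1 := by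
  rw [uu_cn, wv_eq, hv_side, det_add_right, det_smul_right, det_self, mul_zero, add_zero]
  cases β
  · show |det (uu c) (g2 c)| = 1
    rw [tag_det_uu_g2]; norm_num
  · show |det (uu c) (g1 c)| = 1
    rw [tag_det_uu_g1]; norm_num

theorem det_exit {c c' : List Bool} {β : Bool} {n : ℕ} (h : en (β :: c) (!β) n <:+ c') :
    2 ≤ |det (uu c) (uu c')| := by
  obtain ⟨X, f, h1, h2, h3, _⟩ := en_coord h
  have hX : (2 : ℤ) ≤ X := by exact_mod_cast (by omega : 2 ≤ X)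
  cases β
  · have h4 : det (uu c) (uu c') = X := h3
    rw [h4]
    exact hX.trans (le_abs_self _)
  · have h4 : det (uu c') (uu c) = X := h3
    rw [det_swap, h4, abs_neg]
    exact hX.trans (le_abs_self _)

theorem nest_pos (hF : Fam R A B S D D' M M') (gA : Gd R A) (gB : Gd R B) (hD : |D'| = D) {c c' : List Bool}
    {β : Bool} (hc : A <:+ c) (hcc : (β :: c) <:+ c') {x1 x2 x3 x4 y1 y2 y3 y4 : PP} (hQ : Qd S c x1 x2 x3 x4)
    (hQ' : Qd S c' y1 y2 y3 y4) :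
    ∃ (d d' : List Bool) (β1 : Bool), B <:+ d ∧ ss c' ≤ R ∧ ss d' ≤ R ∧ (β1 = β ↔ 0 < D') ∧
      ap M (uu c) = D • uu d ∧ zz c = zz d ∧ ap M (uu c') = D • uu d' ∧ zz c' = zz d' ∧ CC (β1 :: d) (uu d') ∧
      CC d' (uu y1.2) ∧ CC d' (uu y4.2) := by
  have hAc' : A <:+ c' := hc.trans ((List.suffix_cons _ _).trans hcc)
  have h14 : 0 < det (uu y1.1) (uu y4.1) := uu_trans (side_true hQ'.h1) (side_false hQ'.h4)
  have k1 : (β :: c) <:+ y1.1 := hcc.trans ((List.suffix_cons _ _).trans hQ'.h1)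
  have k4 : (β :: c) <:+ y4.1 := hcc.trans ((List.suffix_cons _ _).trans hQ'.h4)
  obtain ⟨d', b', _, s1, s2, hb', q1, q2, q3, q4, e1, e2⟩ := ev_eq hF gA gB hAc' hQ' hD
  have key : ∃ (d : List Bool) (β1 : Bool), B <:+ d ∧ (β1 = β ↔ 0 < D') ∧ CC (β1 :: d) (uu y1.2) ∧
      CC (β1 :: d) (uu y4.2) ∧ ap M (uu c) = D • uu d ∧ zz c = zz d := by
    cases β
    · have hQ2 : Qd S c x1 x2 y1 y4 :=
        ⟨hQ.m1, hQ.m2, hQ'.m1, hQ'.m4, hQ.h1, hQ.h2, k1, k4, hQ.h12, h14⟩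
      obtain ⟨d, b, hB, _, _, hb, _, _, r3, r4, f1, f2⟩ := ev_eq hF gA gB hc hQ2 hD
      refine ⟨d, !b, hB, ?_, r3, r4, f1, f2⟩
      rw [← hb]
      cases b
      · simp
      · simp
    · have hQ2 : Qd S c y1 y4 x3 x4 :=
        ⟨hQ'.m1, hQ'.m4, hQ.m3, hQ.m4, k1, k4, hQ.h3, hQ.h4, h14, hQ.h34⟩
      obtain ⟨d, b, hB, _, _, hb, r1, r2, _, _, f1, f2⟩ := ev_eq hF gA gB hc hQ2 hD
      exact ⟨d, b, hB, hb, r1, r2, f1, f2⟩
  obtain ⟨d, β1, hB, hβ, r1, r4, f1, f2⟩ := key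
  refine ⟨d, d', β1, hB, s1, s2, hβ, f1, f2, e1, e2, ?_, cc_child q1, cc_child q4⟩
  have hD0 : D' ≠ 0 := by
    intro h
    have h2 := hF.D'1
    rw [h] at h2
    norm_num at h2
  rcases lt_or_gt_of_ne hD0 with hneg | hpos
  · have hbf : b' = false := by
      cases b'
      · rfl
      · exact absurd (hb'.1 rfl) (not_lt.2 hneg.le)
    subst hbf
    have a1 : 0 ≤ det (uu d') (uu y1.2) := (cc_false.1 q1).1
    have a2 : 0 ≤ det (uu y4.2) (uu d') := (cc_true.1 q4).2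
    exact cc_between r4 r1 (fam_ord' hF hneg hQ'.m1 hQ'.m4 h14) a2 a1
  · have hbt : b' = true := hb'.2 hpos
    subst hbt
    have a1 : 0 ≤ det (uu y1.2) (uu d') := (cc_true.1 q1).2
    have a2 : 0 ≤ det (uu d') (uu y4.2) := (cc_false.1 q4).1
    exact cc_between r1 r4 (fam_ord hF hpos hQ'.m1 hQ'.m4 h14) a1 a2

theorem nest_det (hF : Fam R A B S D D' M M') (hD : |D'| = D) {c c' d d' : List Bool}
    (h : ap M (uu c) = D • uu d) (h' : ap M (uu c') = D • uu d') :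
    |det (uu c) (uu c')| = |det (uu d) (uu d')| := by
  have h1 := det_ap M (uu c) (uu c')
  rw [h, h', hF.dm, det_smul_left, det_smul_right] at h1
  have hDp : 0 < D := lt_of_lt_of_le one_pos hF.D1
  have h2 : D * det (uu d) (uu d') = D' * det (uu c) (uu c') := by
    have : D * (D * det (uu d) (uu d')) = D * (D' * det (uu c) (uu c')) := by
      rw [h1]; ring
    exact mul_left_cancel₀ hDp.ne' this
  have h3 : D * |det (uu d) (uu d')| = D * |det (uu c) (uu c')| := by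
    have h4 := congrArg abs h2
    rw [abs_mul, abs_mul, hD, abs_of_pos hDp] at h4
    exact h4
  exact (mul_left_cancel₀ hDp.ne' h3).symm

theorem nest_ray (hF : Fam R A B S D D' M M') (hD : |D'| = D) {c d d' : List Bool} {β : Bool} {n : ℕ}
    (h : ap M (uu c) = D • uu d) (h' : ap M (uu (cn (β :: c) (!β) n)) = D • uu d') (hz : zz c = zz d)
    (hz' : zz (cn (β :: c) (!β) n) = zz d') {x : PP} (hx : x ∈ S) : False := by
  have h1 := det_ray c β n
  have h2 := nest_det hF hD h h'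
  rw [h1] at h2
  obtain ⟨e1, e2⟩ := adj2 h1 h2.symm hz hz'
  rw [← e1] at h
  rw [← e2] at h'
  refine mat_scalar hF ?_ h h' hx
  intro h0
  rw [h0] at h1
  norm_num at h1

theorem nest_below (hF : Fam R A B S D D' M M') (hD : |D'| = D) {c c' d d' : List Bool} {β β1 : Bool} {n : ℕ}
    (h : ap M (uu c) = D • uu d) (h' : ap M (uu c') = D • uu d') (he : en (β :: c) (!β) n <:+ c')
    (hd : CC (β1 :: d) (uu d')) : ∃ n', en (β1 :: d) (!β1) n' <:+ d' := by
  have h2 : 2 ≤ |det (uu d) (uu d')| := by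
    rw [← nest_det hF hD h h']
    exact det_exit he
  rcases cc_cases hd with h3 | h3 | h3
  · rcases ray_cases (!β1) h3 with ⟨n', hn⟩ | hn
    · rw [hn, det_ray] at h2
      norm_num at h2
    · exact hn
  · exfalso
    rw [h3] at h2
    cases β1
    · change 2 ≤ |det (uu d) (uu d)| at h2
      rw [det_self] at h2
      norm_num at h2
    · change 2 ≤ |det (uu d) (g1 d)| at h2
      rw [tag_det_uu_g1] at h2
      norm_num at h2
  · exfalso
    rw [h3] at h2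
    cases β1
    · change 2 ≤ |det (uu d) (g2 d)| at h2
      rw [tag_det_uu_g2] at h2
      norm_num at h2
    · change 2 ≤ |det (uu d) (uu d)| at h2
      rw [det_self] at h2
      norm_num at h2

end Pool.Agent.Lib.MP_94ab62_ntZ
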