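import Pool.Agent.Lib.MP_94ab62_ntZ.TaG
import Pool.Agent.Lib.MP_94ab62_ntZ.RaE
import Pool.Agent.Lib.MP_94ab62_ntZ.NtC
import Pool.Agent.Lib.MP_94ab62_ntZ.LrB

/-!
# TaH: nested events, second part (exit cones), and `nest`

Notation: `r = cn (β :: c) (!β) n`, `X = en (β :: c) (!β) n`, `y = zw (β :: c) (!β) n`, `r' = cn (β1 :: d) (!β1) n'`, `Y = en (β1 :: d) (!β1) n'`, `y' = zw (β1 :: d) (!β1) n'`.
* `exit_close`: `fam_close` with `y1 ≠ y4` at `v = uu c`: `CC X (uu y1.1)` (`X <:+ c' <:+ y1.1`, `cc_of_suffix`), `CC Y (uu y1.2)` (`cc_suffix` from `CC d'`).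
  `LL X (uu c) = F (zz c) - ee r` (`LL_en_hv`, `hv_side`, `zh_side`), `LL Y (ap M (uu c)) = LL Y (D • uu d) = D (F (zz d) - ee r')` (`LL_smul`), `zz c = zz d`, `nm (uu c) = ss c ≤ R` (`ss_suffix`), `D ≥ 1`:
  `|ee r' - ee r| ≤ 6 R^6 (ee X + ee Y)`; `ee_enG` (LrA): `ee X ≤ 2 exp (-2 F y) ee r`.
* `exit_lt` (`y < y'`, common entry `z`): Put `t = exp (-2 F y)`; `F y ≥ 20 log R` gives `t ≤ R^(-40)`; `F y ≤ F y'`, so `exp (-2 F y') ≤ t`.  From (h): `ee r - ee r' ≤ 12 R^6 t (ee r + ee r')`, so `ee r ≤ 2 ee r'`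
  (`12 R^6 t ≤ 12 R^(-34) ≤ 1/4`) and `9/10 (F y' - F y) ee r' ≤ ee r - ee r' ≤ 36 R^6 t ee r'`, `F y' - F y ≤ 40 R^6 t`.  This is `≤ 1`, so `F y' ≤ F y + 1`, `y' ≤ exp (F y') ≤ 3 exp (F y)` (`z_le_exp`, LrB),
  `F_gap` (NtC; needs `1 ≤ y`): `1/y' ≤ F y' - F y`: `exp (-F y)/3 ≤ 40 R^6 exp (-2 F y)`, `exp (F y) ≤ 120 R^6`, but `exp (F y) ≥ R^20`.  Contradiction.
* `nest_exit`: the entries of `tn r`: `(tn r).1 = y`, `(tn r).2.1 = zz c` if `!β = false`; `(tn r).1 = zz c`, `(tn r).2.1 = y` if `!β = true` (`zh_cn`, `zh_side`, definition of `zw`).  `y = y'` by `exit_lt` (twice; the kap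
  of `X`, `Y` is `F y`, `F y'` (`kap_en`), `≥ kap A`, `kap B ≥ 20 log R` by `kap_suffix`, `kap_gd`; `A <:+ X`: `A <:+ c`, and `c <:+ X`).  If `β ≠ β1`: `tri_sw`.  If `β = β1`: `tri_eq` gives `r = r'`, so `hv_cn`, `hv_side`:
  `uu c = uu d`, `c = d` (`uu_inj`), `n = n'` (`cn_inj`), `D' > 0`, so `D' = D`.
  `w = wv (β :: c) (!β) n`: `det (ap M w) (ap M (uu c)) = D D' det w (uu c)` (`det_ap`, `dm`), `ap M (uu c) = D • uu c`: `det (ap M w - D • w) (uu c) = 0`; `solve_uu`: `ap M w = D • w + k • uu c`.  `fam_close` at `v = w`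
  (`Y = X`): `|k| |LL X (uu c)| ≤ 12 R^5 ee X nm w`, `nm w ≤ R` (`w` is an edge of `r`, `nm_g1`, `nm_g2`, `m1, m2 ≤ ss`, `r <:+ X <:+ c'`), `LL X (uu c) ≥ 7/10` (`LL_pos`, `nm_uu`), `ee X ≤ 8/R^80` (`ee_good_small`,
  `Gd_suffix`), so `k = 0`; `mat_scalar` with `det w (uu c) ≠ 0` (`wv_eq`: it is `± 1`, or `det w (uu c) = det (wv 0) (uu c)`).
* `nest`: `nest_pos`, then `ray_cases (!β)` for `c'` below `β :: c`: `nest_ray` or `nest_below` + `nest_exit`.
-/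

set_option autoImplicit false

namespace Pool.Agent.Lib.MP_94ab62_ntZ

open Pool.Agent.Lib.MP_94ab62_nt Pool.Agent.Lib.MP_94ab62_ntU

variable {R : ℕ} {A B : List Bool} {S : Set PP} {D D' : ℤ} {M M' : Mt}


private theorem tah_pos (c0 : List Bool) (b : Bool) (n : ℕ) : 1 ≤ zw c0 b n := by
  have h := rs_ray c0 b
  cases n with
  | zero => exact h.hy
  | succ k =>
    have h1 := h.zlt k
    omega

private theorem tah_ent (c : List Bool) (β : Bool) (n : ℕ) :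
    (β = true ∧ (tn (cn (β :: c) (!β) n)).1 = zw (β :: c) (!β) n ∧
        (tn (cn (β :: c) (!β) n)).2.1 = zz c) ∨
      (β = false ∧ (tn (cn (β :: c) (!β) n)).1 = zz c ∧
        (tn (cn (β :: c) (!β) n)).2.1 = zw (β :: c) (!β) n) := by
  have h1 := zh_cn (β :: c) (!β) n
  have h2 := zh_side c β
  rw [h2] at h1
  cases β with
  | true =>
    refine Or.inl ⟨rfl, ?_, ?_⟩
    · simp [zw]
    · simpa using h1
  | false =>
    refine Or.inr ⟨rfl, ?_, ?_⟩
    · simpa using h1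
    · simp [zw]

private theorem tah_suf (c : List Bool) (β : Bool) (n : ℕ) : c <:+ en (β :: c) (!β) n := by
  have h1 : c <:+ (β :: c) := List.suffix_cons β c
  have h2 := cn_en_suffix (β :: c) (!β) (Nat.zero_le n)
  rw [cn_zero] at h2
  exact h1.trans h2

private theorem tah_nm (c0 : List Bool) (b : Bool) (n : ℕ) : nm (wv c0 b n) ≤ ss (cn c0 b n) := by
  unfold wv
  have h1 : m1 (cn c0 b n) ≤ ss (cn c0 b n) := by unfold ss; omega
  have h2 : m2 (cn c0 b n) ≤ ss (cn c0 b n) := by unfold ss; omega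
  split_ifs
  · rw [nm_g2]; exact_mod_cast h2
  · rw [nm_g1]; exact_mod_cast h1

private theorem tah_det (c : List Bool) (β : Bool) (n : ℕ) :
    det (wv (β :: c) (!β) n) (uu c) ≠ 0 := by
  have h1 := hv_cn (β :: c) (!β) n
  rw [hv_side] at h1
  rw [← h1]
  have h2 := det_g (cn (β :: c) (!β) n)
  unfold wv
  cases β with
  | true =>
    simp only [Bool.not_true, Bool.false_eq_true, if_false] at h1 h2 ⊢
    rw [h2]; norm_num
  | false =>
    simp only [Bool.not_false, if_true] at h1 h2 ⊢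
    rw [det_swap, h2]; norm_num

private theorem tah_E {R : ℕ} (hR : 100 ≤ R) {x : ℝ} (h : 20 * Real.log R ≤ x) :
    1000 * (R : ℝ) ^ 6 ≤ Real.exp x := by
  have hR' : (100 : ℝ) ≤ R := by exact_mod_cast hR
  have hR0 : (0 : ℝ) < R := by linarith
  have h1 : (R : ℝ) ^ 20 ≤ Real.exp x := by
    have e : Real.exp (20 * Real.log R) = (R : ℝ) ^ 20 := by
      rw [show (20 : ℝ) * Real.log R = ((20 : ℕ) : ℝ) * Real.log R by norm_num, Real.exp_nat_mul,
        Real.exp_log hR0]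
    rw [← e]
    exact Real.exp_le_exp.2 h
  have h2 : (1000 : ℝ) ≤ (R : ℝ) ^ 14 := by
    calc (1000 : ℝ) ≤ 100 ^ 14 := by norm_num
      _ ≤ (R : ℝ) ^ 14 := pow_le_pow_left₀ (by norm_num) hR' 14
  have h3 : (R : ℝ) ^ 20 = (R : ℝ) ^ 14 * (R : ℝ) ^ 6 := by ring
  have h4 : (0 : ℝ) ≤ (R : ℝ) ^ 6 := by positivity
  nlinarith

theorem exit_close (hF : Fam R A B S D D' M M') {c c' d d' : List Bool} {β β1 : Bool} {n n' : ℕ} {y1 y4 : PP}
    (m1 : y1 ∈ S) (m4 : y4 ∈ S) (hne : y1 ≠ y4) (k1 : c' <:+ y1.1) (k4 : c' <:+ y4.1) (hs : ss c' ≤ R)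
    (h : ap M (uu c) = D • uu d) (hz : zz c = zz d) (he : en (β :: c) (!β) n <:+ c')
    (he' : en (β1 :: d) (!β1) n' <:+ d') (q1 : CC d' (uu y1.2)) (q4 : CC d' (uu y4.2)) :
    |ee (cn (β :: c) (!β) n) - ee (cn (β1 :: d) (!β1) n')| ≤
      12 * (R : ℝ) ^ 6 * (Real.exp (-(2 * F (zw (β :: c) (!β) n))) * ee (cn (β :: c) (!β) n) +
        Real.exp (-(2 * F (zw (β1 :: d) (!β1) n'))) * ee (cn (β1 :: d) (!β1) n')) := by
  have hX : (β :: c) <:+ en (β :: c) (!β) n := by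
    have h2 := cn_en_suffix (β :: c) (!β) (Nat.zero_le n)
    rwa [cn_zero] at h2
  have a1 : CC (en (β :: c) (!β) n) (uu y1.1) := cc_of_suffix (he.trans k1)
  have a4 : CC (en (β :: c) (!β) n) (uu y4.1) := cc_of_suffix (he.trans k4)
  have b1 : CC (en (β1 :: d) (!β1) n') (uu y1.2) := cc_suffix he' q1
  have b4 : CC (en (β1 :: d) (!β1) n') (uu y4.2) := cc_suffix he' q4
  have hc := fam_close hF m1 m4 hne a1 a4 b1 b4 (uu c)
  have e1 : LL (en (β :: c) (!β) n) (uu c) = F (zz c) - ee (cn (β :: c) (!β) n) := by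
    have h1 := LL_en_hv (β :: c) (!β) n
    rwa [hv_side, zh_side] at h1
  have e2 : LL (en (β1 :: d) (!β1) n') (uu d) = F (zz d) - ee (cn (β1 :: d) (!β1) n') := by
    have h1 := LL_en_hv (β1 :: d) (!β1) n'
    rwa [hv_side, zh_side] at h1
  rw [h, LL_smul, e1, e2, hz, nm_uu] at hc
  have hD : (1 : ℝ) ≤ D := by exact_mod_cast hF.D1
  have hsc : (ss c : ℝ) ≤ R := by
    have h1 : ss c ≤ ss c' := ss_suffix (((List.suffix_cons β c).trans hX).trans he)
    exact_mod_cast h1.trans hs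
  have hl : (D : ℝ) * (F (zz d) - ee (cn (β :: c) (!β) n)) - D * (F (zz d) - ee (cn (β1 :: d) (!β1) n')) =
      -(D * (ee (cn (β :: c) (!β) n) - ee (cn (β1 :: d) (!β1) n'))) := by ring
  rw [hl, abs_neg, abs_mul, abs_of_pos (by linarith : (0 : ℝ) < D)] at hc
  have g1' := ee_enG (β :: c) (!β) n
  have g2' := ee_enG (β1 :: d) (!β1) n'
  have p1 := ee_pos (cn (β :: c) (!β) n)
  have p2 := ee_pos (cn (β1 :: d) (!β1) n')
  have px := ee_pos (en (β :: c) (!β) n)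
  have py := ee_pos (en (β1 :: d) (!β1) n')
  have hab := abs_nonneg (ee (cn (β :: c) (!β) n) - ee (cn (β1 :: d) (!β1) n'))
  have hs0 : (0 : ℝ) ≤ ss c := by positivity
  have hR5 : (0 : ℝ) ≤ (R : ℝ) ^ 5 := by positivity
  calc |ee (cn (β :: c) (!β) n) - ee (cn (β1 :: d) (!β1) n')|
      ≤ D * |ee (cn (β :: c) (!β) n) - ee (cn (β1 :: d) (!β1) n')| := by nlinarith
    _ ≤ 6 * (R : ℝ) ^ 5 * (ee (en (β :: c) (!β) n) + ee (en (β1 :: d) (!β1) n')) * ss c := hc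
    _ ≤ 6 * (R : ℝ) ^ 5 * (ee (en (β :: c) (!β) n) + ee (en (β1 :: d) (!β1) n')) * R :=
        mul_le_mul_of_nonneg_left hsc (by positivity)
    _ ≤ 6 * (R : ℝ) ^ 5 * (2 * Real.exp (-(2 * F (zw (β :: c) (!β) n))) * ee (cn (β :: c) (!β) n) +
        2 * Real.exp (-(2 * F (zw (β1 :: d) (!β1) n'))) * ee (cn (β1 :: d) (!β1) n')) * R := by
        refine mul_le_mul_of_nonneg_right ?_ (by positivity)
        refine mul_le_mul_of_nonneg_left ?_ (by positivity)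
        exact add_le_add g1' g2'
    _ = _ := by ring

theorem exit_lt (hR : 100 ≤ R) {r r' : List Bool} {y y' z : ℕ} (hy : 1 ≤ y)
    (hr : ((tn r).1 = y ∧ (tn r).2.1 = z) ∨ ((tn r).1 = z ∧ (tn r).2.1 = y))
    (hr' : ((tn r').1 = y' ∧ (tn r').2.1 = z) ∨ ((tn r').1 = z ∧ (tn r').2.1 = y')) (hlt : y < y')
    (hk : 20 * Real.log R ≤ F y)
    (h : |ee r - ee r'| ≤ 12 * (R : ℝ) ^ 6 * (Real.exp (-(2 * F y)) * ee r + Real.exp (-(2 * F y')) * ee r')) :
    False := by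
  have hE := tah_E hR hk
  have hR' : (100 : ℝ) ≤ R := by exact_mod_cast hR
  have hP : (1 : ℝ) ≤ (R : ℝ) ^ 6 := one_le_pow₀ (by linarith)
  set P : ℝ := (R : ℝ) ^ 6 with hPd
  have e0 : 0 < Real.exp (F y) := Real.exp_pos _
  set w : ℝ := Real.exp (-(F y)) with hw
  have hw0 : 0 < w := Real.exp_pos _
  have hwE : w * Real.exp (F y) = 1 := by
    rw [hw, ← Real.exp_add]; simp
  have ht : Real.exp (-(2 * F y)) = w ^ 2 := by
    rw [hw, ← Real.exp_nat_mul]; congr 1; push_cast; ring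
  have hFle : F y ≤ F y' := F_le hy hlt.le
  have ht' : Real.exp (-(2 * F y')) ≤ w ^ 2 := by
    rw [← ht]; exact Real.exp_le_exp.2 (by linarith)
  have pr := ee_pos r
  have pr' := ee_pos r'
  have hwP : w * P ≤ 1 / 1000 := by
    have h1 : w * (1000 * P) ≤ w * Real.exp (F y) := mul_le_mul_of_nonneg_left hE hw0.le
    rw [hwE] at h1
    linarith
  have hw1 : w ≤ 1 / 1000 := by
    have h1 : w * 1 ≤ w * P := mul_le_mul_of_nonneg_left hP hw0.le
    linarith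
  have hwP0 : 0 < w * P := by positivity
  have hq : P * w ^ 2 ≤ 1 / 1000 * w := by
    have h1 : P * w ^ 2 = (w * P) * w := by ring
    rw [h1]; exact mul_le_mul_of_nonneg_right hwP hw0.le
  have hq0 : 0 < P * w ^ 2 := by positivity
  have hm : ee r - ee r' ≤ 12 * (P * w ^ 2) * (ee r + ee r') := by
    have h1 := (le_abs_self _).trans h
    rw [ht] at h1
    have h2 : Real.exp (-(2 * F y')) * ee r' ≤ w ^ 2 * ee r' := mul_le_mul_of_nonneg_right ht' pr'.le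
    have h3 : 12 * P * (w ^ 2 * ee r + Real.exp (-(2 * F y')) * ee r') ≤
        12 * P * (w ^ 2 * ee r + w ^ 2 * ee r') :=
      mul_le_mul_of_nonneg_left (by linarith) (by linarith)
    calc ee r - ee r' ≤ _ := h1
      _ ≤ _ := h3
      _ = _ := by ring
  have hq1 : 12 * (P * w ^ 2) ≤ 1 / 4 := by linarith
  have h2 : ee r ≤ 2 * ee r' := by
    have h1 : 12 * (P * w ^ 2) * (ee r + ee r') ≤ 1 / 4 * (ee r + ee r') :=
      mul_le_mul_of_nonneg_right hq1 (by linarith)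
    linarith
  have h3 : ee r - ee r' ≤ 36 * (P * w ^ 2) * ee r' := by
    have h1 : 12 * (P * w ^ 2) * (ee r + ee r') ≤ 12 * (P * w ^ 2) * (3 * ee r') :=
      mul_le_mul_of_nonneg_left (by linarith) (by linarith)
    linarith
  have h4 := (ee_ratio hr hr' hlt).trans h3
  have h5 : 9 / 10 * (F y' - F y) ≤ 36 * (P * w ^ 2) := le_of_mul_le_mul_right h4 pr'
  have h6 : F y' - F y ≤ 40 * (P * w ^ 2) := by linarith
  have h7 : F y' ≤ F y + 1 := by linarith
  have h8 : (y' : ℝ) ≤ 3 * Real.exp (F y) := by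
    have h9 := z_le_exp (z := y') (by omega)
    have h10 : Real.exp (F y') ≤ Real.exp (F y) * Real.exp 1 := by
      rw [← Real.exp_add]; exact Real.exp_le_exp.2 h7
    have h11 : Real.exp 1 ≤ 3 := by
      have := Real.exp_one_lt_d9
      linarith
    nlinarith
  have h12 := F_gap hy hlt
  have hy' : (0 : ℝ) < y' := by
    have : 0 < y' := by omega
    exact_mod_cast this
  have h13 : w / 3 ≤ 1 / (y' : ℝ) := by
    rw [le_div_iff₀ hy']
    have h14 : w / 3 * y' ≤ w / 3 * (3 * Real.exp (F y)) := mul_le_mul_of_nonneg_left h8 (by positivity)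
    have h15 : w / 3 * (3 * Real.exp (F y)) = w * Real.exp (F y) := by ring
    rw [h15, hwE] at h14
    exact h14
  have h16 : w / 3 ≤ 40 * (1 / 1000 * w) := by linarith
  linarith


private theorem tah_k {R : ℕ} (hR : 100 ≤ R) {A : List Bool} (gA : Gd R A) {c : List Bool} (hc : A <:+ c) (β : Bool)
    (n : ℕ) : 20 * Real.log R ≤ F (zw (β :: c) (!β) n) := by
  rw [← kap_en]
  exact kap_gd.1 (Gd_suffix (hc.trans (tah_suf c β n)) gA)

private theorem tah_y (hF : Fam R A B S D D' M M') (gA : Gd R A) (gB : Gd R B)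
    {c c' d d' : List Bool} {β β1 : Bool} {n n' : ℕ} {y1 y4 : PP} (hc : A <:+ c) (hB : B <:+ d)
    (m1 : y1 ∈ S) (m4 : y4 ∈ S) (hne : y1 ≠ y4) (k1 : c' <:+ y1.1) (k4 : c' <:+ y4.1) (hs : ss c' ≤ R)
    (h : ap M (uu c) = D • uu d) (hz : zz c = zz d)
    (he : en (β :: c) (!β) n <:+ c') (he' : en (β1 :: d) (!β1) n' <:+ d') (q1 : CC d' (uu y1.2))
    (q4 : CC d' (uu y4.2)) : zw (β :: c) (!β) n = zw (β1 :: d) (!β1) n' := by
  have hex := exit_close hF m1 m4 hne k1 k4 hs h hz he he' q1 q4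
  have hr : ((tn (cn (β :: c) (!β) n)).1 = zw (β :: c) (!β) n ∧ (tn (cn (β :: c) (!β) n)).2.1 = zz c) ∨
      ((tn (cn (β :: c) (!β) n)).1 = zz c ∧ (tn (cn (β :: c) (!β) n)).2.1 = zw (β :: c) (!β) n) := by
    rcases tah_ent c β n with h1 | h1
    · exact Or.inl h1.2
    · exact Or.inr h1.2
  have hr' : ((tn (cn (β1 :: d) (!β1) n')).1 = zw (β1 :: d) (!β1) n' ∧
        (tn (cn (β1 :: d) (!β1) n')).2.1 = zz c) ∨
      ((tn (cn (β1 :: d) (!β1) n')).1 = zz c ∧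
        (tn (cn (β1 :: d) (!β1) n')).2.1 = zw (β1 :: d) (!β1) n') := by
    rw [hz]
    rcases tah_ent d β1 n' with h1 | h1
    · exact Or.inl h1.2
    · exact Or.inr h1.2
  have hk := tah_k hF.hR gA hc β n
  have hk' := tah_k hF.hR gB hB β1 n'
  rcases lt_trichotomy (zw (β :: c) (!β) n) (zw (β1 :: d) (!β1) n') with hlt | heq | hlt
  · exact (exit_lt hF.hR (tah_pos _ _ _) hr hr' hlt hk hex).elim
  · exact heq
  · refine (exit_lt hF.hR (tah_pos _ _ _) hr' hr hlt hk' ?_).elim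
    rw [abs_sub_comm, add_comm]
    exact hex

private theorem tah_same (hF : Fam R A B S D D' M M') (gA : Gd R A) (hD : D' = D)
    {c c' d' : List Bool} {β : Bool} {n : ℕ} {y1 y4 : PP} (hc : A <:+ c)
    (m1 : y1 ∈ S) (m4 : y4 ∈ S) (hne : y1 ≠ y4) (k1 : c' <:+ y1.1) (k4 : c' <:+ y4.1) (hs : ss c' ≤ R)
    (h : ap M (uu c) = D • uu c)
    (he : en (β :: c) (!β) n <:+ c') (he' : en (β :: c) (!β) n <:+ d') (q1 : CC d' (uu y1.2))
    (q4 : CC d' (uu y4.2)) : False := by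
  have hD1 := hF.D1
  have hR : (100 : ℝ) ≤ R := by exact_mod_cast hF.hR
  set w := wv (β :: c) (!β) n with hw
  have hdet : det (ap M w) (uu c) = D * det w (uu c) := by
    have h1 := det_ap M w (uu c)
    rw [h, det_smul_right, hF.dm, hD] at h1
    have h2 : D * (det (ap M w) (uu c) - D * det w (uu c)) = 0 := by linarith
    rcases mul_eq_zero.1 h2 with h3 | h3
    · omega
    · linarith
  have hdet0 : det (ap M w + (-D) • w) (uu c) = 0 := by
    rw [det_add_left, det_smul_left, hdet]; ring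
  obtain ⟨k, hk⟩ := solve_uu hdet0
  have hapw : ap M w = D • w + k • uu c := by
    rw [← hk, neg_smul]; abel
  have a1 : CC (en (β :: c) (!β) n) (uu y1.1) := cc_of_suffix (he.trans k1)
  have a4 : CC (en (β :: c) (!β) n) (uu y4.1) := cc_of_suffix (he.trans k4)
  have b1 : CC (en (β :: c) (!β) n) (uu y1.2) := cc_suffix he' q1
  have b4 : CC (en (β :: c) (!β) n) (uu y4.2) := cc_suffix he' q4
  have hcl := fam_close hF m1 m4 hne a1 a4 b1 b4 w
  rw [hapw, LL_add, LL_smul, LL_smul] at hcl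
  have hl : (D : ℝ) * LL (en (β :: c) (!β) n) w -
      (D * LL (en (β :: c) (!β) n) w + k * LL (en (β :: c) (!β) n) (uu c)) =
      -(k * LL (en (β :: c) (!β) n) (uu c)) := by ring
  rw [hl, abs_neg, abs_mul] at hcl
  have hL : 7 / 5 ≤ LL (en (β :: c) (!β) n) (uu c) := by
    have hp := uu_pos c
    have h1 := LL_pos (en (β :: c) (!β) n) (v := uu c) (by linarith [hp.1]) (by linarith [hp.2])
    rw [nm_uu] at h1
    have h2 : (2 : ℝ) ≤ ss c := by exact_mod_cast ss_ge c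
    linarith
  have hnw : nm w ≤ R := by
    have h1 := tah_nm (β :: c) (!β) n
    have h2 : cn (β :: c) (!β) n <:+ c' := (cn_en_suffix (β :: c) (!β) le_rfl).trans he
    have h3 : (ss (cn (β :: c) (!β) n) : ℝ) ≤ R := by exact_mod_cast (ss_suffix h2).trans hs
    exact h1.trans h3
  have hee : ee (en (β :: c) (!β) n) ≤ 8 / (R : ℝ) ^ 80 :=
    ee_good_small (by have := hF.hR; omega) (Gd_suffix (hc.trans (tah_suf c β n)) gA)
  have hn0 := nm_nonneg w
  have he0 := ee_pos (en (β :: c) (!β) n)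
  have hsm : 6 * (R : ℝ) ^ 5 * (ee (en (β :: c) (!β) n) + ee (en (β :: c) (!β) n)) * nm w ≤ 1 := by
    have h1 : 6 * (R : ℝ) ^ 5 * (ee (en (β :: c) (!β) n) + ee (en (β :: c) (!β) n)) * nm w ≤
        6 * (R : ℝ) ^ 5 * (8 / (R : ℝ) ^ 80 + 8 / (R : ℝ) ^ 80) * R :=
      mul_le_mul (mul_le_mul_of_nonneg_left (by linarith) (by positivity)) hnw hn0 (by positivity)
    have h2 : 6 * (R : ℝ) ^ 5 * (8 / (R : ℝ) ^ 80 + 8 / (R : ℝ) ^ 80) * R = 96 / (R : ℝ) ^ 74 := by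
      have hR0 : (R : ℝ) ≠ 0 := by linarith
      field_simp
      ring
    have h3 : 96 / (R : ℝ) ^ 74 ≤ 1 := by
      rw [div_le_one (by positivity)]
      calc (96 : ℝ) ≤ R := by linarith
        _ = (R : ℝ) ^ 1 := (pow_one _).symm
        _ ≤ (R : ℝ) ^ 74 := pow_le_pow_right₀ (by linarith) (by norm_num)
    linarith
  have hk1 : |(k : ℝ)| * |LL (en (β :: c) (!β) n) (uu c)| ≤ 1 := hcl.trans hsm
  have hLa : 7 / 5 ≤ |LL (en (β :: c) (!β) n) (uu c)| := hL.trans (le_abs_self _)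
  have hk2 : |(k : ℝ)| < 1 := by
    have h1 := abs_nonneg (k : ℝ)
    nlinarith
  have hk0 : k = 0 := by
    have h1 : |k| < 1 := by exact_mod_cast hk2
    exact Int.abs_lt_one_iff.1 h1
  rw [hk0, zero_smul, add_zero] at hapw
  exact mat_scalar hF (tah_det c β n) hapw h m1


private theorem tah_cd {c d : List Bool} {β β1 : Bool} {n n' : ℕ} (hb : β1 = β)
    (h : cn (β :: c) (!β) n = cn (β1 :: d) (!β1) n') : c = d ∧ n = n' := by
  subst hb
  have h1 := hv_cn (β1 :: c) (!β1) n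
  have h2 := hv_cn (β1 :: d) (!β1) n'
  rw [h, h2, hv_side, hv_side] at h1
  have h3 : d = c := uu_inj h1
  subst h3
  exact ⟨rfl, cn_inj h⟩

theorem nest_exit (hF : Fam R A B S D D' M M') (gA : Gd R A) (gB : Gd R B) (hD : |D'| = D)
    {c c' d d' : List Bool} {β β1 : Bool} {n n' : ℕ} {y1 y4 : PP} (hc : A <:+ c) (hB : B <:+ d)
    (m1 : y1 ∈ S) (m4 : y4 ∈ S) (hne : y1 ≠ y4) (k1 : c' <:+ y1.1) (k4 : c' <:+ y4.1) (hs : ss c' ≤ R)
    (hb : β1 = β ↔ 0 < D') (h : ap M (uu c) = D • uu d) (hz : zz c = zz d)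
    (he : en (β :: c) (!β) n <:+ c') (he' : en (β1 :: d) (!β1) n' <:+ d') (q1 : CC d' (uu y1.2))
    (q4 : CC d' (uu y4.2)) : False := by
  have hy := tah_y hF gA gB hc hB m1 m4 hne k1 k4 hs h hz he he' q1 q4
  rcases tah_ent c β n with ⟨hβ, e1, e2⟩ | ⟨hβ, e1, e2⟩
  · rcases tah_ent d β1 n' with ⟨hβ1, f1, f2⟩ | ⟨hβ1, f1, f2⟩
    · have hbb : β1 = β := by rw [hβ, hβ1]
      have hpos := hb.1 hbb
      have hrr : cn (β :: c) (!β) n = cn (β1 :: d) (!β1) n' :=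
        tri_eq (by rw [e1, f1, hy]) (by rw [e2, f2, hz])
      have hcd := tah_cd hbb hrr
      subst hbb
      obtain ⟨hcd1, hcd2⟩ := hcd
      subst hcd1
      subst hcd2
      rw [abs_of_pos hpos] at hD
      exact tah_same hF gA hD hc m1 m4 hne k1 k4 hs h he he' q1 q4
    · exact tri_sw (p := cn (β :: c) (!β) n) (p' := cn (β1 :: d) (!β1) n') (by rw [e1, f2, hy])
        (by rw [e2, f1, hz])
  · rcases tah_ent d β1 n' with ⟨hβ1, f1, f2⟩ | ⟨hβ1, f1, f2⟩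
    · exact tri_sw (p := cn (β :: c) (!β) n) (p' := cn (β1 :: d) (!β1) n') (by rw [e1, f2, hz])
        (by rw [e2, f1, hy])
    · have hbb : β1 = β := by rw [hβ, hβ1]
      have hpos := hb.1 hbb
      have hrr : cn (β :: c) (!β) n = cn (β1 :: d) (!β1) n' :=
        tri_eq (by rw [e1, f1, hz]) (by rw [e2, f2, hy])
      have hcd := tah_cd hbb hrr
      subst hbb
      obtain ⟨hcd1, hcd2⟩ := hcd
      subst hcd1
      subst hcd2
      rw [abs_of_pos hpos] at hD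
      exact tah_same hF gA hD hc m1 m4 hne k1 k4 hs h he he' q1 q4

/-- there are no nested events if `|D'| = D` -/
theorem nest (hF : Fam R A B S D D' M M') (gA : Gd R A) (gB : Gd R B) (hD : |D'| = D) {c c' : List Bool}
    {β : Bool} (hc : A <:+ c) (hcc : (β :: c) <:+ c') {x1 x2 x3 x4 y1 y2 y3 y4 : PP} (hQ : Qd S c x1 x2 x3 x4)
    (hQ' : Qd S c' y1 y2 y3 y4) : False := by
  obtain ⟨d, d', β1, hB, hs, -, hb, h, hz, h', hz', hcd, q1, q4⟩ := nest_pos hF gA gB hD hc hcc hQ hQ'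
  have k1 : c' <:+ y1.1 := (List.suffix_cons true c').trans hQ'.h1
  have k4 : c' <:+ y4.1 := (List.suffix_cons false c').trans hQ'.h4
  have hne : y1 ≠ y4 := by
    intro e
    have h1 := side_true hQ'.h1
    have h2 := side_false hQ'.h4
    rw [e, det_swap] at h1
    linarith
  rcases ray_cases (!β) hcc with ⟨n, hn⟩ | ⟨n, hn⟩
  · subst hn
    exact nest_ray hF hD h h' hz hz' hQ.m1
  · obtain ⟨n', hn'⟩ := nest_below hF hD h h' hn hcd
    exact nest_exit hF gA gB hD hc hB hQ'.m1 hQ'.m4 hne k1 k4 hs hb h hz hn hn' q1 q4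

end Pool.Agent.Lib.MP_94ab62_ntZ
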