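import Pool.Agent.Lib.MP_94ab62_ntZ.TpA

/-!
# TaI: counting points of a tree by its events (pure combinatorics of lists)

`Evx X c`: at least two points of `X` below each child of `c`.
* `evx_split`: `{x ∈ X | A <:+ x} ⊆ {A} ∪ {x ∈ X | (true :: A) <:+ x} ∪ {x ∈ X | (false :: A) <:+ x}`: `A <:+ x`: `x = t ++ A`; `t = []`, or `t = t' ++ [b]` and `(b :: A) <:+ x`.  `Set.ncard_union_le`, finiteness from `hX`.
* `evx_sum`: if `Evx X A`, then the sets `{c | (true :: A) <:+ c ∧ Evx X c}`, `{c | (false :: A) <:+ c ∧ Evx X c}`, `{A}` are pairwise disjoint (length; `(true :: A) <:+ c` and `(false :: A) <:+ c` is impossible: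
  two suffixes of the same length are equal, `List.suffix_of_suffix_length_le` or `List.suffix_or_suffix_of_suffix`) and contained in `{c | A <:+ c ∧ Evx X c}`: `Set.encard_union_eq`, `encard_le_encard`.
  So `encard ≤ E` gives `E1, E2 : ℕ` with the two bounds and `E1 + E2 + 1 ≤ E` (finite encards: `Set.encard ≤ (E : ℕ∞)` so the sets are finite, take `ncard`).
* `ev_count`: induction on `dep`.  `dep = 0`: `A <:+ x`, `x.length ≤ A.length` so `x = A` (`List.IsSuffix.eq_of_length_le` or `List.IsSuffix.eq_of_length`): `ncard ≤ 1`.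
  Step: `n(A) ≤ 1 + n(true :: A) + n(false :: A)`.  If both are `≥ 2`: `Evx X A`, `evx_sum`, induction hypothesis for the two children (`(b :: A).length = A.length + 1`):
  `1 + 3 (E1+1)(dep+1) + 3 (E2+1)(dep+1) ≤ 3 (E+1)(dep+2)`.  If one of them is `≤ 1`: `n(A) ≤ 2 + 3 (E+1)(dep+1) ≤ 3 (E+1)(dep+2)` (the events below the child are events below `A`).
* `evx_two`: `2 ≤ ncard` gives two different elements (`Set.one_lt_ncard`), ordered by `lt_or_gt`.
-/

set_option autoImplicit false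

namespace Pool.Agent.Lib.MP_94ab62_ntZ

open Pool.Agent.Lib.MP_94ab62_nt Pool.Agent.Lib.MP_94ab62_ntU

/-- `c` is an event of the set `X` -/
def Evx (X : Set (List Bool)) (c : List Bool) : Prop :=
  2 ≤ {x | x ∈ X ∧ (true :: c) <:+ x}.ncard ∧ 2 ≤ {x | x ∈ X ∧ (false :: c) <:+ x}.ncard

theorem tai_cases {A x : List Bool} (h : A <:+ x) : x = A ∨ ∃ b, (b :: A) <:+ x := by
  obtain ⟨t, rfl⟩ := h
  rcases List.eq_nil_or_concat t with rfl | ⟨t', b, rfl⟩
  · exact Or.inl rfl
  · refine Or.inr ⟨b, t', ?_⟩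
    simp

theorem evx_split {X : Set (List Bool)} (hX : X.Finite) (A : List Bool) :
    {x | x ∈ X ∧ A <:+ x}.ncard ≤ 1 + {x | x ∈ X ∧ (true :: A) <:+ x}.ncard +
      {x | x ∈ X ∧ (false :: A) <:+ x}.ncard := by
  have hsub : {x | x ∈ X ∧ A <:+ x} ⊆
      ({A} ∪ {x | x ∈ X ∧ (true :: A) <:+ x}) ∪ {x | x ∈ X ∧ (false :: A) <:+ x} := by
    rintro x ⟨hx, hA⟩
    rcases tai_cases hA with h | ⟨b, h⟩
    · exact Or.inl (Or.inl h)
    · cases b with
      | true => exact Or.inl (Or.inr ⟨hx, h⟩)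
      | false => exact Or.inr ⟨hx, h⟩
  have hf1 : {x | x ∈ X ∧ (true :: A) <:+ x}.Finite := hX.subset fun x hx => hx.1
  have hf2 : {x | x ∈ X ∧ (false :: A) <:+ x}.Finite := hX.subset fun x hx => hx.1
  have h1 := Set.ncard_le_ncard hsub (((Set.finite_singleton A).union hf1).union hf2)
  have h2 := Set.ncard_union_le ({A} ∪ {x | x ∈ X ∧ (true :: A) <:+ x})
    {x | x ∈ X ∧ (false :: A) <:+ x}
  have h3 := Set.ncard_union_le {A} {x | x ∈ X ∧ (true :: A) <:+ x}
  rw [Set.ncard_singleton] at h3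
  omega

theorem evx_sum {X : Set (List Bool)} {A : List Bool} {E : ℕ} (hA : Evx X A)
    (hE : {c | A <:+ c ∧ Evx X c}.encard ≤ E) :
    ∃ E1 E2 : ℕ, E1 + E2 + 1 ≤ E ∧ {c | (true :: A) <:+ c ∧ Evx X c}.encard ≤ E1 ∧
      {c | (false :: A) <:+ c ∧ Evx X c}.encard ≤ E2 := by
  obtain ⟨hfin, hcard⟩ := Set.encard_le_coe_iff_finite_ncard_le.1 hE
  have hs1 : {c | (true :: A) <:+ c ∧ Evx X c} ⊆ {c | A <:+ c ∧ Evx X c} :=
    fun c hc => ⟨(List.suffix_cons true A).trans hc.1, hc.2⟩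
  have hs2 : {c | (false :: A) <:+ c ∧ Evx X c} ⊆ {c | A <:+ c ∧ Evx X c} :=
    fun c hc => ⟨(List.suffix_cons false A).trans hc.1, hc.2⟩
  have hf1 := hfin.subset hs1
  have hf2 := hfin.subset hs2
  refine ⟨{c | (true :: A) <:+ c ∧ Evx X c}.ncard, {c | (false :: A) <:+ c ∧ Evx X c}.ncard, ?_,
    ?_, ?_⟩
  · have hdis : Disjoint {c | (true :: A) <:+ c ∧ Evx X c} {c | (false :: A) <:+ c ∧ Evx X c} := by
      rw [Set.disjoint_left]
      rintro c ⟨h1, -⟩ ⟨h2, -⟩
      have h3 : (true :: A) = (false :: A) :=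
        List.IsSuffix.eq_of_length (List.suffix_of_suffix_length_le h1 h2 le_rfl) rfl
      exact Bool.false_ne_true (List.cons.inj h3).1.symm
    have hnot : A ∉ {c | (true :: A) <:+ c ∧ Evx X c} ∪ {c | (false :: A) <:+ c ∧ Evx X c} := by
      rintro (h | h)
      · have := h.1.length_le
        rw [List.length_cons] at this
        omega
      · have := h.1.length_le
        rw [List.length_cons] at this
        omega
    have hsub : insert A ({c | (true :: A) <:+ c ∧ Evx X c} ∪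
        {c | (false :: A) <:+ c ∧ Evx X c}) ⊆ {c | A <:+ c ∧ Evx X c} := by
      rintro c (rfl | h | h)
      · exact ⟨List.suffix_rfl, hA⟩
      · exact hs1 h
      · exact hs2 h
    have h1 := Set.ncard_le_ncard hsub hfin
    rw [Set.ncard_insert_of_notMem hnot (hf1.union hf2), Set.ncard_union_eq hdis hf1 hf2] at h1
    omega
  · rw [hf1.cast_ncard_eq]
  · rw [hf2.cast_ncard_eq]

theorem ev_count {X : Set (List Bool)} (hX : X.Finite) (dep : ℕ) (A : List Bool) (E : ℕ)
    (hd : ∀ x ∈ X, A <:+ x → x.length ≤ A.length + dep) (hE : {c | A <:+ c ∧ Evx X c}.encard ≤ E) :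
    {x | x ∈ X ∧ A <:+ x}.ncard ≤ 3 * (E + 1) * (dep + 1) := by
  induction dep generalizing A E with
  | zero =>
    have hsub : {x | x ∈ X ∧ A <:+ x} ⊆ {A} := by
      rintro x ⟨hx, hA⟩
      have h1 := hd x hx hA
      exact (hA.eq_of_length_le h1).symm
    have h1 := Set.ncard_le_ncard hsub (Set.finite_singleton A)
    rw [Set.ncard_singleton] at h1
    omega
  | succ dep ih =>
    have hdb : ∀ b : Bool, ∀ x ∈ X, (b :: A) <:+ x → x.length ≤ (b :: A).length + dep := by
      intro b x hx hbx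
      have h1 := hd x hx ((List.suffix_cons b A).trans hbx)
      rw [List.length_cons]
      omega
    have hEb : ∀ b : Bool, {c | (b :: A) <:+ c ∧ Evx X c}.encard ≤ E := by
      intro b
      refine (Set.encard_le_encard ?_).trans hE
      exact fun c hc => ⟨(List.suffix_cons b A).trans hc.1, hc.2⟩
    have h0 := evx_split hX A
    have hnl : 3 * (E + 1) * (dep + 1 + 1) = 3 * (E + 1) * (dep + 1) + 3 * (E + 1) := by ring
    by_cases h1 : 2 ≤ {x | x ∈ X ∧ (true :: A) <:+ x}.ncard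
    · by_cases h2 : 2 ≤ {x | x ∈ X ∧ (false :: A) <:+ x}.ncard
      · obtain ⟨E1, E2, h3, h4, h5⟩ := evx_sum ⟨h1, h2⟩ hE
        have i1 := ih (true :: A) E1 (hdb true) h4
        have i2 := ih (false :: A) E2 (hdb false) h5
        have h6 : 3 * (E1 + 1) * (dep + 1) + 3 * (E2 + 1) * (dep + 1) ≤
            3 * (E + 1) * (dep + 1) := by
          rw [← add_mul, ← mul_add]
          exact Nat.mul_le_mul_right _ (Nat.mul_le_mul_left _ (by omega))
        rw [hnl]
        omega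
      · have i1 := ih (true :: A) E (hdb true) (hEb true)
        rw [hnl]
        omega
    · have i2 := ih (false :: A) E (hdb false) (hEb false)
      rw [hnl]
      omega

theorem evx_two {X : Set (List Bool)} {c : List Bool} (h : 2 ≤ {x | x ∈ X ∧ c <:+ x}.ncard) :
    ∃ x ∈ X, ∃ y ∈ X, c <:+ x ∧ c <:+ y ∧ 0 < det (uu x) (uu y) := by
  have hfin : {x | x ∈ X ∧ c <:+ x}.Finite := Set.finite_of_ncard_ne_zero (by omega)
  obtain ⟨x, hx, y, hy, hne⟩ := (Set.one_lt_ncard hfin).1 (by omega)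
  rcases lt_or_gt hne with h1 | h1
  · exact ⟨x, hx.1, y, hy.1, hx.2, hy.2, h1⟩
  · exact ⟨y, hy.1, x, hx.1, hy.2, hx.2, h1⟩

end Pool.Agent.Lib.MP_94ab62_ntZ
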