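import Pool.Agent.Lib.MP_94ab62_ntZ.TaH
import Pool.Agent.Lib.MP_94ab62_ntZ.TaI

/-!
# TaJ: theorem T1

`X = Prod.fst '' S`.
* `qd_of_evx`: `evx_two` twice (the sets of `Evx` are `{x | x ∈ X ∧ (b :: c) <:+ x}`), choose preimages in `S`.
* `one_event` (`|D'| = D`): the events below `A` form a set with at most one element (`Set.encard_le_one_iff` or `Set.encard_le_one_iff_subsingleton`): let `c1 ≠ c2` be events, `Qd S c1 ..`, `Qd S c2 ..`.
  - `c1 <:+ c2`: `c2 = t ++ c1`, `t ≠ []`, so `(β :: c1) <:+ c2` for some `β`: `nest`.  `c2 <:+ c1`: the same.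
  - Otherwise `diverge`: `(b :: c) <:+ c1`, `((!b) :: c) <:+ c2`, `A <:+ c` (`suffix_meet`).  All four members of `c1` have first entries below `c1`, in particular the pair (first member `x1`, last member `x4`) with
    `0 < det (uu x1.1) (uu x4.1)` (`side_true`, `side_false`, `uu_trans`); same for `c2`.  They form a quadruple for `c` (if `b = true` the pair of `c1` comes first, otherwise the pair of `c2`): `Qd S c ..`.
    `nest` for `c` and `c1` (`(b :: c) <:+ c1`): contradiction.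
* `many_events` (`|D'| ≠ D`): let `N = |D D'|.toNat`, `1 ≤ N ≤ R^4 ≤ R^8`.  For an event `c` below `A`: `ev_ne` gives `d, a, ρ`; `a ∣ N` (`a ρ = N`), `ρ = N / a`.  So `c ∈ Prod.fst '' Cl a` where `Cl a` is the
  set in `CB` for `a`, `x = a / D * x'`, `x' = log (ρ/D) / (2 (1 - a/D))` with `ρ = N / a`.  So `{c | A <:+ c ∧ Evx X c} ⊆ ⋃ a ∈ N.divisors, Prod.fst '' (Cl a)`; `encard` of a finite union `≤ ∑ encard ≤
  N.divisors.card * μ ≤ Dv * μ` (`Set.encard_image_le`; for the finite union prove by `Finset.induction_on` or use `Set.encard_biUnion_le`/`Finset.sum_le_card_nsmul`).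
* `T1`: `{x ∈ X | A <:+ x} = X` (`hF.hA`); `ev_count` with `E = Dv * μ` or `E = 1`; `X.Finite` from `fam_finite`.
-/

set_option autoImplicit false

namespace Pool.Agent.Lib.MP_94ab62_ntZ

open Pool.Agent.Lib.MP_94ab62_nt Pool.Agent.Lib.MP_94ab62_ntU

variable {R : ℕ} {A B : List Bool} {S : Set PP} {D D' : ℤ} {M M' : Mt}

theorem taj_cons {c1 c2 : List Bool} (h : c1 <:+ c2) (hne : c1 ≠ c2) : ∃ β : Bool, (β :: c1) <:+ c2 := by
  obtain ⟨t, ht⟩ := h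
  rcases List.eq_nil_or_concat t with h0 | ⟨L, β, hL⟩
  · exfalso
    apply hne
    rw [h0] at ht
    exact ht
  · refine ⟨β, L, ?_⟩
    rw [← ht, hL]
    simp

theorem taj_union (s : Finset ℕ) (f : ℕ → Set (List Bool)) (μ : ℕ) (h : ∀ a ∈ s, (f a).encard ≤ μ) :
    (⋃ a ∈ s, f a).encard ≤ ((s.card * μ : ℕ) : ℕ∞) := by
  classical
  induction s using Finset.induction_on with
  | empty => simp
  | insert a s ha ih =>
    rw [Finset.set_biUnion_insert]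
    refine (Set.encard_union_le _ _).trans ?_
    rw [Finset.card_insert_of_notMem ha]
    have h1 := h a (Finset.mem_insert_self a s)
    have h2 := ih (fun b hb => h b (Finset.mem_insert_of_mem hb))
    calc _ ≤ (μ : ℕ∞) + ((s.card * μ : ℕ) : ℕ∞) := add_le_add h1 h2
      _ = (((s.card + 1) * μ : ℕ) : ℕ∞) := by
        rw [← Nat.cast_add]
        congr 1
        ring

theorem qd_of_evx {c : List Bool} (h : Evx (Prod.fst '' S) c) : ∃ x1 x2 x3 x4 : PP, Qd S c x1 x2 x3 x4 := by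
  obtain ⟨_, ⟨x1, m1, rfl⟩, _, ⟨x2, m2, rfl⟩, h1, h2, h12⟩ := evx_two h.1
  obtain ⟨_, ⟨x3, m3, rfl⟩, _, ⟨x4, m4, rfl⟩, h3, h4, h34⟩ := evx_two h.2
  exact ⟨x1, x2, x3, x4, m1, m2, m3, m4, h1, h2, h3, h4, h12, h34⟩

theorem taj_pair {c : List Bool} {x1 x2 x3 x4 : PP} (hQ : Qd S c x1 x2 x3 x4) :
    c <:+ x1.1 ∧ c <:+ x4.1 ∧ 0 < det (uu x1.1) (uu x4.1) := by
  refine ⟨(List.suffix_cons true c).trans hQ.h1, (List.suffix_cons false c).trans hQ.h4, ?_⟩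
  exact uu_trans (side_true hQ.h1) (side_false hQ.h4)

theorem one_event (hF : Fam R A B S D D' M M') (gA : Gd R A) (gB : Gd R B) (hD : |D'| = D) :
    {c | A <:+ c ∧ Evx (Prod.fst '' S) c}.encard ≤ 1 := by
  rw [Set.encard_le_one_iff]
  rintro c1 c2 ⟨a1, e1⟩ ⟨a2, e2⟩
  by_contra hne
  obtain ⟨x1, x2, x3, x4, hQ1⟩ := qd_of_evx e1
  obtain ⟨y1, y2, y3, y4, hQ2⟩ := qd_of_evx e2
  by_cases h12 : c1 <:+ c2
  · obtain ⟨β, hβ⟩ := taj_cons h12 hne
    exact nest hF gA gB hD a1 hβ hQ1 hQ2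
  by_cases h21 : c2 <:+ c1
  · obtain ⟨β, hβ⟩ := taj_cons h21 (Ne.symm hne)
    exact nest hF gA gB hD a2 hβ hQ2 hQ1
  obtain ⟨c, b, k1, k2⟩ := diverge h12 h21
  have hAc : A <:+ c := suffix_meet a1 a2 k1 k2
  obtain ⟨p1, p2, p3⟩ := taj_pair hQ1
  obtain ⟨q1, q2, q3⟩ := taj_pair hQ2
  cases b
  · have hQ : Qd S c y1 y4 x1 x4 :=
      ⟨hQ2.m1, hQ2.m4, hQ1.m1, hQ1.m4, k2.trans q1, k2.trans q2, k1.trans p1, k1.trans p2, q3, p3⟩
    exact nest hF gA gB hD hAc k1 hQ hQ1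
  · have hQ : Qd S c x1 x4 y1 y4 :=
      ⟨hQ1.m1, hQ1.m4, hQ2.m1, hQ2.m4, k1.trans p1, k1.trans p2, k2.trans q1, k2.trans q2, p3, q3⟩
    exact nest hF gA gB hD hAc k1 hQ hQ1

theorem many_events (hF : Fam R A B S D D' M M') (gA : Gd R A) (gB : Gd R B) (hD : |D'| ≠ D) {μ Dv : ℕ}
    (hCB : CB R A B M μ) (hDv : DvB R Dv) :
    {c | A <:+ c ∧ Evx (Prod.fst '' S) c}.encard ≤ ((Dv * μ : ℕ) : ℕ∞) := by
  have hD1 := hF.D1
  have hD2 := hF.D2
  have hD3 := hF.D'1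
  have hD4 := hF.D'2
  have hR := hF.hR
  obtain ⟨N, hN⟩ : ∃ N : ℕ, (N : ℤ) = |D * D'| := ⟨(|D * D'|).toNat, Int.toNat_of_nonneg (abs_nonneg _)⟩
  have hN1 : 1 ≤ N := by
    have h : (1 : ℤ) ≤ N := by
      rw [hN, abs_mul, abs_of_pos (by linarith : 0 < D)]
      nlinarith
    exact_mod_cast h
  have hN8 : N ≤ R ^ 8 := by
    have h : (N : ℤ) ≤ (R : ℤ) ^ 2 * (R : ℤ) ^ 2 := by
      rw [hN, abs_mul, abs_of_pos (by linarith : 0 < D)]
      exact mul_le_mul hD2 hD4 (abs_nonneg _) (by positivity)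
    have h' : N ≤ R ^ 2 * R ^ 2 := by exact_mod_cast h
    calc N ≤ R ^ 2 * R ^ 2 := h'
      _ = R ^ 4 := by ring
      _ ≤ R ^ 8 := Nat.pow_le_pow_right (by omega) (by norm_num)
  have hcard := hDv N hN1 hN8
  obtain ⟨xx, hxx⟩ : ∃ xx : ℕ → ℝ, ∀ a : ℕ, xx a = Real.log (((N / a : ℕ) : ℝ) / (D : ℝ)) / (2 * (1 - (a : ℝ) / (D : ℝ))) :=
    ⟨_, fun _ => rfl⟩
  obtain ⟨Cl, hCl⟩ : ∃ Cl : ℕ → Set PP, ∀ a : ℕ, Cl a = {y : PP | A <:+ y.1 ∧ B <:+ y.2 ∧ ss y.1 ≤ R ∧ ss y.2 ≤ R ∧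
      Mat M a y.1 y.2 ∧
      |ll y.1 - (a : ℝ) / (D : ℝ) * xx a| ≤ (R : ℝ) ^ 20 * Real.exp (-(2 * min (kap y.1) (kap y.2))) ∧
      |ll y.2 - xx a| ≤ (R : ℝ) ^ 20 * Real.exp (-(2 * min (kap y.1) (kap y.2)))} := ⟨_, fun _ => rfl⟩
  have hsub : {c | A <:+ c ∧ Evx (Prod.fst '' S) c} ⊆ ⋃ a ∈ N.divisors, Prod.fst '' (Cl a) := by
    rintro c ⟨hc, he⟩
    obtain ⟨x1, x2, x3, x4, hQ⟩ := qd_of_evx he
    obtain ⟨d, a, ρ, h1, h2, h3, h4, h5, h6, h7, h8⟩ := ev_ne hF gA gB hc hQ hD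
    have har : a * ρ = N := by
      have : ((a * ρ : ℕ) : ℤ) = (N : ℤ) := by
        rw [hN]
        push_cast
        exact h6
      exact_mod_cast this
    have hrho : ρ = N / a := by
      rw [← har]
      exact (Nat.mul_div_cancel_left ρ (by omega)).symm
    have hmem : a ∈ N.divisors := by
      rw [Nat.mem_divisors]
      exact ⟨⟨ρ, har.symm⟩, by omega⟩
    rw [Set.mem_iUnion₂]
    refine ⟨a, hmem, (c, d), ?_, rfl⟩
    rw [hCl]
    refine ⟨hc, h1, h2, h3, h5, ?_, ?_⟩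
    · rw [hxx, ← hrho]
      exact h7
    · rw [hxx, ← hrho]
      exact h8
  have hcl : ∀ a ∈ N.divisors, (Prod.fst '' (Cl a)).encard ≤ (μ : ℕ∞) := by
    intro a ha
    refine (Set.encard_image_le _ _).trans ?_
    rw [hCl]
    exact hCB a _ _ (Nat.pos_of_mem_divisors ha)
  calc {c | A <:+ c ∧ Evx (Prod.fst '' S) c}.encard ≤ (⋃ a ∈ N.divisors, Prod.fst '' (Cl a)).encard :=
        Set.encard_le_encard hsub
    _ ≤ ((N.divisors.card * μ : ℕ) : ℕ∞) := taj_union _ _ _ hcl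
    _ ≤ ((Dv * μ : ℕ) : ℕ∞) := by
        exact_mod_cast Nat.mul_le_mul_right μ hcard

theorem T1 (hF : Fam R A B S D D' M M') (gA : Gd R A) (gB : Gd R B) {μ Dv dep : ℕ}
    (hCB : CB R A B M μ) (hDv : DvB R Dv) (hd : ∀ x ∈ S, x.1.length ≤ A.length + dep) :
    (Prod.fst '' S).ncard ≤ 3 * (Dv * μ + 2) * (dep + 1) := by
  have hX : (Prod.fst '' S).Finite := (fam_finite hF).image _
  have hd' : ∀ x ∈ Prod.fst '' S, A <:+ x → x.length ≤ A.length + dep := by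
    rintro _ ⟨x, hx, rfl⟩ _
    exact hd x hx
  have heq : {x | x ∈ Prod.fst '' S ∧ A <:+ x} = Prod.fst '' S := by
    ext x
    constructor
    · exact fun h => h.1
    · rintro ⟨y, hy, rfl⟩
      exact ⟨⟨y, hy, rfl⟩, hF.hA y hy⟩
  by_cases hD : |D'| = D
  · have h1 := one_event hF gA gB hD
    have h2 := ev_count hX dep A 1 hd' (by exact_mod_cast h1)
    rw [heq] at h2
    refine h2.trans ?_
    apply Nat.mul_le_mul_right
    apply Nat.mul_le_mul_left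
    omega
  · have h1 := many_events hF gA gB hD hCB hDv
    have h2 := ev_count hX dep A (Dv * μ) hd' h1
    rw [heq] at h2
    refine h2.trans ?_
    apply Nat.mul_le_mul_right
    apply Nat.mul_le_mul_left
    omega

end Pool.Agent.Lib.MP_94ab62_ntZ
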