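import Pool.Agent.Lib.MP_94ab62_ntZ.TaA
import Pool.Agent.Lib.MP_94ab62_ntZ.TpE

/-!
# TbA: betweenness and tops without orientation

`Bt x y z`: `y` is strictly between `x` and `z`.  `Tu x z d`: `d` is the top node strictly between `x` and `z` (in one of the two orders).
* `bt_symm`: exchange the two cases.  `bt_ne`: `det_self`, `uu_trans`.
* `tu_exists`: `lt_or_gt`, `top_exists`.  `tu_below`: for `Top x z d` we have `0 < det (uu x) (uu z)` (`uu_trans` from `ht.2.1`, `ht.2.2.1`), so the second case of `Bt x y z` is impossible (it gives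
  `0 < det (uu z) (uu x)`, `det_swap`); `top_below`.  The other case is the same with `x, z` exchanged.  `tu_bt`: the definition of `Top`.  `tu_cc`: `top_cc`.  `tu_base`: `top_base`.
  `tu_mid`: `tu_below`, `cc_of_suffix`.
* `bt_four`: `Bt x1 x2 x3`, `Bt x2 x3 x4`: `det (uu x2) (uu x3)` fixes the same direction in both; `uu_trans`.  Both conclusions.
* `tu_comp`: `t` with `Tu x1 x4 t` (`tu_exists`, `bt_ne`); by `bt_four` and `tu_below`, `d <:+ ..`: more precisely (direction `x1 < x2 < x3 < x4`): `d` is strictly between `x1` and `x3`, hence strictly between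
  `x1` and `x4` (`uu_trans`), so `t <:+ d` (`tu_below`); in the same way `t <:+ e`.  `t ≠ x3` or `t = x3`: compare `t` with `x3` (`lt_or_gt`, or equal): if `t < x3` then `Bt x1 t x3`, `d <:+ t`, so `d = t`
  (`List.IsSuffix.eq_of_length` etc.: two lists which are suffixes of each other), `d <:+ e`.  Otherwise `x3 ≤ t`, so `x2 < t < x4`, `e <:+ t`, `e = t <:+ d`.  The other direction is the mirror image (or apply the
  first one to `x4, x3, x2, x1` with `bt_symm`, `tu_symm`, which exchanges the roles of `d` and `e`).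
* `tu_strict`: `Bt x1 x2 x3`, `Tu x1 x2 d`, `Tu x2 x3 e` implies `d ≠ e`: `u_d` is strictly between `u_x1` and `u_x2`, `u_e` strictly between `u_x2` and `u_x3`; `uu_trans`, `det_swap`.
* `bt_fam`: `fam_det`: `D det v = D' det u`; `D > 0`; signs (`D' > 0` or `D' < 0`, `hF.D'1`).
* `tu_size`: `size` with `D • ..`: `fam_Hd`: `D * Hd x.2 y.2 z.2 = D' * Hd x.1 y.1 z.1`, `|D|, |D'| ≥ 1`, `≤ R^2`; if `Top z.2 x.2 d` use `Hd_rev` (both sides change the sign) with `x, z` exchanged.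
  `ss ≤ R`: `hF.pr`.  `tu_size'`: the roles of the first and second entries exchanged (`a = D'`, `a' = D`).
* `tu_close`: `fam_close` and `tu_size'`: `x, z ∈ S`, `Tu x.1 z.1 h`, all three `y`-points in `CC Y`: `ee h ≤ 14 R^6 ee Y`, `|D LL h v - LL Y (M v)| ≤ 6 R^5 (ee h + ee Y) nm v ≤ 90 R^11 ee Y nm v`.
  `tu_close'`: the same with `tu_size` (`ee d ≤ 14 R^6 ee X`).
-/

set_option autoImplicit false

namespace Pool.Agent.Lib.MP_94ab62_ntZ

open Pool.Agent.Lib.MP_94ab62_nt Pool.Agent.Lib.MP_94ab62_ntU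

variable {R : ℕ} {A B : List Bool} {S : Set PP} {D D' : ℤ} {M M' : Mt}

/-- `y` is strictly between `x` and `z` -/
def Bt (x y z : List Bool) : Prop :=
  (0 < det (uu x) (uu y) ∧ 0 < det (uu y) (uu z)) ∨ (0 < det (uu z) (uu y) ∧ 0 < det (uu y) (uu x))

/-- `d` is the top node strictly between `x` and `z` -/
def Tu (x z d : List Bool) : Prop := Top x z d ∨ Top z x d

private theorem tba_as {p q : List Bool} (h1 : 0 < det (uu p) (uu q)) (h2 : 0 < det (uu q) (uu p)) : False := by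
  rw [det_swap] at h2
  omega

theorem bt_symm {x y z : List Bool} (h : Bt x y z) : Bt z y x := by
  exact Or.symm h

theorem tu_symm {x z d : List Bool} (h : Tu x z d) : Tu z x d := by
  exact Or.symm h

theorem bt_ne {x y z : List Bool} (h : Bt x y z) : x ≠ y ∧ y ≠ z ∧ x ≠ z := by
  have key : ∀ {p q : List Bool}, 0 < det (uu p) (uu q) → p ≠ q := by
    intro p q h0 hpq
    rw [hpq, det_self] at h0
    exact lt_irrefl _ h0
  rcases h with ⟨h1, h2⟩ | ⟨h1, h2⟩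
  · exact ⟨key h1, key h2, key (uu_trans h1 h2)⟩
  · exact ⟨(key h2).symm, (key h1).symm, (key (uu_trans h1 h2)).symm⟩

theorem tu_exists {x z : List Bool} (h : x ≠ z) : ∃ d, Tu x z d := by
  rcases lt_or_gt h with h1 | h1
  · obtain ⟨d, hd⟩ := top_exists h1
    exact ⟨d, Or.inl hd⟩
  · obtain ⟨d, hd⟩ := top_exists h1
    exact ⟨d, Or.inr hd⟩

theorem tu_below {x y z d : List Bool} (h : Tu x z d) (hy : Bt x y z) : d <:+ y := by
  rcases h with ht | ht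
  · rcases hy with ⟨h1, h2⟩ | ⟨h1, h2⟩
    · exact top_below ht h1 h2
    · exact (tba_as (uu_trans h1 h2) (uu_trans ht.2.1 ht.2.2.1)).elim
  · rcases hy with ⟨h1, h2⟩ | ⟨h1, h2⟩
    · exact (tba_as (uu_trans h1 h2) (uu_trans ht.2.1 ht.2.2.1)).elim
    · exact top_below ht h1 h2

theorem tu_bt {x z d : List Bool} (h : Tu x z d) : Bt x d z := by
  rcases h with ht | ht
  · exact Or.inl ⟨ht.2.1, ht.2.2.1⟩
  · exact Or.inr ⟨ht.2.1, ht.2.2.1⟩

theorem tu_cc {x z d : List Bool} (h : Tu x z d) : CC d (uu x) ∧ CC d (uu z) := by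
  rcases h with ht | ht
  · exact ⟨(top_cc ht).2.2.1, (top_cc ht).2.2.2⟩
  · exact ⟨(top_cc ht).2.2.2, (top_cc ht).2.2.1⟩

theorem tu_base {x z d B : List Bool} (h : Tu x z d) (h1 : B <:+ x) (h2 : B <:+ z) : B <:+ d := by
  rcases h with ht | ht
  · exact top_base ht h1 h2
  · exact top_base ht h2 h1

theorem tu_mid {x y z d : List Bool} (h : Tu x z d) (hy : Bt x y z) : CC d (uu y) := by
  exact cc_of_suffix (tu_below h hy)

theorem bt_four {x1 x2 x3 x4 : List Bool} (h : Bt x1 x2 x3) (h' : Bt x2 x3 x4) : Bt x1 x2 x4 ∧ Bt x1 x3 x4 := by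
  rcases h with ⟨a, b⟩ | ⟨a, b⟩
  · rcases h' with ⟨c, d⟩ | ⟨c, d⟩
    · exact ⟨Or.inl ⟨a, uu_trans b d⟩, Or.inl ⟨uu_trans a b, d⟩⟩
    · exact (tba_as b d).elim
  · rcases h' with ⟨c, d⟩ | ⟨c, d⟩
    · exact (tba_as a c).elim
    · exact ⟨Or.inr ⟨uu_trans c d, b⟩, Or.inr ⟨c, uu_trans a b⟩⟩

private theorem tba_trans {x d z w : List Bool} (h : Bt x d z) (h' : Bt x z w) : Bt x d w := by
  rcases h with ⟨a, b⟩ | ⟨a, b⟩
  · rcases h' with ⟨c, e⟩ | ⟨c, e⟩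
    · exact Or.inl ⟨a, uu_trans b e⟩
    · exact (tba_as (uu_trans a b) e).elim
  · rcases h' with ⟨c, e⟩ | ⟨c, e⟩
    · exact (tba_as (uu_trans a b) c).elim
    · exact Or.inr ⟨uu_trans c a, b⟩

private theorem tba_cases {x t y w : List Bool} (h : Bt x t w) (h' : Bt x y w) :
    Bt x t y ∨ t = y ∨ Bt y t w := by
  by_cases hne : t = y
  · exact Or.inr (Or.inl hne)
  rcases h with ⟨a, b⟩ | ⟨a, b⟩
  · rcases h' with ⟨c, e⟩ | ⟨c, e⟩
    · rcases lt_or_gt hne with h1 | h1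
      · exact Or.inl (Or.inl ⟨a, h1⟩)
      · exact Or.inr (Or.inr (Or.inl ⟨h1, b⟩))
    · exact (tba_as (uu_trans a b) (uu_trans c e)).elim
  · rcases h' with ⟨c, e⟩ | ⟨c, e⟩
    · exact (tba_as (uu_trans a b) (uu_trans c e)).elim
    · rcases lt_or_gt hne with h1 | h1
      · exact Or.inr (Or.inr (Or.inr ⟨a, h1⟩))
      · exact Or.inl (Or.inr ⟨h1, b⟩)

theorem tu_comp {x1 x2 x3 x4 d e : List Bool} (h : Bt x1 x2 x3) (h' : Bt x2 x3 x4) (hd : Tu x1 x3 d)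
    (he : Tu x2 x4 e) : d <:+ e ∨ e <:+ d := by
  obtain ⟨b1, b2⟩ := bt_four h h'
  have hd' := tba_trans (tu_bt hd) b2
  have he' := bt_symm (tba_trans (bt_symm (tu_bt he)) (bt_symm b1))
  obtain ⟨t, ht⟩ := tu_exists (bt_ne b1).2.2
  have td := tu_below ht hd'
  have te := tu_below ht he'
  rcases tba_cases (tu_bt ht) b2 with h1 | h1 | h1
  · exact Or.inl ((tu_below hd h1).trans te)
  · right
    have h2 := tu_below he h'
    rw [← h1] at h2
    exact h2.trans td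
  · right
    have h2 := bt_symm (tba_trans (bt_symm h1) (bt_symm h'))
    exact (tu_below he h2).trans td

theorem tu_strict {x1 x2 x3 d e : List Bool} (h : Bt x1 x2 x3) (hd : Tu x1 x2 d) (he : Tu x2 x3 e) : d ≠ e := by
  rintro rfl
  have h1 := tu_bt hd
  have h2 := tu_bt he
  rcases h with ⟨a, b⟩ | ⟨a, b⟩
  · rcases h1 with ⟨c, c'⟩ | ⟨c, c'⟩
    · rcases h2 with ⟨e, e'⟩ | ⟨e, e'⟩
      · exact tba_as c' e
      · exact tba_as b (uu_trans e e')
    · exact tba_as a (uu_trans c c')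
  · rcases h1 with ⟨c, c'⟩ | ⟨c, c'⟩
    · exact tba_as b (uu_trans c c')
    · rcases h2 with ⟨e, e'⟩ | ⟨e, e'⟩
      · exact tba_as a (uu_trans e e')
      · exact tba_as c e'

private theorem tba_pos (hF : Fam R A B S D D' M M') (h0 : 0 < D') {x y : PP} (hx : x ∈ S) (hy : y ∈ S) :
    0 < det (uu x.1) (uu y.1) ↔ 0 < det (uu x.2) (uu y.2) := by
  have h := fam_det hF hx hy
  have hD : 0 < D := by
    have := hF.D1
    omega
  constructor
  · intro h1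
    have h2 : 0 < D * det (uu x.2) (uu y.2) := by
      rw [h]
      exact mul_pos h0 h1
    exact (mul_pos_iff_of_pos_left hD).1 h2
  · intro h1
    have h2 : 0 < D' * det (uu x.1) (uu y.1) := by
      rw [← h]
      exact mul_pos hD h1
    exact (mul_pos_iff_of_pos_left h0).1 h2

private theorem tba_neg (hF : Fam R A B S D D' M M') (h0 : D' < 0) {x y : PP} (hx : x ∈ S) (hy : y ∈ S) :
    0 < det (uu x.1) (uu y.1) ↔ 0 < det (uu y.2) (uu x.2) := by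
  have h : D * det (uu y.2) (uu x.2) = (-D') * det (uu x.1) (uu y.1) := by
    rw [fam_det hF hy hx, det_swap (uu y.1) (uu x.1)]
    ring
  have hD : 0 < D := by
    have := hF.D1
    omega
  have h0' : 0 < -D' := by omega
  constructor
  · intro h1
    have h2 : 0 < D * det (uu y.2) (uu x.2) := by
      rw [h]
      exact mul_pos h0' h1
    exact (mul_pos_iff_of_pos_left hD).1 h2
  · intro h1
    have h2 : 0 < (-D') * det (uu x.1) (uu y.1) := by
      rw [← h]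
      exact mul_pos hD h1
    exact (mul_pos_iff_of_pos_left h0').1 h2

theorem bt_fam (hF : Fam R A B S D D' M M') {x y z : PP} (hx : x ∈ S) (hy : y ∈ S) (hz : z ∈ S) :
    Bt x.1 y.1 z.1 ↔ Bt x.2 y.2 z.2 := by
  have hD := hF.D'1
  rcases lt_trichotomy D' 0 with h0 | h0 | h0
  · have e1 := tba_neg hF h0 hx hy
    have e2 := tba_neg hF h0 hy hz
    have e3 := tba_neg hF h0 hz hy
    have e4 := tba_neg hF h0 hy hx
    unfold Bt
    rw [e1, e2, e3, e4]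
    constructor
    · rintro (⟨a, b⟩ | ⟨a, b⟩)
      · exact Or.inr ⟨b, a⟩
      · exact Or.inl ⟨b, a⟩
    · rintro (⟨a, b⟩ | ⟨a, b⟩)
      · exact Or.inr ⟨b, a⟩
      · exact Or.inl ⟨b, a⟩
  · rw [h0, abs_zero] at hD
    omega
  · have e1 := tba_pos hF h0 hx hy
    have e2 := tba_pos hF h0 hy hz
    have e3 := tba_pos hF h0 hz hy
    have e4 := tba_pos hF h0 hy hx
    unfold Bt
    rw [e1, e2, e3, e4]

private theorem tba_D (hF : Fam R A B S D D' M M') : 1 ≤ |(D : ℝ)| ∧ |(D : ℝ)| ≤ (R : ℝ) ^ 2 ∧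
    1 ≤ |(D' : ℝ)| ∧ |(D' : ℝ)| ≤ (R : ℝ) ^ 2 := by
  have h1 : (1 : ℝ) ≤ (D : ℝ) := by exact_mod_cast hF.D1
  have h2 : (D : ℝ) ≤ (R : ℝ) ^ 2 := by exact_mod_cast hF.D2
  have h3 : (1 : ℝ) ≤ |(D' : ℝ)| := by exact_mod_cast hF.D'1
  have h4 : |(D' : ℝ)| ≤ (R : ℝ) ^ 2 := by exact_mod_cast hF.D'2
  rw [abs_of_pos (by linarith : (0 : ℝ) < (D : ℝ))]
  exact ⟨h1, h2, h3, h4⟩

theorem tu_size (hF : Fam R A B S D D' M M') {x y z : PP} (hx : x ∈ S) (hy : y ∈ S) (hz : z ∈ S)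
    (hb : Bt x.1 y.1 z.1) {d D0 : List Bool} (ht : Tu x.2 z.2 d) (h1 : CC D0 (uu x.1)) (h2 : CC D0 (uu y.1))
    (h3 : CC D0 (uu z.1)) : ee d ≤ 14 * (R : ℝ) ^ 6 * ee D0 := by
  obtain ⟨a1, a2, a3, a4⟩ := tba_D hF
  have px := hF.pr x hx
  have py := hF.pr y hy
  have pz := hF.pr z hz
  have hb' := (bt_fam hF hx hy hz).1 hb
  rcases ht with ht | ht
  · rcases hb' with ⟨b1, b2⟩ | ⟨b1, b2⟩
    · exact size ht b1 b2 h1 h2 h3 px.2.2.1 py.2.2.1 pz.2.2.1 a1 a4 (fam_Hd hF hx hy hz)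
    · exact (tba_as (uu_trans b1 b2) (uu_trans ht.2.1 ht.2.2.1)).elim
  · rcases hb' with ⟨b1, b2⟩ | ⟨b1, b2⟩
    · exact (tba_as (uu_trans b1 b2) (uu_trans ht.2.1 ht.2.2.1)).elim
    · exact size ht b1 b2 h3 h2 h1 pz.2.2.1 py.2.2.1 px.2.2.1 a1 a4 (fam_Hd hF hz hy hx)

theorem tu_size' (hF : Fam R A B S D D' M M') {x y z : PP} (hx : x ∈ S) (hy : y ∈ S) (hz : z ∈ S)
    (hb : Bt x.2 y.2 z.2) {d D0 : List Bool} (ht : Tu x.1 z.1 d) (h1 : CC D0 (uu x.2)) (h2 : CC D0 (uu y.2))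
    (h3 : CC D0 (uu z.2)) : ee d ≤ 14 * (R : ℝ) ^ 6 * ee D0 := by
  obtain ⟨a1, a2, a3, a4⟩ := tba_D hF
  have px := hF.pr x hx
  have py := hF.pr y hy
  have pz := hF.pr z hz
  have hb' := (bt_fam hF hx hy hz).2 hb
  rcases ht with ht | ht
  · rcases hb' with ⟨b1, b2⟩ | ⟨b1, b2⟩
    · exact size ht b1 b2 h1 h2 h3 px.2.2.2 py.2.2.2 pz.2.2.2 a3 a2 (fam_Hd hF hx hy hz).symm
    · exact (tba_as (uu_trans b1 b2) (uu_trans ht.2.1 ht.2.2.1)).elim
  · rcases hb' with ⟨b1, b2⟩ | ⟨b1, b2⟩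
    · exact (tba_as (uu_trans b1 b2) (uu_trans ht.2.1 ht.2.2.1)).elim
    · exact size ht b1 b2 h3 h2 h1 pz.2.2.2 py.2.2.2 px.2.2.2 a3 a2 (fam_Hd hF hz hy hx).symm

private theorem tba_num (hR : 100 ≤ R) {e s n : ℝ} (he : 0 ≤ e) (hn : 0 ≤ n)
    (hs : s ≤ 14 * (R : ℝ) ^ 6 * e + e) : 6 * (R : ℝ) ^ 5 * s * n ≤ 90 * (R : ℝ) ^ 11 * e * n := by
  have hR1 : (1 : ℝ) ≤ (R : ℝ) := by
    have : (100 : ℝ) ≤ (R : ℝ) := by exact_mod_cast hR
    linarith
  have h6 : (1 : ℝ) ≤ (R : ℝ) ^ 6 := one_le_pow₀ hR1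
  have h1 : 6 * (R : ℝ) ^ 5 * s ≤ 90 * (R : ℝ) ^ 11 * e := by
    calc 6 * (R : ℝ) ^ 5 * s ≤ 6 * (R : ℝ) ^ 5 * (14 * (R : ℝ) ^ 6 * e + e) :=
          mul_le_mul_of_nonneg_left hs (by positivity)
      _ = 84 * (R : ℝ) ^ 11 * e + 6 * (R : ℝ) ^ 5 * (1 * e) := by ring
      _ ≤ 84 * (R : ℝ) ^ 11 * e + 6 * (R : ℝ) ^ 5 * ((R : ℝ) ^ 6 * e) := by
          have h2 : 1 * e ≤ (R : ℝ) ^ 6 * e := mul_le_mul_of_nonneg_right h6 he
          have h3 : 6 * (R : ℝ) ^ 5 * (1 * e) ≤ 6 * (R : ℝ) ^ 5 * ((R : ℝ) ^ 6 * e) :=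
            mul_le_mul_of_nonneg_left h2 (by positivity)
          linarith
      _ = 90 * (R : ℝ) ^ 11 * e := by ring
  exact mul_le_mul_of_nonneg_right h1 hn

theorem tu_close (hF : Fam R A B S D D' M M') {x y z : PP} (hx : x ∈ S) (hy : y ∈ S) (hz : z ∈ S)
    (hb : Bt x.2 y.2 z.2) {h Y : List Bool} (ht : Tu x.1 z.1 h) (h1 : CC Y (uu x.2)) (h2 : CC Y (uu y.2))
    (h3 : CC Y (uu z.2)) (v : ℤ × ℤ) : |D * LL h v - LL Y (ap M v)| ≤ 90 * (R : ℝ) ^ 11 * ee Y * nm v := by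
  have hne : x ≠ z := fun hxz => (bt_ne hb).2.2 (by rw [hxz])
  obtain ⟨c1, c2⟩ := tu_cc ht
  have e1 := fam_close hF hx hz hne c1 c2 h1 h3 v
  have e2 := tu_size' hF hx hy hz hb ht h1 h2 h3
  refine e1.trans ?_
  exact tba_num hF.hR (ee_pos Y).le (nm_nonneg v) (by linarith)

theorem tu_close' (hF : Fam R A B S D D' M M') {x y z : PP} (hx : x ∈ S) (hy : y ∈ S) (hz : z ∈ S)
    (hb : Bt x.1 y.1 z.1) {X d : List Bool} (ht : Tu x.2 z.2 d) (h1 : CC X (uu x.1)) (h2 : CC X (uu y.1))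
    (h3 : CC X (uu z.1)) (v : ℤ × ℤ) : |D * LL X v - LL d (ap M v)| ≤ 90 * (R : ℝ) ^ 11 * ee X * nm v := by
  have hne : x ≠ z := fun hxz => (bt_ne hb).2.2 (by rw [hxz])
  obtain ⟨c1, c2⟩ := tu_cc ht
  have e1 := fam_close hF hx hz hne h1 h3 c1 c2 v
  have e2 := tu_size hF hx hy hz hb ht h1 h2 h3
  refine e1.trans ?_
  exact tba_num hF.hR (ee_pos X).le (nm_nonneg v) (by linarith)

end Pool.Agent.Lib.MP_94ab62_ntZ
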