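import Pool.Agent.Lib.MP_94ab62_ntZ.TbA
import Pool.Agent.Lib.MP_94ab62_ntZ.RaB

/-!
# TbB: the index of a node below a ray

`Ix c0 b j y`: `y` is the ray node `cn c0 b j` or lies below the exit cone `en c0 b j`.
* `ix_exists`: `ray_cases`.  `ix_below`: `cn_en_suffix`.
* `ix_coord`: for `y = cn c0 b j`: `uu y = wv (j+1)` (`uu_cn`), `cX = 1`, `cY = j + 1` (`cX_wv`, `cY_wv`).  For `en c0 b j <:+ y`: `en_coord`: `cX = X`, `cY = j X + f`, `1 ≤ f < X`.
* `det_coord`: `v = cX v • wv 0 + cY v • hv` (`coord`) or directly by cases on `b` and `basis_decomp`: with `b = false`: `wv 0 = g1 c0`, `hv = g2 c0`, `cX v = det v (g2 c0)`, `cY v = det (g1 c0) v`,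
  `det v w = cX v cY w - cY v cX w` (`ind_decomp`-type identity; expand `v` and `w` in the basis `g1 c0, g2 c0`, `det_g`); `b = true`: the opposite sign.
* `ix_det`: `X1 Y2 - Y1 X2 ≥ X1 (j2 X2 + 1) - (j1 + 1) X1 X2 ≥ X1 > 0` as `j2 ≥ j1 + 1` (integers, `nlinarith`).
* `ix_bt`: `ix_det` twice; `b = false`: first case of `Bt`; `b = true`: second case.
* `ix_unique`: otherwise `j < j'` (or `>`), `ix_det` with `y = y'` and `det_self`: contradiction.
-/

set_option autoImplicit false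

namespace Pool.Agent.Lib.MP_94ab62_ntZ

open Pool.Agent.Lib.MP_94ab62_nt Pool.Agent.Lib.MP_94ab62_ntU

/-- the index of a node below `c0` with respect to the ray `(c0, b)` -/
def Ix (c0 : List Bool) (b : Bool) (j : ℕ) (y : List Bool) : Prop := y = cn c0 b j ∨ en c0 b j <:+ y

theorem ix_exists {c0 y : List Bool} (b : Bool) (h : c0 <:+ y) : ∃ j, Ix c0 b j y := by
  rcases ray_cases b h with ⟨n, hn⟩ | ⟨n, hn⟩
  · exact ⟨n, Or.inl hn⟩
  · exact ⟨n, Or.inr hn⟩

theorem ix_below {c0 y : List Bool} {b : Bool} {j : ℕ} (h : Ix c0 b j y) : cn c0 b j <:+ y := by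
  rcases h with h | h
  · rw [h]
  · exact (cn_en_suffix c0 b le_rfl).trans h

theorem ix_coord {c0 y : List Bool} {b : Bool} {j : ℕ} (h : Ix c0 b j y) :
    ∃ X Y : ℤ, 1 ≤ X ∧ j * X < Y ∧ Y ≤ (j + 1) * X ∧ cX c0 b (uu y) = X ∧ cY c0 b (uu y) = Y := by
  rcases h with h | h
  · refine ⟨1, (j : ℤ) + 1, le_rfl, by linarith, by linarith, ?_, ?_⟩
    · rw [h, uu_cn, cX_wv]
    · rw [h, uu_cn, cY_wv]
      push_cast
      ring
  · obtain ⟨X, f, h1, h2, h3, h4⟩ := en_coord h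
    have h1' : (1 : ℤ) ≤ f := by exact_mod_cast h1
    have h2' : (f : ℤ) < X := by exact_mod_cast h2
    refine ⟨X, j * X + f, by linarith, by linarith, by linarith, h3, h4⟩

theorem det_coord (c0 : List Bool) (b : Bool) (v w : ℤ × ℤ) :
    det v w = (if b then -1 else 1) * (cX c0 b v * cY c0 b w - cY c0 b v * cX c0 b w) := by
  have hg := det_g c0
  cases b
  · change det v w = 1 * (det v (g2 c0) * det (g1 c0) w - det (g1 c0) v * det w (g2 c0))
    unfold det at hg ⊢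
    linear_combination (-(v.1 * w.2 - v.2 * w.1)) * hg
  · change det v w = -1 * (det (g1 c0) v * det w (g2 c0) - det v (g2 c0) * det (g1 c0) w)
    unfold det at hg ⊢
    linear_combination (-(v.1 * w.2 - v.2 * w.1)) * hg

theorem ix_det {c0 y y' : List Bool} {b : Bool} {j j' : ℕ} (h : Ix c0 b j y) (h' : Ix c0 b j' y') (hj : j < j') :
    0 < (if b then (-1 : ℤ) else 1) * det (uu y) (uu y') := by
  obtain ⟨X, Y, h1, h2, h3, h4, h5⟩ := ix_coord h
  obtain ⟨X', Y', h1', h2', h3', h4', h5'⟩ := ix_coord h'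
  have hs : (if b then (-1 : ℤ) else 1) * (if b then (-1 : ℤ) else 1) = 1 := by
    cases b
    · rfl
    · rfl
  rw [det_coord c0 b, ← mul_assoc, hs, one_mul, h4, h5, h4', h5']
  have hj' : (j : ℤ) + 1 ≤ j' := by exact_mod_cast hj
  have e1 : ((j : ℤ) + 1) * X' ≤ j' * X' := mul_le_mul_of_nonneg_right hj' (by linarith)
  have e2 : X * (((j : ℤ) + 1) * X') < X * Y' := mul_lt_mul_of_pos_left (by linarith) (by linarith)
  have e3 : Y * X' ≤ ((j : ℤ) + 1) * X * X' := mul_le_mul_of_nonneg_right h3 (by linarith)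
  have e4 : X * (((j : ℤ) + 1) * X') = ((j : ℤ) + 1) * X * X' := by ring
  linarith

theorem ix_bt {c0 y1 y2 y3 : List Bool} {b : Bool} {j1 j2 j3 : ℕ} (h1 : Ix c0 b j1 y1) (h2 : Ix c0 b j2 y2)
    (h3 : Ix c0 b j3 y3) (h12 : j1 < j2) (h23 : j2 < j3) : Bt y1 y2 y3 := by
  have e1 := ix_det h1 h2 h12
  have e2 := ix_det h2 h3 h23
  have hsw : ∀ v w : ℤ × ℤ, det w v = -1 * det v w := by
    intro v w
    unfold det
    ring
  cases b
  · left
    change 0 < 1 * det (uu y1) (uu y2) at e1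
    change 0 < 1 * det (uu y2) (uu y3) at e2
    rw [one_mul] at e1 e2
    exact ⟨e1, e2⟩
  · right
    change 0 < -1 * det (uu y1) (uu y2) at e1
    change 0 < -1 * det (uu y2) (uu y3) at e2
    rw [← hsw] at e1 e2
    exact ⟨e2, e1⟩

theorem ix_unique {c0 y : List Bool} {b : Bool} {j j' : ℕ} (h : Ix c0 b j y) (h' : Ix c0 b j' y) : j = j' := by
  rcases lt_trichotomy j j' with h1 | h1 | h1
  · have h2 := ix_det h h' h1
    rw [det_self, mul_zero] at h2
    exact absurd h2 (lt_irrefl _)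
  · exact h1
  · have h2 := ix_det h' h h1
    rw [det_self, mul_zero] at h2
    exact absurd h2 (lt_irrefl _)

end Pool.Agent.Lib.MP_94ab62_ntZ
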