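import Pool.Agent.Lib.MP_94ab62_ntZ.TbB

/-!
# TbC: the chain lemma

A family with first entries of bounded depth below a good node `A` meets at most `2 dep + 6` indices of a ray through `B`.

`chain_step`: members `x1, x2, x3, x4` with indices `j1 < j2 < j3 < j4` of the second entries, `h = Tu x1.1 x3.1`, `h' = Tu x2.1 x4.1`.  Then `h <:+ h'`.
  Proof.  `Bt x1.2 x2.2 x3.2` etc. by `ix_bt`, hence `Bt x1.1 x2.1 x3.1`, `Bt x2.1 x3.1 x4.1` (`bt_fam`).  Let `d = Tu x1.2 x3.2`, `d' = Tu x2.2 x4.2` (`tu_exists`, `bt_ne`).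
  (1) `d <:+ d'`: `c = cn B b j2` has `Ix B b j2 c`, so `Bt x1.2 c x3.2` (`ix_bt`), `d <:+ c` (`tu_below`); `c <:+ x2.2` (`ix_below`), `c <:+ cn B b j4 <:+ x4.2` (`cn_suffix`, `ix_below`), so `c <:+ d'` (`tu_base`).
      So `ee d' ≤ ee d` (induction with `ee_cons_le`, or `ww`-type lemma; write `ee_suffix`: `c <:+ p → ee p ≤ ee c`).
  (2) `ee d ≤ 14 R^6 ee h`: `tu_size` with `D0 = h` (`tu_cc`, `tu_mid`); `ee h' ≤ 14 R^6 ee d'`: `tu_size'` with `D0 = d'`.
  (3) `tu_comp`: `h <:+ h'` (done) or `h' <:+ h`.  In the second case, if `h' ≠ h`: `(b' :: h') <:+ h` for some `b'`, `A <:+ h'` (`tu_base`, `hF.hA`), `Gd R h'` (`Gd_suffix`): `ee h ≤ ee (b' :: h') ≤ 2/R^40 ee h'`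
      (`ee_cons_good`) `≤ 2/R^40 * 14 R^6 ee d' ≤ 28 R^(-34) ee d ≤ 28 R^(-34) * 14 R^6 ee h < ee h`: contradiction (`R ≥ 100`, `ee_pos`).
`chain_two`: indices `j1 < ... < j5`, `h = Tu x1.1 x3.1`, `h'' = Tu x3.1 x5.1`: `h ≠ h''` (`tu_strict`, `Bt x1.1 x3.1 x5.1`).
`chain_len`: sequence `f : ℕ → ℕ`, `x : ℕ → PP`, for `i ≤ 2k + 2`: `x i ∈ S`, `Ix B b (f i) (x i).2`, `f` strictly increasing on `[0, 2k+2]`.  Then every `h` with `Tu (x (2k)).1 (x (2k+2)).1 h` has `A.length + k ≤ h.length`.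
  Induction on `k` (`k = 0`: `A <:+ h` by `tu_base`).  Step `k → k+1`: `h0 = Tu (x (2k)).1 (x (2k+2)).1`, `h1 = Tu (x (2k+1)).1 (x (2k+3)).1`, `h2 = h = Tu (x (2k+2)).1 (x (2k+4)).1` (`tu_exists`):
  `chain_step` twice: `h0 <:+ h1 <:+ h2`, `chain_two`: `h0 ≠ h2`, so `h0.length + 1 ≤ h2.length`.
`chain`: otherwise the set `V` contains `2 dep + 7` elements: an increasing enumeration `f 0 < f 1 < ... < f (2 dep + 6)` in `V` (e.g. a finite subset `t` of `V` with `t.card = 2 dep + 7`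
  (`Set.exists_subset_encard_eq` / `Finset`), `t.orderEmbOfFin`), choose members `x i`.  With `k = dep + 1` (`2k + 2 = 2 dep + 4`): `h = Tu (x (2k)).1 (x (2k+2)).1` has length `≥ A.length + dep + 1`, but
  `h <:+ (x (2k+1)).1` (`tu_below`, `Bt`), whose length is `≤ A.length + dep`.  Contradiction.
-/

set_option autoImplicit false

namespace Pool.Agent.Lib.MP_94ab62_ntZ

open Pool.Agent.Lib.MP_94ab62_nt Pool.Agent.Lib.MP_94ab62_ntU

variable {R : ℕ} {A B : List Bool} {S : Set PP} {D D' : ℤ} {M M' : Mt}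

theorem ee_suffix {c p : List Bool} (h : c <:+ p) : ee p ≤ ee c := by
  obtain ⟨r, rfl⟩ := h
  induction r with
  | nil => exact le_refl _
  | cons b r ih =>
    have h1 := ee_cons_le b (r ++ c)
    have h2 := ee_pos (r ++ c)
    rw [List.cons_append]
    linarith

private theorem tbc_bt (hF : Fam R A B S D D' M M') {b : Bool} {j1 j2 j3 : ℕ} {x1 x2 x3 : PP}
    (m1 : x1 ∈ S) (m2 : x2 ∈ S) (m3 : x3 ∈ S) (i1 : Ix B b j1 x1.2) (i2 : Ix B b j2 x2.2)
    (i3 : Ix B b j3 x3.2) (h12 : j1 < j2) (h23 : j2 < j3) : Bt x1.1 x2.1 x3.1 :=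
  (bt_fam hF m1 m2 m3).2 (ix_bt i1 i2 i3 h12 h23)

private theorem tbc_cons {c p : List Bool} (h : c <:+ p) (hne : c ≠ p) : ∃ b, (b :: c) <:+ p := by
  obtain ⟨r, rfl⟩ := h
  rcases List.eq_nil_or_concat r with h | ⟨r', b, h⟩
  · exact absurd (by rw [h, List.nil_append]) hne
  · exact ⟨b, r', by rw [h]; simp⟩

theorem chain_step (hF : Fam R A B S D D' M M') (gA : Gd R A) {b : Bool} {j1 j2 j3 j4 : ℕ} {x1 x2 x3 x4 : PP}
    (m1 : x1 ∈ S) (m2 : x2 ∈ S) (m3 : x3 ∈ S) (m4 : x4 ∈ S) (i1 : Ix B b j1 x1.2) (i2 : Ix B b j2 x2.2)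
    (i3 : Ix B b j3 x3.2) (i4 : Ix B b j4 x4.2) (h12 : j1 < j2) (h23 : j2 < j3) (h34 : j3 < j4)
    {h h' : List Bool} (ht : Tu x1.1 x3.1 h) (ht' : Tu x2.1 x4.1 h') : h <:+ h' := by
  have b1 := ix_bt i1 i2 i3 h12 h23
  have b2 := ix_bt i2 i3 i4 h23 h34
  have c1 := (bt_fam hF m1 m2 m3).2 b1
  have c2 := (bt_fam hF m2 m3 m4).2 b2
  obtain ⟨d, hd⟩ := tu_exists (bt_ne b1).2.2
  obtain ⟨d', hd'⟩ := tu_exists (bt_ne b2).2.2
  have e1 : d <:+ cn B b j2 := tu_below hd (ix_bt i1 (Or.inl rfl) i3 h12 h23)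
  have e2 : cn B b j2 <:+ d' :=
    tu_base hd' (ix_below i2) ((cn_suffix B b (by omega)).trans (ix_below i4))
  have e3 : ee d' ≤ ee d := ee_suffix (e1.trans e2)
  have e4 : ee d ≤ 14 * (R : ℝ) ^ 6 * ee h :=
    tu_size hF m1 m2 m3 c1 hd (tu_cc ht).1 (tu_mid ht c1) (tu_cc ht).2
  have e5 : ee h' ≤ 14 * (R : ℝ) ^ 6 * ee d' :=
    tu_size' hF m2 m3 m4 b2 ht' (tu_cc hd').1 (tu_mid hd' b2) (tu_cc hd').2
  rcases tu_comp c1 c2 ht ht' with h1 | h1
  · exact h1
  · by_cases hne : h' = h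
    · rw [hne]
    · exfalso
      obtain ⟨b', hb'⟩ := tbc_cons h1 hne
      have hA' : A <:+ h' := tu_base ht' (hF.hA _ m2) (hF.hA _ m4)
      have hG : Gd R h' := Gd_suffix hA' gA
      have hR := hF.hR
      have f1 : ee h ≤ ee (b' :: h') := ee_suffix hb'
      have f2 := ee_cons_good (by omega : 1 ≤ R) hG b'
      have hr : (100 : ℝ) ≤ R := by exact_mod_cast hR
      have hr0 : (0 : ℝ) < R := by linarith
      have hp := ee_pos h
      have f3 : ee h' ≤ 14 * (R : ℝ) ^ 6 * (14 * (R : ℝ) ^ 6 * ee h) := by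
        refine e5.trans ?_
        have := e3.trans e4
        gcongr
      have f4 : ee h ≤ 2 / (R : ℝ) ^ 40 * (14 * (R : ℝ) ^ 6 * (14 * (R : ℝ) ^ 6 * ee h)) :=
        (f1.trans f2).trans (by gcongr)
      have f5 : 2 / (R : ℝ) ^ 40 * (14 * (R : ℝ) ^ 6 * (14 * (R : ℝ) ^ 6 * ee h)) =
          392 / (R : ℝ) ^ 28 * ee h := by
        field_simp
        ring
      have f6 : (R : ℝ) ^ 2 ≤ (R : ℝ) ^ 28 := pow_le_pow_right₀ (by linarith) (by norm_num)
      have f7 : 392 / (R : ℝ) ^ 28 < 1 := by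
        rw [div_lt_one (by positivity)]
        nlinarith
      rw [f5] at f4
      nlinarith

theorem chain_two (hF : Fam R A B S D D' M M') {b : Bool} {j1 j3 j5 : ℕ} {x1 x3 x5 : PP}
    (m1 : x1 ∈ S) (m3 : x3 ∈ S) (m5 : x5 ∈ S) (i1 : Ix B b j1 x1.2) (i3 : Ix B b j3 x3.2) (i5 : Ix B b j5 x5.2)
    (h13 : j1 < j3) (h35 : j3 < j5) {h h'' : List Bool} (ht : Tu x1.1 x3.1 h) (ht' : Tu x3.1 x5.1 h'') :
    h ≠ h'' := by
  exact tu_strict (tbc_bt hF m1 m3 m5 i1 i3 i5 h13 h35) ht ht'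

theorem chain_len (hF : Fam R A B S D D' M M') (gA : Gd R A) {b : Bool} {f : ℕ → ℕ} {x : ℕ → PP} (k : ℕ)
    (hx : ∀ i ≤ 2 * k + 2, x i ∈ S) (hi : ∀ i ≤ 2 * k + 2, Ix B b (f i) (x i).2)
    (hf : ∀ i j, i < j → j ≤ 2 * k + 2 → f i < f j) {h : List Bool}
    (ht : Tu (x (2 * k)).1 (x (2 * k + 2)).1 h) : A.length + k ≤ h.length := by
  induction k generalizing h with
  | zero =>
    have := (tu_base ht (hF.hA _ (hx _ (by omega))) (hF.hA _ (hx _ (by omega)))).length_le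
    omega
  | succ k ih =>
    have e1 : 2 * (k + 1) = 2 * k + 2 := by ring
    have e2 : 2 * (k + 1) + 2 = 2 * k + 4 := by ring
    rw [e1] at ht
    have e3 : 2 * k + 2 + 2 = 2 * k + 4 := by ring
    rw [e3] at ht
    rw [e2] at hx hi hf
    have bA := tbc_bt hF (hx (2 * k) (by omega)) (hx (2 * k + 1) (by omega)) (hx (2 * k + 2) (by omega))
      (hi _ (by omega)) (hi _ (by omega)) (hi _ (by omega)) (hf _ _ (by omega) (by omega))
      (hf _ _ (by omega) (by omega))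
    have bB := tbc_bt hF (hx (2 * k + 1) (by omega)) (hx (2 * k + 2) (by omega)) (hx (2 * k + 3) (by omega))
      (hi _ (by omega)) (hi _ (by omega)) (hi _ (by omega)) (hf _ _ (by omega) (by omega))
      (hf _ _ (by omega) (by omega))
    obtain ⟨h0, ht0⟩ := tu_exists (bt_ne bA).2.2
    obtain ⟨h1, ht1⟩ := tu_exists (bt_ne bB).2.2
    have s0 := ih (fun i hi' => hx i (by omega)) (fun i hi' => hi i (by omega))
      (fun i j hij hj => hf i j hij (by omega)) ht0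
    have s1 := chain_step hF gA (hx (2 * k) (by omega)) (hx (2 * k + 1) (by omega))
      (hx (2 * k + 2) (by omega)) (hx (2 * k + 3) (by omega)) (hi _ (by omega)) (hi _ (by omega))
      (hi _ (by omega)) (hi _ (by omega)) (hf _ _ (by omega) (by omega)) (hf _ _ (by omega) (by omega))
      (hf _ _ (by omega) (by omega)) ht0 ht1
    have s2 := chain_step hF gA (hx (2 * k + 1) (by omega)) (hx (2 * k + 2) (by omega))
      (hx (2 * k + 3) (by omega)) (hx (2 * k + 4) (by omega)) (hi _ (by omega)) (hi _ (by omega))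
      (hi _ (by omega)) (hi _ (by omega)) (hf _ _ (by omega) (by omega)) (hf _ _ (by omega) (by omega))
      (hf _ _ (by omega) (by omega)) ht1 ht
    have s3 := chain_two hF (hx (2 * k) (by omega)) (hx (2 * k + 2) (by omega)) (hx (2 * k + 4) (by omega))
      (hi _ (by omega)) (hi _ (by omega)) (hi _ (by omega)) (hf _ _ (by omega) (by omega))
      (hf _ _ (by omega) (by omega)) ht0 ht
    have s4 := s1.trans s2
    have s5 : h0.length ≠ h.length := fun he => s3 (s4.eq_of_length he)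
    have s6 := s4.length_le
    omega

theorem chain (hF : Fam R A B S D D' M M') (gA : Gd R A) (b : Bool) {dep : ℕ}
    (hd : ∀ x ∈ S, x.1.length ≤ A.length + dep) :
    {j : ℕ | ∃ x ∈ S, Ix B b j x.2}.encard ≤ ((2 * dep + 6 : ℕ) : ℕ∞) := by
  classical
  by_contra hcon
  have hlt := not_le.1 hcon
  have hge : ((2 * dep + 7 : ℕ) : ℕ∞) ≤ {j : ℕ | ∃ x ∈ S, Ix B b j x.2}.encard := by
    have h1 := Order.add_one_le_of_lt hlt
    have h2 : ((2 * dep + 6 : ℕ) : ℕ∞) + 1 = ((2 * dep + 7 : ℕ) : ℕ∞) := by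
      push_cast
      rw [add_assoc]
      norm_num
    rwa [h2] at h1
  obtain ⟨t, htV, htc⟩ := Set.exists_subset_encard_eq hge
  have htf : t.Finite := Set.finite_of_encard_eq_coe htc
  have hcard : htf.toFinset.card = 2 * dep + 7 := by
    have h1 := htf.encard_eq_coe_toFinset_card
    rw [htc] at h1
    exact_mod_cast h1.symm
  set e := htf.toFinset.orderEmbOfFin hcard with he
  set f : ℕ → ℕ := fun i => if h : i < 2 * dep + 7 then e ⟨i, h⟩ else 0 with hf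
  have hfe : ∀ i (h : i < 2 * dep + 7), f i = e ⟨i, h⟩ := fun i h => by
    simp only [hf]
    rw [dif_pos h]
  have hmem : ∀ i, i < 2 * dep + 7 → ∃ x ∈ S, Ix B b (f i) x.2 := by
    intro i hi
    have h1 : e ⟨i, hi⟩ ∈ htf.toFinset := Finset.orderEmbOfFin_mem _ hcard _
    rw [hfe i hi]
    exact htV (htf.mem_toFinset.1 h1)
  have hmem' : ∀ i, ∃ x : PP, i < 2 * dep + 7 → x ∈ S ∧ Ix B b (f i) x.2 := by
    intro i
    by_cases hi : i < 2 * dep + 7
    · obtain ⟨x, h1, h2⟩ := hmem i hi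
      exact ⟨x, fun _ => ⟨h1, h2⟩⟩
    · exact ⟨([], []), fun h => absurd h hi⟩
  choose x hx using hmem'
  have hmono : ∀ i j, i < j → j < 2 * dep + 7 → f i < f j := by
    intro i j hij hj
    rw [hfe i (by omega), hfe j hj]
    exact e.strictMono hij
  have bA := tbc_bt hF (hx (2 * (dep + 1)) (by omega)).1 (hx (2 * (dep + 1) + 1) (by omega)).1
    (hx (2 * (dep + 1) + 2) (by omega)).1 (hx _ (by omega)).2 (hx _ (by omega)).2 (hx _ (by omega)).2
    (hmono _ _ (by omega) (by omega)) (hmono _ _ (by omega) (by omega))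
  obtain ⟨h, ht⟩ := tu_exists (bt_ne bA).2.2
  have l1 := chain_len hF gA (dep + 1) (fun i hi => (hx i (by omega)).1) (fun i hi => (hx i (by omega)).2)
    (fun i j hij hj => hmono i j hij (by omega)) ht
  have l2 := (tu_below ht bA).length_le
  have l3 := hd _ (hx (2 * (dep + 1) + 1) (by omega)).1
  omega

end Pool.Agent.Lib.MP_94ab62_ntZ
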