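import Pool.Agent.Lib.MP_94ab62_ntZ.TpF

/-!
# ThB: the difference of two functionals

* `th_comp`: `LL_diff h v : |LL p v - LL c v| ≤ 2 * ww c * nm v` for `c <:+ p`; `ww c = ee c * ss c ≤ E * R`.
* `th_div`: neither `dn <:+ dm` nor `dm <:+ dn`: `diverge` (BasisA) gives `c`, `b` with `(b :: c) <:+ dn`, `((!b) :: c) <:+ dm`; `suffix_meet` gives `B <:+ c`.
  As in `divergence`, `divergence'` (Func): `LL (true :: c) v - LL (false :: c) v = ee c * det v (uu c)`, and the two other differences are at most `2 * ww (b' :: c) * nm v`, where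
  `ww (b' :: c) = ee (b' :: c) * ss (b' :: c)`, `ss (b' :: c) ≤ R` (`ss_suffix`), `ee (b' :: c) ≤ 6/5 e^(-2 kap c) ee c ≤ 6/5 e^(-20q) ee c` (`ee_b`, `kap_suffix`: `kap c ≥ kap B ≥ 10q`).
  Sum: `4 * 6/5 ≤ 5`.  `σ = 1` if `b = true`, `σ = -1` if `b = false`.
* `det_M'`: `det (ap M (ap M' v)) u = D D' det v u`: `c1` and `det_smul_left`.
-/

set_option autoImplicit false

namespace Pool.Agent.Lib.MP_94ab62_ntZ

open Pool.Agent.Lib.MP_94ab62_nt Pool.Agent.Lib.MP_94ab62_ntU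

private theorem thb_ss {R : ℕ} {c p : List Bool} (h : c <:+ p) (hp : ss p ≤ R) :
    (ss c : ℝ) ≤ R := by
  exact_mod_cast (ss_suffix h).trans hp

private theorem thb_comp {R : ℕ} {dn dm : List Bool} {E : ℝ} (h : dn <:+ dm) (s1 : ss dn ≤ R)
    (e1 : ee dn ≤ E) (w : ℤ × ℤ) : |LL dm w - LL dn w| ≤ 2 * (E * R) * nm w := by
  refine (LL_diff h w).trans (mul_le_mul_of_nonneg_right ?_ (nm_nonneg w))
  have h1 : (ss dn : ℝ) ≤ R := by exact_mod_cast s1
  have h2 : ww dn ≤ E * R := by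
    unfold ww
    exact mul_le_mul e1 h1 (Nat.cast_nonneg _) ((ee_pos dn).le.trans e1)
  linarith

theorem th_comp {R : ℕ} {dn dm : List Bool} {E : ℝ} (h : dn <:+ dm ∨ dm <:+ dn) (s1 : ss dn ≤ R) (s2 : ss dm ≤ R)
    (e1 : ee dn ≤ E) (e2 : ee dm ≤ E) (w : ℤ × ℤ) : |LL dn w - LL dm w| ≤ 2 * (E * R) * nm w := by
  rcases h with h | h
  · rw [abs_sub_comm]
    exact thb_comp h s1 e1 w
  · exact thb_comp h s2 e2 w

private theorem thb_ww {R : ℕ} {c p : List Bool} {b : Bool} {q : ℝ} (hk : 10 * q ≤ kap c)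
    (h1 : (b :: c) <:+ p) (s1 : ss p ≤ R) :
    ww (b :: c) ≤ 6 / 5 * (R * Real.exp (-(20 * q)) * ee c) := by
  have h2 := ee_b b c
  have h3 := thb_ss h1 s1
  have h4 : Real.exp (-(2 * kap c)) ≤ Real.exp (-(20 * q)) := Real.exp_le_exp.2 (by linarith)
  have h5 : ee (b :: c) ≤ 6 / 5 * Real.exp (-(20 * q)) * ee c := by
    refine h2.trans (mul_le_mul_of_nonneg_right ?_ (ee_pos c).le)
    linarith
  have h6 : 0 ≤ 6 / 5 * Real.exp (-(20 * q)) * ee c := (ee_pos _).le.trans h5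
  calc ww (b :: c) = ee (b :: c) * ss (b :: c) := rfl
    _ ≤ (6 / 5 * Real.exp (-(20 * q)) * ee c) * R := mul_le_mul h5 h3 (Nat.cast_nonneg _) h6
    _ = 6 / 5 * (R * Real.exp (-(20 * q)) * ee c) := by ring

private theorem thb_core {R : ℕ} {c p p' : List Bool} {q : ℝ} (hk : 10 * q ≤ kap c)
    (h1 : (true :: c) <:+ p) (h2 : (false :: c) <:+ p') (s1 : ss p ≤ R) (s2 : ss p' ≤ R)
    (v : ℤ × ℤ) :
    |LL p v - LL p' v - ee c * (det v (uu c) : ℝ)| ≤ 5 * R * Real.exp (-(20 * q)) * ee c * nm v := by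
  have hn := nm_nonneg v
  have h3 := LL_diff h1 v
  have h4 := LL_diff h2 v
  have h5 : LL (true :: c) v - LL (false :: c) v = ee c * (det v (uu c) : ℝ) := by
    rw [LL_true, LL_false, show uu c = g1 c + g2 c from rfl, det_add_right, det_swap (g1 c) v]
    push_cast
    ring
  have h6 := mul_le_mul_of_nonneg_right (thb_ww hk h1 s1) hn
  have h7 := mul_le_mul_of_nonneg_right (thb_ww hk h2 s2) hn
  have h8 : 0 ≤ R * Real.exp (-(20 * q)) * ee c * nm v := by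
    have := (ee_pos c).le
    positivity
  have h9 : 5 * R * Real.exp (-(20 * q)) * ee c * nm v =
      5 * (R * Real.exp (-(20 * q)) * ee c * nm v) := by ring
  have h10 : 6 / 5 * (R * Real.exp (-(20 * q)) * ee c) * nm v =
      6 / 5 * (R * Real.exp (-(20 * q)) * ee c * nm v) := by ring
  rw [h10] at h6 h7
  rw [h9]
  rw [abs_le] at h3 h4 ⊢
  constructor
  · linarith [h3.1, h4.2]
  · linarith [h3.2, h4.1]

theorem th_div {R : ℕ} {B dn dm : List Bool} {q : ℝ} (hB : 10 * q ≤ kap B) (h1 : B <:+ dn) (h2 : B <:+ dm)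
    (h3 : ¬ dn <:+ dm) (h4 : ¬ dm <:+ dn) (s1 : ss dn ≤ R) (s2 : ss dm ≤ R) :
    ∃ (c : List Bool) (σ : ℝ), B <:+ c ∧ ss c ≤ R ∧ |σ| = 1 ∧ ∀ w : ℤ × ℤ,
      |LL dn w - LL dm w - σ * (ee c * (det w (uu c) : ℝ))| ≤ 5 * R * Real.exp (-(20 * q)) * ee c * nm w := by
  obtain ⟨c, b, h5, h6⟩ := diverge h3 h4
  have h7 := suffix_meet h1 h2 h5 h6
  have h8 : ss c ≤ R := (ss_suffix ((List.suffix_cons b c).trans h5)).trans s1
  have hk : 10 * q ≤ kap c := hB.trans (kap_suffix h7)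
  cases b with
  | true =>
    refine ⟨c, 1, h7, h8, abs_one, fun v => ?_⟩
    rw [one_mul]
    exact thb_core hk h5 h6 s1 s2 v
  | false =>
    refine ⟨c, -1, h7, h8, by rw [abs_neg, abs_one], fun v => ?_⟩
    have h9 := thb_core hk h6 h5 s2 s1 v
    rw [← abs_neg] at h9
    rw [show LL dn v - LL dm v - -1 * (ee c * (det v (uu c) : ℝ)) =
      -(LL dm v - LL dn v - ee c * (det v (uu c) : ℝ)) by ring]
    exact h9

end Pool.Agent.Lib.MP_94ab62_ntZ
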