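import Pool.Agent.Lib.MP_94ab62_ntZ.ThA
import Pool.Agent.Lib.MP_94ab62_ntZ.ThB

/-!
# ThC: two far rich indices on a thin ray against a thick cone are impossible

Write `e_n = ee (cn c0 b n)`, `θ = e^(-20q)`, `τ = e^(-3.8q)`, `r = (R:ℝ)`; `e_m ≤ τ e_n` (`th_ratio`), `ee (en n) ≤ 2 θ e_n`, `ee (en m) ≤ 2 θ e_m ≤ 2 θ e_n` (`ee_en_q`), `e^(-q) ≤ r^(-100)`,
so `θ ≤ r^(-2000)`, `τ ≤ r^(-380)`.  `D ≤ r²`, `1 ≤ D`.
`th_key`: for all `v`:  `|D (e_n Fn n v - e_m Fn m v) - (LL dn (Mv) - LL dm (Mv))| ≤ κ e_n nm v`, `κ = (504 r³ + 4 r^20) θ ≤ r^30 θ`: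
   `D * LL_delta`, `rn`, `rm` (`r^20 ee (en n) ≤ 2 r^20 θ e_n`, the same for `m`).
Case 1 (`dn`, `dm` comparable), `th_case1`: `th_comp` with `E = r^20 * 2 θ e_n` : `|LL dn (Mv) - LL dm (Mv)| ≤ 2 (2 r^21 θ e_n) (2 r² nm v) ≤ 8 r^23 θ e_n nm v`.  `v = hv c0 b`: `cX = 0`, `cY = 1`
   (`cX_hv`, `cY_hv`): `Fn n v = Fn m v = -1`; `nm v ≤ r`.  So `D (e_n - e_m) ≤ (r^30 + 8 r^23) θ r e_n`, left side `≥ e_n/2`; contradiction (`θ r^32 < 1/4`).
Case 2 (`th_div`): `c, σ`, `E = ee c`, `u = uu c`, `nm u = ss c ≤ r`:  for all `v`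
   (*) `|D (e_n Fn n v - e_m Fn m v) - σ E det (Mv) u| ≤ κ e_n nm v + 5 r θ E (2 r² nm v)`.
   `v1 := ap M' (g1 c)`: `M v1 = (D D') g1 c`, `det (M v1) u = D D' det (g1 c) (uu c) = D D'` (`det (g1 c) (uu c) = 1`), of absolute value `≥ 1`; `nm v1 ≤ 2 r² nm (g1 c) ≤ 2 r³`.
   So `E ≤ D e_n (3 r² · 2 r³) (1 + τ) + κ e_n 2 r³ + 10 r³ θ E · 2 r³ ≤ 13 r^7 e_n + E/2` : `E ≤ 26 r^7 e_n ≤ r^9 e_n` (`Fn_le`).
   `v2 := ap M' u`: `M v2 = (D D') u`, `det = 0`; `v2 ≠ 0` (else `M v2 = 0`, but `D D' ≠ 0`, `u ≠ 0`: `uu_pos`), `nm v2 ≤ 2 r³`.  (*):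
   `e_n |Fn n v2| ≤ D e_n |Fn n v2| ≤ D τ e_n (3r² · 2 r³) + κ e_n 2 r³ + 10 r³ θ (r^9 e_n) 2 r³ ≤ e_n (6 r^7 τ + r^40 θ)`, so `|Fn n v2| ≤ 6 r^7 τ + r^40 θ`.
   `Fn_irr`: `1 ≤ 4 e^(2q) (3r² · 2 r³) |Fn n v2| ≤ 24 r^5 e^(2q) (6 r^7 τ + r^40 θ)`; `e^(2q) τ = e^(-1.8 q) ≤ e^(-q) ≤ r^(-100)`, `e^(2q) θ ≤ e^(-q) ≤ r^(-100)`: the right side is
   `≤ 24 r^5 (6 r^7 + r^40) r^(-100) < 1`: contradiction.
-/

set_option autoImplicit false

namespace Pool.Agent.Lib.MP_94ab62_ntZ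

open Pool.Agent.Lib.MP_94ab62_nt Pool.Agent.Lib.MP_94ab62_ntU

private theorem thc_mono (c0 : List Bool) (b : Bool) {n m : ℕ} (h : n ≤ m) :
    ee (cn c0 b m) ≤ ee (cn c0 b n) := by
  induction m, h using Nat.le_induction with
  | base => exact le_refl _
  | succ m _ ih =>
    have h1 := ee_cons_le b (cn c0 b m)
    have h2 := ee_pos (cn c0 b m)
    rw [cn_succ]
    linarith

private theorem thc_pow {r X : ℝ} (hr : 100 ≤ r) (hX0 : 0 ≤ X) (hX : r ^ 100 * X ≤ 1) {k : ℕ} (hk : k ≤ 99) :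
    r ^ k * X ≤ 1 / 100 := by
  have h1 : (1 : ℝ) ≤ r := by linarith
  have h2 : r ^ k ≤ r ^ 99 := pow_le_pow_right₀ h1 hk
  have h3 : r ^ k * X ≤ r ^ 99 * X := mul_le_mul_of_nonneg_right h2 hX0
  have h4 : r * (r ^ 99 * X) ≤ 1 := by
    have : r * (r ^ 99 * X) = r ^ 100 * X := by
      rw [← mul_assoc, ← pow_succ']
    rw [this]
    exact hX
  have h5 : 100 * (r ^ 99 * X) ≤ r * (r ^ 99 * X) :=
    mul_le_mul_of_nonneg_right hr (mul_nonneg (pow_nonneg (by linarith) 99) hX0)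
  linarith

private theorem thc_num30 {r : ℝ} (hr : 100 ≤ r) : 504 * r ^ 3 + 4 * r ^ 20 ≤ r ^ 30 := by
  have h1 : (1 : ℝ) ≤ r := by linarith
  have h2 : r ^ 3 ≤ r ^ 20 := pow_le_pow_right₀ h1 (by norm_num)
  have h3 : (100 : ℝ) ^ 10 ≤ r ^ 10 := pow_le_pow_left₀ (by norm_num) hr 10
  have h4 : (100 : ℝ) ^ 10 * r ^ 20 ≤ r ^ 10 * r ^ 20 := mul_le_mul_of_nonneg_right h3 (by positivity)
  have h5 : r ^ 10 * r ^ 20 = r ^ 30 := by ring
  have h6 : (0 : ℝ) ≤ r ^ 20 := by positivity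
  rw [h5] at h4
  nlinarith

private theorem thc_Fn_hv (c0 : List Bool) (b : Bool) (n : ℕ) : Fn c0 b n (hv c0 b) = -1 := by
  unfold Fn
  rw [cX_hv, cY_hv]
  push_cast
  ring

private theorem thc_case1 {r En Em th D Y : ℝ} (hr : 100 ≤ r) (hEn : 0 < En) (hD : 1 ≤ D)
    (hEm : Em ≤ 1 / 100 * En)
    (hth : r ^ 32 * th ≤ 1 / 100) (hth0 : 0 ≤ th)
    (h1 : |D * (En * (-1) - Em * (-1)) - Y| ≤ r ^ 30 * th * En * r)
    (h2 : |Y| ≤ 8 * r ^ 24 * th * En) : False := by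
  have hr1 : (1 : ℝ) ≤ r := by linarith
  have h3 := (abs_le.1 h1).1
  have h4 := (abs_le.1 h2).1
  have h5 : r ^ 31 ≤ r ^ 31 * (r / 100) := le_mul_of_one_le_right (by positivity) (by linarith)
  have h6 : r ^ 24 ≤ r ^ 31 := pow_le_pow_right₀ hr1 (by norm_num)
  have h7 : r ^ 31 + 8 * r ^ 24 ≤ r ^ 32 := by
    have : r ^ 31 * (r / 100) = r ^ 32 / 100 := by ring
    rw [this] at h5
    nlinarith [pow_pos (by linarith : (0 : ℝ) < r) 31]
  have h8 : (r ^ 31 + 8 * r ^ 24) * th ≤ 1 / 100 :=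
    (mul_le_mul_of_nonneg_right h7 hth0).trans hth
  have h9 : ((r ^ 31 + 8 * r ^ 24) * th) * En ≤ 1 / 100 * En := mul_le_mul_of_nonneg_right h8 hEn.le
  have h10 : (En - Em) ≤ D * (En - Em) := le_mul_of_one_le_left (by linarith) hD
  have h11 : D * (En - Em) ≤ r ^ 30 * th * En * r + 8 * r ^ 24 * th * En := by linarith
  have h12 : r ^ 30 * th * En * r + 8 * r ^ 24 * th * En = ((r ^ 31 + 8 * r ^ 24) * th) * En := by ring
  rw [h12] at h11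
  linarith

private theorem thc_case2a {r En Em E th D DD s f g N : ℝ} (hr : 100 ≤ r) (hEn : 0 < En) (hEm0 : 0 ≤ Em)
    (hE : 0 ≤ E) (hD : 1 ≤ D) (hD2 : D ≤ r ^ 2) (hEm : Em ≤ En)
    (hth : ∀ k : ℕ, k ≤ 99 → r ^ k * th ≤ 1 / 100) (hth0 : 0 ≤ th) (hDD : 1 ≤ |DD|) (hs : |s| = 1)
    (hN : N ≤ 2 * r ^ 3) (hf : |f| ≤ 3 * r ^ 2 * N) (hg : |g| ≤ 3 * r ^ 2 * N)
    (h1 : |D * (En * f - Em * g) - s * (E * DD)| ≤ r ^ 30 * th * En * N + 10 * r ^ 3 * th * E * N) :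
    E ≤ 26 * r ^ 7 * En := by
  have hr1 : (1 : ℝ) ≤ r := by linarith
  have hr0 : (0 : ℝ) < r := by linarith
  have h2 : E ≤ |s * (E * DD)| := by
    rw [abs_mul, hs, one_mul, abs_mul, abs_of_nonneg hE]
    exact le_mul_of_one_le_right hE hDD
  have h3 : |s * (E * DD)| ≤ |D * (En * f - Em * g)| + |D * (En * f - Em * g) - s * (E * DD)| := by
    have h := abs_sub (D * (En * f - Em * g)) (D * (En * f - Em * g) - s * (E * DD))
    rwa [show D * (En * f - Em * g) - (D * (En * f - Em * g) - s * (E * DD)) = s * (E * DD) by ring] at h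
  have h4 : |En * f - Em * g| ≤ 12 * r ^ 5 * En := by
    have a1 : |En * f| ≤ En * (6 * r ^ 5) := by
      rw [abs_mul, abs_of_pos hEn]
      refine mul_le_mul_of_nonneg_left (hf.trans ?_) hEn.le
      calc 3 * r ^ 2 * N ≤ 3 * r ^ 2 * (2 * r ^ 3) := by gcongr
        _ = 6 * r ^ 5 := by ring
    have a2 : |Em * g| ≤ En * (6 * r ^ 5) := by
      rw [abs_mul, abs_of_nonneg hEm0]
      refine mul_le_mul hEm (hg.trans ?_) (abs_nonneg _) hEn.le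
      calc 3 * r ^ 2 * N ≤ 3 * r ^ 2 * (2 * r ^ 3) := by gcongr
        _ = 6 * r ^ 5 := by ring
    have a3 := abs_sub (En * f) (Em * g)
    linarith
  have h5 : |D * (En * f - Em * g)| ≤ 12 * r ^ 7 * En := by
    rw [abs_mul, abs_of_nonneg (by linarith : (0 : ℝ) ≤ D)]
    calc D * |En * f - Em * g| ≤ r ^ 2 * (12 * r ^ 5 * En) :=
          mul_le_mul hD2 h4 (abs_nonneg _) (by positivity)
      _ = 12 * r ^ 7 * En := by ring
  have h6 : r ^ 30 * th * En * N ≤ En := by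
    calc r ^ 30 * th * En * N ≤ r ^ 30 * th * En * (2 * r ^ 3) := by gcongr
      _ = 2 * (r ^ 33 * th) * En := by ring
      _ ≤ 2 * (1 / 100) * En := by
          have := hth 33 (by norm_num)
          gcongr
      _ ≤ En := by linarith
  have h7 : 10 * r ^ 3 * th * E * N ≤ 1 / 2 * E := by
    calc 10 * r ^ 3 * th * E * N ≤ 10 * r ^ 3 * th * E * (2 * r ^ 3) := by gcongr
      _ = 20 * (r ^ 6 * th) * E := by ring
      _ ≤ 20 * (1 / 100) * E := by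
          have := hth 6 (by norm_num)
          gcongr
      _ ≤ 1 / 2 * E := by linarith
  have h8 : En ≤ r ^ 7 * En := le_mul_of_one_le_left hEn.le (one_le_pow₀ hr1)
  linarith

private theorem thc_case2b {r En Em E th ta D f g N Q : ℝ} (hr : 100 ≤ r) (hEn : 0 < En) (hEm0 : 0 ≤ Em)
    (hD : 1 ≤ D) (hta : 0 ≤ ta) (hEm : Em ≤ ta * En)
    (hth0 : 0 ≤ th) (hN0 : 0 ≤ N) (hN : N ≤ 2 * r ^ 3) (hg : |g| ≤ 3 * r ^ 2 * N)
    (hEE : E ≤ 26 * r ^ 7 * En)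
    (h1 : |D * (En * f - Em * g)| ≤ r ^ 30 * th * En * N + 10 * r ^ 3 * th * E * N)
    (hQ0 : 0 ≤ Q) (hQt : ∀ k : ℕ, k ≤ 99 → r ^ k * (Q * ta) ≤ 1 / 100)
    (hQh : ∀ k : ℕ, k ≤ 99 → r ^ k * (Q * th) ≤ 1 / 100)
    (hirr : 1 ≤ 4 * Q * (3 * r ^ 2 * N) * |f|) : False := by
  have hr1 : (1 : ℝ) ≤ r := by linarith
  have hr0 : (0 : ℝ) < r := by linarith
  have h2 : E ≤ r ^ 9 * En := by
    refine hEE.trans (mul_le_mul_of_nonneg_right ?_ hEn.le)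
    have : (100 : ℝ) * r ^ 7 ≤ r ^ 2 * r ^ 7 := by
      refine mul_le_mul_of_nonneg_right ?_ (by positivity)
      nlinarith
    have h' : r ^ 2 * r ^ 7 = r ^ 9 := by ring
    rw [h'] at this
    nlinarith [pow_pos hr0 7]
  have h3 : r ^ 30 * th * En * N + 10 * r ^ 3 * th * E * N ≤ r ^ 34 * th * En := by
    have a1 : r ^ 30 * th * En * N ≤ r ^ 30 * th * En * (2 * r ^ 3) := by gcongr
    have a2 : 10 * r ^ 3 * th * E * N ≤ 10 * r ^ 3 * th * (r ^ 9 * En) * (2 * r ^ 3) := by gcongr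
    have a3 : r ^ 30 * th * En * (2 * r ^ 3) + 10 * r ^ 3 * th * (r ^ 9 * En) * (2 * r ^ 3) =
        (2 * r ^ 33 + 20 * r ^ 15) * (th * En) := by ring
    have a4 : r ^ 15 ≤ r ^ 33 := pow_le_pow_right₀ hr1 (by norm_num)
    have a5 : (100 : ℝ) * r ^ 33 ≤ r * r ^ 33 := mul_le_mul_of_nonneg_right hr (by positivity)
    have a6 : r * r ^ 33 = r ^ 34 := by ring
    rw [a6] at a5
    have a7 : 2 * r ^ 33 + 20 * r ^ 15 ≤ r ^ 34 := by
      have : (0 : ℝ) ≤ r ^ 33 := by positivity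
      linarith
    have a8 : (2 * r ^ 33 + 20 * r ^ 15) * (th * En) ≤ r ^ 34 * (th * En) :=
      mul_le_mul_of_nonneg_right a7 (by positivity)
    have a9 : r ^ 34 * (th * En) = r ^ 34 * th * En := by ring
    linarith
  have h4 : |Em * g| ≤ 6 * r ^ 5 * ta * En := by
    rw [abs_mul, abs_of_nonneg hEm0]
    calc Em * |g| ≤ (ta * En) * (3 * r ^ 2 * (2 * r ^ 3)) := by
          refine mul_le_mul hEm (hg.trans (by gcongr)) (abs_nonneg _) (by positivity)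
      _ = 6 * r ^ 5 * ta * En := by ring
  have h5 : |En * f - Em * g| ≤ r ^ 34 * th * En := by
    have a1 : |En * f - Em * g| ≤ |D * (En * f - Em * g)| := by
      rw [abs_mul, abs_of_nonneg (by linarith : (0 : ℝ) ≤ D)]
      exact le_mul_of_one_le_left (abs_nonneg _) hD
    linarith
  have h6 : En * |f| ≤ En * (6 * r ^ 5 * ta + r ^ 34 * th) := by
    have a1 := abs_add_le (En * f - Em * g) (Em * g)
    rw [sub_add_cancel, abs_mul, abs_of_pos hEn] at a1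
    have a2 : En * (6 * r ^ 5 * ta + r ^ 34 * th) = r ^ 34 * th * En + 6 * r ^ 5 * ta * En := by ring
    linarith
  have h7 : |f| ≤ 6 * r ^ 5 * ta + r ^ 34 * th := le_of_mul_le_mul_left h6 hEn
  have h8 : 4 * Q * (3 * r ^ 2 * N) * |f| ≤
      4 * Q * (3 * r ^ 2 * (2 * r ^ 3)) * (6 * r ^ 5 * ta + r ^ 34 * th) := by gcongr
  have h9 : 4 * Q * (3 * r ^ 2 * (2 * r ^ 3)) * (6 * r ^ 5 * ta + r ^ 34 * th) =
      144 * (r ^ 10 * (Q * ta)) + 24 * (r ^ 39 * (Q * th)) := by ring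
  have h10 : r * (r ^ 10 * (Q * ta)) ≤ 1 / 100 := by
    have := hQt 11 (by norm_num)
    have h' : r * (r ^ 10 * (Q * ta)) = r ^ 11 * (Q * ta) := by ring
    rw [h']
    exact this
  have h11 : 100 * (r ^ 10 * (Q * ta)) ≤ r * (r ^ 10 * (Q * ta)) :=
    mul_le_mul_of_nonneg_right hr (by positivity)
  have h12 := hQh 39 (by norm_num)
  linarith

theorem th_key {R : ℕ} (hR : 100 ≤ R) {c0 : List Bool} {b : Bool} {dn dm : List Bool} {D : ℤ} {M : Mt} {q : ℝ}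
    (hq : 1 ≤ q) (D1 : 1 ≤ D) (D2 : D ≤ (R : ℤ) ^ 2) (hw : 10 * q ≤ F (zw c0 b 0)) {n m : ℕ} (hnm : n ≤ m)
    (hh : nm (hv c0 b) ≤ R)
    (rn : ∀ v, |D * LL (en c0 b n) v - LL dn (ap M v)| ≤ (R : ℝ) ^ 20 * ee (en c0 b n) * nm v)
    (rm : ∀ v, |D * LL (en c0 b m) v - LL dm (ap M v)| ≤ (R : ℝ) ^ 20 * ee (en c0 b m) * nm v) (v : ℤ × ℤ) :
    |D * (ee (cn c0 b n) * Fn c0 b n v - ee (cn c0 b m) * Fn c0 b m v) - (LL dn (ap M v) - LL dm (ap M v))| ≤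
      (R : ℝ) ^ 30 * Real.exp (-(20 * q)) * ee (cn c0 b n) * nm v := by
  have hr : (100 : ℝ) ≤ R := by exact_mod_cast hR
  have hD0 : (0 : ℝ) ≤ (D : ℝ) := by
    have : (0 : ℤ) ≤ D := by linarith
    exact_mod_cast this
  have hD2 : (D : ℝ) ≤ (R : ℝ) ^ 2 := by exact_mod_cast D2
  have hv := nm_nonneg v
  have hen := ee_pos (cn c0 b n)
  have hth : 0 < Real.exp (-(20 * q)) := Real.exp_pos _
  have h1 := LL_delta hq hw hh hnm v
  have h2 := rn v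
  have h3 := rm v
  have h4 := ee_en_q hw n
  have h5 := ee_en_q hw m
  have h6 := thc_mono c0 b hnm
  set θ := Real.exp (-(20 * q)) with hθ
  set En := ee (cn c0 b n) with hEn
  set Em := ee (cn c0 b m) with hEm
  have h5' : ee (en c0 b m) ≤ 2 * θ * En := h5.trans (by gcongr)
  have k1 : |(D : ℝ) * (En * Fn c0 b n v - Em * Fn c0 b m v - (LL (en c0 b n) v - LL (en c0 b m) v))| ≤
      504 * (R : ℝ) ^ 3 * (θ * En * nm v) := by
    rw [abs_mul, abs_of_nonneg hD0, abs_sub_comm]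
    calc (D : ℝ) * |LL (en c0 b n) v - LL (en c0 b m) v - (En * Fn c0 b n v - Em * Fn c0 b m v)| ≤
          (R : ℝ) ^ 2 * (504 * θ * En * (R * nm v)) := mul_le_mul hD2 h1 (abs_nonneg _) (by positivity)
      _ = 504 * (R : ℝ) ^ 3 * (θ * En * nm v) := by ring
  have k2 : |(D : ℝ) * LL (en c0 b n) v - LL dn (ap M v)| ≤ 2 * (R : ℝ) ^ 20 * (θ * En * nm v) := by
    refine h2.trans ?_
    calc (R : ℝ) ^ 20 * ee (en c0 b n) * nm v ≤ (R : ℝ) ^ 20 * (2 * θ * En) * nm v := by gcongr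
      _ = _ := by ring
  have k3 : |(D : ℝ) * LL (en c0 b m) v - LL dm (ap M v)| ≤ 2 * (R : ℝ) ^ 20 * (θ * En * nm v) := by
    refine h3.trans ?_
    calc (R : ℝ) ^ 20 * ee (en c0 b m) * nm v ≤ (R : ℝ) ^ 20 * (2 * θ * En) * nm v := by gcongr
      _ = _ := by ring
  have k4 : (504 * (R : ℝ) ^ 3 + 4 * (R : ℝ) ^ 20) * (θ * En * nm v) ≤ (R : ℝ) ^ 30 * (θ * En * nm v) :=
    mul_le_mul_of_nonneg_right (thc_num30 hr) (by positivity)
  have k5 : (D : ℝ) * (En * Fn c0 b n v - Em * Fn c0 b m v) - (LL dn (ap M v) - LL dm (ap M v)) =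
      (D : ℝ) * (En * Fn c0 b n v - Em * Fn c0 b m v - (LL (en c0 b n) v - LL (en c0 b m) v)) +
      ((D : ℝ) * LL (en c0 b n) v - LL dn (ap M v)) - ((D : ℝ) * LL (en c0 b m) v - LL dm (ap M v)) := by ring
  have k6 := abs_sub ((D : ℝ) * (En * Fn c0 b n v - Em * Fn c0 b m v - (LL (en c0 b n) v - LL (en c0 b m) v)) +
      ((D : ℝ) * LL (en c0 b n) v - LL dn (ap M v))) ((D : ℝ) * LL (en c0 b m) v - LL dm (ap M v))
  have k7 := abs_add_le ((D : ℝ) * (En * Fn c0 b n v - Em * Fn c0 b m v - (LL (en c0 b n) v - LL (en c0 b m) v)))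
      ((D : ℝ) * LL (en c0 b n) v - LL dn (ap M v))
  rw [k5]
  have k8 : (R : ℝ) ^ 30 * (θ * En * nm v) = (R : ℝ) ^ 30 * θ * En * nm v := by ring
  linarith

theorem TH {R : ℕ} {c0 : List Bool} {b : Bool} {B dn dm : List Bool} {S : Set PP} {D D' : ℤ} {M M' : Mt}
    (hF : Fam R c0 B S D D' M M') {q : ℝ} (hq : (R : ℝ) ^ 100 ≤ Real.exp q) (hz : F (zh c0 b) ≤ q)
    (hB : 10 * q ≤ kap B) (hw : 10 * q ≤ F (zw c0 b 0)) (h1 : B <:+ dn) (h2 : B <:+ dm) {n m : ℕ}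
    (s0 : ss (en c0 b m) ≤ R) (s1 : ss dn ≤ R) (s2 : ss dm ≤ R)
    (e1 : ee dn ≤ (R : ℝ) ^ 20 * ee (en c0 b n)) (e2 : ee dm ≤ (R : ℝ) ^ 20 * ee (en c0 b m))
    (rn : ∀ v, |D * LL (en c0 b n) v - LL dn (ap M v)| ≤ (R : ℝ) ^ 20 * ee (en c0 b n) * nm v)
    (rm : ∀ v, |D * LL (en c0 b m) v - LL dm (ap M v)| ≤ (R : ℝ) ^ 20 * ee (en c0 b m) * nm v)
    (hnm : (n : ℝ) + 2 * q + 1 ≤ m) : False := by
  obtain ⟨hR, -, -, -, D1, D2, D'1, D'2, -, -, c1, -, -, -, b1, b2⟩ := hF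
  have hr : (100 : ℝ) ≤ R := by exact_mod_cast hR
  have hr1 : (1 : ℝ) ≤ R := by linarith
  obtain ⟨hq1, hX⟩ := th_exp hR hq
  obtain ⟨hh, hg0, hmR⟩ := ray_bd s0
  have hnR : (n : ℝ) ≤ R := by linarith
  have hnm' : n ≤ m := by
    have : (n : ℝ) ≤ m := by linarith
    exact_mod_cast this
  have hX' : (R : ℝ) ^ 100 * Real.exp (-q) ≤ 1 := by
    have h0 : (0 : ℝ) < (R : ℝ) ^ 100 := by positivity
    calc (R : ℝ) ^ 100 * Real.exp (-q) ≤ (R : ℝ) ^ 100 * (1 / (R : ℝ) ^ 100) := by gcongr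
      _ = 1 := by field_simp
  have hXp : ∀ k : ℕ, k ≤ 99 → (R : ℝ) ^ k * Real.exp (-q) ≤ 1 / 100 := fun k hk =>
    thc_pow hr (Real.exp_pos _).le hX' hk
  have hθX : Real.exp (-(20 * q)) ≤ Real.exp (-q) := Real.exp_le_exp.2 (by linarith)
  have hτX : Real.exp (-(38 / 10 * q)) ≤ Real.exp (-q) := Real.exp_le_exp.2 (by linarith)
  have hθp : ∀ k : ℕ, k ≤ 99 → (R : ℝ) ^ k * Real.exp (-(20 * q)) ≤ 1 / 100 := fun k hk =>
    (mul_le_mul_of_nonneg_left hθX (by positivity)).trans (hXp k hk)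
  have hQτ : ∀ k : ℕ, k ≤ 99 → (R : ℝ) ^ k * (Real.exp (2 * q) * Real.exp (-(38 / 10 * q))) ≤ 1 / 100 := by
    intro k hk
    refine (mul_le_mul_of_nonneg_left ?_ (by positivity)).trans (hXp k hk)
    rw [← Real.exp_add]
    exact Real.exp_le_exp.2 (by linarith)
  have hQθ : ∀ k : ℕ, k ≤ 99 → (R : ℝ) ^ k * (Real.exp (2 * q) * Real.exp (-(20 * q))) ≤ 1 / 100 := by
    intro k hk
    refine (mul_le_mul_of_nonneg_left ?_ (by positivity)).trans (hXp k hk)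
    rw [← Real.exp_add]
    exact Real.exp_le_exp.2 (by linarith)
  have hratio := th_ratio hq1 hw hnm
  have hmono := thc_mono c0 b hnm'
  have hkey := th_key hR (dn := dn) (dm := dm) hq1 D1 D2 hw hnm' hh rn rm
  have hen := ee_pos (cn c0 b n)
  have hem := ee_pos (cn c0 b m)
  have hen1 := ee_en_q hw n
  have hem1 := ee_en_q hw m
  have hθ0 : 0 < Real.exp (-(20 * q)) := Real.exp_pos _
  have hτ0 : 0 < Real.exp (-(38 / 10 * q)) := Real.exp_pos _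
  set θ := Real.exp (-(20 * q)) with hθ
  set τ := Real.exp (-(38 / 10 * q)) with hτ
  set En := ee (cn c0 b n) with hEn
  set Em := ee (cn c0 b m) with hEm
  have hDr : (1 : ℝ) ≤ (D : ℝ) := by exact_mod_cast D1
  have hDr2 : (D : ℝ) ≤ (R : ℝ) ^ 2 := by exact_mod_cast D2
  by_cases hc : dn <:+ dm ∨ dm <:+ dn
  · have hE1 : ee dn ≤ (R : ℝ) ^ 20 * (2 * θ * En) := e1.trans (by gcongr)
    have hE2 : ee dm ≤ (R : ℝ) ^ 20 * (2 * θ * En) := by
      refine e2.trans ?_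
      have : ee (en c0 b m) ≤ 2 * θ * En := hem1.trans (by gcongr)
      gcongr
    have h3 := th_comp hc s1 s2 hE1 hE2 (ap M (hv c0 b))
    have h4 := hkey (hv c0 b)
    rw [thc_Fn_hv, thc_Fn_hv] at h4
    have h5 : nm (ap M (hv c0 b)) ≤ 2 * (R : ℝ) ^ 2 * R :=
      (b1 (hv c0 b)).trans (by gcongr)
    refine thc_case1 hr hen hDr ?_ (hθp 32 (by norm_num)) hθ0.le (h4.trans (by gcongr)) (h3.trans ?_)
    · have : τ ≤ 1 / 100 := by
        have := hXp 0 (by norm_num)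
        rw [pow_zero, one_mul] at this
        linarith
      exact hratio.trans (by gcongr)
    · calc 2 * ((R : ℝ) ^ 20 * (2 * θ * En) * R) * nm (ap M (hv c0 b)) ≤
            2 * ((R : ℝ) ^ 20 * (2 * θ * En) * R) * (2 * (R : ℝ) ^ 2 * R) := by gcongr
        _ = 8 * (R : ℝ) ^ 24 * θ * En := by ring
  · obtain ⟨hc1, hc2⟩ := not_or.1 hc
    obtain ⟨c, s, -, hcR, hs, hdiv⟩ := th_div hB h1 h2 hc1 hc2 s1 s2
    have hE0 := ee_pos c
    have hstar : ∀ v, |(D : ℝ) * (En * Fn c0 b n v - Em * Fn c0 b m v) -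
        s * (ee c * (det (ap M v) (uu c) : ℝ))| ≤
          (R : ℝ) ^ 30 * θ * En * nm v + 10 * (R : ℝ) ^ 3 * θ * ee c * nm v := by
      intro v
      have a1 := hkey v
      have a2 := hdiv (ap M v)
      have a3 := b1 v
      have a4 : 5 * (R : ℝ) * θ * ee c * nm (ap M v) ≤ 10 * (R : ℝ) ^ 3 * θ * ee c * nm v := by
        calc 5 * (R : ℝ) * θ * ee c * nm (ap M v) ≤ 5 * (R : ℝ) * θ * ee c * (2 * (R : ℝ) ^ 2 * nm v) := by gcongr
          _ = 10 * (R : ℝ) ^ 3 * θ * ee c * nm v := by ring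
      have a5 := abs_add_le ((D : ℝ) * (En * Fn c0 b n v - Em * Fn c0 b m v) - (LL dn (ap M v) - LL dm (ap M v)))
        (LL dn (ap M v) - LL dm (ap M v) - s * (ee c * (det (ap M v) (uu c) : ℝ)))
      rw [sub_add_sub_cancel] at a5
      linarith
    have hDD : D * D' ≠ 0 := by
      have h1 : D ≠ 0 := by omega
      have h2 : D' ≠ 0 := by
        intro h
        rw [h, abs_zero] at D'1
        omega
      exact mul_ne_zero h1 h2
    have hDDr : (1 : ℝ) ≤ |((D * D' : ℤ) : ℝ)| := by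
      have : (1 : ℤ) ≤ |D * D'| := Int.one_le_abs hDD
      exact_mod_cast this
    have hsR : (ss c : ℝ) ≤ R := by exact_mod_cast hcR
    have hr3 : ∀ w : ℤ × ℤ, nm w ≤ R → nm (ap M' w) ≤ 2 * (R : ℝ) ^ 3 := by
      intro w hw'
      calc nm (ap M' w) ≤ 2 * (R : ℝ) ^ 2 * nm w := b2 w
        _ ≤ 2 * (R : ℝ) ^ 2 * R := by gcongr
        _ = 2 * (R : ℝ) ^ 3 := by ring
    have hg1R : nm (g1 c) ≤ R := by
      rw [nm_g1]
      have h1 : m1 c ≤ ss c := Nat.le_add_right _ _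
      have h2 : (m1 c : ℝ) ≤ (ss c : ℝ) := by exact_mod_cast h1
      linarith
    have huR : nm (uu c) ≤ R := by
      rw [nm_uu]
      exact hsR
    have hdet1 : det (ap M (ap M' (g1 c))) (uu c) = D * D' := by
      rw [c1, det_smul_left, show uu c = g1 c + g2 c from rfl, det_add_right, det_self, det_g]
      ring
    have hdet2 : det (ap M (ap M' (uu c))) (uu c) = 0 := by
      rw [c1, det_smul_left, det_self, mul_zero]
    have hst1 := hstar (ap M' (g1 c))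
    rw [hdet1] at hst1
    have hEE := thc_case2a hr hen hem.le hE0.le hDr hDr2 hmono hθp hθ0.le hDDr hs
      (hr3 _ hg1R) (Fn_le hR hh hg0 hnR (ap M' (g1 c))) (Fn_le hR hh hg0 hmR (ap M' (g1 c))) hst1
    have hst2 := hstar (ap M' (uu c))
    rw [hdet2, Int.cast_zero, mul_zero, mul_zero, sub_zero] at hst2
    have hv2 : ap M' (uu c) ≠ 0 := by
      intro h
      have h1 := c1 (uu c)
      rw [h] at h1
      have h2 : ap M (0 : ℤ × ℤ) = 0 := by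
        unfold ap
        simp
      rw [h2] at h1
      have h3 := congrArg Prod.fst h1
      have h4 := (uu_pos c).1
      simp only [Prod.smul_fst, smul_eq_mul, Prod.fst_zero] at h3
      have h5 : (uu c).1 ≠ 0 := by omega
      exact (mul_ne_zero hDD h5) h3.symm
    exact thc_case2b hr hen hem.le hDr hτ0.le hratio hθ0.le (nm_nonneg _) (hr3 _ huR)
      (Fn_le hR hh hg0 hmR (ap M' (uu c))) hEE hst2 (Real.exp_pos _).le hQτ hQθ
      (Fn_irr hR hh hg0 hnR hz hv2)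

end Pool.Agent.Lib.MP_94ab62_ntZ
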