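import Pool.Agent.Lib.MP_94ab62_ntZ.TbC
import Pool.Agent.Lib.MP_94ab62_ntZ.TaJ
import Pool.Agent.Lib.MP_94ab62_ntZ.ThC

/-!
# TbD: theorem T3 (thick cone times ray)

* `ray_kap`: `10 q ≤ F (zw B b 0)`, `R^100 ≤ exp q`: `F (zw B b j) ≥ F (zw B b 0)` (`(rs_ray B b).lt`, `F_le`, monotone by induction), `kap_en`, `q ≥ 100 log R` (take logarithms, `Real.log_pow`, `Real.le_log_iff_exp_le` ..),
  `kap_gd`: `Gd R (en B b j)`.
* `rich_info` (family with FIRST entries below the ray cone `c0`): three different members `x, y, z` with first entries below `X = en c0 b n`.  One of the three is between the two others (`lt_or_gt` for the three pairs,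
  `uu_trans`; `fam_inj1`: different members have different first entries): after renaming `Bt x.1 y.1 z.1`.  `x.2 ≠ z.2` (`fam_inj2`), `Tu x.2 z.2 d` (`tu_exists`).  `B <:+ d` (`tu_base`), `d <:+ y.2` (`tu_below`, `bt_fam`)
  so `ss d ≤ R`; `ee d ≤ 14 R^6 ee X ≤ R^20 ee X` (`tu_size`, `cc_of_suffix`), `tu_close'` (`90 R^11 ≤ R^20`).
* `rich_lt`: `rich_info` for `n` and `m` and `TH`; `ss (en c0 b m) ≤ ss x.1 ≤ R` (`ss_suffix`).
* `window_card`: a set `V` of naturals such that no `n < m` in `V` satisfies `n + g ≤ m` (real `g ≥ 1`): `V` finite and `V.ncard ≤ g + 1`: if `V` is nonempty let `n` be its minimum; `V ⊆ Finset.Ico n (n + ⌈g⌉₊)`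
  (`m ∈ V`, `m > n`: `m < n + g`), `⌈g⌉₊ ≤ g + 1`.
* `T3`.  `X = Prod.fst '' S` has `S.ncard` elements (`fam_inj1`, `Set.ncard_image_of_injOn`), `S` finite (`fam_finite`).  `V = {j | ∃ x ∈ S, Ix B b j x.2}`: `V.encard ≤ 2 dep + 6` (`chain`), finite.
  `S = ⋃ j ∈ V, S_j`, `S_j = {x ∈ S | Ix B b j x.2}` (`ix_exists`, `hF.hB`).  `U_j = {x ∈ S | en B b j <:+ x.2}`; `S_j ⊆ U_j ∪ {x ∈ S | x.2 = cn B b j}`, the second set has at most one element (`fam_inj2`).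
  `V' = {j | 3 ≤ U_j.ncard}`: by `rich_lt` for `fam_swap hF` (members `Prod.swap x`) and `window_card` with `g = 2 q + 1`: `V'.ncard ≤ 2 q + 2`.  For `j ∈ V'`: `fam_sub` gives `Fam R A (en B b j) (U_j) ..`, `T1`:
  `U_j.ncard ≤ 3 (Dv μ + 2)(dep + 1)`.  So `S.ncard ≤ ∑_{j ∈ V} (3 or 1 + U_j.ncard) ≤ 3 (2 dep + 6) + (2 q + 2) * 3 (Dv μ + 2)(dep + 1)`.
-/

set_option autoImplicit false

namespace Pool.Agent.Lib.MP_94ab62_ntZ

open Pool.Agent.Lib.MP_94ab62_nt Pool.Agent.Lib.MP_94ab62_ntU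

private theorem tbd_q {R : ℕ} (hR : 100 ≤ R) {q : ℝ} (hq : (R : ℝ) ^ 100 ≤ Real.exp q) :
    0 ≤ Real.log R ∧ 100 * Real.log R ≤ q := by
  have hR' : (100 : ℝ) ≤ R := by exact_mod_cast hR
  have hR0 : (0 : ℝ) < R := by linarith
  have h1 : Real.log ((R : ℝ) ^ 100) ≤ q := by
    rw [← Real.log_exp q]
    exact Real.log_le_log (by positivity) hq
  rw [Real.log_pow] at h1
  push_cast at h1
  exact ⟨Real.log_nonneg (by linarith), h1⟩

private theorem tbd_gd {R : ℕ} (hR : 100 ≤ R) {q : ℝ} (hq : (R : ℝ) ^ 100 ≤ Real.exp q)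
    {P : List Bool} (h : 10 * q ≤ kap P) : Gd R P := by
  obtain ⟨h1, h2⟩ := tbd_q hR hq
  rw [kap_gd]
  linarith

theorem ray_kap {R : ℕ} (hR : 100 ≤ R) {B : List Bool} {b : Bool} {q : ℝ} (hq : (R : ℝ) ^ 100 ≤ Real.exp q)
    (hw : 10 * q ≤ F (zw B b 0)) (j : ℕ) : Gd R (en B b j) ∧ F (zw B b 0) ≤ F (zw B b j) := by
  have hr := rs_ray B b
  have h1 : F (zw B b 0) ≤ F (zw B b j) :=
    F_le hr.hy ((strictMono_nat_of_lt_succ hr.lt).monotone (Nat.zero_le j))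
  refine ⟨tbd_gd hR hq ?_, h1⟩
  rw [kap_en]
  linarith

private theorem tbd_core {R : ℕ} {c0 B : List Bool} {b : Bool} {S : Set PP} {D D' : ℤ} {M M' : Mt}
    (hF : Fam R c0 B S D D' M M') {n : ℕ} {x y z : PP} (hx : x ∈ S) (hy : y ∈ S) (hz : z ∈ S)
    (hb : Bt x.1 y.1 z.1) (ex : en c0 b n <:+ x.1) (ey : en c0 b n <:+ y.1) (ez : en c0 b n <:+ z.1) :
    ∃ d, B <:+ d ∧ ss d ≤ R ∧ ee d ≤ (R : ℝ) ^ 20 * ee (en c0 b n) ∧
      ∀ v, |D * LL (en c0 b n) v - LL d (ap M v)| ≤ (R : ℝ) ^ 20 * ee (en c0 b n) * nm v := by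
  have hb2 := (bt_fam hF hx hy hz).1 hb
  obtain ⟨d, ht⟩ := tu_exists (bt_ne hb2).2.2
  have h1 := tu_base ht (hF.hB x hx) (hF.hB z hz)
  have h2 := tu_below ht hb2
  have h3 : ss d ≤ R := (ss_suffix h2).trans (hF.pr y hy).2.2.2
  have h4 := tu_size hF hx hy hz hb ht (cc_of_suffix ex) (cc_of_suffix ey) (cc_of_suffix ez)
  have h5 := tu_close' hF hx hy hz hb ht (cc_of_suffix ex) (cc_of_suffix ey) (cc_of_suffix ez)
  have hR : (100 : ℝ) ≤ R := by exact_mod_cast hF.hR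
  have hR1 : (1 : ℝ) ≤ R := by linarith
  have h90 : 90 * (R : ℝ) ^ 11 ≤ (R : ℝ) ^ 20 := by
    have e1 : (R : ℝ) ^ 12 ≤ (R : ℝ) ^ 20 := pow_le_pow_right₀ hR1 (by norm_num)
    have e2 : (R : ℝ) ^ 12 = R * (R : ℝ) ^ 11 := by ring
    have e3 : 90 * (R : ℝ) ^ 11 ≤ R * (R : ℝ) ^ 11 :=
      mul_le_mul_of_nonneg_right (by linarith) (by positivity)
    linarith
  have h14 : 14 * (R : ℝ) ^ 6 ≤ (R : ℝ) ^ 20 := by
    have e1 : (R : ℝ) ^ 6 ≤ (R : ℝ) ^ 11 := pow_le_pow_right₀ hR1 (by norm_num)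
    have e2 : (0 : ℝ) ≤ (R : ℝ) ^ 11 := by positivity
    linarith
  have he := (ee_pos (en c0 b n)).le
  refine ⟨d, h1, h3, h4.trans (mul_le_mul_of_nonneg_right h14 he), fun v => (h5 v).trans ?_⟩
  exact mul_le_mul_of_nonneg_right (mul_le_mul_of_nonneg_right h90 he) (nm_nonneg v)

theorem rich_info {R : ℕ} {c0 B : List Bool} {b : Bool} {S : Set PP} {D D' : ℤ} {M M' : Mt}
    (hF : Fam R c0 B S D D' M M') {n : ℕ} {x y z : PP} (hx : x ∈ S) (hy : y ∈ S) (hz : z ∈ S) (hxy : x ≠ y)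
    (hxz : x ≠ z) (hyz : y ≠ z) (ex : en c0 b n <:+ x.1) (ey : en c0 b n <:+ y.1) (ez : en c0 b n <:+ z.1) :
    ∃ d, B <:+ d ∧ ss d ≤ R ∧ ee d ≤ (R : ℝ) ^ 20 * ee (en c0 b n) ∧
      ∀ v, |D * LL (en c0 b n) v - LL d (ap M v)| ≤ (R : ℝ) ^ 20 * ee (en c0 b n) * nm v := by
  have n1 : x.1 ≠ y.1 := fun h => hxy (fam_inj1 hF hx hy h)
  have n2 : x.1 ≠ z.1 := fun h => hxz (fam_inj1 hF hx hz h)
  have n3 : y.1 ≠ z.1 := fun h => hyz (fam_inj1 hF hy hz h)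
  rcases lt_or_gt n1 with a1 | a1 <;> rcases lt_or_gt n2 with a2 | a2 <;>
    rcases lt_or_gt n3 with a3 | a3
  · exact tbd_core hF hx hy hz (Or.inl ⟨a1, a3⟩) ex ey ez
  · exact tbd_core hF hx hz hy (Or.inl ⟨a2, a3⟩) ex ez ey
  · exact tbd_core hF hz hx hy (Or.inl ⟨a2, a1⟩) ez ex ey
  · exact tbd_core hF hz hx hy (Or.inl ⟨a2, a1⟩) ez ex ey
  · exact tbd_core hF hy hx hz (Or.inl ⟨a1, a2⟩) ey ex ez
  · exact tbd_core hF hy hx hz (Or.inl ⟨a1, a2⟩) ey ex ez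
  · exact tbd_core hF hy hz hx (Or.inl ⟨a3, a2⟩) ey ez ex
  · exact tbd_core hF hx hy hz (Or.inr ⟨a3, a1⟩) ex ey ez

private theorem tbd_three {T : Set PP} (hT : T.Finite) (h : 3 ≤ T.ncard) :
    ∃ x ∈ T, ∃ y ∈ T, ∃ z ∈ T, x ≠ y ∧ x ≠ z ∧ y ≠ z := by
  obtain ⟨x, y, z, hx, hy, hz, h1, h2, h3⟩ := (Set.two_lt_ncard_iff hT).1 h
  exact ⟨x, hx, y, hy, z, hz, h1, h2, h3⟩

theorem rich_lt {R : ℕ} {c0 B : List Bool} {b : Bool} {S : Set PP} {D D' : ℤ} {M M' : Mt}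
    (hF : Fam R c0 B S D D' M M') {q : ℝ} (hq : (R : ℝ) ^ 100 ≤ Real.exp q) (hz : F (zh c0 b) ≤ q)
    (hB : 10 * q ≤ kap B) (hw : 10 * q ≤ F (zw c0 b 0)) {n m : ℕ}
    (hn : 3 ≤ {x | x ∈ S ∧ en c0 b n <:+ x.1}.ncard) (hm : 3 ≤ {x | x ∈ S ∧ en c0 b m <:+ x.1}.ncard) :
    ¬ ((n : ℝ) + 2 * q + 1 ≤ m) := by
  intro hnm
  have hfin := fam_finite hF
  obtain ⟨x, hx, y, hy, z, hz', a1, a2, a3⟩ :=
    tbd_three (hfin.subset (fun x (hx : x ∈ S ∧ _) => hx.1)) hn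
  obtain ⟨x', hx', y', hy', z', hz'', a1', a2', a3'⟩ :=
    tbd_three (hfin.subset (fun x (hx : x ∈ S ∧ _) => hx.1)) hm
  obtain ⟨dn, b1, b2, b3, b4⟩ := rich_info hF hx.1 hy.1 hz'.1 a1 a2 a3 hx.2 hy.2 hz'.2
  obtain ⟨dm, c1, c2, c3, c4⟩ := rich_info hF hx'.1 hy'.1 hz''.1 a1' a2' a3' hx'.2 hy'.2 hz''.2
  have s0 : ss (en c0 b m) ≤ R := (ss_suffix hx'.2).trans (hF.pr x' hx'.1).2.2.1
  exact TH hF hq hz hB hw b1 c1 s0 b2 c2 b3 c3 b4 c4 hnm

theorem window_card {V : Set ℕ} {g : ℝ} (hg : 1 ≤ g) (h : ∀ n ∈ V, ∀ m ∈ V, ¬ ((n : ℝ) + g ≤ m)) :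
    V.Finite ∧ (V.ncard : ℝ) ≤ g + 1 := by
  rcases V.eq_empty_or_nonempty with h0 | h0
  · subst h0
    refine ⟨Set.finite_empty, ?_⟩
    rw [Set.ncard_empty, Nat.cast_zero]
    linarith
  · have h1 := Nat.sInf_mem h0
    have h2 : V ⊆ ((Finset.Ico (sInf V) (sInf V + ⌈g⌉₊) : Finset ℕ) : Set ℕ) := by
      intro m hm
      rw [Finset.coe_Ico, Set.mem_Ico]
      refine ⟨Nat.sInf_le hm, ?_⟩
      have h3 := h _ h1 m hm
      have h4 : g ≤ (⌈g⌉₊ : ℝ) := Nat.le_ceil g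
      have h5 : (m : ℝ) < ((sInf V + ⌈g⌉₊ : ℕ) : ℝ) := by
        push_cast
        linarith
      exact_mod_cast h5
    refine ⟨(Finset.finite_toSet _).subset h2, ?_⟩
    have h3 : V.ncard ≤ ⌈g⌉₊ := by
      have h4 := Set.ncard_le_ncard h2 (Finset.finite_toSet _)
      rw [Set.ncard_coe_finset, Nat.card_Ico] at h4
      omega
    have h5 := Nat.ceil_lt_add_one (show (0 : ℝ) ≤ g by linarith)
    have h6 : (V.ncard : ℝ) ≤ (⌈g⌉₊ : ℝ) := by exact_mod_cast h3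
    linarith

private theorem tbd_union {α : Type} (s : Finset ℕ) (f : ℕ → Set α) (hf : ∀ j ∈ s, (f j).Finite) :
    (⋃ j ∈ s, f j).ncard ≤ ∑ j ∈ s, (f j).ncard := by
  classical
  induction s using Finset.induction_on with
  | empty => simp
  | insert a s ha ih =>
    rw [Finset.set_biUnion_insert, Finset.sum_insert ha]
    refine (Set.ncard_union_le _ _).trans ?_
    exact Nat.add_le_add_left (ih (fun j hj => hf j (Finset.mem_insert_of_mem hj))) _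

theorem T3 {R : ℕ} {A B : List Bool} {S : Set PP} {D D' : ℤ} {M M' : Mt} (hF : Fam R A B S D D' M M')
    {b : Bool} {q : ℝ} (hq : (R : ℝ) ^ 100 ≤ Real.exp q) (hz : F (zh B b) ≤ q)
    (hA : 10 * q ≤ kap A) (hw : 10 * q ≤ F (zw B b 0)) {μ Dv dep : ℕ} (hCB : ∀ j, CB R A (en B b j) M μ)
    (hDv : DvB R Dv) (hd : ∀ x ∈ S, x.1.length ≤ A.length + dep) :
    (S.ncard : ℝ) ≤ 3 * (2 * dep + 6) + (2 * q + 2) * (3 * (Dv * μ + 2) * (dep + 1)) := by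
  classical
  have hR := hF.hR
  obtain ⟨hq0, hq1⟩ := tbd_q hR hq
  have gA : Gd R A := tbd_gd hR hq hA
  have hSf := fam_finite hF
  obtain ⟨U, hU⟩ : ∃ U : ℕ → Set PP, ∀ j, U j = {x | x ∈ S ∧ en B b j <:+ x.2} := ⟨_, fun _ => rfl⟩
  have hUS : ∀ j, U j ⊆ S := by
    intro j x hx
    rw [hU] at hx
    exact hx.1
  -- the bound for one index
  have hone : ∀ j, (U j).ncard ≤ 3 * (Dv * μ + 2) * (dep + 1) := by
    intro j
    have h1 : Fam R A (en B b j) (U j) D D' M M' := by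
      refine fam_sub hF (hUS j) (fun x hx => hF.hA x (hUS j hx)) (fun x hx => ?_)
      rw [hU] at hx
      exact hx.2
    have h2 := T1 h1 gA (ray_kap hR hq hw j).1 (hCB j) hDv (fun x hx => hd x (hUS j hx))
    rwa [Set.ncard_image_of_injOn (fun x hx y hy h => fam_inj1 h1 hx hy h)] at h2
  -- the rich indices
  have hrich : ∀ n ∈ {j | 3 ≤ (U j).ncard}, ∀ m ∈ {j | 3 ≤ (U j).ncard},
      ¬ ((n : ℝ) + (2 * q + 1) ≤ m) := by
    intro n hn m hm hnm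
    have hsw : ∀ j, {x | x ∈ Prod.swap '' S ∧ en B b j <:+ x.1}.ncard = (U j).ncard := by
      intro j
      have e1 : {x | x ∈ Prod.swap '' S ∧ en B b j <:+ x.1} = Prod.swap '' (U j) := by
        rw [hU]
        ext x
        constructor
        · rintro ⟨⟨y, hy, rfl⟩, h2⟩
          exact ⟨y, ⟨hy, h2⟩, rfl⟩
        · rintro ⟨y, ⟨hy, h2⟩, rfl⟩
          exact ⟨⟨y, hy, rfl⟩, h2⟩
      rw [e1, Set.ncard_image_of_injective _ Prod.swap_injective]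
    have h1 := rich_lt (fam_swap hF) hq hz hA hw (b := b) (n := n) (m := m)
      (by rw [hsw]; exact hn) (by rw [hsw]; exact hm)
    apply h1
    linarith
  obtain ⟨hVf, hVc⟩ := window_card (g := 2 * q + 1) (by linarith) hrich
  -- all indices
  have hch := chain hF gA b hd
  obtain ⟨V, hV⟩ : ∃ V : Set ℕ, V = {j : ℕ | ∃ x ∈ S, Ix B b j x.2} := ⟨_, rfl⟩
  rw [← hV] at hch
  have hVfin : V.Finite := Set.finite_of_encard_le_coe hch
  have hVn : V.ncard ≤ 2 * dep + 6 := by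
    rw [← Set.Finite.cast_ncard_eq hVfin] at hch
    exact_mod_cast hch
  obtain ⟨W, hW⟩ : ∃ W : Finset ℕ, (W : Set ℕ) = V := ⟨hVfin.toFinset, hVfin.coe_toFinset⟩
  have hWc : W.card ≤ 2 * dep + 6 := by
    rw [← hW, Set.ncard_coe_finset] at hVn
    exact hVn
  obtain ⟨T, hT⟩ : ∃ T : ℕ → Set PP, ∀ j, T j = {x | x ∈ S ∧ x.2 = cn B b j} ∪ U j :=
    ⟨_, fun _ => rfl⟩
  have hTS : ∀ j, T j ⊆ S := by
    intro j x hx
    rw [hT] at hx
    rcases hx with hx | hx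
    · exact hx.1
    · exact hUS j hx
  have hcov : S ⊆ ⋃ j ∈ W, T j := by
    intro x hx
    obtain ⟨j, hj⟩ := ix_exists b (hF.hB x hx)
    have hjV : j ∈ V := by
      rw [hV]
      exact ⟨x, hx, hj⟩
    rw [Set.mem_iUnion₂]
    refine ⟨j, ?_, ?_⟩
    · rw [← hW] at hjV
      exact hjV
    · rw [hT, hU]
      rcases hj with hj | hj
      · exact Or.inl ⟨hx, hj⟩
      · exact Or.inr ⟨hx, hj⟩
  have hTc : ∀ j, (T j).ncard ≤ 1 + (U j).ncard := by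
    intro j
    rw [hT]
    refine (Set.ncard_union_le _ _).trans (Nat.add_le_add_right ?_ _)
    rw [Set.ncard_le_one (hSf.subset (fun x hx => hx.1))]
    intro x hx y hy
    exact fam_inj2 hF hx.1 hy.1 (hx.2.trans hy.2.symm)
  have hsum : S.ncard ≤ ∑ j ∈ W, (T j).ncard := by
    have hfin : (⋃ j ∈ W, T j).Finite := hSf.subset (Set.iUnion₂_subset (fun j _ => hTS j))
    exact (Set.ncard_le_ncard hcov hfin).trans
      (tbd_union W T (fun j _ => hSf.subset (hTS j)))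
  have hsplit : ∑ j ∈ W, (T j).ncard ≤ 3 * W.card + ∑ j ∈ W.filter (fun j => 3 ≤ (U j).ncard), (U j).ncard := by
    rw [Finset.sum_filter, mul_comm, ← smul_eq_mul, ← Finset.sum_const, ← Finset.sum_add_distrib]
    refine Finset.sum_le_sum fun j _ => ?_
    have h1 := hTc j
    split_ifs with h2
    · omega
    · omega
  have hbig : ∑ j ∈ W.filter (fun j => 3 ≤ (U j).ncard), (U j).ncard ≤
      (W.filter (fun j => 3 ≤ (U j).ncard)).card * (3 * (Dv * μ + 2) * (dep + 1)) := by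
    rw [← smul_eq_mul]
    exact Finset.sum_le_card_nsmul _ _ _ (fun j _ => hone j)
  have hcard : ((W.filter (fun j => 3 ≤ (U j).ncard)).card : ℝ) ≤ 2 * q + 2 := by
    have h1 : (W.filter (fun j => 3 ≤ (U j).ncard)).card ≤ {j | 3 ≤ (U j).ncard}.ncard := by
      rw [← Set.ncard_coe_finset]
      refine Set.ncard_le_ncard (fun j hj => ?_) hVf
      rw [Finset.mem_coe, Finset.mem_filter] at hj
      exact hj.2
    have h2 : ((W.filter (fun j => 3 ≤ (U j).ncard)).card : ℝ) ≤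
        ({j | 3 ≤ (U j).ncard}.ncard : ℝ) := by exact_mod_cast h1
    linarith
  have htot : S.ncard ≤ 3 * (2 * dep + 6) +
      (W.filter (fun j => 3 ≤ (U j).ncard)).card * (3 * (Dv * μ + 2) * (dep + 1)) := by
    have h1 : 3 * W.card ≤ 3 * (2 * dep + 6) := Nat.mul_le_mul_left 3 hWc
    omega
  have htot' : (S.ncard : ℝ) ≤ 3 * (2 * dep + 6) +
      ((W.filter (fun j => 3 ≤ (U j).ncard)).card : ℝ) * (3 * (Dv * μ + 2) * (dep + 1)) := by
    exact_mod_cast htot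
  have hnn : (0 : ℝ) ≤ 3 * ((Dv : ℝ) * μ + 2) * (dep + 1) := by positivity
  have := mul_le_mul_of_nonneg_right hcard hnn
  linarith

end Pool.Agent.Lib.MP_94ab62_ntZ
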