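import Pool.Agent.Lib.MP_94ab62_ntZ.TcB

/-!
# TcC: all members below a node with a long edge

* `lrc_class`: `S` finite (`fam_finite`).  Window of `x`: `j = ⌊ll x.1 / W⌋₊`; `0 ≤ ll x.1 ≤ 9/5 R` (`ll_le`, `ss ≤ R` from `hF.pr`; `ll > 0`), so `j ≤ ⌊9/5 R / W⌋₊`: at most `9/5 R/W + 1 ≤ 2R/W + 1` values.  Two members of the same
  window: `|ll x.1 - ll y.1| ≤ W` (`Nat.floor_le`, `Nat.lt_floor_add_one`).  `fibre_le` (CutU) or a direct finite sum, each fibre by `lrc_window` applied to `fam_sub hF`.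
* `lrc_all`: `x ∈ S`: `bel_of b (hF.hA x hx)` gives `X, Y ≥ 1`; `X_le`: `X * (3 w) ≤ 2 R ≤ m w` so `X ≤ m` (`w > 0` by `hc`: all terms are `≥ 0`, `W + 1 > 0`).  Fibres over `X ∈ {1, .., m}`: each is `≤ (2R/W+1)(m+3)` by
  `lrc_class` (`fam_sub`).
-/

set_option autoImplicit false

namespace Pool.Agent.Lib.MP_94ab62_ntZ

open Pool.Agent.Lib.MP_94ab62_nt Pool.Agent.Lib.MP_94ab62_ntU

private theorem tcc_nonneg {W : ℝ} (hW : 0 < W) (p : List Bool) : 0 ≤ ll p / W := by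
  have h1 := mx_lt_ll p
  have h2 := kap_ge p
  have h3 : kap p ≤ mx p := min_le_max
  exact div_nonneg (by linarith) hW.le

theorem lrc_class {R : ℕ} {c B : List Bool} {b : Bool} {S : Set PP} {D D' : ℤ} {M M' : Mt}
    (hF : Fam R c B S D D' M M') {X m : ℕ} {H w W : ℝ} (hX : ∀ x ∈ S, cX c b (uu x.1) = X) (hXm : X ≤ m)
    (hW1 : 1 ≤ W) (hH : F (zh c b) ≤ H) (hW : W + 1 ≤ H) (hw : 3 * w ≤ F (zw c b 0)) (hm : 3 * R ≤ m * w)
    (hc : 20 * (m * (H + 10) + m * Real.log R + Real.log R) + (W + 1) ≤ w) :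
    (S.ncard : ℝ) ≤ (2 * R / W + 1) * (m + 3) := by
  have hR0 : (0 : ℝ) ≤ R := Nat.cast_nonneg _
  have hW0 : 0 < W := by linarith
  have hfin := fam_finite hF
  have h1 : S.ncard ≤ (Set.Iic ⌊9 / 5 * (R : ℝ) / W⌋₊).ncard * (m + 3) := by
    refine fibre_le (fun x => ⌊ll x.1 / W⌋₊) hfin (Set.finite_Iic _) ?_ ?_
    · intro x hx
      have h2 := ll_le x.1
      have h3 : (ss x.1 : ℝ) ≤ R := by exact_mod_cast (hF.pr x hx).2.2.1
      refine Set.mem_Iic.2 (Nat.floor_le_floor ?_)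
      exact div_le_div_of_nonneg_right (by linarith) hW0.le
    · intro t _
      refine lrc_window (fam_sub hF (S' := {x | x ∈ S ∧ ⌊ll x.1 / W⌋₊ = t}) (fun x hx => hx.1)
        (fun x hx => hF.hA x hx.1) (fun x hx => hF.hB x hx.1)) (fun x hx => hX x hx.1) hXm ?_ hH hW hw hm hc
      rintro x ⟨hx, hxt⟩ y ⟨hy, hyt⟩
      have a1 := Nat.floor_le (tcc_nonneg hW0 x.1)
      have a2 := Nat.lt_floor_add_one (ll x.1 / W)
      have b1 := Nat.floor_le (tcc_nonneg hW0 y.1)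
      have b2 := Nat.lt_floor_add_one (ll y.1 / W)
      rw [hxt] at a1 a2
      rw [hyt] at b1 b2
      rw [le_div_iff₀ hW0] at a1 b1
      rw [div_lt_iff₀ hW0] at a2 b2
      rw [abs_le]
      constructor <;> linarith
  have h2 : (Set.Iic ⌊9 / 5 * (R : ℝ) / W⌋₊).ncard = ⌊9 / 5 * (R : ℝ) / W⌋₊ + 1 := by
    rw [← Finset.coe_Iic, Set.ncard_coe_finset, Nat.card_Iic]
  rw [h2] at h1
  have h3 : (S.ncard : ℝ) ≤ ((⌊9 / 5 * (R : ℝ) / W⌋₊ : ℝ) + 1) * (m + 3) := by exact_mod_cast h1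
  have h4 : (⌊9 / 5 * (R : ℝ) / W⌋₊ : ℝ) ≤ 9 / 5 * (R : ℝ) / W := Nat.floor_le (by positivity)
  have h5 : 9 / 5 * (R : ℝ) / W ≤ 2 * R / W := div_le_div_of_nonneg_right (by linarith) hW0.le
  refine h3.trans (mul_le_mul_of_nonneg_right (by linarith) (by positivity))

theorem lrc_all {R : ℕ} {c B : List Bool} {b : Bool} {S : Set PP} {D D' : ℤ} {M M' : Mt}
    (hF : Fam R c B S D D' M M') {m : ℕ} {H w W : ℝ} (hW1 : 1 ≤ W) (hH : F (zh c b) ≤ H) (hW : W + 1 ≤ H)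
    (hw : 3 * w ≤ F (zw c b 0)) (hm : 3 * R ≤ m * w)
    (hc : 20 * (m * (H + 10) + m * Real.log R + Real.log R) + (W + 1) ≤ w) :
    (S.ncard : ℝ) ≤ m * ((2 * R / W + 1) * (m + 3)) := by
  have hR0 : (0 : ℝ) ≤ R := Nat.cast_nonneg _
  have hW0 : 0 < W := by linarith
  have hfin := fam_finite hF
  have hR1 : (100 : ℝ) ≤ R := by exact_mod_cast hF.hR
  have hl0 : 0 ≤ Real.log R := Real.log_nonneg (by linarith)
  have hm0 : (0 : ℝ) ≤ m := Nat.cast_nonneg m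
  have hw0 : 0 < w := by
    have h1 : (0 : ℝ) ≤ m * (H + 10) := mul_nonneg hm0 (by linarith)
    have h2 : (0 : ℝ) ≤ m * Real.log R := mul_nonneg hm0 hl0
    linarith
  have hg : ∀ x ∈ S, ∃ X : ℕ, 1 ≤ X ∧ X ≤ m ∧ cX c b (uu x.1) = X := by
    intro x hx
    obtain ⟨X, Y, h1, h2, h3⟩ := bel_of b (hF.hA x hx)
    refine ⟨X, h1, ?_, h3.cx⟩
    have h4 := X_le h3 (hF.pr x hx).2.2.1 hw
    have h5 : (X : ℝ) * w < m * w := by
      have h6 : (0 : ℝ) ≤ X * w := mul_nonneg (Nat.cast_nonneg _) hw0.le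
      linarith
    have h6 := lt_of_mul_lt_mul_right h5 hw0.le
    exact_mod_cast h6.le
  have h1 : S.ncard ≤ (Set.Icc 1 m).ncard * ⌊(2 * (R : ℝ) / W + 1) * (m + 3)⌋₊ := by
    refine fibre_le (fun x => (cX c b (uu x.1)).toNat) hfin (Set.finite_Icc _ _) ?_ ?_
    · intro x hx
      obtain ⟨X, h2, h3, h4⟩ := hg x hx
      rw [Set.mem_Icc, h4]
      exact ⟨h2, h3⟩
    · intro t ht
      refine Nat.le_floor ?_
      refine lrc_class (X := t) (fam_sub hF (S' := {x | x ∈ S ∧ (cX c b (uu x.1)).toNat = t}) (fun x hx => hx.1)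
        (fun x hx => hF.hA x hx.1) (fun x hx => hF.hB x hx.1)) ?_ (Set.mem_Icc.1 ht).2 hW1 hH hW hw hm hc
      rintro x ⟨hx, hxt⟩
      obtain ⟨X, h2, h3, h4⟩ := hg x hx
      rw [← hxt, h4]
      rfl
  have h2 : (Set.Icc 1 m).ncard = m := by
    rw [← Finset.coe_Icc, Set.ncard_coe_finset, Nat.card_Icc]
    omega
  rw [h2] at h1
  have h3 : (S.ncard : ℝ) ≤ m * (⌊(2 * (R : ℝ) / W + 1) * (m + 3)⌋₊ : ℝ) := by exact_mod_cast h1
  have h4 : (⌊(2 * (R : ℝ) / W + 1) * (m + 3)⌋₊ : ℝ) ≤ (2 * (R : ℝ) / W + 1) * (m + 3) :=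
    Nat.floor_le (by positivity)
  exact h3.trans (mul_le_mul_of_nonneg_left h4 hm0)

end Pool.Agent.Lib.MP_94ab62_ntZ
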