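import Pool.Agent.Lib.MP_94ab62_ntZ.TcA
import Pool.Agent.Lib.MP_94ab62_ntZ.RaB
import Pool.Agent.Lib.MP_94ab62_ntZ.RaE

/-!
# TcD: long paths contain long straight blocks

* `two_blocks`: `n, n' ≥ 1`: let `c' = cn c b n`, `c' = b :: cn c b (n-1)`.  `(!b) :: c' <:+ cn c' (!b) n'` (`cn_suffix`), so it suffices `2 ll c ≤ ll ((!b) :: c')` (`ll_suffix`).
  `ll ((!b) :: c') = (kept edge) + ll c' - ee ((!b) :: c')` (`ll_eq`; the kept edge of `(!b) :: c'` is `uu (cn c b (n-1))`, its length is `ll (cn c b (n-1)) ≥ ll c`: for `b = true`, `c' = true :: c''`,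
  `g2 c' = uu c''`, `!b = false` keeps `g2`; `fb (tn (true :: c'')) = ll c''`), `ll c' ≥ ll (b :: c) ≥ ll c + kap c - 1/80 ≥ ll c + 7/8` (`ll_cons`, `kap_ge`), `ee ≤ 1/20` (`ee_small`).
* `block_end`: `(b :: c) <:+ x`, `¬ cn c b N <:+ x`: the largest `n` with `cn c b n <:+ x` satisfies `1 ≤ n < N` (`Nat.find` for the first `n` with `¬ cn c b n <:+ x`; `cn c b 1 = b :: c`; `cn_suffix`: downward closed),
  and `x = cn c b n` or `((!b) :: cn c b n) <:+ x` (`x = t ++ cn c b n`; `t = []` or the next letter is not `b`, because `b :: cn c b n = cn c b (n+1)` is not a suffix).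
* `growth`: induction on `i` (for all `c`, `b`).  `i = 0`: `ll_suffix`.  Step: `block_end` gives `n < N`, `c' = cn c b n`, `c' ≠ x` by length (`c'.length = c.length + n < c.length + 2 (i+1) N ≤ x.length`), so
  `((!b) :: c') <:+ x`; `block_end` again: `n' < N`, `c'' = cn c' (!b) n'`, `c''.length < c.length + 2 N`, `c'' ≠ x`, `(b :: c'') <:+ x` (`!!b = b`), `A <:+ c''`; induction hypothesis: `2^i ll c'' ≤ ll x`; `two_blocks`.
* `to_base`: induction on `c`: `A <:+ c`.  If `c = A`: `c0 = A`, `m = 0`.  Otherwise `c = e :: c1`, `A <:+ c1`: if `e = b` use the induction hypothesis for `c1` (`cn_succ`); if `e = !b`: `c0 = c`, `m = 0`.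
* `zw_lin`: `F (zw c b n) ≥ 9/10 n F (zh c b)`: `F (zw (n+1)) = F (zw n) + F (zh) - ee (cn c b n)` (`ee_cn`, `er`: `er z y n = F (y n) + F z - F (y (n+1))`), `ee (cn c b n) ≤ 1/20 ≤ 1/10 F (zh)` as `F (zh c b) ≥ kap c ≥ 9/10`
  (`kap_ge`)... (`1/20 ≤ 1/10 * 9/10 = 9/100`).
* `zh_ge`: `kap c ≤ F (zh c b)` (`min_le_left`, `min_le_right`); `zw_le`: `F (zw c b n) ≤ ll (cn c b n)` (`fa_lt_fc`, `fb_lt_fc`).
* `deep_ray`: if no `(c, b)` with `A <:+ c` has `cn c b N <:+ x`, then `growth` with `c = A` and the first letter of the path (`x.length > A.length`): `2^i ll A ≤ ll x ≤ 9/5 ss x ≤ 9/5 R < 2^i`, but `ll A ≥ kap A + .. ≥ 1`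
  (`fa_lt_fc`, or `ll_ge`: `9/10 ss ≥ 9/5`).  So some `(c, b)` exists; `to_base`: `c = cn c0 b m`, `cn c0 b N <:+ cn c0 b (m + N) = cn c b N <:+ x`.  `9/10 N F (zh c0 b) ≤ F (zw c0 b N) ≤ ll (cn c0 b N) ≤ ll x ≤ 9/5 R`.
-/

set_option autoImplicit false

namespace Pool.Agent.Lib.MP_94ab62_ntZ

open Pool.Agent.Lib.MP_94ab62_nt Pool.Agent.Lib.MP_94ab62_ntU

private theorem tcd_cn_cn (c0 : List Bool) (b : Bool) (m n : ℕ) :
    cn (cn c0 b m) b n = cn c0 b (m + n) := by
  induction n with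
  | zero => rw [cn_zero, add_zero]
  | succ n ih => rw [cn_succ, ih, ← add_assoc, cn_succ]

private theorem tcd_next {c x : List Bool} (h : c <:+ x) : x = c ∨ ∃ e, (e :: c) <:+ x := by
  obtain ⟨t, rfl⟩ := h
  rcases List.eq_nil_or_concat t with ht | ⟨L, e, ht⟩
  · left
    rw [ht, List.nil_append]
  · right
    refine ⟨e, L, ?_⟩
    rw [ht, List.concat_eq_append, List.append_assoc]
    rfl

theorem two_blocks (c : List Bool) (b : Bool) {n n' : ℕ} (hn : 1 ≤ n) (hn' : 1 ≤ n') :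
    2 * ll c ≤ ll (cn (cn c b n) (!b) n') := by
  obtain ⟨k, rfl⟩ : ∃ k, n = k + 1 := ⟨n - 1, by omega⟩
  rw [cn_succ]
  have h1 := ll_suffix (cn_suffix (b :: cn c b k) (!b) hn')
  have h2 : cn (b :: cn c b k) (!b) 1 = (!b) :: b :: cn c b k := rfl
  rw [h2] at h1
  have h3 := ll_suffix (cn_suffix c b (Nat.zero_le k))
  rw [cn_zero] at h3
  have h4 := ll_cons b (cn c b k)
  have h5 := kap_ge (cn c b k)
  have h6 := ee_small ((!b) :: b :: cn c b k)
  have h7 := ll_eq ((!b) :: b :: cn c b k)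
  have h8 : fa (tn ((!b) :: b :: cn c b k)) + fb (tn ((!b) :: b :: cn c b k)) =
      ll (b :: cn c b k) + ll (cn c b k) := by
    cases b
    · exact add_comm _ _
    · rfl
  linarith

theorem block_end {c x : List Bool} {b : Bool} {N : ℕ} (h : (b :: c) <:+ x) (hN : ¬ cn c b N <:+ x) :
    ∃ n, 1 ≤ n ∧ n < N ∧ cn c b n <:+ x ∧ (x = cn c b n ∨ ((!b) :: cn c b n) <:+ x) := by
  classical
  have hex : ∃ n, ¬ cn c b n <:+ x := ⟨N, hN⟩
  have h1 : cn c b 1 <:+ x := h
  have h0 : cn c b 0 <:+ x := (cn_suffix c b (Nat.zero_le 1)).trans h1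
  have hk := Nat.find_spec hex
  have hkN : Nat.find hex ≤ N := Nat.find_min' hex hN
  have hk0 : Nat.find hex ≠ 0 := fun h2 => by rw [h2] at hk; exact hk h0
  have hk1 : Nat.find hex ≠ 1 := fun h2 => by rw [h2] at hk; exact hk h1
  obtain ⟨n, hn⟩ : ∃ n, Nat.find hex = n + 1 := ⟨Nat.find hex - 1, by omega⟩
  have hmin : cn c b n <:+ x := not_not.1 (Nat.find_min hex (by omega : n < Nat.find hex))
  refine ⟨n, by omega, by omega, hmin, ?_⟩
  rcases tcd_next hmin with h3 | ⟨e, h3⟩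
  · exact Or.inl h3
  · right
    by_cases he : e = b
    · exfalso
      rw [hn] at hk
      apply hk
      rw [cn_succ]
      rw [he] at h3
      exact h3
    · have he' : e = !b := by
        cases e <;> cases b <;> simp_all
      rw [← he']
      exact h3

theorem growth {A x : List Bool} {N : ℕ} (hno : ∀ (c : List Bool) (b : Bool), A <:+ c → ¬ cn c b N <:+ x) (i : ℕ)
    {c : List Bool} {b : Bool} (hA : A <:+ c) (h : (b :: c) <:+ x) (hl : c.length + 2 * i * N ≤ x.length) :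
    2 ^ i * ll c ≤ ll x := by
  induction i generalizing c b with
  | zero =>
    rw [pow_zero, one_mul]
    exact ll_suffix ((List.suffix_cons b c).trans h)
  | succ i ih =>
    have hpos : 2 * (i + 1) * N = 2 * i * N + 2 * N := by ring
    rw [hpos] at hl
    obtain ⟨n, hn1, hnN, hs, hor⟩ := block_end h (hno c b hA)
    have hlen := cn_len c b n
    have hA' : A <:+ cn c b n := hA.trans (by
      have h1 := cn_suffix c b (Nat.zero_le n)
      rw [cn_zero] at h1
      exact h1)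
    rcases hor with hx | hx
    · exfalso
      rw [← hx] at hlen
      omega
    · obtain ⟨n', hn1', hnN', hs', hor'⟩ := block_end hx (hno (cn c b n) (!b) hA')
      have hlen' := cn_len (cn c b n) (!b) n'
      have hA'' : A <:+ cn (cn c b n) (!b) n' := hA'.trans (by
        have h1 := cn_suffix (cn c b n) (!b) (Nat.zero_le n')
        rw [cn_zero] at h1
        exact h1)
      rcases hor' with hx' | hx'
      · exfalso
        rw [← hx'] at hlen'
        omega
      · have h3 := ih hA'' hx' (by omega)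
        have h4 := two_blocks c b hn1 hn1'
        have h5 : (0 : ℝ) < 2 ^ i := by positivity
        have h6 := mul_le_mul_of_nonneg_left h4 h5.le
        rw [pow_succ, mul_assoc]
        exact h6.trans h3

theorem to_base {A c : List Bool} (b : Bool) (h : A <:+ c) :
    ∃ (c0 : List Bool) (m : ℕ), c = cn c0 b m ∧ A <:+ c0 ∧ (c0 = A ∨ ∃ c', c0 = (!b) :: c' ∧ A <:+ c') := by
  induction c with
  | nil =>
    have h1 := List.suffix_nil.1 h
    exact ⟨[], 0, rfl, h, Or.inl h1.symm⟩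
  | cons e c1 ih =>
    rcases List.suffix_cons_iff.1 h with h1 | h1
    · exact ⟨e :: c1, 0, rfl, h, Or.inl h1.symm⟩
    · by_cases he : e = b
      · obtain ⟨c0, m, h2, h3, h4⟩ := ih h1
        refine ⟨c0, m + 1, ?_, h3, h4⟩
        rw [cn_succ, ← h2, he]
      · have he' : e = !b := by
          cases e <;> cases b <;> simp_all
        exact ⟨e :: c1, 0, rfl, h, Or.inr ⟨c1, by rw [he'], h1⟩⟩

theorem zh_ge (c : List Bool) (b : Bool) : kap c ≤ F (zh c b) := by
  cases b
  · exact min_le_right _ _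
  · exact min_le_left _ _

theorem zw_lin (c : List Bool) (b : Bool) (n : ℕ) : 9 / 10 * n * F (zh c b) ≤ F (zw c b n) := by
  induction n with
  | zero =>
    have h1 := F_pos (rs_ray c b).hy
    rw [Nat.cast_zero, mul_zero, zero_mul]
    exact h1.le
  | succ n ih =>
    have h1 : ee (cn c b n) = F (zw c b n) + F (zh c b) - F (zw c b (n + 1)) := ee_cn c b n
    have h2 := ee_small (cn c b n)
    have h3 := zh_ge c b
    have h4 := kap_ge c
    push_cast
    linarith

theorem zw_le (c : List Bool) (b : Bool) (n : ℕ) : F (zw c b n) ≤ ll (cn c b n) := by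
  cases b
  · exact (fa_lt_fc (good_tn (cn c false n))).le
  · exact (fb_lt_fc (good_tn (cn c true n))).le

theorem deep_ray {R N i : ℕ} {A x : List Bool} (hA : A <:+ x) (hs : ss x ≤ R) (hi : 9 / 5 * (R : ℝ) < 2 ^ i)
    (hl : A.length + 2 * i * N < x.length) :
    ∃ (c : List Bool) (b : Bool), A <:+ c ∧ (c = A ∨ ∃ c', c = (!b) :: c' ∧ A <:+ c') ∧ cn c b N <:+ x ∧
      N * F (zh c b) ≤ 2 * R := by
  have hx1 := ll_le x
  have hx2 : (ss x : ℝ) ≤ R := by exact_mod_cast hs
  by_cases hc : ∃ (c : List Bool) (b : Bool), A <:+ c ∧ cn c b N <:+ x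
  · obtain ⟨c, b, h1, h2⟩ := hc
    obtain ⟨c0, m, h3, h4, h5⟩ := to_base b h1
    refine ⟨c0, b, h4, h5, ?_, ?_⟩
    · rw [h3, tcd_cn_cn] at h2
      exact (cn_suffix c0 b (Nat.le_add_left N m)).trans h2
    · have h6 := zw_lin c0 b N
      have h7 := zw_le c0 b N
      have h8 : cn c0 b N <:+ x := by
        rw [h3, tcd_cn_cn] at h2
        exact (cn_suffix c0 b (Nat.le_add_left N m)).trans h2
      have h9 := ll_suffix h8
      linarith
  · exfalso
    have hno : ∀ (c : List Bool) (b : Bool), A <:+ c → ¬ cn c b N <:+ x :=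
      fun c b h1 h2 => hc ⟨c, b, h1, h2⟩
    rcases tcd_next hA with h1 | ⟨b, h1⟩
    · rw [h1] at hl
      omega
    · have h2 := growth hno i (List.suffix_refl A) h1 hl.le
      have h3 := ll_ge A
      have h4 : (2 : ℝ) ≤ ss A := by exact_mod_cast ss_ge A
      have h5 : (0 : ℝ) < 2 ^ i := by positivity
      have h6 : (2 : ℝ) ^ i * 1 ≤ 2 ^ i * ll A := mul_le_mul_of_nonneg_left (by linarith) h5.le
      linarith

end Pool.Agent.Lib.MP_94ab62_ntZ
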