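import Pool.Agent.Lib.MP_94ab62_ntZ.TcD

/-!
# TcE: the number of rays with a short pivot

`Rys A Λ` = the rays `(c, b)` below `A` whose base is `A` or comes after a turn, with pivot length `≤ Λ`.
* `below_card`: `{c' | A <:+ c' ∧ ll c' ≤ Λ}` is finite with at most `(Λ / (9/10 kap A))^2` elements: for such `c'` let `x = det (uu c') (g2 A) ≥ 1`, `y = det (g1 A) (uu c') ≥ 1` (`geo_low`);
  `9/10 (fa x + fb y) ≤ ll c' ≤ Λ` and `fa, fb ≥ kap A`, so `x, y ≤ K := Λ / (9/10 kap A)` (even `x + y ≤ K`).  The map `c' ↦ (x.toNat, y.toNat)` into `Finset.Icc 1 ⌊K⌋₊ ×ˢ Finset.Icc 1 ⌊K⌋₊` is injective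
  (`basis_decomp A (uu c')`, `uu_inj`); `⌊K⌋₊ ≤ K` if `K ≥ 0`; if `Λ < 0` the set is empty (`ll c' > 0`).
* `zh_turn`: `zh ((!b) :: c') b = zz c'` (cases on `b`, `rfl`), so `F (zh ((!b) :: c') b) = ll c'`.
* `rys_card`: the set is contained in `{(A, true), (A, false)} ∪ {((!b) :: c', b) | b, c' ∈ {A <:+ c' ∧ ll c' ≤ Λ}}`: at most `2 + 2 * card`.
-/

set_option autoImplicit false

namespace Pool.Agent.Lib.MP_94ab62_ntZ

open Pool.Agent.Lib.MP_94ab62_nt Pool.Agent.Lib.MP_94ab62_ntU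

/-- rays below `A` with pivot length at most `Λ` -/
def Rys (A : List Bool) (Λ : ℝ) : Set (List Bool × Bool) :=
  {r | A <:+ r.1 ∧ (r.1 = A ∨ ∃ c', r.1 = (!r.2) :: c' ∧ A <:+ c') ∧ F (zh r.1 r.2) ≤ Λ}

theorem below_card (A : List Bool) (Λ : ℝ) :
    {c | A <:+ c ∧ ll c ≤ Λ}.Finite ∧ ({c | A <:+ c ∧ ll c ≤ Λ}.ncard : ℝ) ≤ (Λ / (9 / 10 * kap A)) ^ 2 := by
  obtain ⟨S, hS⟩ : ∃ S : Set (List Bool), S = {c | A <:+ c ∧ ll c ≤ Λ} := ⟨_, rfl⟩
  obtain ⟨K, hK⟩ : ∃ K : ℝ, K = Λ / (9 / 10 * kap A) := ⟨_, rfl⟩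
  rw [← hS, ← hK]
  have hk := kap_ge A
  have hkp : 0 < 9 / 10 * kap A := by linarith
  have key : ∀ c ∈ S, 1 ≤ det (uu c) (g2 A) ∧ 1 ≤ det (g1 A) (uu c) ∧
      (det (uu c) (g2 A) : ℝ) ≤ K ∧ (det (g1 A) (uu c) : ℝ) ≤ K := by
    intro c hc
    rw [hS] at hc
    obtain ⟨h1, h2⟩ := hc
    obtain ⟨h3, h4, h5⟩ := geo_low h1
    refine ⟨h4, h5, ?_⟩
    have hX : (1 : ℝ) ≤ (det (uu c) (g2 A) : ℝ) := by exact_mod_cast h4
    have hY : (1 : ℝ) ≤ (det (g1 A) (uu c) : ℝ) := by exact_mod_cast h5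
    obtain ⟨X, hXe⟩ : ∃ X : ℝ, X = (det (uu c) (g2 A) : ℝ) := ⟨_, rfl⟩
    obtain ⟨Y, hYe⟩ : ∃ Y : ℝ, Y = (det (g1 A) (uu c) : ℝ) := ⟨_, rfl⟩
    rw [← hXe, ← hYe] at h3
    rw [← hXe] at hX ⊢
    rw [← hYe] at hY ⊢
    have ha : kap A * X ≤ fa (tn A) * X := mul_le_mul_of_nonneg_right (min_le_left _ _) (by linarith)
    have hb : kap A * Y ≤ fb (tn A) * Y := mul_le_mul_of_nonneg_right (min_le_right _ _) (by linarith)
    have hXY : (X + Y) * (9 / 10 * kap A) ≤ Λ := by linarith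
    have hXYK : X + Y ≤ K := by
      rw [hK, le_div_iff₀ hkp]
      exact hXY
    constructor <;> linarith
  obtain ⟨f, hf⟩ : ∃ f : List Bool → ℕ × ℕ,
      f = fun c => ((det (uu c) (g2 A)).toNat, (det (g1 A) (uu c)).toNat) := ⟨_, rfl⟩
  have hmap : ∀ c ∈ S, f c ∈ (↑(Finset.Icc 1 ⌊K⌋₊ ×ˢ Finset.Icc 1 ⌊K⌋₊) : Set (ℕ × ℕ)) := by
    intro c hc
    obtain ⟨h1, h2, h3, h4⟩ := key c hc
    have e1 : (((det (uu c) (g2 A)).toNat : ℤ)) = det (uu c) (g2 A) := Int.toNat_of_nonneg (by omega)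
    have e2 : (((det (g1 A) (uu c)).toNat : ℤ)) = det (g1 A) (uu c) := Int.toNat_of_nonneg (by omega)
    have r1 : (((det (uu c) (g2 A)).toNat : ℝ)) = (det (uu c) (g2 A) : ℝ) := by exact_mod_cast congrArg (Int.cast : ℤ → ℝ) e1
    have r2 : (((det (g1 A) (uu c)).toNat : ℝ)) = (det (g1 A) (uu c) : ℝ) := by exact_mod_cast congrArg (Int.cast : ℤ → ℝ) e2
    rw [hf]
    rw [Finset.mem_coe, Finset.mem_product, Finset.mem_Icc, Finset.mem_Icc]
    refine ⟨⟨?_, ?_⟩, ⟨?_, ?_⟩⟩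
    · show 1 ≤ (det (uu c) (g2 A)).toNat
      omega
    · show (det (uu c) (g2 A)).toNat ≤ ⌊K⌋₊
      exact Nat.le_floor (by rw [r1]; exact h3)
    · show 1 ≤ (det (g1 A) (uu c)).toNat
      omega
    · show (det (g1 A) (uu c)).toNat ≤ ⌊K⌋₊
      exact Nat.le_floor (by rw [r2]; exact h4)
  have hinj : Set.InjOn f S := by
    intro c hc d hd hcd
    obtain ⟨h1, h2, h3, h4⟩ := key c hc
    obtain ⟨k1, k2, k3, k4⟩ := key d hd
    rw [hf] at hcd
    have e1 : (det (uu c) (g2 A)).toNat = (det (uu d) (g2 A)).toNat := congrArg Prod.fst hcd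
    have e2 : (det (g1 A) (uu c)).toNat = (det (g1 A) (uu d)).toNat := congrArg Prod.snd hcd
    have e3 : det (uu c) (g2 A) = det (uu d) (g2 A) := by omega
    have e4 : det (g1 A) (uu c) = det (g1 A) (uu d) := by omega
    apply uu_inj
    rw [basis_decomp A (uu c), e3, e4]
    exact (basis_decomp A (uu d)).symm
  have hfin : S.Finite := Set.Finite.of_injOn hmap hinj (Finset.finite_toSet _)
  refine ⟨hfin, ?_⟩
  rcases S.eq_empty_or_nonempty with h0 | ⟨c, hc⟩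
  · rw [h0, Set.ncard_empty]
    push_cast
    positivity
  · have hK0 : 0 ≤ K := by
      obtain ⟨h1, h2, h3, h4⟩ := key c hc
      have h5 : (1 : ℝ) ≤ (det (uu c) (g2 A) : ℝ) := by exact_mod_cast h1
      linarith
    have h6 := Set.ncard_le_ncard_of_injOn f hmap hinj (Finset.finite_toSet _)
    rw [Set.ncard_coe_finset, Finset.card_product, Nat.card_Icc] at h6
    have h7 : (⌊K⌋₊ : ℝ) ≤ K := Nat.floor_le hK0
    have h8 : ((⌊K⌋₊ + 1 - 1) * (⌊K⌋₊ + 1 - 1) : ℕ) = ⌊K⌋₊ * ⌊K⌋₊ := by rw [Nat.add_sub_cancel]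
    rw [h8] at h6
    have h9 : (S.ncard : ℝ) ≤ (⌊K⌋₊ : ℝ) * (⌊K⌋₊ : ℝ) := by exact_mod_cast h6
    have h10 : (⌊K⌋₊ : ℝ) * (⌊K⌋₊ : ℝ) ≤ K * K := mul_le_mul h7 h7 (Nat.cast_nonneg _) hK0
    rw [pow_two]
    linarith

theorem zh_turn (c : List Bool) (b : Bool) : zh ((!b) :: c) b = zz c := by
  cases b <;> rfl

theorem rys_card (A : List Bool) (Λ : ℝ) :
    (Rys A Λ).Finite ∧ ((Rys A Λ).ncard : ℝ) ≤ 2 + 2 * (Λ / (9 / 10 * kap A)) ^ 2 := by
  obtain ⟨hfin, hcard⟩ := below_card A Λ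
  obtain ⟨S, hS⟩ : ∃ S : Set (List Bool), S = {c | A <:+ c ∧ ll c ≤ Λ} := ⟨_, rfl⟩
  rw [← hS] at hfin hcard
  obtain ⟨f, hf⟩ : ∃ f : Bool → List Bool → List Bool × Bool, f = fun b c => ((!b) :: c, b) := ⟨_, rfl⟩
  have hsub : Rys A Λ ⊆ ({(A, true), (A, false)} : Set (List Bool × Bool)) ∪ (f true '' S ∪ f false '' S) := by
    rintro ⟨c, b⟩ ⟨h1, h2, h3⟩
    rcases h2 with h2 | ⟨c', h2, h4⟩
    · left
      have h5 : c = A := h2
      rw [h5]
      cases b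
      · right; rfl
      · left; rfl
    · right
      have h5 : c = (!b) :: c' := h2
      have h6 : c' ∈ S := by
        rw [hS]
        refine ⟨h4, ?_⟩
        have h7 : F (zh c b) ≤ Λ := h3
        rw [h5, zh_turn] at h7
        exact h7
      cases b
      · right
        exact ⟨c', h6, by rw [hf, h5]⟩
      · left
        exact ⟨c', h6, by rw [hf, h5]⟩
  have hfin2 : (({(A, true), (A, false)} : Set (List Bool × Bool)) ∪ (f true '' S ∪ f false '' S)).Finite :=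
    ((Set.finite_singleton _).insert _).union ((hfin.image _).union (hfin.image _))
  refine ⟨hfin2.subset hsub, ?_⟩
  have n1 := Set.ncard_le_ncard hsub hfin2
  have n2 := Set.ncard_union_le ({(A, true), (A, false)} : Set (List Bool × Bool)) (f true '' S ∪ f false '' S)
  have n3 := Set.ncard_union_le (f true '' S) (f false '' S)
  have n4 := Set.ncard_image_le (f := f true) hfin
  have n5 := Set.ncard_image_le (f := f false) hfin
  have n6 : ({(A, true), (A, false)} : Set (List Bool × Bool)).ncard ≤ 2 := by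
    have h := Set.ncard_insert_le (A, true) ({(A, false)} : Set (List Bool × Bool))
    rw [Set.ncard_singleton] at h
    exact h
  have n7 : (Rys A Λ).ncard ≤ 2 + 2 * S.ncard := by omega
  have n8 : ((Rys A Λ).ncard : ℝ) ≤ 2 + 2 * (S.ncard : ℝ) := by exact_mod_cast n7
  linarith

end Pool.Agent.Lib.MP_94ab62_ntZ
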