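import Pool.Agent.Lib.MP_94ab62_ntZ.TcC
import Pool.Agent.Lib.MP_94ab62_ntZ.TcE

/-!
# TcF: the deep members of a family

`S ⊆ ⋃ (c, b) ∈ Rys A Λ, {x ∈ S | cn c b N <:+ x.1}`: `deep_ray` for `x.1` gives `(c, b)` with `N F (zh c b) ≤ 2 R ≤ Λ N`, so `F (zh c b) ≤ Λ` (`N ≥ 1`).
For fixed `(c, b)` put `c1 = cn c b N`, `S1 = {x ∈ S | c1 <:+ x.1}`, `fam_sub hF`: `Fam R c1 B S1 ..`.  `zh c1 b = zh c b` (`zh_cn`, or by cases on `b`, `raa_t1`, `raa_t2`), `zw c1 b 0 = zw c b N` (`cn (cn c b N) b 0 = cn c b N`, `rfl`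
after cases).  `3 w ≤ 9/10 N kap A ≤ 9/10 N F (zh c b) ≤ F (zw c b N)` (`hw : 10 w ≤ 3 N kap A`; `zh_ge`, `kap_suffix`; `zw_lin`).  `lrc_all` gives `S1.ncard ≤ m ((2R/W+1)(m+3))`.
Sum over the finite set `Rys A Λ` (`rys_card`): the union bound (`Set.ncard` of a finite union `≤ ∑`), `card ≤ 2 + 2 (Λ/(9/10 kap A))^2`.
-/

set_option autoImplicit false

namespace Pool.Agent.Lib.MP_94ab62_ntZ

open Pool.Agent.Lib.MP_94ab62_nt Pool.Agent.Lib.MP_94ab62_ntU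

theorem LR1 {R : ℕ} {A B : List Bool} {S : Set PP} {D D' : ℤ} {M M' : Mt} (hF : Fam R A B S D D' M M')
    {N i m : ℕ} {H w W Λ : ℝ} (hi : 9 / 5 * (R : ℝ) < 2 ^ i) (hN : 1 ≤ N)
    (hl : ∀ x ∈ S, A.length + 2 * i * N < x.1.length) (hΛ : 2 * R ≤ Λ * N) (hΛH : Λ ≤ H) (hW1 : 1 ≤ W)
    (hW : W + 1 ≤ H) (hw : 10 * w ≤ 3 * N * kap A) (hm : 3 * R ≤ m * w)
    (hc : 20 * (m * (H + 10) + m * Real.log R + Real.log R) + (W + 1) ≤ w) :
    (S.ncard : ℝ) ≤ (2 + 2 * (Λ / (9 / 10 * kap A)) ^ 2) * (m * ((2 * R / W + 1) * (m + 3))) := by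
  classical
  have hkA : 9 / 10 ≤ kap A := kap_ge A
  have hN0 : (1 : ℝ) ≤ N := by exact_mod_cast hN
  obtain ⟨hfin, hcard⟩ := rys_card A Λ
  obtain ⟨Q, hQ⟩ : ∃ Q : ℝ, Q = m * ((2 * R / W + 1) * (m + 3)) := ⟨_, rfl⟩
  have hQ0 : 0 ≤ Q := by
    rw [hQ]
    have : 0 < W := by linarith
    positivity
  have hSf := fam_finite hF
  have hsub : S ⊆ ⋃ r ∈ hfin.toFinset, {x ∈ S | cn r.1 r.2 N <:+ x.1} := by
    intro x hx
    have hs : ss x.1 ≤ R := (hF.pr x hx).2.2.1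
    obtain ⟨c, b, h1, h2, h3, h4⟩ := deep_ray (hF.hA x hx) hs hi (hl x hx)
    have hle : F (zh c b) ≤ Λ := by
      by_contra hcon
      have h5 : Λ < F (zh c b) := not_le.1 hcon
      have h6 : (N : ℝ) * F (zh c b) ≤ Λ * N := h4.trans hΛ
      nlinarith
    simp only [Set.mem_iUnion]
    exact ⟨(c, b), hfin.mem_toFinset.2 ⟨h1, h2, hle⟩, hx, h3⟩
  have heach : ∀ r ∈ hfin.toFinset, ({x ∈ S | cn r.1 r.2 N <:+ x.1}.ncard : ℝ) ≤ Q := by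
    rintro ⟨c, b⟩ hr
    obtain ⟨h1, h2, h3⟩ := hfin.mem_toFinset.1 hr
    dsimp only at h1 h2 h3 ⊢
    have hF' : Fam R (cn c b N) B {x ∈ S | cn c b N <:+ x.1} D D' M M' :=
      fam_sub hF (fun x hx => hx.1) (fun x hx => hx.2) (fun x hx => hF.hB x hx.1)
    have hzh : zh (cn c b N) b = zh c b := zh_cn c b N
    have hzw : zw (cn c b N) b 0 = zw c b N := by
      cases b
      · rfl
      · rfl
    have h4 : 3 * w ≤ F (zw (cn c b N) b 0) := by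
      rw [hzw]
      have h5 := zw_lin c b N
      have h6 := zh_ge c b
      have h7 := kap_suffix h1
      have h8 : (N : ℝ) * kap A ≤ N * F (zh c b) :=
        mul_le_mul_of_nonneg_left (h7.trans h6) (by linarith)
      linarith
    rw [hQ]
    exact lrc_all hF' hW1 (by rw [hzh]; exact h3.trans hΛH) hW h4 hm hc
  have h5 : S.ncard ≤ ∑ r ∈ hfin.toFinset, {x ∈ S | cn r.1 r.2 N <:+ x.1}.ncard := by
    refine (Set.ncard_le_ncard hsub ?_).trans (Finset.set_ncard_biUnion_le _ _)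
    refine hSf.subset ?_
    intro x hx
    simp only [Set.mem_iUnion] at hx
    obtain ⟨r, _, hxS, _⟩ := hx
    exact hxS
  have h6 : (S.ncard : ℝ) ≤ ∑ r ∈ hfin.toFinset, ({x ∈ S | cn r.1 r.2 N <:+ x.1}.ncard : ℝ) := by
    exact_mod_cast h5
  have h7 : ∑ r ∈ hfin.toFinset, ({x ∈ S | cn r.1 r.2 N <:+ x.1}.ncard : ℝ) ≤
      hfin.toFinset.card * Q := by
    refine (Finset.sum_le_sum heach).trans ?_
    rw [Finset.sum_const, nsmul_eq_mul]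
  have h8 : (hfin.toFinset.card : ℝ) = ((Rys A Λ).ncard : ℝ) := by
    rw [Set.ncard_eq_toFinset_card _ hfin]
  rw [← hQ]
  calc (S.ncard : ℝ) ≤ hfin.toFinset.card * Q := h6.trans h7
    _ = (Rys A Λ).ncard * Q := by rw [h8]
    _ ≤ _ := mul_le_mul_of_nonneg_right hcard hQ0

end Pool.Agent.Lib.MP_94ab62_ntZ
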