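import Pool.Agent.Lib.MP_94ab62_ntZ.TcG

/-!
# TcH: the choice of the parameters, thin case (pure real arithmetic)

As in TcG; `R = T^1000`, `l = log R`.  `N0 = ⌊T^830⌋₊`, `T^830/2 ≤ N0 ≤ T^830`.
* `num_thin`: `m = ⌈T^172⌉₊` (`T^172 ≤ m ≤ 2 T^172`), `W = T^380`, `H = 2 T^380`, `w = T^830/10`.
  - `10^4 l ≤ H`, `1 ≤ W`, `W + 1 ≤ H` ok.  `3 w ≤ 9/10 * N0 * (9/10)`: `3/10 T^830 ≤ 81/200 T^830` ok.  `3 R ≤ m w`: `T^172 T^830/10 = T^1002/10 ≥ 3 T^1000` ok.
  - (c) `20 (m (H+10) + m l + l) + W + 1 ≤ 20 (2 T^172 * 12 T^380 + ...) ≤ T^554 ≤ T^830/10`.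
  - (f) final bound, for `1 ≤ k ≤ 10^4 l + ..`: `N0 + 2 (R/T^16)(1 + l) + m ((2R/W+1)(m+3)) ≤ R/(T^15 * (10^4 l))`: the third term `≤ 2 T^172 * 3 T^620 * 3 T^172 = 18 T^964`; the first `≤ T^830`; the second
    `2 (1 + l) T^984`; the right side `T^985/(10^4 l)`; `2 * 10^4 (l+1)^2 ≤ T/10^5`.
* `harm_sum`: `∑ n ∈ range N0, 1/(n+1) ≤ 1 + log N0 ≤ 1 + l` (`harmonic_le_one_add_log` or `Finset` induction; `N0 ≤ R`).
-/

set_option autoImplicit false

namespace Pool.Agent.Lib.MP_94ab62_ntZ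

theorem num_thin {R : ℕ} {T : ℝ} {Dv : ℕ} (hp : Par R T Dv) :
    ∃ (N0 m : ℕ) (H w W : ℝ), (N0 : ℝ) ≤ T ^ 830 ∧ 1 ≤ N0 ∧ 10 ^ 4 * Real.log R ≤ H ∧ 1 ≤ W ∧ W + 1 ≤ H ∧
      3 * w ≤ 9 / 10 * N0 * (9 / 10) ∧ 3 * R ≤ m * w ∧
      20 * (m * (H + 10) + m * Real.log R + Real.log R) + (W + 1) ≤ w ∧
      N0 + 2 * (R / T ^ 16) * (1 + Real.log R) + m * ((2 * R / W + 1) * (m + 3)) ≤
        R / (T ^ 15 * (10 ^ 4 * Real.log R)) := by
  obtain ⟨hT10, hl4, hTl, hTl4⟩ := par_basic hp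
  have hRT : (R : ℝ) = T ^ 1000 := hp.hT.symm
  generalize hl : Real.log R = l at *
  have hT1 : (1 : ℝ) ≤ T := le_trans (by norm_num) hT10
  have hT0 : (0 : ℝ) < T := lt_of_lt_of_le one_pos hT1
  have hTb : (10 : ℝ) ^ 5 ≤ T := le_trans (by norm_num) hT10
  have hlT : 10 ^ 4 * l ≤ T := by nlinarith
  have hlT' : l ≤ T := by nlinarith
  have p1 : ∀ n : ℕ, (1 : ℝ) ≤ T ^ n := fun n => one_le_pow₀ hT1
  have p0 : ∀ n : ℕ, (0 : ℝ) < T ^ n := fun n => pow_pos hT0 n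
  have pm : ∀ {a b : ℕ}, a ≤ b → T ^ a ≤ T ^ b := fun h => pow_le_pow_right₀ hT1 h
  have pTn : ∀ n : ℕ, 1 ≤ n → T ≤ T ^ n := fun n hn => by
    calc T = T ^ 1 := (pow_one T).symm
      _ ≤ T ^ n := pm hn
  -- the integer parts
  have hN1 : ((⌊T ^ 830⌋₊ : ℕ) : ℝ) ≤ T ^ 830 := Nat.floor_le (p0 830).le
  have hN2 : T ^ 830 - 1 ≤ ((⌊T ^ 830⌋₊ : ℕ) : ℝ) := by
    have := Nat.lt_floor_add_one (T ^ 830)
    linarith
  have hN3 : 1 ≤ ⌊T ^ 830⌋₊ := Nat.le_floor (by simpa using p1 830)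
  have hm1 : T ^ 172 ≤ ((⌈T ^ 172⌉₊ : ℕ) : ℝ) := Nat.le_ceil _
  have hm2 : ((⌈T ^ 172⌉₊ : ℕ) : ℝ) ≤ 2 * T ^ 172 := by
    have := (Nat.ceil_lt_add_one (p0 172).le).le
    have := p1 172
    linarith
  generalize hN : ⌊T ^ 830⌋₊ = N0 at *
  generalize hm : ⌈T ^ 172⌉₊ = m at *
  have hm0 : (0 : ℝ) ≤ m := Nat.cast_nonneg m
  refine ⟨N0, m, 2 * T ^ 380, T ^ 830 / 10, T ^ 380, hN1, hN3, ?_, p1 380, ?_, ?_, ?_, ?_, ?_⟩
  · have := pTn 380 (by norm_num)
    linarith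
  · have := p1 380
    linarith
  · have h1 := pTn 830 (by norm_num)
    have h2 : (10 : ℝ) ^ 5 ≤ T ^ 830 := hTb.trans h1
    norm_num at h2
    linarith
  · rw [hRT]
    have h1 : T ^ 172 * (T ^ 830 / 10) ≤ m * (T ^ 830 / 10) :=
      mul_le_mul_of_nonneg_right hm1 (by have := p0 830; positivity)
    refine le_trans ?_ h1
    have h2 : T ^ 172 * (T ^ 830 / 10) = T ^ 1000 * (T * T / 10) := by
      rw [show (1000 : ℕ) = 170 + 830 from rfl, pow_add, show (172 : ℕ) = 170 + 2 from rfl, pow_add]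
      ring
    rw [h2, mul_comm (3 : ℝ)]
    refine mul_le_mul_of_nonneg_left ?_ (p0 1000).le
    norm_num at hTb
    nlinarith
  · have e1 : (m : ℝ) * (2 * T ^ 380 + 10) ≤ 6 * T ^ 552 := by
      have h10 : (10 : ℝ) ≤ T ^ 380 := by
        have := pTn 380 (by norm_num)
        norm_num at hTb
        linarith
      calc (m : ℝ) * (2 * T ^ 380 + 10) ≤ (2 * T ^ 172) * (3 * T ^ 380) :=
            mul_le_mul hm2 (by linarith) (by have := p0 380; positivity) (by have := p0 172; positivity)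
        _ = 6 * T ^ 552 := by
            rw [show (552 : ℕ) = 172 + 380 from rfl, pow_add]
            ring
    have e2 : (m : ℝ) * l ≤ 2 * T ^ 552 := by
      calc (m : ℝ) * l ≤ (2 * T ^ 172) * T := mul_le_mul hm2 hlT' (by linarith) (by have := p0 172; positivity)
        _ = 2 * T ^ 173 := by
            rw [show (173 : ℕ) = 172 + 1 from rfl, pow_succ]
            ring
        _ ≤ 2 * T ^ 552 := by
            have := @pm 173 552 (by norm_num)
            linarith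
    have e3 : l ≤ T ^ 552 := hlT'.trans (pTn 552 (by norm_num))
    have e4 : T ^ 380 ≤ T ^ 552 := pm (by norm_num)
    have e5 := p1 552
    have e6 : 1820 * T ^ 552 ≤ T ^ 830 := by
      calc 1820 * T ^ 552 ≤ T * T ^ 552 := by
            refine mul_le_mul_of_nonneg_right ?_ (p0 552).le
            norm_num at hTb
            linarith
        _ = T ^ 553 := by
            rw [show (553 : ℕ) = 552 + 1 from rfl, pow_succ]
            ring
        _ ≤ T ^ 830 := pm (by norm_num)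
    linarith
  · have hl0 : (0 : ℝ) < l := by linarith
    have hq1 : (R : ℝ) / T ^ 16 = T ^ 984 := by
      rw [hRT, div_eq_iff (p0 16).ne', ← pow_add]
    have hq2 : 2 * (R : ℝ) / T ^ 380 = 2 * T ^ 620 := by
      rw [hRT, div_eq_iff (p0 380).ne', mul_assoc, ← pow_add]
    have hq3 : (R : ℝ) = T ^ 985 * T ^ 15 := by
      rw [hRT, ← pow_add]
    rw [hq1, hq2, le_div_iff₀ (mul_pos (p0 15) (by linarith))]
    rw [hq3]
    have e1 : (m : ℝ) * ((2 * T ^ 620 + 1) * (m + 3)) ≤ 1 * T ^ 984 := by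
      have h1 : 2 * T ^ 620 + 1 ≤ 3 * T ^ 620 := by
        have := p1 620
        linarith
      have h2 : (m : ℝ) + 3 ≤ 3 * T ^ 172 := by
        have := pTn 172 (by norm_num)
        norm_num at hTb
        linarith
      have h3 : (2 * T ^ 620 + 1) * ((m : ℝ) + 3) ≤ (3 * T ^ 620) * (3 * T ^ 172) :=
        mul_le_mul h1 h2 (by positivity) (by have := p0 620; positivity)
      calc (m : ℝ) * ((2 * T ^ 620 + 1) * (m + 3)) ≤ (2 * T ^ 172) * ((3 * T ^ 620) * (3 * T ^ 172)) :=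
            mul_le_mul hm2 h3 (by have := p0 620; positivity) (by have := p0 172; positivity)
        _ = 18 * T ^ 964 := by
            rw [show (964 : ℕ) = 172 + 620 + 172 from rfl, pow_add, pow_add]
            ring
        _ ≤ T * T ^ 964 := by
            refine mul_le_mul_of_nonneg_right ?_ (p0 964).le
            norm_num at hTb
            linarith
        _ = T ^ 965 := by
            rw [show (965 : ℕ) = 964 + 1 from rfl, pow_succ]
            ring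
        _ ≤ 1 * T ^ 984 := by
            have := @pm 965 984 (by norm_num)
            linarith
    have e2 : (N0 : ℝ) ≤ T ^ 984 := hN1.trans (pm (by norm_num))
    have e3 : (N0 : ℝ) + 2 * T ^ 984 * (1 + l) + m * ((2 * T ^ 620 + 1) * (m + 3)) ≤ T ^ 984 * (4 * (l + 1)) := by
      have h5 : 0 ≤ T ^ 984 * l := mul_nonneg (p0 984).le hl0.le
      nlinarith [h5, e1, e2]
    have e4 : (4 * (l + 1)) * (10 ^ 4 * l) ≤ T := by
      have h6 : (l + 1) ^ 2 ≤ (l + 1) ^ 4 := pow_le_pow_right₀ (by linarith) (by norm_num)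
      have h7 : (4 * (l + 1)) * (10 ^ 4 * l) ≤ 4 * 10 ^ 4 * (l + 1) ^ 2 := by nlinarith
      have h8 : (0 : ℝ) ≤ (l + 1) ^ 4 := by positivity
      calc (4 * (l + 1)) * (10 ^ 4 * l) ≤ 4 * 10 ^ 4 * (l + 1) ^ 2 := h7
        _ ≤ 10 ^ 10 * (l + 1) ^ 4 := by nlinarith
        _ ≤ T := hTl4
    calc (N0 + 2 * T ^ 984 * (1 + l) + m * ((2 * T ^ 620 + 1) * (m + 3))) * (T ^ 15 * (10 ^ 4 * l))
        ≤ (T ^ 984 * (4 * (l + 1))) * (T ^ 15 * (10 ^ 4 * l)) :=
          mul_le_mul_of_nonneg_right e3 (mul_nonneg (p0 15).le (by linarith))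
      _ = (T ^ 984 * T ^ 15) * ((4 * (l + 1)) * (10 ^ 4 * l)) := by ring
      _ ≤ (T ^ 984 * T ^ 15) * T := mul_le_mul_of_nonneg_left e4 (mul_nonneg (p0 984).le (p0 15).le)
      _ = T ^ 985 * T ^ 15 := by
          rw [show (985 : ℕ) = 984 + 1 from rfl, pow_succ]
          ring

theorem tch_harm (n : ℕ) (hn : 1 ≤ n) : ∑ k ∈ Finset.range n, 1 / ((k : ℝ) + 1) ≤ 1 + Real.log n := by
  induction n, hn using Nat.le_induction with
  | base => simp
  | succ n hn ih =>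
      rw [Finset.sum_range_succ]
      have hn0 : (0 : ℝ) < n := by exact_mod_cast hn
      have h1 : 1 / ((n : ℝ) + 1) ≤ Real.log ((n + 1 : ℕ) : ℝ) - Real.log n := by
        have h2 := Real.add_one_le_exp (-(1 / ((n : ℝ) + 1)))
        have h3 : (n : ℝ) / (n + 1) ≤ Real.exp (-(1 / ((n : ℝ) + 1))) := by
          refine le_trans (le_of_eq ?_) h2
          field_simp
          ring
        have h4 : Real.log ((n : ℝ) / (n + 1)) ≤ -(1 / ((n : ℝ) + 1)) := by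
          rw [← Real.log_exp (-(1 / ((n : ℝ) + 1)))]
          exact Real.log_le_log (by positivity) h3
        rw [Real.log_div hn0.ne' (by positivity)] at h4
        push_cast
        linarith
      linarith

theorem harm_sum {R : ℕ} {T : ℝ} {Dv : ℕ} (hp : Par R T Dv) {N0 : ℕ} (h : (N0 : ℝ) ≤ T ^ 830) :
    ∑ n ∈ Finset.range N0, 1 / ((n : ℝ) + 1) ≤ 1 + Real.log R := by
  obtain ⟨hT10, hl4, hTl, hTl4⟩ := par_basic hp
  have hT1 : (1 : ℝ) ≤ T := le_trans (by norm_num) hT10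
  rcases Nat.eq_zero_or_pos N0 with h0 | h0
  · subst h0
    simp only [Finset.range_zero, Finset.sum_empty]
    linarith
  · have h1 := tch_harm N0 h0
    have h2 : Real.log N0 ≤ Real.log R := by
      refine Real.log_le_log (by exact_mod_cast h0) ?_
      rw [← hp.hT]
      exact h.trans (pow_le_pow_right₀ hT1 (by norm_num))
    linarith

end Pool.Agent.Lib.MP_94ab62_ntZ
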