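import Pool.Agent.Lib.MP_94ab62_ntZ.TbD
import Pool.Agent.Lib.MP_94ab62_ntZ.TbE
import Pool.Agent.Lib.MP_94ab62_ntZ.TcF
import Pool.Agent.Lib.MP_94ab62_ntZ.TcG

/-!
# TcI: thick cones

`nondeep`: family with first entries of depth at most `dep` below `A`.  `q = 100 log R`, `Real.exp q = R^100` (`Real.exp_log`, `Real.exp_nat_mul`..).
  * `Gd R Q` (`kap_gd`: `20 log R ≤ kap Q`): `T1 hF gA gQ (cb3 ..) hDv hd` with `μ = 3`; `S.ncard = (Prod.fst '' S).ncard` (`fam_inj1`, `Set.ncard_image_of_injOn`); the bound `3 (Dv * 3 + 2)(dep + 1)` is at most the claimed one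
    (`2 q + 2 ≥ 1`).
  * otherwise `kap Q < 20 log R ≤ q`: `T3` with `b = ssd Q`: `F (zh Q (ssd Q)) = kap Q ≤ q` (`sd_h`), `10 q = 1000 log R ≤ kap A`, `10 q ≤ κ ≤ mx Q = F (zw Q (ssd Q) 0)` (`sd_w`), `hCB j`: `cb3` with `B = en Q (ssd Q) j`
    (`Q <:+ en ..`: `cn_en_suffix`; `Gd R (en ..)`: `ray_kap`), `hM := fam_M0 hF`.
`tf_thick`: `a = kap A`, `a ≥ 1` (`4 ≤ log R`).  `num_thick` gives the parameters.
  * If `S` has at most one element: `S.ncard ≤ 1 ≤ R/(T^16 a)`.  Otherwise there are `x ≠ y` in `S`; `rank_rel` (with `P <:+ A <:+ x.1`, `Q <:+ x.2`) gives `R2' S`, `fam_exists` (with `A`, `Q`) gives a family; `S` finite.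
  * `dep = 2 i N`.  `S1 = {x ∈ S | x.1.length ≤ A.length + dep}`, `S2 = {x ∈ S | A.length + dep < x.1.length}`; `S.ncard ≤ S1.ncard + S2.ncard`; `fam_sub`.  `nondeep` for `S1`, `LR1` for `S2`; both are `≤ R/(2 T^16 a)`.
-/

set_option autoImplicit false

namespace Pool.Agent.Lib.MP_94ab62_ntZ

open Pool.Agent.Lib.MP_94ab62_nt Pool.Agent.Lib.MP_94ab62_ntU

theorem nondeep {R : ℕ} {A P Q : List Bool} {S : Set PP} {D D' : ℤ} {M M' : Mt} (hF : Fam R A Q S D D' M M')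
    {κ : ℝ} (hκ : 1000 * Real.log R ≤ κ) (hP : κ ≤ mx P) (hQ : κ ≤ mx Q) (hnd : ¬ Dg R κ P) (hPA : P <:+ A)
    (hA : 1000 * Real.log R ≤ kap A) {Dv dep : ℕ} (hDv : DvB R Dv)
    (hd : ∀ x ∈ S, x.1.length ≤ A.length + dep) :
    (S.ncard : ℝ) ≤ 3 * (2 * (dep : ℝ) + 6) + (2 * (100 * Real.log R) + 2) * (3 * (Dv * 3 + 2) * ((dep : ℝ) + 1)) := by
  have hR := hF.hR
  have hR0 : (100 : ℝ) ≤ R := by exact_mod_cast hR
  have hRp : (0 : ℝ) < R := by linarith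
  have hl : 0 ≤ Real.log R := Real.log_nonneg (by linarith)
  have gA : Gd R A := kap_gd.2 (by linarith)
  by_cases gQ : Gd R Q
  · have h1 := T1 hF gA gQ (cb3 hR hPA (List.suffix_refl Q) gA gQ hP hQ hnd (fun v h => fam_M0 hF h)) hDv hd
    have h2 : (Prod.fst '' S).ncard = S.ncard :=
      Set.ncard_image_of_injOn (fun x hx y hy h => fam_inj1 hF hx hy h)
    rw [h2] at h1
    have h3 : (S.ncard : ℝ) ≤ 3 * (Dv * 3 + 2) * ((dep : ℝ) + 1) := by exact_mod_cast h1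
    have h4 : (0 : ℝ) ≤ 3 * (Dv * 3 + 2) * ((dep : ℝ) + 1) := by positivity
    have h5 : 0 ≤ 3 * (2 * (dep : ℝ) + 6) := by positivity
    have h6 : 0 ≤ (2 * (100 * Real.log R) + 1) * (3 * (Dv * 3 + 2) * ((dep : ℝ) + 1)) :=
      mul_nonneg (by linarith) h4
    linarith
  · have hk : kap Q < 20 * Real.log R := not_le.1 fun h => gQ (kap_gd.2 h)
    have hq : (R : ℝ) ^ 100 ≤ Real.exp (100 * Real.log R) := by
      have e1 : (100 : ℝ) * Real.log R = ((100 : ℕ) : ℝ) * Real.log R := by norm_num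
      rw [e1, Real.exp_nat_mul, Real.exp_log hRp]
    have hw : 10 * (100 * Real.log R) ≤ F (zw Q (ssd Q) 0) := by
      rw [sd_w]
      linarith
    have h1 := T3 hF (b := ssd Q) (q := 100 * Real.log R) hq (by rw [sd_h]; linarith) (by linarith) hw
      (μ := 3) (fun j => cb3 hR hPA (cn_en_suffix Q (ssd Q) (Nat.zero_le j)) gA (ray_kap hR hq hw j).1 hP hQ hnd
        (fun v h => fam_M0 hF h)) hDv hd
    have e3 : ((3 : ℕ) : ℝ) = 3 := by norm_num
    rw [e3] at h1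
    exact h1

theorem tf_thick {R : ℕ} {T : ℝ} {Dv : ℕ} (hp : Par R T Dv) {κ : ℝ} (hκ : 1000 * Real.log R ≤ κ)
    {A P Q : List Bool} (hP : κ ≤ mx P) (hQ : κ ≤ mx Q) (hnd : ¬ Dg R κ P) (hPA : P <:+ A)
    (hA : 1000 * Real.log R ≤ kap A) (hA2 : kap A ≤ R / T ^ 160) {S : Set PP} (hM : Mtc R S)
    (h1 : ∀ x ∈ S, A <:+ x.1) (h2 : ∀ x ∈ S, Q <:+ x.2) : (S.ncard : ℝ) ≤ R / (T ^ 16 * kap A) := by
  obtain ⟨hT, hl4, -, -⟩ := par_basic hp
  have ha1 : 1 ≤ kap A := by linarith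
  obtain ⟨i, N, m, H, w, W, Λ, hi, hN, hΛ, hΛH, hW, hW1, hw, hm, hc, hn, hdp, hone⟩ := num_thick hp ha1 hA2
  by_cases hS : S.Subsingleton
  · have h3 : (S.ncard : ℝ) ≤ 1 := by
      rcases hS.eq_empty_or_singleton with h | ⟨x, h⟩
      · rw [h, Set.ncard_empty]
        norm_num
      · rw [h, Set.ncard_singleton]
        norm_num
    linarith
  · have hne : ∃ x ∈ S, ∃ y ∈ S, x ≠ y := by
      obtain ⟨x, hx, y, hy, h⟩ := Set.not_subsingleton_iff.1 hS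
      exact ⟨x, hx, y, hy, h⟩
    have hr := rank_rel hp.hR hM hP hQ hnd (fun x hx => hPA.trans (h1 x hx)) h2
    obtain ⟨D, D', M, M', hF⟩ := fam_exists hp.hR hM h1 h2 hr hne
    have s1 : {x | x ∈ S ∧ x.1.length ≤ A.length + 2 * i * N} ⊆ S := fun x hx => hx.1
    have s2 : {x | x ∈ S ∧ A.length + 2 * i * N < x.1.length} ⊆ S := fun x hx => hx.1
    have f1 := fam_sub hF s1 (fun x hx => h1 x hx.1) (fun x hx => h2 x hx.1)
    have f2 := fam_sub hF s2 (fun x hx => h1 x hx.1) (fun x hx => h2 x hx.1)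
    have n1 := nondeep f1 hκ hP hQ hnd hPA hA hp.hDv (dep := 2 * i * N) (fun x hx => hx.2)
    have n2 := LR1 f2 hi hN (fun x hx => hx.2) hΛ hΛH hW1 hW hw hm hc
    have e1 : S = {x | x ∈ S ∧ x.1.length ≤ A.length + 2 * i * N} ∪
        {x | x ∈ S ∧ A.length + 2 * i * N < x.1.length} := by
      ext x
      constructor
      · intro hx
        rcases le_or_gt x.1.length (A.length + 2 * i * N) with h | h
        · exact Or.inl ⟨hx, h⟩
        · exact Or.inr ⟨hx, h⟩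
      · rintro (h | h)
        · exact h.1
        · exact h.1
    have e2 := Set.ncard_union_le {x | x ∈ S ∧ x.1.length ≤ A.length + 2 * i * N}
      {x | x ∈ S ∧ A.length + 2 * i * N < x.1.length}
    rw [← e1] at e2
    have e3 : (S.ncard : ℝ) ≤ ({x | x ∈ S ∧ x.1.length ≤ A.length + 2 * i * N}.ncard : ℝ) +
        ({x | x ∈ S ∧ A.length + 2 * i * N < x.1.length}.ncard : ℝ) := by exact_mod_cast e2
    have hTp : (0 : ℝ) < T := by linarith
    have hap : (0 : ℝ) < kap A := by linarith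
    have e4 : (R : ℝ) / (T ^ 16 * kap A) = R / (2 * T ^ 16 * kap A) + R / (2 * T ^ 16 * kap A) := by
      field_simp
      ring
    rw [e4]
    linarith

end Pool.Agent.Lib.MP_94ab62_ntZ
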