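import Pool.Agent.Lib.MP_94ab62_ntZ.TcI
import Pool.Agent.Lib.MP_94ab62_ntZ.TcH

/-!
# TcJ: the theorem TF (pairs of leaves, the first one nondegenerate)

`l = log R ≥ 4` (`par_basic`).  `P = b0 :: p`, `mx p < κ ≤ mx P`.
* `leaf_len`: `kap P ≤ κ` and `mx P ≤ 2 κ`: `mx (b0 :: p) = ll p ≤ mx p + kap p ≤ 2 mx p` (`mx_cons`, `ll_mx_kap`, `kap_le_mx`); `kap (b0 :: p)` is at most the kept edge of `p`, `≤ mx p` (cases on `b0`; `min_le_left`, `le_max_left`).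
* `mtcsub`: `Mtc` of a subset.
* `S` finite: the first entries satisfy `ss ≤ R` (`fin_ss` in CutU) and `Prod.fst` is injective on `S` (`Mtc.i1`): `Set.Finite.of_injOn` or `Set.Finite.of_finite_image`.
* THICK `10^4 l ≤ kap P`: `tf_thick` with `A = P`: `kap P ≤ κ ≤ T^830 + 1 ≤ T^840 = R/T^160` (`hT : T^1000 = R`), and `R/(T^16 kap P) ≤ R/(T^15 kap P)`.
* THIN `kap P < 10^4 l`: `b = ssd P`, `F (zh P b) = kap P`, `F (zw P b 0) = mx P` (`sd_h`, `sd_w`), `num_thin` gives `N0, m, H, w, W`.  By `ray_cases b` each `x ∈ S` satisfies one of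
  (a) `x.1 = cn P b n` with `n < N0`: at most `N0` members (`Mtc.i1`; image in the set `{cn P b n | n < N0}`).
  (b) `en P b n <:+ x.1` with `n < N0`: `S_n`; `tf_thick` with `A = en P b n`: `P <:+ A` (`cn_en_suffix` with `m = 0`, `cn_zero`), `kap A = F (zw P b n)` (`kap_en`) `≥ F (zw P b 0) = mx P ≥ κ ≥ 10^5 l` (`zw_mono`),
      `F (zw P b n) ≤ F (zw P b 0) + n F (zh P b) ≤ 2 (T^830 + 1) + T^830 * 10^4 l ≤ T^832 ≤ R/T^160` (`zw_up`: `F (zw (n+1)) ≤ F (zw n) + F (zh)` because `ee (cn ..) > 0`, `ee_cn`, `er`).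
      `S_n.ncard ≤ R/(T^16 F (zw P b n))`, and `F (zw P b n) ≥ (n + 1)/2`-type bound: `F (zw P b n) ≥ F (zw P b 0)/2 + 9/20 n F (zh) ..`; simplest: `F (zw P b n) ≥ 9/10 n F (zh P b) ≥ 81/100 n` (`zw_lin`, `zh_ge`, `kap_ge`)
      and `F (zw P b n) ≥ κ ≥ 10^5`, so `2 F (zw P b n) ≥ 81/100 n + 10^5 ≥ (n+1)`.. : `F (zw P b n) ≥ (n+1)/2 * ...`.  We need `1/F (zw P b n) ≤ 2/(n+1)`: `F ≥ max (81/100 n, 10^5) ≥ (n+1)/2` ok.
      `∑_{n < N0} ≤ 2 (R/T^16) ∑ 1/(n+1) ≤ 2 (R/T^16)(1 + l)` (`harm_sum`).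
  (c) `cn P b N0 <:+ x.1` (all remaining cases: `x.1 = cn P b n` or `en P b n <:+ x.1` with `n ≥ N0`; `cn_suffix`, `cn_en_suffix`): `c1 = cn P b N0`.  At most one member, or a family `Fam R c1 Q S' ..` (`rank_rel`, `fam_exists`),
      `lrc_all` with `c = c1`: `F (zh c1 b) = F (zh P b) = kap P ≤ 10^4 l ≤ H`; `F (zw c1 b 0) = F (zw P b N0) ≥ 9/10 N0 F (zh P b) ≥ 9/10 N0 9/10 ≥ 3 w`.  `S'.ncard ≤ m ((2R/W+1)(m+3))` (this is also `≥ 1`).
  Sum: `num_thin`: `≤ R/(T^15 (10^4 l)) ≤ R/(T^15 kap P)`.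
-/

set_option autoImplicit false

namespace Pool.Agent.Lib.MP_94ab62_ntZ

open Pool.Agent.Lib.MP_94ab62_nt Pool.Agent.Lib.MP_94ab62_ntU

theorem leaf_len {κ : ℝ} {P : List Bool} (h : Lf κ P) : kap P ≤ κ ∧ mx P ≤ 2 * κ := by
  obtain ⟨b, p, rfl, h1, -⟩ := h
  have h2 := mx_cons b p
  have h3 := ll_mx_kap p
  have h4 := kap_le_mx p
  refine ⟨?_, by rw [h2]; linarith [h3.2]⟩
  have h5 : kap (b :: p) ≤ mx p := by
    cases b
    · exact (min_le_right (fa (tn (false :: p))) (fb (tn (false :: p)))).trans (le_max_right (fa (tn p)) (fb (tn p)))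
    · exact (min_le_left (fa (tn (true :: p))) (fb (tn (true :: p)))).trans (le_max_left (fa (tn p)) (fb (tn p)))
  linarith

theorem mtcsub {R : ℕ} {S S' : Set PP} (h : Mtc R S) (hs : S' ⊆ S) : Mtc R S' := by
  exact ⟨fun x hx => h.pr x (hs hx), fun x hx y hy => h.i1 x (hs hx) y (hs hy),
    fun x hx y hy => h.i2 x (hs hx) y (hs hy)⟩

theorem mtc_finite {R : ℕ} {S : Set PP} (h : Mtc R S) : S.Finite := by
  refine Set.Finite.of_finite_image (f := Prod.fst) ((fin_ss R).subset ?_) ?_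
  · rintro _ ⟨x, hx, rfl⟩
    exact (h.pr x hx).2.2.1
  · intro x hx y hy hxy
    exact h.i1 x hx y hy hxy

theorem zw_up (P : List Bool) (b : Bool) (n : ℕ) : F (zw P b n) ≤ F (zw P b 0) + n * F (zh P b) := by
  induction n with
  | zero => simp
  | succ n ih =>
    have h1 := ee_cn P b n
    have h2 := ee_pos (cn P b n)
    rw [h1, er] at h2
    push_cast
    linarith

theorem tf_tail {R : ℕ} {T : ℝ} {Dv : ℕ} (hp : Par R T Dv) {κ : ℝ} {c1 P Q : List Bool} {b : Bool}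
    (hP : κ ≤ mx P) (hQ : κ ≤ mx Q) (hnd : ¬ Dg R κ P) (hPc : P <:+ c1) {S : Set PP} (hM : Mtc R S)
    (h1 : ∀ x ∈ S, c1 <:+ x.1) (h2 : ∀ x ∈ S, Q <:+ x.2) {m : ℕ} {H w W : ℝ} (hW1 : 1 ≤ W)
    (hH : F (zh c1 b) ≤ H) (hW : W + 1 ≤ H) (hw : 3 * w ≤ F (zw c1 b 0)) (hm : 3 * R ≤ m * w)
    (hc : 20 * (m * (H + 10) + m * Real.log R + Real.log R) + (W + 1) ≤ w) :
    (S.ncard : ℝ) ≤ m * ((2 * R / W + 1) * (m + 3)) := by
  have hfin : S.Finite := mtc_finite hM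
  have hR : 100 ≤ R := hp.hR
  have hRr : (100 : ℝ) ≤ R := by exact_mod_cast hR
  by_cases h3 : ∃ x ∈ S, ∃ y ∈ S, x ≠ y
  · have h4 : R2' S := rank_rel hR hM hP hQ hnd (fun x hx => hPc.trans (h1 x hx)) h2
    obtain ⟨D, D', M, M', hF⟩ := fam_exists hR hM h1 h2 h4 h3
    exact lrc_all hF hW1 hH hW hw hm hc
  · have h4 : S.ncard ≤ 1 := by
      rw [Set.ncard_le_one hfin]
      intro a ha c hc'
      by_contra h5
      exact h3 ⟨a, ha, c, hc', h5⟩
    have h5 : (S.ncard : ℝ) ≤ 1 := by exact_mod_cast h4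
    have hm1 : (1 : ℝ) ≤ m := by
      rcases Nat.eq_zero_or_pos m with h6 | h6
      · exfalso
        subst h6
        push_cast at hm
        linarith
      · exact_mod_cast h6
    have h7 : 0 ≤ 2 * (R : ℝ) / W := by positivity
    have h8 : (1 : ℝ) ≤ (2 * R / W + 1) * (m + 3) := by nlinarith
    nlinarith

theorem tcj_sum {S : Set PP} (E : ℕ → PP → Prop) (N : ℕ) :
    {x : PP | x ∈ S ∧ ∃ n < N, E n x}.ncard ≤ ∑ n ∈ Finset.range N, {x : PP | x ∈ S ∧ E n x}.ncard := by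
  induction N with
  | zero =>
    have h : {x : PP | x ∈ S ∧ ∃ n < 0, E n x} = ∅ := by
      ext x
      simp
    rw [h]
    simp
  | succ N ih =>
    have h : {x : PP | x ∈ S ∧ ∃ n < N + 1, E n x} = {x : PP | x ∈ S ∧ ∃ n < N, E n x} ∪ {x : PP | x ∈ S ∧ E N x} := by
      ext x
      constructor
      · rintro ⟨h1, n, h2, h3⟩
        rcases Nat.lt_succ_iff_lt_or_eq.1 h2 with h4 | h4
        · exact Or.inl ⟨h1, n, h4, h3⟩
        · subst h4
          exact Or.inr ⟨h1, h3⟩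
      · rintro (⟨h1, n, h2, h3⟩ | ⟨h1, h2⟩)
        · exact ⟨h1, n, Nat.lt_succ_of_lt h2, h3⟩
        · exact ⟨h1, N, Nat.lt_succ_self N, h2⟩
    rw [h, Finset.sum_range_succ]
    exact (Set.ncard_union_le _ _).trans (Nat.add_le_add_right ih _)

theorem TF {R : ℕ} {T : ℝ} {Dv : ℕ} (hp : Par R T Dv) {κ : ℝ} (hκ : 10 ^ 5 * Real.log R ≤ κ)
    (hκ2 : κ ≤ T ^ 830 + 1) {P Q : List Bool} (hP : Lf κ P) (hQ : Lf κ Q) (hnd : ¬ Dg R κ P) {S : Set PP}
    (hM : Mtc R S) (h1 : ∀ x ∈ S, P <:+ x.1) (h2 : ∀ x ∈ S, Q <:+ x.2) :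
    (S.ncard : ℝ) ≤ R / (T ^ 15 * kap P) := by
  obtain ⟨hT1, hl4, hTl, -⟩ := par_basic hp
  have hT0 : (0 : ℝ) < T := by linarith
  have hT1' : (1 : ℝ) ≤ T := by linarith
  have hfin : S.Finite := mtc_finite hM
  obtain ⟨hk1, hk2⟩ := leaf_len hP
  have hmP : κ ≤ mx P := Lf_mx hP
  have hmQ : κ ≤ mx Q := Lf_mx hQ
  have hkap : 9 / 10 ≤ kap P := kap_ge P
  have hR0 : (0 : ℝ) ≤ R := Nat.cast_nonneg R
  have hRT : (R : ℝ) / T ^ 160 = T ^ 840 := by
    rw [← hp.hT]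
    field_simp
  have p1 : T ^ 831 = T ^ 830 * T := pow_succ T 830
  have p2 : T ^ 832 = T ^ 831 * T := pow_succ T 831
  have p3 : (1 : ℝ) ≤ T ^ 830 := one_le_pow₀ hT1'
  have p4 : T ^ 832 ≤ T ^ 840 := pow_le_pow_right₀ hT1' (by norm_num)
  have p5 : 2 * (T ^ 830 + 1) + T ^ 830 * (10 ^ 4 * Real.log R) ≤ T ^ 832 := by
    have q1 : 10 ^ 4 * Real.log R + 4 ≤ T := by linarith
    have q2 : T ^ 830 * (10 ^ 4 * Real.log R + 4) ≤ T ^ 830 * T := mul_le_mul_of_nonneg_left q1 (by positivity)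
    have q3 : T ^ 831 * 1 ≤ T ^ 831 * T := mul_le_mul_of_nonneg_left hT1' (by positivity)
    linarith
  have hpow : T ^ 16 = T ^ 15 * T := pow_succ T 15
  have hT15 : (0 : ℝ) < T ^ 15 := by positivity
  have hkap0 : 0 < kap P := by linarith
  by_cases hc : 10 ^ 4 * Real.log R ≤ kap P
  · have h3 := tf_thick hp (κ := κ) (by linarith) hmP hmQ hnd (List.suffix_refl P) (by linarith)
      (by rw [hRT]; nlinarith) hM h1 h2
    refine h3.trans (div_le_div_of_nonneg_left hR0 (by positivity) ?_)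
    rw [hpow]
    nlinarith [mul_pos hT15 hkap0]
  · have hc' : kap P < 10 ^ 4 * Real.log R := not_le.1 hc
    have hb1 := sd_h P
    have hb2 := sd_w P
    generalize ssd P = b at hb1 hb2
    obtain ⟨N0, m, H, w, W, n1, n2, n3, n4, n5, n6, n7, n8, n9⟩ := num_thin hp
    have hN0 : (1 : ℝ) ≤ N0 := by exact_mod_cast n2
    have hcov : S ⊆ {x : PP | x ∈ S ∧ ∃ n < N0, x.1 = cn P b n} ∪
        ({x : PP | x ∈ S ∧ ∃ n < N0, en P b n <:+ x.1} ∪ {x : PP | x ∈ S ∧ cn P b N0 <:+ x.1}) := by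
      intro x hx
      rcases ray_cases b (h1 x hx) with ⟨n, hn⟩ | ⟨n, hn⟩
      · by_cases h3 : n < N0
        · exact Or.inl ⟨hx, n, h3, hn⟩
        · refine Or.inr (Or.inr ⟨hx, ?_⟩)
          rw [hn]
          exact cn_suffix P b (not_lt.1 h3)
      · by_cases h3 : n < N0
        · exact Or.inr (Or.inl ⟨hx, n, h3, hn⟩)
        · exact Or.inr (Or.inr ⟨hx, (cn_en_suffix P b (not_lt.1 h3)).trans hn⟩)
    have hca : {x : PP | x ∈ S ∧ ∃ n < N0, x.1 = cn P b n}.ncard ≤ N0 := by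
      refine (tcj_sum (fun n x => x.1 = cn P b n) N0).trans ?_
      refine (Finset.sum_le_card_nsmul _ _ 1 fun n _ => ?_).trans (by simp)
      rw [Set.ncard_le_one (hfin.subset fun x hx => hx.1)]
      rintro x ⟨hx, hx'⟩ y ⟨hy, hy'⟩
      exact hM.i1 x hx y hy (hx'.trans hy'.symm)
    have hcb : ∀ n ∈ Finset.range N0, (({x : PP | x ∈ S ∧ en P b n <:+ x.1}.ncard : ℕ) : ℝ) ≤
        2 * (R / T ^ 16) * (1 / ((n : ℝ) + 1)) := by
      intro n hn
      have hn' : (n : ℝ) ≤ T ^ 830 := by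
        have : (n : ℝ) ≤ N0 := by exact_mod_cast (Finset.mem_range.1 hn).le
        linarith
      have hke := kap_en P b n
      have hz1 := zw_mono P b (Nat.zero_le n)
      have hz2 := zw_lin P b n
      have hz3 := zw_up P b n
      rw [hb1] at hz2 hz3
      rw [hb2] at hz1 hz3
      have hn0 : (0 : ℝ) ≤ n := Nat.cast_nonneg n
      have hA2 : kap (en P b n) ≤ R / T ^ 160 := by
        rw [hRT, hke]
        have q1 : n * kap P ≤ T ^ 830 * (10 ^ 4 * Real.log R) :=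
          mul_le_mul hn' hc'.le hkap0.le (by positivity)
        linarith
      have h3 := tf_thick hp (κ := κ) (A := en P b n) (by linarith) hmP hmQ hnd
        (cn_en_suffix P b (Nat.zero_le n)) (by rw [hke]; linarith) hA2
        (mtcsub hM (S' := {x : PP | x ∈ S ∧ en P b n <:+ x.1}) fun x hx => hx.1)
        (fun x hx => hx.2) (fun x hx => h2 x hx.1)
      refine h3.trans ?_
      rw [hke]
      have hF2 : 81 / 100 * (n : ℝ) ≤ F (zw P b n) := by nlinarith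
      have hF : ((n : ℝ) + 1) / 2 ≤ F (zw P b n) := by linarith
      calc (R : ℝ) / (T ^ 16 * F (zw P b n)) ≤ R / (T ^ 16 * (((n : ℝ) + 1) / 2)) :=
            div_le_div_of_nonneg_left hR0 (by positivity) (mul_le_mul_of_nonneg_left hF (by positivity))
        _ = 2 * (R / T ^ 16) * (1 / ((n : ℝ) + 1)) := by
            field_simp
    have hcb' : (({x : PP | x ∈ S ∧ ∃ n < N0, en P b n <:+ x.1}.ncard : ℕ) : ℝ) ≤
        2 * (R / T ^ 16) * (1 + Real.log R) := by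
      have h3 : (({x : PP | x ∈ S ∧ ∃ n < N0, en P b n <:+ x.1}.ncard : ℕ) : ℝ) ≤
          ∑ n ∈ Finset.range N0, (({x : PP | x ∈ S ∧ en P b n <:+ x.1}.ncard : ℕ) : ℝ) := by
        have := tcj_sum (S := S) (fun n x => en P b n <:+ x.1) N0
        exact_mod_cast this
      refine h3.trans ((Finset.sum_le_sum hcb).trans ?_)
      rw [← Finset.mul_sum]
      exact mul_le_mul_of_nonneg_left (harm_sum hp n1) (by positivity)
    have hcc : (({x : PP | x ∈ S ∧ cn P b N0 <:+ x.1}.ncard : ℕ) : ℝ) ≤ m * ((2 * R / W + 1) * (m + 3)) := by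
      refine tf_tail hp (c1 := cn P b N0) (b := b) (H := H) (w := w) hmP hmQ hnd
        (cn_suffix P b (Nat.zero_le N0)) (mtcsub hM fun x hx => hx.1) (fun x hx => hx.2)
        (fun x hx => h2 x hx.1) n4 ?_ n5 ?_ n7 n8
      · have h3 : zh (cn P b N0) b = zh P b := zh_cn P b N0
        rw [h3, hb1]
        linarith
      · have h3 : zw (cn P b N0) b 0 = zw P b N0 := rfl
        rw [h3]
        have hz2 := zw_lin P b N0
        rw [hb1] at hz2
        refine n6.trans (le_trans ?_ hz2)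
        exact mul_le_mul_of_nonneg_left hkap (by positivity)
    have hfu : ({x : PP | x ∈ S ∧ ∃ n < N0, x.1 = cn P b n} ∪
        ({x : PP | x ∈ S ∧ ∃ n < N0, en P b n <:+ x.1} ∪ {x : PP | x ∈ S ∧ cn P b N0 <:+ x.1})).Finite := by
      refine hfin.subset ?_
      rintro x (hx | hx | hx)
      · exact hx.1
      · exact hx.1
      · exact hx.1
    have h4 : S.ncard ≤ {x : PP | x ∈ S ∧ ∃ n < N0, x.1 = cn P b n}.ncard +
        ({x : PP | x ∈ S ∧ ∃ n < N0, en P b n <:+ x.1}.ncard + {x : PP | x ∈ S ∧ cn P b N0 <:+ x.1}.ncard) :=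
      (Set.ncard_le_ncard hcov hfu).trans ((Set.ncard_union_le _ _).trans
        (Nat.add_le_add_left (Set.ncard_union_le _ _) _))
    have h5 : (S.ncard : ℝ) ≤ (({x : PP | x ∈ S ∧ ∃ n < N0, x.1 = cn P b n}.ncard : ℕ) : ℝ) +
        ((({x : PP | x ∈ S ∧ ∃ n < N0, en P b n <:+ x.1}.ncard : ℕ) : ℝ) +
        (({x : PP | x ∈ S ∧ cn P b N0 <:+ x.1}.ncard : ℕ) : ℝ)) := by exact_mod_cast h4
    have h6 : (({x : PP | x ∈ S ∧ ∃ n < N0, x.1 = cn P b n}.ncard : ℕ) : ℝ) ≤ N0 := by exact_mod_cast hca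
    have h7 : (S.ncard : ℝ) ≤ R / (T ^ 15 * (10 ^ 4 * Real.log R)) := by linarith
    refine h7.trans (div_le_div_of_nonneg_left hR0 (by positivity) ?_)
    exact mul_le_mul_of_nonneg_left hc'.le hT15.le

end Pool.Agent.Lib.MP_94ab62_ntZ
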