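import Pool.Agent.Lib.MP_94ab62_ntZ.TcJ
import Pool.Agent.Lib.MP_94ab62_ntZ.LvJ

/-!
# TcK: the interface `TFst`
-/

set_option autoImplicit false

namespace Pool.Agent.Lib.MP_94ab62_ntZ

open Pool.Agent.Lib.MP_94ab62_nt Pool.Agent.Lib.MP_94ab62_ntU

theorem TF_main : TFst := fun _ _ _ hp _ hM _ h1 h2 _ _ hP hQ hnd hA hB =>
  TF hp h1 h2 hP hQ hnd hM hA hB

theorem Z_main : ∃ R0 : ℕ, ZZ (1 / 1000) R0 := thmZ TF_main

end Pool.Agent.Lib.MP_94ab62_ntZ
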