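import Pool.Agent.Lib.MP_94ab62_ntZ.LrB
import Pool.Agent.Lib.MP_94ab62_ntZ.NtA

/-!
# ThA: estimates along a ray with a short pivot
-/

set_option autoImplicit false

namespace Pool.Agent.Lib.MP_94ab62_ntZ

open Pool.Agent.Lib.MP_94ab62_nt Pool.Agent.Lib.MP_94ab62_ntU

theorem th_exp {R : ℕ} (hR : 100 ≤ R) {q : ℝ} (hq : (R : ℝ) ^ 100 ≤ Real.exp q) :
    1 ≤ q ∧ Real.exp (-q) ≤ 1 / (R : ℝ) ^ 100 := by
  have hR1 : (100 : ℝ) ≤ R := by exact_mod_cast hR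
  have hpos : (0 : ℝ) < (R : ℝ) ^ 100 := by positivity
  constructor
  · by_contra h
    push Not at h
    have h1 : Real.exp q < Real.exp 1 := Real.exp_lt_exp.2 h
    have h2 := Real.exp_one_lt_d9
    have h3 : (R : ℝ) ^ 1 ≤ (R : ℝ) ^ 100 := pow_le_pow_right₀ (by linarith) (by norm_num)
    rw [pow_one] at h3
    linarith
  · rw [Real.exp_neg, one_div]
    exact inv_anti₀ hpos hq

theorem th_T {z : ℕ} {y : ℕ → ℕ} (h : RS z y) {q : ℝ} (hq : 1 ≤ q) (hw : 10 * q ≤ F (y 0)) (n : ℕ) :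
    29 / 10 ≤ TT z y n ∧ 1 / TT z y n ^ 2 ≤ 9 * Real.exp (-(20 * q)) := by
  have h1 := TT_low0 h hw n
  have h2 : (10 : ℝ) + 1 ≤ Real.exp 10 := Real.add_one_le_exp 10
  have h3 : Real.exp 10 ≤ Real.exp (10 * q) := Real.exp_le_exp.2 (by linarith)
  constructor
  · linarith
  · have h4 : 0 < Real.exp (10 * q) / 3 := by positivity
    have h5 : 1 / TT z y n ^ 2 ≤ 1 / (Real.exp (10 * q) / 3) ^ 2 :=
      one_div_le_one_div_of_le (by positivity) (pow_le_pow_left₀ h4.le h1 2)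
    refine h5.trans (le_of_eq ?_)
    have h6 : Real.exp (-(20 * q)) * Real.exp (10 * q) ^ 2 = 1 := by
      rw [← Real.exp_nat_mul, ← Real.exp_add]
      push_cast
      have : -(20 * q) + 2 * (10 * q) = 0 := by ring
      rw [this, Real.exp_zero]
    have h7 : Real.exp (10 * q) ≠ 0 := (Real.exp_pos _).ne'
    obtain ⟨X, hX⟩ : ∃ X, X = Real.exp (10 * q) := ⟨_, rfl⟩
    obtain ⟨Y, hY⟩ : ∃ Y, Y = Real.exp (-(20 * q)) := ⟨_, rfl⟩
    rw [← hX] at h6 h7 ⊢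
    rw [← hY] at h6 ⊢
    have h8 : (X / 3) ^ 2 ≠ 0 := pow_ne_zero _ (div_ne_zero h7 (by norm_num))
    rw [div_eq_iff h8]
    linear_combination (-1) * h6

theorem ray_bd {R : ℕ} {c0 : List Bool} {b : Bool} {n : ℕ} (hs : ss (en c0 b n) ≤ R) :
    nm (hv c0 b) ≤ R ∧ nm (wv c0 b 0) ≤ R ∧ (n : ℝ) ≤ R := by
  have h1 : ss (cn c0 b n) ≤ R := (ss_suffix ⟨[!b], rfl⟩).trans hs
  have h1r : (ss (cn c0 b n) : ℝ) ≤ R := by exact_mod_cast h1
  have h2 : nm (uu (cn c0 b n)) = nm (wv c0 b 0) + ((n : ℝ) + 1) * nm (hv c0 b) := by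
    rw [uu_cn, wv_eq]
    obtain ⟨a1, a2, a3, a4⟩ := g_nonneg c0
    have hw : 0 ≤ (wv c0 b 0).1 ∧ 0 ≤ (wv c0 b 0).2 := by
      cases b
      · exact ⟨a1, a2⟩
      · exact ⟨a3, a4⟩
    have hh : 0 ≤ (hv c0 b).1 ∧ 0 ≤ (hv c0 b).2 := by
      cases b
      · exact ⟨a3, a4⟩
      · exact ⟨a1, a2⟩
    obtain ⟨w, hwd⟩ : ∃ w, w = wv c0 b 0 := ⟨_, rfl⟩
    obtain ⟨v, hvd⟩ : ∃ v, v = hv c0 b := ⟨_, rfl⟩
    rw [← hwd] at hw ⊢
    rw [← hvd] at hh ⊢
    have w1 : (0 : ℝ) ≤ (w.1 : ℝ) := by exact_mod_cast hw.1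
    have w2 : (0 : ℝ) ≤ (w.2 : ℝ) := by exact_mod_cast hw.2
    have v1 : (0 : ℝ) ≤ (v.1 : ℝ) := by exact_mod_cast hh.1
    have v2 : (0 : ℝ) ≤ (v.2 : ℝ) := by exact_mod_cast hh.2
    have n0 : (0 : ℝ) ≤ n := Nat.cast_nonneg n
    unfold nm
    simp only [Prod.fst_add, Prod.snd_add, Prod.smul_fst, Prod.smul_snd, smul_eq_mul]
    push_cast
    rw [abs_of_nonneg w1, abs_of_nonneg w2, abs_of_nonneg v1, abs_of_nonneg v2,
      abs_of_nonneg (by positivity), abs_of_nonneg (by positivity)]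
    ring
  rw [nm_uu] at h2
  rw [h2] at h1r
  have h3 := hv_nm_ge c0 b
  have h4 := wv_nm_ge c0 b
  have n0 : (0 : ℝ) ≤ n := Nat.cast_nonneg n
  have h5 : (n : ℝ) * 1 ≤ n * nm (hv c0 b) := mul_le_mul_of_nonneg_left h3 n0
  refine ⟨?_, ?_, ?_⟩ <;> nlinarith

theorem th_ratio {c0 : List Bool} {b : Bool} {q : ℝ} (hq : 1 ≤ q) (hw : 10 * q ≤ F (zw c0 b 0)) {n m : ℕ}
    (hnm : (n : ℝ) + 2 * q + 1 ≤ m) :
    ee (cn c0 b m) ≤ Real.exp (-(38 / 10 * q)) * ee (cn c0 b n) := by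
  have hrs := rs_ray c0 b
  obtain ⟨hT, -⟩ := th_T hrs hq hw n
  have hnm' : n ≤ m := by
    have : (n : ℝ) ≤ m := by linarith
    exact_mod_cast this
  obtain ⟨k, hk⟩ : ∃ k, m = n + k := ⟨m - n, by omega⟩
  subst hk
  have hk1 : 2 * q + 1 ≤ (k : ℝ) := by
    push_cast at hnm
    linarith
  have h1 := er_ratioT hrs hT k
  have hee := ee_pos (cn c0 b n)
  rw [ee_cn] at hee
  rw [ee_cn, ee_cn]
  obtain ⟨e, he⟩ : ∃ e, e = er (zh c0 b) (zw c0 b) n := ⟨_, rfl⟩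
  obtain ⟨e', he'⟩ : ∃ e', e' = er (zh c0 b) (zw c0 b) (n + k) := ⟨_, rfl⟩
  rw [← he] at hee h1 ⊢
  rw [← he'] at h1 ⊢
  have h2 : 60 / TT (zh c0 b) (zw c0 b) n ^ 2 ≤ 1 / 2 := by
    have h3 := TT_low0 hrs hw n
    have h4 : Real.exp 10 ≤ Real.exp (10 * q) := Real.exp_le_exp.2 (by linarith)
    have h5 : (2 : ℝ) ^ 10 ≤ Real.exp 10 := by
      have h6 : Real.exp 10 = Real.exp 1 ^ 10 := by
        rw [← Real.exp_nat_mul]
        norm_num
      rw [h6]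
      have h7 := Real.exp_one_gt_d9
      exact pow_le_pow_left₀ (by norm_num) (by linarith) 10
    have h8 : (300 : ℝ) ≤ TT (zh c0 b) (zw c0 b) n := by
      norm_num at h5
      linarith
    rw [div_le_iff₀ (by positivity)]
    nlinarith
  have h3 : e' * lam (zh c0 b) ^ (2 * k) / e ≤ 3 / 2 := by
    have h4 := (abs_le.1 (h1.trans h2)).2
    linarith
  rw [div_le_iff₀ hee] at h3
  have hl : Real.exp (19 / 10 * k) ≤ lam (zh c0 b) ^ (2 * k) := by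
    unfold lam
    rw [← Real.exp_nat_mul]
    refine Real.exp_le_exp.2 ?_
    have h5 := F_le le_rfl hrs.hz
    have h6 := F_one.1
    have h7 : 24 / 25 ≤ F (zh c0 b) := h6.trans h5
    push_cast
    have h8 : (0 : ℝ) ≤ 2 * k := by positivity
    have h9 := mul_le_mul_of_nonneg_left h7 h8
    nlinarith
  have hL : 0 < lam (zh c0 b) ^ (2 * k) := (Real.exp_pos _).trans_le hl
  have h10 : 3 / 2 * Real.exp (38 / 10 * q) ≤ Real.exp (19 / 10 * k) := by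
    have h11 : Real.exp (38 / 10 * q) * Real.exp (19 / 10) ≤ Real.exp (19 / 10 * k) := by
      rw [← Real.exp_add]
      refine Real.exp_le_exp.2 ?_
      linarith
    have h12 := Real.add_one_le_exp (19 / 10 : ℝ)
    have h13 := Real.exp_pos (38 / 10 * q)
    nlinarith
  have h14 : e' * lam (zh c0 b) ^ (2 * k) ≤ 3 / 2 * e := h3
  have h15 : Real.exp (-(38 / 10 * q)) * Real.exp (38 / 10 * q) = 1 := by
    rw [← Real.exp_add]
    simp
  have hq0 := Real.exp_pos (-(38 / 10 * q))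
  have h16 : 3 / 2 * e ≤ Real.exp (-(38 / 10 * q)) * e * lam (zh c0 b) ^ (2 * k) := by
    have h17 : Real.exp (-(38 / 10 * q)) * (3 / 2 * Real.exp (38 / 10 * q)) ≤
        Real.exp (-(38 / 10 * q)) * lam (zh c0 b) ^ (2 * k) :=
      mul_le_mul_of_nonneg_left (h10.trans hl) hq0.le
    have h18 : Real.exp (-(38 / 10 * q)) * (3 / 2 * Real.exp (38 / 10 * q)) = 3 / 2 := by
      linear_combination (3 / 2) * h15
    rw [h18] at h17
    have h19 := mul_le_mul_of_nonneg_right h17 hee.le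
    linarith
  exact le_of_mul_le_mul_right (h14.trans h16) hL

theorem Fn_le {R : ℕ} (hR : 100 ≤ R) {c0 : List Bool} {b : Bool} {n : ℕ} (hh : nm (hv c0 b) ≤ R)
    (hg : nm (wv c0 b 0) ≤ R) (hn : (n : ℝ) ≤ R) (v : ℤ × ℤ) : |Fn c0 b n v| ≤ 3 * (R : ℝ) ^ 2 * nm v := by
  have hR1 : (100 : ℝ) ≤ R := by exact_mod_cast hR
  have hz := (rs_ray c0 b).hz
  obtain ⟨k1, k2⟩ := kz_bd hz
  have hv0 := nm_nonneg v
  have n0 : (0 : ℝ) ≤ n := Nat.cast_nonneg n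
  have hX : |(cX c0 b v : ℝ)| ≤ R * nm v :=
    (cX_le c0 b v).trans (mul_le_mul_of_nonneg_right hh hv0)
  have hY : |(cY c0 b v : ℝ)| ≤ R * nm v :=
    (cY_le c0 b v).trans (mul_le_mul_of_nonneg_right hg hv0)
  unfold Fn
  refine (abs_sub _ _).trans ?_
  rw [abs_mul]
  have h1 : |(n : ℝ) + x0 (zh c0 b)| ≤ R + 2 := by
    unfold x0
    rw [abs_le]
    constructor <;> linarith
  have h2 : |(cX c0 b v : ℝ)| * |(n : ℝ) + x0 (zh c0 b)| ≤ (R * nm v) * (R + 2) :=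
    mul_le_mul hX h1 (abs_nonneg _) (by positivity)
  have h3 : (0 : ℝ) ≤ R * nm v := by positivity
  nlinarith

theorem Fn_irr {R : ℕ} (hR : 100 ≤ R) {c0 : List Bool} {b : Bool} {n : ℕ} (hh : nm (hv c0 b) ≤ R)
    (hg : nm (wv c0 b 0) ≤ R) (hn : (n : ℝ) ≤ R) {q : ℝ} (hz : F (zh c0 b) ≤ q) {v : ℤ × ℤ} (hv0 : v ≠ 0) :
    1 ≤ 4 * Real.exp (2 * q) * (3 * (R : ℝ) ^ 2 * nm v) * |Fn c0 b n v| := by
  have hR1 : (100 : ℝ) ≤ R := by exact_mod_cast hR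
  have hz1 := (rs_ray c0 b).hz
  have hv1 := nm_nonneg v
  have n0 : (0 : ℝ) ≤ n := Nat.cast_nonneg n
  have hX : |(cX c0 b v : ℝ)| ≤ R * nm v :=
    (cX_le c0 b v).trans (mul_le_mul_of_nonneg_right hh hv1)
  have hY : |(cY c0 b v : ℝ)| ≤ R * nm v :=
    (cY_le c0 b v).trans (mul_le_mul_of_nonneg_right hg hv1)
  have hne : ((n : ℤ) * cX c0 b v - cY c0 b v) ≠ 0 ∨ cX c0 b v ≠ 0 := by
    by_contra h
    push Not at h
    obtain ⟨h1, h2⟩ := h
    rw [h2, mul_zero, zero_sub, neg_eq_zero] at h1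
    refine hv0 ?_
    rw [coord c0 b v, h1, h2]
    simp
  have h1 := irr_x0 hz1 hne
  have h2 : ((((n : ℤ) * cX c0 b v - cY c0 b v : ℤ) : ℝ) + (cX c0 b v : ℤ) * x0 (zh c0 b)) =
      Fn c0 b n v := by
    unfold Fn
    push_cast
    ring
  rw [h2] at h1
  refine h1.trans (mul_le_mul_of_nonneg_right ?_ (abs_nonneg _))
  have hl := lam_ge hz1
  have h3 : (9 * (zh c0 b : ℝ) ^ 2 - 4) ≤ 4 * Real.exp (2 * q) := by
    have hc := cosh_F hz1
    rw [Real.cosh_eq] at hc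
    have e1 := Real.exp_pos (F (zh c0 b))
    have e2 : Real.exp (-F (zh c0 b)) ≤ Real.exp (F (zh c0 b)) :=
      Real.exp_le_exp.2 (by
        have := F_pos hz1
        linarith)
    have e3 : 3 * (zh c0 b : ℝ) ≤ 2 * Real.exp (F (zh c0 b)) := by linarith
    have e4 : Real.exp (F (zh c0 b)) ≤ Real.exp q := Real.exp_le_exp.2 hz
    have e5 : 3 * (zh c0 b : ℝ) ≤ 2 * Real.exp q := by linarith
    have e6 : (0 : ℝ) ≤ 3 * (zh c0 b : ℝ) := by positivity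
    have e7 := pow_le_pow_left₀ e6 e5 2
    have e8 : Real.exp (2 * q) = Real.exp q ^ 2 := by
      rw [← Real.exp_nat_mul]
      push_cast
      rfl
    rw [e8]
    nlinarith
  have h4 : |(((n : ℤ) * cX c0 b v - cY c0 b v : ℤ) : ℝ)| + |((cX c0 b v : ℤ) : ℝ)| ≤
      3 * (R : ℝ) ^ 2 * nm v := by
    push_cast
    have e1 : |(n : ℝ) * (cX c0 b v : ℝ) - cY c0 b v| ≤ R * (R * nm v) + R * nm v := by
      refine (abs_sub _ _).trans (add_le_add ?_ hY)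
      rw [abs_mul, abs_of_nonneg n0]
      exact mul_le_mul hn hX (abs_nonneg _) (by positivity)
    have e2 : (0 : ℝ) ≤ R * nm v := by positivity
    nlinarith
  have h5 : 0 ≤ |(((n : ℤ) * cX c0 b v - cY c0 b v : ℤ) : ℝ)| + |((cX c0 b v : ℤ) : ℝ)| := by
    positivity
  exact mul_le_mul h3 h4 h5 (by positivity)

theorem ee_en_q {c0 : List Bool} {b : Bool} {q : ℝ} (hw : 10 * q ≤ F (zw c0 b 0)) (n : ℕ) :
    ee (en c0 b n) ≤ 2 * Real.exp (-(20 * q)) * ee (cn c0 b n) := by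
  refine (ee_enG c0 b n).trans (mul_le_mul_of_nonneg_right ?_ (ee_pos _).le)
  refine mul_le_mul_of_nonneg_left (Real.exp_le_exp.2 ?_) (by norm_num)
  have hrs := rs_ray c0 b
  have h1 : zw c0 b 0 ≤ zw c0 b n := by
    induction n with
    | zero => exact le_rfl
    | succ n ih => exact ih.trans (hrs.lt n).le
  have h2 := F_le hrs.hy h1
  linarith

private theorem thA_anti {z : ℕ} {y : ℕ → ℕ} (h : RS z y) {n m : ℕ} (hnm : n ≤ m)
    (hpos : ∀ k, 0 < er z y k) {q : ℝ} (hq : 1 ≤ q) (hw : 10 * q ≤ F (y 0)) :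
    er z y m ≤ er z y n := by
  obtain ⟨k, hk⟩ : ∃ k, m = n + k := ⟨m - n, by omega⟩
  subst hk
  rcases Nat.eq_zero_or_pos k with hk0 | hk0
  · subst hk0
    exact le_rfl
  · have h1 := er_ratioT h (th_T h hq hw n).1 k
    have hee := hpos n
    have hee' := hpos (n + k)
    obtain ⟨e, he⟩ : ∃ e, e = er z y n := ⟨_, rfl⟩
    obtain ⟨e', he'⟩ : ∃ e', e' = er z y (n + k) := ⟨_, rfl⟩
    rw [← he] at hee h1 ⊢
    rw [← he'] at hee' h1 ⊢
    have h2 : 60 / TT z y n ^ 2 ≤ 1 / 2 := by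
      have h3 := TT_low0 h hw n
      have h4 : Real.exp 10 ≤ Real.exp (10 * q) := Real.exp_le_exp.2 (by linarith)
      have h5 : (2 : ℝ) ^ 10 ≤ Real.exp 10 := by
        have h6 : Real.exp 10 = Real.exp 1 ^ 10 := by
          rw [← Real.exp_nat_mul]
          norm_num
        rw [h6]
        have h7 := Real.exp_one_gt_d9
        exact pow_le_pow_left₀ (by norm_num) (by linarith) 10
      have h8 : (300 : ℝ) ≤ TT z y n := by
        norm_num at h5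
        linarith
      rw [div_le_iff₀ (by positivity)]
      nlinarith
    have h3 : e' * lam z ^ (2 * k) / e ≤ 3 / 2 := by
      have h4 := (abs_le.1 (h1.trans h2)).2
      linarith
    rw [div_le_iff₀ hee] at h3
    have hl := lam_ge h.hz
    have hL : (3 / 2 : ℝ) ≤ lam z ^ (2 * k) := by
      have h5 : lam z ^ 1 ≤ lam z ^ (2 * k) :=
        pow_le_pow_right₀ (by linarith) (by omega)
      rw [pow_one] at h5
      linarith
    nlinarith

theorem LL_delta {R : ℕ} {c0 : List Bool} {b : Bool} {q : ℝ} (hq : 1 ≤ q) (hw : 10 * q ≤ F (zw c0 b 0))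
    (hh : nm (hv c0 b) ≤ R) {n m : ℕ} (hnm : n ≤ m) (v : ℤ × ℤ) :
    |LL (en c0 b n) v - LL (en c0 b m) v - (ee (cn c0 b n) * Fn c0 b n v - ee (cn c0 b m) * Fn c0 b m v)| ≤
      504 * Real.exp (-(20 * q)) * ee (cn c0 b n) * (R * nm v) := by
  have hrs := rs_ray c0 b
  obtain ⟨hT, hT'⟩ := th_T hrs hq hw n
  obtain ⟨hS, hS'⟩ := th_T hrs hq hw m
  have h1 := LL_enT c0 b hT v
  have h2 := LL_enT c0 b hS v
  have hX : |(cX c0 b v : ℝ)| ≤ R * nm v :=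
    (cX_le c0 b v).trans (mul_le_mul_of_nonneg_right hh (nm_nonneg v))
  have hX0 := abs_nonneg (cX c0 b v : ℝ)
  have hem : ee (cn c0 b m) ≤ ee (cn c0 b n) := by
    rw [ee_cn, ee_cn]
    exact thA_anti hrs hnm (fun k => by
      have := ee_pos (cn c0 b k)
      rwa [ee_cn] at this) hq hw
  have hen := ee_pos (cn c0 b n)
  have hem0 := ee_pos (cn c0 b m)
  have hq0 := Real.exp_pos (-(20 * q))
  have h3 : 28 / TT (zh c0 b) (zw c0 b) n ^ 2 * ee (cn c0 b n) * |(cX c0 b v : ℝ)| ≤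
      252 * Real.exp (-(20 * q)) * ee (cn c0 b n) * (R * nm v) := by
    have e : 28 / TT (zh c0 b) (zw c0 b) n ^ 2 ≤ 252 * Real.exp (-(20 * q)) := by
      have e1 : 28 / TT (zh c0 b) (zw c0 b) n ^ 2 = 28 * (1 / TT (zh c0 b) (zw c0 b) n ^ 2) := by ring
      rw [e1]
      linarith
    exact mul_le_mul (mul_le_mul_of_nonneg_right e hen.le) hX hX0 (by positivity)
  have h4 : 28 / TT (zh c0 b) (zw c0 b) m ^ 2 * ee (cn c0 b m) * |(cX c0 b v : ℝ)| ≤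
      252 * Real.exp (-(20 * q)) * ee (cn c0 b n) * (R * nm v) := by
    have e : 28 / TT (zh c0 b) (zw c0 b) m ^ 2 ≤ 252 * Real.exp (-(20 * q)) := by
      have e1 : 28 / TT (zh c0 b) (zw c0 b) m ^ 2 = 28 * (1 / TT (zh c0 b) (zw c0 b) m ^ 2) := by ring
      rw [e1]
      linarith
    exact mul_le_mul (mul_le_mul e hem hem0.le (by positivity)) hX hX0 (by positivity)
  have h5 := abs_le.1 (h1.trans h3)
  have h6 := abs_le.1 (h2.trans h4)
  rw [abs_le]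
  constructor
  · linarith [h5.1, h6.2]
  · linarith [h5.2, h6.1]

end Pool.Agent.Lib.MP_94ab62_ntZ
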