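import Pool.Agent.Lib.MP_94ab62_ntZ.Defs

/-!
# TpA: cones

`CC d v` = `v` in the closed cone with edges `g1 d`, `g2 d`; `det (g1 d) (g2 d) = 1`; `basis_decomp d v : v = det v (g2 d) • g1 d + det (g1 d) v • g2 d`.
All vectors `uu p`, `g1 p`, `g2 p` have nonnegative coordinates and `det u v > 0` means that `u` comes before `v`.

* `det_trans`: for `0 ≤ u, v, w` (coordinatewise) with `det u v > 0`, `det v w ≥ 0`, `v`: `v.1 det(u,w) = ...`.  Use the identity
  `det u v * w = ...`, more simply the two scalar identities `v.1 * det u w = u.1 * det v w + w.1 * det u v`, `v.2 * det u w = u.2 * det v w + w.2 * det u v`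
  (`ring`).  Strictness: `det u v > 0` gives `v ≠ 0`; if `w.1 > 0` and `v.1 > 0`: first identity.  Statement `det_trans` is only for `w` with positive
  coordinates (`w = uu q`) and `det_trans'` for `u` with positive coordinates; the middle vector `v` may be any vector with nonnegative coordinates.
  (`det_trans`: `v ≠ 0`, so `v.1 > 0` or `v.2 > 0`; if `v.1 > 0` the first identity gives `v.1 * det u w ≥ w.1 * det u v > 0`; if `v.2 > 0` the second.)
* `cc_true`, `cc_false`: children: `g1 (true :: c) = g1 c`, `g2 (true :: c) = uu c`, `g1 (false :: c) = uu c`, `g2 (false :: c) = g2 c`.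
* `cc_child`: `CC (b :: c) v → CC c v`: `v = x g1 c + y g2 c`; in `CC (true :: c)`: `y ≥ 0`, `det v (uu c) = x - y ≥ 0`, so `x ≥ 0` (`det_add_right`, `uu c = g1 c + g2 c`, `basis_decomp`:
  `det v (uu c) = det v (g1 c) + det v (g2 c) = det v (g2 c) - det (g1 c) v`).
* `cc_suffix`: induction on the list (`cc_child`).
* `in_cone` (←): `coords`.  (→): if `d <:+ x` fails: `x <:+ d` (then `x ≠ d`, `(b :: x) <:+ d` for some `b`: `CC (b :: x) (g1 d)`, `CC (b::x) (g2 d)` by `cc_suffix`; for `b = true`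
  `0 ≤ det (g2 d) (uu x)`, contradiction with `0 < det (uu x) (g2 d)`; for `b = false` `0 ≤ det (uu x) (g1 d)`, contradiction), or `diverge`: `(b :: c) <:+ d`, `((!b) :: c) <:+ x`;
  `b = true`: `CC (true :: c) (g2 d)`: `0 ≤ det (g2 d) (uu c)`, and `0 < det (uu c) (uu x)` (`coords_false` for `x`: `uu x = a g1 c + b g2 c`, `a < b`, `det (uu c) (uu x) = b - a`), so
  `det_trans'`-like: `0 < det (g2 d) (uu x)` (middle vector `uu c`), contradiction.  `b = false` is the mirror image.
* `cc_cases`: `CC d (uu x)`: if both dets are positive, `in_cone`.  If `det (g1 d) (uu x) = 0`: `basis_decomp`: `uu x = k • g1 d`, `k = det (uu x) (g2 d) ≥ 0`; `det (g1 x) (uu x) = 1`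
  gives `k ∣ 1`, so `k = 1`.  Similarly the other one.
* `cc_between`: `det u w * det (g1 d) v = det v w * det (g1 d) u + det u v * det (g1 d) w` (from `ind_decomp` or `ring` after unfolding `det`), same for `det v (g2 d)`.
* `side_true`: for `(true :: c) <:+ p`: `0 < det (uu p) (uu c)` (`coords_true`); `side_false`: `(false :: c) <:+ p → 0 < det (uu c) (uu p)`.
* `det_eq_zero_iff` = `par_eq`.  `lt_or_gt`: for `p ≠ q`: `0 < det (uu p) (uu q)` or `0 < det (uu q) (uu p)`.
-/

set_option autoImplicit false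

namespace Pool.Agent.Lib.MP_94ab62_ntZ

open Pool.Agent.Lib.MP_94ab62_nt Pool.Agent.Lib.MP_94ab62_ntU

private theorem tpa_i1 (u v w : ℤ × ℤ) : v.1 * det u w = u.1 * det v w + w.1 * det u v := by
  simp only [det]; ring

private theorem tpa_i2 (u v w : ℤ × ℤ) : v.2 * det u w = u.2 * det v w + w.2 * det u v := by
  simp only [det]; ring

private theorem tpa_pos {u v w : ℤ × ℤ} (hv1 : 0 ≤ v.1) (hv2 : 0 ≤ v.2) (hne : v.1 ≠ 0 ∨ v.2 ≠ 0)
    (h1 : 0 < u.1 * det v w + w.1 * det u v) (h2 : 0 < u.2 * det v w + w.2 * det u v) :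
    0 < det u w := by
  rcases hne with h | h
  · have h3 : 0 < v.1 := lt_of_le_of_ne hv1 (Ne.symm h)
    rw [← tpa_i1] at h1
    exact (mul_pos_iff_of_pos_left h3).1 h1
  · have h3 : 0 < v.2 := lt_of_le_of_ne hv2 (Ne.symm h)
    rw [← tpa_i2] at h2
    exact (mul_pos_iff_of_pos_left h3).1 h2

private theorem tpa_le {u v w : ℤ × ℤ} (hu1 : 0 ≤ u.1) (hv : 0 < v.1) (hw : 0 ≤ w.1)
    (h1 : 0 ≤ det u v) (h2 : 0 ≤ det v w) : 0 ≤ det u w := by
  have h3 : 0 ≤ v.1 * det u w := by
    rw [tpa_i1]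
    exact add_nonneg (mul_nonneg hu1 h2) (mul_nonneg hw h1)
  exact (mul_nonneg_iff_of_pos_left hv).1 h3

theorem det_trans {u v w : ℤ × ℤ} (hu1 : 0 ≤ u.1) (hu2 : 0 ≤ u.2) (hv1 : 0 ≤ v.1) (hv2 : 0 ≤ v.2) (hw1 : 0 < w.1)
    (hw2 : 0 < w.2) (h1 : 0 < det u v) (h2 : 0 ≤ det v w) : 0 < det u w := by
  refine tpa_pos hv1 hv2 ?_ ?_ ?_
  · by_contra h
    push Not at h
    simp only [det, h.1, h.2] at h1
    omega
  · exact add_pos_of_nonneg_of_pos (mul_nonneg hu1 h2) (mul_pos hw1 h1)
  · exact add_pos_of_nonneg_of_pos (mul_nonneg hu2 h2) (mul_pos hw2 h1)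

theorem det_trans' {u v w : ℤ × ℤ} (hu1 : 0 < u.1) (hu2 : 0 < u.2) (hv1 : 0 ≤ v.1) (hv2 : 0 ≤ v.2) (hw1 : 0 ≤ w.1)
    (hw2 : 0 ≤ w.2) (h1 : 0 ≤ det u v) (h2 : 0 < det v w) : 0 < det u w := by
  refine tpa_pos hv1 hv2 ?_ ?_ ?_
  · by_contra h
    push Not at h
    simp only [det, h.1, h.2] at h2
    omega
  · exact add_pos_of_pos_of_nonneg (mul_pos hu1 h2) (mul_nonneg hw1 h1)
  · exact add_pos_of_pos_of_nonneg (mul_pos hu2 h2) (mul_nonneg hw2 h1)

/-- transitivity of the angular order for nodes -/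
theorem uu_trans {p q r : List Bool} (h1 : 0 < det (uu p) (uu q)) (h2 : 0 < det (uu q) (uu r)) :
    0 < det (uu p) (uu r) := by
  obtain ⟨a1, a2⟩ := uu_pos p
  obtain ⟨b1, b2⟩ := uu_pos q
  obtain ⟨c1, c2⟩ := uu_pos r
  exact det_trans (by omega) (by omega) (by omega) (by omega) (by omega) (by omega) h1 h2.le

theorem lt_or_gt {p q : List Bool} (h : p ≠ q) : 0 < det (uu p) (uu q) ∨ 0 < det (uu q) (uu p) := by
  rcases lt_trichotomy (det (uu p) (uu q)) 0 with h1 | h1 | h1
  · right
    rw [det_swap]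
    omega
  · exact absurd (par_eq h1) h
  · exact Or.inl h1

theorem cc_true {c : List Bool} {v : ℤ × ℤ} : CC (true :: c) v ↔ 0 ≤ det (g1 c) v ∧ 0 ≤ det v (uu c) :=
  Iff.rfl

theorem cc_false {c : List Bool} {v : ℤ × ℤ} : CC (false :: c) v ↔ 0 ≤ det (uu c) v ∧ 0 ≤ det v (g2 c) :=
  Iff.rfl

theorem cc_child {c : List Bool} {b : Bool} {v : ℤ × ℤ} (h : CC (b :: c) v) : CC c v := by
  cases b
  · obtain ⟨h1, h2⟩ := cc_false.1 h
    unfold uu at h1
    rw [det_add_left, det_swap (g2 c) v] at h1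
    exact ⟨by omega, h2⟩
  · obtain ⟨h1, h2⟩ := cc_true.1 h
    unfold uu at h2
    rw [det_add_right, det_swap v (g1 c)] at h2
    exact ⟨h1, by omega⟩

theorem cc_suffix {d e : List Bool} (h : d <:+ e) {v : ℤ × ℤ} (hv : CC e v) : CC d v := by
  obtain ⟨r, rfl⟩ := h
  induction r with
  | nil => exact hv
  | cons b r ih => exact ih (cc_child hv)

theorem cc_g1 (d : List Bool) : CC d (g1 d) := by
  refine ⟨?_, ?_⟩
  · rw [det_self]
  · rw [det_g]
    norm_num

theorem cc_g2 (d : List Bool) : CC d (g2 d) := by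
  refine ⟨?_, ?_⟩
  · rw [det_g]
    norm_num
  · rw [det_self]

private theorem tpa_side_true {c p : List Bool} (h : (true :: c) <:+ p) : 0 < det (uu p) (uu c) := by
  obtain ⟨x, y, _, h1, h2⟩ := coords_true h
  have h3 : det (uu p) (uu c) = (x : ℤ) - y := by
    rw [h2]
    unfold uu
    rw [det_add_left, det_smul_left, det_smul_left, det_add_right, det_add_right, det_self, det_self,
      det_swap (g2 c) (g1 c), det_g]
    ring
  rw [h3]
  omega

private theorem tpa_side_false {c p : List Bool} (h : (false :: c) <:+ p) :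
    0 < det (uu c) (uu p) := by
  obtain ⟨x, y, _, h1, h2⟩ := coords_false h
  have h3 : det (uu c) (uu p) = (y : ℤ) - x := by
    rw [h2]
    unfold uu
    rw [det_add_right, det_smul_right, det_smul_right, det_add_left, det_add_left, det_self,
      det_self, det_swap (g2 c) (g1 c), det_g]
    ring
  rw [h3]
  omega

theorem in_cone {d x : List Bool} : (0 < det (g1 d) (uu x) ∧ 0 < det (uu x) (g2 d)) ↔ d <:+ x := by
  constructor
  · rintro ⟨h1, h2⟩
    by_contra hn
    rw [det_swap] at h1 h2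
    by_cases hx : x <:+ d
    · obtain ⟨r, rfl⟩ := hx
      rcases List.eq_nil_or_concat' r with rfl | ⟨L, b, rfl⟩
      · exact hn (by rw [List.nil_append])
      · have hs : (b :: x) <:+ (L ++ [b] ++ x) := ⟨L, by simp⟩
        cases b
        · have h3 := (cc_false.1 (cc_suffix hs (cc_g1 _))).1
          omega
        · have h3 := (cc_true.1 (cc_suffix hs (cc_g2 _))).2
          omega
    · obtain ⟨c, b, h3, h4⟩ := diverge hn hx
      obtain ⟨n1, n2, n3, n4⟩ := g_nonneg d
      have hc := (uu_pos c).1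
      have hx1 := (uu_pos x).1
      cases b
      · have h5 := (cc_false.1 (cc_suffix h3 (cc_g1 _))).1
        have h6 := tpa_side_true h4
        have h7 := tpa_le (by omega) (by omega) n1 h6.le h5
        omega
      · have h5 := (cc_true.1 (cc_suffix h3 (cc_g2 _))).2
        have h6 := tpa_side_false h4
        have h7 := tpa_le n3 (by omega) (by omega) h5 h6.le
        omega
  · intro h
    obtain ⟨a, b, h1, h2, h3, _⟩ := coords h
    have e1 : det (g1 d) (uu x) = b := by
      rw [h3, det_add_right, det_smul_right, det_smul_right, det_g, det_self]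
      ring
    have e2 : det (uu x) (g2 d) = a := by
      rw [h3, det_add_left, det_smul_left, det_smul_left, det_g, det_self]
      ring
    rw [e1, e2]
    omega

theorem cc_of_suffix {d x : List Bool} (h : d <:+ x) : CC d (uu x) := by
  obtain ⟨h1, h2⟩ := in_cone.2 h
  exact ⟨h1.le, h2.le⟩

private theorem tpa_k {x : List Bool} {k : ℤ} {v : ℤ × ℤ} (hk : 0 ≤ k) (h : uu x = k • v) : uu x = v := by
  have h1 : det (g1 x) (uu x) = 1 := by
    unfold uu
    rw [det_add_right, det_self, det_g, zero_add]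
  rw [h, det_smul_right] at h1
  rcases Int.eq_one_or_neg_one_of_mul_eq_one h1 with h2 | h2
  · rw [h, h2, one_smul]
  · omega

theorem cc_cases {d x : List Bool} (h : CC d (uu x)) : d <:+ x ∨ uu x = g1 d ∨ uu x = g2 d := by
  obtain ⟨h1, h2⟩ := h
  have h5 := basis_decomp d (uu x)
  rcases h1.lt_or_eq with h3 | h3
  · rcases h2.lt_or_eq with h4 | h4
    · exact Or.inl (in_cone.1 ⟨h3, h4⟩)
    · right; right
      rw [← h4, zero_smul, zero_add] at h5
      exact tpa_k h1 h5
  · right; left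
    rw [← h3, zero_smul, add_zero] at h5
    exact tpa_k h2 h5

theorem cc_between {d : List Bool} {u v w : ℤ × ℤ} (hu : CC d u) (hw : CC d w) (huw : 0 < det u w)
    (h1 : 0 ≤ det u v) (h2 : 0 ≤ det v w) : CC d v := by
  have e1 : det u w * det (g1 d) v = det v w * det (g1 d) u + det u v * det (g1 d) w := by
    simp only [det]; ring
  have e2 : det u w * det v (g2 d) = det v w * det u (g2 d) + det u v * det w (g2 d) := by
    simp only [det]; ring
  refine ⟨(mul_nonneg_iff_of_pos_left huw).1 ?_, (mul_nonneg_iff_of_pos_left huw).1 ?_⟩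
  · rw [e1]
    exact add_nonneg (mul_nonneg h2 hu.1) (mul_nonneg h1 hw.1)
  · rw [e2]
    exact add_nonneg (mul_nonneg h2 hu.2) (mul_nonneg h1 hw.2)

theorem side_true {c p : List Bool} (h : (true :: c) <:+ p) : 0 < det (uu p) (uu c) :=
  tpa_side_true h

theorem side_false {c p : List Bool} (h : (false :: c) <:+ p) : 0 < det (uu c) (uu p) :=
  tpa_side_false h

end Pool.Agent.Lib.MP_94ab62_ntZ
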