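import Pool.Agent.Lib.MP_94ab62_ntZ.TpA
import Pool.Agent.Lib.MP_94ab62_ntZ.RaB

/-!
# TpB: the top node between two nodes

`Top q1 q3 d`: `0 ≤ det (g1 d) (uu q1)`, `0 < det (uu q1) (uu d)`, `0 < det (uu d) (uu q3)`, `0 ≤ det (uu q3) (g2 d)`, i.e. `uu q1 ∈ [g1 d, uu d)`, `uu q3 ∈ (uu d, g2 d]`.

* `top_exists`: `q1 ≠ q3` (else det = 0).  (i) If neither is a suffix of the other, `diverge` gives `c`, `b` with `(b :: c) <:+ q1`, `((!b) :: c) <:+ q3`.
  `b = true`: `d = c` (`side_true`, `side_false`, `cc_of_suffix` for `c`).  `b = false` is impossible: `side_false`, `side_true` give `uu q3 < uu c < uu q1`, `uu_trans`, contradiction with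
  `det (uu q1) (uu q3) > 0` (antisymmetry `det_swap`).
  (ii) `q1 <:+ q3`, `q1 ≠ q3`: `(b :: q1) <:+ q3`; `b = false` because of `det (uu q1) (uu q3) > 0` (`side_true` excludes `true`).  By induction on `n` consider
  `r n = List.replicate n true ++ (false :: q1)`: `g1 (r n) = uu q1` (`g1_true`, `g1_false`).  Let `m` be maximal with `r m <:+ q3` (exists: `r 0 <:+ q3`, and `(r n).length` grows; e.g. strong
  induction on `q3.length - (r m).length`, or `Nat.findGreatest`).  Then `q3 = r m` or `(false :: r m) <:+ q3` (not `true :: r m = r (m+1)`).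
  In the first case `d = r (m+1) = true :: r m`: `g1 d = uu q1`, `uu d = uu q1 + uu (r m)`, `g2 d = uu (r m) = uu q3`.
  In the second case `d = r m`: `g1 d = uu q1`, `uu d = uu q1 + g2 (r m)`: `det (uu q1) (uu d) = det (g1 d) (uu d) = 1 > 0`; `side_false`, `cc_of_suffix`.
  (iii) `q3 <:+ q1`: mirror image: `b = true`, `r n = List.replicate n false ++ (true :: q3)`, `g2 (r n) = uu q3`.
* `top_below`: by `in_cone` : `0 < det (g1 d) (uu x)`: `0 ≤ det (g1 d) (uu q1)` and `0 < det (uu q1) (uu x)`: use `v.1 * det u w = u.1 * det v w + w.1 * det u v` with `v = uu q1`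
  positive, `u = g1 d` which is nonzero: `u.1 * det v w > 0` or the same with the second coordinates.  Mirror for the other side.
* `top_base`: `uu d` is strictly between `uu q1` and `uu q3`, both in the open cone of `B`; `in_cone` (use `cc_between`-type identities with strict inequalities).
* `top_cc`: `cc_true`, `cc_false`: `CC (true :: d) (uu q1)`, `CC (false :: d) (uu q3)`; `cc_child` for `CC d`.
* `top_unique`: `top_below` twice: `d <:+ d'` and `d' <:+ d`.
* `top_ss`: `d <:+ x` so `ss d ≤ ss x` (`ss_suffix`).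
-/

set_option autoImplicit false

namespace Pool.Agent.Lib.MP_94ab62_ntZ

open Pool.Agent.Lib.MP_94ab62_nt Pool.Agent.Lib.MP_94ab62_ntU

private theorem tpb_uu (p : List Bool) : uu p = g1 p + g2 p := rfl

private theorem tpb_cons {c q : List Bool} (h : c <:+ q) (hne : c ≠ q) : ∃ b : Bool, (b :: c) <:+ q := by
  obtain ⟨r, rfl⟩ := h
  rcases List.eq_nil_or_concat r with h1 | ⟨r', b, h1⟩
  · rw [h1] at hne
    exact absurd rfl hne
  · refine ⟨b, r', ?_⟩
    rw [h1]
    simp

private theorem tpb_g1 (d : List Bool) : 0 ≤ (g1 d).1 ∧ 0 ≤ (g1 d).2 ∧ 0 < (g1 d).1 + (g1 d).2 := by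
  obtain ⟨a1, a2, -, -⟩ := g_nonneg d
  have h := m1_eq d
  have h2 := m1_pos d
  refine ⟨a1, a2, ?_⟩
  rw [h]
  exact_mod_cast h2

private theorem tpb_g2 (d : List Bool) : 0 ≤ (g2 d).1 ∧ 0 ≤ (g2 d).2 ∧ 0 < (g2 d).1 + (g2 d).2 := by
  obtain ⟨-, -, a1, a2⟩ := g_nonneg d
  have h := m2_eq d
  have h2 := m2_pos d
  refine ⟨a1, a2, ?_⟩
  rw [h]
  exact_mod_cast h2

private theorem tpb_left {u v w : ℤ × ℤ} (_hu1 : 0 ≤ u.1) (_hu2 : 0 ≤ u.2) (hu : 0 < u.1 + u.2)
    (hv1 : 0 < v.1) (hv2 : 0 < v.2) (hw1 : 0 ≤ w.1) (hw2 : 0 ≤ w.2) (h1 : 0 ≤ det u v) (h2 : 0 < det v w) :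
    0 < det u w := by
  have e1 : v.1 * det u w = u.1 * det v w + w.1 * det u v := by
    unfold det
    ring
  have e2 : v.2 * det u w = u.2 * det v w + w.2 * det u v := by
    unfold det
    ring
  by_cases hz : 0 < u.1
  · have h3 : 0 < v.1 * det u w := by
      rw [e1]
      have := mul_pos hz h2
      have := mul_nonneg hw1 h1
      linarith
    exact (mul_pos_iff_of_pos_left hv1).1 h3
  · have hz' : 0 < u.2 := by linarith
    have h3 : 0 < v.2 * det u w := by
      rw [e2]
      have := mul_pos hz' h2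
      have := mul_nonneg hw2 h1
      linarith
    exact (mul_pos_iff_of_pos_left hv2).1 h3

private theorem tpb_right {u v w : ℤ × ℤ} (_hw1 : 0 ≤ w.1) (_hw2 : 0 ≤ w.2) (hw : 0 < w.1 + w.2)
    (hv1 : 0 < v.1) (hv2 : 0 < v.2) (hu1 : 0 ≤ u.1) (hu2 : 0 ≤ u.2) (h1 : 0 < det u v) (h2 : 0 ≤ det v w) :
    0 < det u w := by
  have e1 : v.1 * det u w = u.1 * det v w + w.1 * det u v := by
    unfold det
    ring
  have e2 : v.2 * det u w = u.2 * det v w + w.2 * det u v := by
    unfold det
    ring
  by_cases hz : 0 < w.1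
  · have h3 : 0 < v.1 * det u w := by
      rw [e1]
      have := mul_pos hz h1
      have := mul_nonneg hu1 h2
      linarith
    exact (mul_pos_iff_of_pos_left hv1).1 h3
  · have hz' : 0 < w.2 := by linarith
    have h3 : 0 < v.2 * det u w := by
      rw [e2]
      have := mul_pos hz' h1
      have := mul_nonneg hu2 h2
      linarith
    exact (mul_pos_iff_of_pos_left hv2).1 h3

theorem top_exists {q1 q3 : List Bool} (h : 0 < det (uu q1) (uu q3)) : ∃ d, Top q1 q3 d := by
  have hne : q1 ≠ q3 := by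
    rintro rfl
    rw [det_self] at h
    exact lt_irrefl _ h
  have hno : ¬ 0 < det (uu q3) (uu q1) := by
    rw [det_swap]
    linarith
  by_cases h13 : q1 <:+ q3
  · obtain ⟨b, hb⟩ := tpb_cons h13 hne
    cases b with
    | true => exact absurd (side_true hb) hno
    | false =>
      have hg : ∀ n, g1 (cn (false :: q1) true n) = uu q1 := fun n => by rw [raa_g1, g1_false]
      rcases ray_cases true hb with ⟨n, hn⟩ | ⟨n, hn⟩
      · refine ⟨true :: q3, ?_, ?_, ?_, ?_⟩
        · rw [g1_true, hn, hg, det_self]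
        · rw [tpb_uu (true :: q3), g1_true, g2_true, det_add_right]
          have : g1 q3 = uu q1 := by rw [hn, hg]
          rw [this, det_self, zero_add]
          exact h
        · rw [tpb_uu (true :: q3), g1_true, g2_true, det_add_left]
          have : g1 q3 = uu q1 := by rw [hn, hg]
          rw [this, det_self, add_zero]
          exact h
        · rw [g2_true, det_self]
      · have hn' : (false :: cn (false :: q1) true n) <:+ q3 := hn
        have hs : cn (false :: q1) true n <:+ q3 := (List.suffix_cons _ _).trans hn'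
        refine ⟨cn (false :: q1) true n, ?_, ?_, side_false hn', (cc_of_suffix hs).2⟩
        · rw [hg, det_self]
        · have h1 := det_g (cn (false :: q1) true n)
          rw [tpb_uu (cn _ _ _), det_add_right, ← hg n, det_self, zero_add, h1]
          norm_num
  · by_cases h31 : q3 <:+ q1
    · obtain ⟨b, hb⟩ := tpb_cons h31 (Ne.symm hne)
      cases b with
      | false => exact absurd (side_false hb) hno
      | true =>
        have hg : ∀ n, g2 (cn (true :: q3) false n) = uu q3 := fun n => by rw [raa_g2, g2_true]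
        rcases ray_cases false hb with ⟨n, hn⟩ | ⟨n, hn⟩
        · refine ⟨false :: q1, ?_, ?_, ?_, ?_⟩
          · rw [g1_false, det_self]
          · rw [tpb_uu (false :: q1), g1_false, g2_false, det_add_right]
            have : g2 q1 = uu q3 := by rw [hn, hg]
            rw [this, det_self, zero_add]
            exact h
          · rw [tpb_uu (false :: q1), g1_false, g2_false, det_add_left]
            have : g2 q1 = uu q3 := by rw [hn, hg]
            rw [this, det_self, add_zero]
            exact h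
          · rw [g2_false, hn, hg, det_self]
        · have hn' : (true :: cn (true :: q3) false n) <:+ q1 := hn
          have hs : cn (true :: q3) false n <:+ q1 := (List.suffix_cons _ _).trans hn'
          refine ⟨cn (true :: q3) false n, (cc_of_suffix hs).1, side_true hn', ?_, ?_⟩
          · have h1 := det_g (cn (true :: q3) false n)
            rw [tpb_uu (cn _ _ _), det_add_left, ← hg n, det_self, add_zero, h1]
            norm_num
          · rw [hg, det_self]
    · obtain ⟨c, b, h1, h3⟩ := diverge h13 h31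
      cases b with
      | true =>
        have h3' : (false :: c) <:+ q3 := h3
        exact ⟨c, (cc_of_suffix ((List.suffix_cons _ _).trans h1)).1, side_true h1, side_false h3',
          (cc_of_suffix ((List.suffix_cons _ _).trans h3')).2⟩
      | false =>
        have h3' : (true :: c) <:+ q3 := h3
        exact absurd (uu_trans (side_true h3') (side_false h1)) hno

theorem top_below {q1 q3 d x : List Bool} (ht : Top q1 q3 d) (h1 : 0 < det (uu q1) (uu x))
    (h3 : 0 < det (uu x) (uu q3)) : d <:+ x := by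
  obtain ⟨t1, -, -, t4⟩ := ht
  obtain ⟨a1, a2⟩ := uu_pos q1
  obtain ⟨b1, b2⟩ := uu_pos q3
  obtain ⟨c1, c2⟩ := uu_pos x
  obtain ⟨e1, e2, e3⟩ := tpb_g1 d
  obtain ⟨f1, f2, f3⟩ := tpb_g2 d
  apply in_cone.1
  refine ⟨?_, ?_⟩
  · exact tpb_left e1 e2 e3 (by linarith) (by linarith) (by linarith) (by linarith) t1 h1
  · exact tpb_right f1 f2 f3 (by linarith) (by linarith) (by linarith) (by linarith) h3 t4

theorem top_base {B q1 q3 d : List Bool} (ht : Top q1 q3 d) (h1 : B <:+ q1) (h3 : B <:+ q3) : B <:+ d := by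
  obtain ⟨-, t2, t3, -⟩ := ht
  obtain ⟨a1, a2⟩ := uu_pos q1
  obtain ⟨b1, b2⟩ := uu_pos q3
  obtain ⟨c1, c2⟩ := uu_pos d
  obtain ⟨e1, e2, e3⟩ := tpb_g1 B
  obtain ⟨f1, f2, f3⟩ := tpb_g2 B
  apply in_cone.1
  refine ⟨?_, ?_⟩
  · exact tpb_left e1 e2 e3 (by linarith) (by linarith) (by linarith) (by linarith)
      (in_cone.2 h1).1.le t2
  · exact tpb_right f1 f2 f3 (by linarith) (by linarith) (by linarith) (by linarith) t3
      (in_cone.2 h3).2.le

theorem top_cc {q1 q3 d : List Bool} (ht : Top q1 q3 d) :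
    CC (true :: d) (uu q1) ∧ CC (false :: d) (uu q3) ∧ CC d (uu q1) ∧ CC d (uu q3) := by
  obtain ⟨t1, t2, t3, t4⟩ := ht
  have h1 : CC (true :: d) (uu q1) := cc_true.2 ⟨t1, t2.le⟩
  have h3 : CC (false :: d) (uu q3) := cc_false.2 ⟨t3.le, t4⟩
  exact ⟨h1, h3, cc_child h1, cc_child h3⟩

theorem top_unique {q1 q3 d d' : List Bool} (ht : Top q1 q3 d) (ht' : Top q1 q3 d') : d = d' := by
  have h1 : d <:+ d' := top_below ht ht'.2.1 ht'.2.2.1
  have h2 : d' <:+ d := top_below ht' ht.2.1 ht.2.2.1
  exact h1.eq_of_length (le_antisymm h1.length_le h2.length_le)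

/-- everything between `q1` and `q3` lies in the closed cone of the top -/
theorem top_mid {q1 q3 d : List Bool} (ht : Top q1 q3 d) {v : ℤ × ℤ} (h1 : 0 ≤ det (uu q1) v)
    (h3 : 0 ≤ det v (uu q3)) : CC d v := by
  obtain ⟨-, -, c1, c3⟩ := top_cc ht
  exact cc_between c1 c3 (uu_trans ht.2.1 ht.2.2.1) h1 h3

end Pool.Agent.Lib.MP_94ab62_ntZ
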