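import Pool.Agent.Lib.MP_94ab62_ntZ.TpA
import Pool.Agent.Lib.MP_94ab62_ntU.EnumU

/-!
# TpC: closeness to the functional, upper bound of the second difference

* `LL_edge1`: if `uu x = g1 D0` then `ll x = LL D0 (uu x)`: `LL_g1` gives `LL D0 (g1 D0) = fa (tn D0) = F (tn D0).1`, and `zz x = (tn D0).1` by `zz_entry1` (EnumU), `ll x = fc (tn x) = F (zz x)`.
  `LL_edge2`: `zz_entry2`, `LL_g2`.
* `cl`: `cc_cases`: `D0 <:+ x`: `ll_app`: `|ll x - LL D0 (uu x)| ≤ 3 * ww D0 * ss x`, `ww D0 = ee D0 * ss D0`, `ss D0 ≤ ss x ≤ R` (`ss_suffix`).  Edges: the difference is 0.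
* `cl_le`: sign: `ll x ≤ LL D0 (uu x)`: for `D0 <:+ x` by induction on the path: `LL x (uu x) = ll x + ee x` (`LL_uu`), and `LL (b :: c) v ≤ LL c v` for `v` in the closed cone of `b :: c`
  (`LL_true`, `LL_false`, `det (g1 c) v ≥ 0`, `det v (g2 c) ≥ 0`).
* `Hd_lin`: `det u2 u3 * L u1 - det u1 u3 * L u2 + det u1 u2 * L u3 = 0` for `L = LL D0`: `three_rel` (BasisB), `LL_add`, `LL_smul` (or unfold `LL`, `det` and `ring`).
* `hup`: subtract `Hd_lin`: `|Hd| ≤ 3 * R^2 * (3 R^2 ee D0)`, `|det u v| ≤ nm u * nm v ≤ R^2` (`det_le`, `nm_uu`).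
* `Hd_rev`: `Hd p3 p2 p1 = - Hd p1 p2 p3`: `det_swap`, `ring`.
* `close2`: `G v = a * LL X v - LL Y (ap M v)` is linear in `v`; if `|G u1| ≤ t`, `|G u2| ≤ t`, `det u1 u2 ≠ 0`, `nm u1, nm u2 ≤ R` then `|G v| ≤ 2 R t nm v`
  (`ind_decomp : det v1 v2 • v = det v v2 • v1 + det v1 v • v2`, `|det v1 v2| ≥ 1`, `det_le`).
-/

set_option autoImplicit false

namespace Pool.Agent.Lib.MP_94ab62_ntZ

open Pool.Agent.Lib.MP_94ab62_nt Pool.Agent.Lib.MP_94ab62_ntU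

private theorem tpc_mono {d x : List Bool} (h : d <:+ x) {v : ℤ × ℤ} (hv : CC x v) : LL x v ≤ LL d v := by
  obtain ⟨r, rfl⟩ := h
  induction r with
  | nil => exact le_rfl
  | cons b r ih =>
    rw [List.cons_append] at hv ⊢
    have h1 := cc_child hv
    have h2 := ih h1
    have hee := (ee_pos (r ++ d)).le
    refine le_trans ?_ h2
    cases b with
    | true =>
      rw [LL_true]
      have h3 : (0 : ℝ) ≤ (det (g1 (r ++ d)) v : ℝ) := by exact_mod_cast h1.1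
      linarith [mul_nonneg hee h3]
    | false =>
      rw [LL_false]
      have h3 : (0 : ℝ) ≤ (det v (g2 (r ++ d)) : ℝ) := by exact_mod_cast h1.2
      linarith [mul_nonneg hee h3]

private theorem tpc_det {R : ℕ} {p q : List Bool} (hp : ss p ≤ R) (hq : ss q ≤ R) :
    |(det (uu p) (uu q) : ℝ)| ≤ (R : ℝ) ^ 2 := by
  have h1 := det_le (uu p) (uu q)
  rw [nm_uu, nm_uu] at h1
  have h2 : ((ss p : ℕ) : ℝ) ≤ (R : ℝ) := by exact_mod_cast hp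
  have h3 : ((ss q : ℕ) : ℝ) ≤ (R : ℝ) := by exact_mod_cast hq
  have h4 : (0 : ℝ) ≤ (ss p : ℝ) := Nat.cast_nonneg _
  have h5 : (0 : ℝ) ≤ (ss q : ℝ) := Nat.cast_nonneg _
  calc |(det (uu p) (uu q) : ℝ)| ≤ (ss p : ℝ) * (ss q : ℝ) := h1
    _ ≤ (R : ℝ) * (R : ℝ) := mul_le_mul h2 h3 h5 (h4.trans h2)
    _ = (R : ℝ) ^ 2 := by ring

theorem LL_edge1 {D0 x : List Bool} (h : uu x = g1 D0) : ll x = LL D0 (uu x) := by
  rw [h, LL_g1]
  show F (zz x) = fa (tn D0)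
  rw [zz_entry1 h]
  rfl

theorem LL_edge2 {D0 x : List Bool} (h : uu x = g2 D0) : ll x = LL D0 (uu x) := by
  rw [h, LL_g2]
  show F (zz x) = fb (tn D0)
  rw [zz_entry2 h]
  rfl

theorem cl {R : ℕ} {D0 x : List Bool} (h : CC D0 (uu x)) (hx : ss x ≤ R) :
    |ll x - LL D0 (uu x)| ≤ 3 * (R : ℝ) ^ 2 * ee D0 := by
  have hee := ee_pos D0
  have h0 : 0 ≤ 3 * (R : ℝ) ^ 2 * ee D0 := by positivity
  rcases cc_cases h with hs | he | he
  · have h1 := ll_app hs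
    have h2 : ((ss D0 : ℕ) : ℝ) ≤ (R : ℝ) := by exact_mod_cast (ss_suffix hs).trans hx
    have h3 : ((ss x : ℕ) : ℝ) ≤ (R : ℝ) := by exact_mod_cast hx
    have h4 : (0 : ℝ) ≤ (ss D0 : ℝ) := Nat.cast_nonneg _
    have h5 : (0 : ℝ) ≤ (ss x : ℝ) := Nat.cast_nonneg _
    have h6 : ((ss D0 : ℕ) : ℝ) * (ss x : ℝ) ≤ (R : ℝ) * (R : ℝ) := mul_le_mul h2 h3 h5 (h4.trans h2)
    have h7 : 3 * ww D0 * (ss x : ℝ) = 3 * ee D0 * ((ss D0 : ℝ) * (ss x : ℝ)) := by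
      unfold ww; ring
    rw [h7] at h1
    have h8 : 3 * ee D0 * ((ss D0 : ℝ) * (ss x : ℝ)) ≤ 3 * ee D0 * ((R : ℝ) * (R : ℝ)) :=
      mul_le_mul_of_nonneg_left h6 (by positivity)
    calc |ll x - LL D0 (uu x)| ≤ 3 * ee D0 * ((R : ℝ) * (R : ℝ)) := h1.trans h8
      _ = 3 * (R : ℝ) ^ 2 * ee D0 := by ring
  · rw [← LL_edge1 he, sub_self, abs_zero]; exact h0
  · rw [← LL_edge2 he, sub_self, abs_zero]; exact h0

theorem cl_le {D0 x : List Bool} (h : CC D0 (uu x)) : ll x ≤ LL D0 (uu x) := by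
  rcases cc_cases h with hs | he | he
  · have h1 := tpc_mono hs (cc_of_suffix (List.suffix_refl x))
    rw [LL_uu] at h1
    have h2 := ee_pos x
    linarith
  · exact (LL_edge1 he).le
  · exact (LL_edge2 he).le

theorem Hd_lin (D0 : List Bool) (u1 u2 u3 : ℤ × ℤ) :
    (det u2 u3 : ℝ) * LL D0 u1 - (det u1 u3 : ℝ) * LL D0 u2 + (det u1 u2 : ℝ) * LL D0 u3 = 0 := by
  simp only [LL, det]
  push_cast
  ring

theorem hup {R : ℕ} {D0 p1 p2 p3 : List Bool} (h1 : CC D0 (uu p1)) (h2 : CC D0 (uu p2)) (h3 : CC D0 (uu p3))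
    (s1 : ss p1 ≤ R) (s2 : ss p2 ≤ R) (s3 : ss p3 ≤ R) : |Hd p1 p2 p3| ≤ 9 * (R : ℝ) ^ 4 * ee D0 := by
  have e1 := cl h1 s1
  have e2 := cl h2 s2
  have e3 := cl h3 s3
  have hl := Hd_lin D0 (uu p1) (uu p2) (uu p3)
  have hR : (0 : ℝ) ≤ (R : ℝ) := Nat.cast_nonneg _
  have hee := (ee_pos D0).le
  have d23 := tpc_det s2 s3
  have d13 := tpc_det s1 s3
  have d12 := tpc_det s1 s2
  have key : Hd p1 p2 p3 = (det (uu p2) (uu p3) : ℝ) * (ll p1 - LL D0 (uu p1))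
      - (det (uu p1) (uu p3) : ℝ) * (ll p2 - LL D0 (uu p2))
      + (det (uu p1) (uu p2) : ℝ) * (ll p3 - LL D0 (uu p3)) := by
    unfold Hd
    linear_combination hl
  have hb : ∀ {d x : ℝ}, |d| ≤ (R : ℝ) ^ 2 → |x| ≤ 3 * (R : ℝ) ^ 2 * ee D0 →
      |d * x| ≤ 3 * (R : ℝ) ^ 4 * ee D0 := by
    intro d x hd hx
    rw [abs_mul]
    calc |d| * |x| ≤ (R : ℝ) ^ 2 * (3 * (R : ℝ) ^ 2 * ee D0) :=
          mul_le_mul hd hx (abs_nonneg _) (by positivity)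
      _ = 3 * (R : ℝ) ^ 4 * ee D0 := by ring
  have f1 := hb d23 e1
  have f2 := hb d13 e2
  have f3 := hb d12 e3
  rw [key]
  rw [abs_le] at f1 f2 f3 ⊢
  constructor
  · linarith [f1.1, f2.2, f3.1]
  · linarith [f1.2, f2.1, f3.2]

theorem Hd_rev (p1 p2 p3 : List Bool) : Hd p3 p2 p1 = - Hd p1 p2 p3 := by
  simp only [Hd, det]
  push_cast
  ring

theorem close2 {R : ℕ} {X Y : List Bool} {M : Mt} {a t : ℝ} {u1 u2 : ℤ × ℤ} (hd : det u1 u2 ≠ 0)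
    (n1 : nm u1 ≤ R) (n2 : nm u2 ≤ R) (ht : 0 ≤ t) (h1 : |a * LL X u1 - LL Y (ap M u1)| ≤ t)
    (h2 : |a * LL X u2 - LL Y (ap M u2)| ≤ t) (v : ℤ × ℤ) :
    |a * LL X v - LL Y (ap M v)| ≤ 2 * R * t * nm v := by
  obtain ⟨G, hG⟩ : ∃ G : ℤ × ℤ → ℝ, ∀ w, G w = a * LL X w - LL Y (ap M w) := ⟨_, fun _ => rfl⟩
  rw [← hG] at h1 h2 ⊢
  have hadd : ∀ w w', G (w + w') = G w + G w' := by
    intro w w'
    rw [hG, hG, hG, ap_add, LL_add, LL_add]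
    ring
  have hsm : ∀ (k : ℤ) w, G (k • w) = (k : ℝ) * G w := by
    intro k w
    rw [hG, hG, ap_smul, LL_smul, LL_smul]
    ring
  have h3 : (det u1 u2 : ℝ) * G v = (det v u2 : ℝ) * G u1 + (det u1 v : ℝ) * G u2 := by
    rw [← hsm, ind_decomp u1 u2 v, hadd, hsm, hsm]
  have hd1 : (1 : ℝ) ≤ |(det u1 u2 : ℝ)| := by
    have : (1 : ℤ) ≤ |det u1 u2| := Int.one_le_abs hd
    exact_mod_cast this
  have hv := nm_nonneg v
  have hR : (0 : ℝ) ≤ R := (nm_nonneg u1).trans n1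
  have g1' : |(det v u2 : ℝ)| ≤ nm v * R :=
    (det_le v u2).trans (mul_le_mul_of_nonneg_left n2 hv)
  have g2' : |(det u1 v : ℝ)| ≤ R * nm v :=
    (det_le u1 v).trans (mul_le_mul_of_nonneg_right n1 hv)
  calc |G v| = 1 * |G v| := (one_mul _).symm
    _ ≤ |(det u1 u2 : ℝ)| * |G v| := mul_le_mul_of_nonneg_right hd1 (abs_nonneg _)
    _ = |(det v u2 : ℝ) * G u1 + (det u1 v : ℝ) * G u2| := by rw [← abs_mul, h3]
    _ ≤ |(det v u2 : ℝ) * G u1| + |(det u1 v : ℝ) * G u2| := abs_add_le _ _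
    _ = |(det v u2 : ℝ)| * |G u1| + |(det u1 v : ℝ)| * |G u2| := by rw [abs_mul, abs_mul]
    _ ≤ (nm v * R) * t + (R * nm v) * t :=
        add_le_add (mul_le_mul g1' h1 (abs_nonneg _) (by positivity))
          (mul_le_mul g2' h2 (abs_nonneg _) (by positivity))
    _ = 2 * R * t * nm v := by ring

end Pool.Agent.Lib.MP_94ab62_ntZ
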